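import Pool.Agent.MVD.BVDefs

/-!
# Module BVAP: progressions and primitive characters

`ap_decomp_m`: orthogonality of characters (see `ap_decomp` in Lib/ANT/BVRiesz, no main term here).
`psw_prim`: if `(n,q)=1` both sides are `cw w n * χ* n` (`DirichletCharacter.primitiveCharacter_apply_of_isCoprime`, see `prim_compare` in BVRed),
otherwise `χ n = 0` and, `q = r * (q/r)` with `r` the conductor, either `(n,r) ≠ 1` (so `χ* n = 0`) or `(n, q/r) ≠ 1` (so `cw = 0`).
`ap_prim`: sum over all `χ` mod `q`, inject `χ ↦ (conductor, primitive character)` (`prim_injective`, see `sum_prim_le` in BVRed; here the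
trivial character and `r = 1` are included).
-/

open Finset Complex
open scoped ArithmeticFunction.Moebius ArithmeticFunction.zeta

namespace Pool.Agent.MVD

open Pool.Agent.ANT Pool.Agent.SInt

theorem ap_decomp_m {q : ℕ} [NeZero q] {a : ZMod q} (ha : IsUnit a) (X y : ℝ) (w : ℕ) :
    ‖SMm X y w q a‖ ≤ (1 : ℝ) / q.totient * ∑ χ : DirichletCharacter ℂ q, ‖RMm X y (psw w χ)‖ := by
  have hφ : (0:ℝ) < q.totient := by
    exact_mod_cast Nat.totient_pos.mpr (Nat.pos_of_ne_zero (NeZero.ne q))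
  have h1 : ∑ χ : DirichletCharacter ℂ q, χ a⁻¹ * RMm X y (psw w χ) =
      (q.totient : ℂ) * SMm X y w q a := by
    unfold RMm SMm psw
    simp only [Finset.mul_sum]
    rw [Finset.sum_comm]
    rw [Finset.sum_filter]
    refine Finset.sum_congr rfl fun n _ => ?_
    have h2 := DirichletCharacter.sum_char_inv_mul_char_eq ℂ ha (n : ZMod q)
    have h3 : ∑ χ : DirichletCharacter ℂ q, χ a⁻¹ * (muC n * (cw w n * χ n) * (WR y n : ℂ)) =
        muC n * cw w n * (WR y n : ℂ) * ∑ χ : DirichletCharacter ℂ q, χ a⁻¹ * χ n := by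
      rw [Finset.mul_sum]
      refine Finset.sum_congr rfl fun χ _ => ?_
      ring
    rw [h3, h2]
    by_cases h4 : (n : ZMod q) = a
    · rw [if_pos h4, if_pos h4.symm]; ring
    · rw [if_neg h4, if_neg (fun h => h4 h.symm)]; ring
  have h4 : (q.totient : ℝ) * ‖SMm X y w q a‖ ≤
      ∑ χ : DirichletCharacter ℂ q, ‖RMm X y (psw w χ)‖ := by
    have h5 : (q.totient : ℝ) * ‖SMm X y w q a‖ = ‖(q.totient : ℂ) * SMm X y w q a‖ := by
      rw [norm_mul, Complex.norm_natCast]
    rw [h5, ← h1]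
    refine (norm_sum_le _ _).trans (Finset.sum_le_sum fun χ _ => ?_)
    rw [norm_mul]
    have := DirichletCharacter.norm_le_one χ a⁻¹
    calc _ ≤ 1 * ‖RMm X y (psw w χ)‖ := by gcongr
      _ = _ := one_mul _
  rw [one_div, ← div_eq_inv_mul, le_div_iff₀ hφ, mul_comm]
  exact h4

theorem psw_prim {q : ℕ} [NeZero q] (χ : DirichletCharacter ℂ q) (w n : ℕ) :
    psw w χ n = psw (w * (q / χ.conductor)) χ.primitiveCharacter n := by
  have hdvd := χ.conductor_dvd_level
  have hq : q = χ.conductor * (q / χ.conductor) := (Nat.mul_div_cancel' hdvd).symm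
  unfold psw cw
  by_cases h : n.Coprime q
  · have h2 : IsCoprime ((n:ℕ):ℤ) (q:ℤ) := Nat.isCoprime_iff_coprime.mpr h
    have h3 := DirichletCharacter.primitiveCharacter_apply_of_isCoprime χ h2
    rw [Int.cast_natCast, Int.cast_natCast] at h3
    rw [h3]
    have h4 : n.Coprime (q / χ.conductor) := Nat.Coprime.coprime_dvd_right (Nat.div_dvd_of_dvd hdvd) h
    congr 1
    by_cases h5 : n.Coprime w
    · rw [if_pos h5, if_pos (Nat.Coprime.mul_right h5 h4)]
    · rw [if_neg h5, if_neg (fun h6 => h5 (Nat.Coprime.coprime_mul_right_right h6))]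
  · have h1 : ¬ IsUnit (n : ZMod q) := fun h' => h ((ZMod.isUnit_iff_coprime n q).mp h')
    rw [MulChar.map_nonunit _ h1, mul_zero]
    by_cases h5 : n.Coprime (w * (q / χ.conductor))
    · have h6 : n.Coprime (q / χ.conductor) := Nat.Coprime.coprime_mul_left_right h5
      have h7 : ¬ n.Coprime χ.conductor := fun h8 => h (by rw [hq]; exact Nat.Coprime.mul_right h8 h6)
      have h8 : ¬ IsUnit (n : ZMod χ.conductor) := fun h' =>
        h7 ((ZMod.isUnit_iff_coprime n χ.conductor).mp h')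
      rw [MulChar.map_nonunit _ h8, mul_zero]
    · rw [if_neg h5, zero_mul]

theorem ap_prim {q : ℕ} [NeZero q] {a : ZMod q} (ha : IsUnit a) (X y : ℝ) (w : ℕ) :
    ‖SMm X y w q a‖ ≤ (1 : ℝ) / q.totient *
      ∑ r ∈ q.divisors, ∑ χ ∈ Prim r, ‖RMm X y (psw (w * (q / r)) χ)‖ := by
  classical
  refine (ap_decomp_m ha X y w).trans (mul_le_mul_of_nonneg_left ?_ (by positivity))
  set F : (Σ r : ℕ, DirichletCharacter ℂ r) → ℝ :=
    fun x => ‖RMm X y (psw (w * (q / x.1)) x.2)‖ with hF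
  have hF0 : ∀ x, 0 ≤ F x := fun x => norm_nonneg _
  have h1 : ∑ χ : DirichletCharacter ℂ q, ‖RMm X y (psw w χ)‖ =
      ∑ χ : DirichletCharacter ℂ q, F ⟨χ.conductor, χ.primitiveCharacter⟩ := by
    refine Finset.sum_congr rfl fun χ _ => ?_
    have : psw w χ = psw (w * (q / χ.conductor)) χ.primitiveCharacter :=
      funext fun n => psw_prim χ w n
    rw [this]
  rw [h1, Finset.sum_sigma' (f := fun r χ => ‖RMm X y (psw (w * (q / r)) χ)‖)]
  rw [← Finset.sum_image (s := (Finset.univ : Finset (DirichletCharacter ℂ q)))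
    (g := fun χ => (⟨χ.conductor, χ.primitiveCharacter⟩ : Σ r : ℕ, DirichletCharacter ℂ r))
    (f := F) (fun a _ b _ h => prim_injective h)]
  refine Finset.sum_le_sum_of_subset_of_nonneg ?_ fun x _ _ => hF0 x
  intro x hx
  obtain ⟨χ, -, rfl⟩ := Finset.mem_image.mp hx
  refine Finset.mem_sigma.mpr ⟨?_, ?_⟩
  · exact Nat.mem_divisors.mpr ⟨χ.conductor_dvd_level, NeZero.ne q⟩
  · exact mem_Prim.mpr χ.primitiveCharacter_isPrimitive

end Pool.Agent.MVD
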