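import Pool.Agent.MVD.BVDefs

/-!
# Module BVCong: the congruence conditions

`(q,N) = 1`, `(d,r) = 1`. The `k ∈ [1,u]` with `k ≡ b (r)` and `d ∣ N - qk`: put `g = (d,N)`, `h = (b,r)` (`= r` if `b = 0`).
Such `k` are multiples of `g` (`g ∣ qk`, `(g,q) ∣ (N,q) = 1`) and of `h`, `(g,h) = 1`, so `k = g h n`; the conditions become
`q h n ≡ N/g (d/g)` and `g n ≡ b/h (r/h)`. If `(q, d/g) > 1` there is no such `k` (a prime `p ∣ (q, d/g)` would divide `N/g`). Otherwise
`q h` is invertible mod `d/g`, `N/g` is coprime to `d/g`, `g` is invertible mod `r/h`, `b/h` is coprime to `r/h`, and by CRT (`(d/g, r/h) = 1`)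
the conditions say `n ≡ c` mod `D = (d/g)(r/h)` with `(c,D) = 1`.
-/

open Finset Complex
open scoped ArithmeticFunction.Moebius ArithmeticFunction.zeta

namespace Pool.Agent.MVD

open Pool.Agent.ANT Pool.Agent.SInt

namespace BVCongAux

/-- the reduced conditions -/
def AA (q g h d' N' r' b' n : ℕ) : Prop :=
  g * n ≡ b' [MOD r'] ∧ (d' : ℤ) ∣ (N' : ℤ) - q * h * n

/-- the conditions on `k` in terms of `n` -/
theorem cond_iff {q g h d' N' r' b' : ℕ} (hg : 0 < g) (hh : 0 < h) (hb : h * b' < h * r')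
    (hqN : q.Coprime (g * N')) (hdr : (g * d').Coprime (h * r')) (k : ℕ) :
    (k % (h * r') = h * b' ∧ ((g * d' : ℕ) : ℤ) ∣ ((g * N' : ℕ) : ℤ) - q * k) ↔
      ∃ n, k = g * h * n ∧ AA q g h d' N' r' b' n := by
  constructor
  · rintro ⟨h1, h2⟩
    have hhk : h ∣ k := by
      have h3 : k = h * r' * (k / (h * r')) + h * b' := by
        rw [← h1]; exact (Nat.div_add_mod k (h * r')).symm
      rw [h3]
      exact dvd_add (dvd_mul_of_dvd_left (dvd_mul_right _ _) _) (dvd_mul_right _ _)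
    have hgk : g ∣ k := by
      have h3 : ((g : ℕ) : ℤ) ∣ ((q * k : ℕ) : ℤ) := by
        have h4 : ((g : ℕ) : ℤ) ∣ ((g * N' : ℕ) : ℤ) - q * k :=
          dvd_trans (by push_cast; exact dvd_mul_right _ _) h2
        have h5 : ((g : ℕ) : ℤ) ∣ ((g * N' : ℕ) : ℤ) := by push_cast; exact dvd_mul_right _ _
        have h6 := dvd_sub h5 h4
        rw [sub_sub_cancel] at h6
        push_cast
        exact h6
      rw [Int.natCast_dvd_natCast] at h3
      exact (Nat.Coprime.coprime_dvd_left (Dvd.intro _ rfl : g ∣ g * N') hqN.symm).dvd_of_dvd_mul_left h3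
    have hgh : g.Coprime h := Nat.Coprime.coprime_dvd_left (Dvd.intro _ rfl)
      (Nat.Coprime.coprime_dvd_right (Dvd.intro _ rfl) hdr)
    obtain ⟨n, hn⟩ := hgh.mul_dvd_of_dvd_of_dvd hgk hhk
    refine ⟨n, hn, ?_, ?_⟩
    · have h3 : h * (g * n) ≡ h * b' [MOD h * r'] := by
        have h4 : k ≡ h * b' [MOD h * r'] := by
          unfold Nat.ModEq
          rw [h1, Nat.mod_eq_of_lt hb]
        rw [hn] at h4
        have h5 : h * (g * n) = g * h * n := by ring
        rwa [h5]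
      exact Nat.ModEq.mul_left_cancel' hh.ne' h3
    · rw [hn] at h2
      have h3 : ((g * N' : ℕ) : ℤ) - q * ((g * h * n : ℕ) : ℤ) = g * ((N' : ℤ) - q * h * n) := by
        push_cast; ring
      rw [h3] at h2
      push_cast at h2
      exact (mul_dvd_mul_iff_left (by exact_mod_cast hg.ne')).1 h2
  · rintro ⟨n, hn, h1, h2⟩
    constructor
    · have h3 : h * (g * n) ≡ h * b' [MOD h * r'] := h1.mul_left' h
      have h5 : h * (g * n) = g * h * n := by ring
      rw [h5, ← hn] at h3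
      unfold Nat.ModEq at h3
      rwa [Nat.mod_eq_of_lt hb] at h3
    · rw [hn]
      have h3 : ((g * N' : ℕ) : ℤ) - q * ((g * h * n : ℕ) : ℤ) = g * ((N' : ℤ) - q * h * n) := by
        push_cast; ring
      rw [h3]
      push_cast
      exact mul_dvd_mul_left _ h2

/-- one solution is coprime to the modulus -/
theorem cop {q g h d' N' r' b' n₀ : ℕ} (hN : d'.Coprime N') (hb : b'.Coprime r')
    (h₀ : AA q g h d' N' r' b' n₀) : n₀.Coprime (d' * r') := by
  obtain ⟨h1, h2⟩ := h₀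
  refine Nat.Coprime.mul_right ?_ ?_
  · have h3 : ((n₀.gcd d' : ℕ) : ℤ) ∣ (N' : ℤ) := by
      have h4 : ((n₀.gcd d' : ℕ) : ℤ) ∣ (N' : ℤ) - q * h * n₀ :=
        dvd_trans (by exact_mod_cast Nat.gcd_dvd_right _ _) h2
      have h5 : ((n₀.gcd d' : ℕ) : ℤ) ∣ (q : ℤ) * h * n₀ :=
        dvd_mul_of_dvd_right (by exact_mod_cast Nat.gcd_dvd_left _ _) _
      have h6 := dvd_add h4 h5
      rwa [sub_add_cancel] at h6
    rw [Int.natCast_dvd_natCast] at h3
    exact Nat.eq_one_of_dvd_coprimes hN (Nat.gcd_dvd_right _ _) h3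
  · have h3 : n₀.gcd r' ∣ b' := by
      have h4 : g * n₀ ≡ b' [MOD n₀.gcd r'] := h1.of_dvd (Nat.gcd_dvd_right _ _)
      have h5 : n₀.gcd r' ∣ g * n₀ := dvd_mul_of_dvd_right (Nat.gcd_dvd_left _ _) _
      exact (h4.dvd_iff dvd_rfl).1 h5
    exact Nat.eq_one_of_dvd_coprimes hb h3 (Nat.gcd_dvd_right _ _)

/-- all solutions -/
theorem AA_iff {q g h d' N' r' b' n₀ : ℕ} (hqN : q.Coprime (g * N'))
    (hdr : (g * d').Coprime (h * r')) (h₀ : AA q g h d' N' r' b' n₀) (n : ℕ) :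
    AA q g h d' N' r' b' n ↔ n ≡ n₀ [MOD d' * r'] := by
  obtain ⟨h1, h2⟩ := h₀
  have hgr : g.Coprime r' := Nat.Coprime.coprime_dvd_left (Dvd.intro _ rfl)
    (Nat.Coprime.coprime_dvd_right (Dvd.intro_left _ rfl) hdr)
  have hdh : d'.Coprime h := Nat.Coprime.coprime_dvd_left (Dvd.intro_left _ rfl)
    (Nat.Coprime.coprime_dvd_right (Dvd.intro _ rfl) hdr)
  have hdr' : d'.Coprime r' := Nat.Coprime.coprime_dvd_left (Dvd.intro_left _ rfl)
    (Nat.Coprime.coprime_dvd_right (Dvd.intro_left _ rfl) hdr)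
  have hdq : d'.Coprime q := by
    have h3 : ((d'.gcd q : ℕ) : ℤ) ∣ (N' : ℤ) := by
      have h4 : ((d'.gcd q : ℕ) : ℤ) ∣ (N' : ℤ) - q * h * n₀ :=
        dvd_trans (by exact_mod_cast Nat.gcd_dvd_left _ _) h2
      have h5 : ((d'.gcd q : ℕ) : ℤ) ∣ (q : ℤ) * h * n₀ := by
        rw [mul_assoc]
        exact dvd_mul_of_dvd_left (by exact_mod_cast Nat.gcd_dvd_right _ _) _
      have h6 := dvd_add h4 h5
      rwa [sub_add_cancel] at h6
    rw [Int.natCast_dvd_natCast] at h3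
    exact Nat.eq_one_of_dvd_coprimes hqN (Nat.gcd_dvd_right _ _) (dvd_mul_of_dvd_right h3 _)
  have hd : (d' : ℤ) ∣ (N' : ℤ) - q * h * n ↔ n ≡ n₀ [MOD d'] := by
    constructor
    · intro h3
      have h4 := dvd_sub h3 h2
      have h5 : (N' : ℤ) - q * h * n - ((N' : ℤ) - q * h * n₀) = ((q * h : ℕ) : ℤ) * (n₀ - n) := by
        push_cast; ring
      rw [h5] at h4
      have h6 : IsCoprime (d' : ℤ) ((q * h : ℕ) : ℤ) :=
        Nat.isCoprime_iff_coprime.2 (Nat.Coprime.mul_right hdq hdh)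
      have h7 := h6.dvd_of_dvd_mul_left h4
      exact (Nat.modEq_iff_dvd).2 h7
    · intro h3
      have h4 : (d' : ℤ) ∣ (n₀ : ℤ) - n := (Nat.modEq_iff_dvd).1 h3
      have h5 : (N' : ℤ) - q * h * n = ((N' : ℤ) - q * h * n₀) + q * h * ((n₀ : ℤ) - n) := by ring
      rw [h5]
      exact dvd_add h2 (dvd_mul_of_dvd_right h4 _)
  have hr : g * n ≡ b' [MOD r'] ↔ n ≡ n₀ [MOD r'] := by
    constructor
    · intro h3
      have h4 : g * n ≡ g * n₀ [MOD r'] := h3.trans h1.symm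
      exact Nat.ModEq.cancel_left_of_coprime (by rw [Nat.gcd_comm]; exact hgr) h4
    · intro h3
      exact (h3.mul_left g).trans h1
  unfold AA
  rw [hd, hr, ← Nat.modEq_and_modEq_iff_modEq_mul hdr']
  tauto

end BVCongAux

open BVCongAux

theorem cong_red {q N d r b : ℕ} (hqN : q.Coprime N) (hdr : d.Coprime r) (hd0 : 0 < d) (hr : 0 < r)
    (hb : b < r) (u : ℕ) :
    (∀ F : ℕ → ℂ, ∑ k ∈ (Icc 1 u).filter (fun k : ℕ => k % r = b ∧ (d : ℤ) ∣ (N : ℤ) - q * k), F k = 0) ∨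
    ∃ c : ℕ, c.Coprime (d / d.gcd N * (r / b.gcd r)) ∧ ∀ F : ℕ → ℂ,
      ∑ k ∈ (Icc 1 u).filter (fun k : ℕ => k % r = b ∧ (d : ℤ) ∣ (N : ℤ) - q * k), F k =
      ∑ n ∈ (Ioc 0 (u / (d.gcd N * b.gcd r))).filter (fun n : ℕ =>
        (n : ZMod (d / d.gcd N * (r / b.gcd r))) = (c : ZMod (d / d.gcd N * (r / b.gcd r)))),
        F (d.gcd N * b.gcd r * n) := by
  have hg : 0 < d.gcd N := Nat.gcd_pos_of_pos_left _ hd0
  have hh : 0 < b.gcd r := Nat.gcd_pos_of_pos_right _ hr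
  have hN' : (d / d.gcd N).Coprime (N / d.gcd N) := Nat.coprime_div_gcd_div_gcd hg
  have hb' : (b / b.gcd r).Coprime (r / b.gcd r) := Nat.coprime_div_gcd_div_gcd hh
  have e1 : d.gcd N * (d / d.gcd N) = d := Nat.mul_div_cancel' (Nat.gcd_dvd_left _ _)
  have e2 : d.gcd N * (N / d.gcd N) = N := Nat.mul_div_cancel' (Nat.gcd_dvd_right _ _)
  have e3 : b.gcd r * (b / b.gcd r) = b := Nat.mul_div_cancel' (Nat.gcd_dvd_left _ _)
  have e4 : b.gcd r * (r / b.gcd r) = r := Nat.mul_div_cancel' (Nat.gcd_dvd_right _ _)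
  set g := d.gcd N with hgdef
  set h := b.gcd r with hhdef
  set d' := d / g with hd'
  set N' := N / g with hN'def
  set b' := b / h with hb'def
  set r' := r / h with hr'def
  have hc := cond_iff (q := q) (g := g) (h := h) (d' := d') (N' := N') (r' := r') (b' := b') hg hh
    (by rw [e3, e4]; exact hb) (by rw [e2]; exact hqN) (by rw [e1, e4]; exact hdr)
  rw [e1, e2, e3, e4] at hc
  by_cases hne : ((Icc 1 u).filter (fun k : ℕ => k % r = b ∧ (d : ℤ) ∣ (N : ℤ) - q * k)).Nonempty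
  · right
    obtain ⟨k₀, hk₀⟩ := hne
    rw [mem_filter] at hk₀
    obtain ⟨n₀, -, hn₀⟩ := (hc k₀).1 hk₀.2
    have hiff := AA_iff (q := q) (by rw [e2]; exact hqN) (by rw [e1, e4]; exact hdr) hn₀
    refine ⟨n₀, cop hN' hb' hn₀, ?_⟩
    intro F
    have hgh : 0 < g * h := Nat.mul_pos hg hh
    refine Finset.sum_nbij' (fun k => k / (g * h)) (fun n => g * h * n) ?_ ?_ ?_ ?_ ?_
    · intro k hk
      rw [mem_filter, mem_Icc] at hk
      obtain ⟨n, hn, hA⟩ := (hc k).1 hk.2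
      have h1 : k / (g * h) = n := by rw [hn]; exact Nat.mul_div_cancel_left _ hgh
      rw [mem_filter, mem_Ioc, h1]
      refine ⟨⟨?_, ?_⟩, ?_⟩
      · rcases Nat.eq_zero_or_pos n with h0 | h0
        · rw [h0, mul_zero] at hn
          omega
        · exact h0
      · rw [← h1]; exact Nat.div_le_div_right hk.1.2
      · exact (ZMod.natCast_eq_natCast_iff _ _ _).2 ((hiff n).1 hA)
    · intro n hn
      rw [mem_filter, mem_Ioc] at hn
      rw [mem_filter, mem_Icc]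
      refine ⟨⟨Nat.mul_pos hgh hn.1.1, ?_⟩, ?_⟩
      · calc g * h * n ≤ g * h * (u / (g * h)) := Nat.mul_le_mul_left _ hn.1.2
          _ ≤ u := Nat.mul_div_le _ _
      · exact (hc _).2 ⟨n, rfl, (hiff n).2 ((ZMod.natCast_eq_natCast_iff _ _ _).1 hn.2)⟩
    · intro k hk
      rw [mem_filter, mem_Icc] at hk
      obtain ⟨n, hn, hA⟩ := (hc k).1 hk.2
      exact Nat.mul_div_cancel' (by rw [hn]; exact dvd_mul_right _ _)
    · intro n _
      exact Nat.mul_div_cancel_left _ hgh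
    · intro k hk
      rw [mem_filter, mem_Icc] at hk
      obtain ⟨n, hn, hA⟩ := (hc k).1 hk.2
      congr 1
      exact (Nat.mul_div_cancel' (by rw [hn]; exact dvd_mul_right _ _)).symm
  · left
    intro F
    rw [not_nonempty_iff_eq_empty] at hne
    rw [hne, sum_empty]

end Pool.Agent.MVD
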