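import Pool.Agent.MVD.Par
import Pool.Agent.Lib.ANT.BVMain
import Pool.Agent.Lib.ANT.Major
import Pool.Agent.Lib.ANT.Coprime
import Pool.Agent.Lib.ANT.PolyaV

/-!
# Bombieri-Vinogradov for `μ` with a coprimality condition: definitions

Everything is modelled on the proof for `Λ` in Lib/ANT: BVBasic, BVMean (`lambda_pointwise`, `G4_mean`), BVRed, BVRiesz
(`ap_decomp`, `large_moduli`), BVMain (`riesz_bv`), BV (unsmoothing).

* `cw w n` = indicator of `(n, w) = 1`; `psw w χ n = cw w n * χ n` (a completely multiplicative function);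
* `RMm X y ψ = ∑_{n ≤ X} μ(n) ψ(n) (1 - n/y)_+` (Riesz mean);
* `SMm X y w q a = ∑_{n ≤ X, n ≡ a (q), (n,w)=1} μ(n) (1 - n/y)_+`;
* `MuAP w q a u = ∑_{n ≤ u, n ≡ a (q), (n,w)=1} μ(n)` (sharp sum);
* `G4m` = the bilinear majorant (analogue of `G4`), `Mj` = the majorant used for primitive characters.

Goal of the block: `bv_mu` (file BVSharp) and from it `Z_two` (file ZTwoIface).
-/

open Finset Complex
open scoped ArithmeticFunction.Moebius ArithmeticFunction.zeta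

namespace Pool.Agent.MVD

open Pool.Agent.ANT Pool.Agent.SInt

/-- Indicator of `n` coprime to `w`. -/
noncomputable def cw (w n : ℕ) : ℂ := if n.Coprime w then 1 else 0

/-- The character restricted to `n` coprime to `w`. -/
noncomputable def psw (w : ℕ) {q : ℕ} (χ : DirichletCharacter ℂ q) (n : ℕ) : ℂ := cw w n * χ n

/-- Dyadic block of the tail of `μ`. -/
noncomputable def blkm (U i m : ℕ) : ℂ := if Nat.log 2 m = i then Hf U m else 0

/-- The bilinear part of the majorant. -/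
noncomputable def G4m (x : ℝ) (U : ℕ) (ψ : ℕ → ℂ) : ℝ :=
  ∑ i ∈ range (Nat.log 2 ⌊x⌋₊ + 1), Real.exp 1 * Real.log x / Real.pi *
    Gint (fun m => blkm U i m * ψ m) (fun n => (Hf U * (ζ : ArithmeticFunction ℂ)) n * ψ n)
      (2 ^ (i + 1)) (⌊x⌋₊ / 2 ^ i) (Real.log x)⁻¹

/-- Riesz mean of `μ ψ`. -/
noncomputable def RMm (X y : ℝ) (ψ : ℕ → ℂ) : ℂ := ∑ n ∈ Ioc 0 ⌊X⌋₊, muC n * ψ n * (WR y n : ℂ)

/-- Riesz mean in a progression, with a coprimality condition. -/
noncomputable def SMm (X y : ℝ) (w q : ℕ) (a : ZMod q) : ℂ :=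
  ∑ n ∈ (Ioc 0 ⌊X⌋₊).filter (fun n : ℕ => (n : ZMod q) = a), muC n * cw w n * (WR y n : ℂ)

/-- Sharp sum in a progression, with a coprimality condition. -/
noncomputable def MuAP (w q : ℕ) (a : ZMod q) (u : ℕ) : ℂ :=
  ∑ n ∈ (Ioc 0 u).filter (fun n : ℕ => (n : ZMod q) = a), muC n * cw w n

/-- The majorant for primitive characters. -/
noncomputable def Mj (X T S : ℝ) (U w : ℕ) {r : ℕ} (χ : DirichletCharacter ℂ r) : ℝ :=
  if (r : ℝ) ≤ T then S * r * tauR w ^ 2 else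
    4 * (U : ℝ) ^ 2 * (tauR w * (2 * √(r : ℝ) * (1 + Real.log r))) * Real.log X + G4m X U (psw w χ)

lemma cw_mul (w m n : ℕ) : cw w (m * n) = cw w m * cw w n := by
  unfold cw
  by_cases h1 : m.Coprime w
  · by_cases h2 : n.Coprime w
    · rw [if_pos (Nat.Coprime.mul_left h1 h2), if_pos h1, if_pos h2, one_mul]
    · rw [if_neg (fun h => h2 (Nat.Coprime.coprime_mul_left h)), if_neg h2, mul_zero]
  · rw [if_neg (fun h => h1 (Nat.Coprime.coprime_mul_right h)), if_neg h1, zero_mul]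

lemma norm_cw_le (w n : ℕ) : ‖cw w n‖ ≤ 1 := by
  unfold cw; split_ifs <;> simp

lemma psw_mul (w : ℕ) {q : ℕ} (χ : DirichletCharacter ℂ q) (m n : ℕ) :
    psw w χ (m * n) = psw w χ m * psw w χ n := by
  unfold psw
  rw [cw_mul]
  push_cast
  rw [map_mul]
  ring

lemma norm_psw_le (w : ℕ) {q : ℕ} (χ : DirichletCharacter ℂ q) (n : ℕ) : ‖psw w χ n‖ ≤ 1 := by
  unfold psw
  rw [norm_mul]
  have h1 := norm_cw_le w n
  have h2 : ‖χ (n : ZMod q)‖ ≤ 1 := DirichletCharacter.norm_le_one _ _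
  calc _ ≤ (1 : ℝ) * 1 := by gcongr
    _ = 1 := one_mul 1

lemma norm_muC_le (n : ℕ) : ‖muC n‖ ≤ 1 := by
  unfold muC
  rw [Complex.norm_intCast]
  exact_mod_cast ArithmeticFunction.abs_moebius_le_one

end Pool.Agent.MVD
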