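import Pool.Agent.MVD.BVSum

/-!
# Module BVFin: choice of the parameters

`Q^4 ≤ X`. In `riesz_mu_raw` take `B = A + 14`, `T = (log X)^B`, `U = ⌈X^(1/16)⌉₊` (so `X^(1/16) ≤ U ≤ 2 X^(1/16)`), `m = A + 8 + 2B`.
`Hs Q ≤ 1 + log Q ≤ 2 log X`. Main terms `K X (log X)^(8 + 2B - m)`, `X (log X)^(8 + 6 - B)`; all other terms are `≤ C X^(31/32) (log X)^c`
(`U² √Q Q ≤ 4 X^(1/8 + 3/8)`, `X/√U ≤ X^(31/32)`, `Q √X ≤ X^(3/4)`), use `log_pow_le_rpow` (Lib/ANT). `Q = 0` trivial. See the end of `riesz_bv` (BVMain).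
-/

open Finset Complex
open scoped ArithmeticFunction.Moebius ArithmeticFunction.zeta

namespace Pool.Agent.MVD

open Pool.Agent.ANT Pool.Agent.SInt

theorem riesz_mu (A : ℕ) : ∃ C : ℝ, 0 < C ∧ ∀ X : ℝ, 3 ≤ X → ∀ w : ℕ, w ≠ 0 → ∀ Q : ℕ,
    (Q : ℝ) ^ 4 ≤ X → ∀ (y : ℕ → ℝ) (a : ℕ → ℕ), (∀ q, 0 < y q ∧ y q ≤ X) →
    (∀ q, (a q).Coprime q) →
    ∑ q ∈ Ioc 0 Q, ‖SMm X (y q) w q (a q : ZMod q)‖ ≤ C * tauR w ^ 2 * X / Real.log X ^ A := by
  obtain ⟨B, hB⟩ : ∃ B : ℕ, B = A + 14 := ⟨_, rfl⟩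
  obtain ⟨m, hm⟩ : ∃ m : ℕ, m = A + 8 + 2 * B := ⟨_, rfl⟩
  obtain ⟨K, hK, hraw⟩ := riesz_mu_raw m
  obtain ⟨Cl, hCl, hlogp⟩ := log_pow_le_rpow (A + 14) (show (0:ℝ) < 1/32 by norm_num)
  refine ⟨256 * K + 4000000 + 17000000 * Cl, by positivity,
    fun X hX w hw Q hQX y a hy ha => ?_⟩
  have hX0 : 0 < X := by linarith
  have hX1 : 1 ≤ X := by linarith
  have hlog := one_le_log hX
  set L := Real.log X with hL
  have hL0 : 0 < L := by linarith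
  have hτ : 0 ≤ tauR w ^ 2 := by positivity
  rcases Nat.eq_zero_or_pos Q with hQ0 | hQ1
  · subst hQ0
    simp only [Finset.Ioc_self, Finset.sum_empty]
    positivity
  have hQR : (1:ℝ) ≤ Q := by exact_mod_cast hQ1
  have hQ14 : (Q:ℝ) ≤ X ^ (1/4 : ℝ) := by
    have h1 : (Q:ℝ) = ((Q:ℝ) ^ 4) ^ (1/4 : ℝ) := by
      rw [← Real.rpow_natCast, ← Real.rpow_mul (by linarith)]
      norm_num
    rw [h1]
    exact Real.rpow_le_rpow (by positivity) hQX (by norm_num)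
  have hQsq : (Q:ℝ) ≤ √X := by
    rw [Real.sqrt_eq_rpow]
    exact hQ14.trans (Real.rpow_le_rpow_of_exponent_le hX1 (by norm_num))
  have hsq : √X * √X = X := Real.mul_self_sqrt hX0.le
  have hsq1 : 1 ≤ √X := Real.one_le_sqrt.mpr (by linarith)
  have hQX' : (Q:ℝ) ≤ X := hQsq.trans (by nlinarith)
  set T : ℝ := L ^ B with hT
  have hT0 : 0 < T := by positivity
  have hT1 : 1 ≤ T := one_le_pow₀ hlog
  -- the parameter U
  set z : ℝ := X ^ (1/16 : ℝ) with hz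
  have hz1 : 1 ≤ z := Real.one_le_rpow (by linarith) (by norm_num)
  set U := ⌊z⌋₊ with hU
  have hU1 : 1 ≤ U := Nat.le_floor (by push_cast; exact hz1)
  have hUz : (U:ℝ) ≤ z := Nat.floor_le (by linarith)
  have hUR : (1:ℝ) ≤ U := by exact_mod_cast hU1
  have hUz2 : z / 2 ≤ U := by
    have := Nat.lt_floor_add_one z
    rw [← hU] at this
    linarith
  have hmain := hraw X hX U hU1 T hT1 w hw Q hQ1 hQsq y a hy ha
  refine hmain.trans ?_
  have hHsQ : Hs Q ≤ 2 * L := by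
    refine (Hs_le Q).trans ?_
    have : Real.log Q ≤ L := Real.log_le_log (by linarith) hQX'
    linarith
  have hHs8 : Hs Q ^ 8 ≤ 256 * L ^ 8 := by
    have := Hs_nonneg Q
    calc Hs Q ^ 8 ≤ (2 * L) ^ 8 := by gcongr
      _ = _ := by ring
  have hLA : 0 < L ^ A := by positivity
  set E : ℝ := L ^ 14 * X ^ (31/32 : ℝ) with hE
  have hE0 : 0 ≤ E := by positivity
  have hEX : E ≤ Cl * (X / L ^ A) := by
    rw [mul_div_assoc', le_div_iff₀ hLA]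
    have h1 := hlogp X (by linarith)
    calc L ^ 14 * X ^ (31/32 : ℝ) * L ^ A = L ^ (A+14) * X ^ (31/32 : ℝ) := by ring
      _ ≤ Cl * X ^ (1/32 : ℝ) * X ^ (31/32 : ℝ) := by gcongr
      _ = Cl * X := by
          rw [mul_assoc, ← Real.rpow_add hX0]; norm_num
  have h3log : 0 ≤ Real.log (2 * (Q:ℝ)) := Real.log_nonneg (by linarith)
  have h3 : Real.log (2 * (Q:ℝ)) ≤ 2 * L := by
    have h4 : 2 * (Q:ℝ) ≤ X ^ 2 := by
      rw [sq]
      exact mul_le_mul (by linarith) hQX' (by linarith) hX0.le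
    have h5 := Real.log_le_log (by linarith) h4
    rw [Real.log_pow] at h5
    push_cast at h5; exact h5
  have t1 : 256 * L ^ 8 * (K * X / L ^ m * T ^ 2) = 256 * K * (X / L ^ A) := by
    rw [hT, hm]
    have : L ^ (A + 8 + 2 * B) = L ^ A * (L ^ B) ^ 2 * L ^ 8 := by ring
    rw [this]
    field_simp
  have t2 : 256 * L ^ 8 * (6 * L * (8 * (U:ℝ) ^ 2 * (2 * √(2 * Q) * (1 + Real.log (2 * Q))) *
      L * Q)) ≤ 147456 * E := by
    have h1 : (U:ℝ) ^ 2 ≤ X ^ (1/8 : ℝ) := by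
      calc (U:ℝ) ^ 2 ≤ z ^ 2 := by gcongr
        _ = X ^ (1/8 : ℝ) := by
            rw [hz, ← Real.rpow_natCast, ← Real.rpow_mul hX0.le]; norm_num
    have h2 : √(2 * (Q:ℝ)) ≤ 2 * X ^ (1/8 : ℝ) := by
      calc √(2 * (Q:ℝ)) ≤ √(4 * X ^ (1/4 : ℝ)) := Real.sqrt_le_sqrt (by linarith)
        _ = 2 * X ^ (1/8 : ℝ) := by
            rw [Real.sqrt_mul (by norm_num), show (4:ℝ) = 2 ^ 2 by norm_num,
              Real.sqrt_sq (by norm_num), Real.sqrt_eq_rpow,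
              ← Real.rpow_mul hX0.le]
            norm_num
    calc _ ≤ 256 * L ^ 8 * (6 * L * (8 * X ^ (1/8 : ℝ) * (2 * (2 * X ^ (1/8 : ℝ)) *
          (1 + 2 * L)) * L * X ^ (1/4 : ℝ))) := by gcongr
      _ ≤ 256 * L ^ 8 * (6 * L * (8 * X ^ (1/8 : ℝ) * (2 * (2 * X ^ (1/8 : ℝ)) * (3 * L)) * L *
          X ^ (1/4 : ℝ))) := by gcongr; linarith
      _ = 147456 * L ^ 11 * (X ^ (1/8 : ℝ) * X ^ (1/8 : ℝ) * X ^ (1/4 : ℝ)) := by ring
      _ = 147456 * L ^ 11 * X ^ (1/2 : ℝ) := by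
          rw [← Real.rpow_add hX0, ← Real.rpow_add hX0]; norm_num
      _ ≤ 147456 * L ^ 14 * X ^ (31/32 : ℝ) := by
          have e1 : L ^ 11 ≤ L ^ 14 := pow_le_pow_right₀ hlog (by norm_num)
          have e2 : X ^ (1/2 : ℝ) ≤ X ^ (31/32 : ℝ) :=
            Real.rpow_le_rpow_of_exponent_le hX1 (by norm_num)
          gcongr
      _ = _ := by rw [hE]; ring
  have t3 : 256 * L ^ 8 * (6 * L * (2592 * L ^ 5 * (X / T))) = 3981312 * (X / L ^ A) := by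
    rw [hT, hB]
    have : L ^ (A + 14) = L ^ A * L ^ 14 := by ring
    rw [this]
    field_simp
    norm_num
  have t4 : 256 * L ^ 8 * (6 * L * (2592 * L ^ 5 * (X / √U))) ≤ 7962624 * E := by
    have h1 : X ^ (1/32 : ℝ) / 2 ≤ √(U:ℝ) := by
      apply Real.le_sqrt_of_sq_le
      have h2 : (X ^ (1/32 : ℝ)) ^ 2 = z := by
        rw [hz, ← Real.rpow_natCast, ← Real.rpow_mul hX0.le]; norm_num
      rw [div_pow, h2]; linarith
    have h2 : X / √(U:ℝ) ≤ 2 * X ^ (31/32 : ℝ) := by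
      have h3 : 0 < X ^ (1/32 : ℝ) := by positivity
      have h4 : 0 < √(U:ℝ) := lt_of_lt_of_le (by positivity) h1
      rw [div_le_iff₀ h4]
      calc X = 2 * X ^ (31/32 : ℝ) * (X ^ (1/32 : ℝ) / 2) := by
            have : X ^ (31/32 : ℝ) * X ^ (1/32 : ℝ) = X := by
              rw [← Real.rpow_add hX0]; norm_num
            linear_combination -this
        _ ≤ _ := by gcongr
    calc _ ≤ 256 * L ^ 8 * (6 * L * (2592 * L ^ 5 * (2 * X ^ (31/32 : ℝ)))) := by gcongr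
      _ = _ := by rw [hE]; ring
  have t5 : 256 * L ^ 8 * (6 * L * (2592 * L ^ 5 * (2 * Q * √X))) ≤ 7962624 * E := by
    have h1 : (Q:ℝ) * √X ≤ X ^ (31/32 : ℝ) := by
      rw [Real.sqrt_eq_rpow]
      calc (Q:ℝ) * X ^ (1/2 : ℝ) ≤ X ^ (1/4 : ℝ) * X ^ (1/2 : ℝ) := by gcongr
        _ = X ^ (3/4 : ℝ) := by rw [← Real.rpow_add hX0]; norm_num
        _ ≤ X ^ (31/32 : ℝ) := Real.rpow_le_rpow_of_exponent_le hX1 (by norm_num)
    calc _ = 7962624 * L ^ 14 * ((Q:ℝ) * √X) := by ring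
      _ ≤ 7962624 * L ^ 14 * X ^ (31/32 : ℝ) := by gcongr
      _ = _ := by rw [hE]; ring
  have hXA : 0 ≤ X / L ^ A := by positivity
  have hin : 0 ≤ K * X / L ^ m * T ^ 2 +
        6 * L * (8 * (U : ℝ) ^ 2 * (2 * √(2 * Q) * (1 + Real.log (2 * Q))) *
          L * Q + 2592 * L ^ 5 * (X / T + X / √U + 2 * Q * √X)) := by
    positivity
  have hsum : Hs Q ^ 8 * (K * X / L ^ m * T ^ 2 +
        6 * L * (8 * (U : ℝ) ^ 2 * (2 * √(2 * Q) * (1 + Real.log (2 * Q))) *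
          L * Q + 2592 * L ^ 5 * (X / T + X / √U + 2 * Q * √X))) ≤
      (256 * K + 4000000 + 17000000 * Cl) * (X / L ^ A) := by
    refine (mul_le_mul_of_nonneg_right hHs8 hin).trans ?_
    have expand : 256 * L ^ 8 * (K * X / L ^ m * T ^ 2 +
        6 * L * (8 * (U : ℝ) ^ 2 * (2 * √(2 * Q) * (1 + Real.log (2 * Q))) *
          L * Q + 2592 * L ^ 5 * (X / T + X / √U + 2 * Q * √X))) =
        256 * L ^ 8 * (K * X / L ^ m * T ^ 2) +
        256 * L ^ 8 * (6 * L * (8 * (U:ℝ) ^ 2 * (2 * √(2 * Q) * (1 + Real.log (2 * Q))) *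
          L * Q)) +
        256 * L ^ 8 * (6 * L * (2592 * L ^ 5 * (X / T))) +
        256 * L ^ 8 * (6 * L * (2592 * L ^ 5 * (X / √U))) +
        256 * L ^ 8 * (6 * L * (2592 * L ^ 5 * (2 * Q * √X))) := by ring
    rw [expand, t1, t3]
    have hCX : 0 ≤ Cl * (X / L ^ A) := by positivity
    have e : (256 * K + 4000000 + 17000000 * Cl) * (X / L ^ A) =
      256 * K * (X / L ^ A) + 4000000 * (X / L ^ A) + 17000000 * (Cl * (X / L ^ A)) := by ring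
    rw [e]
    linarith
  calc _ = tauR w ^ 2 * (Hs Q ^ 8 * (K * X / L ^ m * T ^ 2 +
        6 * L * (8 * (U : ℝ) ^ 2 * (2 * √(2 * Q) * (1 + Real.log (2 * Q))) *
          L * Q + 2592 * L ^ 5 * (X / T + X / √U + 2 * Q * √X)))) := by ring
    _ ≤ tauR w ^ 2 * ((256 * K + 4000000 + 17000000 * Cl) * (X / L ^ A)) := by gcongr
    _ = _ := by ring

end Pool.Agent.MVD
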