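import Pool.Agent.MVD.BVMe

/-!
# Module BVLarge: large conductors, dyadic decomposition

Copy of `large_moduli` (Lib/ANT/BVRiesz) with `G4m X U (psw w χ)`, `G4m_mean`, `G4m_nonneg` and the additional factor `tauR w ≥ 1`
(`one_le_tauR`) in the first term. (The proof of `large_moduli` uses nothing on the shape of the constant `P2`.)
-/

open Finset Complex
open scoped ArithmeticFunction.Moebius ArithmeticFunction.zeta

namespace Pool.Agent.MVD

open Pool.Agent.ANT Pool.Agent.SInt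

theorem large_moduli_m {X : ℝ} (hX : 3 ≤ X) {U : ℕ} (hU : 1 ≤ U) {T : ℝ} (hT : 0 < T) {Q : ℕ}
    (hQ1 : 1 ≤ Q) (hQX : (Q : ℝ) ≤ √X) {w : ℕ} (hw : w ≠ 0) :
    ∑ r ∈ Ioc 0 Q, (if T < r then
      (∑ χ ∈ Prim r, (4 * (U : ℝ) ^ 2 * (tauR w * (2 * √(r : ℝ) * (1 + Real.log r))) * Real.log X +
        G4m X U (psw w χ))) / (r.totient : ℝ) else (0 : ℝ)) ≤
      6 * Real.log X * (8 * (U : ℝ) ^ 2 * (tauR w * (2 * √(2 * Q) * (1 + Real.log (2 * Q)))) *
        Real.log X * Q + 2592 * Real.log X ^ 5 * (X / T + X / √U + 2 * Q * √X)) := by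
  have hX0 : 0 < X := by linarith
  have hlog := one_le_log hX
  set L := Real.log X with hL
  have hQR : (1:ℝ) ≤ Q := by exact_mod_cast hQ1
  have hQX' : (Q:ℝ) ≤ X := by
    refine hQX.trans ?_
    rw [Real.sqrt_le_left hX0.le]
    nlinarith
  have hUR : (1:ℝ) ≤ U := by exact_mod_cast hU
  set P2 : ℝ := tauR w * (2 * √(2 * Q) * (1 + Real.log (2 * Q))) with hP2
  have hτ : 0 ≤ tauR w := tauR_nonneg w
  have hlog2Q : 0 ≤ Real.log (2 * (Q:ℝ)) := Real.log_nonneg (by linarith)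
  have hP20 : 0 ≤ P2 := by positivity
  set Z : ℝ := 8 * (U:ℝ) ^ 2 * P2 * L * Q + 2592 * L ^ 5 * (X / T + X / √U + 2 * Q * √X) with hZ
  have hsU : 0 < √(U:ℝ) := Real.sqrt_pos.mpr (by linarith)
  have hZ0 : 0 ≤ Z := by positivity
  set F : ℕ → ℝ := fun r => if T < r then
      (∑ χ ∈ Prim r, (4 * (U:ℝ) ^ 2 * (tauR w * (2 * √(r:ℝ) * (1 + Real.log r))) * L + G4m X U (psw w χ))) /
        (r.totient : ℝ) else (0:ℝ) with hF
  have h2 : ∑ r ∈ Finset.Ioc 0 Q, F r = ∑ i ∈ Finset.range (Nat.log 2 Q + 1),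
      ∑ r ∈ (Finset.Ioc 0 Q).filter (fun r => Nat.log 2 r = i), F r := by
    rw [Finset.sum_fiberwise_of_maps_to]
    intro m hm
    have := (Finset.mem_Ioc.mp hm).2
    exact Finset.mem_range.mpr (Nat.lt_succ_of_le (Nat.log_mono_right this))
  have hblock : ∀ i ∈ Finset.range (Nat.log 2 Q + 1),
      ∑ r ∈ (Finset.Ioc 0 Q).filter (fun r => Nat.log 2 r = i), F r ≤ 2 * Z := by
    intro i hi
    have hi2 : i ≤ Nat.log 2 Q := Nat.lt_succ_iff.mp (Finset.mem_range.mp hi)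
    have hpow : 2 ^ i ≤ Q := Nat.pow_le_of_le_log (by omega) hi2
    set Q' : ℕ := 2 ^ (i+1) with hQ'
    have hQ'R : (Q':ℝ) = 2 * 2 ^ i := by rw [hQ']; push_cast; ring
    have hQ'2 : (Q':ℝ) ≤ 2 * Q := by
      rw [hQ'R]
      have : ((2 ^ i : ℕ) : ℝ) ≤ Q := by exact_mod_cast hpow
      push_cast at this; linarith
    have hQ'0 : (0:ℝ) < Q' := by rw [hQ'R]; positivity
    rcases le_or_gt (Q' : ℝ) T with hc | hc
    · -- empty block
      rw [Finset.sum_eq_zero]
      · positivity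
      · intro r hr
        obtain ⟨hr1, hr2⟩ := Finset.mem_filter.mp hr
        have hr0 := (Finset.mem_Ioc.mp hr1).1
        have h3 : r < 2 ^ (i+1) := by rw [← hr2]; exact Nat.lt_pow_succ_log_self (by norm_num) r
        have h4 : (r:ℝ) ≤ Q' := by rw [hQ']; exact_mod_cast h3.le
        simp only [hF]
        rw [if_neg (by linarith)]
    · have hsub : (Finset.Ioc 0 Q).filter (fun r => Nat.log 2 r = i) ⊆ Finset.Ioc 0 Q' := by
        intro r hr
        obtain ⟨hr1, hr2⟩ := Finset.mem_filter.mp hr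
        have hr0 := (Finset.mem_Ioc.mp hr1).1
        have h3 : r < 2 ^ (i+1) := by rw [← hr2]; exact Nat.lt_pow_succ_log_self (by norm_num) r
        exact Finset.mem_Ioc.mpr ⟨hr0, h3.le⟩
      set G : ℕ → ℝ := fun r => (r:ℝ) / r.totient * ∑ χ ∈ Prim r,
        (4 * (U:ℝ) ^ 2 * P2 * L + G4m X U (psw w χ)) with hG
      have hG0 : ∀ r, 0 ≤ G r := by
        intro r
        simp only [hG]
        refine mul_nonneg (by positivity) (Finset.sum_nonneg fun χ _ => ?_)
        have := G4m_nonneg hX U (psw w χ)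
        positivity
      have hFG : ∀ r ∈ (Finset.Ioc 0 Q).filter (fun r => Nat.log 2 r = i),
          F r ≤ (2 / Q') * G r := by
        intro r hr
        obtain ⟨hr1, hr2⟩ := Finset.mem_filter.mp hr
        obtain ⟨hr0, hrQ⟩ := Finset.mem_Ioc.mp hr1
        have hrR : (1:ℝ) ≤ r := by exact_mod_cast hr0
        have hrQR : (r:ℝ) ≤ Q := by exact_mod_cast hrQ
        have hpr : (2:ℝ) ^ i ≤ r := by
          have : 2 ^ i ≤ r := by rw [← hr2]; exact Nat.pow_log_le_self 2 hr0.ne'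
          exact_mod_cast this
        have hφ : (0:ℝ) < r.totient := by exact_mod_cast Nat.totient_pos.mpr hr0
        have h5 : 0 ≤ (2 / Q') * G r := by have := hG0 r; positivity
        simp only [hF]
        split_ifs with hTr
        · have h6 : ∑ χ ∈ Prim r, (4 * (U:ℝ) ^ 2 * (tauR w * (2 * √(r:ℝ) * (1 + Real.log r))) * L + G4m X U (psw w χ)) ≤
              ∑ χ ∈ Prim r, (4 * (U:ℝ) ^ 2 * P2 * L + G4m X U (psw w χ)) := by
            refine Finset.sum_le_sum fun χ _ => ?_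
            have h7 : tauR w * (2 * √(r:ℝ) * (1 + Real.log r)) ≤ P2 := by
              rw [hP2]
              have h8 : √(r:ℝ) ≤ √(2 * Q) := Real.sqrt_le_sqrt (by linarith)
              have h9 : Real.log r ≤ Real.log (2 * Q) := Real.log_le_log (by linarith) (by linarith)
              have h10 : 0 ≤ Real.log r := Real.log_nonneg hrR
              gcongr
            gcongr
          have h7 : 0 ≤ ∑ χ ∈ Prim r, (4 * (U:ℝ) ^ 2 * P2 * L + G4m X U (psw w χ)) :=
            Finset.sum_nonneg fun χ _ => by have := G4m_nonneg hX U (psw w χ); positivity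
          calc _ ≤ (∑ χ ∈ Prim r, (4 * (U:ℝ) ^ 2 * P2 * L + G4m X U (psw w χ))) / (r.totient:ℝ) := by gcongr
            _ = 1 * ((∑ χ ∈ Prim r, (4 * (U:ℝ) ^ 2 * P2 * L + G4m X U (psw w χ))) / (r.totient:ℝ)) := by ring
            _ ≤ (2 / (Q':ℝ) * (r:ℝ)) * ((∑ χ ∈ Prim r, (4 * (U:ℝ) ^ 2 * P2 * L + G4m X U (psw w χ))) /
                  (r.totient:ℝ)) := by
                have h8 : 1 ≤ 2 / Q' * (r:ℝ) := by
                  rw [div_mul_eq_mul_div, le_div_iff₀ hQ'0, hQ'R]; linarith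
                gcongr
            _ = _ := by simp only [hG]; ring
        · exact h5
      have hGsum : ∑ r ∈ Finset.Ioc 0 Q', G r ≤ 4 * (U:ℝ) ^ 2 * P2 * L * (Q':ℝ) ^ 2 +
          2592 * L ^ 5 * (X + Q' * X / √U + (Q':ℝ) ^ 2 * √X) := by
        have e1 : ∑ r ∈ Finset.Ioc 0 Q', G r =
            ∑ r ∈ Finset.Ioc 0 Q', (r:ℝ) / r.totient * ((Prim r).card * (4 * (U:ℝ) ^ 2 * P2 * L)) +
            ∑ r ∈ Finset.Ioc 0 Q', (r:ℝ) / r.totient * ∑ χ ∈ Prim r, G4m X U (psw w χ) := by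
          rw [← Finset.sum_add_distrib]
          refine Finset.sum_congr rfl fun r _ => ?_
          simp only [hG]
          rw [Finset.sum_add_distrib, Finset.sum_const, nsmul_eq_mul]; ring
        rw [e1]
        refine add_le_add ?_ (G4m_mean hX hU w Q')
        calc _ ≤ ∑ r ∈ Finset.Ioc 0 Q', (Q':ℝ) * (4 * (U:ℝ) ^ 2 * P2 * L) := by
              refine Finset.sum_le_sum fun r hr => ?_
              obtain ⟨hr0, hrQ⟩ := Finset.mem_Ioc.mp hr
              haveI : NeZero r := ⟨hr0.ne'⟩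
              have hφ : (0:ℝ) < r.totient := by exact_mod_cast Nat.totient_pos.mpr hr0
              have h1 := card_Prim_le r
              have h3 : (r:ℝ) ≤ Q' := by exact_mod_cast hrQ
              calc (r:ℝ) / r.totient * ((Prim r).card * (4 * (U:ℝ) ^ 2 * P2 * L)) ≤
                    (r:ℝ) / r.totient * (r.totient * (4 * (U:ℝ) ^ 2 * P2 * L)) := by gcongr
                _ = r * (4 * (U:ℝ) ^ 2 * P2 * L) := by field_simp
                _ ≤ _ := by gcongr
          _ = _ := by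
              rw [Finset.sum_const, Nat.card_Ioc, nsmul_eq_mul, Nat.sub_zero]; ring
      calc _ ≤ ∑ r ∈ (Finset.Ioc 0 Q).filter (fun r => Nat.log 2 r = i), (2 / Q') * G r :=
            Finset.sum_le_sum hFG
        _ ≤ ∑ r ∈ Finset.Ioc 0 Q', (2 / Q') * G r :=
            Finset.sum_le_sum_of_subset_of_nonneg hsub fun r _ _ => by
              have := hG0 r; positivity
        _ = (2 / Q') * ∑ r ∈ Finset.Ioc 0 Q', G r := by rw [Finset.mul_sum]
        _ ≤ (2 / Q') * (4 * (U:ℝ) ^ 2 * P2 * L * (Q':ℝ) ^ 2 +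
          2592 * L ^ 5 * (X + Q' * X / √U + (Q':ℝ) ^ 2 * √X)) := by gcongr
        _ = 2 * (4 * (U:ℝ) ^ 2 * P2 * L * (Q':ℝ) +
          2592 * L ^ 5 * (X / Q' + X / √U + (Q':ℝ) * √X)) := by field_simp
        _ ≤ 2 * Z := by
            have h5 : X / Q' ≤ X / T := by gcongr
            have h6 : 4 * (U:ℝ) ^ 2 * P2 * L * (Q':ℝ) ≤ 8 * (U:ℝ) ^ 2 * P2 * L * Q := by
              calc _ ≤ 4 * (U:ℝ) ^ 2 * P2 * L * (2 * Q) := by gcongr
                _ = _ := by ring
            rw [hZ]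
            gcongr
  change ∑ r ∈ Finset.Ioc 0 Q, F r ≤ 6 * L * Z
  rw [h2]
  calc _ ≤ ∑ i ∈ Finset.range (Nat.log 2 Q + 1), 2 * Z := Finset.sum_le_sum hblock
    _ = ((Nat.log 2 Q + 1 : ℕ) : ℝ) * (2 * Z) := by
        rw [Finset.sum_const, Finset.card_range, nsmul_eq_mul]
    _ ≤ (3 * L) * (2 * Z) := by
        have := natLog_le hX hQ1 hQX'
        gcongr
    _ = _ := by ring

end Pool.Agent.MVD
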