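import Pool.Agent.MVD.BVCong

/-!
# Module BVLog: one pair `(d, b)`

`abel_log`: the weight `(log (c n))^i`, `i ≤ 1`, is nonnegative and nondecreasing on `n ≥ 1` and at most `L`; Abel summation gives
`∑_{n ≤ u} f(n) w(n) = w(u) S(u) - ∑_{n < u} (w(n+1) - w(n)) S(n)`, so the norm is at most `2 L max_{u' ≤ u} ‖S(u')‖`
(`Finset.exists_max_image` on `range (u+1)`).

`one_pair`: `cong_red` with `F = cc e i`; `cc e i (G n) = μ(e G n) (log (G n))^i`, `G = g h`, and `μ(e G n) = μ(e G) μ(n) cw (e G) n`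
(`ArithmeticFunction.isMultiplicative_moebius`, and `μ(e G n) = 0` when `(n, eG) > 1` because then `e G n` is not squarefree).
`log (G n) ≤ log u ≤ L`.
-/

open Finset Complex
open scoped ArithmeticFunction.Moebius ArithmeticFunction.zeta

namespace Pool.Agent.MVD

open Pool.Agent.ANT Pool.Agent.SInt

theorem abel_log (f : ℕ → ℂ) {i : ℕ} (hi : i ≤ 1) {c : ℕ} (hc : 1 ≤ c) (u : ℕ) {L : ℝ} (hL1 : 1 ≤ L)
    (hL : Real.log ((c * u : ℕ) : ℝ) ≤ L) : ∃ u' ≤ u,
    ‖∑ n ∈ Ioc 0 u, f n * ((Real.log ((c * n : ℕ) : ℝ) ^ i : ℝ) : ℂ)‖ ≤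
      2 * L * ‖∑ n ∈ Ioc 0 u', f n‖ := by
  obtain ⟨u', hu'm, hmax⟩ := Finset.exists_max_image (range (u + 1))
    (fun k => ‖∑ n ∈ Ioc 0 k, f n‖) ⟨0, by simp⟩
  have hu' : u' ≤ u := by
    have := Finset.mem_range.mp hu'm; omega
  have hB : ∀ k, k ≤ u → ‖∑ n ∈ Ioc 0 k, f n‖ ≤ ‖∑ n ∈ Ioc 0 u', f n‖ := by
    intro k hk
    exact hmax k (Finset.mem_range.mpr (by omega))
  set B : ℝ := ‖∑ n ∈ Ioc 0 u', f n‖ with hBdef
  have hB0 : 0 ≤ B := norm_nonneg _
  refine ⟨u', hu', ?_⟩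
  rcases Nat.eq_zero_or_pos u with hu0 | hu0
  · subst hu0
    simp only [Finset.Ioc_self, Finset.sum_empty, norm_zero]
    positivity
  interval_cases i
  · simp only [pow_zero, Complex.ofReal_one, mul_one]
    have h1 := hB u le_rfl
    nlinarith
  · simp only [pow_one]
    set w : ℕ → ℝ := fun n => max (Real.log ((c * u : ℕ) : ℝ) - Real.log ((c * n : ℕ) : ℝ)) 0 with hw
    have hc0 : 0 < c := hc
    have hlog0 : 0 ≤ Real.log ((c * u : ℕ) : ℝ) := Real.log_natCast_nonneg _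
    have h1 : ‖∑ n ∈ Ioc 0 u, f n * (w n : ℂ)‖ ≤ B * w 1 := by
      refine abel_Ioc (fun n _ => le_max_right _ _) (fun n hn => ?_) (fun k hk => hB k hk)
      refine max_le_max ?_ le_rfl
      have : Real.log ((c * n : ℕ) : ℝ) ≤ Real.log ((c * (n + 1) : ℕ) : ℝ) := by
        refine Real.log_le_log ?_ ?_
        · exact_mod_cast Nat.mul_pos hc0 hn
        · exact_mod_cast Nat.mul_le_mul_left c (Nat.le_succ n)
      linarith
    have h2 : ∑ n ∈ Ioc 0 u, f n * ((Real.log ((c * n : ℕ) : ℝ) : ℝ) : ℂ) =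
        (Real.log ((c * u : ℕ) : ℝ) : ℂ) * ∑ n ∈ Ioc 0 u, f n - ∑ n ∈ Ioc 0 u, f n * (w n : ℂ) := by
      rw [Finset.mul_sum, ← Finset.sum_sub_distrib]
      refine Finset.sum_congr rfl fun n hn => ?_
      obtain ⟨hn1, hn2⟩ := Finset.mem_Ioc.mp hn
      have : w n = Real.log ((c * u : ℕ) : ℝ) - Real.log ((c * n : ℕ) : ℝ) := by
        rw [hw]
        refine max_eq_left (sub_nonneg.mpr (Real.log_le_log ?_ ?_))
        · exact_mod_cast Nat.mul_pos hc0 hn1
        · exact_mod_cast Nat.mul_le_mul_left c hn2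
      rw [this, Complex.ofReal_sub]; ring
    have hw1 : w 1 ≤ L := by
      rw [hw]
      refine max_le ?_ (by linarith)
      have : 0 ≤ Real.log ((c * 1 : ℕ) : ℝ) := Real.log_natCast_nonneg _
      linarith
    rw [h2]
    calc ‖(Real.log ((c * u : ℕ) : ℝ) : ℂ) * ∑ n ∈ Ioc 0 u, f n - ∑ n ∈ Ioc 0 u, f n * (w n : ℂ)‖
        ≤ ‖(Real.log ((c * u : ℕ) : ℝ) : ℂ) * ∑ n ∈ Ioc 0 u, f n‖ + ‖∑ n ∈ Ioc 0 u, f n * (w n : ℂ)‖ :=
          norm_sub_le _ _
      _ ≤ L * B + B * L := by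
          refine add_le_add ?_ (h1.trans (mul_le_mul_of_nonneg_left hw1 hB0))
          rw [norm_mul, Complex.norm_real, Real.norm_of_nonneg hlog0]
          exact mul_le_mul hL (hB u le_rfl) (norm_nonneg _) (by linarith)
      _ = 2 * L * B := by ring

theorem muC_mul_cw (G n : ℕ) : muC (G * n) = muC G * (muC n * cw G n) := by
  unfold muC cw
  by_cases h : n.Coprime G
  · rw [if_pos h, mul_one, ArithmeticFunction.isMultiplicative_moebius.map_mul_of_coprime h.symm]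
    push_cast
    ring
  · rw [if_neg h, mul_zero, mul_zero]
    have h1 : ¬ Squarefree (G * n) := by
      intro hs
      exact h (Nat.squarefree_mul_iff.mp hs).1.symm
    rw [ArithmeticFunction.moebius_eq_zero_of_not_squarefree h1]
    simp

theorem one_pair {q N d r b : ℕ} (hqN : q.Coprime N) (hdr : d.Coprime r) (hd0 : 0 < d) (hr : 0 < r)
    (hb : b < r) {e i : ℕ} (he : 1 ≤ e) (hi : i ≤ 1) {u : ℕ} {L : ℝ} (hL1 : 1 ≤ L)
    (hL : Real.log (u : ℝ) ≤ L) : ∃ c u' : ℕ, c.Coprime (d / d.gcd N * (r / b.gcd r)) ∧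
    u' ≤ u / (d.gcd N * b.gcd r) ∧
    ‖∑ k ∈ (Icc 1 u).filter (fun k : ℕ => k % r = b ∧ (d : ℤ) ∣ (N : ℤ) - q * k), cc e i k‖ ≤
      2 * L * ‖MuAP (e * (d.gcd N * b.gcd r)) (d / d.gcd N * (r / b.gcd r)) (c : ZMod _) u'‖ := by
  rcases cong_red hqN hdr hd0 hr hb u with h0 | ⟨c, hc, hF⟩
  · refine ⟨1, 0, Nat.coprime_one_left _, Nat.zero_le _, ?_⟩
    rw [h0, norm_zero]
    positivity
  · set G : ℕ := d.gcd N * b.gcd r with hG
    set D : ℕ := d / d.gcd N * (r / b.gcd r) with hD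
    have hG1 : 1 ≤ G := Nat.mul_pos (Nat.gcd_pos_of_pos_left _ hd0) (Nat.gcd_pos_of_pos_right _ hr)
    have hL' : Real.log ((G * (u / G) : ℕ) : ℝ) ≤ L := by
      rcases Nat.eq_zero_or_pos (G * (u / G)) with hz | hz
      · rw [hz]; simp; linarith
      · refine le_trans (Real.log_le_log (by exact_mod_cast hz) ?_) hL
        exact_mod_cast Nat.mul_div_le u G
    obtain ⟨u', hu', hb'⟩ := abel_log
      (fun n => if (n : ZMod D) = (c : ZMod D) then muC n * cw (e * G) n else 0) hi hG1 (u / G) hL1 hL'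
    refine ⟨c, u', hc, hu', ?_⟩
    rw [hF]
    have e1 : ∑ n ∈ (Ioc 0 (u / G)).filter (fun n : ℕ => (n : ZMod D) = (c : ZMod D)),
        cc e i (G * n) = muC (e * G) * ∑ n ∈ Ioc 0 (u / G),
        (if (n : ZMod D) = (c : ZMod D) then muC n * cw (e * G) n else 0) *
          ((Real.log ((G * n : ℕ) : ℝ) ^ i : ℝ) : ℂ) := by
      rw [Finset.sum_filter, Finset.mul_sum]
      refine Finset.sum_congr rfl fun n _ => ?_
      by_cases hn : (n : ZMod D) = (c : ZMod D)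
      · rw [if_pos hn, if_pos hn]
        unfold cc
        rw [← mul_assoc e G n, muC_mul_cw]
        ring
      · rw [if_neg hn, if_neg hn]; ring
    have e2 : ∑ n ∈ Ioc 0 u', (if (n : ZMod D) = (c : ZMod D) then muC n * cw (e * G) n else 0) =
        MuAP (e * G) D (c : ZMod D) u' := by
      unfold MuAP
      rw [Finset.sum_filter]
    rw [e1, norm_mul]
    rw [e2] at hb'
    calc ‖muC (e * G)‖ * ‖_‖ ≤ 1 * (2 * L * ‖MuAP (e * G) D (c : ZMod D) u'‖) :=
          mul_le_mul (Pool.Agent.ANT.norm_muC_le _) hb' (norm_nonneg _) zero_le_one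
      _ = _ := one_mul _

end Pool.Agent.MVD
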