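import Pool.Agent.MVD.BVDefs

/-!
# Module BVMe: mean value of the bilinear majorant

Copy of `G4_mean` (Lib/ANT/BVMean): for `ψ = psw w χ` one has `blkm U i m * psw w χ m = tw (fun m => blkm U i m * cw w m) χ m`
and `(Hf U * ζ) n * psw w χ n = tw (fun n => (Hf U * ζ) n * cw w n) χ n` (`mul_assoc`), so `Gint_mean` applies with these coefficients.
`‖blkm U i m * cw w m‖ ≤ 1 ≤ 2 log x`, `‖(Hf U * ζ) n * cw w n‖ ≤ tauR n`; `blkm U i m = 0` for `m ≤ U`, `(Hf U * ζ) n = 0` for `n ≤ U`.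
The constant 2592 of `G4_mean` is more than enough.
-/

open Finset Complex
open scoped ArithmeticFunction.Moebius ArithmeticFunction.zeta

namespace Pool.Agent.MVD

open Pool.Agent.ANT Pool.Agent.SInt

lemma G4m_nonneg {X : ℝ} (hX : 3 ≤ X) (U : ℕ) (ψ : ℕ → ℂ) : 0 ≤ G4m X U ψ := by
  unfold G4m
  have := one_le_log hX
  have := Real.pi_pos
  refine Finset.sum_nonneg fun i _ => mul_nonneg (by positivity) (Gint_nonneg _ _ _ _ _)

theorem G4m_mean {x : ℝ} (hx : 3 ≤ x) {U : ℕ} (hU : 1 ≤ U) (w Q : ℕ) :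
    ∑ q ∈ Ioc 0 Q, (q : ℝ) / q.totient * ∑ χ ∈ Prim q, G4m x U (psw w χ) ≤
      2592 * Real.log x ^ 5 * (x + Q * x / √U + (Q : ℝ) ^ 2 * √x) := by
  set N := ⌊x⌋₊ with hN
  have hlog := one_le_log hx
  have hx0 : 0 < x := by linarith
  have hUR : (1:ℝ) ≤ U := by exact_mod_cast hU
  set L := Real.log x with hL
  set D := x + Q * x / √U + (Q:ℝ) ^ 2 * √x with hD
  have hD0 : 0 ≤ D := by positivity
  have hσ : 0 ≤ L⁻¹ := by positivity
  have hpi := Real.pi_pos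
  set A : ℕ → ℕ → ℂ := fun i m => blkm U i m * cw w m with hA
  set B : ℕ → ℂ := fun n => (Hf U * (ζ : ArithmeticFunction ℂ)) n * cw w n with hB
  have hN1 : 1 ≤ N := Nat.le_floor (by push_cast; linarith)
  have hNx : (N:ℝ) ≤ x := Nat.floor_le hx0.le
  have e1 : ∑ q ∈ Finset.Ioc 0 Q, (q:ℝ) / q.totient * ∑ χ ∈ Prim q, G4m x U (psw w χ) =
      ∑ i ∈ Finset.range (Nat.log 2 N + 1), Real.exp 1 * L / Real.pi *
        ∑ q ∈ Finset.Ioc 0 Q, (q:ℝ) / q.totient * ∑ χ ∈ Prim q,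
          Gint (tw (A i) χ) (tw B χ) (2 ^ (i+1)) (N / 2 ^ i) L⁻¹ := by
    have hpt : ∀ (q : ℕ) (χ : DirichletCharacter ℂ q), G4m x U (psw w χ) =
        ∑ i ∈ Finset.range (Nat.log 2 N + 1), Real.exp 1 * L / Real.pi *
          Gint (tw (A i) χ) (tw B χ) (2 ^ (i+1)) (N / 2 ^ i) L⁻¹ := by
      intro q χ
      unfold G4m
      refine Finset.sum_congr rfl fun i _ => ?_
      have hA' : (fun m : ℕ => blkm U i m * psw w χ m) = tw (A i) χ := by
        funext m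
        simp only [hA, tw, psw]
        ring
      have hB' : (fun n : ℕ => (Hf U * (ζ : ArithmeticFunction ℂ)) n * psw w χ n) = tw B χ := by
        funext n
        simp only [hB, tw, psw]
        ring
      rw [hA', hB']
    simp_rw [hpt]
    simp_rw [Finset.mul_sum]
    rw [Finset.sum_comm' (s := Finset.range (Nat.log 2 N + 1)) (t := fun _ => Finset.Ioc 0 Q)
      (t' := Finset.Ioc 0 Q) (s' := fun _ => Finset.range (Nat.log 2 N + 1)) (by tauto)]
    refine Finset.sum_congr rfl fun q _ => ?_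
    rw [Finset.sum_comm]
    refine Finset.sum_congr rfl fun i _ => Finset.sum_congr rfl fun χ _ => ?_
    ring
  rw [e1]
  have hblock : ∀ i ∈ Finset.range (Nat.log 2 N + 1),
      √(12 * (2 * (2 ^ (i+1) : ℕ) + (Q:ℝ) ^ 2) * ∑ m ∈ Finset.Ioc 0 (2 ^ (i+1)), ‖A i m‖ ^ 2) *
      √(12 * (2 * (N / 2 ^ i : ℕ) + (Q:ℝ) ^ 2) * ∑ n ∈ Finset.Ioc 0 (N / 2 ^ i), ‖B n‖ ^ 2) ≤
      288 * L ^ 3 * D := by
    intro i hi
    have hi2 : i ≤ Nat.log 2 N := Nat.lt_succ_iff.mp (Finset.mem_range.mp hi)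
    have hpow : 2 ^ i ≤ N := Nat.pow_le_of_le_log (by omega) hi2
    have hrhs : 0 ≤ 288 * L ^ 3 * D := by positivity
    rcases le_or_gt (2 ^ (i+1)) U with hc | hc
    · have : ∑ m ∈ Finset.Ioc 0 (2 ^ (i+1)), ‖A i m‖ ^ 2 = 0 := by
        refine Finset.sum_eq_zero fun m hm => ?_
        have := (Finset.mem_Ioc.mp hm).2
        have hmU : m ≤ U := this.trans hc
        simp only [hA, blkm]
        rw [Hf_apply, if_pos hmU]; simp
      rw [this]; simpa using hrhs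
    rcases le_or_gt (N / 2 ^ i) U with hc2 | hc2
    · have : ∑ n ∈ Finset.Ioc 0 (N / 2 ^ i), ‖B n‖ ^ 2 = 0 := by
        refine Finset.sum_eq_zero fun n hn => ?_
        have := (Finset.mem_Ioc.mp hn).2
        simp only [hB]
        rw [HZ_zero (this.trans hc2)]; simp
      rw [this]; simpa using hrhs
    set P : ℝ := (2:ℝ) ^ i with hPdef
    set R : ℝ := ((N / 2 ^ i : ℕ) : ℝ) with hRdef
    have hP0 : 0 < P := by positivity
    have hR0 : 0 ≤ R := by positivity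
    have hPR : P * R ≤ x := by
      have h1 : 2 ^ i * (N / 2 ^ i) ≤ N := Nat.mul_div_le N (2 ^ i)
      have h2 : ((2 ^ i * (N / 2 ^ i) : ℕ) : ℝ) ≤ (N:ℝ) := by exact_mod_cast h1
      push_cast at h2
      rw [hPdef, hRdef]
      linarith
    have hUP : (U:ℝ) ≤ 2 * P := by
      have h1 : (U:ℝ) ≤ ((2 ^ (i+1) : ℕ) : ℝ) := by exact_mod_cast hc.le
      push_cast at h1
      rw [hPdef]; rw [pow_succ] at h1; linarith
    have hUR2 : (U:ℝ) ≤ R := by rw [hRdef]; exact_mod_cast hc2.le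
    have hPx : P ≤ x / U := by
      rw [le_div_iff₀ (by linarith)]
      calc P * U ≤ P * R := by gcongr
        _ ≤ x := hPR
    have hRx : R ≤ 2 * x / U := by
      rw [le_div_iff₀ (by linarith)]
      calc R * U ≤ R * (2 * P) := by gcongr
        _ = 2 * (P * R) := by ring
        _ ≤ 2 * x := by linarith
    have hcast : ((2 ^ (i+1) : ℕ) : ℝ) = 2 * P := by push_cast; rw [hPdef, pow_succ]; ring
    have hS1 : ∑ m ∈ Finset.Ioc 0 (2 ^ (i+1)), ‖A i m‖ ^ 2 ≤ 8 * P * L ^ 2 := by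
      calc _ ≤ ∑ m ∈ Finset.Ioc 0 (2 ^ (i+1)), (2 * L) ^ 2 := by
            refine Finset.sum_le_sum fun m hm => ?_
            obtain ⟨hm1, hm2⟩ := Finset.mem_Ioc.mp hm
            have h3 : ‖A i m‖ ≤ 2 * L := by
              simp only [hA, blkm]
              rw [norm_mul]
              have h5 : ‖(if Nat.log 2 m = i then Hf U m else 0 : ℂ)‖ ≤ 1 := by
                split_ifs
                · exact norm_Hf_le U m
                · simp
              have h6 := norm_cw_le w m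
              calc _ ≤ (1 : ℝ) * 1 := by gcongr
                _ ≤ 2 * L := by linarith
            gcongr
        _ = 8 * P * L ^ 2 := by
            rw [Finset.sum_const, Nat.card_Ioc, nsmul_eq_mul, Nat.sub_zero, hcast]; ring
    have hS2 : ∑ n ∈ Finset.Ioc 0 (N / 2 ^ i), ‖B n‖ ^ 2 ≤ 8 * R * L ^ 3 := by
      calc _ ≤ ∑ n ∈ Finset.Ioc 0 (N / 2 ^ i), tauR n ^ 2 := by
            refine Finset.sum_le_sum fun n _ => ?_
            have h5 := norm_HZ_le U n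
            have h6 := norm_cw_le w n
            have h7 : ‖B n‖ ≤ tauR n := by
              simp only [hB]
              rw [norm_mul]
              calc _ ≤ ‖(Hf U * (ζ : ArithmeticFunction ℂ)) n‖ * 1 := by gcongr
                _ ≤ tauR n := by rw [mul_one]; exact h5
            gcongr
        _ ≤ R * Hs (N / 2 ^ i) ^ 3 := sum_tau_sq_le _
        _ ≤ R * (2 * L) ^ 3 := by
            have h3 : Hs (N / 2 ^ i) ≤ 2 * L := by
              refine (Hs_le _).trans ?_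
              have h4 : Real.log ((N / 2 ^ i : ℕ) : ℝ) ≤ L := by
                refine Real.log_le_log ?_ ?_
                · have : 0 < N / 2 ^ i := by omega
                  exact_mod_cast this
                · calc ((N / 2 ^ i : ℕ) : ℝ) ≤ N := by exact_mod_cast Nat.div_le_self _ _
                    _ ≤ x := hNx
              linarith
            have := Hs_nonneg (N / 2 ^ i)
            gcongr
        _ = _ := by ring
    rw [← Real.sqrt_mul (by positivity)]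
    have hsq : (288 * L ^ 3 * D) = √((288 * L ^ 3 * D) ^ 2) := (Real.sqrt_sq hrhs).symm
    rw [hsq]
    refine Real.sqrt_le_sqrt ?_
    have hA1 : 12 * (2 * (2 ^ (i+1) : ℕ) + (Q:ℝ) ^ 2) *
        ∑ m ∈ Finset.Ioc 0 (2 ^ (i+1)), ‖A i m‖ ^ 2 ≤ 12 * (4 * P + (Q:ℝ) ^ 2) * (8 * P * L ^ 2) := by
      have e : 2 * ((2 ^ (i+1) : ℕ) : ℝ) = 4 * P := by rw [hcast]; ring
      rw [e]
      gcongr
    have hA2 : 12 * (2 * (N / 2 ^ i : ℕ) + (Q:ℝ) ^ 2) *
        ∑ n ∈ Finset.Ioc 0 (N / 2 ^ i), ‖B n‖ ^ 2 ≤ 12 * (2 * R + (Q:ℝ) ^ 2) * (8 * R * L ^ 3) := by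
      gcongr
    have hsU : 0 < √(U:ℝ) := Real.sqrt_pos.mpr (by linarith)
    have hsx : √x ^ 2 = x := Real.sq_sqrt hx0.le
    have hsU2 : √(U:ℝ) ^ 2 = U := Real.sq_sqrt (by linarith)
    have hD2 : x ^ 2 + (Q:ℝ) ^ 2 * x ^ 2 / U + (Q:ℝ) ^ 4 * x ≤ D ^ 2 := by
      have e2 : (Q * x / √(U:ℝ)) ^ 2 = (Q:ℝ) ^ 2 * x ^ 2 / U := by rw [div_pow, hsU2]; ring
      have e3 : ((Q:ℝ) ^ 2 * √x) ^ 2 = (Q:ℝ) ^ 4 * x := by rw [mul_pow, hsx]; ring
      rw [← e2, ← e3, hD]
      have p1 : 0 ≤ Q * x / √(U:ℝ) := by positivity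
      have p2 : 0 ≤ (Q:ℝ) ^ 2 * √x := by positivity
      linarith only [mul_nonneg hx0.le p1, mul_nonneg hx0.le p2, mul_nonneg p1 p2]
    have hmain : (4 * P + (Q:ℝ) ^ 2) * (2 * R + (Q:ℝ) ^ 2) * (P * R) ≤ 8 * D ^ 2 := by
      have h1 : (4 * P + (Q:ℝ) ^ 2) * (2 * R + (Q:ℝ) ^ 2) ≤
          8 * x + 8 * (Q:ℝ) ^ 2 * (x / U) + (Q:ℝ) ^ 4 := by
        have hQ2 : 0 ≤ (Q:ℝ) ^ 2 := by positivity
        have h2 : 4 * (Q:ℝ) ^ 2 * P ≤ 4 * (Q:ℝ) ^ 2 * (x / U) := by gcongr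
        have h3 : 2 * (Q:ℝ) ^ 2 * R ≤ 2 * (Q:ℝ) ^ 2 * (2 * x / U) := by gcongr
        calc _ = 8 * (P * R) + 4 * (Q:ℝ) ^ 2 * P + 2 * (Q:ℝ) ^ 2 * R + (Q:ℝ) ^ 4 := by ring
          _ ≤ 8 * x + 4 * (Q:ℝ) ^ 2 * (x / U) + 2 * (Q:ℝ) ^ 2 * (2 * x / U) + (Q:ℝ) ^ 4 := by
              linarith
          _ = _ := by ring
      calc _ ≤ (8 * x + 8 * (Q:ℝ) ^ 2 * (x / U) + (Q:ℝ) ^ 4) * x := by
            refine mul_le_mul h1 hPR (by positivity) (by positivity)
        _ = 8 * x ^ 2 + 8 * ((Q:ℝ) ^ 2 * x ^ 2 / U) + (Q:ℝ) ^ 4 * x := by ring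
        _ ≤ 8 * D ^ 2 := by
            have : 0 ≤ (Q:ℝ) ^ 4 * x := by positivity
            linarith
    calc _ ≤ (12 * (4 * P + (Q:ℝ) ^ 2) * (8 * P * L ^ 2)) *
          (12 * (2 * R + (Q:ℝ) ^ 2) * (8 * R * L ^ 3)) :=
          mul_le_mul hA1 hA2 (by positivity) (by positivity)
      _ = 9216 * L ^ 5 * ((4 * P + (Q:ℝ) ^ 2) * (2 * R + (Q:ℝ) ^ 2) * (P * R)) := by ring
      _ ≤ 9216 * L ^ 5 * (8 * D ^ 2) := by gcongr
      _ ≤ 9216 * L ^ 6 * (8 * D ^ 2) := by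
          have : L ^ 5 ≤ L ^ 6 := pow_le_pow_right₀ hlog (by norm_num)
          gcongr
      _ ≤ (288 * L ^ 3 * D) ^ 2 := by
          have : 0 ≤ L ^ 6 * D ^ 2 := by positivity
          linarith only [this]
  have hcount : ((Nat.log 2 N + 1 : ℕ) : ℝ) ≤ 3 * L := by
    have h1 : ((Nat.log 2 N : ℕ) : ℝ) ≤ Real.logb 2 N := by
      exact Real.natLog_le_logb N 2
    have h2 : Real.logb 2 N = Real.log N / Real.log 2 := rfl
    have h3 : Real.log N ≤ L := Real.log_le_log (by exact_mod_cast hN1) hNx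
    have h4 : (0.69:ℝ) < Real.log 2 := by have := Real.log_two_gt_d9; linarith
    have h5 : Real.log N / Real.log 2 ≤ L / 0.69 := by
      have : 0 ≤ Real.log N := Real.log_nonneg (by exact_mod_cast hN1)
      gcongr
    push_cast
    have h6 : L / 0.69 ≤ 2 * L := by
      rw [div_le_iff₀ (by norm_num)]; nlinarith
    linarith
  calc _ ≤ ∑ i ∈ Finset.range (Nat.log 2 N + 1), Real.exp 1 * L / Real.pi *
        (Real.pi * (288 * L ^ 3 * D)) := by
        refine Finset.sum_le_sum fun i hi => ?_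
        have h1 := Gint_mean hσ (A i) B (2 ^ (i+1)) (N / 2 ^ i) Q
        have h2 := hblock i hi
        have h3 : 0 ≤ Real.exp 1 * L / Real.pi := by positivity
        refine mul_le_mul_of_nonneg_left (h1.trans ?_) h3
        exact mul_le_mul_of_nonneg_left h2 hpi.le
    _ = ((Nat.log 2 N + 1 : ℕ) : ℝ) * (Real.exp 1 * L * (288 * L ^ 3 * D)) := by
        rw [Finset.sum_const, Finset.card_range, nsmul_eq_mul]
        field_simp
    _ ≤ (3 * L) * (3 * L * (288 * L ^ 3 * D)) := by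
        have h1 : Real.exp 1 ≤ 3 := by have := Real.exp_one_lt_d9; linarith
        gcongr
    _ = _ := by ring


end Pool.Agent.MVD
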