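import Pool.Agent.MVD.BVDefs

/-!
# Module BVPt: pointwise bound for the Riesz mean of `μ ψ`, `ψ` completely multiplicative

Copy of `lambda_pointwise` (BVMean) with `vaughan` (Lib/ANT/Minor: `μ = Mf + Mf - (Mf*Mf)*ζ + (Hf*ζ)*Hf`) instead of
`vaughanL`; use `mul_comm` to write the last term as `Hf * (Hf*ζ)`. `sum_conv_char`, `inner_one`, `type_two` (BVBasic) have to be
restated for a completely multiplicative `ψ : ℕ → ℂ` in place of the character (same proofs).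
Terms: `2 ∑_{n ≤ U} 1 ≤ 2U`; `∑_{d ≤ U², d ≤ x} |(Mf*Mf)(d)| * P ≤ P ∑_{d ≤ U²} τ(d)`: use
`∑_{d ≤ N, d ≤ U²} τ(d)`; with `M = min (U*U) ⌊x⌋₊`, `sum_tau_le M : ≤ M Hs M ≤ U² (1 + log x) ≤ 2 U² log x`.
Total `2U + 2U² P log x ≤ 4 U² P log x`.
-/

open Finset Complex
open scoped ArithmeticFunction.Moebius ArithmeticFunction.zeta

namespace Pool.Agent.MVD

open Pool.Agent.ANT Pool.Agent.SInt

private lemma sum_conv_psi {ψ : ℕ → ℂ} (hmul : ∀ m n, ψ (m * n) = ψ m * ψ n)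
    (f g : ArithmeticFunction ℂ) (w : ℕ → ℝ) (N : ℕ) :
    ∑ n ∈ Finset.Ioc 0 N, (f * g) n * ψ n * (w n : ℂ) =
      ∑ m ∈ Finset.Ioc 0 N, f m * ψ m * ∑ k ∈ Finset.Ioc 0 (N / m), g k * ψ k * (w (m * k) : ℂ) := by
  have h1 : ∀ n ∈ Finset.Ioc 0 N, (f * g) n * ψ n * (w n : ℂ) =
      ∑ p ∈ n.divisorsAntidiagonal, f p.1 * ψ p.1 * (g p.2 * ψ p.2 * (w (p.1 * p.2) : ℂ)) := by
    intro n _
    rw [ArithmeticFunction.mul_apply, Finset.sum_mul, Finset.sum_mul]
    refine Finset.sum_congr rfl fun p hp => ?_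
    have h := (Nat.mem_divisorsAntidiagonal.mp hp).1
    have h2 : ψ n = ψ p.1 * ψ p.2 := by
      rw [← h]; exact hmul _ _
    rw [h2, h]; ring
  rw [Finset.sum_congr rfl h1, sum_pairs' (fun m k => f m * ψ m * (g k * ψ k * (w (m * k) : ℂ))) N]
  refine Finset.sum_congr rfl fun m _ => ?_
  rw [Finset.mul_sum]

private lemma inner_one_psi {ψ : ℕ → ℂ} {P : ℝ}
    (hP : ∀ n : ℕ, ‖∑ k ∈ Finset.Ioc 0 n, ψ k‖ ≤ P) {y : ℝ} (hy : 0 < y) (m X : ℕ) :
    ‖∑ k ∈ Finset.Ioc 0 X, (ζ : ArithmeticFunction ℂ) k * ψ k * (WR y (m * k) : ℂ)‖ ≤ P := by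
  have hP0 : 0 ≤ P := (norm_nonneg _).trans (hP 0)
  have h1 : ∑ k ∈ Finset.Ioc 0 X, (ζ : ArithmeticFunction ℂ) k * ψ k * (WR y (m * k) : ℂ) =
      ∑ k ∈ Finset.Ioc 0 X, ψ k * (((fun k => WR y (m * k)) k : ℝ) : ℂ) := by
    refine Finset.sum_congr rfl fun k hk => ?_
    have : k ≠ 0 := by have := (Finset.mem_Ioc.mp hk).1; omega
    simp [this]
  rw [h1]
  have h2 := abel_Ioc (b := fun k : ℕ => ψ k) (w := fun k => WR y (m * k)) (X := X) (B := P)
    (fun n _ => WR_nonneg _ _) (fun n _ => WR_mul_antitone hy m n) (fun u _ => hP u)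
  refine h2.trans ?_
  calc P * WR y (m * 1) ≤ P * 1 := by
        have := WR_le_one hy (m * 1); gcongr
    _ = P := mul_one P

private lemma type_two_psi {x : ℝ} (hx : 3 ≤ x) (U : ℕ) (ψ : ℕ → ℂ) {y : ℝ}
    (hy : 0 < y) (hyx : y ≤ x) :
    ‖∑ m ∈ Finset.Ioc 0 ⌊x⌋₊, Hf U m * ψ m * ∑ k ∈ Finset.Ioc 0 (⌊x⌋₊ / m),
      (Hf U * (ζ : ArithmeticFunction ℂ)) k * ψ k * (WR y (m * k) : ℂ)‖ ≤ G4m x U ψ := by
  set N := ⌊x⌋₊ with hN
  have hlog := one_le_log hx
  have hσ : 0 < (Real.log x)⁻¹ := by positivity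
  have hσ1 : (Real.log x)⁻¹ ≤ 1 := inv_le_one_of_one_le₀ hlog
  have hx0 : 0 < x := by linarith
  set B : ℕ → ℂ := fun n => (Hf U * (ζ : ArithmeticFunction ℂ)) n with hB
  have hWz : ∀ j : ℕ, N < j → WR y j = 0 := by
    intro j hj
    refine WR_zero hy ?_
    have : x < j := (Nat.floor_lt hx0.le).mp (hN ▸ hj)
    linarith
  -- rewrite as sum of blocks
  have h1 : ∑ m ∈ Finset.Ioc 0 N, Hf U m * ψ m * ∑ k ∈ Finset.Ioc 0 (N / m),
      B k * ψ k * (WR y (m * k) : ℂ) =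
      ∑ i ∈ Finset.range (Nat.log 2 N + 1), ∑ m ∈ Finset.Ioc 0 (2 ^ (i+1)),
        ∑ k ∈ Finset.Ioc 0 (N / 2 ^ i), (blkm U i m * ψ m) * (B k * ψ k) *
          ((max (1 - (m * k : ℕ) / y) 0 : ℝ) : ℂ) := by
    -- the block term as function
    set F : ℕ → ℂ := fun m => Hf U m * ψ m * ∑ k ∈ Finset.Ioc 0 (N / m),
      B k * ψ k * (WR y (m * k) : ℂ) with hF
    have h2 : ∑ m ∈ Finset.Ioc 0 N, F m = ∑ i ∈ Finset.range (Nat.log 2 N + 1),
        ∑ m ∈ (Finset.Ioc 0 N).filter (fun m => Nat.log 2 m = i), F m := by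
      rw [Finset.sum_fiberwise_of_maps_to]
      intro m hm
      have := (Finset.mem_Ioc.mp hm).2
      exact Finset.mem_range.mpr (Nat.lt_succ_of_le (Nat.log_mono_right this))
    rw [h2]
    refine Finset.sum_congr rfl fun i hi => ?_
    have h3 : ∑ m ∈ (Finset.Ioc 0 N).filter (fun m => Nat.log 2 m = i), F m =
        ∑ m ∈ (Finset.Ioc 0 (2 ^ (i+1))).filter (fun m => Nat.log 2 m = i), F m := by
      have hFz : ∀ m, N < m → F m = 0 := by
        intro m hm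
        simp only [hF]
        rw [Nat.div_eq_of_lt hm]; simp
      have hA : ∀ m, Nat.log 2 m = i → 0 < m → m < 2 ^ (i+1) := by
        intro m hm h0
        rw [← hm]; exact Nat.lt_pow_succ_log_self (by norm_num) m
      rw [← Finset.sum_subset (s₁ := ((Finset.Ioc 0 N) ∩ Finset.Ioc 0 (2 ^ (i+1))).filter
        (fun m => Nat.log 2 m = i)) (s₂ := (Finset.Ioc 0 N).filter (fun m => Nat.log 2 m = i)),
        ← Finset.sum_subset (s₁ := ((Finset.Ioc 0 N) ∩ Finset.Ioc 0 (2 ^ (i+1))).filter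
        (fun m => Nat.log 2 m = i)) (s₂ := (Finset.Ioc 0 (2 ^ (i+1))).filter (fun m => Nat.log 2 m = i))]
      · exact Finset.filter_subset_filter _ Finset.inter_subset_right
      · intro m hm hm'
        obtain ⟨hm1, hm2⟩ := Finset.mem_filter.mp hm
        refine hFz m ?_
        by_contra hcon
        refine hm' (Finset.mem_filter.mpr ⟨Finset.mem_inter.mpr ⟨?_, hm1⟩, hm2⟩)
        exact Finset.mem_Ioc.mpr ⟨(Finset.mem_Ioc.mp hm1).1, by omega⟩
      · exact Finset.filter_subset_filter _ Finset.inter_subset_left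
      · intro m hm hm'
        obtain ⟨hm1, hm2⟩ := Finset.mem_filter.mp hm
        exfalso
        refine hm' (Finset.mem_filter.mpr ⟨Finset.mem_inter.mpr ⟨hm1, ?_⟩, hm2⟩)
        have h0 := (Finset.mem_Ioc.mp hm1).1
        exact Finset.mem_Ioc.mpr ⟨h0, (hA m hm2 h0).le⟩
    rw [h3, Finset.sum_filter]
    refine Finset.sum_congr rfl fun m hm => ?_
    have hm0 := (Finset.mem_Ioc.mp hm).1
    by_cases hmi : Nat.log 2 m = i
    · rw [if_pos hmi]
      have hpow : 2 ^ i ≤ m := by rw [← hmi]; exact Nat.pow_log_le_self 2 hm0.ne'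
      simp only [hF]
      rw [Finset.mul_sum]
      have hsub : Finset.Ioc 0 (N / m) ⊆ Finset.Ioc 0 (N / 2 ^ i) :=
        Finset.Ioc_subset_Ioc_right (Nat.div_le_div_left hpow (by positivity))
      rw [← Finset.sum_subset hsub]
      · refine Finset.sum_congr rfl fun k _ => ?_
        unfold blkm WR
        rw [if_pos hmi]; ring
      · intro k hk hk'
        have hk0 := (Finset.mem_Ioc.mp hk).1
        have h5 : N < m * k := by
          by_contra hcon
          refine hk' (Finset.mem_Ioc.mpr ⟨hk0, ?_⟩)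
          rw [Nat.le_div_iff_mul_le hm0, mul_comm]; omega
        have h6 := hWz _ h5
        unfold WR at h6
        rw [h6]; simp
    · rw [if_neg hmi]
      symm
      refine Finset.sum_eq_zero fun k _ => ?_
      unfold blkm
      rw [if_neg hmi]; simp
  rw [h1]
  unfold G4m
  refine (norm_sum_le _ _).trans (Finset.sum_le_sum fun i _ => ?_)
  refine (riesz_separate hσ hσ1 (fun m => blkm U i m * ψ m) (fun k => B k * ψ k) _ _ hy).trans ?_
  have h7 : y ^ (Real.log x)⁻¹ ≤ Real.exp 1 := by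
    calc y ^ (Real.log x)⁻¹ ≤ x ^ (Real.log x)⁻¹ := Real.rpow_le_rpow hy.le hyx hσ.le
      _ = Real.exp 1 := by
          rw [Real.rpow_def_of_pos hx0, mul_inv_cancel₀ (by linarith)]
  have h8 := Gint_nonneg (fun m => blkm U i m * ψ m) (fun k => B k * ψ k) (2 ^ (i+1)) (N / 2 ^ i)
    (Real.log x)⁻¹
  have hpi := Real.pi_pos
  calc _ ≤ Real.exp 1 / (Real.pi * (Real.log x)⁻¹) *
        Gint (fun m => blkm U i m * ψ m) (fun k => B k * ψ k) (2 ^ (i+1)) (N / 2 ^ i)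
          (Real.log x)⁻¹ := by gcongr
    _ = _ := by
        congr 1
        field_simp

theorem mu_pointwise {ψ : ℕ → ℂ} (hmul : ∀ m n, ψ (m * n) = ψ m * ψ n) (h1 : ∀ n, ‖ψ n‖ ≤ 1)
    {P : ℝ} (hP1 : 1 ≤ P) (hP : ∀ n : ℕ, ‖∑ k ∈ Ioc 0 n, ψ k‖ ≤ P) {x : ℝ} (hx : 3 ≤ x)
    {U : ℕ} (hU : 1 ≤ U) {y : ℝ} (hy : 0 < y) (hyx : y ≤ x) :
    ‖RMm x y ψ‖ ≤ 4 * (U : ℝ) ^ 2 * P * Real.log x + G4m x U ψ := by
  unfold RMm
  set N := ⌊x⌋₊ with hN
  have hlog := one_le_log hx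
  have hx0 : 0 < x := by linarith
  have hUR : (1:ℝ) ≤ U := by exact_mod_cast hU
  have hP0 : 0 ≤ P := by linarith
  set L := Real.log x with hL
  have hW : ∀ n : ℕ, ‖(WR y n : ℂ)‖ ≤ 1 := by
    intro n
    rw [Complex.norm_real, Real.norm_of_nonneg (WR_nonneg _ _)]
    exact WR_le_one hy n
  have h0 : ∑ n ∈ Finset.Ioc 0 N, muC n * ψ n * (WR y n : ℂ) =
      ∑ n ∈ Finset.Ioc 0 N, Mf U n * ψ n * (WR y n : ℂ) +
      ∑ n ∈ Finset.Ioc 0 N, Mf U n * ψ n * (WR y n : ℂ) -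
      ∑ n ∈ Finset.Ioc 0 N, ((Mf U * Mf U) * (ζ : ArithmeticFunction ℂ)) n * ψ n * (WR y n : ℂ) +
      ∑ n ∈ Finset.Ioc 0 N, (Hf U * (Hf U * (ζ : ArithmeticFunction ℂ))) n * ψ n * (WR y n : ℂ) := by
    rw [← Finset.sum_add_distrib, ← Finset.sum_sub_distrib, ← Finset.sum_add_distrib]
    refine Finset.sum_congr rfl fun n _ => ?_
    have h : ((μ : ArithmeticFunction ℤ) : ArithmeticFunction ℂ) n = Mf U n + Mf U n -
        ((Mf U * Mf U) * (ζ : ArithmeticFunction ℂ)) n +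
        (Hf U * (Hf U * (ζ : ArithmeticFunction ℂ))) n := by
      have := congrArg (fun f : ArithmeticFunction ℂ => f n) (vaughan U)
      rw [mul_comm (Hf U * (ζ : ArithmeticFunction ℂ)) (Hf U)] at this
      exact this
    have h' : muC n = ((μ : ArithmeticFunction ℤ) : ArithmeticFunction ℂ) n := by
      rw [ArithmeticFunction.intCoe_apply]
      rfl
    rw [h', h]
    generalize ((Mf U * Mf U) * (ζ : ArithmeticFunction ℂ)) n = z2
    generalize (Hf U * (Hf U * (ζ : ArithmeticFunction ℂ))) n = z3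
    ring
  have hb1 : ‖∑ n ∈ Finset.Ioc 0 N, Mf U n * ψ n * (WR y n : ℂ)‖ ≤ U := by
    calc _ ≤ ∑ n ∈ Finset.Ioc 0 N, (if n ∈ Finset.Ioc 0 U then (1:ℝ) else 0) := by
          refine (norm_sum_le _ _).trans (Finset.sum_le_sum fun n hn => ?_)
          obtain ⟨hn1, hn2⟩ := Finset.mem_Ioc.mp hn
          by_cases hnU : n ≤ U
          · rw [if_pos (Finset.mem_Ioc.mpr ⟨hn1, hnU⟩), norm_mul, norm_mul]
            calc ‖Mf U n‖ * ‖ψ n‖ * ‖(WR y n : ℂ)‖ ≤ 1 * 1 * 1 := by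
                  have := norm_Mf_le U n
                  have := h1 n
                  have := hW n
                  gcongr
              _ = 1 := by ring
          · rw [Mf_apply, if_neg hnU]
            simp only [zero_mul, norm_zero]
            split_ifs <;> norm_num
      _ ≤ ∑ n ∈ Finset.Ioc 0 U, (1:ℝ) := by
          rw [← Finset.sum_filter]
          refine Finset.sum_le_sum_of_subset_of_nonneg ?_ fun _ _ _ => by norm_num
          intro n hn; exact (Finset.mem_filter.mp hn).2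
      _ = U := by simp
  have hb3 : ‖∑ n ∈ Finset.Ioc 0 N, ((Mf U * Mf U) * (ζ : ArithmeticFunction ℂ)) n * ψ n *
      (WR y n : ℂ)‖ ≤ 2 * ((U:ℝ) ^ 2 * P * L) := by
    rw [sum_conv_psi hmul]
    set M := min (U * U) N with hM
    have hN1 : 1 ≤ N := by
      rw [hN]
      exact Nat.le_floor (by push_cast; linarith)
    have hM1 : 1 ≤ M := le_min (Nat.mul_pos hU hU) hN1
    have hM0 : (0:ℝ) < M := by exact_mod_cast hM1
    have hMU : (M:ℝ) ≤ (U:ℝ) ^ 2 := by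
      have : M ≤ U * U := min_le_left _ _
      calc (M:ℝ) ≤ ((U * U : ℕ) : ℝ) := by exact_mod_cast this
        _ = (U:ℝ) ^ 2 := by push_cast; ring
    have hMx : Real.log M ≤ L := by
      refine Real.log_le_log hM0 ?_
      have : M ≤ N := min_le_right _ _
      exact le_trans (by exact_mod_cast this) (Nat.floor_le hx0.le)
    calc _ ≤ ∑ m ∈ Finset.Ioc 0 N, (if m ∈ Finset.Ioc 0 M then tauR m * P else 0) := by
          refine (norm_sum_le _ _).trans (Finset.sum_le_sum fun m hm => ?_)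
          obtain ⟨hm1, hm2⟩ := Finset.mem_Ioc.mp hm
          by_cases hmU : m ≤ U * U
          · rw [if_pos (Finset.mem_Ioc.mpr ⟨hm1, le_min hmU hm2⟩), norm_mul, norm_mul]
            have h3 := inner_one_psi hP hy m (N / m)
            calc ‖(Mf U * Mf U) m‖ * ‖ψ m‖ * _ ≤ tauR m * 1 * P := by
                  have := norm_MM_le U m
                  have := h1 m
                  have := tauR_nonneg m
                  gcongr
              _ = _ := by ring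
          · rw [MM_zero (by omega)]
            simp only [zero_mul, norm_zero]
            have := tauR_nonneg m
            split_ifs <;> positivity
      _ ≤ ∑ m ∈ Finset.Ioc 0 M, tauR m * P := by
          rw [← Finset.sum_filter]
          refine Finset.sum_le_sum_of_subset_of_nonneg ?_ fun m _ _ =>
            mul_nonneg (tauR_nonneg m) hP0
          intro n hn; exact (Finset.mem_filter.mp hn).2
      _ = (∑ m ∈ Finset.Ioc 0 M, tauR m) * P := by rw [Finset.sum_mul]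
      _ ≤ ((M:ℝ) * Hs M) * P := mul_le_mul_of_nonneg_right (sum_tau_le M) hP0
      _ ≤ ((U:ℝ) ^ 2 * (2 * L)) * P := by
          have h2 : Hs M ≤ 2 * L := (Hs_le M).trans (by linarith)
          have := Hs_nonneg M
          gcongr
      _ = _ := by ring
  have hb4 : ‖∑ n ∈ Finset.Ioc 0 N, (Hf U * (Hf U * (ζ : ArithmeticFunction ℂ))) n * ψ n *
      (WR y n : ℂ)‖ ≤ G4m x U ψ := by
    rw [sum_conv_psi hmul]
    exact type_two_psi hx U ψ hy hyx
  rw [h0]
  have h5 : ‖∑ n ∈ Finset.Ioc 0 N, Mf U n * ψ n * (WR y n : ℂ) +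
      ∑ n ∈ Finset.Ioc 0 N, Mf U n * ψ n * (WR y n : ℂ) -
      ∑ n ∈ Finset.Ioc 0 N, ((Mf U * Mf U) * (ζ : ArithmeticFunction ℂ)) n * ψ n * (WR y n : ℂ) +
      ∑ n ∈ Finset.Ioc 0 N, (Hf U * (Hf U * (ζ : ArithmeticFunction ℂ))) n * ψ n * (WR y n : ℂ)‖ ≤
      U + U + 2 * ((U:ℝ) ^ 2 * P * L) + G4m x U ψ :=
    (norm_add_le _ _).trans (add_le_add ((norm_sub_le _ _).trans
      (add_le_add ((norm_add_le _ _).trans (add_le_add hb1 hb1)) hb3)) hb4)
  refine h5.trans ?_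
  have h6 : (U:ℝ) ≤ (U:ℝ) ^ 2 := by nlinarith
  have h7 : (U:ℝ) ≤ (U:ℝ) ^ 2 * P * L := by
    calc (U:ℝ) = U * 1 * 1 := by ring
      _ ≤ (U:ℝ) ^ 2 * P * L := by gcongr
  nlinarith

end Pool.Agent.MVD
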