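import Pool.Agent.MVD.BVFin

/-!
# Module BVSharp: unsmoothing, Bombieri-Vinogradov for `μ` with sharp cut-off

`unsmooth_mu`: `y * WR y n = max (y - n) 0` (`y_mul_WR` in Lib/ANT/BV), so for `1 ≤ u`, `0 < h`, `u + h ≤ X`:
`h ∑_{n ≤ u} f(n) = (u+h) SMm X (u+h) - u SMm X u - ∑_{u < n < u+h} f(n) (u+h-n)` for `f(n) = μ(n) cw w n [n ≡ a (q)]`, and the number of
`n ∈ (u, u+h)` in the class `a` mod `q` is at most `h/q + 1`.

`bv_mu`: apply `unsmooth_mu` with `X' = 2X`, `h = X/(log X)^(A+1)` (`1 ≤ log X`, so `h ≤ X`), and `riesz_mu` for `2X` with exponent `2A + 1`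
twice (`y q = u q + h`, `y q = u q`, replaced by `1` when `u q = 0`; `MuAP _ _ _ 0 = 0`). `∑_{q ≤ Q} (h/q + 1) ≤ h Hs Q + Q`, `Hs Q ≤ 2 log X`,
`Q ≤ X^(1/4) ≤ C X/(log X)^A`, `tauR w ≥ 1`.
-/

open Finset Complex
open scoped ArithmeticFunction.Moebius ArithmeticFunction.zeta

namespace Pool.Agent.MVD

open Pool.Agent.ANT Pool.Agent.SInt

private lemma Sharp_y_mul_WR {y : ℝ} (hy : 0 < y) (n : ℕ) : y * WR y n = max (y - n) 0 := by
  unfold WR
  rw [mul_max_of_nonneg _ _ hy.le]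
  congr 1
  · field_simp
  · ring

private lemma Sharp_count {q : ℕ} (hq : 0 < q) (a : ZMod q) {u b : ℕ} (hub : u ≤ b) :
    (((Ioc u b).filter (fun n : ℕ => (n : ZMod q) = a)).card : ℝ) ≤ ((b : ℝ) - u) / q + 1 := by
  haveI : NeZero q := ⟨hq.ne'⟩
  have h1 : (Ioc u b).filter (fun n : ℕ => (n : ZMod q) = a) =
      (Ioc u b).filter (fun n : ℕ => n ≡ a.val [MOD q]) := by
    refine filter_congr fun n _ => ?_
    rw [← ZMod.natCast_eq_natCast_iff, ZMod.natCast_zmod_val]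
  rw [h1]
  have h2 := Nat.Ioc_filter_modEq_card (a := u) (b := b) (r := q) hq a.val
  have hq' : (0 : ℚ) < q := by exact_mod_cast hq
  have hub' : (u : ℚ) ≤ b := by exact_mod_cast hub
  have h3 : (((Ioc u b).filter (fun n : ℕ => n ≡ a.val [MOD q])).card : ℚ) ≤
      ((b : ℚ) - u) / q + 1 := by
    have h4 : (((Ioc u b).filter (fun n : ℕ => n ≡ a.val [MOD q])).card : ℚ) =
        ((max (⌊((b : ℚ) - a.val) / (q : ℚ)⌋ - ⌊((u : ℚ) - a.val) / (q : ℚ)⌋) 0 : ℤ) : ℚ) := by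
      rw [← h2]; push_cast; rfl
    rw [h4]
    push_cast
    apply max_le
    · have h5 := Int.floor_le (((b : ℚ) - a.val) / (q : ℚ))
      have h6 := Int.sub_one_lt_floor (((u : ℚ) - a.val) / (q : ℚ))
      have h7 : ((b : ℚ) - a.val) / q - (((u : ℚ) - a.val) / q) = ((b : ℚ) - u) / q := by
        field_simp; ring
      linarith
    · have : 0 ≤ ((b : ℚ) - u) / q := div_nonneg (by linarith) hq'.le
      linarith
  have h8 : ((((Ioc u b).filter (fun n : ℕ => n ≡ a.val [MOD q])).card : ℚ) : ℝ) ≤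
      ((((b : ℚ) - u) / q + 1 : ℚ) : ℝ) := by exact_mod_cast h3
  push_cast at h8
  exact h8

theorem unsmooth_mu {X h : ℝ} (hh : 0 < h) {u : ℕ} (hu : 1 ≤ u) (huX : u + h ≤ X) {q : ℕ} (hq : 0 < q)
    (w : ℕ) (a : ZMod q) :
    ‖MuAP w q a u‖ ≤ h / q + 1 + X / h * (‖SMm X (u + h) w q a‖ + ‖SMm X u w q a‖) := by
  have hu0 : (0 : ℝ) < u := by exact_mod_cast hu
  have hX : 0 < X := by linarith
  have hX0 : 0 ≤ X := hX.le
  set S := (Ioc 0 ⌊X⌋₊).filter (fun n : ℕ => (n : ZMod q) = a) with hS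
  set f : ℕ → ℂ := fun n => muC n * cw w n with hf
  have hfn : ∀ n, ‖f n‖ ≤ 1 := by
    intro n
    rw [hf]
    simp only [norm_mul]
    calc ‖muC n‖ * ‖cw w n‖ ≤ 1 * 1 := mul_le_mul (norm_muC_le n) (norm_cw_le w n) (norm_nonneg _)
          zero_le_one
      _ = 1 := one_mul 1
  have e1 : (h : ℂ) * MuAP w q a u = ∑ n ∈ S, f n * (((h * if n ≤ u then 1 else 0 : ℝ)) : ℂ) := by
    have h1 : (Ioc 0 u).filter (fun n : ℕ => (n : ZMod q) = a) = S.filter (fun n => n ≤ u) := by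
      ext n
      simp only [hS, mem_filter, mem_Ioc]
      constructor
      · rintro ⟨⟨h1, h2⟩, h3⟩
        refine ⟨⟨⟨h1, Nat.le_floor ?_⟩, h3⟩, h2⟩
        have : (n : ℝ) ≤ u := by exact_mod_cast h2
        linarith
      · rintro ⟨⟨⟨h1, h2⟩, h3⟩, h4⟩
        exact ⟨⟨h1, h4⟩, h3⟩
    unfold MuAP
    rw [h1, sum_filter, mul_sum]
    refine sum_congr rfl fun n _ => ?_
    split_ifs
    · push_cast; simp only [hf]; ring
    · push_cast; ring
  have e2 : ∀ y : ℝ, 0 < y → (y : ℂ) * SMm X y w q a = ∑ n ∈ S, f n * ((max (y - n) 0 : ℝ) : ℂ) := by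
    intro y hy
    unfold SMm
    rw [mul_sum]
    refine sum_congr rfl fun n _ => ?_
    rw [← Sharp_y_mul_WR hy]
    push_cast
    simp only [hf]
    ring
  set D : ℂ := ∑ n ∈ S, f n * (((h * if n ≤ u then 1 else 0) - (max ((u : ℝ) + h - n) 0 -
    max ((u : ℝ) - n) 0) : ℝ) : ℂ) with hD
  have e3 : (h : ℂ) * MuAP w q a u = ((u + h : ℝ) : ℂ) * SMm X (u + h) w q a -
      ((u : ℝ) : ℂ) * SMm X u w q a + D := by
    rw [e1, e2 _ (by linarith), e2 _ hu0, hD, ← sum_sub_distrib, ← sum_add_distrib]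
    refine sum_congr rfl fun n _ => ?_
    push_cast
    ring
  obtain ⟨b, hb1, hb2, hb3⟩ : ∃ b : ℕ, u ≤ b ∧ (b : ℝ) < u + h ∧ ∀ n : ℕ, (n : ℝ) < u + h → n ≤ b := by
    have h1 : (u : ℝ) < u + h := by linarith
    have h2 : u < ⌈(u : ℝ) + h⌉₊ := Nat.lt_ceil.2 h1
    refine ⟨⌈(u : ℝ) + h⌉₊ - 1, by omega, ?_, ?_⟩
    · have h3 : ⌈(u : ℝ) + h⌉₊ - 1 < ⌈(u : ℝ) + h⌉₊ := by omega
      exact Nat.lt_ceil.1 h3
    · intro n hn
      have := Nat.lt_ceil.2 hn
      omega
  have e4 : ‖D‖ ≤ h * (h / q + 1) := by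
    have h1 : ‖D‖ ≤ ∑ n ∈ S, if u < n ∧ n ≤ b then h else 0 := by
      refine (norm_sum_le _ _).trans (sum_le_sum fun n _ => ?_)
      rw [norm_mul, Complex.norm_real, Real.norm_eq_abs]
      have hle : |(h * if n ≤ u then 1 else 0) - (max ((u : ℝ) + h - n) 0 - max ((u : ℝ) - n) 0)| ≤
          if u < n ∧ n ≤ b then h else 0 := by
        rcases le_or_gt n u with hn | hn
        · have hn' : (n : ℝ) ≤ u := by exact_mod_cast hn
          rw [if_pos hn, max_eq_left (by linarith), max_eq_left (by linarith)]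
          rw [show h * 1 - ((u : ℝ) + h - n - ((u : ℝ) - n)) = 0 by ring, abs_zero]
          split_ifs
          · exact hh.le
          · exact le_rfl
        · have hn' : (u : ℝ) < n := by exact_mod_cast hn
          rw [if_neg (by omega), max_eq_right (by linarith : (u : ℝ) - n ≤ 0)]
          rcases le_or_gt n b with hnb | hnb
          · rw [if_pos ⟨hn, hnb⟩]
            have h5 : 0 ≤ max ((u : ℝ) + h - n) 0 := le_max_right _ _
            have h6 : max ((u : ℝ) + h - n) 0 ≤ h := max_le (by linarith) hh.le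
            rw [abs_le]
            constructor <;> linarith
          · rw [if_neg (by omega)]
            have h7 : (u : ℝ) + h ≤ n := by
              by_contra hcon
              have := hb3 n (not_le.1 hcon)
              omega
            rw [max_eq_right (by linarith)]
            simp
      calc ‖f n‖ * _ ≤ 1 * _ := by gcongr; exact hfn n
        _ ≤ _ := by rw [one_mul]; exact hle
    refine h1.trans ?_
    rw [← sum_filter, sum_const, nsmul_eq_mul]
    have h2 : (((S.filter fun n => u < n ∧ n ≤ b).card : ℕ) : ℝ) ≤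
        (((Ioc u b).filter (fun n : ℕ => (n : ZMod q) = a)).card : ℝ) := by
      refine Nat.cast_le.2 (card_le_card fun n hn => ?_)
      simp only [hS, mem_filter, mem_Ioc] at hn ⊢
      exact ⟨hn.2, hn.1.2⟩
    have h3 := Sharp_count hq a hb1
    have hq' : (0 : ℝ) < q := by exact_mod_cast hq
    have h4 : ((b : ℝ) - u) / q ≤ h / q := by gcongr; linarith
    rw [mul_comm]
    gcongr
    linarith
  have e5 : h * ‖MuAP w q a u‖ ≤ X * (‖SMm X (u + h) w q a‖ + ‖SMm X u w q a‖) + h * (h / q + 1) := by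
    have h1 : h * ‖MuAP w q a u‖ = ‖(h : ℂ) * MuAP w q a u‖ := by
      rw [norm_mul, Complex.norm_real, Real.norm_eq_abs, abs_of_pos hh]
    rw [h1, e3]
    refine (norm_add_le _ _).trans (add_le_add ?_ e4)
    refine (norm_sub_le _ _).trans ?_
    rw [norm_mul, norm_mul, Complex.norm_real, Complex.norm_real, Real.norm_eq_abs, Real.norm_eq_abs,
      abs_of_pos hu0, abs_of_pos (by linarith : (0 : ℝ) < u + h), mul_add]
    gcongr
    linarith
  have e6 : h * ‖MuAP w q a u‖ ≤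
      h * (h / q + 1 + X / h * (‖SMm X (u + h) w q a‖ + ‖SMm X u w q a‖)) := by
    refine e5.trans (le_of_eq ?_)
    field_simp
    ring
  exact le_of_mul_le_mul_left e6 hh

theorem bv_mu (A : ℕ) : ∃ C : ℝ, 0 < C ∧ ∀ X : ℝ, 3 ≤ X → ∀ w : ℕ, w ≠ 0 → ∀ Q : ℕ,
    (Q : ℝ) ^ 4 ≤ X → ∀ (u a : ℕ → ℕ), (∀ q, (u q : ℝ) ≤ X) → (∀ q, (a q).Coprime q) →
    ∑ q ∈ Ioc 0 Q, ‖MuAP w q (a q : ZMod q) (u q)‖ ≤ C * tauR w ^ 2 * X / Real.log X ^ A := by
  obtain ⟨C, hC, hr⟩ := riesz_mu (2 * A + 1)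
  obtain ⟨K, hK, hlogp⟩ := log_pow_le_rpow A (show (0:ℝ) < 3 / 4 by norm_num)
  refine ⟨2 + K + 8 * C, by positivity, fun X hX w hw Q hQ u a hu ha => ?_⟩
  have hX0 : 0 < X := by linarith
  have hlog := one_le_log hX
  set L := Real.log X with hL
  have hL0 : 0 < L := by linarith
  have hX3 : 3 ≤ 2 * X := by linarith
  have hτ := one_le_tauR hw
  have hτ2 : 1 ≤ tauR w ^ 2 := one_le_pow₀ hτ
  set h : ℝ := X / L ^ (A + 1) with hh
  have hh0 : 0 < h := by positivity
  have hhx : h ≤ X := by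
    rw [hh]
    exact div_le_self hX0.le (one_le_pow₀ hlog)
  have hLX1 : L ≤ Real.log (2 * X) := Real.log_le_log hX0 (by linarith)
  have hQ4 : (2 * X) ≥ (Q : ℝ) ^ 4 := by linarith
  set E : ℝ := C * tauR w ^ 2 * (2 * X) / Real.log (2 * X) ^ (2 * A + 1) with hE
  have hE0 : 0 ≤ E := by
    have : 0 ≤ Real.log (2 * X) := by linarith
    positivity
  have hEle : E ≤ 2 * C * tauR w ^ 2 * X / L ^ (2 * A + 1) := by
    rw [hE]
    calc C * tauR w ^ 2 * (2 * X) / Real.log (2 * X) ^ (2 * A + 1)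
        ≤ C * tauR w ^ 2 * (2 * X) / L ^ (2 * A + 1) := by gcongr
      _ = _ := by ring
  set y2 : ℕ → ℝ := fun q => if u q = 0 then 1 else (u q : ℝ) with hy2
  have b1 := hr (2 * X) hX3 w hw Q hQ4 (fun q => u q + h) a (fun q => ⟨by positivity, by
    have := hu q
    show (u q : ℝ) + h ≤ 2 * X
    linarith⟩) ha
  have b2 := hr (2 * X) hX3 w hw Q hQ4 y2 a (fun q => by
    show 0 < (if u q = 0 then (1 : ℝ) else (u q : ℝ)) ∧ (if u q = 0 then (1 : ℝ) else (u q : ℝ)) ≤ 2 * X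
    have := hu q
    split_ifs with h0
    · exact ⟨one_pos, by linarith⟩
    · exact ⟨by exact_mod_cast Nat.pos_of_ne_zero h0, by linarith⟩) ha
  rw [← hE] at b1 b2
  have hsum : ∑ q ∈ Ioc 0 Q, ‖MuAP w q (a q : ZMod q) (u q)‖ ≤
      h * Hs Q + Q + 2 * X / h * (E + E) := by
    calc _ ≤ ∑ q ∈ Ioc 0 Q, (h * ((1 : ℝ) / q) + 1 + 2 * X / h *
          (‖SMm (2 * X) (u q + h) w q (a q : ZMod q)‖ + ‖SMm (2 * X) (y2 q) w q (a q : ZMod q)‖)) := by
          refine sum_le_sum fun q hq => ?_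
          have hq0 := (mem_Ioc.1 hq).1
          rcases Nat.eq_zero_or_pos (u q) with h0 | h0
          · have e0 : MuAP w q (a q : ZMod q) (u q) = 0 := by
              rw [h0]; unfold MuAP; simp
            rw [e0, norm_zero]
            positivity
          · have h1 := unsmooth_mu (X := 2 * X) hh0 h0 (by have := hu q; linarith) hq0 w
              (a q : ZMod q)
            have e2 : y2 q = (u q : ℝ) := by
              simp only [hy2]; rw [if_neg (by omega)]
            rw [e2]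
            refine h1.trans (le_of_eq ?_)
            ring
      _ = h * Hs Q + Q + 2 * X / h * (∑ q ∈ Ioc 0 Q, ‖SMm (2 * X) (u q + h) w q (a q : ZMod q)‖ +
          ∑ q ∈ Ioc 0 Q, ‖SMm (2 * X) (y2 q) w q (a q : ZMod q)‖) := by
          rw [sum_add_distrib, sum_add_distrib, ← mul_sum, ← mul_sum, sum_add_distrib, sum_const,
            Nat.card_Ioc, nsmul_eq_mul, mul_one, Nat.sub_zero]
          rfl
      _ ≤ _ := by
          have : 0 ≤ 2 * X / h := by positivity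
          gcongr
  refine hsum.trans ?_
  have hQx : (Q : ℝ) ≤ X := by
    rcases Nat.eq_zero_or_pos Q with h0 | h0
    · subst h0; simp; linarith
    · have h1 : (1 : ℝ) ≤ Q := by exact_mod_cast h0
      calc (Q : ℝ) = (Q : ℝ) ^ 1 := (pow_one _).symm
        _ ≤ (Q : ℝ) ^ 4 := pow_le_pow_right₀ h1 (by norm_num)
        _ ≤ X := hQ
  have hHs : Hs Q ≤ 2 * L := by
    rcases Nat.eq_zero_or_pos Q with h0 | h0
    · subst h0
      have : Hs 0 = 0 := by unfold Hs; simp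
      rw [this]; positivity
    refine (Hs_le Q).trans ?_
    have : Real.log Q ≤ L := Real.log_le_log (by exact_mod_cast h0) hQx
    linarith
  have c1 : h * Hs Q ≤ 2 * X / L ^ A := by
    calc _ ≤ h * (2 * L) := by gcongr
      _ = 2 * X / L ^ A := by
          rw [hh, pow_succ]; field_simp
  have c2 : (Q : ℝ) ≤ K * X / L ^ A := by
    rw [le_div_iff₀ (by positivity)]
    have h1 : (Q : ℝ) ≤ X ^ ((1 : ℝ) / 4) := by
      have h2 : (Q : ℝ) = ((Q : ℝ) ^ 4) ^ ((1 : ℝ) / 4) := by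
        rw [← Real.rpow_natCast, ← Real.rpow_mul (Nat.cast_nonneg _)]
        norm_num
      rw [h2]
      exact Real.rpow_le_rpow (by positivity) hQ (by norm_num)
    have h3 := hlogp X (by linarith)
    calc (Q : ℝ) * L ^ A ≤ X ^ ((1 : ℝ) / 4) * (K * X ^ ((3 : ℝ) / 4)) := by
          apply mul_le_mul h1 h3 (by positivity) (by positivity)
      _ = K * (X ^ ((1 : ℝ) / 4) * X ^ ((3 : ℝ) / 4)) := by ring
      _ = K * X := by
          rw [← Real.rpow_add hX0]; norm_num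
  have c3 : 2 * X / h * (E + E) ≤ 8 * C * tauR w ^ 2 * X / L ^ A := by
    have h1 : 2 * X / h = 2 * L ^ (A + 1) := by rw [hh]; field_simp
    rw [h1]
    calc 2 * L ^ (A + 1) * (E + E) = 4 * L ^ (A + 1) * E := by ring
      _ ≤ 4 * L ^ (A + 1) * (2 * C * tauR w ^ 2 * X / L ^ (2 * A + 1)) := by gcongr
      _ = _ := by
          have : L ^ (2 * A + 1) = L ^ (A + 1) * L ^ A := by ring
          rw [this]
          field_simp
          ring
  have hp : 0 ≤ X / L ^ A := by positivity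
  have c4 : (2 + K) * (X / L ^ A) ≤ (2 + K) * (X / L ^ A) * tauR w ^ 2 := by
    have h0 : 0 ≤ (2 + K) * (X / L ^ A) := by positivity
    nlinarith
  calc _ ≤ 2 * X / L ^ A + K * X / L ^ A + 8 * C * tauR w ^ 2 * X / L ^ A :=
        add_le_add (add_le_add c1 c2) c3
    _ = (2 + K) * (X / L ^ A) + 8 * C * tauR w ^ 2 * X / L ^ A := by ring
    _ ≤ (2 + K) * (X / L ^ A) * tauR w ^ 2 + 8 * C * tauR w ^ 2 * X / L ^ A := by linarith
    _ = _ := by ring

end Pool.Agent.MVD
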