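import Pool.Agent.MVD.BVLog
import Pool.Agent.MVD.BVSharp

/-!
# Module BVRed1: reduction of the sum in `Z_two`

`expand`: open `ff`, `dsum`, exchange the sums, split `k` into classes mod `r` (`χ(N - qk)` depends only on `k mod r` and has norm `≤ 1`),
`‖ω d‖ ≤ 1`, `ω d = 0` unless `(d,r) = 1`.

`pairs_sum`: for fixed `b` group the `d` according to `g = (d,N)`, `d = g d'`: the sum over the `d ≤ Y` coprime to `r` is at most the sum over all
pairs `(g,d')` with `g ∈ [1,Y]`, `d' ∈ [1, Y/g]` of the terms with `(g d', N) = g`, `(g d', r) = 1`. For fixed `g` and `b` (put `h = (b,r)`) the moduli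
`D = d' (r/h)` are distinct for distinct `d'` and `≤ Y r`; choose `u(D)`, `a(D)` accordingly (default `u = 0`, `a = 1`) and apply the hypothesis `hbv`
(with `w = e g h`): `∑_{d'} ... ≤ Bd (e g h) (Z/(g h))`.
-/

open Finset Complex
open scoped ArithmeticFunction.Moebius ArithmeticFunction.zeta

namespace Pool.Agent.MVD

open Pool.Agent.ANT Pool.Agent.SInt

theorem expand {r : ℕ} (hr : 0 < r) (χ : DirichletCharacter ℂ r) {ω : ℕ → ℂ} (hω : OmOK ω r) (e i Y N q u : ℕ) :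
    ‖∑ k ∈ Icc 1 u, cc e i k * ff χ ω Y ((N : ℤ) - q * k)‖ ≤
      ∑ b ∈ range r, ∑ d ∈ (Icc 1 Y).filter (fun d => d.Coprime r),
        ‖∑ k ∈ (Icc 1 u).filter (fun k : ℕ => k % r = b ∧ (d : ℤ) ∣ (N : ℤ) - q * k), cc e i k‖ := by
  classical
  have h1 : ∑ k ∈ Icc 1 u, cc e i k * ff χ ω Y ((N : ℤ) - q * k) =
      ∑ d ∈ Icc 1 Y, ω d * ∑ b ∈ range r, χ ((((N : ℤ) - q * (b : ℕ) : ℤ)) : ZMod r) *
        ∑ k ∈ (Icc 1 u).filter (fun k : ℕ => k % r = b ∧ (d : ℤ) ∣ (N : ℤ) - q * k), cc e i k := by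
    have h2 : ∀ k ∈ Icc 1 u, cc e i k * ff χ ω Y ((N : ℤ) - q * k) =
        ∑ d ∈ Icc 1 Y, if (d : ℤ) ∣ (N : ℤ) - q * k then
          ω d * (χ ((((N : ℤ) - q * (k : ℕ) : ℤ)) : ZMod r) * cc e i k) else 0 := by
      intro k _
      rw [ff, dsum, Finset.mul_sum, Finset.mul_sum]
      refine Finset.sum_congr rfl fun d _ => ?_
      split_ifs
      · ring
      · ring
    rw [Finset.sum_congr rfl h2, Finset.sum_comm]
    refine Finset.sum_congr rfl fun d _ => ?_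
    have h3 : ∀ k ∈ Icc 1 u, k % r ∈ range r := fun k _ => Finset.mem_range.mpr (Nat.mod_lt _ hr)
    rw [← Finset.sum_fiberwise_of_maps_to h3, Finset.mul_sum]
    refine Finset.sum_congr rfl fun b _ => ?_
    rw [Finset.mul_sum, Finset.mul_sum, ← Finset.filter_filter,
      Finset.sum_filter (fun k : ℕ => (d : ℤ) ∣ (N : ℤ) - q * k)]
    refine Finset.sum_congr rfl fun k hk => ?_
    have hkb : k % r = b := (Finset.mem_filter.mp hk).2
    have h4 : ((((N : ℤ) - q * (k : ℕ) : ℤ)) : ZMod r) = ((((N : ℤ) - q * (b : ℕ) : ℤ)) : ZMod r) := by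
      have h5 : ((k : ℕ) : ZMod r) = ((b : ℕ) : ZMod r) := by
        rw [← hkb, ZMod.natCast_mod]
      push_cast
      rw [h5]
    rw [h4]
  rw [h1]
  refine (norm_sum_le _ _).trans ?_
  have h6 : ∑ d ∈ Icc 1 Y, ‖ω d * ∑ b ∈ range r, χ ((((N : ℤ) - q * (b : ℕ) : ℤ)) : ZMod r) *
        ∑ k ∈ (Icc 1 u).filter (fun k : ℕ => k % r = b ∧ (d : ℤ) ∣ (N : ℤ) - q * k), cc e i k‖ ≤
      ∑ d ∈ (Icc 1 Y).filter (fun d => d.Coprime r), ∑ b ∈ range r,
        ‖∑ k ∈ (Icc 1 u).filter (fun k : ℕ => k % r = b ∧ (d : ℤ) ∣ (N : ℤ) - q * k), cc e i k‖ := by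
    rw [Finset.sum_filter]
    refine Finset.sum_le_sum fun d _ => ?_
    split_ifs with hd
    · rw [norm_mul]
      have h7 : ‖∑ b ∈ range r, χ ((((N : ℤ) - q * (b : ℕ) : ℤ)) : ZMod r) *
          ∑ k ∈ (Icc 1 u).filter (fun k : ℕ => k % r = b ∧ (d : ℤ) ∣ (N : ℤ) - q * k), cc e i k‖ ≤
          ∑ b ∈ range r,
            ‖∑ k ∈ (Icc 1 u).filter (fun k : ℕ => k % r = b ∧ (d : ℤ) ∣ (N : ℤ) - q * k), cc e i k‖ := by
        refine (norm_sum_le _ _).trans (Finset.sum_le_sum fun b _ => ?_)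
        rw [norm_mul]
        exact mul_le_of_le_one_left (norm_nonneg _) (DirichletCharacter.norm_le_one _ _)
      calc _ ≤ 1 * _ := mul_le_mul (hω.1 d) h7 (norm_nonneg _) zero_le_one
        _ = _ := one_mul _
    · rw [hω.2 d hd, zero_mul, norm_zero]
  refine h6.trans (le_of_eq ?_)
  rw [Finset.sum_comm]

theorem pairs_sum {q N r b : ℕ} (hqN : q.Coprime N) (hr : 0 < r) (hb : b < r) {e i : ℕ} (he : 1 ≤ e) (hi : i ≤ 1)
    {u Y : ℕ} {L Z : ℝ} (hL1 : 1 ≤ L) (hL : Real.log (u : ℝ) ≤ L) (huZ : (u : ℝ) ≤ Z) (Bd : ℕ → ℝ → ℝ)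
    (hBd : ∀ w z, 0 ≤ Bd w z)
    (hbv : ∀ g ∈ Icc 1 Y, ∀ (v a : ℕ → ℕ), (∀ D, (v D : ℝ) ≤ Z / (g * b.gcd r : ℕ)) → (∀ D, (a D).Coprime D) →
      ∑ D ∈ Ioc 0 (Y * r), ‖MuAP (e * (g * b.gcd r)) D (a D : ZMod D) (v D)‖ ≤
        Bd (e * (g * b.gcd r)) (Z / (g * b.gcd r : ℕ))) :
    ∑ d ∈ (Icc 1 Y).filter (fun d => d.Coprime r),
      ‖∑ k ∈ (Icc 1 u).filter (fun k : ℕ => k % r = b ∧ (d : ℤ) ∣ (N : ℤ) - q * k), cc e i k‖ ≤
      2 * L * ∑ g ∈ Icc 1 Y, Bd (e * (g * b.gcd r)) (Z / (g * b.gcd r : ℕ)) := by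
  classical
  have hh0 : 0 < b.gcd r := Nat.gcd_pos_of_pos_right _ hr
  have hrh : 0 < r / b.gcd r := Nat.div_pos (Nat.gcd_le_right _ hr) hh0
  have hZ0 : 0 ≤ Z := le_trans (Nat.cast_nonneg u) huZ
  have hL0 : 0 ≤ 2 * L := by linarith
  have key : ∀ d : ℕ, ∃ c u' : ℕ, d ∈ (Icc 1 Y).filter (fun d => d.Coprime r) →
      (c.Coprime (d / d.gcd N * (r / b.gcd r)) ∧ u' ≤ u / (d.gcd N * b.gcd r) ∧
      ‖∑ k ∈ (Icc 1 u).filter (fun k : ℕ => k % r = b ∧ (d : ℤ) ∣ (N : ℤ) - q * k), cc e i k‖ ≤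
        2 * L * ‖MuAP (e * (d.gcd N * b.gcd r)) (d / d.gcd N * (r / b.gcd r)) (c : ZMod _) u'‖) := by
    intro d
    by_cases hd : d ∈ (Icc 1 Y).filter (fun d => d.Coprime r)
    · rw [Finset.mem_filter, Finset.mem_Icc] at hd
      obtain ⟨c, u', h1⟩ := one_pair hqN hd.2 (by omega) hr hb he hi hL1 hL
      exact ⟨c, u', fun _ => h1⟩
    · exact ⟨0, 0, fun h => absurd h hd⟩
  choose c u' hcu using key
  have hmaps : ∀ d ∈ (Icc 1 Y).filter (fun d => d.Coprime r), d.gcd N ∈ Icc 1 Y := by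
    intro d hd
    rw [Finset.mem_filter, Finset.mem_Icc] at hd
    rw [Finset.mem_Icc]
    exact ⟨Nat.gcd_pos_of_pos_left _ (by omega), (Nat.gcd_le_left _ (by omega)).trans hd.1.2⟩
  rw [← Finset.sum_fiberwise_of_maps_to hmaps, Finset.mul_sum]
  refine Finset.sum_le_sum fun g hg => ?_
  have hg1 : 0 < g := (Finset.mem_Icc.mp hg).1
  obtain ⟨fib, hfib⟩ : ∃ fib, fib =
      ((Icc 1 Y).filter (fun d => d.Coprime r)).filter (fun d => d.gcd N = g) := ⟨_, rfl⟩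
  rw [← hfib]
  have hmem : ∀ d ∈ fib, d ∈ (Icc 1 Y).filter (fun d => d.Coprime r) ∧ d.gcd N = g := by
    intro d hd
    rw [hfib] at hd
    exact Finset.mem_filter.mp hd
  have hdvd : ∀ d ∈ fib, g * (d / g) = d := by
    intro d hd
    refine Nat.mul_div_cancel' ?_
    rw [← (hmem d hd).2]
    exact Nat.gcd_dvd_left _ _
  have hinj : ∀ d ∈ fib, ∀ d' ∈ fib, d / g * (r / b.gcd r) = d' / g * (r / b.gcd r) → d = d' := by
    intro d hd d' hd' heq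
    have h1 : d / g = d' / g := Nat.eq_of_mul_eq_mul_right hrh heq
    rw [← hdvd d hd, ← hdvd d' hd', h1]
  obtain ⟨ps, hps⟩ : ∃ ps : ℕ → ℕ, ∀ D, (∃ d ∈ fib, d / g * (r / b.gcd r) = D) →
      ps D ∈ fib ∧ ps D / g * (r / b.gcd r) = D := by
    have h1 : ∀ D, ∃ x, (∃ d ∈ fib, d / g * (r / b.gcd r) = D) →
        x ∈ fib ∧ x / g * (r / b.gcd r) = D := by
      intro D
      by_cases h : ∃ d ∈ fib, d / g * (r / b.gcd r) = D
      · obtain ⟨d, hd⟩ := h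
        exact ⟨d, fun _ => hd⟩
      · exact ⟨0, fun h' => absurd h' h⟩
    choose ps hps using h1
    exact ⟨ps, hps⟩
  have hpsd : ∀ d ∈ fib, ps (d / g * (r / b.gcd r)) = d := by
    intro d hd
    have h1 := hps _ ⟨d, hd, rfl⟩
    exact hinj _ h1.1 _ hd h1.2
  obtain ⟨a, ha⟩ : ∃ a : ℕ → ℕ, ∀ D, a D =
      if ∃ d ∈ fib, d / g * (r / b.gcd r) = D then c (ps D) else 1 := ⟨_, fun _ => rfl⟩
  obtain ⟨v, hv⟩ : ∃ v : ℕ → ℕ, ∀ D, v D =
      if ∃ d ∈ fib, d / g * (r / b.gcd r) = D then u' (ps D) else 0 := ⟨_, fun _ => rfl⟩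
  have hpos : (0 : ℝ) < ((g * b.gcd r : ℕ) : ℝ) := by
    exact_mod_cast Nat.mul_pos hg1 hh0
  have hv1 : ∀ D, (v D : ℝ) ≤ Z / (g * b.gcd r : ℕ) := by
    intro D
    rw [hv D]
    split_ifs with h
    · obtain ⟨h1, _⟩ := hps D h
      obtain ⟨h2, h3⟩ := hmem _ h1
      have h4 := (hcu _ h2).2.1
      rw [h3] at h4
      have h5 : ((u' (ps D) : ℕ) : ℝ) ≤ ((u / (g * b.gcd r) : ℕ) : ℝ) := by exact_mod_cast h4
      have h6 : ((u / (g * b.gcd r) : ℕ) : ℝ) ≤ (u : ℝ) / ((g * b.gcd r : ℕ) : ℝ) := Nat.cast_div_le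
      exact (h5.trans h6).trans (div_le_div_of_nonneg_right huZ hpos.le)
    · rw [Nat.cast_zero]
      exact div_nonneg hZ0 hpos.le
  have ha1 : ∀ D, (a D).Coprime D := by
    intro D
    rw [ha D]
    split_ifs with h
    · obtain ⟨h1, h1'⟩ := hps D h
      obtain ⟨h2, h3⟩ := hmem _ h1
      have h4 := (hcu _ h2).1
      rw [h3, h1'] at h4
      exact h4
    · exact Nat.coprime_one_left D
  have hfin := hbv g hg v a hv1 ha1
  have hstep : ∀ d ∈ fib,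
      ‖∑ k ∈ (Icc 1 u).filter (fun k : ℕ => k % r = b ∧ (d : ℤ) ∣ (N : ℤ) - q * k), cc e i k‖ ≤
      2 * L * ‖MuAP (e * (g * b.gcd r)) (d / g * (r / b.gcd r))
        (a (d / g * (r / b.gcd r)) : ZMod (d / g * (r / b.gcd r))) (v (d / g * (r / b.gcd r)))‖ := by
    intro d hd
    obtain ⟨h2, h3⟩ := hmem d hd
    have h4 := (hcu d h2).2.2
    have h5 : a (d / g * (r / b.gcd r)) = c d := by
      rw [ha, if_pos ⟨d, hd, rfl⟩, hpsd d hd]
    have h6 : v (d / g * (r / b.gcd r)) = u' d := by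
      rw [hv, if_pos ⟨d, hd, rfl⟩, hpsd d hd]
    rw [h5, h6]
    rw [h3] at h4
    exact h4
  refine (Finset.sum_le_sum hstep).trans ?_
  rw [← Finset.mul_sum]
  refine mul_le_mul_of_nonneg_left (le_trans ?_ hfin) hL0
  have himg : ∑ d ∈ fib, ‖MuAP (e * (g * b.gcd r)) (d / g * (r / b.gcd r))
        (a (d / g * (r / b.gcd r)) : ZMod (d / g * (r / b.gcd r))) (v (d / g * (r / b.gcd r)))‖ =
      ∑ D ∈ fib.image (fun d => d / g * (r / b.gcd r)),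
        ‖MuAP (e * (g * b.gcd r)) D (a D : ZMod D) (v D)‖ := by
    rw [Finset.sum_image]
    intro d hd d' hd' heq
    exact hinj d hd d' hd' heq
  rw [himg]
  refine Finset.sum_le_sum_of_subset_of_nonneg ?_ fun _ _ _ => norm_nonneg _
  intro D hD
  obtain ⟨d, hd, rfl⟩ := Finset.mem_image.mp hD
  have h1 := (hmem d hd).1
  rw [Finset.mem_filter, Finset.mem_Icc] at h1
  rw [Finset.mem_Ioc]
  constructor
  · refine Nat.mul_pos ?_ hrh
    rcases Nat.eq_zero_or_pos (d / g) with h2 | h2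
    · have h3 := hdvd d hd
      rw [h2, mul_zero] at h3
      omega
    · exact h2
  · exact Nat.mul_le_mul ((Nat.div_le_self _ _).trans h1.1.2) (Nat.div_le_self _ _)

end Pool.Agent.MVD
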