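import Pool.Agent.MVD.BVMe
import Pool.Agent.MVD.BVPt

/-!
# Module BVSmall: partial sums of `psw w χ`, small conductors, the majorant `Mj`

`psw_partial`: `∑_{k ≤ n, (k,w)=1} χ(k) = ∑_{δ ∣ w} μ(δ) χ(δ) ∑_{j ≤ n/δ} χ(j)`.

`mu_small`: class of weights `G = {n ↦ c χ(n) : ‖c‖ ≤ 1}` (dilation closed), `mu_char_phim m` (with `ε = 1`, Lib/ANT/Major; `cmu χ n = χ n * μ n`),
`SS_remove`, `SS_primeFactors` (Lib/ANT/Coprime) give `‖∑_{n ≤ u} μ(n) psw w χ n‖ ≤ 4^{ω(w)} K r phim m u`, `4^{ω(w)} = (2^{ω(w)})² ≤ tauR w ^ 2`;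
`phim m u ≤ phim m X ≤ X / (log X)^m` for `1 ≤ u ≤ X` (`phim_mono`; the case `u = 0` is trivial) and Abel summation `riesz_of_partial` (BVRed).

`RMm_le_Mj`: `r ≤ T`: `mu_small`; `r > T ≥ 1`: `mu_pointwise` with `P = tauR w * (2 √r (1 + log r)) ≥ 1` (`psw_partial`, `polya_vinogradov`).
-/

open Finset Complex
open scoped ArithmeticFunction.Moebius ArithmeticFunction.zeta

namespace Pool.Agent.MVD

open Pool.Agent.ANT Pool.Agent.SInt

namespace BVSmallAux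

lemma two_pow_omega_le {q : ℕ} (hq : q ≠ 0) : (2:ℝ) ^ q.primeFactors.card ≤ tauR q := by
  have h : q.primeFactors.powerset.card ≤ q.divisors.card := by
    refine Finset.card_le_card_of_injOn (fun s => ∏ p ∈ s, p) ?_ ?_
    · intro s hs
      have hs' : s ⊆ q.primeFactors := Finset.mem_powerset.mp hs
      refine Nat.mem_divisors.mpr ⟨?_, hq⟩
      exact (Finset.prod_dvd_prod_of_subset _ _ _ hs').trans (Nat.prod_primeFactors_dvd q)
    · intro s hs t ht hst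
      have hs' : s ⊆ q.primeFactors := Finset.mem_powerset.mp hs
      have ht' : t ⊆ q.primeFactors := Finset.mem_powerset.mp ht
      have h1 : (∏ p ∈ s, p).primeFactors = s :=
        Nat.primeFactors_prod fun p hp => Nat.prime_of_mem_primeFactors (hs' hp)
      have h2 : (∏ p ∈ t, p).primeFactors = t :=
        Nat.primeFactors_prod fun p hp => Nat.prime_of_mem_primeFactors (ht' hp)
      rw [← h1, ← h2]
      exact congrArg _ hst
  rw [Finset.card_powerset] at h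
  unfold tauR
  exact_mod_cast h

lemma cw_eq_sum {w : ℕ} (hw : w ≠ 0) (k : ℕ) :
    cw w k = ∑ d ∈ w.divisors, if d ∣ k then muC d else 0 := by
  rw [← Finset.sum_filter]
  have h1 : w.divisors.filter (fun d => d ∣ k) = (Nat.gcd k w).divisors := by
    ext d
    simp only [Finset.mem_filter, Nat.mem_divisors]
    constructor
    · rintro ⟨⟨h1, _⟩, h2⟩
      exact ⟨Nat.dvd_gcd h2 h1, Nat.gcd_ne_zero_right hw⟩
    · rintro ⟨h1, _⟩
      exact ⟨⟨h1.trans (Nat.gcd_dvd_right k w), hw⟩, h1.trans (Nat.gcd_dvd_left k w)⟩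
  rw [h1]
  have h2 : ∑ d ∈ (Nat.gcd k w).divisors, ArithmeticFunction.moebius d =
      (if Nat.gcd k w = 1 then 1 else 0 : ℤ) := by
    rw [← ArithmeticFunction.coe_zeta_mul_apply, ArithmeticFunction.coe_zeta_mul_moebius,
      ArithmeticFunction.one_apply]
  have h3 : ∑ d ∈ (Nat.gcd k w).divisors, muC d =
      ((∑ d ∈ (Nat.gcd k w).divisors, ArithmeticFunction.moebius d : ℤ) : ℂ) := by
    unfold muC
    push_cast
    rfl
  rw [h3, h2]
  unfold cw
  by_cases hc : k.Coprime w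
  · rw [if_pos hc, if_pos hc]
    simp
  · rw [if_neg hc, if_neg (fun h => hc h)]
    simp

lemma sum_dvd {q : ℕ} (χ : DirichletCharacter ℂ q) {d : ℕ} (hd : 0 < d) (n : ℕ) :
    ∑ k ∈ (Ioc 0 n).filter (fun k => d ∣ k), χ (k : ZMod q) =
      χ (d : ZMod q) * ∑ j ∈ Ioc 0 (n / d), χ (j : ZMod q) := by
  rw [Finset.mul_sum]
  symm
  refine Finset.sum_bij' (fun j _ => d * j) (fun k _ => k / d) ?_ ?_ ?_ ?_ ?_
  · intro j hj
    obtain ⟨h1, h2⟩ := Finset.mem_Ioc.mp hj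
    refine Finset.mem_filter.mpr ⟨Finset.mem_Ioc.mpr ⟨Nat.mul_pos hd h1, ?_⟩, dvd_mul_right d j⟩
    rw [mul_comm]
    exact (Nat.le_div_iff_mul_le hd).mp h2
  · intro k hk
    obtain ⟨h1, h2⟩ := Finset.mem_filter.mp hk
    obtain ⟨h3, h4⟩ := Finset.mem_Ioc.mp h1
    refine Finset.mem_Ioc.mpr ⟨Nat.div_pos (Nat.le_of_dvd h3 h2) hd, Nat.div_le_div_right h4⟩
  · intro j _
    exact Nat.mul_div_cancel_left _ hd
  · intro k hk
    exact Nat.mul_div_cancel' (Finset.mem_filter.mp hk).2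
  · intro j _
    push_cast
    rw [map_mul]

lemma dilClosed {q : ℕ} (χ : DirichletCharacter ℂ q) :
    DilClosed {g : ℕ → ℂ | ∃ c : ℂ, ‖c‖ ≤ 1 ∧ g = fun n : ℕ => c * χ (n : ZMod q)} := by
  rintro g ⟨c, hc, rfl⟩ p _
  refine ⟨c * χ (p : ZMod q), ?_, ?_⟩
  · rw [norm_mul]
    have := χ.norm_le_one (p : ZMod q)
    calc ‖c‖ * ‖χ (p : ZMod q)‖ ≤ 1 * 1 := by gcongr
      _ = 1 := one_mul 1
  · funext n
    push_cast
    rw [map_mul]
    ring

end BVSmallAux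

open BVSmallAux

theorem psw_partial {q : ℕ} (χ : DirichletCharacter ℂ q) {P : ℝ}
    (hP : ∀ n : ℕ, ‖∑ k ∈ Ioc 0 n, χ k‖ ≤ P) {w : ℕ} (hw : w ≠ 0) (n : ℕ) :
    ‖∑ k ∈ Ioc 0 n, psw w χ k‖ ≤ tauR w * P := by
  have h1 : ∑ k ∈ Ioc 0 n, psw w χ k =
      ∑ d ∈ w.divisors, muC d * (χ (d : ZMod q) * ∑ j ∈ Ioc 0 (n / d), χ (j : ZMod q)) := by
    have h2 : ∀ d ∈ w.divisors, muC d * (χ (d : ZMod q) * ∑ j ∈ Ioc 0 (n / d), χ (j : ZMod q)) =
        ∑ k ∈ Ioc 0 n, (if d ∣ k then muC d else 0) * χ (k : ZMod q) := by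
      intro d hd
      have hd0 : 0 < d := Nat.pos_of_mem_divisors hd
      rw [← sum_dvd χ hd0 n, Finset.sum_filter, Finset.mul_sum]
      refine Finset.sum_congr rfl fun k _ => ?_
      split_ifs <;> simp
    rw [Finset.sum_congr rfl h2, Finset.sum_comm]
    refine Finset.sum_congr rfl fun k _ => ?_
    unfold psw
    rw [cw_eq_sum hw, Finset.sum_mul]
  rw [h1]
  have hP0 : 0 ≤ P := (norm_nonneg _).trans (hP 0)
  refine (norm_sum_le _ _).trans ?_
  calc ∑ d ∈ w.divisors, ‖muC d * (χ (d : ZMod q) * ∑ j ∈ Ioc 0 (n / d), χ (j : ZMod q))‖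
      ≤ ∑ _d ∈ w.divisors, P := by
        refine Finset.sum_le_sum fun d _ => ?_
        rw [norm_mul, norm_mul]
        have a1 := MVD.norm_muC_le d
        have a2 := χ.norm_le_one (d : ZMod q)
        have a3 := hP (n / d)
        calc ‖muC d‖ * (‖χ (d : ZMod q)‖ * ‖∑ j ∈ Ioc 0 (n / d), χ (j : ZMod q)‖)
            ≤ 1 * (1 * P) := by gcongr
          _ = P := by ring
    _ = tauR w * P := by
        rw [Finset.sum_const, nsmul_eq_mul]
        rfl

theorem mu_small (m : ℕ) : ∃ K : ℝ, 0 < K ∧ ∀ (r : ℕ) [NeZero r] (χ : DirichletCharacter ℂ r)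
    (w : ℕ), w ≠ 0 → ∀ X : ℝ, 3 ≤ X → ∀ y : ℝ, 0 < y →
    ‖RMm X y (psw w χ)‖ ≤ K * r * tauR w ^ 2 * X / Real.log X ^ m := by
  obtain ⟨K, hK, h⟩ := mu_char_phim m (show (0:ℝ) < 1 by norm_num)
  refine ⟨K, hK, fun r _ χ w hw X hX y hy => ?_⟩
  have hX0 : 0 < X := by linarith
  have hX1 : 1 ≤ X := by linarith
  have hlX := one_le_log hX
  have hr0 : (0 : ℝ) ≤ r := Nat.cast_nonneg _
  have ht0 := tauR_nonneg w
  unfold RMm
  refine riesz_of_partial (f := fun n => muC n * psw w χ n) hX0.le (fun u hu => ?_) hy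
  have h1 : ∑ n ∈ Ioc 0 u, muC n * psw w χ n =
      SS w.primeFactors u (fun n : ℕ => (1 : ℂ) * χ (n : ZMod r)) := by
    rw [SS_primeFactors hw, Finset.sum_filter]
    refine Finset.sum_congr rfl fun n _ => ?_
    unfold psw cw
    split_ifs <;> simp
  have h2 := SS_remove (dilClosed χ) (m := m) (K := K * (r : ℝ)) (by positivity)
    (fun g hg N => by
      obtain ⟨c, hc, rfl⟩ := hg
      have h3 : ∑ n ∈ Finset.Ioc 0 N, muC n * (c * χ (n : ZMod r)) =
          c * ∑ n ∈ Finset.Ioc 0 N, cmu χ n := by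
        rw [Finset.mul_sum]
        refine Finset.sum_congr rfl fun n _ => ?_
        unfold cmu muC
        ring
      rw [h3, norm_mul]
      have h4 := h r χ N
      rw [Real.rpow_one] at h4
      have h5 : 0 ≤ K * (r : ℝ) * phim m N := (norm_nonneg _).trans h4
      calc ‖c‖ * ‖∑ n ∈ Finset.Ioc 0 N, cmu χ n‖ ≤ 1 * (K * (r : ℝ) * phim m N) := by gcongr
        _ = _ := one_mul _)
    w.primeFactors (fun p hp => Nat.prime_of_mem_primeFactors hp)
    (fun n : ℕ => (1 : ℂ) * χ (n : ZMod r)) ⟨1, by simp, rfl⟩ u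
  rw [h1]
  refine h2.trans ?_
  have h6 : (4 : ℝ) ^ w.primeFactors.card ≤ tauR w ^ 2 := by
    have h7 := two_pow_omega_le hw
    calc (4 : ℝ) ^ w.primeFactors.card = ((2 : ℝ) ^ w.primeFactors.card) ^ 2 := by
          rw [← pow_mul, mul_comm, pow_mul]
          norm_num
      _ ≤ tauR w ^ 2 := by gcongr
  have h8 : phim m u ≤ X / Real.log X ^ m := by
    rcases Nat.eq_zero_or_pos u with rfl | hu0
    · have : phim m ((0:ℕ):ℝ) = 0 := by simp [phim]
      rw [this]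
      positivity
    · refine (phim_mono m (by exact_mod_cast hu0) hu).trans ?_
      unfold phim
      gcongr
      linarith [show (0:ℝ) ≤ 2 * (m:ℝ) by positivity]
  have h9 := phim_nat_nonneg m u
  calc 4 ^ w.primeFactors.card * (K * (r : ℝ)) * phim m u
      ≤ tauR w ^ 2 * (K * (r : ℝ)) * (X / Real.log X ^ m) := by gcongr
    _ = K * r * tauR w ^ 2 * X / Real.log X ^ m := by ring

theorem RMm_le_Mj (m : ℕ) : ∃ K : ℝ, 0 < K ∧ ∀ X : ℝ, 3 ≤ X → ∀ U : ℕ, 1 ≤ U → ∀ T : ℝ, 1 ≤ T →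
    ∀ (r : ℕ) [NeZero r] (χ : DirichletCharacter ℂ r), χ.IsPrimitive → ∀ w : ℕ, w ≠ 0 →
    ∀ y : ℝ, 0 < y → y ≤ X →
    ‖RMm X y (psw w χ)‖ ≤ Mj X T (K * X / Real.log X ^ m) U w χ := by
  obtain ⟨K, hK, h⟩ := mu_small m
  refine ⟨K, hK, fun X hX U hU T hT r _ χ hχ w hw y hy hyX => ?_⟩
  unfold Mj
  split_ifs with hrT
  · calc ‖RMm X y (psw w χ)‖ ≤ K * r * tauR w ^ 2 * X / Real.log X ^ m := h r χ w hw X hX y hy
      _ = K * X / Real.log X ^ m * r * tauR w ^ 2 := by ring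
  · push Not at hrT
    have hr1 : (1 : ℝ) < r := lt_of_le_of_lt hT hrT
    have hr1' : r ≠ 1 := by
      rintro rfl
      simp at hr1
    have hsq : 1 ≤ √(r : ℝ) := Real.one_le_sqrt.mpr hr1.le
    have hlog : 0 ≤ Real.log r := Real.log_nonneg hr1.le
    have ht := one_le_tauR hw
    have hP1 : 1 ≤ tauR w * (2 * √(r : ℝ) * (1 + Real.log r)) := by
      have h1 : 1 ≤ 2 * √(r : ℝ) * (1 + Real.log r) := by nlinarith
      nlinarith
    exact mu_pointwise (psw_mul w χ) (norm_psw_le w χ) hP1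
      (psw_partial χ (fun n => polya_vinogradov hχ hr1' n) hw) hX hU hy hyX

end Pool.Agent.MVD
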