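import Pool.Agent.MVD.BVAP
import Pool.Agent.MVD.BVSmall
import Pool.Agent.MVD.BVLarge

/-!
# Module BVSum: the sum over the moduli

`sum_cond`: `q = r s` (`sum_pairs'` in Lib/ANT/Minor, `Nat.totient_super_multiplicative`, see `sum_conductor_le` in BVRed).
`sum_tau_cube`: `∑_{k ≤ N} τ(k)³/k ≤ (∑_{k ≤ N} τ(k)²/k)² ≤ Hs(N)^8` (`sum_tau_mul`, `tauR_mul_le`, `sum_tau_sq_div_le`, see the proof of
`sum_tau_sq_div_le` in Lib/ANT/DivSum); with `le_tau_mul_totient` it gives `sum_tau_sq_tot`.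
`riesz_mu_raw`: `ap_prim`, `RMm_le_Mj`, `sum_cond` with `F r s = ∑_{χ ∈ Prim r} Mj X T S U (w s) χ`; for fixed `s`:
`∑_{r ≤ Q/s} F r s/φ(r) ≤ S tauR(ws)^2 T^2 + large_moduli_m` (`card_Prim_le`), `tauR (w s) ≤ tauR w tauR s`, `tauR ≥ 1`; the bound of
`large_moduli_m` for `Q/s` is at most the one for `Q`. See the end of `riesz_bv` in BVMain (`hHsum`).
-/

open Finset Complex
open scoped ArithmeticFunction.Moebius ArithmeticFunction.zeta

namespace Pool.Agent.MVD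

open Pool.Agent.ANT Pool.Agent.SInt

theorem sum_cond (F : ℕ → ℕ → ℝ) (hF : ∀ r s, 0 ≤ F r s) (Q : ℕ) :
    ∑ q ∈ Ioc 0 Q, (1 : ℝ) / q.totient * ∑ r ∈ q.divisors, F r (q / r) ≤
      ∑ s ∈ Ioc 0 Q, (1 : ℝ) / s.totient * ∑ r ∈ Ioc 0 (Q / s), F r s / r.totient := by
  have e1 : ∀ q ∈ Finset.Ioc 0 Q, (1:ℝ) / q.totient * ∑ r ∈ q.divisors, F r (q / r) =
      ∑ p ∈ q.divisorsAntidiagonal, F p.2 p.1 / (p.1 * p.2).totient := by
    intro q hq
    rw [Finset.mul_sum,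
      Nat.sum_divisorsAntidiagonal' (f := fun a b => F b a / ((a * b : ℕ)).totient)]
    refine Finset.sum_congr rfl fun r hr => ?_
    rw [Nat.div_mul_cancel (Nat.dvd_of_mem_divisors hr)]; ring
  rw [Finset.sum_congr rfl e1, sum_pairs' (fun a b => F b a / ((a * b : ℕ)).totient) Q]
  refine Finset.sum_le_sum fun s hs => ?_
  have hs0 := (Finset.mem_Ioc.mp hs).1
  have hφs : (0:ℝ) < s.totient := by exact_mod_cast Nat.totient_pos.mpr hs0
  rw [Finset.mul_sum]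
  refine Finset.sum_le_sum fun k hk => ?_
  have hk0 := (Finset.mem_Ioc.mp hk).1
  have hφk : (0:ℝ) < k.totient := by exact_mod_cast Nat.totient_pos.mpr hk0
  rw [div_mul_div_comm, one_mul]
  have h1 : (s.totient : ℝ) * k.totient ≤ ((s * k : ℕ)).totient := by
    exact_mod_cast Nat.totient_super_multiplicative s k
  have := hF k s
  gcongr

theorem sum_tau_cube (N : ℕ) : ∑ k ∈ Ioc 0 N, tauR k ^ 3 / k ≤ Hs N ^ 8 := by
  have h1 := sum_tau_mul (fun k => tauR k ^ 2 / (k:ℝ)) N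
  have h2 : ∑ k ∈ Finset.Ioc 0 N, tauR k ^ 3 / k =
      ∑ k ∈ Finset.Ioc 0 N, tauR k * (tauR k ^ 2 / (k:ℝ)) :=
    Finset.sum_congr rfl fun k _ => by ring
  rw [h2, h1]
  calc ∑ m ∈ Finset.Ioc 0 N, ∑ n ∈ Finset.Ioc 0 (N / m), tauR (m * n) ^ 2 / ((m * n : ℕ) : ℝ)
      ≤ ∑ m ∈ Finset.Ioc 0 N, (tauR m ^ 2 / m) * Hs N ^ 4 := by
        refine Finset.sum_le_sum fun m hm => ?_
        calc ∑ n ∈ Finset.Ioc 0 (N / m), tauR (m * n) ^ 2 / ((m * n : ℕ) : ℝ)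
            ≤ ∑ n ∈ Finset.Ioc 0 (N / m), (tauR m ^ 2 / m) * (tauR n ^ 2 / n) := by
              refine Finset.sum_le_sum fun n _ => ?_
              rw [div_mul_div_comm, ← mul_pow]
              push_cast
              exact div_le_div_of_nonneg_right
                (pow_le_pow_left₀ (tauR_nonneg _) (tauR_mul_le m n) 2) (by positivity)
          _ = (tauR m ^ 2 / m) * ∑ n ∈ Finset.Ioc 0 (N / m), tauR n ^ 2 / n := by rw [Finset.mul_sum]
          _ ≤ (tauR m ^ 2 / m) * Hs N ^ 4 := by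
              refine mul_le_mul_of_nonneg_left ((sum_tau_sq_div_le _).trans ?_) (by positivity)
              exact pow_le_pow_left₀ (Hs_nonneg _) (Hs_mono (Nat.div_le_self _ _)) 4
    _ = (∑ m ∈ Finset.Ioc 0 N, (tauR m ^ 2 / m)) * Hs N ^ 4 := by rw [Finset.sum_mul]
    _ ≤ Hs N ^ 4 * Hs N ^ 4 := mul_le_mul_of_nonneg_right (sum_tau_sq_div_le N) (by positivity)
    _ = Hs N ^ 8 := by ring

theorem sum_tau_sq_tot (N : ℕ) : ∑ k ∈ Ioc 0 N, tauR k ^ 2 / k.totient ≤ Hs N ^ 8 := by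
  refine le_trans (Finset.sum_le_sum fun k hk => ?_) (sum_tau_cube N)
  have hk0 := (Finset.mem_Ioc.mp hk).1
  have h1 : (0:ℝ) < k.totient := by exact_mod_cast Nat.totient_pos.mpr hk0
  have h2 : (0:ℝ) < k := by exact_mod_cast hk0
  rw [div_le_div_iff₀ h1 h2]
  have h3 := le_tau_mul_totient k
  calc tauR k ^ 2 * k ≤ tauR k ^ 2 * (tauR k * k.totient) :=
        mul_le_mul_of_nonneg_left h3 (by positivity)
    _ = tauR k ^ 3 * k.totient := by ring

lemma Mj_nn {X : ℝ} (hX : 3 ≤ X) (T : ℝ) {S : ℝ} (hS : 0 ≤ S) (U w : ℕ) {r : ℕ}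
    (χ : DirichletCharacter ℂ r) : 0 ≤ Mj X T S U w χ := by
  unfold Mj
  have h1 := one_le_log hX
  have h2 := G4m_nonneg hX U (psw w χ)
  have h4 := tauR_nonneg w
  split_ifs
  · positivity
  · have h3 : 0 ≤ Real.log (r:ℝ) := Real.log_natCast_nonneg _
    positivity

theorem riesz_mu_raw (m : ℕ) : ∃ K : ℝ, 0 < K ∧ ∀ X : ℝ, 3 ≤ X → ∀ U : ℕ, 1 ≤ U → ∀ T : ℝ, 1 ≤ T →
    ∀ w : ℕ, w ≠ 0 → ∀ Q : ℕ, 1 ≤ Q → (Q : ℝ) ≤ √X → ∀ (y : ℕ → ℝ) (a : ℕ → ℕ),
    (∀ q, 0 < y q ∧ y q ≤ X) → (∀ q, (a q).Coprime q) →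
    ∑ q ∈ Ioc 0 Q, ‖SMm X (y q) w q (a q : ZMod q)‖ ≤ tauR w ^ 2 * Hs Q ^ 8 *
      (K * X / Real.log X ^ m * T ^ 2 +
        6 * Real.log X * (8 * (U : ℝ) ^ 2 * (2 * √(2 * Q) * (1 + Real.log (2 * Q))) *
          Real.log X * Q + 2592 * Real.log X ^ 5 * (X / T + X / √U + 2 * Q * √X))) := by
  obtain ⟨K, hK, hmain⟩ := RMm_le_Mj m
  refine ⟨K, hK, ?_⟩
  intro X hX U hU T hT w hw Q hQ1 hQX y a hy ha
  set S : ℝ := K * X / Real.log X ^ m with hS
  have hX0 : 0 < X := by linarith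
  have hL1 : 1 ≤ Real.log X := one_le_log hX
  have hL0 : 0 < Real.log X := by linarith
  have hS0 : 0 ≤ S := by rw [hS]; positivity
  have hT0 : 0 < T := by linarith
  -- the first reduction
  set F : ℕ → ℕ → ℝ := fun r s => ∑ χ ∈ Prim r, Mj X T S U (w * s) χ with hF
  have hF0 : ∀ r s, 0 ≤ F r s := fun r s => Finset.sum_nonneg fun χ _ => Mj_nn hX T hS0 U _ χ
  have h1 : ∀ q ∈ Ioc 0 Q, ‖SMm X (y q) w q (a q : ZMod q)‖ ≤
      (1 : ℝ) / q.totient * ∑ r ∈ q.divisors, F r (q / r) := by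
    intro q hq
    have hq0 := (Finset.mem_Ioc.mp hq).1
    have : NeZero q := ⟨hq0.ne'⟩
    have hau : IsUnit ((a q : ℕ) : ZMod q) := (ZMod.isUnit_iff_coprime (a q) q).mpr (ha q)
    refine (ap_prim hau X (y q) w).trans ?_
    refine mul_le_mul_of_nonneg_left ?_ (by positivity)
    refine Finset.sum_le_sum fun r hr => ?_
    have hrd := Nat.dvd_of_mem_divisors hr
    have hr0 : 0 < r := Nat.pos_of_dvd_of_pos hrd hq0
    have : NeZero r := ⟨hr0.ne'⟩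
    refine Finset.sum_le_sum fun χ hχ => ?_
    have hws : w * (q / r) ≠ 0 :=
      mul_ne_zero hw (Nat.div_pos (Nat.le_of_dvd hq0 hrd) hr0).ne'
    exact hmain X hX U hU T hT r χ (mem_Prim.mp hχ) (w * (q / r)) hws (y q) (hy q).1 (hy q).2
  refine (Finset.sum_le_sum h1).trans ((sum_cond F hF0 Q).trans ?_)
  set LL : ℝ := 6 * Real.log X * (8 * (U : ℝ) ^ 2 * (2 * √(2 * Q) * (1 + Real.log (2 * Q))) *
          Real.log X * Q + 2592 * Real.log X ^ 5 * (X / T + X / √U + 2 * Q * √X)) with hLL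
  have hlogQ : 0 ≤ Real.log (2 * (Q:ℝ)) := Real.log_nonneg (by
    have : (1:ℝ) ≤ Q := by exact_mod_cast hQ1
    linarith)
  have hLL0 : 0 ≤ LL := by rw [hLL]; positivity
  -- the inner sum
  have h2 : ∀ s ∈ Ioc 0 Q, ∑ r ∈ Ioc 0 (Q / s), F r s / (r.totient : ℝ) ≤
      tauR (w * s) ^ 2 * (S * T ^ 2 + LL) := by
    intro s hs
    obtain ⟨hs0, hsQ⟩ := Finset.mem_Ioc.mp hs
    have hws : w * s ≠ 0 := mul_ne_zero hw hs0.ne'
    have hτ1 := one_le_tauR hws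
    have hQs1 : 1 ≤ Q / s := Nat.div_pos hsQ hs0
    have hQsQ : Q / s ≤ Q := Nat.div_le_self _ _
    have hQsQr : ((Q / s : ℕ) : ℝ) ≤ Q := by exact_mod_cast hQsQ
    have hQs1r : (1 : ℝ) ≤ ((Q / s : ℕ) : ℝ) := by exact_mod_cast hQs1
    have hlm := large_moduli_m hX hU hT0 hQs1 (hQsQr.trans hQX) hws
    have hlm2 : 6 * Real.log X * (8 * (U : ℝ) ^ 2 * (tauR (w * s) *
        (2 * √(2 * ((Q / s : ℕ) : ℝ)) * (1 + Real.log (2 * ((Q / s : ℕ) : ℝ))))) *
        Real.log X * ((Q / s : ℕ) : ℝ) + 2592 * Real.log X ^ 5 *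
        (X / T + X / √U + 2 * ((Q / s : ℕ) : ℝ) * √X)) ≤ tauR (w * s) ^ 2 * LL := by
      have e1 : 6 * Real.log X * (8 * (U : ℝ) ^ 2 * (tauR (w * s) *
          (2 * √(2 * ((Q / s : ℕ) : ℝ)) * (1 + Real.log (2 * ((Q / s : ℕ) : ℝ))))) *
          Real.log X * ((Q / s : ℕ) : ℝ) + 2592 * Real.log X ^ 5 *
          (X / T + X / √U + 2 * ((Q / s : ℕ) : ℝ) * √X)) ≤
          6 * Real.log X * (8 * (U : ℝ) ^ 2 * (tauR (w * s) *
          (2 * √(2 * Q) * (1 + Real.log (2 * Q)))) *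
          Real.log X * Q + 2592 * Real.log X ^ 5 * (X / T + X / √U + 2 * Q * √X)) := by
        have hτ0 := tauR_nonneg (w * s)
        have hlogs : 0 ≤ Real.log (2 * ((Q / s : ℕ) : ℝ)) := Real.log_nonneg (by linarith)
        have g1 : √(2 * ((Q / s : ℕ) : ℝ)) ≤ √(2 * Q) := Real.sqrt_le_sqrt (by linarith)
        have g2 : Real.log (2 * ((Q / s : ℕ) : ℝ)) ≤ Real.log (2 * Q) :=
          Real.log_le_log (by linarith) (by linarith)
        gcongr
      refine e1.trans ?_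
      have e2 : tauR (w * s) ≤ tauR (w * s) ^ 2 := by nlinarith
      have e3 : (1 : ℝ) ≤ tauR (w * s) ^ 2 := by nlinarith
      rw [hLL]
      have a1 : 8 * (U : ℝ) ^ 2 * (tauR (w * s) * (2 * √(2 * Q) * (1 + Real.log (2 * Q)))) *
          Real.log X * Q ≤ tauR (w * s) ^ 2 * (8 * (U : ℝ) ^ 2 *
          (2 * √(2 * Q) * (1 + Real.log (2 * Q))) * Real.log X * Q) := by
        calc _ = tauR (w * s) * (8 * (U : ℝ) ^ 2 *
              (2 * √(2 * Q) * (1 + Real.log (2 * Q))) * Real.log X * Q) := by ring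
          _ ≤ _ := mul_le_mul_of_nonneg_right e2 (by positivity)
      have a2 : 2592 * Real.log X ^ 5 * (X / T + X / √U + 2 * Q * √X) ≤ tauR (w * s) ^ 2 *
          (2592 * Real.log X ^ 5 * (X / T + X / √U + 2 * Q * √X)) :=
        le_mul_of_one_le_left (by positivity) e3
      calc _ ≤ 6 * Real.log X * (tauR (w * s) ^ 2 * (8 * (U : ℝ) ^ 2 *
              (2 * √(2 * Q) * (1 + Real.log (2 * Q))) * Real.log X * Q) + tauR (w * s) ^ 2 *
              (2592 * Real.log X ^ 5 * (X / T + X / √U + 2 * Q * √X))) :=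
            mul_le_mul_of_nonneg_left (add_le_add a1 a2) (by positivity)
        _ = _ := by ring
    have hsm : ∑ r ∈ Ioc 0 (Q / s), (if (r:ℝ) ≤ T then S * T * tauR (w * s) ^ 2 else 0) ≤
        tauR (w * s) ^ 2 * (S * T ^ 2) := by
      rw [← Finset.sum_filter, Finset.sum_const, nsmul_eq_mul]
      have h3 : (Finset.Ioc 0 (Q / s)).filter (fun r : ℕ => (r:ℝ) ≤ T) ⊆ Finset.Ioc 0 ⌊T⌋₊ := by
        intro r hr
        obtain ⟨hr1, hr2⟩ := Finset.mem_filter.mp hr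
        exact Finset.mem_Ioc.mpr ⟨(Finset.mem_Ioc.mp hr1).1, Nat.le_floor hr2⟩
      have h4 : (((Finset.Ioc 0 (Q / s)).filter (fun r : ℕ => (r:ℝ) ≤ T)).card : ℝ) ≤ T := by
        calc _ ≤ ((Finset.Ioc 0 ⌊T⌋₊).card : ℝ) := by exact_mod_cast Finset.card_le_card h3
          _ = (⌊T⌋₊ : ℝ) := by simp
          _ ≤ T := Nat.floor_le hT0.le
      calc _ ≤ T * (S * T * tauR (w * s) ^ 2) := by gcongr
        _ = _ := by ring
    have htot : ∑ r ∈ Ioc 0 (Q / s), F r s / (r.totient : ℝ) ≤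
        ∑ r ∈ Ioc 0 (Q / s), (if (r:ℝ) ≤ T then S * T * tauR (w * s) ^ 2 else 0) +
        ∑ r ∈ Ioc 0 (Q / s), (if T < r then
      (∑ χ ∈ Prim r, (4 * (U : ℝ) ^ 2 * (tauR (w * s) * (2 * √(r : ℝ) * (1 + Real.log r))) *
        Real.log X + G4m X U (psw (w * s) χ))) / (r.totient : ℝ) else (0 : ℝ)) := by
      rw [← Finset.sum_add_distrib]
      refine Finset.sum_le_sum fun r hr => ?_
      obtain ⟨hr0, hrQ⟩ := Finset.mem_Ioc.mp hr
      have : NeZero r := ⟨hr0.ne'⟩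
      have hφ : (0:ℝ) < r.totient := by exact_mod_cast Nat.totient_pos.mpr hr0
      have hcard := card_Prim_le r
      by_cases hrT : (r:ℝ) ≤ T
      · rw [if_pos hrT, if_neg (not_lt.mpr hrT), add_zero]
        have e1 : F r s = (Prim r).card * (S * r * tauR (w * s) ^ 2) := by
          simp only [hF]
          unfold Mj
          simp only [hrT, if_true]
          rw [Finset.sum_const, nsmul_eq_mul]
        rw [e1, div_le_iff₀ hφ]
        calc ((Prim r).card : ℝ) * (S * r * tauR (w * s) ^ 2) ≤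
              r.totient * (S * T * tauR (w * s) ^ 2) := by gcongr
          _ = _ := by ring
      · rw [if_neg hrT, if_pos (not_le.mp hrT), zero_add]
        have e1 : F r s = ∑ χ ∈ Prim r, (4 * (U : ℝ) ^ 2 * (tauR (w * s) *
            (2 * √(r : ℝ) * (1 + Real.log r))) * Real.log X + G4m X U (psw (w * s) χ)) := by
          simp only [hF]
          unfold Mj
          simp only [hrT, if_false]
        rw [e1]
    calc _ ≤ _ := htot
      _ ≤ tauR (w * s) ^ 2 * (S * T ^ 2) + tauR (w * s) ^ 2 * LL :=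
          add_le_add hsm (hlm.trans hlm2)
      _ = _ := by ring
  calc ∑ s ∈ Ioc 0 Q, (1 : ℝ) / s.totient * ∑ r ∈ Ioc 0 (Q / s), F r s / r.totient
      ≤ ∑ s ∈ Ioc 0 Q, tauR w ^ 2 * (S * T ^ 2 + LL) * (tauR s ^ 2 / s.totient) := by
        refine Finset.sum_le_sum fun s hs => ?_
        have hτ : tauR (w * s) ^ 2 ≤ tauR w ^ 2 * tauR s ^ 2 := by
          rw [← mul_pow]
          exact pow_le_pow_left₀ (tauR_nonneg _) (tauR_mul_le w s) 2
        calc (1 : ℝ) / s.totient * ∑ r ∈ Ioc 0 (Q / s), F r s / r.totient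
            ≤ (1 : ℝ) / s.totient * (tauR w ^ 2 * tauR s ^ 2 * (S * T ^ 2 + LL)) := by
              refine mul_le_mul_of_nonneg_left ((h2 s hs).trans ?_) (by positivity)
              exact mul_le_mul_of_nonneg_right hτ (by positivity)
          _ = _ := by ring
    _ = tauR w ^ 2 * (S * T ^ 2 + LL) * ∑ s ∈ Ioc 0 Q, tauR s ^ 2 / s.totient := by
        rw [Finset.mul_sum]
    _ ≤ tauR w ^ 2 * (S * T ^ 2 + LL) * Hs Q ^ 8 :=
        mul_le_mul_of_nonneg_left (sum_tau_sq_tot Q) (by positivity)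
    _ = _ := by ring

end Pool.Agent.MVD
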