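import Pool.Agent.MVD.HLS

set_option autoImplicit false

open Complex Finset MeasureTheory

namespace Pool.Agent.MVD

open Pool.Agent.ANT Pool.Agent.SInt

namespace BadCountAux

theorem twc_dy {r : ℕ} (a : ℕ → ℂ) (χ : DirichletCharacter ℂ r) (M : ℕ) :
    twc (dy a M) χ = dy (twc a χ) M := by
  funext n
  unfold twc dy
  split_ifs with h
  · rfl
  · rw [zero_mul]

theorem sum_lam (j : ℕ) :
    ∑ n ∈ Icc 1 (2 * 2 ^ j), ‖dy LamN (2 ^ j) n‖ ^ 2 / (n : ℝ) ^ 2 ≤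
      Real.log (2 * 2 ^ j : ℕ) ^ 2 / 2 ^ j := by
  have h1 : ∀ n ∈ Icc 1 (2 * 2 ^ j), ‖dy LamN (2 ^ j) n‖ ^ 2 / (n : ℝ) ^ 2 ≤
      if n ∈ Ico (2 ^ j) (2 * 2 ^ j) then Real.log (2 * 2 ^ j : ℕ) ^ 2 / ((2 : ℝ) ^ j) ^ 2 else 0 := by
    intro n hn
    unfold dy
    split_ifs with h
    · rw [mem_Ico] at h
      have hn0 : 0 < n := lt_of_lt_of_le (by positivity) h.1
      have hnR : (0 : ℝ) < n := by exact_mod_cast hn0
      have h2 : ‖LamN n‖ ≤ Real.log (2 * 2 ^ j : ℕ) := by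
        unfold LamN
        rw [Complex.norm_real, Real.norm_of_nonneg ArithmeticFunction.vonMangoldt_nonneg]
        refine ArithmeticFunction.vonMangoldt_le_log.trans ?_
        exact Real.log_le_log hnR (by exact_mod_cast h.2.le)
      have h3 : ((2 : ℝ) ^ j) ≤ n := by exact_mod_cast h.1
      gcongr
    · simp
  refine (sum_le_sum h1).trans ?_
  rw [← sum_filter]
  have h2 : (Icc 1 (2 * 2 ^ j)).filter (fun n => n ∈ Ico (2 ^ j) (2 * 2 ^ j)) ⊆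
      Ico (2 ^ j) (2 * 2 ^ j) := fun n hn => (mem_filter.1 hn).2
  refine (sum_le_sum_of_subset_of_nonneg h2 (fun _ _ _ => by positivity)).trans ?_
  rw [sum_const, Nat.card_Ico, nsmul_eq_mul]
  have h3 : (2 * 2 ^ j - 2 ^ j : ℕ) = 2 ^ j := by omega
  rw [h3]
  push_cast
  apply le_of_eq
  field_simp

/-- The bound for one value of `j`. -/
theorem fiber {κ C L : ℝ} (hC : 0 < C) (hL : 3 ≤ L) (b X j : ℕ)
    (hh : ∀ (R N : ℕ) (T : ℝ) (a : ℕ → ℂ), 1 ≤ R → 1 ≤ T → 3 ≤ N →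
      ∀ τ : (r : ℕ) → DirichletCharacter ℂ r → ℝ, (∀ r χ, |τ r χ| ≤ T) →
      ∑ r ∈ Icc 1 R, ∑ χ ∈ Prim r, ‖Fh (twc a χ) N (τ r χ)‖ ^ 2 ≤
        C * (N + (R : ℝ) ^ 2 * T) * Real.log N * ∑ n ∈ Icc 1 N, ‖a n‖ ^ 2 / (n : ℝ) ^ 2)
    (S : Finset ℕ) (χ0 : (r : ℕ) → DirichletCharacter ℂ r) (t0 : ℕ → ℝ)
    (hX : Real.log X = L) (hj1 : mz κ X ≤ 2 ^ j) (hj2 : 2 ^ j ≤ 2 * X) (hR2 : 2 ≤ mR κ X)
    (hr : ∀ r ∈ S, 2 ≤ r ∧ r ≤ mR κ X ∧ (χ0 r).IsPrimitive ∧ |t0 r| ≤ L ^ b ∧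
      1 / L ^ b < ‖PC LamN (χ0 r) (2 ^ j) (t0 r)‖) :
    (S.card : ℝ) ≤ 24 * C * L ^ (3 * b + 3) := by
  classical
  have hL0 : 0 < L := by linarith
  have hLb : 1 ≤ L ^ b := one_le_pow₀ (by linarith)
  set R := mR κ X with hR
  have hRz : R ^ 17 ≤ 2 ^ j := (Nat.le_pow_clog (by norm_num) _).trans hj1
  have hR217 : R ^ 2 ≤ 2 ^ j := (Nat.pow_le_pow_right (by omega) (by norm_num)).trans hRz
  have h2j : 2 ≤ 2 ^ j := by
    have : 2 ^ 2 ≤ R ^ 2 := Nat.pow_le_pow_left hR2 2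
    omega
  let τ : (r : ℕ) → DirichletCharacter ℂ r → ℝ := fun r χ => if r ∈ S ∧ χ = χ0 r then t0 r else 0
  have hτ : ∀ r χ, |τ r χ| ≤ L ^ b := by
    intro r χ
    by_cases h : r ∈ S ∧ χ = χ0 r
    · have : τ r χ = t0 r := if_pos h
      rw [this]
      exact (hr r h.1).2.2.2.1
    · have : τ r χ = 0 := if_neg h
      rw [this, abs_zero]
      positivity
  have hmain := hh R (2 * 2 ^ j) (L ^ b) (dy LamN (2 ^ j)) (by omega) hLb (by omega) τ hτ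
  -- lower bound
  have hlow : (S.card : ℝ) * (1 / L ^ b) ^ 2 ≤
      ∑ r ∈ Icc 1 R, ∑ χ ∈ Prim r, ‖Fh (twc (dy LamN (2 ^ j)) χ) (2 * 2 ^ j) (τ r χ)‖ ^ 2 := by
    have h1 : S ⊆ Icc 1 R := by
      intro r hrS
      have := hr r hrS
      exact mem_Icc.2 ⟨by omega, this.2.1⟩
    calc (S.card : ℝ) * (1 / L ^ b) ^ 2 = ∑ _r ∈ S, (1 / L ^ b) ^ 2 := by
          rw [sum_const, nsmul_eq_mul]
      _ ≤ ∑ r ∈ S, ∑ χ ∈ Prim r, ‖Fh (twc (dy LamN (2 ^ j)) χ) (2 * 2 ^ j) (τ r χ)‖ ^ 2 := by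
          refine sum_le_sum fun r hrS => ?_
          obtain ⟨h2, h3, h4, h5, h6⟩ := hr r hrS
          have hmem : χ0 r ∈ Prim r := by
            unfold Prim
            simpa using h4
          refine le_trans ?_ (single_le_sum (f := fun χ =>
            ‖Fh (twc (dy LamN (2 ^ j)) χ) (2 * 2 ^ j) (τ r χ)‖ ^ 2) (fun _ _ => by positivity) hmem)
          have h7 : τ r (χ0 r) = t0 r := if_pos ⟨hrS, rfl⟩
          simp only [h7, twc_dy]
          have h8 : 0 ≤ 1 / L ^ b := by positivity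
          exact pow_le_pow_left₀ h8 h6.le 2
      _ ≤ _ := sum_le_sum_of_subset_of_nonneg h1 (fun _ _ _ => by positivity)
  -- upper bound
  have hlogN : Real.log (2 * 2 ^ j : ℕ) ≤ 2 * L := by
    have hX4 : (4 : ℝ) ≤ X := by
      have hX0 : 0 < (X : ℝ) := by
        have : 0 < X := by omega
        exact_mod_cast this
      have h1 : Real.log 4 ≤ Real.log X := by
        rw [hX]
        have h2 : Real.log 4 ≤ 4 - 1 := Real.log_le_sub_one_of_pos (by norm_num)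
        linarith
      exact (Real.log_le_log_iff (by norm_num) hX0).1 h1
    have h1 : ((2 * 2 ^ j : ℕ) : ℝ) ≤ 4 * X := by
      have : 2 * 2 ^ j ≤ 4 * X := by omega
      exact_mod_cast this
    calc Real.log (2 * 2 ^ j : ℕ) ≤ Real.log (4 * X) :=
          Real.log_le_log (by positivity) h1
      _ ≤ Real.log (X * X) := by
          apply Real.log_le_log (by positivity)
          gcongr
      _ = 2 * L := by
          rw [Real.log_mul (by positivity) (by positivity), hX]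
          ring
  have hlogN0 : 0 ≤ Real.log (2 * 2 ^ j : ℕ) := Real.log_natCast_nonneg _
  have hR2r : (R : ℝ) ^ 2 ≤ 2 ^ j := by exact_mod_cast hR217
  have hup : C * (((2 * 2 ^ j : ℕ) : ℝ) + (R : ℝ) ^ 2 * L ^ b) * Real.log (2 * 2 ^ j : ℕ) *
      ∑ n ∈ Icc 1 (2 * 2 ^ j), ‖dy LamN (2 ^ j) n‖ ^ 2 / (n : ℝ) ^ 2 ≤
      24 * C * L ^ b * L ^ 3 := by
    have h2j0 : (0 : ℝ) < 2 ^ j := by positivity
    calc C * (((2 * 2 ^ j : ℕ) : ℝ) + (R : ℝ) ^ 2 * L ^ b) * Real.log (2 * 2 ^ j : ℕ) *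
          ∑ n ∈ Icc 1 (2 * 2 ^ j), ‖dy LamN (2 ^ j) n‖ ^ 2 / (n : ℝ) ^ 2
        ≤ C * (((2 * 2 ^ j : ℕ) : ℝ) + (2 : ℝ) ^ j * L ^ b) * Real.log (2 * 2 ^ j : ℕ) *
          (Real.log (2 * 2 ^ j : ℕ) ^ 2 / 2 ^ j) := by
          gcongr
          exact sum_lam j
      _ = C * (2 + L ^ b) * Real.log (2 * 2 ^ j : ℕ) ^ 3 := by
          push_cast
          field_simp
      _ ≤ C * (2 * L ^ b + L ^ b) * (2 * L) ^ 3 := by
          gcongr
          linarith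
      _ = 24 * C * L ^ b * L ^ 3 := by ring
  have hfin := hlow.trans (hmain.trans hup)
  have h1 : (S.card : ℝ) = (S.card : ℝ) * (1 / L ^ b) ^ 2 * (L ^ b) ^ 2 := by
    field_simp
  rw [h1]
  calc (S.card : ℝ) * (1 / L ^ b) ^ 2 * (L ^ b) ^ 2 ≤ 24 * C * L ^ b * L ^ 3 * (L ^ b) ^ 2 := by
        gcongr
    _ = 24 * C * L ^ (3 * b + 3) := by ring

end BadCountAux

/-- The number of bad moduli (this is `bad_count` of `BadIface`). For each of the at most `2 log X + 3`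
values of `j` with `2^j ≤ 2X`, a bad modulus `r` at `j` (choose `χ` and `t = τ r χ`) contributes more than
`(log X)^(-2b)` to `∑_{r ≤ R} ∑*_χ ‖PC LamN χ (2^j) (τ r χ)‖^2`, which is at most
`C (2^(j+1) + R^2 L^b) log (2^(j+1)) 2^(-j) log^2 (2^(j+1)) ≤ C' L^3` by `hls_sup` applied to `a = dy LamN (2^j)`,
`N = 2^(j+1)` (note `twc (dy a M) χ = dy (twc a χ) M`), because `2^j ≥ mz κ X ≥ R^17`. -/
theorem bad_count' {κ : ℝ} (hκ : 0 < κ) (hκ1 : κ ≤ 1 / 1000) (b : ℕ) : ∃ C X₀ : ℕ, ∀ X : ℕ, X₀ ≤ X →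
    ∀ S : Finset ℕ, (∀ r ∈ S, BadR κ b X r) → (S.card : ℝ) ≤ Real.log X ^ C := by
  classical
  obtain ⟨C, hC, hh⟩ := hls_sup
  refine ⟨3 * b + 5, ⌈Real.exp (120 * C + 3)⌉₊, ?_⟩
  intro X hX0 S hS
  have hXe : Real.exp (120 * C + 3) ≤ X := (Nat.le_ceil _).trans (by exact_mod_cast hX0)
  have hXpos : (0 : ℝ) < X := (Real.exp_pos _).trans_le hXe
  set L := Real.log X with hLdef
  have hL : 120 * C + 3 ≤ L := (Real.le_log_iff_exp_le hXpos).2 hXe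
  have hL3 : 3 ≤ L := by linarith
  have hL0 : 0 < L := by linarith
  rcases S.eq_empty_or_nonempty with rfl | ⟨r1, hr1⟩
  · simp only [card_empty, Nat.cast_zero]
    positivity
  have hR2 : 2 ≤ mR κ X := (hS r1 hr1).1.trans (hS r1 hr1).2.1
  -- choices
  have hch : ∀ r : ℕ, ∃ (χ : DirichletCharacter ℂ r) (j : ℕ) (t : ℝ), r ∈ S → 2 ≤ r ∧ r ≤ mR κ X ∧
      χ.IsPrimitive ∧ mz κ X ≤ 2 ^ j ∧ 2 ^ j ≤ 2 * X ∧ |t| ≤ L ^ b ∧
      1 / L ^ b < ‖PC LamN χ (2 ^ j) t‖ := by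
    intro r
    by_cases hrS : r ∈ S
    · obtain ⟨h1, h2, χ, h3, j, t, h4, h5, h6, h7⟩ := hS r hrS
      exact ⟨χ, j, t, fun _ => ⟨h1, h2, h3, h4, h5, h6, h7⟩⟩
    · exact ⟨1, 0, 0, fun h => absurd h hrS⟩
  choose χ0 j0 t0 hc using hch
  -- the values of `j`
  have hjlt : ∀ r ∈ S, j0 r ∈ range (Nat.log 2 (2 * X) + 1) := by
    intro r hrS
    have h1 := (hc r hrS).2.2.2.2.1
    rw [mem_range]
    have hX1 : 2 * X ≠ 0 := by
      have : 0 < X := by exact_mod_cast hXpos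
      omega
    have := Nat.le_log_of_pow_le (by norm_num) h1
    omega
  have hcard : S.card = ∑ j ∈ range (Nat.log 2 (2 * X) + 1), (S.filter fun r => j0 r = j).card :=
    card_eq_sum_card_fiberwise hjlt
  have hfib : ∀ j ∈ range (Nat.log 2 (2 * X) + 1),
      (((S.filter fun r => j0 r = j).card : ℕ) : ℝ) ≤ 24 * C * L ^ (3 * b + 3) := by
    intro j _
    rcases (S.filter fun r => j0 r = j).eq_empty_or_nonempty with he | ⟨r2, hr2⟩
    · rw [he, card_empty, Nat.cast_zero]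
      positivity
    · rw [mem_filter] at hr2
      have h2 := hc r2 hr2.1
      refine BadCountAux.fiber (κ := κ) hC hL3 b X j hh _ χ0 t0 rfl ?_ ?_ hR2 ?_
      · rw [← hr2.2]
        exact h2.2.2.2.1
      · rw [← hr2.2]
        exact h2.2.2.2.2.1
      · intro r hrS
        rw [mem_filter] at hrS
        obtain ⟨h3, h4, h5, h6, h7, h8, h9⟩ := hc r hrS.1
        rw [hrS.2] at h9
        exact ⟨h3, h4, h5, h8, h9⟩
  have hlog2 : ((Nat.log 2 (2 * X) + 1 : ℕ) : ℝ) ≤ 5 * L := by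
    have hX1 : 2 * X ≠ 0 := by
      have : 0 < X := by exact_mod_cast hXpos
      omega
    have h1 : 2 ^ Nat.log 2 (2 * X) ≤ 2 * X := Nat.pow_log_le_self 2 hX1
    have h2 : ((2 : ℝ) ^ Nat.log 2 (2 * X)) ≤ 2 * X := by exact_mod_cast h1
    have h3 := Real.log_le_log (by positivity) h2
    rw [Real.log_pow, Real.log_mul (by norm_num) hXpos.ne'] at h3
    have h4 := Real.log_two_gt_d9
    have h5 := Real.log_two_lt_d9
    have h6 : (0 : ℝ) ≤ (Nat.log 2 (2 * X) : ℕ) := Nat.cast_nonneg _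
    push_cast
    nlinarith
  calc (S.card : ℝ) = ∑ j ∈ range (Nat.log 2 (2 * X) + 1),
        (((S.filter fun r => j0 r = j).card : ℕ) : ℝ) := by
        rw [hcard]
        push_cast
        rfl
    _ ≤ ∑ _j ∈ range (Nat.log 2 (2 * X) + 1), 24 * C * L ^ (3 * b + 3) := sum_le_sum hfib
    _ = ((Nat.log 2 (2 * X) + 1 : ℕ) : ℝ) * (24 * C * L ^ (3 * b + 3)) := by
        rw [sum_const, card_range, nsmul_eq_mul]
    _ ≤ 5 * L * (24 * C * L ^ (3 * b + 3)) := by gcongr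
    _ = 120 * C * L ^ (3 * b + 4) := by ring
    _ ≤ L * L ^ (3 * b + 4) := by
        gcongr
        linarith
    _ = L ^ (3 * b + 5) := by ring

end Pool.Agent.MVD
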