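import Pool.Agent.MVD.BadSWp

set_option autoImplicit false

open Complex

namespace Pool.Agent.MVD

open Pool.Agent.ANT Pool.Agent.SInt

/-- Siegel-Walfisz: bad moduli are larger than every power of `log X`. (If `r ≤ (log X)^A`, use `PC_SW` with
`ε = 1/(A+1)`, `m = 2b + 3`, `M = 2^j ≥ mz κ X ≥ X^(17 κ) / 2^17`. Primitive characters mod `r ≥ 2` are not `1`.) -/
theorem bad_SW' {κ : ℝ} (hκ : 0 < κ) (hκ1 : κ ≤ 1 / 1000) (b A : ℕ) : ∃ X₀ : ℕ, ∀ X : ℕ, X₀ ≤ X →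
    ∀ r : ℕ, BadR κ b X r → Real.log X ^ A < r := by
  obtain ⟨C, hC, hSW⟩ := PC_SW (2 * b + 3) (ε := 1 / ((A : ℝ) + 1)) (by positivity)
  set m : ℕ := 2 * b + 3 with hm
  set T : ℝ := 1 / κ + 2 * C / κ ^ m + 1 with hT
  refine ⟨⌈Real.exp T⌉₊, ?_⟩
  intro X hX r hbad
  by_contra hcon
  push Not at hcon
  obtain ⟨hr2, -, χ, hprim, j, t, hj1, -, ht, hlow⟩ := hbad
  have hTX : Real.exp T ≤ X := (Nat.le_ceil _).trans (by exact_mod_cast hX)
  have hX0 : (0 : ℝ) < X := (Real.exp_pos _).trans_le hTX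
  set L : ℝ := Real.log X with hL
  have hTL : T ≤ L := by
    rw [hL, Real.le_log_iff_exp_le hX0]
    exact hTX
  have hκm : 0 < κ ^ m := by positivity
  have hL1 : 1 / κ ≤ L := by
    have : 0 ≤ 2 * C / κ ^ m := by positivity
    linarith
  have hκL : 1 ≤ κ * L := by
    have := (div_le_iff₀ hκ).1 hL1
    linarith
  have hL2 : 1 ≤ L := by
    have h1 : 0 ≤ 2 * C / κ ^ m := by positivity
    have h2 : 0 ≤ 1 / κ := by positivity
    linarith
  have hL3 : 2 * C ≤ κ ^ m * L ^ 2 := by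
    have h1 : 2 * C / κ ^ m ≤ L := by
      have h2 : 0 ≤ 1 / κ := by positivity
      linarith
    have h3 : 2 * C ≤ L * κ ^ m := (div_le_iff₀ hκm).1 h1
    have h4 : L ≤ L ^ 2 := by nlinarith
    calc 2 * C ≤ L * κ ^ m := h3
      _ ≤ L ^ 2 * κ ^ m := mul_le_mul_of_nonneg_right h4 hκm.le
      _ = κ ^ m * L ^ 2 := mul_comm _ _
  have hL0 : 0 < L := by linarith
  haveI : NeZero r := ⟨by omega⟩
  have hχ : χ ≠ 1 := by
    rintro rfl
    have h1 := (DirichletCharacter.isPrimitive_def _).1 hprim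
    rw [DirichletCharacter.conductor_one] at h1
    omega
  -- the lower bound for the length
  have hXκ : (X : ℝ) ^ κ = Real.exp (κ * L) := by
    rw [Real.rpow_def_of_pos hX0, mul_comm]
  have hXκ2 : 2 ≤ (X : ℝ) ^ κ := by
    rw [hXκ]
    have := Real.add_one_le_exp (κ * L)
    linarith
  have hR2 : 2 ≤ mR κ X := Nat.le_floor (by exact_mod_cast hXκ2)
  have hRlow : (X : ℝ) ^ κ ≤ 2 * (mR κ X : ℝ) := by
    have h1 := Nat.lt_floor_add_one ((X : ℝ) ^ κ)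
    have h2 : (2 : ℝ) ≤ (mR κ X : ℝ) := by exact_mod_cast hR2
    have h3 : ((⌊(X : ℝ) ^ κ⌋₊ : ℕ) : ℝ) = (mR κ X : ℝ) := rfl
    rw [h3] at h1
    linarith
  have hR0 : (0 : ℝ) < (mR κ X : ℝ) := by
    have : 0 < mR κ X := by omega
    exact_mod_cast this
  have hzj : mR κ X ^ 17 ≤ 2 ^ j := by
    refine le_trans ?_ hj1
    exact Nat.le_pow_clog (by norm_num) _
  have hlogM : κ * L ≤ Real.log ((2 ^ j : ℕ) : ℝ) := by
    have h1 : ((mR κ X : ℝ)) ^ 17 ≤ ((2 ^ j : ℕ) : ℝ) := by exact_mod_cast hzj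
    have h2 : Real.log ((mR κ X : ℝ) ^ 17) ≤ Real.log ((2 ^ j : ℕ) : ℝ) :=
      Real.log_le_log (by positivity) h1
    rw [Real.log_pow] at h2
    have h3 : Real.log ((X : ℝ) ^ κ) ≤ Real.log (2 * (mR κ X : ℝ)) :=
      Real.log_le_log (by positivity) hRlow
    rw [hXκ, Real.log_exp, Real.log_mul (by norm_num) hR0.ne'] at h3
    have h4 := Real.log_two_lt_d9
    push_cast at h2
    push_cast
    linarith
  have h4 : 4 ≤ 2 ^ j := by
    refine le_trans ?_ hzj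
    calc 4 ≤ 2 ^ 17 := by norm_num
      _ ≤ mR κ X ^ 17 := Nat.pow_le_pow_left hR2 17
  have hPC := hSW r χ hχ (2 ^ j) t h4
  -- the factors
  have ht' : 1 + |t| ≤ 2 * L ^ b := by
    have : 1 ≤ L ^ b := one_le_pow₀ hL2
    linarith
  have hr' : (r : ℝ) ^ (1 / ((A : ℝ) + 1)) ≤ L := by
    have h1 : (r : ℝ) ^ (1 / ((A : ℝ) + 1)) ≤ (L ^ A) ^ (1 / ((A : ℝ) + 1)) :=
      Real.rpow_le_rpow (Nat.cast_nonneg _) hcon (by positivity)
    refine h1.trans ?_
    rw [← Real.rpow_natCast, ← Real.rpow_mul hL0.le]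
    calc L ^ ((A : ℝ) * (1 / ((A : ℝ) + 1))) ≤ L ^ (1 : ℝ) := by
          refine Real.rpow_le_rpow_of_exponent_le hL2 ?_
          rw [mul_one_div, div_le_one (by positivity)]
          linarith
      _ = L := Real.rpow_one L
  have hpow : (κ * L) ^ m ≤ Real.log ((2 ^ j : ℕ) : ℝ) ^ m :=
    pow_le_pow_left₀ (by positivity) hlogM m
  have hκLm : 0 < (κ * L) ^ m := by positivity
  have hbound : ‖PC LamN χ (2 ^ j) t‖ ≤ C * (2 * L ^ b) * L / (κ * L) ^ m := by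
    refine hPC.trans ?_
    have hnum : C * (1 + |t|) * (r : ℝ) ^ (1 / ((A : ℝ) + 1)) ≤ C * (2 * L ^ b) * L := by
      refine mul_le_mul (mul_le_mul_of_nonneg_left ht' hC.le) hr' (by positivity) (by positivity)
    exact div_le_div₀ (by positivity) hnum hκLm hpow
  have hfin : C * (2 * L ^ b) * L / (κ * L) ^ m ≤ 1 / L ^ b := by
    have e : (κ * L) ^ m = κ ^ m * (L ^ b * L * L ^ (b + 2)) := by
      rw [mul_pow, hm]
      ring
    rw [e, div_le_div_iff₀ (by positivity) (by positivity)]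
    calc C * (2 * L ^ b) * L * L ^ b = 2 * C * (L ^ b * L * L ^ b) := by ring
      _ ≤ κ ^ m * L ^ 2 * (L ^ b * L * L ^ b) := mul_le_mul_of_nonneg_right hL3 (by positivity)
      _ = 1 * (κ ^ m * (L ^ b * L * L ^ (b + 2))) := by ring
  exact absurd (hlow.trans_le (hbound.trans hfin)) (lt_irrefl _)

end Pool.Agent.MVD
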