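import Pool.Agent.MVD.LPFinal
import Pool.Agent.MVD.BadSW
import Pool.Agent.MVD.BadCount

/-!
Interface of the part on bad moduli.
-/

open Finset Complex

namespace Pool.Agent.MVD

open Pool.Agent.ANT Pool.Agent.SInt

/-- The number of bad moduli is at most a power of `log X` (hybrid large sieve: every prime polynomial of
length `2^j ≥ mz ≥ R^17` has `∑_{r ≤ R} ∑*_χ sup_{|t| ≤ R} |P(χ,t)|^2 ≤ (log X)^c`). -/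
theorem bad_count {κ : ℝ} (hκ : 0 < κ) (hκ1 : κ ≤ 1 / 1000) (b : ℕ) : ∃ C X₀ : ℕ, ∀ X : ℕ, X₀ ≤ X →
    ∀ S : Finset ℕ, (∀ r ∈ S, BadR κ b X r) → (S.card : ℝ) ≤ Real.log X ^ C :=
  bad_count' hκ hκ1 b

/-- Siegel-Walfisz: bad moduli are larger than every power of `log X`. -/
theorem bad_SW {κ : ℝ} (hκ : 0 < κ) (hκ1 : κ ≤ 1 / 1000) (b A : ℕ) : ∃ X₀ : ℕ, ∀ X : ℕ, X₀ ≤ X →
    ∀ r : ℕ, BadR κ b X r → Real.log X ^ A < r :=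
  bad_SW' hκ hκ1 b A

/-- Landau-Page: all bad moduli but one are at least `exp (c log X / log log X)`. -/
theorem bad_LP {κ : ℝ} (hκ : 0 < κ) (hκ1 : κ ≤ 1 / 1000) (b : ℕ) : ∃ c : ℝ, 0 < c ∧ ∃ X₀ : ℕ, ∀ X : ℕ, X₀ ≤ X →
    ∃ r₀ : ℕ, ∀ r : ℕ, BadR κ b X r → r ≠ r₀ → Real.exp (c * Real.log X / Real.log (Real.log X)) ≤ r :=
  bad_LP' hκ hκ1 b

/-- Landau-Page, uniformly for `X` of size about `Z`. -/
theorem bad_LPU {κ : ℝ} (hκ : 0 < κ) (hκ1 : κ ≤ 1 / 1000) (b : ℕ) : ∃ c : ℝ, 0 < c ∧ ∃ Z₀ : ℕ, ∀ Z : ℕ, Z₀ ≤ Z →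
    ∃ r₀ : ℕ, ∀ X : ℕ, Z ≤ 2 * X → X ≤ 2 * Z → ∀ r : ℕ, BadR κ b X r → r ≠ r₀ →
      Real.exp (c * Real.log Z / Real.log (Real.log Z)) ≤ r :=
  bad_LP_unif hκ hκ1 b

end Pool.Agent.MVD
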