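import Pool.Agent.MVD.Defs
import Pool.Agent.Lib.ANT.SW

set_option autoImplicit false

open Complex

namespace Pool.Agent.MVD

open Pool.Agent.ANT Pool.Agent.SInt

namespace BadSWpAux

lemma abel_range (b φ : ℕ → ℂ) : ∀ N : ℕ, ∑ i ∈ Finset.range (N + 1), b i * φ i =
    (∑ i ∈ Finset.range (N + 1), b i) * φ N +
      ∑ i ∈ Finset.range N, (∑ j ∈ Finset.range (i + 1), b j) * (φ i - φ (i + 1)) := by
  intro N
  induction N with
  | zero => simp
  | succ N ih =>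
    rw [Finset.sum_range_succ (fun i => b i * φ i) (N + 1), ih,
      Finset.sum_range_succ (fun i => (∑ j ∈ Finset.range (i + 1), b j) * (φ i - φ (i + 1))) N,
      Finset.sum_range_succ b (N + 1)]
    ring

lemma tele_range (g : ℕ → ℝ) : ∀ N : ℕ, ∑ i ∈ Finset.range N, (g i - g (i + 1)) = g 0 - g N := by
  intro N
  induction N with
  | zero => simp
  | succ N ih =>
    rw [Finset.sum_range_succ, ih]
    ring

lemma abel_bd {b φ : ℕ → ℂ} {g : ℕ → ℝ} {B T : ℝ} (N : ℕ)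
    (hB : ∀ i, i ≤ N → ‖∑ j ∈ Finset.range (i + 1), b j‖ ≤ B)
    (hd : ∀ i, i < N → ‖φ i - φ (i + 1)‖ ≤ T * (g i - g (i + 1))) :
    ‖∑ i ∈ Finset.range (N + 1), b i * φ i‖ ≤ B * (‖φ N‖ + T * (g 0 - g N)) := by
  have hB0 : 0 ≤ B := (norm_nonneg _).trans (hB 0 (Nat.zero_le _))
  rw [abel_range b φ N]
  have h1 : ‖(∑ i ∈ Finset.range (N + 1), b i) * φ N‖ ≤ B * ‖φ N‖ := by
    rw [norm_mul]
    exact mul_le_mul_of_nonneg_right (hB N le_rfl) (norm_nonneg _)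
  have h2 : ‖∑ i ∈ Finset.range N, (∑ j ∈ Finset.range (i + 1), b j) * (φ i - φ (i + 1))‖ ≤
      ∑ i ∈ Finset.range N, B * (T * (g i - g (i + 1))) := by
    refine (norm_sum_le _ _).trans (Finset.sum_le_sum fun k hk => ?_)
    rw [Finset.mem_range] at hk
    rw [norm_mul]
    exact mul_le_mul (hB k hk.le) (hd k hk) (norm_nonneg _) hB0
  rw [← Finset.mul_sum, ← Finset.mul_sum, tele_range] at h2
  calc _ ≤ B * ‖φ N‖ + B * (T * (g 0 - g N)) := (norm_add_le _ _).trans (add_le_add h1 h2)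
    _ = _ := by ring

/-- the phase factor -/
noncomputable def ph (t : ℝ) (n : ℕ) : ℂ := cexp (-((1 + t * I) * (Real.log n : ℂ)))

lemma ph_eq (t : ℝ) {n : ℕ} (hn : 0 < n) :
    ph t n = ((1 / (n : ℝ) : ℝ) : ℂ) * cexp (I * ((-(t * Real.log n) : ℝ) : ℂ)) := by
  have hn' : (0 : ℝ) < n := by exact_mod_cast hn
  unfold ph
  have e : (((1 / (n : ℝ) : ℝ)) : ℂ) = cexp (((-Real.log n : ℝ)) : ℂ) := by
    rw [← Complex.ofReal_exp, Real.exp_neg, Real.exp_log hn', one_div]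
  rw [e, ← Complex.exp_add]
  congr 1
  push_cast
  ring

lemma norm_rot (x : ℝ) : ‖cexp (I * (x : ℂ))‖ = 1 := by
  rw [mul_comm]; exact Complex.norm_exp_ofReal_mul_I x

lemma norm_rot_sub (x y : ℝ) : ‖cexp (I * (x : ℂ)) - cexp (I * (y : ℂ))‖ ≤ |x - y| := by
  have e : cexp (I * (x : ℂ)) - cexp (I * (y : ℂ)) =
      cexp (I * (y : ℂ)) * (cexp (I * ((x - y : ℝ) : ℂ)) - 1) := by
    rw [mul_sub, mul_one, ← Complex.exp_add]
    congr 2
    push_cast; ring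
  rw [e, norm_mul, norm_rot, one_mul, Complex.norm_exp_I_mul_ofReal_sub_one, Real.norm_eq_abs,
    abs_mul, abs_two]
  have h := Real.abs_sin_le_abs (x := (x - y) / 2)
  rw [abs_div, abs_two] at h
  linarith

lemma norm_ph (t : ℝ) {n : ℕ} (hn : 0 < n) : ‖ph t n‖ = 1 / (n : ℝ) := by
  rw [ph_eq t hn, norm_mul, norm_rot, mul_one, Complex.norm_real, Real.norm_of_nonneg]
  positivity

lemma ph_sub (t : ℝ) {n : ℕ} (hn : 0 < n) :
    ‖ph t n - ph t (n + 1)‖ ≤ (1 + |t|) * (1 / (n : ℝ) - 1 / ((n + 1 : ℕ) : ℝ)) := by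
  have hn' : (0 : ℝ) < n := by exact_mod_cast hn
  have hn1 : (0 : ℝ) < ((n + 1 : ℕ) : ℝ) := by exact_mod_cast Nat.succ_pos n
  rw [ph_eq t hn, ph_eq t (Nat.succ_pos n)]
  obtain ⟨a, ha⟩ : ∃ a : ℝ, a = -(t * Real.log n) := ⟨_, rfl⟩
  obtain ⟨c, hc⟩ : ∃ c : ℝ, c = -(t * Real.log ((n + 1 : ℕ) : ℝ)) := ⟨_, rfl⟩
  rw [← ha, ← hc]
  have e : ((1 / (n : ℝ) : ℝ) : ℂ) * cexp (I * (a : ℂ)) -
      ((1 / ((n + 1 : ℕ) : ℝ) : ℝ) : ℂ) * cexp (I * (c : ℂ)) =
      ((1 / (n : ℝ) - 1 / ((n + 1 : ℕ) : ℝ) : ℝ) : ℂ) * cexp (I * (a : ℂ)) +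
      ((1 / ((n + 1 : ℕ) : ℝ) : ℝ) : ℂ) * (cexp (I * (a : ℂ)) - cexp (I * (c : ℂ))) := by
    push_cast
    ring
  rw [e]
  have h1 : ‖((1 / (n : ℝ) - 1 / ((n + 1 : ℕ) : ℝ) : ℝ) : ℂ) * cexp (I * (a : ℂ))‖ =
      1 / (n : ℝ) - 1 / ((n + 1 : ℕ) : ℝ) := by
    rw [norm_mul, norm_rot, mul_one, Complex.norm_real, Real.norm_of_nonneg]
    rw [sub_nonneg]
    apply one_div_le_one_div_of_le hn'
    push_cast
    linarith
  have hlog : Real.log ((n + 1 : ℕ) : ℝ) - Real.log n ≤ 1 / n := by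
    rw [← Real.log_div hn1.ne' hn'.ne']
    have := Real.log_le_sub_one_of_pos (div_pos hn1 hn')
    refine this.trans (le_of_eq ?_)
    push_cast
    field_simp
    ring
  have hlog0 : 0 ≤ Real.log ((n + 1 : ℕ) : ℝ) - Real.log n := by
    rw [sub_nonneg]
    apply Real.log_le_log hn'
    push_cast
    linarith
  have h2 : ‖((1 / ((n + 1 : ℕ) : ℝ) : ℝ) : ℂ) * (cexp (I * (a : ℂ)) - cexp (I * (c : ℂ)))‖ ≤
      |t| * (1 / (n : ℝ) - 1 / ((n + 1 : ℕ) : ℝ)) := by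
    rw [norm_mul, Complex.norm_real, Real.norm_of_nonneg (by positivity)]
    have h3 : ‖cexp (I * (a : ℂ)) - cexp (I * (c : ℂ))‖ ≤ |t| * (1 / n) := by
      refine (norm_rot_sub a c).trans ?_
      have e2 : a - c = t * (Real.log ((n + 1 : ℕ) : ℝ) - Real.log n) := by
        rw [ha, hc]; ring
      rw [e2, abs_mul, abs_of_nonneg hlog0]
      exact mul_le_mul_of_nonneg_left hlog (abs_nonneg t)
    have h4 : 1 / ((n + 1 : ℕ) : ℝ) * ‖cexp (I * (a : ℂ)) - cexp (I * (c : ℂ))‖ ≤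
        1 / ((n + 1 : ℕ) : ℝ) * (|t| * (1 / n)) :=
      mul_le_mul_of_nonneg_left h3 (by positivity)
    refine h4.trans (le_of_eq ?_)
    push_cast
    field_simp
    ring
  calc _ ≤ _ := norm_add_le _ _
    _ ≤ (1 / (n : ℝ) - 1 / ((n + 1 : ℕ) : ℝ)) + |t| * (1 / (n : ℝ) - 1 / ((n + 1 : ℕ) : ℝ)) :=
      add_le_add (le_of_eq h1) h2
    _ = _ := by ring

end BadSWpAux

open BadSWpAux

/-- Siegel-Walfisz for prime polynomials: Abel summation from `siegel_walfisz_lambda` (with the factor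
`n^(-1-it)`, whose total variation on `[M, 2M]` is at most `(2 + |t|)/M`). -/
theorem PC_SW (m : ℕ) {ε : ℝ} (hε : 0 < ε) : ∃ C : ℝ, 0 < C ∧ ∀ (r : ℕ) [NeZero r] (χ : DirichletCharacter ℂ r),
    χ ≠ 1 → ∀ (M : ℕ) (t : ℝ), 4 ≤ M →
    ‖PC LamN χ M t‖ ≤ C * (1 + |t|) * (r : ℝ) ^ ε / Real.log M ^ m := by
  obtain ⟨C1, hC1, h1⟩ := siegel_walfisz_lambda m hε
  refine ⟨4 * 2 ^ m * C1, by positivity, fun r _ χ hχ M t hM => ?_⟩
  have hM' : (4 : ℝ) ≤ M := by exact_mod_cast hM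
  have hM0 : (0 : ℝ) < M := by linarith
  have hlogM : 0 < Real.log M := Real.log_pos (by linarith)
  have hr : (0 : ℝ) < (r : ℝ) ^ ε := by
    apply Real.rpow_pos_of_pos
    exact_mod_cast Nat.pos_of_ne_zero (NeZero.ne r)
  -- Siegel-Walfisz for `M - 1 ≤ u ≤ 2 M`
  have hS : ∀ u : ℕ, M - 1 ≤ u → u ≤ 2 * M →
      ‖∑ n ∈ Finset.Icc 1 u, χ n * ((ArithmeticFunction.vonMangoldt n : ℝ) : ℂ)‖ ≤
        C1 * (r : ℝ) ^ ε * (2 * M) * 2 ^ m / Real.log M ^ m := by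
    intro u hu1 hu2
    have hu3 : (3 : ℝ) ≤ u := by
      have : 3 ≤ u := by omega
      exact_mod_cast this
    have h2 := h1 r χ hχ u hu3
    rw [Nat.floor_natCast] at h2
    refine h2.trans ?_
    have hlogu : 0 < Real.log u := Real.log_pos (by linarith)
    have hll : Real.log M ≤ 2 * Real.log u := by
      have e : 2 * Real.log u = Real.log ((u : ℝ) ^ 2) := by
        rw [Real.log_pow]; norm_num
      rw [e]
      apply Real.log_le_log hM0
      have : M ≤ u ^ 2 := by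
        have : M ≤ u + 1 := by omega
        nlinarith
      exact_mod_cast this
    have hpow : Real.log M ^ m ≤ 2 ^ m * Real.log u ^ m := by
      rw [← mul_pow]
      exact pow_le_pow_left₀ hlogM.le hll m
    have hu4 : (u : ℝ) ≤ 2 * M := by exact_mod_cast hu2
    rw [div_le_div_iff₀ (by positivity) (by positivity)]
    have a1 : C1 * (r : ℝ) ^ ε * u * Real.log M ^ m ≤
        C1 * (r : ℝ) ^ ε * (2 * M) * (2 ^ m * Real.log u ^ m) := by
      apply mul_le_mul _ hpow (by positivity) (by positivity)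
      exact mul_le_mul_of_nonneg_left hu4 (by positivity)
    refine a1.trans (le_of_eq ?_)
    ring
  obtain ⟨B, hB⟩ : ∃ B : ℝ, B = C1 * (r : ℝ) ^ ε * (2 * M) * 2 ^ m / Real.log M ^ m := ⟨_, rfl⟩
  rw [← hB] at hS
  have hB0 : 0 ≤ B := by rw [hB]; positivity
  obtain ⟨N, rfl⟩ : ∃ N, M = N + 1 := ⟨M - 1, by omega⟩
  -- rewrite as a sum over a range
  have e1 : PC LamN χ (N + 1) t = ∑ i ∈ Finset.range (N + 1),
      (χ ((N + 1 + i : ℕ) : ZMod r) * ((ArithmeticFunction.vonMangoldt (N + 1 + i) : ℝ) : ℂ)) *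
        ph t (N + 1 + i) := by
    unfold PC Fh dy
    simp only [ite_mul, zero_mul]
    rw [← Finset.sum_filter]
    have e2 : (Finset.Icc 1 (2 * (N + 1))).filter (fun n => n ∈ Finset.Ico (N + 1) (2 * (N + 1))) =
        Finset.Ico (N + 1) (2 * (N + 1)) := by
      ext n
      simp only [Finset.mem_filter, Finset.mem_Icc, Finset.mem_Ico]
      omega
    rw [e2, Finset.sum_Ico_eq_sum_range]
    have e3 : 2 * (N + 1) - (N + 1) = N + 1 := by omega
    rw [e3]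
    refine Finset.sum_congr rfl fun i _ => ?_
    unfold twc LamN ph
    ring
  rw [e1]
  have hpart : ∀ i, i ≤ N → ‖∑ j ∈ Finset.range (i + 1),
      χ ((N + 1 + j : ℕ) : ZMod r) * ((ArithmeticFunction.vonMangoldt (N + 1 + j) : ℝ) : ℂ)‖ ≤
        2 * B := by
    intro i hi
    have e2 : ∑ j ∈ Finset.range (i + 1),
        χ ((N + 1 + j : ℕ) : ZMod r) * ((ArithmeticFunction.vonMangoldt (N + 1 + j) : ℝ) : ℂ) =
        (∑ n ∈ Finset.Icc 1 (N + 1 + i), χ n * ((ArithmeticFunction.vonMangoldt n : ℝ) : ℂ)) -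
        ∑ n ∈ Finset.Icc 1 N, χ n * ((ArithmeticFunction.vonMangoldt n : ℝ) : ℂ) := by
      have e3 : Finset.Icc 1 (N + 1 + i) = Finset.Ico 1 (N + 1 + i + 1) := by
        ext n
        simp only [Finset.mem_Icc, Finset.mem_Ico]
        omega
      have e4 : Finset.Icc 1 N = Finset.Ico 1 (N + 1) := by
        ext n
        simp only [Finset.mem_Icc, Finset.mem_Ico]
        omega
      rw [e3, e4, ← Finset.sum_Ico_consecutive (fun n : ℕ => χ n *
        ((ArithmeticFunction.vonMangoldt n : ℝ) : ℂ)) (show 1 ≤ N + 1 by omega)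
        (show N + 1 ≤ N + 1 + i + 1 by omega), add_sub_cancel_left, Finset.sum_Ico_eq_sum_range]
      have e5 : N + 1 + i + 1 - (N + 1) = i + 1 := by omega
      rw [e5]
    rw [e2]
    refine (norm_sub_le _ _).trans ?_
    have a1 := hS (N + 1 + i) (by omega) (by omega)
    have a2 := hS N (by omega) (by omega)
    linarith
  have key := abel_bd (b := fun i => χ ((N + 1 + i : ℕ) : ZMod r) *
      ((ArithmeticFunction.vonMangoldt (N + 1 + i) : ℝ) : ℂ)) (φ := fun i => ph t (N + 1 + i))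
    (g := fun i => 1 / ((N + 1 + i : ℕ) : ℝ)) (B := 2 * B) (T := 1 + |t|) N hpart
    (fun i _ => ph_sub t (by omega))
  refine key.trans ?_
  have hN : (0 : ℝ) < ((N + 1 : ℕ) : ℝ) := hM0
  have hNN : (0 : ℝ) < ((N + 1 + N : ℕ) : ℝ) := by
    exact_mod_cast (by omega : 0 < N + 1 + N)
  have a1 : ‖ph t (N + 1 + N)‖ = 1 / ((N + 1 + N : ℕ) : ℝ) := norm_ph t (by omega)
  have a2 : ‖ph t (N + 1 + N)‖ + (1 + |t|) * (1 / ((N + 1 + 0 : ℕ) : ℝ) -
      1 / ((N + 1 + N : ℕ) : ℝ)) ≤ (1 + |t|) * (1 / ((N + 1 : ℕ) : ℝ)) := by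
    rw [a1, add_zero]
    have h3 : 0 ≤ |t| * (1 / ((N + 1 + N : ℕ) : ℝ)) := by positivity
    nlinarith
  have a3 : 2 * B * (‖ph t (N + 1 + N)‖ + (1 + |t|) * (1 / ((N + 1 + 0 : ℕ) : ℝ) -
      1 / ((N + 1 + N : ℕ) : ℝ))) ≤ 2 * B * ((1 + |t|) * (1 / ((N + 1 : ℕ) : ℝ))) :=
    mul_le_mul_of_nonneg_left a2 (by positivity)
  refine a3.trans (le_of_eq ?_)
  rw [hB]
  field_simp
  ring

end Pool.Agent.MVD
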