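import Pool.Agent.MVD.Defs
import Pool.Agent.Lib.ANT.BVBasic

/-!
# Module IdentA: the three factor identity

`F = LoL U`, `G = HiL U`, `F + G = Λ`, `Λ * ζ = log` so `G ζ = log - F ζ`; `a = az U = 1 - ζ M`, `M = Mf U` (`Mf U` = Moebius function cut at `n ≤ U`):
`G a a = G - 2 G ζ M + G ζ² M² = G - 2 (log - F ζ) M + (log - F ζ) ζ M²`, i.e.
`G = G a a + 2 log M - 2 F ζ M - log ζ M² + F ζ² M²` (commutative ring of arithmetic functions, `ring`). For `n > U`, `Λ(n) = G(n)`.
`az_zero`: `a(1) = 0` and `a(n) = -∑_{d ∣ n} μ(d) = 0` for `1 < n ≤ U`; `a(0) = 0`. `|a(n)| ≤ τ(n)` since `a(n) = -∑_{d ∣ n, d ≤ U} μ(d)` for `n > 1` and `a(1) = 0`.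
-/

open Finset Complex
open scoped ArithmeticFunction.Moebius ArithmeticFunction.vonMangoldt

namespace Pool.Agent.MVD

open Pool.Agent.ANT Pool.Agent.SInt

/-- `log` as an arithmetic function. -/
noncomputable def lgA : ArithmeticFunction ℂ := ⟨fun n => ((Real.log n : ℝ) : ℂ), by simp⟩

namespace IdentAAux

theorem az_eq (U : ℕ) : az U = Hf U * (ArithmeticFunction.zeta : ArithmeticFunction ℂ) := by
  have h1 : (Mf U + Hf U) * (ArithmeticFunction.zeta : ArithmeticFunction ℂ) = 1 := by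
    rw [Mf_add_Hf]; exact ArithmeticFunction.coe_moebius_mul_coe_zeta
  rw [az, ← h1]
  ring

theorem Lo_add_Hi (U : ℕ) : LoL U + HiL U = LamC := by
  ext n
  rw [ArithmeticFunction.add_apply, LamC_apply]
  have e1 : LoL U n = if n ≤ U then ((Λ n : ℝ) : ℂ) else 0 := rfl
  have e2 : HiL U n = if U < n then ((Λ n : ℝ) : ℂ) else 0 := rfl
  rw [e1, e2]
  rcases le_or_gt n U with h | h
  · rw [if_pos h, if_neg (not_lt.2 h), add_zero]
  · rw [if_neg (not_le.2 h), if_pos h, zero_add]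

theorem lgA_eq (U : ℕ) :
    lgA = (LoL U + HiL U) * (ArithmeticFunction.zeta : ArithmeticFunction ℂ) := by
  rw [Lo_add_Hi, LamC_mul_zeta]
  rfl

theorem ident (U : ℕ) : HiL U = HiL U * az U * az U + (lgA * Mf U + lgA * Mf U)
      - (LoL U * (ArithmeticFunction.zeta : ArithmeticFunction ℂ) * Mf U
        + LoL U * (ArithmeticFunction.zeta : ArithmeticFunction ℂ) * Mf U)
      - (lgA * (ArithmeticFunction.zeta : ArithmeticFunction ℂ) * (Mf U * Mf U))
      + (LoL U * (ArithmeticFunction.zeta : ArithmeticFunction ℂ) *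
          (ArithmeticFunction.zeta : ArithmeticFunction ℂ) * (Mf U * Mf U)) := by
  rw [az, lgA_eq U]
  ring

theorem sub_apply' (f g : ArithmeticFunction ℂ) (n : ℕ) : (f - g) n = f n - g n := by
  rw [sub_eq_add_neg, ArithmeticFunction.add_apply]
  rfl

end IdentAAux

open IdentAAux

theorem ident3 {U : ℕ} (hU : 1 ≤ U) {n : ℕ} (hn : U < n) :
    LamN n = (HiL U * az U * az U) n + 2 * (lgA * Mf U) n
      - 2 * (LoL U * (ArithmeticFunction.zeta : ArithmeticFunction ℂ) * Mf U) n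
      - (lgA * (ArithmeticFunction.zeta : ArithmeticFunction ℂ) * (Mf U * Mf U)) n
      + (LoL U * (ArithmeticFunction.zeta : ArithmeticFunction ℂ) *
          (ArithmeticFunction.zeta : ArithmeticFunction ℂ) * (Mf U * Mf U)) n := by
  have h1 := congrArg (fun f : ArithmeticFunction ℂ => f n) (ident U)
  simp only [ArithmeticFunction.add_apply, sub_apply'] at h1
  have e2 : HiL U n = if U < n then ((Λ n : ℝ) : ℂ) else 0 := rfl
  rw [e2, if_pos hn] at h1
  rw [LamN, h1]
  ring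

theorem az_zero {U : ℕ} (hU : 1 ≤ U) {n : ℕ} (hn : n ≤ U) : az U n = 0 := by
  rw [az_eq]
  exact HZ_zero hn

theorem norm_az_le {U : ℕ} (hU : 1 ≤ U) (n : ℕ) : ‖az U n‖ ≤ tauR n := by
  rw [az_eq]
  exact norm_HZ_le U n

end Pool.Agent.MVD
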