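import Pool.Agent.MVD.BoxDef
import Pool.Agent.MVD.IdentA

/-!
# Module BoxD: exact dyadic decomposition

`z = mz κ X = 2^k` is a power of two, `U = z - 1`, `A3 n = ∑_{abc = n} HiL(a) az(b) az(c)`; the nonzero terms have `a, b, c > U`, i.e. `≥ z` (az_zero).
Each `a ≥ 1` lies in exactly one block `[2^j, 2^(j+1))` (`j = Nat.log 2 a`), and `a ≥ z = 2^k` iff `j ≥ k` iff `2^j ≥ z`. On such blocks `HiL U a = Λ a`.
For `n ≤ 2X`: `2^(j₀+j₁+j₂) ≤ abc = n ≤ 2X`, so the triple of blocks is in box3; hence `A3 n = ∑_{p ∈ box3} B3 κ X p n` for `1 ≤ n ≤ 2X`.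
`LAh h Z D v = ∑_{n ≤ Z} h(n) GD(v-n)` is linear in `h`, and LAh_cut (SInt/TriB) changes `2X` to `16X` (`v + D ≤ 2X`).
-/

open Finset Complex MeasureTheory
open scoped ArithmeticFunction.Moebius ArithmeticFunction.vonMangoldt

namespace Pool.Agent.MVD

open Pool.Agent.ANT Pool.Agent.SInt

namespace BoxDAux

theorem dy_pow (f : ℕ → ℂ) (j : ℕ) {a : ℕ} (ha : a ≠ 0) :
    dy f (2 ^ j) a = if j = Nat.log 2 a then f a else 0 := by
  unfold dy
  have hiff : a ∈ Ico (2 ^ j) (2 * 2 ^ j) ↔ j = Nat.log 2 a := by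
    rw [mem_Ico]
    constructor
    · rintro ⟨h1, h2⟩
      symm
      rw [Nat.log_eq_iff (Or.inr ⟨by norm_num, ha⟩)]
      exact ⟨h1, by rw [pow_succ]; omega⟩
    · intro h
      have h3 := Nat.pow_log_le_self 2 ha
      have h4 := Nat.lt_pow_succ_log_self (b := 2) (by norm_num) a
      rw [h]
      refine ⟨h3, ?_⟩
      rw [Nat.succ_eq_add_one, pow_succ] at h4
      omega
  by_cases h : j = Nat.log 2 a
  · rw [if_pos (hiff.2 h), if_pos h]
  · rw [if_neg (fun h' => h (hiff.1 h')), if_neg h]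

theorem HiL_apply (U n : ℕ) : HiL U n = if U < n then LamN n else 0 := rfl

theorem low_of_lt {k a : ℕ} (h : ¬ 2 ^ k ≤ 2 ^ Nat.log 2 a) : a ≤ 2 ^ k - 1 := by
  have h1 : Nat.log 2 a < k := by
    by_contra hcon
    push Not at hcon
    exact h (Nat.pow_le_pow_right (by norm_num) hcon)
  have h2 := Nat.lt_pow_succ_log_self (b := 2) (by norm_num) a
  have h3 : 2 ^ (Nat.log 2 a).succ ≤ 2 ^ k := Nat.pow_le_pow_right (by norm_num) h1
  omega

theorem log_lt_of_le {a N : ℕ} (h : a ≤ N) : Nat.log 2 a < Nat.log 2 N + 1 :=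
  Nat.lt_succ_of_le (Nat.log_mono_right h)

theorem triple {κ : ℝ} {X a b c : ℕ} (hU : 1 ≤ mz κ X - 1) (ha : a ≠ 0) (hb : b ≠ 0) (hc : c ≠ 0)
    (habc : a * (b * c) ≤ 2 * X) :
    ∑ p ∈ box3 κ X, dy LamN (2 ^ p.1) a *
      (dy (fun n => az (mz κ X - 1) n) (2 ^ p.2.1) b * dy (fun n => az (mz κ X - 1) n) (2 ^ p.2.2) c) =
    HiL (mz κ X - 1) a * (az (mz κ X - 1) b * az (mz κ X - 1) c) := by
  set p0 : ℕ × ℕ × ℕ := (Nat.log 2 a, Nat.log 2 b, Nat.log 2 c) with hp0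
  have hterm : ∀ p ∈ box3 κ X, dy LamN (2 ^ p.1) a *
      (dy (fun n => az (mz κ X - 1) n) (2 ^ p.2.1) b * dy (fun n => az (mz κ X - 1) n) (2 ^ p.2.2) c) =
      if p = p0 then LamN a * (az (mz κ X - 1) b * az (mz κ X - 1) c) else 0 := by
    rintro ⟨j0, j1, j2⟩ _
    rw [dy_pow _ _ ha, dy_pow _ _ hb, dy_pow _ _ hc]
    by_cases h0 : j0 = Nat.log 2 a
    · by_cases h1 : j1 = Nat.log 2 b
      · by_cases h2 : j2 = Nat.log 2 c
        · rw [if_pos h0, if_pos h1, if_pos h2, if_pos (by rw [hp0, h0, h1, h2])]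
        · rw [if_neg h2, mul_zero, mul_zero, if_neg]
          intro h
          rw [hp0, Prod.mk.injEq, Prod.mk.injEq] at h
          exact h2 h.2.2
      · rw [if_neg h1, zero_mul, mul_zero, if_neg]
        intro h
        rw [hp0, Prod.mk.injEq, Prod.mk.injEq] at h
        exact h1 h.2.1
    · rw [if_neg h0, zero_mul, if_neg]
      intro h
      rw [hp0, Prod.mk.injEq, Prod.mk.injEq] at h
      exact h0 h.1
  rw [Finset.sum_congr rfl hterm, Finset.sum_ite_eq']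
  have hmz : mz κ X = 2 ^ Nat.clog 2 (mR κ X ^ 17) := rfl
  by_cases hmem : p0 ∈ box3 κ X
  · rw [if_pos hmem]
    have h1 : mz κ X ≤ 2 ^ Nat.log 2 a := by
      unfold box3 at hmem
      exact (mem_filter.1 hmem).2.1
    have h2 := Nat.pow_log_le_self 2 ha
    rw [HiL_apply, if_pos (by omega)]
  · rw [if_neg hmem]
    by_cases h1 : mz κ X ≤ 2 ^ Nat.log 2 a
    · by_cases h2 : mz κ X ≤ 2 ^ Nat.log 2 b
      · by_cases h3 : mz κ X ≤ 2 ^ Nat.log 2 c
        · exfalso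
          apply hmem
          have ha1 : 1 ≤ a := Nat.one_le_iff_ne_zero.2 ha
          have hb1 : 1 ≤ b := Nat.one_le_iff_ne_zero.2 hb
          have hc1 : 1 ≤ c := Nat.one_le_iff_ne_zero.2 hc
          have hbc1 : 1 ≤ b * c := Nat.one_le_iff_ne_zero.2 (Nat.mul_ne_zero hb hc)
          have hbc : b * c ≤ a * (b * c) := Nat.le_mul_of_pos_left _ ha1
          have hA : a ≤ 2 * X := (Nat.le_mul_of_pos_right _ hbc1).trans habc
          have hB : b ≤ 2 * X := ((Nat.le_mul_of_pos_right _ hc1).trans hbc).trans habc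
          have hC : c ≤ 2 * X := ((Nat.le_mul_of_pos_left _ hb1).trans hbc).trans habc
          unfold box3
          rw [mem_filter, mem_product, mem_product, mem_range, mem_range, mem_range]
          refine ⟨⟨log_lt_of_le hA, log_lt_of_le hB, log_lt_of_le hC⟩, h1, h2, h3, ?_⟩
          refine le_trans ?_ habc
          rw [hp0]
          simp only
          rw [pow_add, pow_add, mul_assoc]
          exact Nat.mul_le_mul (Nat.pow_log_le_self 2 ha)
            (Nat.mul_le_mul (Nat.pow_log_le_self 2 hb) (Nat.pow_log_le_self 2 hc))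
        · have h4 := low_of_lt (by rwa [hmz] at h3)
          rw [← hmz] at h4
          rw [az_zero hU h4, mul_zero, mul_zero]
      · have h4 := low_of_lt (by rwa [hmz] at h2)
        rw [← hmz] at h4
        rw [az_zero hU h4, zero_mul, mul_zero]
    · have h4 := low_of_lt (by rwa [hmz] at h1)
      rw [← hmz] at h4
      rw [HiL_apply, if_neg (by omega), zero_mul]

theorem A3_eq {κ : ℝ} {X n : ℕ} (hU : 1 ≤ mz κ X - 1) (hn : n ≤ 2 * X) :
    A3 κ X n = ∑ p ∈ box3 κ X, B3 κ X p n := by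
  unfold A3 B3 cv
  rw [mul_assoc, ArithmeticFunction.mul_apply, Finset.sum_comm]
  refine Finset.sum_congr rfl fun x hx => ?_
  rw [ArithmeticFunction.mul_apply, Finset.mul_sum]
  rw [Nat.mem_divisorsAntidiagonal] at hx
  have h1 : ∀ p ∈ box3 κ X, dy LamN (2 ^ p.1) x.1 *
      ∑ y ∈ x.2.divisorsAntidiagonal, dy (fun n => az (mz κ X - 1) n) (2 ^ p.2.1) y.1 *
        dy (fun n => az (mz κ X - 1) n) (2 ^ p.2.2) y.2 =
      ∑ y ∈ x.2.divisorsAntidiagonal, dy LamN (2 ^ p.1) x.1 *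
        (dy (fun n => az (mz κ X - 1) n) (2 ^ p.2.1) y.1 *
          dy (fun n => az (mz κ X - 1) n) (2 ^ p.2.2) y.2) := fun p _ => Finset.mul_sum _ _ _
  rw [Finset.sum_congr rfl h1, Finset.sum_comm]
  refine Finset.sum_congr rfl fun y hy => ?_
  rw [Nat.mem_divisorsAntidiagonal] at hy
  have hx0 : x.1 ≠ 0 := by
    intro h
    rw [h, zero_mul] at hx
    exact hx.2 hx.1.symm
  have hy1 : y.1 ≠ 0 := by
    intro h
    rw [h, zero_mul] at hy
    exact hy.2 hy.1.symm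
  have hy2 : y.2 ≠ 0 := by
    intro h
    rw [h, mul_zero] at hy
    exact hy.2 hy.1.symm
  rw [triple hU hx0 hy1 hy2 (by rw [hy.1, hx.1]; exact hn)]

end BoxDAux

theorem box_dyadic {κ : ℝ} {X : ℕ} (hP : ParOK κ X) {r : ℕ} (χ : DirichletCharacter ℂ r) (v : ℤ)
    (hv : v + mD κ X ≤ 2 * X) :
    LAh (twc (A3 κ X) χ) (2 * X) (mD κ X) v =
      ∑ p ∈ box3 κ X, LAh (twc (B3 κ X p) χ) (16 * X) (mD κ X) v := by
  have hR : 2 ≤ mR κ X := le_trans (by norm_num) hP.R2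
  have hR4 : 1 ≤ mR κ X ^ 4 := Nat.one_le_pow _ _ (by omega)
  have hD : 1 ≤ mD κ X := hR4.trans hP.D3
  have hU : 1 ≤ mz κ X - 1 := by
    have h1 := hP.z1
    have h2 : 2 ^ 17 ≤ mR κ X ^ 17 := Nat.pow_le_pow_left hR 17
    have h3 : (2 : ℕ) ≤ 2 ^ 17 := by norm_num
    omega
  have hcut : ∀ p ∈ box3 κ X, LAh (twc (B3 κ X p) χ) (16 * X) (mD κ X) v =
      LAh (twc (B3 κ X p) χ) (2 * X) (mD κ X) v := by
    intro p _
    apply LAh_cut hD
    · push_cast
      linarith [show (0 : ℤ) ≤ X from Int.natCast_nonneg X]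
    · push_cast
      exact hv
  rw [Finset.sum_congr rfl hcut]
  unfold LAh twc
  rw [Finset.sum_comm]
  refine Finset.sum_congr rfl fun n hn => ?_
  rw [BoxDAux.A3_eq hU (mem_Icc.1 hn).2, Finset.sum_mul, Finset.sum_mul]

theorem card_box3 {κ : ℝ} {X : ℕ} (hX : 3 ≤ X) : ((box3 κ X).card : ℝ) ≤ (4 * Real.log X) ^ 3 := by
  have h1 : (box3 κ X).card ≤ (Nat.log 2 (2 * X) + 1) ^ 3 := by
    unfold box3
    refine (card_filter_le _ _).trans ?_
    rw [card_product, card_product, card_range]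
    exact le_of_eq (by ring)
  have hX0 : (0 : ℝ) < X := by
    have : 0 < X := by omega
    exact_mod_cast this
  have h2 : ((Nat.log 2 (2 * X) + 1 : ℕ) : ℝ) ≤ 4 * Real.log X := by
    have h3 : 2 ^ Nat.log 2 (2 * X) ≤ 2 * X := Nat.pow_log_le_self 2 (by omega)
    have h4 : ((2 : ℝ) ^ Nat.log 2 (2 * X)) ≤ 2 * X := by exact_mod_cast h3
    have h5 := Real.log_le_log (by positivity) h4
    rw [Real.log_pow, Real.log_mul (by norm_num) hX0.ne'] at h5
    have h6 := Real.log_two_gt_d9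
    have h7 := Real.log_two_lt_d9
    have h8 : 1 ≤ Real.log X := by
      rw [Real.le_log_iff_exp_le hX0]
      have h9 := Real.exp_one_lt_d9
      have h10 : (3 : ℝ) ≤ X := by exact_mod_cast hX
      linarith
    have h11 : (0 : ℝ) ≤ (Nat.log 2 (2 * X) : ℝ) := Nat.cast_nonneg _
    push_cast
    nlinarith
  calc ((box3 κ X).card : ℝ) ≤ (((Nat.log 2 (2 * X) + 1) ^ 3 : ℕ) : ℝ) := by exact_mod_cast h1
    _ = ((Nat.log 2 (2 * X) + 1 : ℕ) : ℝ) ^ 3 := by push_cast; ring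
    _ ≤ (4 * Real.log X) ^ 3 := pow_le_pow_left₀ (Nat.cast_nonneg _) h2 3

end Pool.Agent.MVD
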