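import Pool.Agent.MVD.Par
import Pool.Agent.SInt.MelInv
import Pool.Agent.SInt.KapRep

/-!
# Module TRUNC: truncated Mellin representation

`mel_inv` (SInt/MelInv): `LAh h Z D v = (1/2π) ∫ Fh h Z t kap D v t dt`; the part `|t| > T` is at most
`(1/2π) B ∫_{|t|>T} 4 (v+D)²/(D² t²) dt = (4/π) B (v+D)²/(D² T)` (norm_kap_le', `v + D ≥ 0`).
-/

open Finset Complex MeasureTheory

namespace Pool.Agent.MVD

open Pool.Agent.ANT Pool.Agent.SInt

namespace TruncAux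

theorem tr_tail {f : ℝ → ℂ} {C T' : ℝ} (hT : 0 < T')
    (hf : ∀ t, T' < t → ‖f t‖ ≤ C / t ^ 2) : ‖∫ t in Set.Ioi T', f t‖ ≤ C / T' := by
  have h1 : IntegrableOn (fun t : ℝ => C * t ^ (-2 : ℝ)) (Set.Ioi T') :=
    (integrableOn_Ioi_rpow_of_lt (by norm_num) hT).const_mul C
  have h2 : ∫ t in Set.Ioi T', C * t ^ (-2 : ℝ) = C / T' := by
    rw [integral_const_mul, integral_Ioi_rpow_of_lt (by norm_num) hT]
    have : T' ^ ((-2 : ℝ) + 1) = T'⁻¹ := by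
      rw [show (-2 : ℝ) + 1 = -1 by norm_num, Real.rpow_neg_one]
    rw [this]
    have h3 : ((-2 : ℝ) + 1) = -1 := by norm_num
    rw [h3]
    field_simp
  rw [← h2]
  refine norm_integral_le_of_norm_le h1 ?_
  refine (ae_restrict_iff' measurableSet_Ioi).2 (Filter.Eventually.of_forall fun t ht => ?_)
  have ht' : T' < t := ht
  have ht0 : 0 < t := hT.trans ht'
  refine (hf t ht').trans (le_of_eq ?_)
  rw [Real.rpow_neg ht0.le, Real.rpow_two, div_eq_mul_inv]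

theorem tr_compl {f : ℝ → ℂ} {C T' : ℝ} (hT : 0 < T') (hfi : Integrable f)
    (hf : ∀ t, T' < |t| → ‖f t‖ ≤ C / t ^ 2) : ‖∫ t in (Set.Icc (-T') T')ᶜ, f t‖ ≤ 2 * (C / T') := by
  have hset : (Set.Icc (-T') T')ᶜ = Set.Iio (-T') ∪ Set.Ioi T' := by
    ext t
    simp only [Set.mem_compl_iff, Set.mem_Icc, Set.mem_union, Set.mem_Iio, Set.mem_Ioi, not_and_or, not_le]
  have hdis : Disjoint (Set.Iio (-T')) (Set.Ioi T') := by
    rw [Set.disjoint_left]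
    intro t h1 h2
    have h1' : t < -T' := h1
    have h2' : T' < t := h2
    linarith
  rw [hset, setIntegral_union hdis measurableSet_Ioi hfi.integrableOn hfi.integrableOn]
  have h1 : ‖∫ t in Set.Iio (-T'), f t‖ ≤ C / T' := by
    rw [← integral_Iic_eq_integral_Iio, ← integral_comp_neg_Ioi]
    refine tr_tail hT fun t ht => ?_
    have := hf (-t) (by rw [abs_neg, abs_of_pos (hT.trans ht)]; exact ht)
    rwa [neg_sq] at this
  have h2 : ‖∫ t in Set.Ioi T', f t‖ ≤ C / T' :=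
    tr_tail hT fun t ht => hf t (ht.trans_le (le_abs_self t))
  calc ‖(∫ t in Set.Iio (-T'), f t) + ∫ t in Set.Ioi T', f t‖
      ≤ ‖∫ t in Set.Iio (-T'), f t‖ + ‖∫ t in Set.Ioi T', f t‖ := norm_add_le _ _
    _ ≤ 2 * (C / T') := by linarith

end TruncAux

open TruncAux

theorem LAh_trunc {D : ℕ} (hD : 1 ≤ D) (h : ℕ → ℂ) (Z : ℕ) {T B : ℝ} (hT : 0 < T)
    (hB : ∀ t, ‖Fh h Z t‖ ≤ B) {v : ℤ} (hv : 0 ≤ v) :
    ‖LAh h Z D v - (1 / (2 * Real.pi) : ℂ) * ∫ t in Set.Icc (-T) T, Fh h Z t * kap D v t‖ ≤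
      2 * B * ((v : ℝ) + D) ^ 2 / (D ^ 2 * T) := by
  have hD0 : (0 : ℝ) < D := by exact_mod_cast hD
  have hB0 : 0 ≤ B := (norm_nonneg _).trans (hB 0)
  have hI : Integrable (fun t : ℝ => Fh h Z t * kap D v t) :=
    (kap_integrable hD v).bdd_mul (continuous_Fh h Z).aestronglyMeasurable
      (Filter.Eventually.of_forall hB)
  rw [mel_inv hD h Z v]
  have e1 : ∫ t : ℝ, Fh h Z t * kap D v t = (∫ t in Set.Icc (-T) T, Fh h Z t * kap D v t) +
      ∫ t in (Set.Icc (-T) T)ᶜ, Fh h Z t * kap D v t :=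
    (integral_add_compl measurableSet_Icc hI).symm
  rw [e1]
  have hbound : ‖∫ t in (Set.Icc (-T) T)ᶜ, Fh h Z t * kap D v t‖ ≤
      2 * (B * (4 * ((v : ℝ) + D) ^ 2 / D ^ 2) / T) := by
    refine tr_compl hT hI fun t ht => ?_
    have ht0 : t ≠ 0 := by
      intro h0
      rw [h0, abs_zero] at ht
      linarith
    have ht2 : 0 < t ^ 2 := by positivity
    rw [norm_mul]
    have hk : ‖kap D v t‖ ≤ 4 * ((v : ℝ) + D) ^ 2 / D ^ 2 / t ^ 2 := by
      refine (norm_kap_le' hD (by omega) ht0).trans ?_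
      rw [div_div]
    calc ‖Fh h Z t‖ * ‖kap D v t‖ ≤ B * (4 * ((v : ℝ) + D) ^ 2 / D ^ 2 / t ^ 2) :=
          mul_le_mul (hB t) hk (norm_nonneg _) hB0
      _ = B * (4 * ((v : ℝ) + D) ^ 2 / D ^ 2) / t ^ 2 := by ring
  have hrw : ∀ a d : ℂ, (1 / (2 * Real.pi) : ℂ) * (a + d) - (1 / (2 * Real.pi) : ℂ) * a
      = (1 / (2 * Real.pi) : ℂ) * d := fun a d => by ring
  rw [hrw, norm_mul]
  have hpi : ‖(1 / (2 * Real.pi) : ℂ)‖ ≤ 1 / 4 := by
    have h1 : (1 / (2 * Real.pi) : ℂ) = ((1 / (2 * Real.pi) : ℝ) : ℂ) := by push_cast; ring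
    rw [h1, Complex.norm_real, Real.norm_eq_abs, abs_of_pos (by positivity)]
    rw [div_le_div_iff₀ (by positivity) (by norm_num)]
    have := Real.pi_gt_three
    linarith
  calc ‖(1 / (2 * Real.pi) : ℂ)‖ * ‖∫ t in (Set.Icc (-T) T)ᶜ, Fh h Z t * kap D v t‖
      ≤ 1 / 4 * (2 * (B * (4 * ((v : ℝ) + D) ^ 2 / D ^ 2) / T)) :=
        mul_le_mul hpi hbound (norm_nonneg _) (by norm_num)
    _ = 2 * B * ((v : ℝ) + D) ^ 2 / (D ^ 2 * T) := by
        field_simp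

end Pool.Agent.MVD
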