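import Pool.Agent.MVD.BoxDef
import Pool.Agent.MVD.IdentA
import Pool.Agent.MVD.Trunc

/-!
# Module BoxM: Mellin representation of one box

The Dirichlet polynomial of the product: `Fh (twc (B3 κ X p) χ) (16X) t = P3 κ X χ p t` (`χ(mn) = χ(m)χ(n)`, so `twc (cv a b) χ = cv (twc a χ) (twc b χ)` pointwise; as in the proof of Fh_cv in SInt/FhSq: the
product of the three blocks is supported on `n < 8 · 2^(j₀+j₁+j₂) ≤ 16 X`, and every triple `(a,b,c)` of the blocks is met). Each of the factors is bounded by `∑_{n ∈ block} |coefficient|/n` (norm_Fh_le),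
for all `t`: `∑ Λ(n)/n ≤ log(4X) `, `∑ τ(n)/n ≤ Hs(4X)²` (norm_az_le), so `‖P3‖ ≤ B = R^(1/10)` for large `X`. Then LAh_trunc with `T = R^14`:
`2 B (v+D)²/(D² T) ≤ 2 R^(1/10) (2X)² · 100 R^8/(X² R^14) = 800 R^(1/10 - 6) ≤ R^(-11/2)` (`D ≥ X/(10R^4)`, `0 ≤ v + D ≤ 2X`).
-/

open Finset Complex MeasureTheory

namespace Pool.Agent.MVD

open Pool.Agent.ANT Pool.Agent.SInt

namespace BoxMAux

lemma exp_mul' (t : ℝ) {m n : ℕ} (hm : m ≠ 0) (hn : n ≠ 0) :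
    cexp (-((1 + t * I) * (Real.log ((m * n : ℕ) : ℝ) : ℂ))) =
      cexp (-((1 + t * I) * (Real.log m : ℂ))) * cexp (-((1 + t * I) * (Real.log n : ℂ))) := by
  rw [← Complex.exp_add]
  congr 1
  rw [Nat.cast_mul, Real.log_mul (by exact_mod_cast hm) (by exact_mod_cast hn)]
  push_cast
  ring

lemma Icc_eq (Z : ℕ) : Icc 1 Z = Ioc 0 Z := by
  ext n
  simp only [mem_Icc, mem_Ioc]
  omega

/-- multiplicativity of `Fh` for sequences of bounded support -/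
lemma Fh_cv_gen {A B Z : ℕ} {a b : ℕ → ℂ} (ha : ∀ m, A < m → a m = 0) (hb : ∀ n, B < n → b n = 0)
    (hB : 1 ≤ B) (hZ : A * B ≤ Z) (t : ℝ) : Fh (cv a b) Z t = Fh a A t * Fh b B t := by
  unfold Fh cv
  rw [Icc_eq, Icc_eq, Icc_eq]
  have h1 : ∑ n ∈ Ioc 0 Z, (∑ p ∈ n.divisorsAntidiagonal, a p.1 * b p.2) *
      cexp (-((1 + t * I) * (Real.log n : ℂ))) =
      ∑ n ∈ Ioc 0 Z, ∑ p ∈ n.divisorsAntidiagonal,
        (a p.1 * cexp (-((1 + t * I) * (Real.log p.1 : ℂ)))) *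
        (b p.2 * cexp (-((1 + t * I) * (Real.log p.2 : ℂ)))) := by
    refine sum_congr rfl fun n _ => ?_
    rw [sum_mul]
    refine sum_congr rfl fun p hp => ?_
    have hp0 := Nat.ne_zero_of_mem_divisorsAntidiagonal hp
    rw [← (Nat.mem_divisorsAntidiagonal.mp hp).1, exp_mul' t hp0.1 hp0.2]
    ring
  rw [h1, sum_conv (fun m => a m * cexp (-((1 + t * I) * (Real.log m : ℂ))))
    (fun n => b n * cexp (-((1 + t * I) * (Real.log n : ℂ)))), sum_mul]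
  have hZ1 : A ≤ Z := le_trans (Nat.le_mul_of_pos_right A hB) hZ
  symm
  rw [← sum_subset (Ioc_subset_Ioc_right hZ1)]
  · refine sum_congr rfl fun m hm => ?_
    rw [mem_Ioc] at hm
    congr 1
    have h2 : B ≤ Z / m := by
      rw [Nat.le_div_iff_mul_le hm.1]
      calc B * m ≤ B * A := Nat.mul_le_mul_left _ hm.2
        _ = A * B := mul_comm _ _
        _ ≤ Z := hZ
    refine sum_subset (Ioc_subset_Ioc_right h2) fun n hn hn' => ?_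
    rw [mem_Ioc] at hn hn'
    rw [hb n (by omega), zero_mul]
  · intro m hm hm'
    rw [mem_Ioc] at hm hm'
    rw [ha m (by omega), zero_mul, zero_mul]

lemma twc_cv {r : ℕ} (χ : DirichletCharacter ℂ r) (a b : ℕ → ℂ) :
    twc (cv a b) χ = cv (twc a χ) (twc b χ) := by
  funext k
  unfold twc cv
  rw [sum_mul]
  refine sum_congr rfl fun p hp => ?_
  rw [← (Nat.mem_divisorsAntidiagonal.mp hp).1]
  push_cast
  rw [map_mul]
  ring

lemma twc_dy {r : ℕ} (χ : DirichletCharacter ℂ r) (a : ℕ → ℂ) (M : ℕ) :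
    twc (dy a M) χ = dy (twc a χ) M := by
  funext k
  unfold twc dy
  split_ifs
  · rfl
  · rw [zero_mul]

lemma dy_supp (a : ℕ → ℂ) (M : ℕ) : ∀ m, m ∉ Ico M (2 * M) → dy a M m = 0 := by
  intro m hm
  rw [dy, if_neg hm]

lemma dy_zero (a : ℕ → ℂ) (M : ℕ) : ∀ m, 2 * M < m → dy a M m = 0 := by
  intro m hm
  refine dy_supp a M m ?_
  rw [mem_Ico]
  omega

lemma cv_dy_zero (a b : ℕ → ℂ) (M N : ℕ) : ∀ k, 2 * M * (2 * N) < k →
    cv (dy a M) (dy b N) k = 0 := by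
  intro k hk
  unfold cv
  refine sum_eq_zero fun p hp => ?_
  by_contra h0
  have h1 : dy a M p.1 ≠ 0 := left_ne_zero_of_mul h0
  have h2 : dy b N p.2 ≠ 0 := right_ne_zero_of_mul h0
  have h3 : p.1 ≤ 2 * M := by
    by_contra hc
    exact h1 (dy_zero a M _ (by omega))
  have h4 : p.2 ≤ 2 * N := by
    by_contra hc
    exact h2 (dy_zero b N _ (by omega))
  have h5 := (Nat.mem_divisorsAntidiagonal.mp hp).1
  have h6 := Nat.mul_le_mul h3 h4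
  omega

/-- the Dirichlet polynomial of the product -/
lemma Fh_B3 {κ : ℝ} {X r : ℕ} (χ : DirichletCharacter ℂ r) {p : ℕ × ℕ × ℕ} (hp : p ∈ box3 κ X) (t : ℝ) :
    Fh (twc (B3 κ X p) χ) (16 * X) t = P3 κ X χ p t := by
  have hsum : 2 ^ (p.1 + p.2.1 + p.2.2) ≤ 2 * X := (mem_filter.mp hp).2.2.2.2
  rw [B3, twc_cv, twc_cv, twc_dy, twc_dy, twc_dy]
  have h1 : Fh (cv (dy (twc LamN χ) (2 ^ p.1)) (cv (dy (twc (fun n => az (mz κ X - 1) n) χ) (2 ^ p.2.1))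
      (dy (twc (fun n => az (mz κ X - 1) n) χ) (2 ^ p.2.2)))) (16 * X) t =
      Fh (dy (twc LamN χ) (2 ^ p.1)) (2 * 2 ^ p.1) t *
      Fh (cv (dy (twc (fun n => az (mz κ X - 1) n) χ) (2 ^ p.2.1))
        (dy (twc (fun n => az (mz κ X - 1) n) χ) (2 ^ p.2.2))) (2 * 2 ^ p.2.1 * (2 * 2 ^ p.2.2)) t := by
    refine Fh_cv_gen (dy_zero _ _) (cv_dy_zero _ _ _ _) ?_ ?_ t
    · have h2 : 0 < 2 * 2 ^ p.2.1 * (2 * 2 ^ p.2.2) := by positivity
      exact h2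
    · calc 2 * 2 ^ p.1 * (2 * 2 ^ p.2.1 * (2 * 2 ^ p.2.2)) = 8 * 2 ^ (p.1 + p.2.1 + p.2.2) := by
            rw [pow_add, pow_add]
            ring
        _ ≤ 8 * (2 * X) := Nat.mul_le_mul_left _ hsum
        _ = 16 * X := by ring
  rw [h1, Fh_cv_gen (dy_zero _ _) (dy_zero _ _) (Nat.succ_le_of_lt (by positivity)) le_rfl t]
  rw [P3, PC, PC, PC]
  ring

/-- one factor -/
lemma norm_PC_le {r : ℕ} (χ : DirichletCharacter ℂ r) (a : ℕ → ℂ) {M : ℕ} (hM : 1 ≤ M) {B : ℝ} (hB0 : 0 ≤ B)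
    (hB : ∀ n ∈ Ico M (2 * M), ‖a n‖ ≤ B) (t : ℝ) : ‖PC a χ M t‖ ≤ B := by
  unfold PC
  refine norm_Fh_dyadic hM (dy_supp _ _) (fun m => ?_) t
  unfold dy
  split_ifs with h
  · unfold twc
    rw [norm_mul]
    calc ‖a m‖ * ‖χ (m : ZMod r)‖ ≤ B * 1 :=
          mul_le_mul (hB m h) (DirichletCharacter.norm_le_one _ _) (norm_nonneg _) hB0
      _ = B := mul_one B
  · rw [norm_zero]
    exact hB0

/-- the final computation -/
lemma fin_calc {R D V B : ℝ} (hR : 2 ≤ R) (hD : 0 < D) (hV0 : 0 ≤ V) (hV : V ≤ 20 * (D * R ^ 4))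
    (hB : B = R ^ (1 / 10 : ℝ)) (h800 : 800 ≤ R ^ (4 / 10 : ℝ)) :
    2 * B * V ^ 2 / (D ^ 2 * R ^ 14) ≤ 1 / R ^ (11 / 2 : ℝ) := by
  have hR0 : 0 < R := by linarith
  have hB0 : 0 ≤ B := by
    rw [hB]
    positivity
  have h1 : V ^ 2 ≤ (20 * (D * R ^ 4)) ^ 2 := pow_le_pow_left₀ hV0 hV 2
  have h2 : 2 * B * V ^ 2 / (D ^ 2 * R ^ 14) ≤ 2 * B * (20 * (D * R ^ 4)) ^ 2 / (D ^ 2 * R ^ 14) := by
    refine div_le_div_of_nonneg_right ?_ (by positivity)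
    exact mul_le_mul_of_nonneg_left h1 (by linarith)
  have h3 : 2 * B * (20 * (D * R ^ 4)) ^ 2 / (D ^ 2 * R ^ 14) = 800 * B / R ^ 6 := by
    field_simp
    ring
  have h4 : R ^ 6 = R ^ (11 / 2 : ℝ) * R ^ (1 / 2 : ℝ) := by
    rw [← Real.rpow_add hR0, ← Real.rpow_natCast]
    norm_num
  have h5 : 800 * B ≤ R ^ (1 / 2 : ℝ) := by
    have h6 : R ^ (1 / 2 : ℝ) = R ^ (4 / 10 : ℝ) * R ^ (1 / 10 : ℝ) := by
      rw [← Real.rpow_add hR0]
      norm_num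
    rw [h6, hB]
    exact mul_le_mul_of_nonneg_right h800 (by positivity)
  have h7 : 800 * B / R ^ 6 ≤ R ^ (1 / 2 : ℝ) / R ^ 6 := div_le_div_of_nonneg_right h5 (by positivity)
  have h8 : R ^ (1 / 2 : ℝ) / R ^ 6 = 1 / R ^ (11 / 2 : ℝ) := by
    rw [h4]
    have : 0 < R ^ (1 / 2 : ℝ) := by positivity
    field_simp
  linarith

end BoxMAux

open BoxMAux

theorem box_mellin {κ : ℝ} (hκ : 0 < κ) (hκ1 : κ ≤ 1 / 1000) : ∃ X₀ : ℕ, ∀ X : ℕ, X₀ ≤ X →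
    ∀ (r : ℕ) (χ : DirichletCharacter ℂ r), ∀ p ∈ box3 κ X, ∀ v : ℤ, (mV κ X : ℤ) ≤ v → v + mD κ X ≤ 2 * X →
    ‖LAh (twc (B3 κ X p) χ) (16 * X) (mD κ X) v -
      (1 / (2 * Real.pi) : ℂ) * ∫ t in Set.Icc (-mT κ X) (mT κ X), P3 κ X χ p t * kap (mD κ X) v t‖ ≤
      1 / (mR κ X : ℝ) ^ (11 / 2 : ℝ) := by
  obtain ⟨X₁, h₁⟩ := par_ok hκ hκ1
  obtain ⟨X₂, h₂⟩ := log_le_R hκ hκ1 2 1 (show (0 : ℝ) < 1 / 30 by norm_num)
  obtain ⟨X₃, h₃⟩ := tau_le_R hκ hκ1 (show (0 : ℝ) < 1 / 30 by norm_num)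
  obtain ⟨X₄, h₄⟩ := log_le_R hκ hκ1 800 0 (show (0 : ℝ) < 4 / 10 by norm_num)
  refine ⟨max (max X₁ X₂) (max X₃ X₄), fun X hX r χ p hp v hv1 hv2 => ?_⟩
  have hP := h₁ X ((le_max_left _ _).trans ((le_max_left _ _).trans hX))
  have hlog := h₂ X ((le_max_right _ _).trans ((le_max_left _ _).trans hX))
  have htau := h₃ X ((le_max_left _ _).trans ((le_max_right _ _).trans hX))
  have h800 := h₄ X ((le_max_right _ _).trans ((le_max_right _ _).trans hX))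
  rw [pow_zero, mul_one] at h800
  rw [pow_one] at hlog
  have hX3 := hP.X3
  have hXr : (1000 : ℝ) ≤ X := by exact_mod_cast hX3
  have hX0 : (0 : ℝ) < X := by linarith
  have hR2n : 2 ≤ mR κ X := by
    have := hP.R2
    omega
  have hR2 : (2 : ℝ) ≤ mR κ X := by exact_mod_cast hR2n
  have hR0 : (0 : ℝ) < mR κ X := by linarith
  have hd : (0 : ℝ) ≤ (mR κ X : ℝ) ^ (1 / 30 : ℝ) := by positivity
  have hp' := mem_filter.mp hp
  have hmz : mR κ X ^ 17 ≤ mz κ X := hP.z1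
  have hmz2 : 2 ≤ mz κ X := by
    have h1 : 2 ^ 17 ≤ mR κ X ^ 17 := Nat.pow_le_pow_left hR2n 17
    have h2 : (2 : ℕ) ≤ 2 ^ 17 := by norm_num
    omega
  have hM4 : ∀ j, j ≤ p.1 + p.2.1 + p.2.2 → ∀ n ∈ Ico (2 ^ j) (2 * 2 ^ j), n ≠ 0 ∧ n ≤ 4 * X := by
    intro j hj n hn
    rw [mem_Ico] at hn
    have h1 : 2 ^ j ≤ 2 ^ (p.1 + p.2.1 + p.2.2) := Nat.pow_le_pow_right (by norm_num) hj
    have h2 := hp'.2.2.2.2
    have h3 : 0 < 2 ^ j := by positivity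
    constructor
    · omega
    · omega
  have hlam : ∀ n ∈ Ico (2 ^ p.1) (2 * 2 ^ p.1), ‖LamN n‖ ≤ (mR κ X : ℝ) ^ (1 / 30 : ℝ) := by
    intro n hn
    obtain ⟨hn0, hn4⟩ := hM4 p.1 (by omega) n hn
    rw [LamN, Complex.norm_real, Real.norm_of_nonneg ArithmeticFunction.vonMangoldt_nonneg]
    refine (ArithmeticFunction.vonMangoldt_le_log).trans (le_trans ?_ hlog)
    have h1 : (n : ℝ) ≤ 4 * X := by exact_mod_cast hn4
    have h2 : (0 : ℝ) < n := by exact_mod_cast Nat.pos_of_ne_zero hn0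
    have h3 : (4 : ℝ) * X ≤ X ^ 2 := by nlinarith
    calc Real.log n ≤ Real.log ((X : ℝ) ^ 2) := Real.log_le_log h2 (h1.trans h3)
      _ = 2 * Real.log X := by
        rw [Real.log_pow]
        norm_num
  have haz : ∀ j, j ≤ p.1 + p.2.1 + p.2.2 → ∀ n ∈ Ico (2 ^ j) (2 * 2 ^ j),
      ‖az (mz κ X - 1) n‖ ≤ (mR κ X : ℝ) ^ (1 / 30 : ℝ) := by
    intro j hj n hn
    obtain ⟨hn0, hn4⟩ := hM4 j hj n hn
    refine (norm_az_le (by omega) n).trans (htau n hn0 (hn4.trans ?_))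
    calc 4 * X ≤ X * X := Nat.mul_le_mul_right X (by omega)
      _ = X ^ 2 := by ring
      _ ≤ X ^ 4 := Nat.pow_le_pow_right (by omega) (by norm_num)
  have hpow : ∀ j : ℕ, 1 ≤ 2 ^ j := fun j => Nat.one_le_two_pow
  have hP3 : ∀ t, ‖P3 κ X χ p t‖ ≤ (mR κ X : ℝ) ^ (1 / 10 : ℝ) := by
    intro t
    rw [P3, norm_mul, norm_mul]
    have e1 := norm_PC_le χ LamN (hpow p.1) hd hlam t
    have e2 := norm_PC_le χ (fun n => az (mz κ X - 1) n) (hpow p.2.1) hd (haz p.2.1 (by omega)) t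
    have e3 := norm_PC_le χ (fun n => az (mz κ X - 1) n) (hpow p.2.2) hd (haz p.2.2 (by omega)) t
    have e4 : (mR κ X : ℝ) ^ (1 / 10 : ℝ) = (mR κ X : ℝ) ^ (1 / 30 : ℝ) *
        (mR κ X : ℝ) ^ (1 / 30 : ℝ) * (mR κ X : ℝ) ^ (1 / 30 : ℝ) := by
      rw [← Real.rpow_add hR0, ← Real.rpow_add hR0]
      norm_num
    rw [e4]
    exact mul_le_mul (mul_le_mul e1 e2 (norm_nonneg _) hd) e3 (norm_nonneg _) (mul_nonneg hd hd)
  have hFh : ∀ t, Fh (twc (B3 κ X p) χ) (16 * X) t = P3 κ X χ p t := fun t => Fh_B3 χ hp t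
  have hD1 : 1 ≤ mD κ X := by
    have h1 : 1 ≤ mR κ X ^ 4 := Nat.one_le_pow _ _ (by have := hP.R2; omega)
    exact h1.trans hP.D3
  have hD0 : (0 : ℝ) < mD κ X := by exact_mod_cast hD1
  have hv0 : 0 ≤ v := le_trans (by positivity) hv1
  have hT0 : 0 < mT κ X := by
    rw [mT]
    positivity
  have hmain := LAh_trunc hD1 (twc (B3 κ X p) χ) (16 * X) hT0
    (B := (mR κ X : ℝ) ^ (1 / 10 : ℝ)) (fun t => by rw [hFh t]; exact hP3 t) hv0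
  have hint : ∫ t in Set.Icc (-mT κ X) (mT κ X), Fh (twc (B3 κ X p) χ) (16 * X) t * kap (mD κ X) v t =
      ∫ t in Set.Icc (-mT κ X) (mT κ X), P3 κ X χ p t * kap (mD κ X) v t := by
    congr 1
    funext t
    rw [hFh t]
  rw [hint] at hmain
  refine hmain.trans ?_
  have hvr : (v : ℝ) + mD κ X ≤ 2 * X := by exact_mod_cast hv2
  have hXD : (X : ℝ) ≤ 10 * (mD κ X * (mR κ X : ℝ) ^ 4) := by
    have h1 : (X : ℝ) ≤ 5 * mW X := by exact_mod_cast hP.W2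
    have h2 : (mW X : ℝ) ≤ 2 * (mD κ X * (mR κ X : ℝ) ^ 4) := by exact_mod_cast hP.D2
    linarith
  have hV0 : (0 : ℝ) ≤ (v : ℝ) + mD κ X := by
    have : (0 : ℝ) ≤ (v : ℝ) := by exact_mod_cast hv0
    linarith
  have hfin := fin_calc hR2 hD0 hV0 (by linarith) rfl h800
  rw [mT]
  exact hfin

end Pool.Agent.MVD
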