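import Pool.Agent.MVD.BoxS
import Pool.Agent.MVD.BoxD
import Pool.Agent.MVD.BoxM

/-!
# Module Box: `Λ χ` as a sum of products of three long Dirichlet polynomials

Add up box_smooth, box_dyadic and box_mellin: error `R^(-6) + (4 log X)^3 R^(-11/2) ≤ R^(-5)` for large `X` (card_box3, log_le_R with exponent 1/4).
-/

open Finset Complex MeasureTheory

namespace Pool.Agent.MVD

open Pool.Agent.ANT Pool.Agent.SInt

theorem box_dec {κ : ℝ} (hκ : 0 < κ) (hκ1 : κ ≤ 1 / 1000) : ∃ X₀ : ℕ, ∀ X : ℕ, X₀ ≤ X →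
    ∀ r : ℕ, 2 ≤ r → r ≤ mR κ X → ∀ χ ∈ Prim r, ∀ v : ℤ, (mV κ X : ℤ) ≤ v → v + mD κ X ≤ 2 * X →
    ‖LAh (twc LamN χ) (2 * X) (mD κ X) v -
      ∑ p ∈ box3 κ X, (1 / (2 * Real.pi) : ℂ) * ∫ t in Set.Icc (-mT κ X) (mT κ X),
        P3 κ X χ p t * kap (mD κ X) v t‖ ≤ 1 / (mR κ X : ℝ) ^ 5 := by
  obtain ⟨X₁, h1⟩ := box_smooth hκ hκ1
  obtain ⟨X₂, h2⟩ := box_mellin hκ hκ1
  obtain ⟨X₃, h3⟩ := par_ok hκ hκ1
  obtain ⟨X₄, h4⟩ := log_le_R hκ hκ1 64 3 (δ := 1 / 4) (by norm_num)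
  refine ⟨max (max X₁ X₂) (max X₃ X₄), fun X hX r hr hrR χ hχ v hv hv2 => ?_⟩
  have hX1 : X₁ ≤ X := (le_max_left _ _).trans ((le_max_left _ _).trans hX)
  have hX2 : X₂ ≤ X := (le_max_right _ _).trans ((le_max_left _ _).trans hX)
  have hX3 : X₃ ≤ X := (le_max_left _ _).trans ((le_max_right _ _).trans hX)
  have hX4 : X₄ ≤ X := (le_max_right _ _).trans ((le_max_right _ _).trans hX)
  have hP := h3 X hX3
  have hR := hP.R2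
  have hR0 : (0 : ℝ) < mR κ X := by exact_mod_cast (by omega : 0 < mR κ X)
  have hR100 : (100 : ℝ) ≤ mR κ X := by exact_mod_cast hR
  have e1 := h1 X hX1 r hr hrR χ hχ v hv hv2
  have e2 := box_dyadic hP χ v hv2
  have e3 : ∀ p ∈ box3 κ X, ‖LAh (twc (B3 κ X p) χ) (16 * X) (mD κ X) v -
      (1 / (2 * Real.pi) : ℂ) * ∫ t in Set.Icc (-mT κ X) (mT κ X), P3 κ X χ p t * kap (mD κ X) v t‖ ≤
      1 / (mR κ X : ℝ) ^ (11 / 2 : ℝ) := fun p hp => h2 X hX2 r χ p hp v hv hv2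
  have e4 : LAh (twc LamN χ) (2 * X) (mD κ X) v -
      ∑ p ∈ box3 κ X, (1 / (2 * Real.pi) : ℂ) * ∫ t in Set.Icc (-mT κ X) (mT κ X),
        P3 κ X χ p t * kap (mD κ X) v t =
      (LAh (twc LamN χ) (2 * X) (mD κ X) v - LAh (twc (A3 κ X) χ) (2 * X) (mD κ X) v) +
      ∑ p ∈ box3 κ X, (LAh (twc (B3 κ X p) χ) (16 * X) (mD κ X) v -
        (1 / (2 * Real.pi) : ℂ) * ∫ t in Set.Icc (-mT κ X) (mT κ X), P3 κ X χ p t * kap (mD κ X) v t) := by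
    rw [sum_sub_distrib, ← e2]
    ring
  have e5 : ((box3 κ X).card : ℝ) ≤ (mR κ X : ℝ) ^ (1 / 4 : ℝ) := by
    refine (card_box3 (κ := κ) (by have := hP.X3; omega)).trans ?_
    have := h4 X hX4
    calc (4 * Real.log X) ^ 3 = 64 * Real.log X ^ 3 := by ring
      _ ≤ _ := this
  have e6 : (2 : ℝ) ≤ (mR κ X : ℝ) ^ (1 / 4 : ℝ) := by
    calc (2 : ℝ) = (16 : ℝ) ^ (1 / 4 : ℝ) := by
          rw [show (16 : ℝ) = 2 ^ (4 : ℝ) by norm_num, ← Real.rpow_mul (by norm_num)]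
          norm_num
      _ ≤ _ := Real.rpow_le_rpow (by norm_num) (by linarith) (by norm_num)
  have hq0 : 0 < (mR κ X : ℝ) ^ (1 / 4 : ℝ) := by positivity
  have e7 : (mR κ X : ℝ) ^ (1 / 4 : ℝ) * (1 / (mR κ X : ℝ) ^ (11 / 2 : ℝ)) ≤ 1 / (mR κ X : ℝ) ^ 5 * (1 / 2) := by
    have h5 : (mR κ X : ℝ) ^ (11 / 2 : ℝ) =
        (mR κ X : ℝ) ^ 5 * (mR κ X : ℝ) ^ (1 / 4 : ℝ) * (mR κ X : ℝ) ^ (1 / 4 : ℝ) := by
      rw [← Real.rpow_natCast, ← Real.rpow_add hR0, ← Real.rpow_add hR0]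
      congr 1
      norm_num
    rw [h5]
    have h6 : (mR κ X : ℝ) ^ (1 / 4 : ℝ) * (1 / ((mR κ X : ℝ) ^ 5 * (mR κ X : ℝ) ^ (1 / 4 : ℝ) *
        (mR κ X : ℝ) ^ (1 / 4 : ℝ))) = 1 / (mR κ X : ℝ) ^ 5 * (1 / (mR κ X : ℝ) ^ (1 / 4 : ℝ)) := by
      field_simp
    rw [h6]
    refine mul_le_mul_of_nonneg_left ?_ (by positivity)
    exact one_div_le_one_div_of_le (by norm_num) e6
  have e8 : 1 / (mR κ X : ℝ) ^ 6 ≤ 1 / (mR κ X : ℝ) ^ 5 * (1 / 2) := by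
    have h6 : 1 / (mR κ X : ℝ) ^ 6 = 1 / (mR κ X : ℝ) ^ 5 * (1 / (mR κ X : ℝ)) := by
      field_simp
    rw [h6]
    refine mul_le_mul_of_nonneg_left ?_ (by positivity)
    exact one_div_le_one_div_of_le (by norm_num) (by linarith)
  rw [e4]
  calc _ ≤ 1 / (mR κ X : ℝ) ^ 6 + ∑ p ∈ box3 κ X, 1 / (mR κ X : ℝ) ^ (11 / 2 : ℝ) :=
        (norm_add_le _ _).trans (add_le_add e1 ((norm_sum_le _ _).trans (sum_le_sum e3)))
    _ = 1 / (mR κ X : ℝ) ^ 6 + ((box3 κ X).card : ℝ) * (1 / (mR κ X : ℝ) ^ (11 / 2 : ℝ)) := by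
        rw [sum_const, nsmul_eq_mul]
    _ ≤ 1 / (mR κ X : ℝ) ^ 5 * (1 / 2) + 1 / (mR κ X : ℝ) ^ 5 * (1 / 2) := by
        refine add_le_add e8 ((mul_le_mul_of_nonneg_right e5 (by positivity)).trans e7)
    _ = 1 / (mR κ X : ℝ) ^ 5 := by ring

end Pool.Agent.MVD
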