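import Pool.Agent.MVD.Par
import Pool.Agent.SInt.TriB
import Pool.Agent.SInt.FhSq

/-!
Definitions for the decomposition of `Λ χ` into products of three long Dirichlet polynomials.
-/

open Finset Complex MeasureTheory

namespace Pool.Agent.MVD

open Pool.Agent.ANT Pool.Agent.SInt

/-- The triples of dyadic blocks. -/
noncomputable def box3 (κ : ℝ) (X : ℕ) : Finset (ℕ × ℕ × ℕ) :=
  ((range (Nat.log 2 (2 * X) + 1)) ×ˢ (range (Nat.log 2 (2 * X) + 1)) ×ˢ (range (Nat.log 2 (2 * X) + 1))).filter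
    (fun p => mz κ X ≤ 2 ^ p.1 ∧ mz κ X ≤ 2 ^ p.2.1 ∧ mz κ X ≤ 2 ^ p.2.2 ∧ 2 ^ (p.1 + p.2.1 + p.2.2) ≤ 2 * X)

/-- The product of the three Dirichlet polynomials of a box. -/
noncomputable def P3 {r : ℕ} (κ : ℝ) (X : ℕ) (χ : DirichletCharacter ℂ r) (p : ℕ × ℕ × ℕ) (t : ℝ) : ℂ :=
  PC LamN χ (2 ^ p.1) t * PC (fun n => az (mz κ X - 1) n) χ (2 ^ p.2.1) t *
    PC (fun n => az (mz κ X - 1) n) χ (2 ^ p.2.2) t

/-- The product of the three long factors. -/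
noncomputable def A3 (κ : ℝ) (X n : ℕ) : ℂ := (HiL (mz κ X - 1) * az (mz κ X - 1) * az (mz κ X - 1)) n

/-- The part of `A3` in one box. -/
noncomputable def B3 (κ : ℝ) (X : ℕ) (p : ℕ × ℕ × ℕ) : ℕ → ℂ :=
  cv (dy LamN (2 ^ p.1)) (cv (dy (fun n => az (mz κ X - 1) n) (2 ^ p.2.1)) (dy (fun n => az (mz κ X - 1) n) (2 ^ p.2.2)))

end Pool.Agent.MVD
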