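import Pool.Agent.MVD.BoxDef
import Pool.Agent.MVD.Ident
import Pool.Agent.MVD.Smooth

/-!
# Module BoxS: the smooth parts of the three factor identity are negligible

`z = mz κ X`, `U = z - 1`. For `v ≥ mV` (`≥ 2 mD`), `GD(v - n) ≠ 0` needs `n > v - D ≥ D ≥ z > U` (ParOK: `z ≤ 2R^17`, `D ≥ X/(10R^4) ≥ R^{900}`), so in
`LAh (twc LamN χ) (2X) D v` the function `Λ` may be replaced by the right side of ident3' (`LAh` is linear in the sequence). The four smooth parts are negligible: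
neg_T1, neg_T2 (`χ ≠ 1` since `χ` is primitive mod `r ≥ 2`) with `M = U^3 ≤ 8 R^51`, `B = 2 τ(m) (1 + log m) ≤ R` for `m ≤ 2X` (tau_le_R, log_le_R), `Z = 2X`, `r ≤ R`, `1/D ≤ 10 R^4/X`: each is at most
`C R · 8 R^51 √(2X) R · (1 + log 2X)² · 10 R^4 / X ≤ X^(-1/2) R^60 ≤ R^(-7)` as `R^1000 ≤ X` (`ParOK.Rpow`).
-/

open Finset Complex MeasureTheory

namespace Pool.Agent.MVD

open Pool.Agent.ANT Pool.Agent.SInt

namespace BoxSAux

theorem prim_ne_one {r : ℕ} (hr : 2 ≤ r) {χ : DirichletCharacter ℂ r} (hχ : χ ∈ Prim r) : χ ≠ 1 := by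
  have : NeZero r := ⟨by omega⟩
  rintro rfl
  rw [mem_Prim, DirichletCharacter.isPrimitive_def, DirichletCharacter.conductor_one] at hχ
  omega

theorem LAh_split {r : ℕ} (χ : DirichletCharacter ℂ r) (a b c1 c2 c3 c4 : ℕ → ℂ) (Z D : ℕ) (v : ℤ)
    (h : ∀ n ∈ Icc 1 Z, a n = b n + c1 n + c2 n + c3 n + c4 n ∨ GD D ((v : ℝ) - n) = 0) :
    LAh (twc a χ) Z D v - LAh (twc b χ) Z D v =
      LAh (twc c1 χ) Z D v + LAh (twc c2 χ) Z D v + LAh (twc c3 χ) Z D v + LAh (twc c4 χ) Z D v := by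
  unfold LAh
  rw [← Finset.sum_sub_distrib, ← Finset.sum_add_distrib, ← Finset.sum_add_distrib,
    ← Finset.sum_add_distrib]
  refine Finset.sum_congr rfl fun n hn => ?_
  unfold twc
  rcases h n hn with h1 | h1
  · rw [h1]
    ring
  · rw [h1]
    simp

/-- the numerical estimate for one smooth part -/
theorem num {c R X D M B r L S : ℝ} (hR : 100 ≤ R) (hX : R ^ 1000 ≤ X) (hD : 0 < D)
    (hXD : X ≤ 10 * (D * R ^ 4)) (hc : c ≤ R) (hB0 : 0 ≤ B) (hB : B ≤ R)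
    (hM0 : 0 ≤ M) (hM : M ≤ 8 * R ^ 51) (hr0 : 0 ≤ r) (hr : r ≤ R) (hL0 : 0 ≤ L) (hL : L ≤ R)
    (hS0 : 0 ≤ S) (hS : S ≤ 2 * √X) :
    c * B * M * S * r * L / D ≤ 1 / (4 * R ^ 6) := by
  have hR0 : (0 : ℝ) < R := by linarith
  have hX0 : (0 : ℝ) < X := lt_of_lt_of_le (by positivity) hX
  have hsq : R ^ 500 ≤ √X := by
    apply Real.le_sqrt_of_sq_le
    calc (R ^ 500) ^ 2 = R ^ 1000 := by rw [← pow_mul]
      _ ≤ X := hX
  have hs0 : 0 < √X := Real.sqrt_pos.2 hX0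
  have hss : √X * √X = X := Real.mul_self_sqrt hX0.le
  rw [div_le_div_iff₀ hD (by positivity)]
  have h1 : c * B * M * S * r * L ≤ R * R * (8 * R ^ 51) * (2 * √X) * R * R := by
    gcongr
  have h2 : c * B * M * S * r * L * (4 * R ^ 6) ≤ 64 * (R ^ 61 * √X) := by
    calc c * B * M * S * r * L * (4 * R ^ 6)
        ≤ R * R * (8 * R ^ 51) * (2 * √X) * R * R * (4 * R ^ 6) := by gcongr
      _ = 64 * (R ^ 61 * √X) := by ring
  refine h2.trans ?_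
  rw [one_mul]
  have h3 : 640 * R ^ 65 ≤ √X := by
    have h4 : (640 : ℝ) ≤ R ^ 2 := by nlinarith
    have h5 : R ^ 67 ≤ R ^ 500 := pow_le_pow_right₀ (by linarith) (by norm_num)
    calc 640 * R ^ 65 ≤ R ^ 2 * R ^ 65 := by gcongr
      _ = R ^ 67 := by ring
      _ ≤ R ^ 500 := h5
      _ ≤ √X := hsq
  have h4 : 64 * (R ^ 61 * √X) * (10 * R ^ 4) ≤ D * (10 * R ^ 4) := by
    calc 64 * (R ^ 61 * √X) * (10 * R ^ 4) = (640 * R ^ 65) * √X := by ring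
      _ ≤ √X * √X := by gcongr
      _ = X := hss
      _ ≤ 10 * (D * R ^ 4) := hXD
      _ = D * (10 * R ^ 4) := by ring
  exact le_of_mul_le_mul_right h4 (by positivity)

theorem two_pow_le {R W D X e : ℕ} (he : 22 ≤ e) (hR : 100 ≤ R) (h1 : R ^ e ≤ X) (h2 : X ≤ 5 * W)
    (h3 : W ≤ 2 * (D * R ^ 4)) : 2 * R ^ 17 ≤ D := by
  have hR0 : 0 < R := by omega
  obtain ⟨f, rfl⟩ : ∃ f, e = f + 4 := ⟨e - 4, by omega⟩
  have h4 : R ^ f * R ^ 4 ≤ 10 * D * R ^ 4 := by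
    calc R ^ f * R ^ 4 = R ^ (f + 4) := (pow_add R f 4).symm
      _ ≤ X := h1
      _ ≤ 5 * W := h2
      _ ≤ 5 * (2 * (D * R ^ 4)) := by omega
      _ = 10 * D * R ^ 4 := by ring
  have h6 : R ^ f ≤ 10 * D := Nat.le_of_mul_le_mul_right h4 (by positivity)
  have h7 : R ^ 18 ≤ R ^ f := Nat.pow_le_pow_right hR0 (by omega)
  have h8 : 100 * R ^ 17 ≤ R ^ 18 := by
    rw [pow_succ R 17, mul_comm]
    exact Nat.mul_le_mul_left _ hR
  omega

end BoxSAux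

open BoxSAux in
theorem box_smooth {κ : ℝ} (hκ : 0 < κ) (hκ1 : κ ≤ 1 / 1000) : ∃ X₀ : ℕ, ∀ X : ℕ, X₀ ≤ X →
    ∀ r : ℕ, 2 ≤ r → r ≤ mR κ X → ∀ χ ∈ Prim r, ∀ v : ℤ, (mV κ X : ℤ) ≤ v → v + mD κ X ≤ 2 * X →
    ‖LAh (twc LamN χ) (2 * X) (mD κ X) v - LAh (twc (A3 κ X) χ) (2 * X) (mD κ X) v‖ ≤
      1 / (mR κ X : ℝ) ^ 6 := by
  obtain ⟨C1, hC1, hT1⟩ := neg_T1
  obtain ⟨C2, hC2, hT2⟩ := neg_T2
  obtain ⟨x0, hx0⟩ := par_ok hκ hκ1
  obtain ⟨x1, hx1⟩ := log_le_R hκ hκ1 9 2 one_pos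
  obtain ⟨x2, hx2⟩ := log_le_R hκ hκ1 (C1 + C2) 0 one_pos
  obtain ⟨x3, hx3⟩ := log_le_R hκ hκ1 6 1 (δ := 1 / 2) (by norm_num)
  obtain ⟨x4, hx4⟩ := tau_le_R hκ hκ1 (δ := 1 / 2) (by norm_num)
  refine ⟨max (max x0 x1) (max x2 (max x3 x4)), fun X hX r hr hrR χ hχ v hv _ => ?_⟩
  simp only [max_le_iff] at hX
  obtain ⟨⟨g0, g1⟩, g2, g3, g4⟩ := hX
  have P := hx0 X g0
  have L1 := hx1 X g1
  have L2 := hx2 X g2
  have L3 := hx3 X g3
  have T4 := hx4 X g4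
  rw [Real.rpow_one] at L1 L2
  rw [pow_zero, mul_one] at L2
  rw [pow_one] at L3
  have pRp := P.Rpow
  set R := mR κ X with hRdef
  set D := mD κ X with hDdef
  have hX3 : 1000 ≤ X := P.X3
  have hR100 : 100 ≤ R := P.R2
  have hR100' : (100 : ℝ) ≤ R := by exact_mod_cast hR100
  have pz2 : mz κ X ≤ 2 * R ^ 17 := P.z2
  have pz1 : R ^ 17 ≤ mz κ X := P.z1
  have pW2 : X ≤ 5 * mW X := P.W2
  have pD2 : mW X ≤ 2 * (D * R ^ 4) := P.D2
  have hR0 : (0 : ℝ) < R := by linarith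
  -- the logarithm
  have hXr : (1000 : ℝ) ≤ X := by exact_mod_cast hX3
  have hX0 : (0 : ℝ) < X := by linarith
  have hlog1 : 1 ≤ Real.log X := by
    rw [Real.le_log_iff_exp_le hX0]
    linarith [Real.exp_one_lt_d9]
  have hlog2 : Real.log ((2 * X : ℕ) : ℝ) ≤ 1 + Real.log X := by
    push_cast
    rw [Real.log_mul (by norm_num) hX0.ne']
    linarith [Real.log_two_lt_d9]
  have hlog0 : 0 ≤ Real.log ((2 * X : ℕ) : ℝ) := Real.log_natCast_nonneg _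
  have hL3 : 1 + Real.log ((2 * X : ℕ) : ℝ) ≤ 3 * Real.log X := by linarith
  -- the constant `U`
  have hD17 : 2 * R ^ 17 ≤ D := two_pow_le (e := 1000) (by norm_num) hR100 pRp pW2 pD2
  have hzD : mz κ X ≤ D := pz2.trans hD17
  have hz2 : 2 ≤ mz κ X := by
    refine le_trans ?_ pz1
    calc 2 ≤ R := by omega
      _ ≤ R ^ 17 := Nat.le_self_pow (by norm_num) R
  have hU : 1 ≤ mz κ X - 1 := by omega
  have hD1 : 1 ≤ D := by omega
  obtain ⟨α0, α1, β0, β1, hsup, hbd, hid⟩ := ident3' hU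
  have hB : ∀ m, m ≤ 2 * X → 2 * tauR m * (1 + Real.log m) ≤ R := by
    intro m hm
    rcases Nat.eq_zero_or_pos m with h0 | h0
    · subst h0
      have : tauR 0 = 0 := by simp [tauR]
      rw [this]
      simp
    · have h1 : tauR m ≤ (R : ℝ) ^ (1 / 2 : ℝ) := by
        apply T4 m (by omega)
        calc m ≤ 2 * X := hm
          _ ≤ X * X := Nat.mul_le_mul_right _ (by omega)
          _ = X ^ 2 := (sq X).symm
          _ ≤ X ^ 4 := Nat.pow_le_pow_right (by omega) (by norm_num)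
      have h2 : Real.log m ≤ Real.log ((2 * X : ℕ) : ℝ) :=
        Real.log_le_log (by exact_mod_cast h0) (by exact_mod_cast hm)
      have h3 : 0 ≤ Real.log m := Real.log_natCast_nonneg _
      have h4 : 2 * (1 + Real.log m) ≤ (R : ℝ) ^ (1 / 2 : ℝ) := by linarith
      have h5 : (R : ℝ) ^ (1 / 2 : ℝ) * (R : ℝ) ^ (1 / 2 : ℝ) = R := by
        rw [← Real.rpow_add hR0]
        norm_num
      calc 2 * tauR m * (1 + Real.log m) = tauR m * (2 * (1 + Real.log m)) := by ring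
        _ ≤ (R : ℝ) ^ (1 / 2 : ℝ) * (R : ℝ) ^ (1 / 2 : ℝ) := by
          apply mul_le_mul h1 h4 (by linarith) (by positivity)
        _ = R := h5
  have hA3 : A3 κ X = fun n => (HiL (mz κ X - 1) * az (mz κ X - 1) * az (mz κ X - 1)) n := rfl
  have key := LAh_split χ LamN (A3 κ X) (cv α0 (fun _ => 1))
    (cv α1 (fun l => ((Real.log l : ℝ) : ℂ))) (cv β0 (cv (fun _ => 1) (fun _ => 1)))
    (cv β1 (cv (fun _ => 1) (fun l => ((Real.log l : ℝ) : ℂ)))) (2 * X) D v (by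
      intro n _
      by_cases hn : mz κ X - 1 < n
      · left
        rw [hA3]
        exact hid n hn
      · right
        apply GD_eq_zero hD1
        have h1 : n ≤ D := by omega
        have h2 : (2 * D : ℤ) ≤ v := by
          have h3 : ((2 * D : ℕ) : ℤ) ≤ (mV κ X : ℤ) := by exact_mod_cast P.DV
          push_cast at h3
          linarith
        have h3 : (2 * D : ℝ) ≤ v := by exact_mod_cast h2
        have h4 : (n : ℝ) ≤ D := by exact_mod_cast h1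
        exact le_trans (by linarith) (le_abs_self _))
  rw [key]
  -- parameters of the estimates
  set M := (mz κ X - 1) ^ 3 with hM
  have hMle : (M : ℝ) ≤ 8 * (R : ℝ) ^ 51 := by
    have h1 : M ≤ (2 * R ^ 17) ^ 3 := Nat.pow_le_pow_left (by omega) 3
    have h2 : (2 * R ^ 17) ^ 3 = 8 * R ^ 51 := by ring
    rw [h2] at h1
    exact_mod_cast h1
  have hXp : (R : ℝ) ^ 1000 ≤ X := by exact_mod_cast pRp
  have hDr : (0 : ℝ) < D := by exact_mod_cast hD1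
  have hXD : (X : ℝ) ≤ 10 * ((D : ℝ) * (R : ℝ) ^ 4) := by
    have h1 : X ≤ 10 * (D * R ^ 4) := by omega
    exact_mod_cast h1
  have hrr : (r : ℝ) ≤ R := by exact_mod_cast hrR
  have hr0 : (0 : ℝ) ≤ r := Nat.cast_nonneg _
  have hLsq : (1 + Real.log ((2 * X : ℕ) : ℝ)) ^ 2 ≤ R := by
    calc (1 + Real.log ((2 * X : ℕ) : ℝ)) ^ 2 ≤ (3 * Real.log X) ^ 2 := by gcongr
      _ = 9 * Real.log X ^ 2 := by ring
      _ ≤ R := L1
  have hL1 : 1 + Real.log ((2 * X : ℕ) : ℝ) ≤ R := by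
    refine le_trans ?_ hLsq
    nlinarith
  have hS2 : √((2 * X : ℕ) : ℝ) ≤ 2 * √(X : ℝ) := by
    have h1 : ((2 * X : ℕ) : ℝ) ≤ 2 ^ 2 * (X : ℝ) := by
      push_cast
      linarith
    calc √((2 * X : ℕ) : ℝ) ≤ √(2 ^ 2 * (X : ℝ)) := Real.sqrt_le_sqrt h1
      _ = 2 * √(X : ℝ) := by rw [Real.sqrt_mul (by positivity), Real.sqrt_sq (by norm_num)]
  have hS1 : (1 : ℝ) ≤ 2 * √(X : ℝ) := by
    have : (1 : ℝ) ≤ √(X : ℝ) := by
      rw [Real.one_le_sqrt]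
      linarith
    linarith
  have hχ1 := prim_ne_one hr hχ
  have hZ1 : 1 ≤ 2 * X := by omega
  have e0 : (fun _ : ℕ => (1 : ℂ)) = fun l : ℕ => ((Real.log l ^ 0 : ℝ) : ℂ) := by
    funext l
    simp
  have e1 : (fun l : ℕ => ((Real.log l : ℝ) : ℂ)) = fun l : ℕ => ((Real.log l ^ 1 : ℝ) : ℂ) := by
    funext l
    rw [pow_one]
  have t1 : ‖LAh (twc (cv α0 (fun _ => 1)) χ) (2 * X) D v‖ ≤ 1 / (4 * (R : ℝ) ^ 6) := by
    rw [e0]
    refine (hT1 r χ (2 * X) D 0 M R α0 v (by omega) hχ1 hZ1 hD1 (by omega) hR0.le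
      (fun m hm => ((hbd m).1).trans (hB m hm)) (fun m hm => (hsup m hm).1)).trans ?_
    have := num (c := C1) (B := R) (M := M) (r := r) (S := 1) (L := 1 + Real.log ((2 * X : ℕ) : ℝ))
      hR100' hXp hDr hXD (by linarith) hR0.le le_rfl (Nat.cast_nonneg _) hMle hr0 hrr (by linarith)
      hL1 zero_le_one hS1
    rwa [mul_one] at this
  have t2 : ‖LAh (twc (cv α1 (fun l => ((Real.log l : ℝ) : ℂ))) χ) (2 * X) D v‖ ≤
      1 / (4 * (R : ℝ) ^ 6) := by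
    rw [e1]
    refine (hT1 r χ (2 * X) D 1 M R α1 v (by omega) hχ1 hZ1 hD1 (by omega) hR0.le
      (fun m hm => ((hbd m).2.1).trans (hB m hm)) (fun m hm => (hsup m hm).2.1)).trans ?_
    have := num (c := C1) (B := R) (M := M) (r := r) (S := 1) (L := 1 + Real.log ((2 * X : ℕ) : ℝ))
      hR100' hXp hDr hXD (by linarith) hR0.le le_rfl (Nat.cast_nonneg _) hMle hr0 hrr (by linarith)
      hL1 zero_le_one hS1
    rwa [mul_one] at this
  have t3 : ‖LAh (twc (cv β0 (cv (fun _ => 1) (fun _ => 1))) χ) (2 * X) D v‖ ≤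
      1 / (4 * (R : ℝ) ^ 6) := by
    have e : cv β0 (cv (fun _ => 1) (fun _ => 1)) =
        cv β0 (cv (fun _ => 1) (fun l : ℕ => ((Real.log l ^ 0 : ℝ) : ℂ))) := by
      rw [← e0]
    rw [e]
    refine (hT2 r χ (2 * X) D 0 M R β0 v (by omega) hχ1 hZ1 hD1 (by omega) hR0.le
      (fun m hm => ((hbd m).2.2.1).trans (hB m hm)) (fun m hm => (hsup m hm).2.2.1)).trans ?_
    exact num (c := C2) (B := R) (M := M) (r := r) (S := √((2 * X : ℕ) : ℝ))
      (L := (1 + Real.log ((2 * X : ℕ) : ℝ)) ^ 2)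
      hR100' hXp hDr hXD (by linarith) hR0.le le_rfl (Nat.cast_nonneg _) hMle hr0 hrr (by positivity)
      hLsq (Real.sqrt_nonneg _) hS2
  have t4 : ‖LAh (twc (cv β1 (cv (fun _ => 1) (fun l => ((Real.log l : ℝ) : ℂ)))) χ) (2 * X) D v‖ ≤
      1 / (4 * (R : ℝ) ^ 6) := by
    rw [e1]
    refine (hT2 r χ (2 * X) D 1 M R β1 v (by omega) hχ1 hZ1 hD1 (by omega) hR0.le
      (fun m hm => ((hbd m).2.2.2).trans (hB m hm)) (fun m hm => (hsup m hm).2.2.2)).trans ?_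
    exact num (c := C2) (B := R) (M := M) (r := r) (S := √((2 * X : ℕ) : ℝ))
      (L := (1 + Real.log ((2 * X : ℕ) : ℝ)) ^ 2)
      hR100' hXp hDr hXD (by linarith) hR0.le le_rfl (Nat.cast_nonneg _) hMle hr0 hrr (by positivity)
      hLsq (Real.sqrt_nonneg _) hS2
  have h6 : (0 : ℝ) < (R : ℝ) ^ 6 := by positivity
  have hfin : 1 / (4 * (R : ℝ) ^ 6) + 1 / (4 * (R : ℝ) ^ 6) + 1 / (4 * (R : ℝ) ^ 6) +
      1 / (4 * (R : ℝ) ^ 6) = 1 / (R : ℝ) ^ 6 := by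
    field_simp
    norm_num
  rw [← hfin]
  refine (norm_add_le _ _).trans (add_le_add ?_ t4)
  refine (norm_add_le _ _).trans (add_le_add ?_ t3)
  exact (norm_add_le _ _).trans (add_le_add t1 t2)

end Pool.Agent.MVD
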