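import Pool.Agent.MVD.KSDef

/-!
# Module RamChar: Fourier expansion over the characters mod `s`

`ram_char`: Fourier expansion on the group of units mod `s` of `n ↦ G(n) = ∑_{a ∈ red s} e(a(v-n)/s)` (`(n,s)=1`, `G` depends on `n` mod `s`):
`G(n) = (1/φ(s)) ∑_χ χ(n) ∑_{m ∈ red s} χ̄(m) G(m)` (orthogonality: sum_char_conj in Lib/ANT/LSMult, or Mathlib's
DirichletCharacter.sum_char_inv_mul_char_eq), and `∑_m χ̄(m) ∑_a e(av/s) e(-am/s)`: for fixed `a` (coprime to `s`) substitute `m = a⁻¹ m'`: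
`χ̄(m) = χ(a) χ̄(m')`, which gives `∑_a χ(a) e(av/s) ∑_{m'} χ̄(m') e(-m'/s) = KS χ v`.
-/

open Finset Complex
open scoped ArithmeticFunction.Moebius

namespace Pool.Agent.MVD

open Pool.Agent.ANT Pool.Agent.SInt

namespace RamCharAux

lemma orth {s : ℕ} [NeZero s] (b c : ZMod s) :
    ∑ χ : DirichletCharacter ℂ s, χ b * χ⁻¹ c = if b = c ∧ IsUnit c then (s.totient : ℂ) else 0 := by
  rw [← sum_char_conj]
  refine Finset.sum_congr rfl fun χ _ => ?_
  rw [← MulChar.star_eq_inv]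
  rfl

lemma mem_red {s a : ℕ} : a ∈ red s ↔ a < s ∧ a.Coprime s := by
  rw [red, Finset.mem_filter, Finset.mem_range]

lemma ee_mod {s : ℕ} (hs : 1 ≤ s) (k : ℕ) :
    ee (-(((k % s : ℕ) : ℝ) / s)) = ee (-((k : ℝ) / s)) := by
  have hs0 : (s : ℝ) ≠ 0 := by positivity
  have h1 : (k : ℝ) = ((k % s : ℕ) : ℝ) + s * ((k / s : ℕ) : ℝ) := by
    exact_mod_cast (Nat.mod_add_div k s).symm
  have h2 : -((k : ℝ) / s) = -(((k % s : ℕ) : ℝ) / s) - (((k / s : ℕ) : ℤ) : ℝ) := by
    rw [Int.cast_natCast]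
    nth_rewrite 1 [h1]
    field_simp
    ring
  rw [h2, ee_sub_int]

end RamCharAux

open RamCharAux

theorem ram_char {s : ℕ} (hs : 1 ≤ s) (v : ℤ) {n : ℕ} (hn : n.Coprime s) :
    ∑ a ∈ red s, ee (a * ((v : ℝ) - n) / s) =
      1 / (s.totient : ℂ) * ∑ χ : DirichletCharacter ℂ s, χ (n : ZMod s) * KS χ v := by
  have : NeZero s := ⟨by omega⟩
  have hs0 : (s : ℝ) ≠ 0 := by positivity
  have hphi : (s.totient : ℂ) ≠ 0 := by
    have : 0 < s.totient := Nat.totient_pos.2 (by omega)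
    exact_mod_cast this.ne'
  have hexp : ∑ χ : DirichletCharacter ℂ s, χ (n : ZMod s) * KS χ v =
      ∑ a ∈ red s, ∑ m ∈ red s, (ee (a * v / s) * ee (-(m / s))) *
        ∑ χ : DirichletCharacter ℂ s, χ ((n : ZMod s) * (a : ZMod s)) * χ⁻¹ (m : ZMod s) := by
    have h1 : ∀ χ : DirichletCharacter ℂ s, χ (n : ZMod s) * KS χ v =
        ∑ a ∈ red s, ∑ m ∈ red s, (ee (a * v / s) * ee (-(m / s))) *
          (χ ((n : ZMod s) * (a : ZMod s)) * χ⁻¹ (m : ZMod s)) := by
      intro χ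
      rw [KS, Finset.sum_mul_sum, Finset.mul_sum]
      refine Finset.sum_congr rfl fun a _ => ?_
      rw [Finset.mul_sum]
      refine Finset.sum_congr rfl fun m _ => ?_
      rw [map_mul]
      ring
    rw [Finset.sum_congr rfl fun χ _ => h1 χ, Finset.sum_comm]
    refine Finset.sum_congr rfl fun a _ => ?_
    rw [Finset.sum_comm]
    refine Finset.sum_congr rfl fun m _ => ?_
    rw [Finset.mul_sum]
  rw [hexp, Finset.mul_sum]
  refine Finset.sum_congr rfl fun a ha => ?_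
  obtain ⟨ha1, ha2⟩ := mem_red.1 ha
  have hna : (n * a).Coprime s := Nat.Coprime.mul_left hn ha2
  have hmem : (n * a) % s ∈ red s := by
    rw [mem_red]
    refine ⟨Nat.mod_lt _ (by omega), ?_⟩
    rw [Nat.Coprime, ← Nat.gcd_rec]
    exact hna.symm
  rw [Finset.sum_eq_single ((n * a) % s)]
  · have hu : IsUnit (((n * a) % s : ℕ) : ZMod s) := by
      rw [ZMod.isUnit_iff_coprime]
      exact (mem_red.1 hmem).2
    have he : (n : ZMod s) * (a : ZMod s) = (((n * a) % s : ℕ) : ZMod s) := by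
      rw [ZMod.natCast_mod, Nat.cast_mul]
    rw [orth, if_pos ⟨he, hu⟩, ee_mod hs, ← ee_add]
    have hx : (a : ℝ) * v / s + -(((n * a : ℕ) : ℝ) / s) = a * ((v : ℝ) - n) / s := by
      push_cast
      field_simp
      ring
    rw [hx]
    field_simp
  · intro m hm hne
    have hne' : ¬ ((n : ZMod s) * (a : ZMod s) = (m : ZMod s)) := by
      intro h
      apply hne
      rw [← Nat.cast_mul, ZMod.natCast_eq_natCast_iff] at h
      have h2 : (n * a) % s = m % s := h
      rw [h2, Nat.mod_eq_of_lt (mem_red.1 hm).1]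
    rw [orth, if_neg (fun h => hne' h.1), mul_zero]
  · intro h
    exact absurd hmem h

end Pool.Agent.MVD
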