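import Pool.Agent.MVD.Defs
import Pool.Agent.Lib.ANT.BVRed

/-!
# Module Regroup: characters and primitive characters

`regroup`: every character mod `s`, `1 ≤ s ≤ R`, is `changeLevel` of exactly one primitive character of modulus `r ∣ s`
(prim_injective in Lib/ANT/BVRed; `DirichletCharacter.changeLevel_primitiveCharacter`, `DirichletCharacter.conductor`); put `s = r k`. The pairs `(s,χ)`, `s ≤ R`, correspond to the triples
`(r, χ₀, k)`, `r ≤ R`, `χ₀ ∈ Prim r`, `k ≤ R/r`. `Prim r` is the finset of primitive characters mod `r`.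
-/

open Finset Complex

namespace Pool.Agent.MVD

open Pool.Agent.ANT Pool.Agent.SInt

namespace RegroupAux

/-- `F s` at the character mod `s` induced by `x` -/
noncomputable def G (F : (s : ℕ) → DirichletCharacter ℂ s → ℂ) (s : ℕ)
    (x : Σ r : ℕ, DirichletCharacter ℂ r) : ℂ :=
  if h : x.1 ∣ s then F s (DirichletCharacter.changeLevel h x.2) else 0

theorem sig_eq {s : ℕ} [NeZero s] {x y : Σ r : ℕ, DirichletCharacter ℂ r} (h1 : x.1 = y.1)
    (hx : x.1 ∣ s) (hy : y.1 ∣ s)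
    (h : DirichletCharacter.changeLevel hx x.2 = DirichletCharacter.changeLevel hy y.2) : x = y := by
  obtain ⟨x1, x2⟩ := x
  obtain ⟨y1, y2⟩ := y
  simp only at h1
  subst h1
  have := DirichletCharacter.changeLevel_injective hx h
  simp only at this
  rw [this]

theorem one {s : ℕ} (hs : 1 ≤ s) (F : (s : ℕ) → DirichletCharacter ℂ s → ℂ) :
    ∑ χ : DirichletCharacter ℂ s, F s χ = ∑ r ∈ s.divisors, ∑ χ ∈ Prim r, G F s ⟨r, χ⟩ := by
  classical
  have : NeZero s := ⟨by omega⟩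
  rw [Finset.sum_sigma' (f := fun r χ => G F s ⟨r, χ⟩)]
  refine Finset.sum_bij
    (fun (χ : DirichletCharacter ℂ s) _ =>
      (⟨χ.conductor, χ.primitiveCharacter⟩ : Σ r : ℕ, DirichletCharacter ℂ r)) ?_ ?_ ?_ ?_
  · intro χ _
    exact Finset.mem_sigma.mpr ⟨Nat.mem_divisors.mpr ⟨χ.conductor_dvd_level, NeZero.ne s⟩,
      mem_Prim.mpr χ.primitiveCharacter_isPrimitive⟩
  · intro χ _ ψ _ h
    exact prim_injective h
  · rintro ⟨r, χ₀⟩ hx
    obtain ⟨h1, h2⟩ := Finset.mem_sigma.mp hx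
    have hr : r ∣ s := (Nat.mem_divisors.mp h1).1
    have hp : χ₀.IsPrimitive := mem_Prim.mp h2
    refine ⟨DirichletCharacter.changeLevel hr χ₀, Finset.mem_univ _, ?_⟩
    have hc : (DirichletCharacter.changeLevel hr χ₀).conductor = r := by
      rw [DirichletCharacter.conductor_changeLevel]
      exact hp
    refine sig_eq (s := s) hc (DirichletCharacter.conductor_dvd_level _) hr ?_
    simp only
    rw [DirichletCharacter.changeLevel_primitiveCharacter]
  · intro χ _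
    unfold G
    rw [dif_pos χ.conductor_dvd_level, DirichletCharacter.changeLevel_primitiveCharacter]

theorem mult {R r : ℕ} (hr : 1 ≤ r) (f : ℕ → ℂ) :
    ∑ s ∈ (Icc 1 R).filter (fun s => r ∣ s), f s = ∑ k ∈ Icc 1 (R / r), f (r * k) := by
  symm
  refine Finset.sum_nbij' (fun k => r * k) (fun s => s / r) ?_ ?_ ?_ ?_ ?_
  · intro k hk
    rw [mem_Icc] at hk
    rw [mem_filter, mem_Icc]
    refine ⟨⟨Nat.one_le_iff_ne_zero.2 (Nat.mul_ne_zero (by omega) (by omega)), ?_⟩, Dvd.intro k rfl⟩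
    exact (Nat.mul_le_mul_left r hk.2).trans (Nat.mul_div_le R r)
  · intro s hs
    rw [mem_filter, mem_Icc] at hs
    rw [mem_Icc]
    obtain ⟨⟨h1, h2⟩, h3⟩ := hs
    exact ⟨Nat.div_pos (Nat.le_of_dvd h1 h3) hr, Nat.div_le_div_right h2⟩
  · intro k _
    exact Nat.mul_div_cancel_left k hr
  · intro s hs
    rw [mem_filter] at hs
    exact Nat.mul_div_cancel' hs.2
  · intro k _
    rfl

end RegroupAux

open RegroupAux in
theorem regroup (R : ℕ) (F : (s : ℕ) → DirichletCharacter ℂ s → ℂ) :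
    ∑ s ∈ Icc 1 R, ∑ χ : DirichletCharacter ℂ s, F s χ =
      ∑ r ∈ Icc 1 R, ∑ χ ∈ Prim r, ∑ k ∈ Icc 1 (R / r),
        F (r * k) (DirichletCharacter.changeLevel (Dvd.intro k rfl : r ∣ r * k) χ) := by
  have h1 : ∀ s ∈ Icc 1 R, ∑ χ : DirichletCharacter ℂ s, F s χ =
      ∑ r ∈ Icc 1 R, if r ∣ s then ∑ χ ∈ Prim r, G F s ⟨r, χ⟩ else 0 := by
    intro s hs
    rw [mem_Icc] at hs
    rw [one hs.1 F, ← Finset.sum_filter]
    refine Finset.sum_congr ?_ fun _ _ => rfl
    ext r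
    rw [Nat.mem_divisors, mem_filter, mem_Icc]
    constructor
    · rintro ⟨h2, h3⟩
      exact ⟨⟨Nat.pos_of_dvd_of_pos h2 hs.1, (Nat.le_of_dvd hs.1 h2).trans hs.2⟩, h2⟩
    · rintro ⟨_, h3⟩
      exact ⟨h3, by omega⟩
  rw [Finset.sum_congr rfl h1, Finset.sum_comm]
  refine Finset.sum_congr rfl fun r hr => ?_
  rw [mem_Icc] at hr
  rw [← Finset.sum_filter, Finset.sum_comm]
  refine Finset.sum_congr rfl fun χ _ => ?_
  rw [mult hr.1 (fun s => G F s ⟨r, χ⟩)]
  refine Finset.sum_congr rfl fun k _ => ?_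
  unfold G
  rw [dif_pos (Dvd.intro k rfl)]

end Pool.Agent.MVD
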