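import Pool.Agent.MVD.Defs

/-!
The arithmetic factor of the correlation bound.
-/

namespace Pool.Agent.MVD

/-- The arithmetic factor of the correlation bound. -/
noncomputable def corB (r : ℕ) (N x₁ x₂ : ℤ) : ℝ :=
  (Int.gcd x₂ (r / Int.gcd N r : ℕ) : ℝ) * (Int.gcd (x₁ - x₂) (r / Int.gcd N r : ℕ) : ℝ) / (r / Int.gcd N r : ℕ)

end Pool.Agent.MVD
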