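import Pool.Agent.MVD.Defs

/-!
The correlation sum of a character along two linear forms.
-/

open Finset Complex

namespace Pool.Agent.MVD

open Pool.Agent.ANT Pool.Agent.SInt

/-- The correlation sum. -/
noncomputable def SC {r : ℕ} [NeZero r] (χ : DirichletCharacter ℂ r) (N x₁ x₂ : ℤ) : ℂ :=
  ∑ m : ZMod r, χ ((N : ZMod r) - x₁ * m) * (starRingEnd ℂ) (χ ((N : ZMod r) - x₂ * m))

end Pool.Agent.MVD
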