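import Pool.Agent.MVD.Defs

/-!
# Module RamA: Ramanujan sums

`cR_eq`: `∑_{a mod k, (a,k)=1} e(av/k) = ∑_{d ∣ (k,v)} d μ(k/d)` (open the coprimality by Moebius,
`∑_{e ∣ k} μ(e) ∑_{b mod k/e} e(bv/(k/e))`, geometric sum; `d = k/e`). `red k` is the set of `a < k` coprime to `k`, `red 1 = {0}`.
`cR_mul`: from `cR_eq` (divisors of `mn` are the products, `Nat.Coprime.sum_divisors_mul` style) or by the Chinese remainder theorem.
`muC n = ((μ n : ℤ) : ℂ)`.
-/

open Finset Complex
open scoped ArithmeticFunction.Moebius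

namespace Pool.Agent.MVD

open Pool.Agent.ANT Pool.Agent.SInt

namespace RamAAux

theorem full_sum {n : ℕ} (hn : 1 ≤ n) (v : ℤ) :
    ∑ c ∈ range n, ee (c * v / n) = if (n : ℤ) ∣ v then (n : ℂ) else 0 := by
  have : NeZero n := ⟨by omega⟩
  have h1 : ∀ c ∈ range n, ee (c * v / n) =
      (fun b : ZMod n => (ZMod.stdAddChar (N := n)) (b * (v : ZMod n))) (c : ZMod n) := by
    intro c _
    have h2 : ((c : ZMod n) * (v : ZMod n)) = ((c * v : ℤ) : ZMod n) := by push_cast; ring
    simp only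
    rw [h2, ZMod.stdAddChar_coe]
    unfold ee
    congr 1
    push_cast
    ring
  rw [sum_congr rfl h1]
  have h3 : ∑ a ∈ range n, (fun b : ZMod n => (ZMod.stdAddChar (N := n)) (b * (v : ZMod n)))
      (a : ZMod n) = ∑ b : ZMod n, (ZMod.stdAddChar (N := n)) (b * (v : ZMod n)) := by
    refine Finset.sum_nbij' (fun a => (a : ZMod n)) ZMod.val ?_ ?_ ?_ ?_ ?_
    · intro a _; exact mem_univ _
    · intro b _; exact mem_range.2 (ZMod.val_lt b)
    · intro a ha; exact ZMod.val_natCast_of_lt (mem_range.1 ha)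
    · intro b _; exact ZMod.natCast_zmod_val b
    · intro a _; rfl
  rw [h3, AddChar.sum_mulShift _ (ZMod.isPrimitive_stdAddChar n), ZMod.card]
  simp only [ZMod.intCast_zmod_eq_zero_iff_dvd]
  split_ifs <;> simp

theorem sum_mu {n : ℕ} : ∑ e ∈ n.divisors, muC e = if n = 1 then (1 : ℂ) else 0 := by
  have h1 : (ArithmeticFunction.moebius * (ArithmeticFunction.zeta : ArithmeticFunction ℤ)) n =
      (1 : ArithmeticFunction ℤ) n := by rw [ArithmeticFunction.moebius_mul_coe_zeta]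
  rw [ArithmeticFunction.coe_mul_zeta_apply, ArithmeticFunction.one_apply] at h1
  have h2 : ∑ e ∈ n.divisors, muC e = (((∑ e ∈ n.divisors, ArithmeticFunction.moebius e : ℤ)) : ℂ) := by
    push_cast
    rfl
  rw [h2, h1]
  split_ifs <;> simp

theorem cop_ind {k : ℕ} (hk : 1 ≤ k) (b : ℕ) :
    (∑ e ∈ k.divisors, if e ∣ b then muC e else 0) = if b.Coprime k then (1 : ℂ) else 0 := by
  have h0 : (∑ e ∈ k.divisors, if e ∣ b then muC e else 0) = ∑ e ∈ (Nat.gcd b k).divisors, muC e := by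
    rw [← Finset.sum_filter]
    refine Finset.sum_congr ?_ fun _ _ => rfl
    ext e
    simp only [mem_filter, Nat.mem_divisors]
    constructor
    · rintro ⟨⟨h1, h2⟩, h3⟩
      exact ⟨Nat.dvd_gcd h3 h1, by have := Nat.gcd_pos_of_pos_right b hk; omega⟩
    · rintro ⟨h1, h2⟩
      exact ⟨⟨h1.trans (Nat.gcd_dvd_right _ _), by omega⟩, h1.trans (Nat.gcd_dvd_left _ _)⟩
  rw [h0, sum_mu]

theorem mult_sum {k e : ℕ} (hk : 1 ≤ k) (he : e ∣ k) (v : ℤ) :
    ∑ b ∈ range k, (if e ∣ b then ee (b * v / k) else 0) =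
      ∑ c ∈ range (k / e), ee (c * v / ((k / e : ℕ) : ℝ)) := by
  obtain ⟨n, rfl⟩ := he
  have he0 : 0 < e := Nat.pos_of_mul_pos_right hk
  have hn0 : 0 < n := Nat.pos_of_mul_pos_left hk
  rw [Nat.mul_div_cancel_left _ he0, ← sum_filter]
  refine Finset.sum_nbij' (fun b => b / e) (fun c => e * c) ?_ ?_ ?_ ?_ ?_
  · intro b hb
    rw [mem_filter, mem_range] at hb
    rw [mem_range]
    exact Nat.div_lt_of_lt_mul hb.1
  · intro c hc
    rw [mem_range] at hc
    rw [mem_filter, mem_range]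
    exact ⟨Nat.mul_lt_mul_of_pos_left hc he0, dvd_mul_right _ _⟩
  · intro b hb
    rw [mem_filter] at hb
    exact Nat.mul_div_cancel' hb.2
  · intro c _
    exact Nat.mul_div_cancel_left _ he0
  · intro b hb
    rw [mem_filter] at hb
    obtain ⟨c, hc⟩ := hb.2
    have h1 : b / e = c := by rw [hc]; exact Nat.mul_div_cancel_left _ he0
    rw [h1, hc]
    congr 1
    have h2 : (e : ℝ) ≠ 0 := by exact_mod_cast he0.ne'
    have h3 : (n : ℝ) ≠ 0 := by exact_mod_cast hn0.ne'
    push_cast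
    field_simp

/-- The function `d ↦ d 1_{d ∣ v}`. -/
noncomputable def fv (v : ℤ) : ArithmeticFunction ℂ :=
  ⟨fun d => if (d : ℤ) ∣ v then (d : ℂ) else 0, by simp⟩

theorem fv_apply (v : ℤ) (d : ℕ) : fv v d = if (d : ℤ) ∣ v then (d : ℂ) else 0 := rfl

theorem fv_mult (v : ℤ) : (fv v).IsMultiplicative := by
  refine ⟨?_, ?_⟩
  · rw [fv_apply]; simp
  · intro m n h
    rw [fv_apply, fv_apply, fv_apply]
    have h1 : ((m * n : ℕ) : ℤ) ∣ v ↔ (m : ℤ) ∣ v ∧ (n : ℤ) ∣ v := by
      constructor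
      · intro h2
        push_cast at h2
        exact ⟨(dvd_mul_right _ _).trans h2, (dvd_mul_left _ _).trans h2⟩
      · rintro ⟨h2, h3⟩
        push_cast
        exact (Nat.isCoprime_iff_coprime.2 h).mul_dvd h2 h3
    by_cases hm : (m : ℤ) ∣ v
    · by_cases hn : (n : ℤ) ∣ v
      · rw [if_pos (h1.2 ⟨hm, hn⟩), if_pos hm, if_pos hn]
        push_cast
        ring
      · rw [if_neg (fun h2 => hn (h1.1 h2).2), if_neg hn, mul_zero]
    · rw [if_neg (fun h2 => hm (h1.1 h2).1), if_neg hm, zero_mul]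

end RamAAux

open RamAAux

theorem cR_eq {k : ℕ} (hk : 1 ≤ k) (v : ℤ) :
    cR k v = ∑ d ∈ k.divisors, if (d : ℤ) ∣ v then (d : ℂ) * muC (k / d) else 0 := by
  have h1 : cR k v = ∑ b ∈ range k, ∑ e ∈ k.divisors,
      muC e * (if e ∣ b then ee (b * v / k) else 0) := by
    rw [cR, red, sum_filter]
    refine sum_congr rfl fun b _ => ?_
    have h2 : ∑ e ∈ k.divisors, muC e * (if e ∣ b then ee (b * v / k) else 0) =
        (∑ e ∈ k.divisors, if e ∣ b then muC e else 0) * ee (b * v / k) := by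
      rw [sum_mul]
      refine sum_congr rfl fun e _ => ?_
      split_ifs <;> ring
    rw [h2, cop_ind hk]
    split_ifs <;> simp
  rw [h1, sum_comm]
  have h3 : ∀ e ∈ k.divisors, ∑ b ∈ range k, muC e * (if e ∣ b then ee (b * v / k) else 0) =
      (fun d : ℕ => if (d : ℤ) ∣ v then (d : ℂ) * muC (k / d) else 0) (k / e) := by
    intro e he
    have hek := Nat.dvd_of_mem_divisors he
    have hke : 1 ≤ k / e := Nat.div_pos (Nat.le_of_dvd hk hek) (Nat.pos_of_mem_divisors he)
    rw [← mul_sum, mult_sum hk hek, full_sum hke]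
    simp only
    rw [Nat.div_div_self hek (by omega)]
    split_ifs <;> ring
  rw [sum_congr rfl h3,
    Nat.sum_div_divisors k (fun d : ℕ => if (d : ℤ) ∣ v then (d : ℂ) * muC (k / d) else 0)]

theorem cR_mul {m n : ℕ} (hm : 1 ≤ m) (hn : 1 ≤ n) (h : m.Coprime n) (v : ℤ) :
    cR (m * n) v = cR m v * cR n v := by
  have key : ∀ k : ℕ, 1 ≤ k → cR k v =
      (fv v * ((ArithmeticFunction.moebius : ArithmeticFunction ℤ) : ArithmeticFunction ℂ)) k := by
    intro k hk
    rw [cR_eq hk, ArithmeticFunction.mul_apply,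
      Nat.sum_divisorsAntidiagonal (fun a b => fv v a *
        ((ArithmeticFunction.moebius : ArithmeticFunction ℤ) : ArithmeticFunction ℂ) b)]
    refine sum_congr rfl fun d _ => ?_
    rw [fv_apply, ArithmeticFunction.intCoe_apply]
    unfold muC
    split_ifs <;> simp
  rw [key _ (Nat.mul_pos hm hn), key _ hm, key _ hn]
  exact ((fv_mult v).mul ArithmeticFunction.isMultiplicative_moebius.intCast).map_mul_of_coprime h

end Pool.Agent.MVD
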