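import Pool.Agent.MVD.CorDef
import Pool.Agent.MVD.RamA

/-!
# Module CorrB: correlations of a primitive character

`S = ∑_{m mod r} χ(N - x₁ m) χ̄(N - x₂ m)`, `g = (N, r)`. With `χ(x) τ(χ̄) = ∑_u χ̄(u) e(ux/r)` (gauss_expand for `χ⁻¹`, valid for all `x`), `|τ|² = r`:
`S = (1/r) ∑_{u,u'} χ̄(u) χ(u') e((u-u')N/r) · r [u x₁ ≡ u' x₂ (r)]`; put `u = u' w`, `w` a unit: `w x₁ ≡ x₂ (r)`:
`S = ∑_{w unit, w x₁ ≡ x₂} χ̄(w) ∑_{u'} e(u'(w-1)N/r) = ∑_w χ̄(w) c_r((w-1)N)`.
`|c_r(M)| ≤ ∑_{d ∣ (r,M)} d ≤ (r,M)(1 + log r)` (cR_eq, `∑_{d ∣ n} 1/d ≤ 1 + log n`), `(r,(w-1)N) ≤ g (r/g, w-1)`, `(r/g, w-1)` divides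
`(r/g, (w-1)x₁) = (r/g, x₂ - x₁)`; number of units `w` mod `r` with `w x₁ ≡ x₂`: at most `(x₂, r)`
(`w⁻¹` runs through the solutions of `x₂ y = x₁`).
Finally `(x₂, r) = (x₂, r/g)` unless a prime `p` divides `x₂` and `g`; in that case `χ(N - x₂ m) = 0` for all `m` (`p ∣ N - x₂ m`, `p ∣ r`), so `S = 0`.
-/

open Finset Complex

namespace Pool.Agent.MVD

open Pool.Agent.ANT Pool.Agent.SInt

namespace CorrBAux

/-- the number of solutions of `d y = 0` -/
lemma card_mul_eq_zero {r : ℕ} [NeZero r] {d : ℕ} (hd : 0 < d) :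
    ((Finset.univ : Finset (ZMod r)).filter (fun y => (d : ZMod r) * y = 0)).card ≤ d := by
  classical
  have h := IsAddCyclic.card_nsmul_eq_zero_le (α := ZMod r) hd
  refine le_trans (Finset.card_le_card ?_) h
  intro y hy
  simp only [Finset.mem_filter, Finset.mem_univ, true_and] at hy ⊢
  rwa [nsmul_eq_mul]

/-- the number of solutions of `x y = c` -/
lemma card_mul_eq {r : ℕ} [NeZero r] (x : ℤ) (c : ZMod r) :
    ((Finset.univ : Finset (ZMod r)).filter (fun y => (x : ZMod r) * y = c)).card ≤ Int.gcd x r := by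
  classical
  have hr : 0 < r := Nat.pos_of_ne_zero (NeZero.ne r)
  have hg : 0 < Int.gcd x r := Int.gcd_pos_of_ne_zero_right _ (by exact_mod_cast hr.ne')
  rcases Finset.eq_empty_or_nonempty
    ((Finset.univ : Finset (ZMod r)).filter (fun y => (x : ZMod r) * y = c)) with h0 | ⟨y0, hy0⟩
  · rw [h0]; simp
  rw [Finset.mem_filter] at hy0
  refine le_trans ?_ (card_mul_eq_zero (r := r) hg)
  refine Finset.card_le_card_of_injOn (fun y => y - y0) ?_ ?_
  · intro y hy
    have hy' := (Finset.mem_filter.mp (Finset.mem_coe.mp hy)).2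
    refine Finset.mem_coe.mpr (Finset.mem_filter.mpr ⟨Finset.mem_univ _, ?_⟩)
    have h1 : (x : ZMod r) * (y - y0) = 0 := by rw [mul_sub, hy', hy0.2, sub_self]
    have h2 : ((Int.gcd x r : ℕ) : ZMod r) = (x : ZMod r) * ((Int.gcdA x r : ℤ) : ZMod r) := by
      have h3 := congrArg (fun z : ℤ => (z : ZMod r)) (Int.gcd_eq_gcd_ab x r)
      simp only [Int.cast_add, Int.cast_mul, Int.cast_natCast, ZMod.natCast_self, zero_mul,
        add_zero] at h3
      exact h3
    rw [h2]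
    calc (x : ZMod r) * ((Int.gcdA x r : ℤ) : ZMod r) * (y - y0)
        = ((Int.gcdA x r : ℤ) : ZMod r) * ((x : ZMod r) * (y - y0)) := by ring
      _ = 0 := by rw [h1, mul_zero]
  · intro y _ y' _ h
    exact sub_left_injective h

/-- the sum of the divisors -/
lemma sum_div_le {n : ℕ} (hn : 1 ≤ n) :
    ∑ d ∈ n.divisors, (d : ℝ) ≤ n * (1 + Real.log n) := by
  have h1 : ∑ d ∈ n.divisors, (d : ℝ) = ∑ d ∈ n.divisors, (n : ℝ) * (d : ℝ)⁻¹ := by
    rw [← Nat.sum_div_divisors n (fun d => (d : ℝ))]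
    refine Finset.sum_congr rfl fun d hd => ?_
    have hdn := Nat.dvd_of_mem_divisors hd
    have hd0 : (d : ℝ) ≠ 0 := by
      have := Nat.pos_of_mem_divisors hd
      positivity
    rw [Nat.cast_div hdn hd0]
    rfl
  rw [h1, ← Finset.mul_sum]
  refine mul_le_mul_of_nonneg_left ?_ (by positivity)
  have h2 := harmonic_le_one_add_log n
  refine le_trans ?_ h2
  rw [harmonic_eq_sum_Icc]
  push_cast
  refine Finset.sum_le_sum_of_subset_of_nonneg ?_ fun i _ _ => by positivity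
  intro d hd
  rw [Finset.mem_Icc]
  exact ⟨Nat.pos_of_mem_divisors hd, Nat.divisor_le hd⟩

/-- the bound for the Ramanujan sum -/
lemma norm_cR_le {r : ℕ} (hr : 1 ≤ r) (v : ℤ) :
    ‖cR r v‖ ≤ (Int.gcd v r : ℝ) * (1 + Real.log r) := by
  have hg : 0 < Int.gcd v r := Int.gcd_pos_of_ne_zero_right _ (by exact_mod_cast (by omega : r ≠ 0))
  rw [cR_eq hr]
  have h1 : ‖∑ d ∈ r.divisors, (if (d : ℤ) ∣ v then (d : ℂ) * muC (r / d) else 0)‖ ≤
      ∑ d ∈ (Int.gcd v r).divisors, (d : ℝ) := by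
    rw [← Finset.sum_filter]
    refine (norm_sum_le _ _).trans ?_
    refine le_trans (Finset.sum_le_sum fun d _ => ?_ :
      _ ≤ ∑ d ∈ r.divisors.filter (fun d : ℕ => (d : ℤ) ∣ v), (d : ℝ)) ?_
    · rw [norm_mul, Complex.norm_natCast]
      have h2 : ‖muC (r / d)‖ ≤ 1 := by
        unfold muC
        have := ArithmeticFunction.abs_moebius_le_one (n := r / d)
        rw [Complex.norm_intCast]
        exact_mod_cast this
      exact mul_le_of_le_one_right (by positivity) h2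
    · refine Finset.sum_le_sum_of_subset_of_nonneg ?_ fun i _ _ => by positivity
      intro d hd
      rw [Finset.mem_filter, Nat.mem_divisors] at hd
      rw [Nat.mem_divisors]
      refine ⟨?_, hg.ne'⟩
      have : (d : ℤ) ∣ ((Int.gcd v r : ℕ) : ℤ) := Int.dvd_coe_gcd hd.2 (by exact_mod_cast hd.1.1)
      exact_mod_cast this
  refine h1.trans ((sum_div_le hg).trans ?_)
  refine mul_le_mul_of_nonneg_left ?_ (by positivity)
  have h3 : Int.gcd v r ≤ r := Nat.le_of_dvd (by omega) (by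
    have := Int.gcd_dvd_right v (r : ℤ)
    exact_mod_cast this)
  have h4 : Real.log (Int.gcd v r) ≤ Real.log r :=
    Real.log_le_log (by exact_mod_cast hg) (by exact_mod_cast h3)
  linarith

/-- sums over the units -/
lemma sum_unit_eqC {q : ℕ} [NeZero q] (F : ZMod q → ℂ) :
    (∑ b : ZMod q, if IsUnit b then F b else 0) = ∑ b ∈ red q, F (b : ZMod q) := by
  have h1 := sum_unit_eq (fun b : ZMod q => (F b).re)
  have h2 := sum_unit_eq (fun b : ZMod q => (F b).im)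
  apply Complex.ext
  · rw [Complex.re_sum, Complex.re_sum]
    refine Eq.trans ?_ h1
    refine Finset.sum_congr rfl fun b _ => ?_
    split_ifs <;> simp
  · rw [Complex.im_sum, Complex.im_sum]
    refine Eq.trans ?_ h2
    refine Finset.sum_congr rfl fun b _ => ?_
    split_ifs <;> simp

/-- the Ramanujan sum over the units of `ZMod r` -/
lemma sum_unit_std {r : ℕ} [NeZero r] (M : ℤ) :
    (∑ v : ZMod r, if IsUnit v then (ZMod.stdAddChar (N := r)) ((M : ZMod r) * v) else 0) = cR r M := by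
  rw [sum_unit_eqC]
  unfold cR
  refine Finset.sum_congr rfl fun a _ => ?_
  have h1 : ((M : ZMod r) * (a : ZMod r)) = ((M * (a : ℤ) : ℤ) : ZMod r) := by push_cast; ring
  rw [h1, ZMod.stdAddChar_coe]
  unfold ee
  congr 1
  push_cast
  ring

lemma sum_std {r : ℕ} [NeZero r] (c : ZMod r) :
    ∑ m : ZMod r, (ZMod.stdAddChar (N := r)) (m * c) = if c = 0 then (r : ℂ) else 0 := by
  rw [AddChar.sum_mulShift _ (ZMod.isPrimitive_stdAddChar r), ZMod.card]
  simp

/-- step 1 -/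
lemma SC_eq1 {r : ℕ} [NeZero r] {χ : DirichletCharacter ℂ r} (hχ : χ.IsPrimitive) (N x₁ x₂ : ℤ) :
    SC χ N x₁ x₂ = ∑ v : ZMod r, ∑ u : ZMod r, if (x₁ : ZMod r) * u = x₂ * v then
      χ⁻¹ u * χ v * (ZMod.stdAddChar (N := r)) ((N : ZMod r) * (u - v)) else 0 := by
  have hr : (r : ℂ) ≠ 0 := by exact_mod_cast NeZero.ne r
  have hχ' := isPrimitive_inv hχ
  have hg : ∀ n : ZMod r, χ n * tauG χ⁻¹ = ∑ b : ZMod r, χ⁻¹ b * (ZMod.stdAddChar (N := r)) (n * b) := by
    intro n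
    have := gauss_expand hχ' n
    rwa [inv_inv] at this
  have ht : tauG χ⁻¹ * (starRingEnd ℂ) (tauG χ⁻¹) = (r : ℂ) := by
    rw [Complex.mul_conj']
    have := norm_tauG_sq hχ'
    exact_mod_cast this
  have h1 : SC χ N x₁ x₂ * r = ∑ m : ZMod r, ∑ u : ZMod r, ∑ v : ZMod r,
      (χ⁻¹ u * χ v * (ZMod.stdAddChar (N := r)) ((N : ZMod r) * (u - v))) *
        (ZMod.stdAddChar (N := r)) (m * (x₂ * v - x₁ * u)) := by
    unfold SC
    rw [Finset.sum_mul]
    refine Finset.sum_congr rfl fun m _ => ?_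
    have e1 : χ ((N : ZMod r) - x₁ * m) * (starRingEnd ℂ) (χ ((N : ZMod r) - x₂ * m)) * r =
        (χ ((N : ZMod r) - x₁ * m) * tauG χ⁻¹) *
          (starRingEnd ℂ) (χ ((N : ZMod r) - x₂ * m) * tauG χ⁻¹) := by
      rw [← ht, map_mul]; ring
    rw [e1, hg, hg, map_sum, Finset.sum_mul_sum]
    refine Finset.sum_congr rfl fun u _ => Finset.sum_congr rfl fun v _ => ?_
    rw [RingHom.map_mul (starRingEnd ℂ), conj_char, inv_inv, ← AddChar.map_neg_eq_conj]
    have e2 : (ZMod.stdAddChar (N := r)) (((N : ZMod r) - x₁ * m) * u) *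
        (ZMod.stdAddChar (N := r)) (-(((N : ZMod r) - x₂ * m) * v)) =
        (ZMod.stdAddChar (N := r)) ((N : ZMod r) * (u - v)) *
          (ZMod.stdAddChar (N := r)) (m * (x₂ * v - x₁ * u)) := by
      rw [← AddChar.map_add_eq_mul, ← AddChar.map_add_eq_mul]
      congr 1
      ring
    calc _ = χ⁻¹ u * χ v * ((ZMod.stdAddChar (N := r)) (((N : ZMod r) - x₁ * m) * u) *
        (ZMod.stdAddChar (N := r)) (-(((N : ZMod r) - x₂ * m) * v))) := by ring
      _ = _ := by rw [e2]; ring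
  have h2 : SC χ N x₁ x₂ * r = (∑ v : ZMod r, ∑ u : ZMod r, if (x₁ : ZMod r) * u = x₂ * v then
      χ⁻¹ u * χ v * (ZMod.stdAddChar (N := r)) ((N : ZMod r) * (u - v)) else 0) * r := by
    rw [h1, Finset.sum_comm]
    rw [Finset.sum_comm (s := Finset.univ (α := ZMod r)) (t := Finset.univ (α := ZMod r))
      (f := fun v u => if (x₁ : ZMod r) * u = x₂ * v then
      χ⁻¹ u * χ v * (ZMod.stdAddChar (N := r)) ((N : ZMod r) * (u - v)) else 0), Finset.sum_mul]
    refine Finset.sum_congr rfl fun u _ => ?_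
    rw [Finset.sum_comm, Finset.sum_mul]
    refine Finset.sum_congr rfl fun v _ => ?_
    rw [← Finset.mul_sum, sum_std]
    by_cases h : (x₁ : ZMod r) * u = x₂ * v
    · rw [if_pos h, if_pos (by rw [h, sub_self])]
    · rw [if_neg h, if_neg (fun h' => h (sub_eq_zero.mp h').symm), mul_zero, zero_mul]
  exact mul_right_cancel₀ hr h2

/-- step 2 -/
lemma SC_eq2 {r : ℕ} [NeZero r] {χ : DirichletCharacter ℂ r} (hχ : χ.IsPrimitive) (N x₁ x₂ : ℤ) :
    SC χ N x₁ x₂ = ∑ w : ZMod r, if (x₁ : ZMod r) * w = x₂ then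
      χ⁻¹ w * cR r (N * ((w.val : ℤ) - 1)) else 0 := by
  classical
  rw [SC_eq1 hχ]
  have h1 : ∀ v : ZMod r, (∑ u : ZMod r, if (x₁ : ZMod r) * u = x₂ * v then
      χ⁻¹ u * χ v * (ZMod.stdAddChar (N := r)) ((N : ZMod r) * (u - v)) else 0) =
      ∑ w : ZMod r, if (x₁ : ZMod r) * w = x₂ then χ⁻¹ w * (if IsUnit v then
        (ZMod.stdAddChar (N := r)) (((N * ((w.val : ℤ) - 1) : ℤ) : ZMod r) * v) else 0) else 0 := by
    intro v
    by_cases hv : IsUnit v
    · obtain ⟨V, rfl⟩ := hv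
      refine Fintype.sum_equiv (Units.mulRight V).symm _ _ ?_
      intro u
      set w : ZMod r := (Units.mulRight V).symm u with hw
      have hu : u = w * V := by
        rw [hw]
        exact ((Units.mulRight V).apply_symm_apply u).symm
      rw [hu]
      have hiff : ((x₁ : ZMod r) * (w * V) = x₂ * V) ↔ ((x₁ : ZMod r) * w = x₂) := by
        rw [← mul_assoc]
        exact V.mul_left_inj
      by_cases hc : (x₁ : ZMod r) * w = x₂
      · rw [if_pos hc, if_pos (hiff.mpr hc), if_pos V.isUnit]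
        have e1 : χ⁻¹ (w * V) * χ V = χ⁻¹ w := by
          rw [map_mul, mul_assoc]
          have : χ⁻¹ (V : ZMod r) * χ V = 1 := by
            rw [← MulChar.mul_apply, inv_mul_cancel, MulChar.one_apply V.isUnit]
          rw [this, mul_one]
        have e2 : ((N : ZMod r) * (w * V - V)) = ((N * ((w.val : ℤ) - 1) : ℤ) : ZMod r) * V := by
          push_cast
          rw [ZMod.natCast_zmod_val]
          ring
        rw [e1, e2]
      · rw [if_neg hc, if_neg (fun h => hc (hiff.mp h))]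
    · have : χ v = 0 := MulChar.map_nonunit χ hv
      simp only [this, mul_zero, zero_mul, if_neg hv, ite_self]
  simp_rw [h1]
  rw [Finset.sum_comm]
  refine Finset.sum_congr rfl fun w _ => ?_
  by_cases hc : (x₁ : ZMod r) * w = x₂
  · simp only [if_pos hc]
    rw [← Finset.mul_sum, sum_unit_std]
  · simp only [if_neg hc, Finset.sum_const_zero]

/-- the number of units `w` with `x₁ w = x₂` -/
lemma card_units {r : ℕ} [NeZero r] (x₁ x₂ : ℤ) :
    ((Finset.univ : Finset (ZMod r)).filter (fun w => IsUnit w ∧ (x₁ : ZMod r) * w = x₂)).card ≤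
      Int.gcd x₂ r := by
  classical
  refine le_trans ?_ (card_mul_eq x₂ (x₁ : ZMod r))
  refine Finset.card_le_card_of_injOn (fun w => w⁻¹) ?_ ?_
  · intro w hw
    obtain ⟨hu, hw'⟩ := (Finset.mem_filter.mp (Finset.mem_coe.mp hw)).2
    refine Finset.mem_coe.mpr (Finset.mem_filter.mpr ⟨Finset.mem_univ _, ?_⟩)
    change (x₂ : ZMod r) * w⁻¹ = x₁
    rw [← hw', mul_assoc, ZMod.mul_inv_of_unit w hu, mul_one]
  · intro w hw w' hw' h
    obtain ⟨hu, -⟩ := (Finset.mem_filter.mp (Finset.mem_coe.mp hw)).2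
    obtain ⟨hu', -⟩ := (Finset.mem_filter.mp (Finset.mem_coe.mp hw')).2
    have h' : w⁻¹ = w'⁻¹ := h
    calc w = w * (w'⁻¹ * w') := by rw [ZMod.inv_mul_of_unit w' hu', mul_one]
      _ = w * w⁻¹ * w' := by rw [← h']; ring
      _ = w' := by rw [ZMod.mul_inv_of_unit w hu, one_mul]

/-- the gcd in the Ramanujan sum -/
lemma gcd_le {r : ℕ} [NeZero r] {N x₁ x₂ : ℤ} {w : ZMod r} (hw : (x₁ : ZMod r) * w = x₂) :
    Int.gcd (N * ((w.val : ℤ) - 1)) r ≤ Int.gcd N r * Int.gcd (x₁ - x₂) (r / Int.gcd N r : ℕ) := by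
  have hr : r ≠ 0 := NeZero.ne r
  have hgr : Int.gcd N r ∣ r := by
    have := Int.gcd_dvd_right N (r : ℤ)
    exact_mod_cast this
  set g := Int.gcd N r with hgdef
  have hg : 0 < g := Int.gcd_pos_of_ne_zero_right _ (by exact_mod_cast hr)
  obtain ⟨r', hr'⟩ := hgr
  have hr'0 : r' ≠ 0 := by rintro rfl; exact hr (by rw [hr', mul_zero])
  have hdiv : r / g = r' := by rw [hr']; exact Nat.mul_div_cancel_left _ hg
  rw [hdiv]
  have hG : 0 < Int.gcd (x₁ - x₂) (r' : ℕ) := Int.gcd_pos_of_ne_zero_right _ (by exact_mod_cast hr'0)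
  refine Nat.le_of_dvd (Nat.mul_pos hg hG) ?_
  set D := Int.gcd (N * ((w.val : ℤ) - 1)) r with hD
  have d1 : (D : ℤ) ∣ N * ((w.val : ℤ) - 1) := Int.gcd_dvd_left _ _
  have d2 : (D : ℤ) ∣ (r : ℤ) := Int.gcd_dvd_right _ _
  have d3 : (r : ℤ) ∣ x₁ * (w.val : ℤ) - x₂ := by
    rw [← ZMod.intCast_zmod_eq_zero_iff_dvd]
    push_cast
    rw [ZMod.natCast_zmod_val, hw, sub_self]
  have d4 : (D : ℤ) ∣ N * (x₁ - x₂) := by
    have e : N * (x₁ - x₂) = N * (x₁ * (w.val : ℤ) - x₂) - x₁ * (N * ((w.val : ℤ) - 1)) := by ring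
    rw [e]
    exact dvd_sub (((d2.trans d3)).mul_left _) (d1.mul_left _)
  have d5 : (D : ℤ) ∣ (g : ℤ) * (x₁ - x₂) := by
    have hb : (g : ℤ) = N * Int.gcdA N r + r * Int.gcdB N r := Int.gcd_eq_gcd_ab N r
    rw [hb]
    have e : (N * Int.gcdA N r + r * Int.gcdB N r) * (x₁ - x₂) =
        Int.gcdA N r * (N * (x₁ - x₂)) + r * (Int.gcdB N r * (x₁ - x₂)) := by ring
    rw [e]
    exact dvd_add (d4.mul_left _) (d2.mul_right _)
  have d6 : (D : ℤ) ∣ (g : ℤ) * (r' : ℤ) := by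
    have : (r : ℤ) = (g : ℤ) * (r' : ℤ) := by rw [hr']; push_cast; ring
    rwa [← this]
  have d7 : (D : ℤ) ∣ ((Int.gcd ((g : ℤ) * (x₁ - x₂)) ((g : ℤ) * (r' : ℤ)) : ℕ) : ℤ) :=
    Int.dvd_coe_gcd d5 d6
  rw [Int.gcd_mul_left] at d7
  simpa using Int.natCast_dvd_natCast.mp d7

end CorrBAux

open CorrBAux

theorem norm_SC_le {r : ℕ} [NeZero r] {χ : DirichletCharacter ℂ r} (hχ : χ.IsPrimitive) (N x₁ x₂ : ℤ) :
    ‖SC χ N x₁ x₂‖ ≤ (1 + Real.log r) * (Int.gcd N r : ℝ) * (Int.gcd x₂ (r / Int.gcd N r : ℕ) : ℝ) *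
      (Int.gcd (x₁ - x₂) (r / Int.gcd N r : ℕ) : ℝ) := by
  classical
  have hr : r ≠ 0 := NeZero.ne r
  have hr1 : (1 : ℝ) ≤ r := by exact_mod_cast Nat.one_le_iff_ne_zero.mpr hr
  have hlog : 0 ≤ Real.log r := Real.log_nonneg hr1
  have hgr : Int.gcd N r ∣ r := by
    have := Int.gcd_dvd_right N (r : ℤ)
    exact_mod_cast this
  by_cases hcop : Nat.Coprime x₂.natAbs (Int.gcd N r)
  · have hx2 : Int.gcd x₂ r = Int.gcd x₂ (r / Int.gcd N r : ℕ) := by
      obtain ⟨r', hr'⟩ := hgr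
      have hg : 0 < Int.gcd N r := Int.gcd_pos_of_ne_zero_right _ (by exact_mod_cast hr)
      have hdiv : r / Int.gcd N r = r' := Nat.div_eq_of_eq_mul_right hg hr'
      rw [hdiv]
      have e : Int.gcd x₂ r = Nat.gcd x₂.natAbs r := rfl
      have e' : Int.gcd x₂ r' = Nat.gcd x₂.natAbs r' := rfl
      rw [e, e']
      conv_lhs => rw [hr']
      exact Nat.Coprime.gcd_mul_left_cancel_right r' hcop.symm
    rw [SC_eq2 hχ]
    have h1 : ∀ w : ZMod r, ‖(if (x₁ : ZMod r) * w = x₂ then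
        χ⁻¹ w * cR r (N * ((w.val : ℤ) - 1)) else 0)‖ ≤
        if (IsUnit w ∧ (x₁ : ZMod r) * w = x₂) then
          (Int.gcd N r : ℝ) * (Int.gcd (x₁ - x₂) (r / Int.gcd N r : ℕ) : ℝ) * (1 + Real.log r) else 0 := by
      intro w
      by_cases hu : IsUnit w
      · by_cases hc : (x₁ : ZMod r) * w = x₂
        · rw [if_pos hc, if_pos ⟨hu, hc⟩, norm_mul]
          have hn : ‖χ⁻¹ w‖ ≤ 1 := DirichletCharacter.norm_le_one _ _
          refine (mul_le_of_le_one_left (norm_nonneg _) hn).trans ?_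
          refine (norm_cR_le (Nat.one_le_iff_ne_zero.mpr hr) _).trans ?_
          refine mul_le_mul_of_nonneg_right ?_ (by positivity)
          exact_mod_cast gcd_le hc
        · rw [if_neg hc, if_neg (fun h => hc h.2), norm_zero]
      · rw [MulChar.map_nonunit _ hu, zero_mul, ite_self, norm_zero, if_neg (fun h => hu h.1)]
    refine (norm_sum_le _ _).trans ((Finset.sum_le_sum fun w _ => h1 w).trans ?_)
    rw [← Finset.sum_filter, Finset.sum_const, nsmul_eq_mul]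
    have h2 : (((Finset.univ : Finset (ZMod r)).filter
        (fun w => IsUnit w ∧ (x₁ : ZMod r) * w = x₂)).card : ℝ) ≤
        (Int.gcd x₂ (r / Int.gcd N r : ℕ) : ℝ) := by
      rw [← hx2]
      exact_mod_cast card_units x₁ x₂
    calc _ ≤ (Int.gcd x₂ (r / Int.gcd N r : ℕ) : ℝ) * ((Int.gcd N r : ℝ) *
          (Int.gcd (x₁ - x₂) (r / Int.gcd N r : ℕ) : ℝ) * (1 + Real.log r)) :=
        mul_le_mul_of_nonneg_right h2 (by positivity)
      _ = _ := by ring
  · obtain ⟨p, hp, hp1, hp2⟩ := Nat.Prime.not_coprime_iff_dvd.mp hcop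
    have hz : SC χ N x₁ x₂ = 0 := by
      unfold SC
      refine Finset.sum_eq_zero fun m _ => ?_
      have hpr : p ∣ r := hp2.trans hgr
      have hnu : ¬ IsUnit ((N : ZMod r) - x₂ * m) := by
        intro hu
        have h3 := hu.map (ZMod.castHom hpr (ZMod p))
        have hN : ((N : ℤ) : ZMod p) = 0 := by
          rw [ZMod.intCast_zmod_eq_zero_iff_dvd]
          have h4 : ((Int.gcd N r : ℕ) : ℤ) ∣ N := Int.gcd_dvd_left _ _
          exact (Int.natCast_dvd_natCast.mpr hp2).trans h4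
        have hX : ((x₂ : ℤ) : ZMod p) = 0 := by
          rw [ZMod.intCast_zmod_eq_zero_iff_dvd]
          exact Int.natCast_dvd.mpr hp1
        rw [map_sub, map_mul, map_intCast, map_intCast, hN, hX, zero_mul, sub_zero] at h3
        have : Fact p.Prime := ⟨hp⟩
        exact not_isUnit_zero h3
      rw [MulChar.map_nonunit χ hnu, map_zero, mul_zero]
    rw [hz, norm_zero]
    positivity

end Pool.Agent.MVD
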