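import Pool.Agent.MVD.CorDef

/-!
# Module CorrA: complete sums of a primitive character along a linear form

`avg_char`: `χ(x) τ(χ̄) = ∑_u χ̄(u) e(ux/r)` for all `x` (primitivity; gauss_expand in Lib/ANT, or gaussSum_mul_of_isPrimitive in Mathlib), so
`∑_m χ(N - x m) = (1/τ(χ̄)) ∑_u χ̄(u) e(uN/r) ∑_m e(-u x m/r)`, inner sum `r` if `r ∣ ux`, else 0; for `u` a unit `r ∣ ux` iff `r ∣ x`. So the sum is zero unless `r ∣ x`, and then it is `r χ(N)`
(directly: `x = 0` in `ZMod r`), which is zero unless `(N,r) = 1`. `r = 1` is allowed.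
-/

open Finset Complex

namespace Pool.Agent.MVD

open Pool.Agent.ANT Pool.Agent.SInt

namespace CorrAAux

lemma sum_std {q : ℕ} [NeZero q] (b : ZMod q) :
    ∑ n : ZMod q, (ZMod.stdAddChar (N := q)) (n * b) = if b = 0 then (q : ℂ) else 0 := by
  rw [AddChar.sum_mulShift _ (ZMod.isPrimitive_stdAddChar q), ZMod.card]
  simp

/-- the sum vanishes when `x` is not zero -/
lemma sum_eq_zero_of_ne {r : ℕ} [NeZero r] {χ : DirichletCharacter ℂ r} (hχ : χ.IsPrimitive) (n x : ZMod r)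
    (hx : x ≠ 0) : ∑ m : ZMod r, χ (n - x * m) = 0 := by
  have hψ : χ⁻¹.IsPrimitive := isPrimitive_inv hχ
  have hτ : tauG χ⁻¹ ≠ 0 := by
    intro h0
    have h1 := norm_tauG_sq hψ
    rw [h0, norm_zero] at h1
    have h2 : ((r : ℕ) : ℝ) ≠ 0 := by exact_mod_cast NeZero.ne r
    exact h2 (by rw [← h1]; norm_num)
  have hexp : ∀ m : ZMod r, χ (n - x * m) * tauG χ⁻¹ =
      ∑ b : ZMod r, χ⁻¹ b * (ZMod.stdAddChar (N := r)) ((n - x * m) * b) := by
    intro m
    have := gauss_expand hψ (n - x * m)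
    rwa [inv_inv] at this
  have h1 : (∑ m : ZMod r, χ (n - x * m)) * tauG χ⁻¹ = 0 := by
    rw [Finset.sum_mul, Finset.sum_congr rfl (fun m _ => hexp m), Finset.sum_comm]
    refine Finset.sum_eq_zero fun b _ => ?_
    by_cases hb : IsUnit b
    · have h2 : ∀ m : ZMod r, χ⁻¹ b * (ZMod.stdAddChar (N := r)) ((n - x * m) * b) =
          χ⁻¹ b * (ZMod.stdAddChar (N := r)) (n * b) * (ZMod.stdAddChar (N := r)) (m * (-(x * b))) := by
        intro m
        rw [mul_assoc, ← AddChar.map_add_eq_mul]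
        congr 2
        ring
      rw [Finset.sum_congr rfl (fun m _ => h2 m), ← Finset.mul_sum, sum_std, if_neg, mul_zero]
      intro h3
      apply hx
      have h4 : x * b = 0 := neg_eq_zero.mp h3
      exact (hb.mul_left_eq_zero).mp h4
    · refine Finset.sum_eq_zero fun m _ => ?_
      rw [MulChar.map_nonunit _ hb, zero_mul]
  exact (mul_eq_zero.mp h1).resolve_right hτ

end CorrAAux

open CorrAAux

theorem avg_char {r : ℕ} [NeZero r] {χ : DirichletCharacter ℂ r} (hχ : χ.IsPrimitive) (N x : ℤ) :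
    ‖∑ m : ZMod r, χ ((N : ZMod r) - x * m)‖ ≤ if (r : ℤ) ∣ x ∧ Int.gcd N r = 1 then (r : ℝ) else 0 := by
  classical
  by_cases hx : ((x : ℤ) : ZMod r) = 0
  · have hdx : (r : ℤ) ∣ x := (ZMod.intCast_zmod_eq_zero_iff_dvd x r).mp hx
    have h1 : ∑ m : ZMod r, χ ((N : ZMod r) - x * m) = (r : ℂ) * χ (N : ZMod r) := by
      simp only [hx, zero_mul, sub_zero, Finset.sum_const, Finset.card_univ, ZMod.card, nsmul_eq_mul]
    rw [h1, norm_mul, Complex.norm_natCast]
    by_cases hN : Int.gcd N r = 1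
    · rw [if_pos ⟨hdx, hN⟩]
      exact mul_le_of_le_one_right (Nat.cast_nonneg _) (DirichletCharacter.norm_le_one _ _)
    · rw [if_neg (fun h => hN h.2)]
      have h2 : ¬ IsUnit ((N : ℤ) : ZMod r) := by
        intro h3
        apply hN
        rw [ZMod.coe_int_isUnit_iff_isCoprime] at h3
        exact Int.isCoprime_iff_gcd_eq_one.mp h3.symm
      rw [MulChar.map_nonunit _ h2, norm_zero, mul_zero]
  · rw [sum_eq_zero_of_ne hχ _ _ hx, norm_zero]
    split_ifs
    · exact Nat.cast_nonneg _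
    · exact le_rfl

end Pool.Agent.MVD
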