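import Pool.Agent.SInt.Asy
import Pool.Agent.SInt.VauL
import Pool.Agent.SInt.VauD
import Pool.Agent.SInt.Pair
import Pool.Agent.Lib.ANT.LSMult

/-!
Exceptional set for dEH of Montgomery-Vaughan type. Definitions and parameters.

`X` is the size, `mR` a small power of `X` (level of the major arcs), `mW = X/4` the half-width of the
window of `N` around `X`, `mD = W/R^4` the scale of the local averages, `mV = W/R^3` the lower end of the
range of `v = N - qk` that is treated analytically, `mT = R^14` the truncation height of the Mellin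
transforms, `mz` (a power of two between `R^17` and `2 R^17`) the parameter of the three factor identity,
`mU` (a power of two between `R^15` and `2 R^15`) the parameter of Vaughan's identity for `Λ`.
-/

open Finset Complex
open scoped ArithmeticFunction.Moebius ArithmeticFunction.vonMangoldt

namespace Pool.Agent.MVD

open Pool.Agent.ANT Pool.Agent.SInt

/-- The level of the major arcs. -/
noncomputable def mR (κ : ℝ) (X : ℕ) : ℕ := ⌊(X : ℝ) ^ κ⌋₊

/-- Half-width of the window. -/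
def mW (X : ℕ) : ℕ := X / 4

/-- Scale of the local averages. -/
noncomputable def mD (κ : ℝ) (X : ℕ) : ℕ := mW X / mR κ X ^ 4

/-- Lower end of the main range of `v`. -/
noncomputable def mV (κ : ℝ) (X : ℕ) : ℕ := mW X / mR κ X ^ 3

/-- Truncation height. -/
noncomputable def mT (κ : ℝ) (X : ℕ) : ℝ := (mR κ X : ℝ) ^ 14

/-- Parameter of the three factor identity (a power of two). -/
noncomputable def mz (κ : ℝ) (X : ℕ) : ℕ := 2 ^ Nat.clog 2 (mR κ X ^ 17)

/-- Parameter of Vaughan's identity for `Λ` (a power of two). -/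
noncomputable def mU (κ : ℝ) (X : ℕ) : ℕ := 2 ^ Nat.clog 2 (mR κ X ^ 15)

/-- Ramanujan sum. -/
noncomputable def cR (k : ℕ) (v : ℤ) : ℂ := ∑ a ∈ red k, ee (a * v / k)

/-- `W_r(v) = ∑_{k ≤ R/r, (k,r)=1} μ(k) c_k(v) / φ(k)`. -/
noncomputable def Wr (R r : ℕ) (v : ℤ) : ℂ :=
  ∑ k ∈ (Icc 1 (R / r)).filter (fun k => k.Coprime r), muC k / (k.totient : ℂ) * cR k v

/-- `∑_{d ≤ Y, d ∣ v} ω(d)`. -/
noncomputable def dsum (ω : ℕ → ℂ) (Y : ℕ) (v : ℤ) : ℂ := ∑ d ∈ Icc 1 Y, if (d : ℤ) ∣ v then ω d else 0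

/-- The twisted sieve weight `χ(v) ∑_{d ≤ Y, d ∣ v} ω(d)`. -/
noncomputable def ff {r : ℕ} (χ : DirichletCharacter ℂ r) (ω : ℕ → ℂ) (Y : ℕ) (v : ℤ) : ℂ :=
  χ (v : ZMod r) * dsum ω Y v

/-- The phase `e^{i t log x}`. -/
noncomputable def eit (t x : ℝ) : ℂ := cexp (I * ((t * Real.log x : ℝ) : ℂ))

/-- The sum `∑_{k ≤ K, qk ≤ N - V} c(k) f(N - qk) (y - qk)^{it}`. -/
noncomputable def ZS (c : ℕ → ℂ) (f : ℤ → ℂ) (K N V : ℕ) (y t : ℝ) (q : ℕ) : ℂ :=
  ∑ k ∈ (Icc 1 K).filter (fun k => q * k + V ≤ N), c k * f ((N : ℤ) - q * k) * eit t (y - q * k)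

/-- Conditions on the coefficients `ω`. -/
def OmOK (ω : ℕ → ℂ) (r : ℕ) : Prop := (∀ d, ‖ω d‖ ≤ 1) ∧ ∀ d, ¬ d.Coprime r → ω d = 0

/-- The coefficient `1 - ζ * μ_{≤ z}` of the three factor identity. -/
noncomputable def az (z : ℕ) : ArithmeticFunction ℂ :=
  1 - (ArithmeticFunction.zeta : ArithmeticFunction ℂ) * Mf z

/-- Restriction of a sequence to the dyadic block `[M, 2M)`. -/
def dy (a : ℕ → ℂ) (M n : ℕ) : ℂ := if n ∈ Ico M (2 * M) then a n else 0

/-- Twist by a Dirichlet character. -/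
noncomputable def twc {r : ℕ} (a : ℕ → ℂ) (χ : DirichletCharacter ℂ r) (n : ℕ) : ℂ := a n * χ n

/-- The Dirichlet polynomial `∑_{M ≤ n < 2M} a(n) χ(n) n^{-1-it}`. -/
noncomputable def PC {r : ℕ} (a : ℕ → ℂ) (χ : DirichletCharacter ℂ r) (M : ℕ) (t : ℝ) : ℂ :=
  Fh (dy (twc a χ) M) (2 * M) t

/-- `Λ` as a complex sequence. -/
noncomputable def LamN (n : ℕ) : ℂ := ((Λ n : ℝ) : ℂ)

/-- The integer `r` is bad (at size `X` and quality `b`): there is a primitive character mod `r` for which some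
prime polynomial of length at least `mz` is large at small height. -/
def BadR (κ : ℝ) (b X r : ℕ) : Prop := 2 ≤ r ∧ r ≤ mR κ X ∧ ∃ χ : DirichletCharacter ℂ r, χ.IsPrimitive ∧
  ∃ (j : ℕ) (t : ℝ), mz κ X ≤ 2 ^ j ∧ 2 ^ j ≤ 2 * X ∧ |t| ≤ Real.log X ^ b ∧
    1 / Real.log X ^ b < ‖PC LamN χ (2 ^ j) t‖

end Pool.Agent.MVD
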