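import Pool.Agent.MVD.Defs

/-!
# Module DensA: densities of divisibility conditions

`rho`: density of the `n` with `d₁ ∣ N - x₁ n` and `d₂ ∣ N - x₂ n`. The solutions of `d ∣ N - x n` are empty or a residue class mod `d/(d,x)`; two
classes mod `d₁', d₂'` meet in nothing or a class mod `lcm(d₁',d₂')`, so `rho ≤ (d₁',d₂')/(d₁' d₂')`, `d_i' = d_i/(d_i,x_i)`. Summing over `d₁, d₂ ≤ Y`
with `d_i = g_i d_i'`, `g_i = (d_i,x_i) ∣ x_i`: `∑ rho ≤ τ(x₁)τ(x₂) ∑_{d₁',d₂' ≤ Y} (d₁',d₂')/(d₁'d₂') ≤ τ(x₁)τ(x₂) Hs(Y)³` (write `(d₁',d₂') ≤ ∑_{g ∣ d₁', g ∣ d₂'} g`, `d_i' = g e_i`).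
`Hs n = ∑_{k ≤ n} 1/k`, `tauR n = (n.divisors.card : ℝ)`. Checked numerically.
-/

open Finset Complex

namespace Pool.Agent.MVD

open Pool.Agent.ANT Pool.Agent.SInt

/-- The density of the solutions of two divisibility conditions. -/
noncomputable def rho (N x₁ x₂ : ℤ) (d₁ d₂ : ℕ) : ℝ :=
  (((range (d₁ * d₂)).filter (fun n : ℕ => (d₁ : ℤ) ∣ N - x₁ * n ∧ (d₂ : ℤ) ∣ N - x₂ * n)).card : ℝ) / (d₁ * d₂)

/-- The density of the solutions of one divisibility condition. -/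
noncomputable def rho1 (N x : ℤ) (d : ℕ) : ℝ :=
  (((range d).filter (fun n : ℕ => (d : ℤ) ∣ N - x * n)).card : ℝ) / d

namespace DensAAux

theorem Hs_eq (Y : ℕ) : Hs Y = ∑ n ∈ Icc 1 Y, 1 / (n : ℝ) := by
  unfold Hs
  refine Finset.sum_congr ?_ fun _ _ => rfl
  ext n
  simp only [mem_Ioc, mem_Icc]
  omega

/-- a set of numbers below `M` which are all congruent modulo the divisor `m` of `M` -/
theorem card_le_div {M m : ℕ} (hd : m ∣ M) (S : Finset ℕ) (hS : ∀ n ∈ S, n < M)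
    (hc : ∀ n ∈ S, ∀ n' ∈ S, (m : ℤ) ∣ (n : ℤ) - n') : S.card ≤ M / m := by
  rw [← card_range (M / m)]
  refine Finset.card_le_card_of_injOn (fun n => n / m) ?_ ?_
  · intro n hn
    simp only [coe_range, Set.mem_Iio]
    exact Nat.div_lt_div_of_lt_of_dvd hd (hS n hn)
  · intro n hn n' hn' he
    have h1 := hc n hn n' hn'
    have h2 : n % m = n' % m := by
      have h3 : (n : ℤ) ≡ n' [ZMOD m] := (Int.modEq_iff_dvd.mpr h1).symm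
      exact (Int.natCast_modEq_iff.mp h3)
    have h4 : n / m = n' / m := he
    rw [← Nat.div_add_mod n m, ← Nat.div_add_mod n' m, h2, h4]

/-- two solutions are congruent -/
theorem dvd_sub {N : ℤ} {x d : ℕ} (hx : 1 ≤ x) {n n' : ℕ} (h : (d : ℤ) ∣ N - x * n)
    (h' : (d : ℤ) ∣ N - x * n') : ((d / Nat.gcd d x : ℕ) : ℤ) ∣ (n : ℤ) - n' := by
  have h1 : (d : ℤ) ∣ x * ((n : ℤ) - n') := by
    have := _root_.dvd_sub h' h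
    have e : N - (x : ℤ) * n' - (N - x * n) = x * ((n : ℤ) - n') := by ring
    rwa [e] at this
  have hg : 0 < Nat.gcd d x := Nat.gcd_pos_of_pos_right d (by omega)
  have h2 : d ∣ x * ((n : ℤ) - n').natAbs := by
    have := Int.natAbs_dvd_natAbs.mpr h1
    rwa [Int.natAbs_mul, Int.natAbs_natCast, Int.natAbs_natCast] at this
  have h3 : d / Nat.gcd d x ∣ ((n : ℤ) - n').natAbs :=
    (Nat.Coprime.dvd_of_dvd_mul_left (Nat.coprime_div_gcd_div_gcd hg) (by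
      have h4 : d / Nat.gcd d x * Nat.gcd d x ∣ (x / Nat.gcd d x * ((n : ℤ) - n').natAbs) * Nat.gcd d x := by
        rw [Nat.div_mul_cancel (Nat.gcd_dvd_left d x)]
        have e : (x / Nat.gcd d x * ((n : ℤ) - n').natAbs) * Nat.gcd d x =
            (x / Nat.gcd d x * Nat.gcd d x) * ((n : ℤ) - n').natAbs := by ring
        rw [e, Nat.div_mul_cancel (Nat.gcd_dvd_right d x)]
        exact h2
      exact Nat.dvd_of_mul_dvd_mul_right hg h4))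
  exact Int.natCast_dvd.mpr h3

theorem sum_div_gcd {x : ℕ} (hx : 1 ≤ x) (Y : ℕ) (F : ℕ → ℝ) (hF : ∀ e, 0 ≤ F e) :
    ∑ d ∈ Icc 1 Y, F (d / Nat.gcd d x) ≤ tauR x * ∑ e ∈ Icc 1 Y, F e := by
  classical
  have e1 : tauR x * ∑ e ∈ Icc 1 Y, F e = ∑ p ∈ x.divisors ×ˢ Icc 1 Y, F p.2 := by
    rw [Finset.sum_product]
    simp only [Finset.sum_const, nsmul_eq_mul]
    rfl
  have hinj : Set.InjOn (fun d : ℕ => (Nat.gcd d x, d / Nat.gcd d x)) (Icc 1 Y : Finset ℕ) := by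
    intro d _ d' _ he
    have h1 : Nat.gcd d x = Nat.gcd d' x := congrArg Prod.fst he
    have h2 : d / Nat.gcd d x = d' / Nat.gcd d' x := congrArg Prod.snd he
    rw [← Nat.div_mul_cancel (Nat.gcd_dvd_left d x), h2, h1,
      Nat.div_mul_cancel (Nat.gcd_dvd_left d' x)]
  have e2 : ∑ d ∈ Icc 1 Y, F (d / Nat.gcd d x) =
      ∑ p ∈ (Icc 1 Y).image (fun d : ℕ => (Nat.gcd d x, d / Nat.gcd d x)), F p.2 := by
    rw [Finset.sum_image hinj]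
  rw [e1, e2]
  refine Finset.sum_le_sum_of_subset_of_nonneg ?_ (fun p _ _ => hF p.2)
  intro p hp
  obtain ⟨d, hd, rfl⟩ := mem_image.mp hp
  rw [mem_Icc] at hd
  have hg : 0 < Nat.gcd d x := Nat.gcd_pos_of_pos_right d (by omega)
  rw [mem_product]
  refine ⟨Nat.mem_divisors.mpr ⟨Nat.gcd_dvd_right d x, by omega⟩, mem_Icc.mpr ⟨?_, ?_⟩⟩
  · exact Nat.div_pos (Nat.gcd_le_left x (by omega)) hg
  · exact (Nat.div_le_self _ _).trans hd.2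

/-- the double sum of `1 / lcm` -/
theorem sum_lcm_le (Y : ℕ) :
    ∑ a ∈ Icc 1 Y, ∑ b ∈ Icc 1 Y, 1 / ((Nat.lcm a b : ℕ) : ℝ) ≤ Hs Y ^ 3 := by
  classical
  have e0 : Hs Y ^ 3 = ∑ p ∈ Icc 1 Y ×ˢ (Icc 1 Y ×ˢ Icc 1 Y),
      1 / (p.1 : ℝ) * (1 / (p.2.1 : ℝ) * (1 / (p.2.2 : ℝ))) := by
    rw [Finset.sum_product]
    have e1 : ∀ g : ℕ, ∑ q ∈ Icc 1 Y ×ˢ Icc 1 Y, 1 / (g : ℝ) * (1 / (q.1 : ℝ) * (1 / (q.2 : ℝ))) =
        1 / (g : ℝ) * (Hs Y * Hs Y) := by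
      intro g
      rw [← Finset.mul_sum, Finset.sum_product, Hs_eq, Finset.sum_mul_sum]
    simp only [e1]
    rw [← Finset.sum_mul, ← Hs_eq]
    ring
  rw [e0, ← Finset.sum_product']
  set φ : ℕ × ℕ → ℕ × (ℕ × ℕ) := fun p => (Nat.gcd p.1 p.2, (p.1 / Nat.gcd p.1 p.2,
    p.2 / Nat.gcd p.1 p.2)) with hφ
  have hinj : Set.InjOn φ (Icc 1 Y ×ˢ Icc 1 Y : Finset (ℕ × ℕ)) := by
    rintro ⟨a, b⟩ _ ⟨a', b'⟩ _ he
    have h1 : Nat.gcd a b = Nat.gcd a' b' := congrArg Prod.fst he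
    have h2 : a / Nat.gcd a b = a' / Nat.gcd a' b' := congrArg (fun q => q.2.1) he
    have h3 : b / Nat.gcd a b = b' / Nat.gcd a' b' := congrArg (fun q => q.2.2) he
    refine Prod.ext ?_ ?_
    · show a = a'
      rw [← Nat.div_mul_cancel (Nat.gcd_dvd_left a b), h2, h1,
        Nat.div_mul_cancel (Nat.gcd_dvd_left a' b')]
    · show b = b'
      rw [← Nat.div_mul_cancel (Nat.gcd_dvd_right a b), h3, h1,
        Nat.div_mul_cancel (Nat.gcd_dvd_right a' b')]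
  have e3 : ∑ p ∈ Icc 1 Y ×ˢ Icc 1 Y, 1 / ((Nat.lcm p.1 p.2 : ℕ) : ℝ) =
      ∑ q ∈ (Icc 1 Y ×ˢ Icc 1 Y).image φ, 1 / (q.1 : ℝ) * (1 / (q.2.1 : ℝ) * (1 / (q.2.2 : ℝ))) := by
    rw [Finset.sum_image hinj]
    refine Finset.sum_congr rfl fun p hp => ?_
    rw [mem_product, mem_Icc, mem_Icc] at hp
    have hg : 0 < Nat.gcd p.1 p.2 := Nat.gcd_pos_of_pos_left _ (by omega)
    have h1 : Nat.lcm p.1 p.2 = Nat.gcd p.1 p.2 * (p.1 / Nat.gcd p.1 p.2 * (p.2 / Nat.gcd p.1 p.2)) := by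
      have h2 := Nat.gcd_mul_lcm p.1 p.2
      apply Nat.eq_of_mul_eq_mul_left hg
      rw [h2]
      calc p.1 * p.2 = (p.1 / Nat.gcd p.1 p.2 * Nat.gcd p.1 p.2) *
            (p.2 / Nat.gcd p.1 p.2 * Nat.gcd p.1 p.2) := by
            rw [Nat.div_mul_cancel (Nat.gcd_dvd_left _ _), Nat.div_mul_cancel (Nat.gcd_dvd_right _ _)]
        _ = _ := by ring
    rw [h1]
    push_cast
    rw [one_div_mul_one_div, one_div_mul_one_div]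
  have e4 : ∑ p ∈ Icc 1 Y ×ˢ Icc 1 Y, 1 / ((Nat.lcm p.1 p.2 : ℕ) : ℝ) =
      ∑ x ∈ Icc 1 Y ×ˢ Icc 1 Y, 1 / ((x.1.lcm x.2 : ℕ) : ℝ) := rfl
  rw [← e4, e3]
  refine Finset.sum_le_sum_of_subset_of_nonneg ?_ (fun p _ _ => by positivity)
  intro q hq
  obtain ⟨p, hp, rfl⟩ := mem_image.mp hq
  rw [mem_product, mem_Icc, mem_Icc] at hp
  have hg : 0 < Nat.gcd p.1 p.2 := Nat.gcd_pos_of_pos_left _ (by omega)
  have g1 : Nat.gcd p.1 p.2 ≤ p.1 := Nat.gcd_le_left _ (by omega)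
  have g2 : Nat.gcd p.1 p.2 ≤ p.2 := Nat.gcd_le_right _ (by omega)
  have g3 := Nat.div_pos g1 hg
  have g4 := Nat.div_pos g2 hg
  have g5 : p.1 / Nat.gcd p.1 p.2 ≤ p.1 := Nat.div_le_self _ _
  have g6 : p.2 / Nat.gcd p.1 p.2 ≤ p.2 := Nat.div_le_self _ _
  simp only [hφ, mem_product, mem_Icc]
  omega

end DensAAux

theorem rho_sum (N : ℤ) {x₁ x₂ : ℕ} (h₁ : 1 ≤ x₁) (h₂ : 1 ≤ x₂) (Y : ℕ) :
    ∑ d₁ ∈ Icc 1 Y, ∑ d₂ ∈ Icc 1 Y, rho N x₁ x₂ d₁ d₂ ≤ tauR x₁ * tauR x₂ * Hs Y ^ 3 := by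
  have hK : ∀ a b : ℕ, (0 : ℝ) ≤ 1 / ((Nat.lcm a b : ℕ) : ℝ) := fun a b => by positivity
  have hrho : ∀ d₁ ∈ Icc 1 Y, ∀ d₂ ∈ Icc 1 Y, rho N x₁ x₂ d₁ d₂ ≤
      1 / ((Nat.lcm (d₁ / Nat.gcd d₁ x₁) (d₂ / Nat.gcd d₂ x₂) : ℕ) : ℝ) := by
    intro d₁ hd₁ d₂ hd₂
    rw [mem_Icc] at hd₁ hd₂
    have hg1 : 0 < Nat.gcd d₁ x₁ := Nat.gcd_pos_of_pos_right _ (by omega)
    have hg2 : 0 < Nat.gcd d₂ x₂ := Nat.gcd_pos_of_pos_right _ (by omega)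
    have p1 := Nat.div_pos (Nat.gcd_le_left x₁ (by omega : 0 < d₁)) hg1
    have p2 := Nat.div_pos (Nat.gcd_le_left x₂ (by omega : 0 < d₂)) hg2
    have hl : 0 < Nat.lcm (d₁ / Nat.gcd d₁ x₁) (d₂ / Nat.gcd d₂ x₂) := Nat.lcm_pos p1 p2
    have hd : Nat.lcm (d₁ / Nat.gcd d₁ x₁) (d₂ / Nat.gcd d₂ x₂) ∣ d₁ * d₂ :=
      Nat.lcm_dvd ((Nat.div_dvd_of_dvd (Nat.gcd_dvd_left _ _)).trans (Nat.dvd_mul_right _ _))
        ((Nat.div_dvd_of_dvd (Nat.gcd_dvd_left _ _)).trans (Nat.dvd_mul_left _ _))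
    have hcard := DensAAux.card_le_div hd
      ((range (d₁ * d₂)).filter (fun n : ℕ => (d₁ : ℤ) ∣ N - x₁ * n ∧ (d₂ : ℤ) ∣ N - x₂ * n))
      (fun n hn => mem_range.mp (mem_filter.mp hn).1)
      (fun n hn n' hn' => by
        have a1 := (mem_filter.mp hn).2
        have a2 := (mem_filter.mp hn').2
        have b1 := DensAAux.dvd_sub h₁ a1.1 a2.1
        have b2 := DensAAux.dvd_sub h₂ a1.2 a2.2
        rw [Int.natCast_dvd] at b1 b2 ⊢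
        exact Nat.lcm_dvd b1 b2)
    unfold rho
    obtain ⟨k, hk⟩ := hd
    have hd1 : (0 : ℝ) < d₁ := by exact_mod_cast (by omega : 0 < d₁)
    have hd2 : (0 : ℝ) < d₂ := by exact_mod_cast (by omega : 0 < d₂)
    have hlr : (0 : ℝ) < ((Nat.lcm (d₁ / Nat.gcd d₁ x₁) (d₂ / Nat.gcd d₂ x₂) : ℕ) : ℝ) := by
      exact_mod_cast hl
    rw [div_le_div_iff₀ (by positivity) hlr, one_mul]
    have hc2 : ((range (d₁ * d₂)).filter (fun n : ℕ => (d₁ : ℤ) ∣ N - x₁ * n ∧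
        (d₂ : ℤ) ∣ N - x₂ * n)).card * Nat.lcm (d₁ / Nat.gcd d₁ x₁) (d₂ / Nat.gcd d₂ x₂) ≤
        d₁ * d₂ := (Nat.mul_le_mul_right _ hcard).trans (Nat.div_mul_le_self _ _)
    exact_mod_cast hc2
  calc ∑ d₁ ∈ Icc 1 Y, ∑ d₂ ∈ Icc 1 Y, rho N x₁ x₂ d₁ d₂
      ≤ ∑ d₁ ∈ Icc 1 Y, ∑ d₂ ∈ Icc 1 Y,
        1 / ((Nat.lcm (d₁ / Nat.gcd d₁ x₁) (d₂ / Nat.gcd d₂ x₂) : ℕ) : ℝ) :=
        Finset.sum_le_sum fun d₁ hd₁ => Finset.sum_le_sum fun d₂ hd₂ => hrho d₁ hd₁ d₂ hd₂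
    _ ≤ ∑ d₁ ∈ Icc 1 Y, tauR x₂ * ∑ e ∈ Icc 1 Y,
        1 / ((Nat.lcm (d₁ / Nat.gcd d₁ x₁) e : ℕ) : ℝ) :=
        Finset.sum_le_sum fun d₁ _ => DensAAux.sum_div_gcd h₂ Y
          (fun e => 1 / ((Nat.lcm (d₁ / Nat.gcd d₁ x₁) e : ℕ) : ℝ)) (fun e => hK _ _)
    _ = tauR x₂ * ∑ d₁ ∈ Icc 1 Y, ∑ e ∈ Icc 1 Y,
        1 / ((Nat.lcm (d₁ / Nat.gcd d₁ x₁) e : ℕ) : ℝ) := by rw [Finset.mul_sum]
    _ ≤ tauR x₂ * (tauR x₁ * ∑ a ∈ Icc 1 Y, ∑ e ∈ Icc 1 Y, 1 / ((Nat.lcm a e : ℕ) : ℝ)) :=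
        mul_le_mul_of_nonneg_left (DensAAux.sum_div_gcd h₁ Y
          (fun a => ∑ e ∈ Icc 1 Y, 1 / ((Nat.lcm a e : ℕ) : ℝ))
          (fun a => Finset.sum_nonneg fun e _ => hK _ _)) (tauR_nonneg _)
    _ ≤ tauR x₂ * (tauR x₁ * Hs Y ^ 3) :=
        mul_le_mul_of_nonneg_left (mul_le_mul_of_nonneg_left (DensAAux.sum_lcm_le Y)
          (tauR_nonneg _)) (tauR_nonneg _)
    _ = tauR x₁ * tauR x₂ * Hs Y ^ 3 := by ring

theorem rho1_sum (N : ℤ) {x : ℕ} (h : 1 ≤ x) (Y : ℕ) :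
    ∑ d ∈ Icc 1 Y, rho1 N x d ≤ tauR x * Hs Y := by
  have hrho : ∀ d ∈ Icc 1 Y, rho1 N x d ≤ 1 / ((d / Nat.gcd d x : ℕ) : ℝ) := by
    intro d hd
    rw [mem_Icc] at hd
    have hg : 0 < Nat.gcd d x := Nat.gcd_pos_of_pos_right _ (by omega)
    have p1 := Nat.div_pos (Nat.gcd_le_left x (by omega : 0 < d)) hg
    have hcard := DensAAux.card_le_div (Nat.div_dvd_of_dvd (Nat.gcd_dvd_left d x))
      ((range d).filter (fun n : ℕ => (d : ℤ) ∣ N - x * n))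
      (fun n hn => mem_range.mp (mem_filter.mp hn).1)
      (fun n hn n' hn' => DensAAux.dvd_sub h (mem_filter.mp hn).2 (mem_filter.mp hn').2)
    unfold rho1
    have hd1 : (0 : ℝ) < d := by exact_mod_cast (by omega : 0 < d)
    have hlr : (0 : ℝ) < ((d / Nat.gcd d x : ℕ) : ℝ) := by exact_mod_cast p1
    rw [div_le_div_iff₀ hd1 hlr, one_mul]
    have hc2 : ((range d).filter (fun n : ℕ => (d : ℤ) ∣ N - x * n)).card * (d / Nat.gcd d x) ≤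
        d := (Nat.mul_le_mul_right _ hcard).trans (Nat.div_mul_le_self _ _)
    exact_mod_cast hc2
  calc ∑ d ∈ Icc 1 Y, rho1 N x d ≤ ∑ d ∈ Icc 1 Y, 1 / ((d / Nat.gcd d x : ℕ) : ℝ) :=
        Finset.sum_le_sum hrho
    _ ≤ tauR x * ∑ e ∈ Icc 1 Y, 1 / ((e : ℕ) : ℝ) :=
        DensAAux.sum_div_gcd h Y (fun e => 1 / ((e : ℕ) : ℝ)) (fun e => by positivity)
    _ = tauR x * Hs Y := by rw [DensAAux.Hs_eq]

end Pool.Agent.MVD
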