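import Pool.Agent.MVD.CorDef
import Pool.Agent.MVD.DensA

/-!
# Module DensB: averages over a full period

`period_avg`: for `(d₁ d₂, r) = 1` the functions `n ↦ χ(N-x₁n)χ̄(N-x₂n)` (period `r`) and `n ↦ 1[d₁ ∣ N-x₁n] 1[d₂ ∣ N-x₂n]` (period `d₁d₂`) have
coprime periods `r` and `d₁d₂`, so the sum over `n < r d₁ d₂` of the product is the product of the sums over one period each (Chinese remainder theorem: `ZMod.chineseRemainder` or the bijection
`n ↦ (n mod r, n mod d₁d₂)` of `range (r * (d₁d₂))`). The sum over one period of the second function is `d₁ d₂ rho`. `period_avg1`: the same with one condition.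
-/

open Finset Complex

namespace Pool.Agent.MVD

open Pool.Agent.ANT Pool.Agent.SInt

namespace DensBAux

/-- a sum over a product of coprime periods -/
lemma sum_coprime {r D : ℕ} (hr : 0 < r) (hD : 0 < D) (hc : r.Coprime D) (F G : ℕ → ℂ)
    (hF : ∀ n, F (n % r) = F n) (hG : ∀ n, G (n % D) = G n) :
    ∑ n ∈ range (r * D), F n * G n = (∑ n ∈ range r, F n) * ∑ n ∈ range D, G n := by
  classical
  have hinj : Set.InjOn (fun n : ℕ => (n % r, n % D)) (range (r * D) : Set ℕ) := by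
    intro n hn n' hn' heq
    rw [Finset.mem_coe, Finset.mem_range] at hn hn'
    have h1 : n % r = n' % r := congrArg Prod.fst heq
    have h2 : n % D = n' % D := congrArg Prod.snd heq
    have h3 : n ≡ n' [MOD r * D] := (Nat.modEq_and_modEq_iff_modEq_mul hc).mp ⟨h1, h2⟩
    exact Nat.ModEq.eq_of_lt_of_lt h3 hn hn'
  have himg : (range (r * D)).image (fun n : ℕ => (n % r, n % D)) = range r ×ˢ range D := by
    refine Finset.eq_of_subset_of_card_le ?_ ?_
    · intro x hx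
      obtain ⟨n, _, rfl⟩ := Finset.mem_image.mp hx
      rw [Finset.mem_product, Finset.mem_range, Finset.mem_range]
      exact ⟨Nat.mod_lt _ hr, Nat.mod_lt _ hD⟩
    · rw [Finset.card_image_of_injOn hinj, Finset.card_product, Finset.card_range, Finset.card_range,
        Finset.card_range]
  rw [Finset.sum_mul_sum, ← Finset.sum_product', ← himg, Finset.sum_image hinj]
  refine Finset.sum_congr rfl fun n _ => ?_
  rw [hF, hG]

lemma sum_zmod {r : ℕ} [NeZero r] (f : ZMod r → ℂ) :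
    ∑ m : ZMod r, f m = ∑ n ∈ range r, f (n : ZMod r) := by
  refine Finset.sum_nbij' (fun m : ZMod r => m.val) (fun n : ℕ => (n : ZMod r)) ?_ ?_ ?_ ?_ ?_
  · intro m _
    exact Finset.mem_range.mpr (ZMod.val_lt m)
  · intro n _
    exact Finset.mem_univ _
  · intro m _
    exact ZMod.natCast_zmod_val m
  · intro n hn
    exact ZMod.val_cast_of_lt (Finset.mem_range.mp hn)
  · intro m _
    rw [ZMod.natCast_zmod_val]

lemma cast_mod (r : ℕ) (N x : ℤ) (n : ℕ) :
    ((N - x * ((n % r : ℕ) : ℤ) : ℤ) : ZMod r) = ((N - x * n : ℤ) : ZMod r) := by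
  rw [Int.cast_sub, Int.cast_sub, Int.cast_mul, Int.cast_mul, Int.cast_natCast, Int.cast_natCast,
    ZMod.natCast_mod]

lemma dvd_mod {d D : ℕ} (hd : d ∣ D) (N x : ℤ) (n : ℕ) :
    ((d : ℤ) ∣ N - x * ((n % D : ℕ) : ℤ)) ↔ (d : ℤ) ∣ N - x * n := by
  obtain ⟨k, hk⟩ := hd
  have h0 : ((n : ℕ) : ℤ) = ((n % D : ℕ) : ℤ) + (d : ℤ) * ((k : ℤ) * ((n / D : ℕ) : ℤ)) := by
    have h1 := Nat.mod_add_div n D
    have h2 : n = n % D + d * (k * (n / D)) := by
      conv_lhs => rw [← h1]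
      conv_lhs => rw [hk]
      rw [← hk]
      rw [hk]
      ring
    exact_mod_cast h2
  have h : N - x * n = (N - x * ((n % D : ℕ) : ℤ)) -
      (d : ℤ) * (x * ((k : ℤ) * ((n / D : ℕ) : ℤ))) := by
    rw [h0]
    ring
  rw [h]
  constructor
  · intro h1
    exact dvd_sub h1 (dvd_mul_right _ _)
  · intro h1
    have h2 := dvd_add h1 (dvd_mul_right (d : ℤ) (x * ((k : ℤ) * ((n / D : ℕ) : ℤ))))
    rwa [sub_add_cancel] at h2

end DensBAux

open DensBAux

theorem period_avg {r : ℕ} [NeZero r] (χ : DirichletCharacter ℂ r) (N x₁ x₂ : ℤ) {d₁ d₂ : ℕ} (h₁ : 1 ≤ d₁)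
    (h₂ : 1 ≤ d₂) (hd₁ : d₁.Coprime r) (hd₂ : d₂.Coprime r) :
    ∑ n ∈ range (r * (d₁ * d₂)), (χ ((N - x₁ * n : ℤ) : ZMod r) * (starRingEnd ℂ) (χ ((N - x₂ * n : ℤ) : ZMod r)) *
      (if (d₁ : ℤ) ∣ N - x₁ * n ∧ (d₂ : ℤ) ∣ N - x₂ * n then 1 else 0)) =
      SC χ N x₁ x₂ * ((d₁ * d₂ * rho N x₁ x₂ d₁ d₂ : ℝ) : ℂ) := by
  classical
  have hr : 0 < r := Nat.pos_of_ne_zero (NeZero.ne r)
  have hD : 0 < d₁ * d₂ := Nat.mul_pos h₁ h₂
  have hc : r.Coprime (d₁ * d₂) := Nat.Coprime.mul_right hd₁.symm hd₂.symm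
  rw [sum_coprime hr hD hc
    (fun n : ℕ => χ ((N - x₁ * n : ℤ) : ZMod r) * (starRingEnd ℂ) (χ ((N - x₂ * n : ℤ) : ZMod r)))
    (fun n : ℕ => if (d₁ : ℤ) ∣ N - x₁ * n ∧ (d₂ : ℤ) ∣ N - x₂ * n then 1 else 0) ?_ ?_]
  · congr 1
    · rw [SC, sum_zmod]
      refine Finset.sum_congr rfl fun n _ => ?_
      push_cast
      rfl
    · rw [Finset.sum_boole, rho]
      have e1 : (d₁ : ℝ) ≠ 0 := by
        have : d₁ ≠ 0 := by omega
        exact_mod_cast this
      have e2 : (d₂ : ℝ) ≠ 0 := by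
        have : d₂ ≠ 0 := by omega
        exact_mod_cast this
      rw [mul_div_cancel₀ _ (mul_ne_zero e1 e2)]
      push_cast
      rfl
  · intro n
    simp only [cast_mod]
  · intro n
    simp only [dvd_mod (dvd_mul_right d₁ d₂), dvd_mod (dvd_mul_left d₂ d₁)]

theorem period_avg1 {r : ℕ} [NeZero r] (χ : DirichletCharacter ℂ r) (N x : ℤ) {d : ℕ} (h : 1 ≤ d)
    (hd : d.Coprime r) :
    ∑ n ∈ range (r * d), (χ ((N - x * n : ℤ) : ZMod r) * (if (d : ℤ) ∣ N - x * n then 1 else 0)) =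
      (∑ m : ZMod r, χ ((N : ZMod r) - x * m)) * ((d * rho1 N x d : ℝ) : ℂ) := by
  classical
  have hr : 0 < r := Nat.pos_of_ne_zero (NeZero.ne r)
  rw [sum_coprime hr h hd.symm (fun n : ℕ => χ ((N - x * n : ℤ) : ZMod r))
    (fun n : ℕ => if (d : ℤ) ∣ N - x * n then 1 else 0) ?_ ?_]
  · congr 1
    · rw [sum_zmod]
      refine Finset.sum_congr rfl fun n _ => ?_
      push_cast
      rfl
    · rw [Finset.sum_boole, rho1]
      have e1 : (d : ℝ) ≠ 0 := by
        have : d ≠ 0 := by omega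
        exact_mod_cast this
      rw [mul_div_cancel₀ _ e1]
      push_cast
      rfl
  · intro n
    simp only [cast_mod]
  · intro n
    simp only [dvd_mod (dvd_refl d)]

end Pool.Agent.MVD
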