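import Pool.Agent.MVD.Par
import Pool.Agent.SInt.Asy

/-!
# Module ErrS: pointwise errors

An error `E(v)` with `‖E(v)‖ ≤ δ`: for each `q ∈ [Q,2Q)` the `k ≥ 1` with `q k ≤ N ≤ 2X` number at most `2X/q`, `‖cc e i k‖ ≤ 1 + log k ≤ 1 + log(2X) ≤ 4 log X` (norm_cc_le in SInt/Asy), `∑_{q ∈ [Q,2Q)} 1/q ≤ 1`. Total `≤ 2X · (1 + log 2X) δ ≤ 8 X log² X δ` (`X ≥ 3`, `log X ≥ 1`).
-/

open Finset Complex

namespace Pool.Agent.MVD

open Pool.Agent.ANT Pool.Agent.SInt

/-- An error `E(v)` with `‖E(v)‖ ≤ δ` contributes at most `8 X log² X δ`. -/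
theorem err_sum {κ : ℝ} {X : ℕ} (hX : 3 ≤ X) {Q e i K N : ℕ} (hQ : 1 ≤ Q) (hi : i ≤ 1) (hN : N ≤ 2 * X) (Er : ℤ → ℂ) {δ : ℝ}
    (hδ : 0 ≤ δ) (hE : ∀ v : ℤ, (mV κ X : ℤ) ≤ v → v ≤ N → ‖Er v‖ ≤ δ) :
    ∑ q ∈ Ico Q (2 * Q), ‖∑ k ∈ (Icc 1 K).filter (fun k => q * k + mV κ X ≤ N), cc e i k * Er ((N : ℤ) - q * k)‖ ≤
      8 * X * Real.log X ^ 2 * δ := by
  have hX3 : (3 : ℝ) ≤ X := by exact_mod_cast hX
  have hX0 : (0 : ℝ) < X := by linarith
  have hL1 : 1 ≤ Real.log X := one_le_log hX3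
  have hlog2 : Real.log (2 * X) = Real.log 2 + Real.log X := Real.log_mul (by norm_num) (by linarith)
  have hl2 : Real.log 2 ≤ 1 := by
    have := Real.log_two_lt_d9
    linarith
  have hA : 0 ≤ 1 + Real.log (2 * X) := by
    have : 0 ≤ Real.log (2 * X) := Real.log_nonneg (by linarith)
    linarith
  have hA2 : 1 + Real.log (2 * X) ≤ 4 * Real.log X ^ 2 := by
    rw [hlog2]
    nlinarith
  have hterm : ∀ q ∈ Ico Q (2 * Q), ‖∑ k ∈ (Icc 1 K).filter (fun k => q * k + mV κ X ≤ N),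
      cc e i k * Er ((N : ℤ) - q * k)‖ ≤ ((2 * X / Q : ℕ) : ℝ) * ((1 + Real.log (2 * X)) * δ) := by
    intro q hq
    rw [mem_Ico] at hq
    have hsub : (Icc 1 K).filter (fun k => q * k + mV κ X ≤ N) ⊆ Icc 1 (2 * X / Q) := by
      intro k hk
      rw [mem_filter, mem_Icc] at hk
      rw [mem_Icc]
      refine ⟨hk.1.1, (Nat.le_div_iff_mul_le (by omega)).2 ?_⟩
      have h1 : k * Q ≤ q * k := by
        rw [mul_comm q k]
        exact Nat.mul_le_mul_left k hq.1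
      have h2 := hk.2
      omega
    have hcard := card_le_card hsub
    rw [Nat.card_Icc, Nat.add_sub_cancel] at hcard
    have hcardR : (((Icc 1 K).filter (fun k => q * k + mV κ X ≤ N)).card : ℝ) ≤
        ((2 * X / Q : ℕ) : ℝ) := by exact_mod_cast hcard
    calc ‖∑ k ∈ (Icc 1 K).filter (fun k => q * k + mV κ X ≤ N), cc e i k * Er ((N : ℤ) - q * k)‖
        ≤ ∑ k ∈ (Icc 1 K).filter (fun k => q * k + mV κ X ≤ N),
            ‖cc e i k * Er ((N : ℤ) - q * k)‖ := norm_sum_le _ _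
      _ ≤ ∑ _k ∈ (Icc 1 K).filter (fun k => q * k + mV κ X ≤ N),
            ((1 + Real.log (2 * X)) * δ) := by
          refine sum_le_sum fun k hk => ?_
          rw [mem_filter, mem_Icc] at hk
          obtain ⟨⟨hk1, _⟩, hk2⟩ := hk
          rw [norm_mul]
          have hkN : k ≤ 2 * X := by
            have : k ≤ q * k := Nat.le_mul_of_pos_left k (by omega)
            omega
          have hkR : (k : ℝ) ≤ 2 * X := by exact_mod_cast hkN
          have hk0 : (0 : ℝ) < k := by exact_mod_cast hk1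
          have h1 : ‖cc e i k‖ ≤ 1 + Real.log (2 * X) := by
            have h2 := Real.log_le_log hk0 hkR
            exact (norm_cc_le hi).trans (by linarith)
          have h3 : ‖Er ((N : ℤ) - q * k)‖ ≤ δ := by
            have h4 : ((q * k : ℕ) : ℤ) + (mV κ X : ℤ) ≤ N := by exact_mod_cast hk2
            push_cast at h4
            refine hE _ (by linarith) ?_
            have h5 : (0 : ℤ) ≤ (q : ℤ) * k := by positivity
            linarith
          exact mul_le_mul h1 h3 (norm_nonneg _) hA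
      _ = (((Icc 1 K).filter (fun k => q * k + mV κ X ≤ N)).card : ℝ) *
            ((1 + Real.log (2 * X)) * δ) := by rw [sum_const, nsmul_eq_mul]
      _ ≤ ((2 * X / Q : ℕ) : ℝ) * ((1 + Real.log (2 * X)) * δ) :=
          mul_le_mul_of_nonneg_right hcardR (mul_nonneg hA hδ)
  have hQX : (Q : ℝ) * ((2 * X / Q : ℕ) : ℝ) ≤ 2 * X := by
    have := Nat.mul_div_le (2 * X) Q
    exact_mod_cast this
  calc ∑ q ∈ Ico Q (2 * Q), ‖∑ k ∈ (Icc 1 K).filter (fun k => q * k + mV κ X ≤ N),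
        cc e i k * Er ((N : ℤ) - q * k)‖
      ≤ ∑ _q ∈ Ico Q (2 * Q), ((2 * X / Q : ℕ) : ℝ) * ((1 + Real.log (2 * X)) * δ) :=
        sum_le_sum hterm
    _ = ((Q : ℝ) * ((2 * X / Q : ℕ) : ℝ)) * ((1 + Real.log (2 * X)) * δ) := by
        rw [sum_const, Nat.card_Ico, nsmul_eq_mul, show 2 * Q - Q = Q by omega]
        ring
    _ ≤ (2 * X) * ((1 + Real.log (2 * X)) * δ) :=
        mul_le_mul_of_nonneg_right hQX (mul_nonneg hA hδ)
    _ ≤ (2 * X) * ((4 * Real.log X ^ 2) * δ) := by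
        gcongr
    _ = 8 * X * Real.log X ^ 2 * δ := by ring

end Pool.Agent.MVD
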