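import Pool.Agent.MVD.Defs

/-!
# Module PAR: parameters

`R = mR κ X = ⌊X^κ⌋`, `W = X/4`, `D = W/R^4`, `V = W/R^3` (natural divisions), `mz`, `mU` powers of two.
`R ≥ X^κ - 1 ≥ X^κ/2`. `W ≥ X/4 - 1 ≥ X/5`. `D R^4 ≤ W < (D+1) R^4`, and `W ≥ X/5 ≥ R^8` so `D ≥ 1`, `W ≤ 2 D R^4`.
`κ ≤ 1/1000` gives `R^1000 ≤ X`. `2^(clog n) ` is between `n` and `2n` for `n ≥ 2` (Nat.le_pow_clog, Nat.pow_pred_clog_lt_self).
-/

open Finset Complex

namespace Pool.Agent.MVD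

open Pool.Agent.ANT Pool.Agent.SInt

/-- The size relations between the parameters. -/
structure ParOK (κ : ℝ) (X : ℕ) : Prop where
  X3 : 1000 ≤ X
  R2 : 100 ≤ mR κ X
  Rle : (mR κ X : ℝ) ≤ (X : ℝ) ^ κ
  leR : (X : ℝ) ^ κ ≤ 2 * mR κ X
  Rpow : mR κ X ^ 1000 ≤ X
  W1 : 4 * mW X ≤ X
  W2 : X ≤ 5 * mW X
  D1 : mD κ X * mR κ X ^ 4 ≤ mW X
  D2 : mW X ≤ 2 * (mD κ X * mR κ X ^ 4)
  V1 : mV κ X * mR κ X ^ 3 ≤ mW X
  V2 : mW X ≤ 2 * (mV κ X * mR κ X ^ 3)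
  DV : 2 * mD κ X ≤ mV κ X
  D3 : mR κ X ^ 4 ≤ mD κ X
  z1 : mR κ X ^ 17 ≤ mz κ X
  z2 : mz κ X ≤ 2 * mR κ X ^ 17
  U1 : mR κ X ^ 15 ≤ mU κ X
  U2 : mU κ X ≤ 2 * mR κ X ^ 15

private theorem Par_clog {n : ℕ} (hn : 2 ≤ n) : 2 ^ Nat.clog 2 n ≤ 2 * n := by
  have h1 : 2 ^ (Nat.clog 2 n - 1) < n := Nat.pow_pred_clog_lt_self (by norm_num) (by omega)
  have h2 : 0 < Nat.clog 2 n := Nat.clog_pos (by norm_num) hn
  have h3 : 2 ^ Nat.clog 2 n = 2 * 2 ^ (Nat.clog 2 n - 1) := by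
    rw [← pow_succ']
    congr 1
    omega
  omega

private theorem Par_div {W M D : ℕ} (hD : D = W / M) (h1 : 1 ≤ D) (hM : 0 < M) :
    W ≤ 2 * (D * M) := by
  have h2 : W < M * (W / M + 1) := Nat.lt_mul_div_succ W hM
  rw [← hD] at h2
  nlinarith

theorem par_ok {κ : ℝ} (hκ : 0 < κ) (hκ1 : κ ≤ 1 / 1000) : ∃ X₀ : ℕ, ∀ X : ℕ, X₀ ≤ X → ParOK κ X := by
  refine ⟨1000 + ⌈(100 : ℝ) ^ (1 / κ)⌉₊, fun X hX => ?_⟩
  have hX3 : 1000 ≤ X := by omega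
  have hXR : (100 : ℝ) ^ (1 / κ) ≤ X := by
    refine (Nat.le_ceil _).trans ?_
    have : ⌈(100 : ℝ) ^ (1 / κ)⌉₊ ≤ X := by omega
    exact_mod_cast this
  have hXpos : (0 : ℝ) < X := by
    have : 0 < X := by omega
    exact_mod_cast this
  have hX1 : (1 : ℝ) ≤ X := by
    have : 1 ≤ X := by omega
    exact_mod_cast this
  have hXk : (100 : ℝ) ≤ (X : ℝ) ^ κ := by
    have h1 := Real.rpow_le_rpow (by positivity) hXR hκ.le
    rw [← Real.rpow_mul (by norm_num), one_div, inv_mul_cancel₀ hκ.ne', Real.rpow_one] at h1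
    exact h1
  have hR2 : 100 ≤ mR κ X := by
    unfold mR
    exact Nat.le_floor (by exact_mod_cast hXk)
  have hRle : (mR κ X : ℝ) ≤ (X : ℝ) ^ κ := Nat.floor_le (by positivity)
  have hRlt : (X : ℝ) ^ κ < mR κ X + 1 := Nat.lt_floor_add_one _
  have hR1 : (1 : ℝ) ≤ mR κ X := by
    have : 1 ≤ mR κ X := by omega
    exact_mod_cast this
  have hRpow : mR κ X ^ 1000 ≤ X := by
    have h1 : (mR κ X : ℝ) ^ 1000 ≤ X := by
      calc (mR κ X : ℝ) ^ 1000 ≤ ((X : ℝ) ^ κ) ^ 1000 :=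
            pow_le_pow_left₀ (Nat.cast_nonneg _) hRle 1000
        _ = (X : ℝ) ^ (κ * (1000 : ℕ)) := by rw [Real.rpow_mul hXpos.le, Real.rpow_natCast]
        _ ≤ (X : ℝ) ^ (1 : ℝ) := by
            apply Real.rpow_le_rpow_of_exponent_le hX1
            push_cast
            linarith
        _ = X := Real.rpow_one _
    exact_mod_cast h1
  have hW1 : 4 * mW X ≤ X := by
    unfold mW
    omega
  have hW2 : X ≤ 5 * mW X := by
    unfold mW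
    omega
  set R := mR κ X with hR
  have hRpos : 0 < R := by omega
  have h9 : R ^ 9 ≤ X := (Nat.pow_le_pow_right hRpos (by norm_num)).trans hRpow
  have h8 : R ^ 8 ≤ mW X := by
    have h1 : 5 * R ^ 8 ≤ R ^ 9 := by
      have : R ^ 9 = R * R ^ 8 := by ring
      rw [this]
      exact Nat.mul_le_mul_right _ (by omega)
    omega
  have hD3 : R ^ 4 ≤ mD κ X := by
    unfold mD
    rw [← hR, Nat.le_div_iff_mul_le (by positivity)]
    calc R ^ 4 * R ^ 4 = R ^ 8 := by ring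
      _ ≤ mW X := h8
  have hD1 : mD κ X * R ^ 4 ≤ mW X := Nat.div_mul_le_self _ _
  have hV5 : R ^ 5 ≤ mV κ X := by
    unfold mV
    rw [← hR, Nat.le_div_iff_mul_le (by positivity)]
    calc R ^ 5 * R ^ 3 = R ^ 8 := by ring
      _ ≤ mW X := h8
  have hR4 : 1 ≤ R ^ 4 := Nat.one_le_pow _ _ hRpos
  have hR5 : 1 ≤ R ^ 5 := Nat.one_le_pow _ _ hRpos
  have h17 : 2 ≤ R ^ 17 := by
    calc 2 ≤ R ^ 1 := by rw [pow_one]; omega
      _ ≤ R ^ 17 := Nat.pow_le_pow_right hRpos (by norm_num)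
  have h15 : 2 ≤ R ^ 15 := by
    calc 2 ≤ R ^ 1 := by rw [pow_one]; omega
      _ ≤ R ^ 15 := Nat.pow_le_pow_right hRpos (by norm_num)
  exact
    { X3 := hX3
      R2 := hR2
      Rle := hRle
      leR := by linarith
      Rpow := hRpow
      W1 := hW1
      W2 := hW2
      D1 := hD1
      D2 := Par_div rfl (hR4.trans hD3) (by positivity)
      V1 := Nat.div_mul_le_self _ _
      V2 := Par_div rfl (hR5.trans hV5) (by positivity)
      DV := by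
        unfold mV
        rw [← hR, Nat.le_div_iff_mul_le (by positivity)]
        calc 2 * mD κ X * R ^ 3 = mD κ X * (2 * R ^ 3) := by ring
          _ ≤ mD κ X * (R * R ^ 3) :=
              Nat.mul_le_mul_left _ (Nat.mul_le_mul_right _ (by omega))
          _ = mD κ X * R ^ 4 := by ring
          _ ≤ mW X := hD1
      D3 := hD3
      z1 := Nat.le_pow_clog (by norm_num) _
      z2 := Par_clog h17
      U1 := Nat.le_pow_clog (by norm_num) _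
      U2 := Par_clog h15 }

private theorem Par_R_rpow {κ : ℝ} {X : ℕ} (hP : ParOK κ X) {δ : ℝ} (hδ : 0 < δ) :
    (X : ℝ) ^ (κ * δ) ≤ 2 ^ δ * (mR κ X : ℝ) ^ δ := by
  have h1 : (0 : ℝ) ≤ X := Nat.cast_nonneg _
  rw [Real.rpow_mul h1, ← Real.mul_rpow (by norm_num) (Nat.cast_nonneg _)]
  exact Real.rpow_le_rpow (by positivity) hP.leR hδ.le

/-- Powers of the logarithm are smaller than every power of `R`. -/
theorem log_le_R {κ : ℝ} (hκ : 0 < κ) (hκ1 : κ ≤ 1 / 1000) (C : ℝ) (a : ℕ) {δ : ℝ} (hδ : 0 < δ) :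
    ∃ X₀ : ℕ, ∀ X : ℕ, X₀ ≤ X → C * Real.log X ^ a ≤ (mR κ X : ℝ) ^ δ := by
  obtain ⟨X1, hX1⟩ := par_ok hκ hκ1
  have hc : 0 < 1 / ((2 : ℝ) ^ δ * (|C| + 1)) := by positivity
  have h1 := (isLittleO_log_rpow_rpow_atTop (a : ℝ) (mul_pos hκ hδ)).bound hc
  obtain ⟨X2, hX2⟩ := Filter.eventually_atTop.1 h1.natCast_atTop
  refine ⟨X1 + X2, fun X hX => ?_⟩
  have hP := hX1 X (by omega)
  have h2 := hX2 X (by omega)
  have h3 := Par_R_rpow hP hδ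
  rw [Real.rpow_natCast, Real.norm_eq_abs, Real.norm_eq_abs,
    abs_of_nonneg (Real.rpow_nonneg (Nat.cast_nonneg X) _)] at h2
  have h4 : 0 ≤ (mR κ X : ℝ) ^ δ := Real.rpow_nonneg (Nat.cast_nonneg _) _
  have h5 : (0 : ℝ) < 2 ^ δ := by positivity
  have hC0 : 0 ≤ |C| := abs_nonneg C
  calc C * Real.log X ^ a ≤ |C * Real.log X ^ a| := le_abs_self _
    _ = |C| * |Real.log X ^ a| := abs_mul _ _
    _ ≤ |C| * (1 / (2 ^ δ * (|C| + 1)) * (2 ^ δ * (mR κ X : ℝ) ^ δ)) := by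
        refine mul_le_mul_of_nonneg_left (h2.trans ?_) hC0
        exact mul_le_mul_of_nonneg_left h3 hc.le
    _ = |C| / (|C| + 1) * (mR κ X : ℝ) ^ δ := by
        field_simp
    _ ≤ 1 * (mR κ X : ℝ) ^ δ := by
        refine mul_le_mul_of_nonneg_right ?_ h4
        rw [div_le_one (by positivity)]
        linarith
    _ = (mR κ X : ℝ) ^ δ := one_mul _

/-- Divisor bound in terms of `R`: from `tauR_le_rpow` of Lib/ANT/DivBound. -/
theorem tau_le_R {κ : ℝ} (hκ : 0 < κ) (hκ1 : κ ≤ 1 / 1000) {δ : ℝ} (hδ : 0 < δ) :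
    ∃ X₀ : ℕ, ∀ X : ℕ, X₀ ≤ X → ∀ n : ℕ, n ≠ 0 → n ≤ X ^ 4 → tauR n ≤ (mR κ X : ℝ) ^ δ := by
  obtain ⟨X1, hX1⟩ := par_ok hκ hκ1
  have hε : 0 < κ * δ / 8 := by positivity
  obtain ⟨C, hC1, hC⟩ := tauR_le_rpow hε
  have hκδ : 0 < κ * δ / 2 := by positivity
  have h1 := (tendsto_rpow_atTop hκδ).eventually_ge_atTop (C * 2 ^ δ)
  obtain ⟨X2, hX2⟩ := Filter.eventually_atTop.1 h1.natCast_atTop
  refine ⟨X1 + X2, fun X hX n hn hnX => ?_⟩
  have hP := hX1 X (by omega)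
  have h2 := hX2 X (by omega)
  have h3 := Par_R_rpow hP hδ
  have hXpos : (0 : ℝ) < X := by
    have := hP.X3
    have : 0 < X := by omega
    exact_mod_cast this
  have h5 : (0 : ℝ) < 2 ^ δ := by positivity
  have h6 : (n : ℝ) ^ (κ * δ / 8) ≤ (X : ℝ) ^ (κ * δ / 2) := by
    have h7 : (n : ℝ) ≤ (X : ℝ) ^ 4 := by exact_mod_cast hnX
    calc (n : ℝ) ^ (κ * δ / 8) ≤ ((X : ℝ) ^ 4) ^ (κ * δ / 8) :=
          Real.rpow_le_rpow (Nat.cast_nonneg _) h7 hε.le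
      _ = (X : ℝ) ^ (κ * δ / 2) := by
          rw [← Real.rpow_natCast, ← Real.rpow_mul hXpos.le]
          congr 1
          push_cast
          ring
  have h8 : (X : ℝ) ^ (κ * δ) = (X : ℝ) ^ (κ * δ / 2) * (X : ℝ) ^ (κ * δ / 2) := by
    rw [← Real.rpow_add hXpos]
    congr 1
    ring
  have h9 : 0 < (X : ℝ) ^ (κ * δ / 2) := by positivity
  have h10 : 2 ^ δ * (C * (n : ℝ) ^ (κ * δ / 8)) ≤ 2 ^ δ * (mR κ X : ℝ) ^ δ := by
    calc 2 ^ δ * (C * (n : ℝ) ^ (κ * δ / 8)) = C * 2 ^ δ * (n : ℝ) ^ (κ * δ / 8) := by ring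
      _ ≤ (X : ℝ) ^ (κ * δ / 2) * (X : ℝ) ^ (κ * δ / 2) := by gcongr
      _ = (X : ℝ) ^ (κ * δ) := h8.symm
      _ ≤ _ := h3
  exact (hC n hn).trans (le_of_mul_le_mul_left h10 h5)

/-- Basic consequences for harmonic sums. -/
theorem Hs_le_log {X n : ℕ} (hX : 3 ≤ X) (hn : n ≤ X ^ 2) : Hs n ≤ 3 * Real.log X := by
  have hXR : (3 : ℝ) ≤ X := by exact_mod_cast hX
  have h1 : 1 ≤ Real.log X := by
    rw [Real.le_log_iff_exp_le (by linarith)]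
    have := Real.exp_one_lt_d9
    linarith
  have h2 : Real.log n ≤ 2 * Real.log X := by
    rcases Nat.eq_zero_or_pos n with rfl | hn0
    · simp only [Nat.cast_zero, Real.log_zero]
      linarith
    · have h3 : (n : ℝ) ≤ (X : ℝ) ^ 2 := by exact_mod_cast hn
      have h4 := Real.log_le_log (by exact_mod_cast hn0) h3
      rwa [Real.log_pow] at h4
  have h3 := Hs_le n
  linarith

end Pool.Agent.MVD
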