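import Pool.Agent.MVD.MJchar
import Pool.Agent.MVD.Par
import Pool.Agent.MVD.ErrS
import Pool.Agent.SInt.Asy
import Pool.Agent.SInt.MJhat

/-!
# Module EGTail: the range `N - qk < V`

`EG c K f N q = ∑_{k ≤ K} c(k) f(N - qk)` (see its definition in SInt). `MJ v = 0` for `v ≤ -D` (MJ_zero in SInt/MJhat), `‖MJ v‖ ≤ R² log(2X)` (norm_MJ_le), `‖cc e i k‖ ≤ 1 + log k` (norm_cc_le); the `k` with `MJ(N-qk) ≠ 0` satisfy `qk < N + D ≤ 2X`. The number of `k` with
`-D < N - qk < V` is at most `(V + D)/q + 1`. Sum over `q ∈ [Q,2Q)`: `≤ (V + D) + Q`, so the total is `≤ (1 + log 2X) R² log(2X) (2 X/R^3 + X^{1-ε}) ≤ X/√R`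
(`V ≤ X/R^3`, `D ≤ V`, `X^ε ≥ X^{20κ} ≥ R^20`).
-/

open Finset Complex

namespace Pool.Agent.MVD

open Pool.Agent.ANT Pool.Agent.SInt

private lemma egT_sub {X R D V K N q : ℕ} {c : ℕ → ℂ} (hD : 1 ≤ D) :
    EG (fun _ => c) K (MJ X R D) N q -
        ∑ k ∈ (Icc 1 K).filter (fun k => q * k + V ≤ N), c k * MJ X R D ((N : ℤ) - q * k) =
      ∑ k ∈ (Icc 1 K).filter (fun k => N < q * k + V ∧ q * k < N + D),
        c k * MJ X R D ((N : ℤ) - q * k) := by
  unfold EG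
  rw [Finset.sum_filter, Finset.sum_filter, ← Finset.sum_sub_distrib]
  refine Finset.sum_congr rfl fun k _ => ?_
  by_cases h1 : q * k + V ≤ N
  · rw [if_pos h1, sub_self, if_neg]
    intro h2
    omega
  · rw [if_neg h1, sub_zero]
    by_cases h2 : q * k < N + D
    · rw [if_pos ⟨by omega, h2⟩]
    · rw [if_neg (fun h => h2 h.2), MJ_zero hD, mul_zero]
      left
      have h3 : N + D ≤ q * k := by omega
      have h4 : (N : ℤ) + D ≤ q * k := by exact_mod_cast h3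
      omega

private lemma egT_card {D V K N q : ℕ} (hq : 1 ≤ q) :
    (((Icc 1 K).filter (fun k => N < q * k + V ∧ q * k < N + D)).card : ℝ) ≤
      ((V + D : ℕ) : ℝ) / q + 1 := by
  have h1 : (Icc 1 K).filter (fun k => N < q * k + V ∧ q * k < N + D) ⊆
      Ioc ((N - V) / q) ((N + D) / q) := by
    intro k hk
    rw [mem_filter, mem_Icc] at hk
    obtain ⟨⟨hk1, _⟩, hk2, hk3⟩ := hk
    rw [mem_Ioc]
    constructor
    · rw [Nat.div_lt_iff_lt_mul hq]
      have : 1 * 1 ≤ k * q := Nat.mul_le_mul hk1 hq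
      have h2 : q * k = k * q := mul_comm _ _
      omega
    · rw [Nat.le_div_iff_mul_le hq]
      have h2 : q * k = k * q := mul_comm _ _
      omega
  have h2 := Finset.card_le_card h1
  rw [Nat.card_Ioc] at h2
  have h3 : (N + D) / q ≤ (N - V) / q + (V + D) / q + 1 := by
    apply Nat.le_of_lt_succ
    rw [Nat.div_lt_iff_lt_mul hq]
    have h4 : N - V < q * ((N - V) / q + 1) := Nat.lt_mul_div_succ _ hq
    have h5 : V + D < q * ((V + D) / q + 1) := Nat.lt_mul_div_succ _ hq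
    have h6 : ((N - V) / q + (V + D) / q + 1 + 1) * q =
      q * ((N - V) / q + 1) + q * ((V + D) / q + 1) := by ring
    rw [Nat.succ_eq_add_one, h6]
    omega
  have h4 : ((Icc 1 K).filter (fun k => N < q * k + V ∧ q * k < N + D)).card ≤
      (V + D) / q + 1 := by
    refine h2.trans ?_
    generalize (N + D) / q = a at h3 ⊢
    generalize (N - V) / q = b at h3 ⊢
    generalize (V + D) / q = c at h3 ⊢
    omega
  calc (((Icc 1 K).filter (fun k => N < q * k + V ∧ q * k < N + D)).card : ℝ) ≤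
        (((V + D) / q + 1 : ℕ) : ℝ) := by exact_mod_cast h4
    _ = (((V + D) / q : ℕ) : ℝ) + 1 := by push_cast; rfl
    _ ≤ ((V + D : ℕ) : ℝ) / q + 1 := by
      have := Nat.cast_div_le (α := ℝ) (m := V + D) (n := q)
      linarith

theorem EG_tail {κ ε : ℝ} (hκ : 0 < κ) (hκ1 : κ ≤ 1 / 1000) (hε : 20 * κ ≤ ε) : ∃ X₀ : ℕ, ∀ X : ℕ, X₀ ≤ X →
    ∀ Q : ℕ, 1 ≤ Q → (Q : ℝ) ≤ (X : ℝ) ^ (1 - ε) → ∀ e i K N : ℕ, i ≤ 1 → X - mW X < N → N < X + mW X →
    ∑ q ∈ Ico Q (2 * Q), ‖EG (fun _ => cc e i) K (MJ X (mR κ X) (mD κ X)) N q -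
        ∑ k ∈ (Icc 1 K).filter (fun k => q * k + mV κ X ≤ N), cc e i k * MJ X (mR κ X) (mD κ X) ((N : ℤ) - q * k)‖ ≤
      X / √(mR κ X : ℝ) := by
  obtain ⟨X₁, h₁⟩ := par_ok hκ hκ1
  obtain ⟨X₂, h₂⟩ := log_le_R hκ hκ1 12 2 (δ := 1 / 2) (by norm_num)
  refine ⟨max X₁ X₂, fun X hX Q hQ hQX e i K N hi hN1 hN2 => ?_⟩
  have hP := h₁ X (le_trans (le_max_left _ _) hX)
  have hL := h₂ X (le_trans (le_max_right _ _) hX)
  have hRn : 1 ≤ mR κ X := by
    have := hP.R2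
    omega
  have hD : 1 ≤ mD κ X := by
    have h1 := hP.D3
    have h3 : 1 ≤ mR κ X ^ 4 := Nat.one_le_pow _ _ hRn
    omega
  have hR0 : (1 : ℝ) ≤ mR κ X := by exact_mod_cast hRn
  have hRpos : (0 : ℝ) < mR κ X := by linarith
  have hX3 : (1000 : ℝ) ≤ X := by exact_mod_cast hP.X3
  have hXpos : (0 : ℝ) < X := by linarith
  have hlog : 1 ≤ Real.log X := by
    rw [Real.le_log_iff_exp_le hXpos]
    have := Real.exp_one_lt_d9
    linarith
  have hDW : mD κ X ≤ mW X := by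
    have h1 := hP.D1
    have h3 : 1 ≤ mR κ X ^ 4 := Nat.one_le_pow _ _ hRn
    calc mD κ X = mD κ X * 1 := (mul_one _).symm
      _ ≤ mD κ X * mR κ X ^ 4 := Nat.mul_le_mul_left _ h3
      _ ≤ mW X := h1
  have hND : N + mD κ X ≤ 2 * X := by
    have := hP.W1
    omega
  have hN0 : 1 ≤ N := by omega
  have hXn : 1 ≤ X := by
    have := hP.X3
    omega
  -- the bound for one modulus
  set B : ℝ := (1 + Real.log (2 * X)) * ((mR κ X : ℝ) ^ 2 * Real.log (2 * X)) with hB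
  have hlog2 : 0 ≤ Real.log (2 * X) := Real.log_nonneg (by linarith)
  have hB0 : 0 ≤ B := by positivity
  have h5 : ∀ q ∈ Ico Q (2 * Q), ‖EG (fun _ => cc e i) K (MJ X (mR κ X) (mD κ X)) N q -
        ∑ k ∈ (Icc 1 K).filter (fun k => q * k + mV κ X ≤ N), cc e i k *
          MJ X (mR κ X) (mD κ X) ((N : ℤ) - q * k)‖ ≤
      (((mV κ X + mD κ X : ℕ) : ℝ) / Q + 1) * B := by
    intro q hq
    rw [mem_Ico] at hq
    have hq1 : 1 ≤ q := le_trans hQ hq.1
    have hqr : (Q : ℝ) ≤ q := by exact_mod_cast hq.1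
    have hQr : (0 : ℝ) < Q := by exact_mod_cast hQ
    rw [egT_sub hD]
    refine (norm_sum_le _ _).trans ?_
    have h6 : ∀ k ∈ (Icc 1 K).filter (fun k => N < q * k + mV κ X ∧ q * k < N + mD κ X),
        ‖cc e i k * MJ X (mR κ X) (mD κ X) ((N : ℤ) - q * k)‖ ≤ B := by
      intro k hk
      rw [mem_filter, mem_Icc] at hk
      obtain ⟨⟨hk1, _⟩, _, hk3⟩ := hk
      rw [norm_mul]
      have hk4 : k ≤ 2 * X := by
        have : 1 * k ≤ q * k := Nat.mul_le_mul_right _ hq1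
        omega
      have hk5 : (k : ℝ) ≤ 2 * X := by exact_mod_cast hk4
      have hk6 : (0 : ℝ) < k := by exact_mod_cast hk1
      have hk7 : Real.log k ≤ Real.log (2 * X) := Real.log_le_log hk6 hk5
      have hk8 := norm_cc_le (d := e) (i := i) (k := k) hi
      exact mul_le_mul (by linarith) (norm_MJ_le hXn hD _) (norm_nonneg _) (by linarith)
    refine (Finset.sum_le_card_nsmul _ _ _ h6).trans ?_
    rw [nsmul_eq_mul]
    refine mul_le_mul_of_nonneg_right ?_ hB0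
    refine (egT_card hq1).trans ?_
    have h7 : ((mV κ X + mD κ X : ℕ) : ℝ) / q ≤ ((mV κ X + mD κ X : ℕ) : ℝ) / Q :=
      div_le_div_of_nonneg_left (Nat.cast_nonneg _) hQr hqr
    linarith
  refine (Finset.sum_le_card_nsmul _ _ _ h5).trans ?_
  rw [nsmul_eq_mul, Nat.card_Ico]
  have h6 : 2 * Q - Q = Q := by omega
  rw [h6]
  have hQr : (0 : ℝ) < Q := by exact_mod_cast hQ
  have h7 : (Q : ℝ) * ((((mV κ X + mD κ X : ℕ) : ℝ) / Q + 1) * B) =
      ((mV κ X : ℝ) + mD κ X + Q) * B := by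
    push_cast
    field_simp
  rw [h7]
  have h8 : (mV κ X : ℝ) + mD κ X ≤ X / (mR κ X : ℝ) ^ 3 := by
    rw [le_div_iff₀ (by positivity)]
    have h9 : (mV κ X + mD κ X) * mR κ X ^ 3 ≤ X := by
      have h10 := hP.V1
      have h11 := hP.DV
      have h12 := hP.W1
      have h13 : mD κ X * mR κ X ^ 3 ≤ mV κ X * mR κ X ^ 3 := Nat.mul_le_mul_right _ (by omega)
      rw [add_mul]
      omega
    exact_mod_cast h9
  have h9 : (Q : ℝ) ≤ X / (mR κ X : ℝ) ^ 3 := by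
    refine hQX.trans ?_
    rw [le_div_iff₀ (by positivity)]
    have h10 : (mR κ X : ℝ) ^ 3 ≤ (X : ℝ) ^ ε := by
      calc (mR κ X : ℝ) ^ 3 ≤ (mR κ X : ℝ) ^ 20 := pow_le_pow_right₀ hR0 (by norm_num)
        _ ≤ ((X : ℝ) ^ κ) ^ 20 := pow_le_pow_left₀ hRpos.le hP.Rle 20
        _ = (X : ℝ) ^ (20 * κ) := by
          rw [← Real.rpow_natCast, ← Real.rpow_mul hXpos.le]
          congr 1
          push_cast
          ring
        _ ≤ (X : ℝ) ^ ε := Real.rpow_le_rpow_of_exponent_le (by linarith) hε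
    calc (X : ℝ) ^ (1 - ε) * (mR κ X : ℝ) ^ 3 ≤ (X : ℝ) ^ (1 - ε) * (X : ℝ) ^ ε := by gcongr
      _ = X := by
        rw [← Real.rpow_add hXpos]
        simp
  have h10 : (1 + Real.log (2 * X)) * Real.log (2 * X) ≤ 6 * Real.log X ^ 2 := by
    have h11 : Real.log (2 * X) ≤ 2 * Real.log X := by
      calc Real.log (2 * X) ≤ Real.log ((X : ℝ) ^ 2) :=
            Real.log_le_log (by positivity) (by nlinarith)
        _ = 2 * Real.log X := by
          rw [Real.log_pow]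
          norm_num
    calc (1 + Real.log (2 * X)) * Real.log (2 * X) ≤ (3 * Real.log X) * (2 * Real.log X) :=
          mul_le_mul (by linarith) h11 hlog2 (by linarith)
      _ = 6 * Real.log X ^ 2 := by ring
  have h11 : ((mV κ X : ℝ) + mD κ X + Q) * B ≤ (2 * (X / (mR κ X : ℝ) ^ 3)) *
      ((6 * Real.log X ^ 2) * (mR κ X : ℝ) ^ 2) := by
    refine mul_le_mul (by linarith) ?_ hB0 (by positivity)
    rw [hB]
    calc (1 + Real.log (2 * X)) * ((mR κ X : ℝ) ^ 2 * Real.log (2 * X)) =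
          ((1 + Real.log (2 * X)) * Real.log (2 * X)) * (mR κ X : ℝ) ^ 2 := by ring
      _ ≤ (6 * Real.log X ^ 2) * (mR κ X : ℝ) ^ 2 := by gcongr
  refine h11.trans ?_
  have h12 : (2 * (X / (mR κ X : ℝ) ^ 3)) * ((6 * Real.log X ^ 2) * (mR κ X : ℝ) ^ 2) =
      X * (12 * Real.log X ^ 2) / mR κ X := by
    field_simp
    ring
  rw [h12]
  rw [Real.sqrt_eq_rpow, div_le_div_iff₀ hRpos (by positivity)]
  calc (X : ℝ) * (12 * Real.log X ^ 2) * (mR κ X : ℝ) ^ (1 / 2 : ℝ)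
      ≤ X * (mR κ X : ℝ) ^ (1 / 2 : ℝ) * (mR κ X : ℝ) ^ (1 / 2 : ℝ) := by gcongr
    _ = X * mR κ X := by
      rw [mul_assoc, ← Real.rpow_add hRpos]
      norm_num

end Pool.Agent.MVD
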