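import Pool.Agent.MVD.Defs

/-!
# Module PERS: periodic times slowly varying

`g` has period `P`, `|g| ≤ G`, mean `A = (1/P) ∑_{n < P} g(n)`. The incomplete sums of `g - A` over any interval are at most `2 G P` (full periods give zero), so by
Abel summation `|∑ (g - A) Φ| ≤ 2 G P (|Φ(last)| + ∑ |Φ(n+1) - Φ(n)|) ≤ 2 G P (1 + V)`.
-/

open Finset Complex

namespace Pool.Agent.MVD

open Pool.Agent.ANT Pool.Agent.SInt

/-- Total variation along `n₀ < n < n₁`. -/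
noncomputable def tv (Φ : ℕ → ℂ) (n₀ n₁ : ℕ) : ℝ := ∑ n ∈ Ioo n₀ n₁, ‖Φ (n + 1) - Φ n‖

private lemma shift_sum {E : Type*} [AddCommGroup E] {P : ℕ} (h : ℕ → E) (hh : ∀ n, h (n + P) = h n) (a : ℕ) :
    ∑ n ∈ range P, h (a + n) = ∑ n ∈ range P, h n := by
  induction a with
  | zero => simp
  | succ a ih =>
    rw [← ih]
    have h1 : ∑ n ∈ range (P + 1), h (a + n) = ∑ n ∈ range P, h (a + n) + h (a + P) := sum_range_succ _ _
    have h2 : ∑ n ∈ range (P + 1), h (a + n) = ∑ n ∈ range P, h (a + (n + 1)) + h (a + 0) := sum_range_succ' _ _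
    have h3 : ∑ n ∈ range P, h (a + (n + 1)) = ∑ n ∈ range P, h (a + n) := by
      have h4 := h1.symm.trans h2
      rw [hh a, add_zero] at h4
      exact (add_right_cancel h4).symm
    rw [← h3]
    exact sum_congr rfl fun n _ => by congr 1; omega

private lemma full_sum {E : Type*} [AddCommGroup E] {P : ℕ} (h : ℕ → E) (hh : ∀ n, h (n + P) = h n) (a : ℕ) :
    ∑ n ∈ Ioc a (a + P), h n = ∑ n ∈ range P, h n := by
  rw [← shift_sum h hh (a + 1)]
  have : Ioc a (a + P) = Ico (a + 1) (a + 1 + P) := by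
    ext x; simp only [mem_Ioc, mem_Ico]; omega
  rw [this, sum_Ico_eq_sum_range]
  simp

private lemma split_sum {E : Type*} [AddCommGroup E] {P : ℕ} (h : ℕ → E) (hh : ∀ n, h (n + P) = h n) {a b : ℕ}
    (hab : a + P ≤ b) : ∑ n ∈ Ioc a b, h n = ∑ n ∈ range P, h n + ∑ n ∈ Ioc (a + P) b, h n := by
  rw [← full_sum h hh a]
  have hd : Disjoint (Ioc a (a + P)) (Ioc (a + P) b) := by
    rw [Finset.disjoint_left]; intro x; simp only [mem_Ioc]; omega
  rw [← sum_union hd]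
  congr 1
  ext x; simp only [mem_Ioc, mem_union]; omega

private lemma bd_sum {P : ℕ} (hP : 1 ≤ P) (h : ℕ → ℂ) (hh : ∀ n, h (n + P) = h n) {H : ℝ} (hH : 0 ≤ H)
    (hb : ∀ n, ‖h n‖ ≤ H) (h0 : ∑ n ∈ range P, h n = 0) :
    ∀ k a b : ℕ, b - a ≤ k → ‖∑ n ∈ Ioc a b, h n‖ ≤ H * P := by
  intro k
  induction k with
  | zero =>
    intro a b hk
    have : Ioc a b = ∅ := by
      ext x; simp only [mem_Ioc, notMem_empty, iff_false]; omega
    rw [this]; simp; positivity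
  | succ k ih =>
    intro a b hk
    by_cases hab : a + P ≤ b
    · rw [split_sum h hh hab, h0, zero_add]
      exact ih _ _ (by omega)
    · calc ‖∑ n ∈ Ioc a b, h n‖ ≤ ∑ n ∈ Ioc a b, ‖h n‖ := norm_sum_le _ _
        _ ≤ ∑ n ∈ Ioc a b, H := sum_le_sum fun n _ => hb n
        _ = ((b - a : ℕ) : ℝ) * H := by rw [sum_const, Nat.card_Ioc, nsmul_eq_mul]
        _ ≤ (P : ℝ) * H := by
            apply mul_le_mul_of_nonneg_right _ hH
            exact_mod_cast (by omega : b - a ≤ P)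
        _ = H * P := mul_comm _ _

private lemma abel (h Φ : ℕ → ℂ) (n₀ : ℕ) : ∀ k : ℕ,
    ∑ n ∈ Ioc n₀ (n₀ + 1 + k), h n * Φ n =
      (∑ n ∈ Ioc n₀ (n₀ + 1 + k), h n) * Φ (n₀ + 1 + k) -
        ∑ n ∈ Ioo n₀ (n₀ + 1 + k), (∑ m ∈ Ioc n₀ n, h m) * (Φ (n + 1) - Φ n) := by
  intro k
  induction k with
  | zero =>
    have h1 : Ioc n₀ (n₀ + 1) = {n₀ + 1} := by
      ext x; simp only [mem_Ioc, mem_singleton]; omega
    have h2 : Ioo n₀ (n₀ + 1) = ∅ := by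
      ext x; simp only [mem_Ioo, notMem_empty, iff_false]; omega
    simp only [add_zero, h1, h2, sum_singleton, sum_empty, sub_zero]
  | succ k ih =>
    have h1 : Ioc n₀ (n₀ + 1 + (k + 1)) = insert (n₀ + 1 + (k + 1)) (Ioc n₀ (n₀ + 1 + k)) := by
      ext x; simp only [mem_Ioc, mem_insert]; omega
    have h2 : Ioo n₀ (n₀ + 1 + (k + 1)) = insert (n₀ + 1 + k) (Ioo n₀ (n₀ + 1 + k)) := by
      ext x; simp only [mem_Ioo, mem_insert]; omega
    have h3 : (n₀ + 1 + (k + 1)) ∉ Ioc n₀ (n₀ + 1 + k) := by simp only [mem_Ioc]; omega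
    have h4 : (n₀ + 1 + k) ∉ Ioo n₀ (n₀ + 1 + k) := by simp only [mem_Ioo]; omega
    rw [h1, h2, sum_insert h3, sum_insert h4, sum_insert h3, ih]
    rw [show n₀ + 1 + k + 1 = n₀ + 1 + (k + 1) by omega]
    ring

theorem per_sum {P : ℕ} (hP : 1 ≤ P) (g Φ : ℕ → ℂ) (hg : ∀ n, g (n + P) = g n) {G V : ℝ} (hG : 0 ≤ G)
    (hgG : ∀ n, ‖g n‖ ≤ G) (hΦ : ∀ n, ‖Φ n‖ ≤ 1) (n₀ n₁ : ℕ) (hV : tv Φ n₀ n₁ ≤ V) :
    ‖∑ n ∈ Ioc n₀ n₁, g n * Φ n‖ ≤
      ‖∑ n ∈ range P, g n‖ / P * ‖∑ n ∈ Ioc n₀ n₁, Φ n‖ + 2 * G * P * (1 + V) := by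
  have hP0 : (0 : ℝ) < P := by exact_mod_cast hP
  have htv : 0 ≤ tv Φ n₀ n₁ := sum_nonneg fun n _ => norm_nonneg _
  have hV0 : 0 ≤ V := htv.trans hV
  set A : ℂ := (∑ n ∈ range P, g n) / P with hA
  set h : ℕ → ℂ := fun n => g n - A with hh
  have hAn : ‖A‖ = ‖∑ n ∈ range P, g n‖ / P := by rw [hA, norm_div, Complex.norm_natCast]
  have hAG : ‖A‖ ≤ G := by
    rw [hAn, div_le_iff₀ hP0]
    calc ‖∑ n ∈ range P, g n‖ ≤ ∑ n ∈ range P, ‖g n‖ := norm_sum_le _ _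
      _ ≤ ∑ n ∈ range P, G := sum_le_sum fun n _ => hgG n
      _ = G * P := by rw [sum_const, card_range, nsmul_eq_mul]; ring
  have hper : ∀ n, h (n + P) = h n := fun n => by simp only [hh, hg]
  have hb : ∀ n, ‖h n‖ ≤ 2 * G := fun n => by
    calc ‖h n‖ ≤ ‖g n‖ + ‖A‖ := norm_sub_le _ _
      _ ≤ 2 * G := by linarith [hgG n]
  have h0 : ∑ n ∈ range P, h n = 0 := by
    simp only [hh, sum_sub_distrib, sum_const, card_range, nsmul_eq_mul]
    rw [hA, mul_div_cancel₀]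
    · ring
    · exact_mod_cast hP0.ne'
  have hS : ∀ a b : ℕ, ‖∑ n ∈ Ioc a b, h n‖ ≤ 2 * G * P := fun a b =>
    bd_sum hP h hper (by positivity) hb h0 (b - a) a b le_rfl
  have hsplit : ∑ n ∈ Ioc n₀ n₁, g n * Φ n = A * ∑ n ∈ Ioc n₀ n₁, Φ n + ∑ n ∈ Ioc n₀ n₁, h n * Φ n := by
    rw [mul_sum, ← sum_add_distrib]
    exact sum_congr rfl fun n _ => by simp only [hh]; ring
  have hmain : ‖∑ n ∈ Ioc n₀ n₁, h n * Φ n‖ ≤ 2 * G * P * (1 + V) := by
    by_cases hn : n₁ ≤ n₀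
    · have : Ioc n₀ n₁ = ∅ := by
        ext x; simp only [mem_Ioc, notMem_empty, iff_false]; omega
      rw [this]; simp; positivity
    · obtain ⟨k, rfl⟩ : ∃ k, n₁ = n₀ + 1 + k := ⟨n₁ - (n₀ + 1), by omega⟩
      rw [abel h Φ n₀ k]
      calc _ ≤ ‖(∑ n ∈ Ioc n₀ (n₀ + 1 + k), h n) * Φ (n₀ + 1 + k)‖ +
            ‖∑ n ∈ Ioo n₀ (n₀ + 1 + k), (∑ m ∈ Ioc n₀ n, h m) * (Φ (n + 1) - Φ n)‖ := norm_sub_le _ _
        _ ≤ 2 * G * P * 1 + ∑ n ∈ Ioo n₀ (n₀ + 1 + k), 2 * G * P * ‖Φ (n + 1) - Φ n‖ := by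
            apply add_le_add
            · rw [norm_mul]
              exact mul_le_mul (hS _ _) (hΦ _) (norm_nonneg _) (by positivity)
            · refine (norm_sum_le _ _).trans (sum_le_sum fun n _ => ?_)
              rw [norm_mul]
              exact mul_le_mul_of_nonneg_right (hS _ _) (norm_nonneg _)
        _ = 2 * G * P * (1 + tv Φ n₀ (n₀ + 1 + k)) := by rw [← mul_sum, tv]; ring
        _ ≤ 2 * G * P * (1 + V) := by
            apply mul_le_mul_of_nonneg_left _ (by positivity); linarith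
  rw [hsplit, ← hAn]
  calc _ ≤ ‖A * ∑ n ∈ Ioc n₀ n₁, Φ n‖ + ‖∑ n ∈ Ioc n₀ n₁, h n * Φ n‖ := norm_add_le _ _
    _ ≤ _ := by rw [norm_mul]; linarith

/-- Real version with `Φ = 1` and nonnegative `g`: counting in intervals. -/
theorem per_count {P : ℕ} (hP : 1 ≤ P) (g : ℕ → ℝ) (hg : ∀ n, g (n + P) = g n) (hg0 : ∀ n, 0 ≤ g n) {G : ℝ}
    (hgG : ∀ n, g n ≤ G) (n₀ n₁ : ℕ) :
    ∑ n ∈ Ioc n₀ n₁, g n ≤ (∑ n ∈ range P, g n) / P * ((n₁ - n₀ : ℕ) : ℝ) + G * P := by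
  have hP0 : (0 : ℝ) < P := by exact_mod_cast hP
  have hG : 0 ≤ G := (hg0 0).trans (hgG 0)
  have hA : 0 ≤ (∑ n ∈ range P, g n) / P := div_nonneg (sum_nonneg fun n _ => hg0 n) hP0.le
  have key : ∀ k a b : ℕ, b - a ≤ k →
      ∑ n ∈ Ioc a b, g n ≤ (∑ n ∈ range P, g n) / P * ((b - a : ℕ) : ℝ) + G * P := by
    intro k
    induction k with
    | zero =>
      intro a b hk
      have : Ioc a b = ∅ := by
        ext x; simp only [mem_Ioc, notMem_empty, iff_false]; omega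
      rw [this]; simp only [sum_empty]; positivity
    | succ k ih =>
      intro a b hk
      by_cases hab : a + P ≤ b
      · rw [split_sum g hg hab]
        have h1 := ih (a + P) b (by omega)
        have h2 : ((b - a : ℕ) : ℝ) = ((b - (a + P) : ℕ) : ℝ) + P := by
          rw [show b - a = (b - (a + P)) + P by omega]; push_cast; ring
        rw [h2, mul_add, div_mul_cancel₀ _ hP0.ne']
        linarith
      · calc ∑ n ∈ Ioc a b, g n ≤ ∑ n ∈ Ioc a b, G := sum_le_sum fun n _ => hgG n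
          _ = ((b - a : ℕ) : ℝ) * G := by rw [sum_const, Nat.card_Ioc, nsmul_eq_mul]
          _ ≤ (P : ℝ) * G := by
              apply mul_le_mul_of_nonneg_right _ hG
              exact_mod_cast (by omega : b - a ≤ P)
          _ ≤ _ := by
              have : 0 ≤ (∑ n ∈ range P, g n) / P * ((b - a : ℕ) : ℝ) := by positivity
              linarith
  exact key _ n₀ n₁ le_rfl

end Pool.Agent.MVD
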