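import Pool.Agent.MVD.Dens
import Pool.Agent.MVD.PerS
import Pool.Agent.MVD.CorB

/-!
# Module FPA: sums of `f(N - x₁n) f̄(N - x₂n) Φ(n)`, `f = ff χ ω Y`

Expand `f(N - x₁n) f̄(N - x₂n) = ∑_{d₁,d₂ ≤ Y} ω(d₁) ω̄(d₂) χ(N-x₁n) χ̄(N-x₂n) 1[d₁ ∣ N-x₁n] 1[d₂ ∣ N-x₂n]`; only `d₁`, `d₂` coprime to `r` occur (OmOK). For each `(d₁,d₂)` apply per_sum with period
`P = r d₁ d₂ ≤ r Y²`, `G = 1`, and period_avg: mean `= (SC/r) rho`, so the main term is `(|SC|/r) rho |∑ Φ|` (norm_SC_le: `|SC|/r ≤ (1+log r) corB`, because `g/r = 1/(r/g)`, `g = (N,r) ∣ r`), the error `2 r Y² (1 + V)`. Sum over `d₁,d₂ ≤ Y` with rho_sum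
(all terms `≥ 0`); error `Y² · 2 r Y² (1+V)`.
-/

open Finset Complex

namespace Pool.Agent.MVD

open Pool.Agent.ANT Pool.Agent.SInt

namespace FPAAux

/-- the periodic function of one pair of divisors -/
noncomputable def gg {r : ℕ} (χ : DirichletCharacter ℂ r) (N x₁ x₂ : ℤ) (d₁ d₂ n : ℕ) : ℂ :=
  χ ((N - x₁ * n : ℤ) : ZMod r) * (starRingEnd ℂ) (χ ((N - x₂ * n : ℤ) : ZMod r)) *
      (if (d₁ : ℤ) ∣ N - x₁ * n ∧ (d₂ : ℤ) ∣ N - x₂ * n then 1 else 0)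

lemma gg_norm {r : ℕ} (χ : DirichletCharacter ℂ r) (N x₁ x₂ : ℤ) (d₁ d₂ n : ℕ) :
    ‖gg χ N x₁ x₂ d₁ d₂ n‖ ≤ 1 := by
  unfold gg
  rw [norm_mul, norm_mul, RCLike.norm_conj]
  have h1 := DirichletCharacter.norm_le_one χ ((N - x₁ * n : ℤ) : ZMod r)
  have h2 := DirichletCharacter.norm_le_one χ ((N - x₂ * n : ℤ) : ZMod r)
  have h3 : ‖(if (d₁ : ℤ) ∣ N - x₁ * n ∧ (d₂ : ℤ) ∣ N - x₂ * n then (1 : ℂ) else 0)‖ ≤ 1 := by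
    split_ifs <;> simp
  calc _ ≤ (1 : ℝ) * 1 * 1 := by gcongr
    _ = 1 := by norm_num

lemma dvd_shift (d : ℕ) (N x : ℤ) (n k : ℕ) :
    ((d : ℤ) ∣ N - x * ((n + d * k : ℕ) : ℤ)) ↔ (d : ℤ) ∣ N - x * n := by
  have h : N - x * ((n + d * k : ℕ) : ℤ) = (N - x * n) - (d : ℤ) * (x * k) := by
    push_cast
    ring
  rw [h]
  constructor
  · intro h1
    have h2 := dvd_add h1 (dvd_mul_right (d : ℤ) (x * k))
    rwa [sub_add_cancel] at h2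
  · intro h1
    exact dvd_sub h1 (dvd_mul_right _ _)

lemma cast_shift (r : ℕ) (N x : ℤ) (n k : ℕ) :
    ((N - x * ((n + r * k : ℕ) : ℤ) : ℤ) : ZMod r) = ((N - x * n : ℤ) : ZMod r) := by
  push_cast
  rw [ZMod.natCast_self]
  ring

lemma gg_period {r : ℕ} (χ : DirichletCharacter ℂ r) (N x₁ x₂ : ℤ) (d₁ d₂ n : ℕ) :
    gg χ N x₁ x₂ d₁ d₂ (n + r * (d₁ * d₂)) = gg χ N x₁ x₂ d₁ d₂ n := by
  unfold gg
  rw [cast_shift r N x₁ n (d₁ * d₂), cast_shift r N x₂ n (d₁ * d₂)]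
  have h1 : r * (d₁ * d₂) = d₁ * (r * d₂) := by ring
  have h2 : r * (d₁ * d₂) = d₂ * (r * d₁) := by ring
  have h3 : ((d₁ : ℤ) ∣ N - x₁ * ((n + r * (d₁ * d₂) : ℕ) : ℤ)) ↔ (d₁ : ℤ) ∣ N - x₁ * n := by
    rw [h1]
    exact dvd_shift d₁ N x₁ n _
  have h4 : ((d₂ : ℤ) ∣ N - x₂ * ((n + r * (d₁ * d₂) : ℕ) : ℤ)) ↔ (d₂ : ℤ) ∣ N - x₂ * n := by
    rw [h2]
    exact dvd_shift d₂ N x₂ n _
  simp only [h3, h4]

lemma expand {r : ℕ} (χ : DirichletCharacter ℂ r) (ω : ℕ → ℂ) (Y : ℕ) (N x₁ x₂ : ℤ) (n : ℕ) (z : ℂ) :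
    ff χ ω Y (N - x₁ * n) * (starRingEnd ℂ) (ff χ ω Y (N - x₂ * n)) * z =
      ∑ d₁ ∈ Icc 1 Y, ∑ d₂ ∈ Icc 1 Y, ω d₁ * (starRingEnd ℂ) (ω d₂) * (gg χ N x₁ x₂ d₁ d₂ n * z) := by
  rw [ff, ff, dsum, dsum, map_mul, map_sum]
  calc χ ((N - x₁ * n : ℤ) : ZMod r) * (∑ d ∈ Icc 1 Y, if (d : ℤ) ∣ N - x₁ * n then ω d else 0) *
        ((starRingEnd ℂ) (χ ((N - x₂ * n : ℤ) : ZMod r)) *
          ∑ d ∈ Icc 1 Y, (starRingEnd ℂ) (if (d : ℤ) ∣ N - x₂ * n then ω d else 0)) * z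
      = ((∑ d ∈ Icc 1 Y, if (d : ℤ) ∣ N - x₁ * n then ω d else 0) *
          ∑ d ∈ Icc 1 Y, (starRingEnd ℂ) (if (d : ℤ) ∣ N - x₂ * n then ω d else 0)) *
        (χ ((N - x₁ * n : ℤ) : ZMod r) * (starRingEnd ℂ) (χ ((N - x₂ * n : ℤ) : ZMod r)) * z) := by
          ring
    _ = _ := by
      rw [Finset.sum_mul_sum, Finset.sum_mul]
      refine Finset.sum_congr rfl fun d₁ _ => ?_
      rw [Finset.sum_mul]
      refine Finset.sum_congr rfl fun d₂ _ => ?_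
      unfold gg
      by_cases h1 : (d₁ : ℤ) ∣ N - x₁ * n
      · by_cases h2 : (d₂ : ℤ) ∣ N - x₂ * n
        · rw [if_pos h1, if_pos h2, if_pos ⟨h1, h2⟩]
          ring
        · have h12 : ¬ ((d₁ : ℤ) ∣ N - x₁ * n ∧ (d₂ : ℤ) ∣ N - x₂ * n) := fun h => h2 h.2
          rw [if_neg h2, if_neg h12, map_zero]
          ring
      · have h12 : ¬ ((d₁ : ℤ) ∣ N - x₁ * n ∧ (d₂ : ℤ) ∣ N - x₂ * n) := fun h => h1 h.1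
        rw [if_neg h1, if_neg h12]
        ring

lemma rho_nonneg (N x₁ x₂ : ℤ) (d₁ d₂ : ℕ) : 0 ≤ rho N x₁ x₂ d₁ d₂ := by
  unfold rho
  positivity

lemma corB_nonneg (r : ℕ) (N x₁ x₂ : ℤ) : 0 ≤ corB r N x₁ x₂ := by
  unfold corB
  positivity

lemma SC_div {r : ℕ} [NeZero r] {χ : DirichletCharacter ℂ r} (hχ : χ.IsPrimitive) (N x₁ x₂ : ℤ) :
    ‖SC χ N x₁ x₂‖ / r ≤ (1 + Real.log r) * corB r N x₁ x₂ := by
  have hr : 0 < r := Nat.pos_of_ne_zero (NeZero.ne r)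
  have hr0 : (0 : ℝ) < r := by exact_mod_cast hr
  have h1 := norm_SC_le hχ N x₁ x₂
  have hg : Int.gcd N r ∣ r := by
    have := Int.gcd_dvd_right N (r : ℤ)
    exact_mod_cast this
  have hg0 : 0 < Int.gcd N r := Nat.pos_of_dvd_of_pos hg hr
  have hq : ((r / Int.gcd N r : ℕ) : ℝ) = (r : ℝ) / (Int.gcd N r : ℝ) :=
    Nat.cast_div hg (by exact_mod_cast hg0.ne')
  have hg0' : (0 : ℝ) < (Int.gcd N r : ℝ) := by exact_mod_cast hg0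
  rw [div_le_iff₀ hr0]
  refine h1.trans (le_of_eq ?_)
  unfold corB
  generalize (Int.gcd x₂ (r / Int.gcd N r : ℕ) : ℝ) = A
  generalize (Int.gcd (x₁ - x₂) (r / Int.gcd N r : ℕ) : ℝ) = B
  rw [hq]
  field_simp

end FPAAux

open FPAAux

/-- Main correlation estimate. -/
theorem F_corr {r : ℕ} (hr : 1 ≤ r) {χ : DirichletCharacter ℂ r} (hχ : χ.IsPrimitive) {ω : ℕ → ℂ} (hω : OmOK ω r)
    (Y : ℕ) (N : ℤ) {x₁ x₂ : ℕ} (h₁ : 1 ≤ x₁) (h₂ : 1 ≤ x₂) (n₀ n₁ : ℕ) (Φ : ℕ → ℂ) {V : ℝ} (hΦ : ∀ n, ‖Φ n‖ ≤ 1)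
    (hV : tv Φ n₀ n₁ ≤ V) :
    ‖∑ n ∈ Ioc n₀ n₁, ff χ ω Y (N - x₁ * n) * (starRingEnd ℂ) (ff χ ω Y (N - x₂ * n)) * Φ n‖ ≤
      (1 + Real.log r) * corB r N x₁ x₂ * (tauR x₁ * tauR x₂ * Hs Y ^ 3) * ‖∑ n ∈ Ioc n₀ n₁, Φ n‖ +
        2 * r * (Y : ℝ) ^ 4 * (1 + V) := by
  classical
  haveI : NeZero r := ⟨by omega⟩
  have hr0 : (0 : ℝ) < r := by exact_mod_cast hr
  have hr1 : (1 : ℝ) ≤ r := by exact_mod_cast hr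
  have hV0 : 0 ≤ V := le_trans (Finset.sum_nonneg fun _ _ => norm_nonneg _) hV
  have hK : 0 ≤ (1 + Real.log r) * corB r N x₁ x₂ :=
    mul_nonneg (by have := Real.log_nonneg hr1; linarith) (corB_nonneg _ _ _ _)
  have hS0 : 0 ≤ ‖∑ n ∈ Ioc n₀ n₁, Φ n‖ := norm_nonneg _
  have h1 : ∑ n ∈ Ioc n₀ n₁, ff χ ω Y (N - x₁ * n) * (starRingEnd ℂ) (ff χ ω Y (N - x₂ * n)) * Φ n =
      ∑ d₁ ∈ Icc 1 Y, ∑ d₂ ∈ Icc 1 Y, ω d₁ * (starRingEnd ℂ) (ω d₂) *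
        ∑ n ∈ Ioc n₀ n₁, gg χ N x₁ x₂ d₁ d₂ n * Φ n := by
    rw [Finset.sum_congr rfl (fun n _ => FPAAux.expand χ ω Y N x₁ x₂ n (Φ n)), Finset.sum_comm]
    refine Finset.sum_congr rfl fun d₁ _ => ?_
    rw [Finset.sum_comm]
    refine Finset.sum_congr rfl fun d₂ _ => ?_
    rw [Finset.mul_sum]
  rw [h1]
  have hE : 0 ≤ 2 * r * (Y : ℝ) ^ 2 * (1 + V) := by positivity
  have h2 : ∀ d₁ ∈ Icc 1 Y, ∀ d₂ ∈ Icc 1 Y,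
      ‖ω d₁ * (starRingEnd ℂ) (ω d₂) * ∑ n ∈ Ioc n₀ n₁, gg χ N x₁ x₂ d₁ d₂ n * Φ n‖ ≤
      (1 + Real.log r) * corB r N x₁ x₂ * ‖∑ n ∈ Ioc n₀ n₁, Φ n‖ * rho N x₁ x₂ d₁ d₂ +
        2 * r * (Y : ℝ) ^ 2 * (1 + V) := by
    intro d₁ hd₁ d₂ hd₂
    have hrhs : 0 ≤ (1 + Real.log r) * corB r N x₁ x₂ * ‖∑ n ∈ Ioc n₀ n₁, Φ n‖ * rho N x₁ x₂ d₁ d₂ +
        2 * r * (Y : ℝ) ^ 2 * (1 + V) :=
      add_nonneg (mul_nonneg (mul_nonneg hK hS0) (rho_nonneg _ _ _ _ _)) hE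
    by_cases hc1 : d₁.Coprime r
    · by_cases hc2 : d₂.Coprime r
      · rw [mem_Icc] at hd₁ hd₂
        have hP : 1 ≤ r * (d₁ * d₂) := Nat.mul_pos hr (Nat.mul_pos hd₁.1 hd₂.1)
        have h3 := per_sum hP (gg χ N x₁ x₂ d₁ d₂) Φ (gg_period χ N x₁ x₂ d₁ d₂) zero_le_one
          (gg_norm χ N x₁ x₂ d₁ d₂) hΦ n₀ n₁ hV
        have h4 : ∑ n ∈ range (r * (d₁ * d₂)), gg χ N x₁ x₂ d₁ d₂ n =
            SC χ N x₁ x₂ * ((d₁ * d₂ * rho N x₁ x₂ d₁ d₂ : ℝ) : ℂ) :=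
          period_avg χ N x₁ x₂ hd₁.1 hd₂.1 hc1 hc2
        have hd1 : (0 : ℝ) < d₁ := by exact_mod_cast hd₁.1
        have hd2 : (0 : ℝ) < d₂ := by exact_mod_cast hd₂.1
        have h5 : ‖∑ n ∈ range (r * (d₁ * d₂)), gg χ N x₁ x₂ d₁ d₂ n‖ / ((r * (d₁ * d₂) : ℕ) : ℝ) =
            ‖SC χ N x₁ x₂‖ / r * rho N x₁ x₂ d₁ d₂ := by
          rw [h4, norm_mul, Complex.norm_real, Real.norm_of_nonneg
            (mul_nonneg (mul_nonneg hd1.le hd2.le) (rho_nonneg _ _ _ _ _))]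
          push_cast
          field_simp
        have h6 : ‖SC χ N x₁ x₂‖ / r * rho N x₁ x₂ d₁ d₂ ≤
            (1 + Real.log r) * corB r N x₁ x₂ * rho N x₁ x₂ d₁ d₂ :=
          mul_le_mul_of_nonneg_right (SC_div hχ N x₁ x₂) (rho_nonneg _ _ _ _ _)
        have h7 : ((r * (d₁ * d₂) : ℕ) : ℝ) ≤ r * (Y : ℝ) ^ 2 := by
          have h8 : r * (d₁ * d₂) ≤ r * (Y * Y) :=
            Nat.mul_le_mul_left _ (Nat.mul_le_mul hd₁.2 hd₂.2)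
          calc ((r * (d₁ * d₂) : ℕ) : ℝ) ≤ ((r * (Y * Y) : ℕ) : ℝ) := by exact_mod_cast h8
            _ = r * (Y : ℝ) ^ 2 := by
              push_cast
              ring
        have h9 : ‖ω d₁ * (starRingEnd ℂ) (ω d₂)‖ ≤ 1 := by
          rw [norm_mul, RCLike.norm_conj]
          calc _ ≤ (1 : ℝ) * 1 := mul_le_mul (hω.1 d₁) (hω.1 d₂) (norm_nonneg _) zero_le_one
            _ = 1 := one_mul 1
        rw [norm_mul]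
        refine (mul_le_of_le_one_left (norm_nonneg _) h9).trans (h3.trans ?_)
        rw [h5]
        have h10 : ‖SC χ N x₁ x₂‖ / r * rho N x₁ x₂ d₁ d₂ * ‖∑ n ∈ Ioc n₀ n₁, Φ n‖ ≤
            (1 + Real.log r) * corB r N x₁ x₂ * rho N x₁ x₂ d₁ d₂ * ‖∑ n ∈ Ioc n₀ n₁, Φ n‖ :=
          mul_le_mul_of_nonneg_right h6 hS0
        have h11 : 2 * 1 * ((r * (d₁ * d₂) : ℕ) : ℝ) * (1 + V) ≤ 2 * r * (Y : ℝ) ^ 2 * (1 + V) := by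
          refine mul_le_mul_of_nonneg_right ?_ (by linarith)
          linarith
        refine (add_le_add h10 h11).trans (le_of_eq ?_)
        ring
      · rw [hω.2 d₂ hc2, map_zero, mul_zero, zero_mul, norm_zero]
        exact hrhs
    · rw [hω.2 d₁ hc1, zero_mul, zero_mul, norm_zero]
      exact hrhs
  refine (norm_sum_le _ _).trans ((Finset.sum_le_sum fun d₁ hd₁ => (norm_sum_le _ _).trans
    (Finset.sum_le_sum fun d₂ hd₂ => h2 d₁ hd₁ d₂ hd₂)).trans ?_)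
  have h14 : ∀ A E : ℝ, ∑ d₁ ∈ Icc 1 Y, ∑ d₂ ∈ Icc 1 Y, (A * rho N x₁ x₂ d₁ d₂ + E) =
      A * ∑ d₁ ∈ Icc 1 Y, ∑ d₂ ∈ Icc 1 Y, rho N x₁ x₂ d₁ d₂ + (Y : ℝ) * ((Y : ℝ) * E) := by
    intro A E
    simp only [Finset.sum_add_distrib, ← Finset.mul_sum, Finset.sum_const, Nat.card_Icc,
      Nat.add_sub_cancel, nsmul_eq_mul]
  rw [h14]
  have h12 := mul_le_mul_of_nonneg_left (rho_sum N h₁ h₂ Y) (mul_nonneg hK hS0)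
  have h13 : (Y : ℝ) * ((Y : ℝ) * (2 * r * (Y : ℝ) ^ 2 * (1 + V))) = 2 * r * (Y : ℝ) ^ 4 * (1 + V) := by
    ring
  rw [h13]
  refine add_le_add (h12.trans (le_of_eq ?_)) le_rfl
  ring

end Pool.Agent.MVD
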