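import Pool.Agent.MVD.DensA
import Pool.Agent.MVD.PerS

/-!
# Module FPB: trivial estimates of the correlations

`|f(v)| ≤ ∑_{d ≤ Y, d ∣ v} |ω(d)| ≤ ∑_{d ≤ Y} 1[d ∣ v]`. `F_corr_triv`: for each `(d₁,d₂)` the indicator of `d₁ ∣ N-x₁n, d₂ ∣ N-x₂n` has period `d₁d₂ ≤ Y²` and mean `rho`: per_count with `G = 1`. Sum over `d₁, d₂ ≤ Y` with rho_sum;
error `Y² · Y²`. `F_single_triv`: period `d ≤ Y`, mean `rho1`, rho1_sum; error `Y · Y`.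
-/

open Finset Complex

namespace Pool.Agent.MVD

open Pool.Agent.ANT Pool.Agent.SInt

private theorem FPB_ff {r : ℕ} (χ : DirichletCharacter ℂ r) {ω : ℕ → ℂ} (hω : OmOK ω r)
    (Y : ℕ) (v : ℤ) : ‖ff χ ω Y v‖ ≤ ∑ d ∈ Icc 1 Y, if (d : ℤ) ∣ v then (1 : ℝ) else 0 := by
  unfold ff dsum
  rw [norm_mul]
  have h1 : ‖χ (v : ZMod r)‖ ≤ 1 := DirichletCharacter.norm_le_one _ _
  have h2 : ‖∑ d ∈ Icc 1 Y, (if (d : ℤ) ∣ v then ω d else 0)‖ ≤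
      ∑ d ∈ Icc 1 Y, if (d : ℤ) ∣ v then (1 : ℝ) else 0 := by
    refine (norm_sum_le _ _).trans (sum_le_sum fun d _ => ?_)
    split_ifs
    · exact hω.1 d
    · simp
  calc ‖χ (v : ZMod r)‖ * _ ≤ 1 * _ := mul_le_mul h1 h2 (norm_nonneg _) zero_le_one
    _ = _ := one_mul _

private theorem FPB_sub_dvd {d : ℕ} {P : ℕ} (hP : d ∣ P) (N x : ℤ) (n : ℕ) :
    (d : ℤ) ∣ N - x * ((n + P : ℕ) : ℤ) ↔ (d : ℤ) ∣ N - x * (n : ℤ) := by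
  have h1 : (d : ℤ) ∣ x * (P : ℤ) := Dvd.dvd.mul_left (by exact_mod_cast hP) x
  have h2 : N - x * ((n + P : ℕ) : ℤ) = N - x * (n : ℤ) - x * (P : ℤ) := by
    push_cast; ring
  rw [h2]
  exact (dvd_sub_left h1)

/-- Trivial estimate of the correlations. -/
theorem F_corr_triv {r : ℕ} (hr : 1 ≤ r) (χ : DirichletCharacter ℂ r) {ω : ℕ → ℂ} (hω : OmOK ω r)
    (Y : ℕ) (N : ℤ) {x₁ x₂ : ℕ} (h₁ : 1 ≤ x₁) (h₂ : 1 ≤ x₂) (n₀ n₁ : ℕ) :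
    ∑ n ∈ Ioc n₀ n₁, ‖ff χ ω Y (N - x₁ * n)‖ * ‖ff χ ω Y (N - x₂ * n)‖ ≤
      tauR x₁ * tauR x₂ * Hs Y ^ 3 * ((n₁ - n₀ : ℕ) : ℝ) + (Y : ℝ) ^ 4 := by
  set g : ℕ → ℕ → ℕ → ℝ := fun d₁ d₂ n =>
    if ((d₁ : ℤ) ∣ N - x₁ * n ∧ (d₂ : ℤ) ∣ N - x₂ * n) then 1 else 0 with hg
  have hY : ∀ d ∈ Icc 1 Y, (d : ℝ) ≤ Y := fun d hd => by exact_mod_cast (mem_Icc.1 hd).2
  calc ∑ n ∈ Ioc n₀ n₁, ‖ff χ ω Y (N - x₁ * n)‖ * ‖ff χ ω Y (N - x₂ * n)‖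
      ≤ ∑ n ∈ Ioc n₀ n₁, ∑ d₁ ∈ Icc 1 Y, ∑ d₂ ∈ Icc 1 Y, g d₁ d₂ n := by
        refine sum_le_sum fun n _ => ?_
        refine (mul_le_mul (FPB_ff χ hω Y _) (FPB_ff χ hω Y _) (norm_nonneg _)
          (sum_nonneg fun d _ => by split_ifs <;> norm_num)).trans (le_of_eq ?_)
        rw [sum_mul_sum]
        refine sum_congr rfl fun d₁ _ => sum_congr rfl fun d₂ _ => ?_
        simp only [hg]
        by_cases a1 : (d₁ : ℤ) ∣ N - x₁ * n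
        · by_cases a2 : (d₂ : ℤ) ∣ N - x₂ * n
          · simp [a1, a2]
          · simp [a2]
        · simp [a1]
    _ = ∑ d₁ ∈ Icc 1 Y, ∑ d₂ ∈ Icc 1 Y, ∑ n ∈ Ioc n₀ n₁, g d₁ d₂ n := by
        rw [sum_comm]
        refine sum_congr rfl fun d₁ _ => ?_
        rw [sum_comm]
    _ ≤ ∑ d₁ ∈ Icc 1 Y, ∑ d₂ ∈ Icc 1 Y,
        (rho N x₁ x₂ d₁ d₂ * ((n₁ - n₀ : ℕ) : ℝ) + (Y : ℝ) ^ 2) := by
        refine sum_le_sum fun d₁ hd₁ => sum_le_sum fun d₂ hd₂ => ?_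
        have p1 := (mem_Icc.1 hd₁).1
        have p2 := (mem_Icc.1 hd₂).1
        have hP : 1 ≤ d₁ * d₂ := Nat.mul_pos p1 p2
        have h := per_count hP (g d₁ d₂) (fun n => by
          simp only [hg]
          exact if_congr (and_congr (FPB_sub_dvd (Dvd.intro _ rfl) N x₁ n)
            (FPB_sub_dvd (Dvd.intro_left _ rfl) N x₂ n)) rfl rfl)
          (fun n => by simp only [hg]; split_ifs <;> norm_num) (G := 1)
          (fun n => by simp only [hg]; split_ifs <;> norm_num) n₀ n₁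
        have e1 : (∑ n ∈ range (d₁ * d₂), g d₁ d₂ n) / ((d₁ * d₂ : ℕ) : ℝ) = rho N x₁ x₂ d₁ d₂ := by
          unfold rho
          simp only [hg]
          rw [← sum_filter, sum_const, nsmul_eq_mul, mul_one]
          push_cast
          rfl
        rw [e1] at h
        refine h.trans ?_
        have h3 : (1 : ℝ) * ((d₁ * d₂ : ℕ) : ℝ) ≤ (Y : ℝ) ^ 2 := by
          rw [one_mul, pow_two]
          push_cast
          exact mul_le_mul (hY d₁ hd₁) (hY d₂ hd₂) (Nat.cast_nonneg _) (Nat.cast_nonneg _)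
        linarith
    _ = (∑ d₁ ∈ Icc 1 Y, ∑ d₂ ∈ Icc 1 Y, rho N x₁ x₂ d₁ d₂) * ((n₁ - n₀ : ℕ) : ℝ) +
        (Y : ℝ) ^ 4 := by
        simp only [sum_add_distrib, sum_const, Nat.card_Icc, nsmul_eq_mul, sum_mul,
          Nat.add_sub_cancel]
        ring
    _ ≤ _ := by
        have := rho_sum N h₁ h₂ Y
        gcongr

theorem F_single_triv {r : ℕ} (hr : 1 ≤ r) (χ : DirichletCharacter ℂ r) {ω : ℕ → ℂ} (hω : OmOK ω r)
    (Y : ℕ) (N : ℤ) {x : ℕ} (h : 1 ≤ x) (n₀ n₁ : ℕ) :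
    ∑ n ∈ Ioc n₀ n₁, ‖ff χ ω Y (N - x * n)‖ ≤ tauR x * Hs Y * ((n₁ - n₀ : ℕ) : ℝ) + (Y : ℝ) ^ 2 := by
  set g : ℕ → ℕ → ℝ := fun d n => if (d : ℤ) ∣ N - x * n then 1 else 0 with hg
  have hY : ∀ d ∈ Icc 1 Y, (d : ℝ) ≤ Y := fun d hd => by exact_mod_cast (mem_Icc.1 hd).2
  calc ∑ n ∈ Ioc n₀ n₁, ‖ff χ ω Y (N - x * n)‖
      ≤ ∑ n ∈ Ioc n₀ n₁, ∑ d ∈ Icc 1 Y, g d n :=
        sum_le_sum fun n _ => FPB_ff χ hω Y _
    _ = ∑ d ∈ Icc 1 Y, ∑ n ∈ Ioc n₀ n₁, g d n := sum_comm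
    _ ≤ ∑ d ∈ Icc 1 Y, (rho1 N x d * ((n₁ - n₀ : ℕ) : ℝ) + (Y : ℝ)) := by
        refine sum_le_sum fun d hd => ?_
        have p1 := (mem_Icc.1 hd).1
        have h := per_count p1 (g d) (fun n => by
          simp only [hg]
          exact if_congr (FPB_sub_dvd dvd_rfl N x n) rfl rfl)
          (fun n => by simp only [hg]; split_ifs <;> norm_num) (G := 1)
          (fun n => by simp only [hg]; split_ifs <;> norm_num) n₀ n₁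
        have e1 : (∑ n ∈ range d, g d n) / (d : ℝ) = rho1 N x d := by
          unfold rho1
          simp only [hg]
          rw [← sum_filter, sum_const, nsmul_eq_mul, mul_one]
        rw [e1] at h
        have := hY d hd
        linarith
    _ = (∑ d ∈ Icc 1 Y, rho1 N x d) * ((n₁ - n₀ : ℕ) : ℝ) + (Y : ℝ) ^ 2 := by
        simp only [sum_add_distrib, sum_const, Nat.card_Icc, nsmul_eq_mul, sum_mul,
          Nat.add_sub_cancel]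
        ring
    _ ≤ _ := by
        have := rho1_sum N h Y
        gcongr

end Pool.Agent.MVD
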