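import Pool.Agent.MVD.Dens
import Pool.Agent.MVD.PerS

/-!
# Module FPC: single sums of `f(N - x n) Φ(n)`

Expand `f(N - xn) = ∑_{d ≤ Y} ω(d) χ(N-xn) 1[d ∣ N-xn]`; only `d` coprime to `r` occur. For each `d` per_sum with period `P = r d ≤ r Y`, `G = 1`, and period_avg1: mean `(1/r) (∑_m χ(N - xm)) rho1`, avg_char: `≤ [r ∣ x, (N,r) = 1] rho1`;
error `2 r Y (1 + V)`. Sum over `d ≤ Y` with rho1_sum.
-/

open Finset Complex

namespace Pool.Agent.MVD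

open Pool.Agent.ANT Pool.Agent.SInt

namespace FPCAux

/-- one divisor `d` -/
noncomputable def gd {r : ℕ} (χ : DirichletCharacter ℂ r) (N : ℤ) (x d n : ℕ) : ℂ :=
  χ ((N - x * n : ℤ) : ZMod r) * (if (d : ℤ) ∣ N - x * n then 1 else 0)

theorem rho1_nonneg (N x : ℤ) (d : ℕ) : 0 ≤ rho1 N x d := by
  unfold rho1
  positivity

theorem gd_period {r : ℕ} (χ : DirichletCharacter ℂ r) (N : ℤ) (x d n : ℕ) :
    gd χ N x d (n + r * d) = gd χ N x d n := by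
  unfold gd
  have e1 : (N - (x : ℤ) * ((n + r * d : ℕ) : ℤ)) = (N - x * n) - (x * r) * d := by
    push_cast; ring
  have e2 : ((N - (x : ℤ) * ((n + r * d : ℕ) : ℤ) : ℤ) : ZMod r) = ((N - x * n : ℤ) : ZMod r) := by
    rw [e1]
    push_cast
    rw [ZMod.natCast_self]
    ring
  have e3 : (d : ℤ) ∣ N - (x : ℤ) * ((n + r * d : ℕ) : ℤ) ↔ (d : ℤ) ∣ N - x * n := by
    rw [e1]
    exact dvd_sub_left (Dvd.intro_left _ rfl)
  rw [e2]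
  simp only [e3]

theorem norm_gd_le {r : ℕ} (χ : DirichletCharacter ℂ r) (N : ℤ) (x d n : ℕ) :
    ‖gd χ N x d n‖ ≤ 1 := by
  unfold gd
  rw [norm_mul]
  have h1 := χ.norm_le_one ((N - x * n : ℤ) : ZMod r)
  have h2 : ‖(if (d : ℤ) ∣ N - x * n then (1 : ℂ) else 0)‖ ≤ 1 := by
    split_ifs <;> simp
  calc _ ≤ (1 : ℝ) * 1 := mul_le_mul h1 h2 (norm_nonneg _) zero_le_one
    _ = 1 := one_mul 1

theorem one_d {r : ℕ} (hr : 1 ≤ r) {χ : DirichletCharacter ℂ r} (hχ : χ.IsPrimitive) (N : ℤ)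
    {x : ℕ} (n₀ n₁ : ℕ) (Φ : ℕ → ℂ) {V : ℝ} (hΦ : ∀ n, ‖Φ n‖ ≤ 1) (hV : tv Φ n₀ n₁ ≤ V) {d : ℕ}
    (hd : 1 ≤ d) (hdr : d.Coprime r) :
    ‖∑ n ∈ Ioc n₀ n₁, gd χ N x d n * Φ n‖ ≤
      (if r ∣ x ∧ Int.gcd N r = 1 then 1 else 0) * rho1 N x d * ‖∑ n ∈ Ioc n₀ n₁, Φ n‖ +
        2 * r * d * (1 + V) := by
  have : NeZero r := ⟨by omega⟩
  have hP : 1 ≤ r * d := Nat.mul_pos hr hd
  have h1 := per_sum hP (gd χ N x d) Φ (fun n => gd_period χ N x d n) zero_le_one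
    (fun n => norm_gd_le χ N x d n) hΦ n₀ n₁ hV
  have h2 : ∑ n ∈ range (r * d), gd χ N x d n =
      (∑ m : ZMod r, χ ((N : ZMod r) - ((x : ℤ) : ZMod r) * m)) * ((d * rho1 N x d : ℝ) : ℂ) :=
    period_avg1 χ N x hd hdr
  have hrp : (0 : ℝ) < r := by exact_mod_cast (by omega : 0 < r)
  have hdp : (0 : ℝ) < d := by exact_mod_cast (by omega : 0 < d)
  have hr1 := rho1_nonneg N x d
  have h3 : ‖∑ n ∈ range (r * d), gd χ N x d n‖ / ((r * d : ℕ) : ℝ) ≤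
      (if r ∣ x ∧ Int.gcd N r = 1 then 1 else 0) * rho1 N x d := by
    rw [h2, norm_mul, Complex.norm_real, Real.norm_of_nonneg (by positivity)]
    have h4 := avg_char hχ N x
    have h5 : (if (r : ℤ) ∣ (x : ℤ) ∧ Int.gcd N r = 1 then (r : ℝ) else 0) =
        (if r ∣ x ∧ Int.gcd N r = 1 then 1 else 0) * r := by
      simp only [Int.natCast_dvd_natCast]
      split_ifs <;> simp
    rw [h5] at h4
    rw [div_le_iff₀ (by positivity)]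
    calc _ ≤ ((if r ∣ x ∧ Int.gcd N r = 1 then 1 else 0) * (r : ℝ)) * (d * rho1 N x d) :=
          mul_le_mul_of_nonneg_right h4 (by positivity)
      _ = _ := by push_cast; ring
  refine h1.trans (add_le_add ?_ (le_of_eq ?_))
  · exact mul_le_mul_of_nonneg_right h3 (norm_nonneg _)
  · push_cast; ring

theorem expand {r : ℕ} (χ : DirichletCharacter ℂ r) (ω : ℕ → ℂ) (Y : ℕ) (N : ℤ) (x n₀ n₁ : ℕ)
    (Φ : ℕ → ℂ) :
    ∑ n ∈ Ioc n₀ n₁, ff χ ω Y (N - x * n) * Φ n =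
      ∑ d ∈ Icc 1 Y, ω d * ∑ n ∈ Ioc n₀ n₁, gd χ N x d n * Φ n := by
  simp only [Finset.mul_sum]
  rw [Finset.sum_comm]
  refine Finset.sum_congr rfl fun n _ => ?_
  unfold ff dsum
  rw [Finset.mul_sum, Finset.sum_mul]
  refine Finset.sum_congr rfl fun d _ => ?_
  unfold gd
  split_ifs
  · ring
  · ring

end FPCAux

/-- Single sums. -/
theorem F_single {r : ℕ} (hr : 1 ≤ r) {χ : DirichletCharacter ℂ r} (hχ : χ.IsPrimitive) {ω : ℕ → ℂ} (hω : OmOK ω r)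
    (Y : ℕ) (N : ℤ) {x : ℕ} (h : 1 ≤ x) (n₀ n₁ : ℕ) (Φ : ℕ → ℂ) {V : ℝ} (hΦ : ∀ n, ‖Φ n‖ ≤ 1)
    (hV : tv Φ n₀ n₁ ≤ V) :
    ‖∑ n ∈ Ioc n₀ n₁, ff χ ω Y (N - x * n) * Φ n‖ ≤
      (if r ∣ x ∧ Int.gcd N r = 1 then 1 else 0) * (tauR x * Hs Y) * ‖∑ n ∈ Ioc n₀ n₁, Φ n‖ +
        2 * r * (Y : ℝ) ^ 2 * (1 + V) := by
  have hV0 : 0 ≤ V := le_trans (Finset.sum_nonneg fun n _ => norm_nonneg _) hV
  have hrp : (0 : ℝ) < r := by exact_mod_cast (by omega : 0 < r)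
  rw [FPCAux.expand]
  have hd : ∀ d ∈ Icc 1 Y, ‖ω d * ∑ n ∈ Ioc n₀ n₁, FPCAux.gd χ N x d n * Φ n‖ ≤
      (if r ∣ x ∧ Int.gcd N r = 1 then 1 else 0) * ‖∑ n ∈ Ioc n₀ n₁, Φ n‖ * rho1 N x d +
        2 * r * Y * (1 + V) := by
    intro d hd
    rw [mem_Icc] at hd
    have hdY : (d : ℝ) ≤ Y := by exact_mod_cast hd.2
    have hind : (0 : ℝ) ≤ (if r ∣ x ∧ Int.gcd N r = 1 then 1 else 0) := by split_ifs <;> norm_num
    have hr1 := FPCAux.rho1_nonneg N x d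
    have hnn : 0 ≤ ‖∑ n ∈ Ioc n₀ n₁, Φ n‖ := norm_nonneg _
    have herr : 2 * (r : ℝ) * d * (1 + V) ≤ 2 * r * Y * (1 + V) :=
      mul_le_mul_of_nonneg_right (mul_le_mul_of_nonneg_left hdY (by positivity)) (by positivity)
    by_cases hcop : d.Coprime r
    · rw [norm_mul]
      have h1 := FPCAux.one_d hr hχ N (x := x) n₀ n₁ Φ hΦ hV hd.1 hcop
      have h2 := hω.1 d
      have h3 : 0 ≤ ‖∑ n ∈ Ioc n₀ n₁, FPCAux.gd χ N x d n * Φ n‖ := norm_nonneg _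
      calc ‖ω d‖ * ‖∑ n ∈ Ioc n₀ n₁, FPCAux.gd χ N x d n * Φ n‖
          ≤ 1 * ‖∑ n ∈ Ioc n₀ n₁, FPCAux.gd χ N x d n * Φ n‖ := mul_le_mul_of_nonneg_right h2 h3
        _ ≤ (if r ∣ x ∧ Int.gcd N r = 1 then 1 else 0) * rho1 N x d * ‖∑ n ∈ Ioc n₀ n₁, Φ n‖ +
              2 * r * d * (1 + V) := by rw [one_mul]; exact h1
        _ ≤ _ := by
            refine add_le_add (le_of_eq ?_) herr
            ring
    · rw [hω.2 d hcop, zero_mul, norm_zero]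
      positivity
  refine (norm_sum_le _ _).trans ((Finset.sum_le_sum hd).trans ?_)
  rw [Finset.sum_add_distrib, ← Finset.mul_sum, Finset.sum_const, nsmul_eq_mul, Nat.card_Icc,
    Nat.add_sub_cancel]
  have hind : (0 : ℝ) ≤ (if r ∣ x ∧ Int.gcd N r = 1 then 1 else 0) := by split_ifs <;> norm_num
  have h1 := rho1_sum N h Y
  refine add_le_add ?_ (le_of_eq ?_)
  · calc (if r ∣ x ∧ Int.gcd N r = 1 then 1 else 0) * ‖∑ n ∈ Ioc n₀ n₁, Φ n‖ *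
          ∑ d ∈ Icc 1 Y, rho1 N x d
        ≤ (if r ∣ x ∧ Int.gcd N r = 1 then 1 else 0) * ‖∑ n ∈ Ioc n₀ n₁, Φ n‖ *
          (tauR x * Hs Y) := mul_le_mul_of_nonneg_left h1 (mul_nonneg hind (norm_nonneg _))
      _ = _ := by ring
  · ring

end Pool.Agent.MVD
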