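import Pool.Agent.MVD.KSDef

/-!
# Module KSCop: the Gauss sums of induced characters, coprime case

`s = r k`, `(k,r) = 1`, `χ = changeLevel` of a primitive character `χ₀` mod `r`; `χ(a) = χ₀(a)` for `(a,s) = 1`
(DirichletCharacter.changeLevel_eq_cast_of_dvd). Write `c_χ(v) = ∑_{a mod s, (a,s)=1} χ₀(a) e(av/s)`.
By the Chinese remainder theorem `a = a₁ k + a₂ r` (`a₁` mod `r`, `a₂` mod `k`, a bijection of the reduced classes):
`χ₀(a) = χ₀(k) χ₀(a₁)`, `e(av/s) = e(a₁ v/r) e(a₂ v/k)`, so `c_χ(v) = χ₀(k) c_{χ₀}(v) c_k(v)`; for `χ̄`, `v = -1`: `c_{χ̄}(-1) = χ̄₀(k) c_{χ̄₀}(-1) c_k(-1)`,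
`c_k(-1) = μ(k)` (cR_eq with `v = -1`). For primitive `χ₀`, `c_{χ₀}(v) = χ̄₀(v) τ(χ₀)` for all `v` (gauss_expand in Lib/ANT, or
gaussSum_mul_of_isPrimitive in Mathlib) and `τ(χ₀) c_{χ̄₀}(-1) = |τ(χ₀)|² = r` (norm_tauG_sq; `c_{χ̄₀}(-1)` is the conjugate of `τ(χ₀)`), `χ₀(k) χ̄₀(k) = 1`.
`k = 1` and `r = 1` are allowed (`red 1 = {0}`). Checked numerically for r ≤ 15, k ≤ 12.
-/

open Finset Complex
open scoped ArithmeticFunction.Moebius

namespace Pool.Agent.MVD

open Pool.Agent.ANT Pool.Agent.SInt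

namespace KSCopAux

theorem sum_range_zmod {s : ℕ} [NeZero s] (F : ZMod s → ℂ) :
    ∑ a ∈ range s, F (a : ZMod s) = ∑ b : ZMod s, F b := by
  refine Finset.sum_nbij' (fun a => (a : ZMod s)) ZMod.val ?_ ?_ ?_ ?_ ?_
  · intro a _; exact mem_univ _
  · intro b _; exact mem_range.2 (ZMod.val_lt b)
  · intro a ha; exact ZMod.val_natCast_of_lt (mem_range.1 ha)
  · intro b _; exact ZMod.natCast_zmod_val b
  · intro a _; rfl

theorem std_int {s : ℕ} [NeZero s] (n : ℤ) :
    (ZMod.stdAddChar (N := s)) (n : ZMod s) = ee ((n : ℝ) / s) := by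
  rw [ZMod.stdAddChar_coe]
  unfold ee
  congr 1
  push_cast
  ring

/-- The reduced sum as a sum over the ring. -/
theorem red_sum {s : ℕ} [NeZero s] (f : ZMod s → ℂ) (hf : ∀ b, ¬ IsUnit b → f b = 0) (v : ℤ) :
    ∑ a ∈ red s, f (a : ZMod s) * ee (a * v / s) =
      ∑ b : ZMod s, f b * (ZMod.stdAddChar (N := s)) ((v : ZMod s) * b) := by
  rw [← sum_range_zmod, red, sum_filter]
  refine sum_congr rfl fun a _ => ?_
  split_ifs with h
  · congr 1
    have h1 : ((v : ZMod s) * (a : ZMod s)) = (((v * a : ℤ)) : ZMod s) := by push_cast; ring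
    rw [h1, std_int]
    congr 1
    push_cast
    ring
  · rw [hf _ (by rwa [ZMod.isUnit_iff_coprime]), zero_mul]

/-- indicator of the units -/
noncomputable def uu (k : ℕ) (b : ZMod k) : ℂ := by
  classical exact if IsUnit b then 1 else 0

theorem uu_unit {k : ℕ} {b : ZMod k} (h : IsUnit b) : uu k b = 1 := by
  unfold uu; rw [if_pos h]

theorem uu_nonunit {k : ℕ} {b : ZMod k} (h : ¬ IsUnit b) : uu k b = 0 := by
  unfold uu; rw [if_neg h]

theorem cR_sum {k : ℕ} [NeZero k] (v : ℤ) :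
    cR k v = ∑ b : ZMod k, uu k b * (ZMod.stdAddChar (N := k)) ((v : ZMod k) * b) := by
  rw [← red_sum (uu k) (fun b hb => uu_nonunit hb) v, cR]
  refine sum_congr rfl fun a ha => ?_
  rw [uu_unit, one_mul]
  rw [red, mem_filter] at ha
  rw [ZMod.isUnit_iff_coprime]
  exact ha.2

/-- multiplication by a unit does not change the Ramanujan sum -/
theorem cR_unit {k : ℕ} [NeZero k] {y : ZMod k} (hy : IsUnit y) (v : ℤ) :
    ∑ b : ZMod k, uu k b * (ZMod.stdAddChar (N := k)) ((v : ZMod k) * (y * b)) = cR k v := by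
  rw [cR_sum]
  obtain ⟨w, rfl⟩ := hy
  rw [← Equiv.sum_comp (Units.mulLeft w)
    (fun b => uu k b * (ZMod.stdAddChar (N := k)) ((v : ZMod k) * b))]
  refine sum_congr rfl fun b _ => ?_
  rw [Units.mulLeft_apply]
  congr 1
  by_cases hb : IsUnit b
  · rw [uu_unit hb, uu_unit (w.isUnit.mul hb)]
  · rw [uu_nonunit hb, uu_nonunit]
    intro h
    exact hb (isUnit_of_mul_isUnit_right h)

theorem changeLevel_split {r k : ℕ} [NeZero r] [NeZero k] (χ₀ : DirichletCharacter ℂ r)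
    (n : ℤ) :
    DirichletCharacter.changeLevel (Dvd.intro k rfl : r ∣ r * k) χ₀ (n : ZMod (r * k)) =
      χ₀ (n : ZMod r) * uu k (n : ZMod k) := by
  by_cases h : IsCoprime n ((r * k : ℕ) : ℤ)
  · rw [DirichletCharacter.changeLevel_eq_cast_of_dvd' _ _ h, uu_unit, mul_one]
    rw [ZMod.coe_int_isUnit_iff_isCoprime]
    push_cast at h
    exact (h.of_mul_right_right).symm
  · rw [MulChar.map_nonunit, eq_comm, mul_eq_zero]
    · by_cases h1 : IsUnit (n : ZMod r)
      · right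
        apply uu_nonunit
        intro h2
        apply h
        rw [ZMod.coe_int_isUnit_iff_isCoprime] at h1 h2
        push_cast
        exact IsCoprime.mul_right h1.symm h2.symm
      · left
        exact MulChar.map_nonunit _ h1
    · rw [ZMod.coe_int_isUnit_iff_isCoprime]
      intro h1
      exact h h1.symm

/-- The Gauss sum of the induced character. -/
theorem gauss_ind {r k : ℕ} [NeZero r] [NeZero k] {χ₀ : DirichletCharacter ℂ r}
    (h : χ₀.IsPrimitive) {x y : ℤ} (hxy : x * k + y * r = 1) (hc : k.Coprime r) (v : ℤ) :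
    ∑ a ∈ red (r * k), DirichletCharacter.changeLevel (Dvd.intro k rfl : r ∣ r * k) χ₀
        (a : ZMod (r * k)) * ee (a * v / ((r * k : ℕ) : ℝ)) =
      χ₀⁻¹ (x : ZMod r) * χ₀⁻¹ (v : ZMod r) * tauG χ₀ * cR k v := by
  rw [red_sum (s := r * k) _ (fun b hb => MulChar.map_nonunit _ hb) v]
  -- split the summand
  set G : ZMod r × ZMod k → ℂ := fun p =>
    (χ₀ p.1 * (ZMod.stdAddChar (N := r)) (((x * v : ℤ) : ZMod r) * p.1)) *
    (uu k p.2 * (ZMod.stdAddChar (N := k)) ((v : ZMod k) * ((y : ZMod k) * p.2))) with hG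
  have hrk : r.Coprime k := hc.symm
  have key : ∀ b : ZMod (r * k), DirichletCharacter.changeLevel (Dvd.intro k rfl : r ∣ r * k) χ₀ b *
      (ZMod.stdAddChar (N := r * k)) ((v : ZMod (r * k)) * b) = G (ZMod.chineseRemainder hrk b) := by
    intro b
    obtain ⟨n, rfl⟩ := ZMod.intCast_surjective b
    have e1 : ZMod.chineseRemainder hrk (n : ZMod (r * k)) = ((n : ZMod r), (n : ZMod k)) := by
      rw [map_intCast]; rfl
    rw [e1, hG, changeLevel_split χ₀ n]
    simp only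
    have e2 : ((v : ZMod (r * k)) * (n : ZMod (r * k))) = ((v * n : ℤ) : ZMod (r * k)) := by
      push_cast; ring
    have e3 : (((x * v : ℤ) : ZMod r) * (n : ZMod r)) = ((x * v * n : ℤ) : ZMod r) := by
      push_cast; ring
    have e4 : ((v : ZMod k) * ((y : ZMod k) * (n : ZMod k))) = ((v * (y * n) : ℤ) : ZMod k) := by
      push_cast; ring
    rw [e2, e3, e4, std_int, std_int, std_int]
    have hr0 : (r : ℝ) ≠ 0 := by exact_mod_cast NeZero.ne r
    have hk0 : (k : ℝ) ≠ 0 := by exact_mod_cast NeZero.ne k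
    have hxy' : (x : ℝ) * k + y * r = 1 := by exact_mod_cast hxy
    have e5 : (((v * n : ℤ)) : ℝ) / ((r * k : ℕ) : ℝ) =
        (((x * v * n : ℤ)) : ℝ) / r + (((v * (y * n) : ℤ)) : ℝ) / k := by
      push_cast
      rw [div_add_div _ _ hr0 hk0]
      congr 1
      linear_combination (-(v : ℝ) * n) * hxy'
    rw [e5, ee_add]
    ring
  have hsum : ∑ b, G (ZMod.chineseRemainder hrk b) = ∑ p, G p :=
    Equiv.sum_comp (ZMod.chineseRemainder hrk).toEquiv G
  rw [sum_congr rfl fun b _ => key b, hsum, Fintype.sum_prod_type, hG]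
  simp only
  simp_rw [← mul_sum]
  rw [← sum_mul]
  have hy : IsUnit (y : ZMod k) := by
    have h1 : (y : ZMod k) * (r : ZMod k) = 1 := by
      have h2 := congrArg (fun z : ℤ => (z : ZMod k)) hxy
      simpa using h2
    exact IsUnit.of_mul_eq_one _ h1
  rw [cR_unit hy, ← gauss_expand h]
  push_cast
  rw [map_mul]

theorem cR_one {k : ℕ} (hk : 1 ≤ k) : cR k 1 = muC k := by
  rw [cR_eq hk, sum_eq_single 1]
  · simp
  · intro d _ hd
    rw [if_neg]
    intro h
    apply hd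
    have := Int.isUnit_iff.1 (isUnit_of_dvd_one h)
    omega
  · intro h
    exfalso
    apply h
    rw [Nat.mem_divisors]
    exact ⟨one_dvd _, by omega⟩

end KSCopAux

open KSCopAux

theorem KS_cop {r k : ℕ} (hr : 1 ≤ r) (hk : 1 ≤ k) {χ₀ : DirichletCharacter ℂ r} (h : χ₀.IsPrimitive)
    (hc : k.Coprime r) (v : ℤ) :
    KS (DirichletCharacter.changeLevel (Dvd.intro k rfl : r ∣ r * k) χ₀) v =
      (r : ℂ) * χ₀⁻¹ (v : ZMod r) * (muC k * cR k v) := by
  have : NeZero r := ⟨by omega⟩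
  have : NeZero k := ⟨by omega⟩
  have : NeZero (r * k) := ⟨Nat.mul_ne_zero (by omega) (by omega)⟩
  obtain ⟨x, y, hxy⟩ : IsCoprime (k : ℤ) (r : ℤ) := Nat.isCoprime_iff_coprime.2 hc
  set χ := DirichletCharacter.changeLevel (Dvd.intro k rfl : r ∣ r * k) χ₀ with hχ
  have h1 := gauss_ind h hxy hc v
  have h2 := gauss_ind h hxy hc 1
  have hone : χ₀⁻¹ ((1 : ℤ) : ZMod r) = 1 := by rw [Int.cast_one, map_one]
  rw [cR_one hk, hone, mul_one] at h2
  have h3 : ∑ m ∈ red (r * k), χ⁻¹ (m : ZMod (r * k)) * ee (-(m / ((r * k : ℕ) : ℝ))) =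
      (starRingEnd ℂ) (χ₀⁻¹ (x : ZMod r) * tauG χ₀ * muC k) := by
    rw [← h2, map_sum]
    refine sum_congr rfl fun m _ => ?_
    rw [map_mul, conj_char, conj_ee]
    congr 3
    push_cast
    ring
  rw [KS, h3, h1]
  have hx : IsUnit (x : ZMod r) := by
    have h4 : (x : ZMod r) * (k : ZMod r) = 1 := by
      have h5 := congrArg (fun z : ℤ => (z : ZMod r)) hxy
      simpa using h5
    exact IsUnit.of_mul_eq_one _ h4
  have hn : χ₀⁻¹ (x : ZMod r) * (starRingEnd ℂ) (χ₀⁻¹ (x : ZMod r)) = 1 := by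
    have hu := DirichletCharacter.unit_norm_eq_one χ₀ hx.unit
    rw [IsUnit.unit_spec] at hu
    rw [Complex.mul_conj', norm_inv_char, hu]
    norm_num
  have ht : tauG χ₀ * (starRingEnd ℂ) (tauG χ₀) = r := by
    rw [Complex.mul_conj']
    have := norm_tauG_sq h
    exact_mod_cast this
  have hm : (starRingEnd ℂ) (muC k) = muC k := by
    unfold muC
    rw [← Complex.ofReal_intCast, Complex.conj_ofReal]
  rw [map_mul, map_mul, hm]
  linear_combination (χ₀⁻¹ (v : ZMod r) * tauG χ₀ * cR k v * (starRingEnd ℂ) (tauG χ₀) * muC k) * hn +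
    (χ₀⁻¹ (v : ZMod r) * cR k v * muC k) * ht

end Pool.Agent.MVD
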