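import Pool.Agent.MVD.KSDef

/-!
# Module KSZero: the Gauss sums of induced characters, non coprime case

`s = r k`, `χ = changeLevel` of a character `χ₀` mod `r`, and a prime `p` divides `k` and `r`. Then `p² ∣ s`, `r ∣ s/p`, `p ∣ s/p`; the map
`m ↦ m + s/p mod s` is a bijection of the reduced classes mod `s` (coprimality to `s` does not change because every prime divisor of `s` divides `s/p`), does not change
`χ̄(m)` (`= χ̄₀(m mod r)`, `r ∣ s/p`), and multiplies `e(-m/s)` by `e(-1/p) ≠ 1`. So the second factor of `KS` is zero. (Primitivity is not needed.)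
-/

open Finset Complex
open scoped ArithmeticFunction.Moebius

namespace Pool.Agent.MVD

open Pool.Agent.ANT Pool.Agent.SInt

private lemma ee_inv_prime_ne {p : ℕ} (hp : p.Prime) : ee (-(1 / (p : ℝ))) ≠ 1 := by
  intro h
  unfold ee at h
  rw [Complex.exp_eq_one_iff] at h
  obtain ⟨n, hn⟩ := h
  have hp0 : (p : ℝ) ≠ 0 := by exact_mod_cast hp.ne_zero
  have hpi : (Real.pi : ℝ) ≠ 0 := Real.pi_ne_zero
  have h1 : (2 * Real.pi * (-(1 / (p : ℝ)))) = n * (2 * Real.pi) := by
    have h2 : I * (((2 * Real.pi * (-(1 / (p : ℝ))) : ℝ)) : ℂ) =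
        I * (((n : ℝ) * (2 * Real.pi) : ℝ) : ℂ) := by
      rw [hn]; push_cast; ring
    have h3 := mul_left_cancel₀ Complex.I_ne_zero h2
    exact_mod_cast h3
  have h4 : (-(1 / (p : ℝ))) = n := by
    have h5 : (2 * Real.pi) * (-(1 / (p : ℝ))) = (2 * Real.pi) * n := by rw [h1]; ring
    exact mul_left_cancel₀ (by positivity) h5
  have h6 : (-1 : ℝ) = n * p := by
    have h7 : (-(1 / (p : ℝ))) * p = -1 := by field_simp
    rw [← h7, h4]
  have h8 : (-1 : ℤ) = n * p := by exact_mod_cast h6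
  have h9 : (p : ℤ) ∣ 1 := ⟨-n, by linarith⟩
  have h10 : p ∣ 1 := by exact_mod_cast h9
  exact hp.one_lt.ne' (Nat.dvd_one.mp h10)

private lemma cop_shift {s q m : ℕ} (hq : ∀ l : ℕ, l.Prime → l ∣ s → l ∣ q)
    (hm : m.Coprime s) : (m + q).Coprime s := by
  rw [Nat.coprime_iff_gcd_eq_one]
  by_contra hne
  obtain ⟨l, hl, hd⟩ := Nat.exists_prime_and_dvd hne
  have h1 : l ∣ m + q := dvd_trans hd (Nat.gcd_dvd_left _ _)
  have h2 : l ∣ s := dvd_trans hd (Nat.gcd_dvd_right _ _)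
  have h3 : l ∣ m := (Nat.dvd_add_left (hq l hl h2)).mp h1
  exact Nat.not_coprime_of_dvd_of_dvd hl.one_lt h3 h2 hm

private lemma cop_mod {s m : ℕ} (hm : m.Coprime s) : (m % s).Coprime s := by
  rw [Nat.coprime_iff_gcd_eq_one] at hm ⊢
  rw [← Nat.gcd_rec, Nat.gcd_comm]
  exact hm

private lemma chi_shift {r s : ℕ} [NeZero s] (h : r ∣ s) (χ₀ : DirichletCharacter ℂ r)
    {m q : ℕ} (hrq : r ∣ q) (hm : m.Coprime s) (hm' : (m + q).Coprime s) :
    (DirichletCharacter.changeLevel h χ₀) ((m + q : ℕ) : ZMod s) =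
      (DirichletCharacter.changeLevel h χ₀) ((m : ℕ) : ZMod s) := by
  have e1 := DirichletCharacter.changeLevel_eq_cast_of_dvd χ₀ h (ZMod.unitOfCoprime m hm)
  have e2 := DirichletCharacter.changeLevel_eq_cast_of_dvd χ₀ h (ZMod.unitOfCoprime (m + q) hm')
  rw [ZMod.coe_unitOfCoprime] at e1 e2
  rw [e1, e2, ZMod.cast_natCast h, ZMod.cast_natCast h]
  congr 1
  push_cast
  have : ((q : ℕ) : ZMod r) = 0 := (ZMod.natCast_eq_zero_iff q r).mpr hrq
  rw [this, add_zero]

theorem KS_ncop {r k : ℕ} (hr : 1 ≤ r) (hk : 1 ≤ k) (χ₀ : DirichletCharacter ℂ r)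
    (hc : ¬ k.Coprime r) (v : ℤ) :
    KS (DirichletCharacter.changeLevel (Dvd.intro k rfl : r ∣ r * k) χ₀) v = 0 := by
  obtain ⟨p, hp, hpk, hpr⟩ := Nat.Prime.not_coprime_iff_dvd.mp hc
  obtain ⟨k', rfl⟩ := hpk
  have hk' : 1 ≤ k' := by
    rcases Nat.eq_zero_or_pos k' with h | h
    · rw [h] at hk; omega
    · exact h
  unfold KS
  refine mul_eq_zero_of_right _ ?_
  set s := r * (p * k') with hs
  have hs0 : 0 < s := Nat.mul_pos hr hk
  have : NeZero s := ⟨hs0.ne'⟩
  set q := r * k' with hq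
  have hsq : s = p * q := by rw [hs, hq]; ring
  have hrq : r ∣ q := Dvd.intro k' rfl
  have hqs : q ≤ s := by rw [hsq]; exact Nat.le_mul_of_pos_left _ hp.pos
  have hpr2 : ∀ l : ℕ, l.Prime → l ∣ s → l ∣ q := by
    intro l hl hls
    rw [hs] at hls
    rcases (hl.dvd_mul).mp hls with h | h
    · exact dvd_trans h hrq
    · rcases (hl.dvd_mul).mp h with h | h
      · rw [(Nat.prime_dvd_prime_iff_eq hl hp).mp h]
        exact dvd_trans hpr hrq
      · exact dvd_trans h (Dvd.intro_left r rfl)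
  have hpr3 : ∀ l : ℕ, l.Prime → l ∣ s → l ∣ s - q := by
    intro l hl hls
    exact (Nat.dvd_sub hls (hpr2 l hl hls))
  set χ := DirichletCharacter.changeLevel (Dvd.intro (p * k') rfl : r ∣ r * (p * k')) χ₀ with hχ
  set F : ℕ → ℂ := fun m => χ⁻¹ (m : ZMod s) * ee (-((m : ℝ) / (s : ℝ))) with hF
  have hkey : ∀ m ∈ red s, F ((m + q) % s) = ee (-(1 / (p : ℝ))) * F m := by
    intro m hm
    rw [red, Finset.mem_filter, Finset.mem_range] at hm
    have hcq := cop_shift hpr2 hm.2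
    have hχe : χ⁻¹ (((m + q) % s : ℕ) : ZMod s) = χ⁻¹ ((m : ℕ) : ZMod s) := by
      rw [ZMod.natCast_mod, MulChar.inv_apply_eq_inv', MulChar.inv_apply_eq_inv']
      congr 1
      exact chi_shift _ χ₀ hrq hm.2 hcq
    have hsR : (s : ℝ) ≠ 0 := by exact_mod_cast hs0.ne'
    have hpR : (p : ℝ) ≠ 0 := by exact_mod_cast hp.ne_zero
    have hqR : (q : ℝ) ≠ 0 := by
      have : q ≠ 0 := (Nat.mul_pos hr hk').ne'
      exact_mod_cast this
    have hee : ee (-((((m + q) % s : ℕ) : ℝ) / (s : ℝ))) =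
        ee (-(1 / (p : ℝ))) * ee (-((m : ℝ) / (s : ℝ))) := by
      rw [← ee_add]
      have h1 : (((m + q) % s : ℕ) : ℝ) = (m : ℝ) + q - s * (((m + q) / s : ℕ) : ℝ) := by
        have h2 := Nat.mod_add_div (m + q) s
        have h3 : (((m + q) % s : ℕ) : ℝ) + s * (((m + q) / s : ℕ) : ℝ) = ((m + q : ℕ) : ℝ) := by
          exact_mod_cast h2
        push_cast at h3 ⊢
        linarith
      have h4 : -((((m + q) % s : ℕ) : ℝ) / (s : ℝ)) =
          (-(1 / (p : ℝ)) + -((m : ℝ) / (s : ℝ))) + (((m + q) / s : ℕ) : ℤ) := by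
        rw [h1]
        have h5 : (q : ℝ) / s = 1 / p := by
          rw [hsq]; push_cast; field_simp
        rw [← h5, Int.cast_natCast]
        field_simp
        ring
      rw [h4, ee_add_int]
    simp only [hF]
    rw [hχe, hee]
    ring
  have hsum : ∑ m ∈ red s, F m = ee (-(1 / (p : ℝ))) * ∑ m ∈ red s, F m := by
    rw [Finset.mul_sum, ← Finset.sum_congr rfl hkey]
    symm
    refine Finset.sum_nbij' (fun m => (m + q) % s) (fun m => (m + (s - q)) % s) ?_ ?_ ?_ ?_ ?_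
    · intro m hm
      rw [red, Finset.mem_filter, Finset.mem_range] at hm ⊢
      exact ⟨Nat.mod_lt _ hs0, cop_mod (cop_shift hpr2 hm.2)⟩
    · intro m hm
      rw [red, Finset.mem_filter, Finset.mem_range] at hm ⊢
      exact ⟨Nat.mod_lt _ hs0, cop_mod (cop_shift hpr3 hm.2)⟩
    · intro m hm
      rw [red, Finset.mem_filter, Finset.mem_range] at hm
      rw [Nat.mod_add_mod, show m + q + (s - q) = m + s by omega, Nat.add_mod_right,
        Nat.mod_eq_of_lt hm.1]
    · intro m hm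
      rw [red, Finset.mem_filter, Finset.mem_range] at hm
      rw [Nat.mod_add_mod, show m + (s - q) + q = m + s by omega, Nat.add_mod_right,
        Nat.mod_eq_of_lt hm.1]
    · intro m hm
      rfl
  have hz : (1 - ee (-(1 / (p : ℝ)))) * ∑ m ∈ red s, F m = 0 := by
    rw [sub_mul, one_mul, ← hsum, sub_self]
  rcases mul_eq_zero.mp hz with h | h
  · exact absurd (sub_eq_zero.mp h).symm (ee_inv_prime_ne hp)
  · exact h

end Pool.Agent.MVD
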