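import Pool.Agent.MVD.Ram
import Pool.Agent.MVD.KSCop
import Pool.Agent.MVD.KSZero

open Finset Complex
open scoped ArithmeticFunction.Moebius

namespace Pool.Agent.MVD

open Pool.Agent.ANT Pool.Agent.SInt

theorem KS_eq {r k : ℕ} (hr : 1 ≤ r) (hk : 1 ≤ k) {χ₀ : DirichletCharacter ℂ r} (h : χ₀.IsPrimitive) (v : ℤ) :
    KS (DirichletCharacter.changeLevel (Dvd.intro k rfl : r ∣ r * k) χ₀) v =
      if k.Coprime r then (r : ℂ) * χ₀⁻¹ (v : ZMod r) * (muC k * cR k v) else 0 := by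
  by_cases hc : k.Coprime r
  · rw [if_pos hc]
    exact KS_cop hr hk h hc v
  · rw [if_neg hc]
    exact KS_ncop hr hk χ₀ hc v

end Pool.Agent.MVD
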