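import Pool.Agent.MVD.Defs
import Pool.Agent.SInt.MVT

/-!
# Module Gall: Gallagher's lemma for Dirichlet polynomials

Both sides are quadratic forms in `b(n) = a(n)/n`. The left side is at most the integral with the Fejer weight, which equals
`∑ b(k) b̄(j) (5/2) π T tri(T(log j - log k))`; the right side is `∑ b(k) b̄(j) (1/T) tri(T(log j - log k))`.
-/

open Finset Complex MeasureTheory

namespace Pool.Agent.MVD

open Pool.Agent.ANT Pool.Agent.SInt

namespace GallAux

/-- Indicator of `|a - u| ≤ h`. -/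
noncomputable def ind (h a u : ℝ) : ℝ := if |a - u| ≤ h then 1 else 0

lemma ind_mul (h a b u : ℝ) :
    ind h a u * ind h b u = (Set.Icc (max a b - h) (min a b + h)).indicator (fun _ => (1 : ℝ)) u := by
  unfold ind
  rw [Set.indicator_apply]
  by_cases h1 : |a - u| ≤ h
  · by_cases h2 : |b - u| ≤ h
    · rw [if_pos h1, if_pos h2, if_pos, one_mul]
      rw [abs_le] at h1 h2
      constructor
      · rcases max_cases a b with h3 | h3 <;> rw [h3.1] <;> linarith
      · rcases min_cases a b with h3 | h3 <;> rw [h3.1] <;> linarith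
    · rw [if_neg h2, mul_zero, if_neg]
      rintro ⟨h3, h4⟩
      apply h2
      rw [abs_le]
      have h5 := le_max_right a b
      have h6 := min_le_right a b
      constructor <;> linarith
  · rw [if_neg h1, zero_mul, if_neg]
    rintro ⟨h3, h4⟩
    apply h1
    rw [abs_le]
    have h5 := le_max_left a b
    have h6 := min_le_left a b
    constructor <;> linarith

lemma ind_mul_integrable (h a b : ℝ) : Integrable (fun u : ℝ => ind h a u * ind h b u) := by
  simp only [ind_mul]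
  exact (integrable_indicator_iff measurableSet_Icc).mpr
    (integrableOn_const (hs := measure_Icc_lt_top.ne))

lemma integral_ind_mul {T : ℝ} (hT : 0 < T) (a b : ℝ) :
    ∫ u : ℝ, ind (1 / (2 * T)) a u * ind (1 / (2 * T)) b u = 1 / T * Hadamard.tri (T * (a - b)) := by
  simp only [ind_mul]
  rw [integral_indicator measurableSet_Icc, setIntegral_const, smul_eq_mul, mul_one,
    Real.volume_real_Icc]
  unfold Hadamard.tri
  rw [mul_max_of_nonneg _ _ (by positivity), mul_zero, abs_mul, abs_of_pos hT, max_comm]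
  congr 1
  have h1 : 1 / T * (1 - T * |a - b|) = 1 / T - |a - b| := by
    field_simp
  have h2 : 1 / (2 * T) + 1 / (2 * T) = 1 / T := by
    field_simp
    norm_num
  rw [h1, ← h2]
  have h3 : max a b - min a b = |a - b| := by
    rw [max_sub_min_eq_abs, abs_sub_comm]
  linarith

lemma sq_expand (S : Finset ℕ) (b : ℕ → ℂ) (lam : ℕ → ℝ) (h u : ℝ) :
    ((‖∑ n ∈ S.filter (fun n : ℕ => |lam n - u| ≤ h), b n‖ ^ 2 : ℝ) : ℂ) =
      ∑ j ∈ S, ∑ k ∈ S, (b k * (starRingEnd ℂ) (b j)) * ((ind h (lam j) u * ind h (lam k) u : ℝ) : ℂ) := by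
  have h1 : ∀ z : ℂ, ((‖z‖ ^ 2 : ℝ) : ℂ) = (starRingEnd ℂ) z * z := by
    intro z
    rw [← Complex.normSq_eq_norm_sq, Complex.normSq_eq_conj_mul_self]
  have h2 : ∑ n ∈ S.filter (fun n : ℕ => |lam n - u| ≤ h), b n = ∑ n ∈ S, b n * ((ind h (lam n) u : ℝ) : ℂ) := by
    rw [Finset.sum_filter]
    refine Finset.sum_congr rfl fun n _ => ?_
    unfold ind
    split_ifs <;> simp
  rw [h1, h2, map_sum, Finset.sum_mul_sum]
  refine Finset.sum_congr rfl fun j _ => Finset.sum_congr rfl fun k _ => ?_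
  rw [map_mul, Complex.conj_ofReal]
  push_cast
  ring

end GallAux

open GallAux in
theorem gallagher : ∃ C : ℝ, 0 < C ∧ ∀ (a : ℕ → ℂ) (N : ℕ) (T : ℝ), 1 ≤ T →
    ∫ t in Set.Icc (-T) T, ‖Fh a N t‖ ^ 2 ≤
      C * T ^ 2 * ∫ u : ℝ, ‖∑ n ∈ (Icc 1 N).filter (fun n : ℕ => |Real.log n - u| ≤ 1 / (2 * T)), a n / (n : ℂ)‖ ^ 2 := by
  refine ⟨5 / 2 * Real.pi, by positivity, fun a N T hT1 => ?_⟩
  have hT : 0 < T := lt_of_lt_of_le one_pos hT1
  set b : ℕ → ℂ := fun n => a n / (n : ℂ) with hb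
  have hFh : ∀ t : ℝ, Fh a N t = ∑ n ∈ Icc 1 N, b n * cexp (-((Real.log n * t : ℝ) : ℂ) * I) := by
    intro t
    unfold Fh
    refine Finset.sum_congr rfl fun n hn => ?_
    have hn0 : (0 : ℝ) < n := by exact_mod_cast (Finset.mem_Icc.mp hn).1
    have h1 : cexp (-((1 + t * I) * (Real.log n : ℂ))) =
        cexp (-((Real.log n : ℝ) : ℂ)) * cexp (-((Real.log n * t : ℝ) : ℂ) * I) := by
      rw [← Complex.exp_add]
      congr 1
      push_cast
      ring
    have h2 : cexp (-((Real.log n : ℝ) : ℂ)) = 1 / (n : ℂ) := by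
      rw [← Complex.ofReal_neg, ← Complex.ofReal_exp, Real.exp_neg, Real.exp_log hn0]
      push_cast
      rw [one_div]
    rw [h1, h2, hb]
    ring
  have hint := Hadamard.fejer_integrable (Icc 1 N) (fun n : ℕ => Real.log n) b hT
  have hmv := Hadamard.fejer_mean_value_general (Icc 1 N) (fun n : ℕ => Real.log n) b hT
  have hright : ((∫ u : ℝ, ‖∑ n ∈ (Icc 1 N).filter (fun n : ℕ => |Real.log n - u| ≤ 1 / (2 * T)), b n‖ ^ 2 : ℝ) : ℂ) =
      ∑ j ∈ Icc 1 N, ∑ k ∈ Icc 1 N, (b k * (starRingEnd ℂ) (b j)) *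
        ((1 / T * Hadamard.tri (T * (Real.log j - Real.log k)) : ℝ) : ℂ) := by
    rw [← integral_complex_ofReal]
    simp only [sq_expand]
    rw [integral_finsetSum _ fun j _ => integrable_finsetSum _ fun k _ =>
      ((ind_mul_integrable _ _ _).ofReal).const_mul _]
    refine Finset.sum_congr rfl fun j _ => ?_
    rw [integral_finsetSum _ fun k _ => ((ind_mul_integrable _ _ _).ofReal).const_mul _]
    refine Finset.sum_congr rfl fun k _ => ?_
    rw [integral_const_mul, integral_complex_ofReal, integral_ind_mul hT]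
  have hEq : ∫ t : ℝ, ‖∑ k ∈ Icc 1 N, b k * cexp (-((Real.log k * t : ℝ) : ℂ) * I)‖ ^ 2 * Hadamard.fejerW (t / T) =
      5 / 2 * Real.pi * T ^ 2 * ∫ u : ℝ, ‖∑ n ∈ (Icc 1 N).filter (fun n : ℕ => |Real.log n - u| ≤ 1 / (2 * T)), b n‖ ^ 2 := by
    have h : ((∫ t : ℝ, ‖∑ k ∈ Icc 1 N, b k * cexp (-((Real.log k * t : ℝ) : ℂ) * I)‖ ^ 2 * Hadamard.fejerW (t / T) : ℝ) : ℂ) =
      ((5 / 2 * Real.pi * T ^ 2 * ∫ u : ℝ, ‖∑ n ∈ (Icc 1 N).filter (fun n : ℕ => |Real.log n - u| ≤ 1 / (2 * T)), b n‖ ^ 2 : ℝ) : ℂ) := by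
      rw [hmv, Complex.ofReal_mul, hright, Finset.mul_sum]
      refine Finset.sum_congr rfl fun j _ => ?_
      rw [Finset.mul_sum]
      refine Finset.sum_congr rfl fun k _ => ?_
      have hTC : (T : ℂ) ≠ 0 := by exact_mod_cast hT.ne'
      push_cast
      field_simp
    exact_mod_cast h
  have hcont : Continuous fun t : ℝ => ‖Fh a N t‖ ^ 2 := by
    have : (fun t : ℝ => ‖Fh a N t‖ ^ 2) = fun t : ℝ => ‖∑ n ∈ Icc 1 N, b n *
      cexp (-((Real.log n * t : ℝ) : ℂ) * I)‖ ^ 2 := by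
      funext t; rw [hFh]
    rw [this]
    fun_prop
  calc ∫ t in Set.Icc (-T) T, ‖Fh a N t‖ ^ 2
      ≤ ∫ t in Set.Icc (-T) T, ‖∑ n ∈ Icc 1 N, b n *
          cexp (-((Real.log n * t : ℝ) : ℂ) * I)‖ ^ 2 * Hadamard.fejerW (t / T) := by
        refine setIntegral_mono_on (hcont.integrableOn_Icc) hint.integrableOn
          measurableSet_Icc fun t ht => ?_
        have h7 : 1 ≤ Hadamard.fejerW (t / T) := by
          apply Hadamard.fejerW_ge_one
          rw [abs_div, abs_of_pos hT]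
          exact (div_le_one hT).mpr (abs_le.mpr ht)
        rw [hFh]
        exact le_mul_of_one_le_right (by positivity) h7
    _ ≤ ∫ t : ℝ, ‖∑ n ∈ Icc 1 N, b n *
          cexp (-((Real.log n * t : ℝ) : ℂ) * I)‖ ^ 2 * Hadamard.fejerW (t / T) := by
        refine setIntegral_le_integral hint (Filter.Eventually.of_forall fun t => ?_)
        exact mul_nonneg (by positivity) (Hadamard.fejerW_nonneg _)
    _ = _ := hEq

end Pool.Agent.MVD
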