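import Pool.Agent.MVD.GcdQ

/-!
# Module GcdP: the gcd sum over pairs

For `ρ ≥ 1`: `(m, ρ) ≤ ∑_{g ∣ ρ, g ∣ m} g`.
`gcd_pair`: `2τ(m₁)²τ(m₂)² ≤ τ(m₁)⁴ + τ(m₂)⁴`, so `∑_{m₁ ≠ m₂ ≤ M} τ(m₁)²τ(m₂)² (m₂,ρ) (m₁-m₂, ρ) ≤ ∑_{g₁,g₂ ∣ ρ} g₁g₂ ∑_{g₁ ∣ m₂, g₂ ∣ m₁-m₂, m₁ ≠ m₂} (τ(m₁)⁴ + τ(m₂)⁴)/2`.
Terms with `τ(m₂)⁴`: for fixed `m₂` at most `M/g₂ + 1` values `m₁`; `∑_{g₁ ∣ m₂} τ(m₂)⁴ ≤ τ(g₁)⁴ (M/g₁) (1+log M)^E` (tau4_sum). Terms with `τ(m₁)⁴`: the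
conditions force `g₀ = (g₁,g₂) ∣ m₁`, and then `m₂` lies in a class mod `lcm(g₁,g₂) = g₁g₂/g₀`: at most `M g₀/(g₁g₂) + 1` values; `∑_{g₀ ∣ m₁} τ(m₁)⁴ ≤ τ(g₀)⁴ (M/g₀)(1+log M)^E`. Total
`≤ ∑_{g₁,g₂ ∣ ρ} τ(ρ)⁴ (1+log M)^E (2 M² + 2 ρ² M)/2·...`; number of `(g₁,g₂)`: `τ(ρ)²`. (The factor 4 leaves room. The condition `m₁ ≠ m₂` may be dropped or used.)
-/

open Finset Complex

namespace Pool.Agent.MVD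

open Pool.Agent.ANT Pool.Agent.SInt

namespace GcdPAux

theorem tau_mono {g ρ : ℕ} (hρ : 1 ≤ ρ) (h : g ∣ ρ) : tauR g ≤ tauR ρ := by
  unfold tauR
  exact_mod_cast Finset.card_le_card (Nat.divisors_subset_of_dvd (by omega) h)

theorem gcd_le (v : ℤ) {ρ : ℕ} (hρ : 1 ≤ ρ) :
    (Int.gcd v ρ : ℝ) ≤ ∑ g ∈ ρ.divisors, (if (g : ℤ) ∣ v then (g : ℝ) else 0) := by
  have hd : Int.gcd v ρ ∣ ρ := by
    have := Int.gcd_dvd_right v (ρ : ℤ)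
    exact_mod_cast this
  have hd' : ((Int.gcd v ρ : ℕ) : ℤ) ∣ v := Int.gcd_dvd_left v (ρ : ℤ)
  have hm : Int.gcd v ρ ∈ ρ.divisors := Nat.mem_divisors.2 ⟨hd, by omega⟩
  have h1 : (Int.gcd v ρ : ℝ) = (if ((Int.gcd v ρ : ℕ) : ℤ) ∣ v then ((Int.gcd v ρ : ℕ) : ℝ) else 0) := by
    rw [if_pos hd']
  rw [h1]
  exact Finset.single_le_sum (f := fun g : ℕ => if (g : ℤ) ∣ v then (g : ℝ) else 0)
    (fun g _ => by positivity) hm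

theorem card_class {q M : ℕ} (hq : 1 ≤ q) (F : Finset ℕ) (hF : F ⊆ Icc 1 M)
    (hc : ∀ a ∈ F, ∀ b ∈ F, a ≡ b [MOD q]) : (F.card : ℝ) ≤ M / q + 1 := by
  have h1 : F.card ≤ (Finset.range (M / q + 1)).card := by
    apply Finset.card_le_card_of_injOn (fun m => (m - 1) / q)
    · intro m hm
      have h2 := Finset.mem_Icc.1 (hF hm)
      simp only [Finset.coe_range, Set.mem_Iio]
      have : (m - 1) / q ≤ M / q := Nat.div_le_div_right (by omega)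
      omega
    · intro a ha b hb hab
      have h2 := Finset.mem_Icc.1 (hF ha)
      have h3 := Finset.mem_Icc.1 (hF hb)
      have h4 : a ≡ b [MOD q] := hc a ha b hb
      have h5 : a - 1 ≡ b - 1 [MOD q] := by
        have e1 : a = (a - 1) + 1 := by omega
        have e2 : b = (b - 1) + 1 := by omega
        rw [e1, e2] at h4
        exact Nat.ModEq.add_right_cancel' 1 h4
      have h6 : (a - 1) % q = (b - 1) % q := h5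
      have h7 : (a - 1) / q = (b - 1) / q := hab
      have h8 := Nat.div_add_mod (a - 1) q
      have h9 := Nat.div_add_mod (b - 1) q
      rw [h6, h7] at h8
      omega
  rw [Finset.card_range] at h1
  have h2 : ((M / q : ℕ) : ℝ) ≤ M / q := Nat.cast_div_le
  have h3 : (F.card : ℝ) ≤ ((M / q + 1 : ℕ) : ℝ) := by exact_mod_cast h1
  push_cast at h3
  linarith

/-- `∑_{m₁ ≤ M} (m₁ - m₂, ρ) ≤ τ(ρ) (M + ρ)` -/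
theorem sum_gcd_sub (ρ M m₂ : ℕ) (hρ : 1 ≤ ρ) :
    ∑ m₁ ∈ Icc 1 M, (Int.gcd ((m₁ : ℤ) - m₂) ρ : ℝ) ≤ tauR ρ * (M + ρ) := by
  have h1 : ∑ m₁ ∈ Icc 1 M, (Int.gcd ((m₁ : ℤ) - m₂) ρ : ℝ) ≤
      ∑ m₁ ∈ Icc 1 M, ∑ g ∈ ρ.divisors, (if (g : ℤ) ∣ (m₁ : ℤ) - m₂ then (g : ℝ) else 0) :=
    Finset.sum_le_sum fun m _ => gcd_le _ hρ
  refine h1.trans ?_
  rw [Finset.sum_comm]
  have h2 : ∀ g ∈ ρ.divisors, ∑ m₁ ∈ Icc 1 M, (if (g : ℤ) ∣ (m₁ : ℤ) - m₂ then (g : ℝ) else 0) ≤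
      (M : ℝ) + ρ := by
    intro g hg
    have hgρ := Nat.dvd_of_mem_divisors hg
    have hg1 : 1 ≤ g := Nat.pos_of_dvd_of_pos hgρ (by omega)
    have hgle : (g : ℝ) ≤ ρ := by exact_mod_cast Nat.le_of_dvd (by omega) hgρ
    rw [← Finset.sum_filter, Finset.sum_const, nsmul_eq_mul]
    have h3 := card_class hg1 ((Icc 1 M).filter (fun m₁ : ℕ => (g : ℤ) ∣ (m₁ : ℤ) - m₂))
      (Finset.filter_subset _ _) (by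
        intro a ha b hb
        have h4 := (Finset.mem_filter.1 ha).2
        have h5 := (Finset.mem_filter.1 hb).2
        have h6 : (g : ℤ) ∣ (b : ℤ) - a := by
          have := dvd_sub h5 h4
          have e : (b : ℤ) - m₂ - ((a : ℤ) - m₂) = b - a := by ring
          rwa [e] at this
        exact (Nat.modEq_iff_dvd).2 h6)
    have hg0 : (0 : ℝ) < g := by exact_mod_cast hg1
    have h7 := mul_le_mul_of_nonneg_right h3 hg0.le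
    have h8 : ((M : ℝ) / g + 1) * g = M + g := by
      field_simp
    rw [h8] at h7
    linarith
  refine (Finset.sum_le_sum h2).trans ?_
  rw [Finset.sum_const, nsmul_eq_mul]
  exact le_of_eq rfl

/-- `∑_{m ≤ M} τ(m)⁴ (m, ρ) ≤ τ(ρ)⁵ M L` -/
theorem sum_tau_gcd {L : ℝ} {ρ M : ℕ} (hρ : 1 ≤ ρ) (hL : 0 ≤ L)
    (H : ∀ g : ℕ, 1 ≤ g → ∑ m ∈ (Icc 1 M).filter (fun m => g ∣ m), tauR m ^ 4 ≤
      tauR g ^ 4 * (M / g : ℝ) * L) :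
    ∑ m ∈ Icc 1 M, tauR m ^ 4 * (Nat.gcd m ρ : ℝ) ≤ tauR ρ ^ 5 * M * L := by
  have h1 : ∑ m ∈ Icc 1 M, tauR m ^ 4 * (Nat.gcd m ρ : ℝ) ≤
      ∑ m ∈ Icc 1 M, ∑ g ∈ ρ.divisors, (if g ∣ m then tauR m ^ 4 * (g : ℝ) else 0) := by
    refine Finset.sum_le_sum fun m _ => ?_
    have h2 := gcd_le (m : ℤ) hρ
    rw [Int.gcd_natCast_natCast] at h2
    have h3 := mul_le_mul_of_nonneg_left h2 (pow_nonneg (tauR_nonneg m) 4)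
    refine h3.trans (le_of_eq ?_)
    rw [Finset.mul_sum]
    refine Finset.sum_congr rfl fun g _ => ?_
    simp only [Int.natCast_dvd_natCast, mul_ite, mul_zero]
  refine h1.trans ?_
  rw [Finset.sum_comm]
  have h2 : ∀ g ∈ ρ.divisors, ∑ m ∈ Icc 1 M, (if g ∣ m then tauR m ^ 4 * (g : ℝ) else 0) ≤
      tauR ρ ^ 4 * M * L := by
    intro g hg
    have hgρ := Nat.dvd_of_mem_divisors hg
    have hg1 : 1 ≤ g := Nat.pos_of_dvd_of_pos hgρ (by omega)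
    have hg0 : (0 : ℝ) < g := by exact_mod_cast hg1
    rw [← Finset.sum_filter, ← Finset.sum_mul]
    have h3 := mul_le_mul_of_nonneg_right (H g hg1) hg0.le
    refine h3.trans ?_
    have h4 : tauR g ^ 4 * ((M : ℝ) / g) * L * g = tauR g ^ 4 * (M * L) := by
      field_simp
    rw [h4, mul_assoc]
    exact mul_le_mul_of_nonneg_right (pow_le_pow_left₀ (tauR_nonneg g) (tau_mono hρ hgρ) 4)
      (by positivity)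
  refine (Finset.sum_le_sum h2).trans ?_
  rw [Finset.sum_const, nsmul_eq_mul]
  refine le_of_eq ?_
  have : (ρ.divisors.card : ℝ) = tauR ρ := rfl
  rw [this]
  ring

/-- the pairs with `τ(m₁)⁴`, fixed `g₁`, `g₂` -/
theorem sum_pair {L : ℝ} {ρ M g₁ g₂ : ℕ} (hρ : 1 ≤ ρ) (hL : 0 ≤ L) (hg₁ : g₁ ∣ ρ) (hg₂ : g₂ ∣ ρ)
    (H : ∀ g : ℕ, 1 ≤ g → ∑ m ∈ (Icc 1 M).filter (fun m => g ∣ m), tauR m ^ 4 ≤
      tauR g ^ 4 * (M / g : ℝ) * L) :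
    ∑ m₁ ∈ Icc 1 M, tauR m₁ ^ 4 * ((g₁ : ℝ) * g₂ *
      (((Icc 1 M).filter (fun m₂ : ℕ => g₁ ∣ m₂ ∧ (g₂ : ℤ) ∣ (m₁ : ℤ) - m₂)).card : ℝ)) ≤
      tauR ρ ^ 4 * L * ((M : ℝ) ^ 2 + (ρ : ℝ) ^ 2 * M) := by
  have hg₁' : 1 ≤ g₁ := Nat.pos_of_dvd_of_pos hg₁ (by omega)
  have hg₂' : 1 ≤ g₂ := Nat.pos_of_dvd_of_pos hg₂ (by omega)
  set g₀ := Nat.gcd g₁ g₂ with hg₀
  set l := Nat.lcm g₁ g₂ with hl
  have hg₀' : 1 ≤ g₀ := Nat.gcd_pos_of_pos_left _ hg₁'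
  have hl' : 1 ≤ l := Nat.lcm_pos hg₁' hg₂'
  have hlρ : l ∣ ρ := Nat.lcm_dvd hg₁ hg₂
  have hgl : (g₁ : ℝ) * g₂ = g₀ * l := by
    exact_mod_cast (Nat.gcd_mul_lcm g₁ g₂).symm
  have hg₀ρ : g₀ ∣ ρ := (Nat.gcd_dvd_left g₁ g₂).trans hg₁
  have hg₀0 : (0 : ℝ) < g₀ := by exact_mod_cast hg₀'
  have hl0 : (0 : ℝ) < l := by exact_mod_cast hl'
  have hcard : ∀ m₁ : ℕ, (((Icc 1 M).filter
      (fun m₂ : ℕ => g₁ ∣ m₂ ∧ (g₂ : ℤ) ∣ (m₁ : ℤ) - m₂)).card : ℝ) ≤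
      if g₀ ∣ m₁ then (M : ℝ) / l + 1 else 0 := by
    intro m₁
    split_ifs with hd
    · apply card_class hl' _ (Finset.filter_subset _ _)
      intro a ha b hb
      obtain ⟨ha1, ha2⟩ := (Finset.mem_filter.1 ha).2
      obtain ⟨hb1, hb2⟩ := (Finset.mem_filter.1 hb).2
      have h6 : (g₂ : ℤ) ∣ (b : ℤ) - a := by
        have := dvd_sub ha2 hb2
        have e : (m₁ : ℤ) - a - ((m₁ : ℤ) - b) = b - a := by ring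
        rwa [e] at this
      have h7 : (g₁ : ℤ) ∣ (b : ℤ) - a :=
        dvd_sub (by exact_mod_cast hb1) (by exact_mod_cast ha1)
      rw [Nat.modEq_iff_dvd]
      have h8 : ((l : ℕ) : ℤ) = (Int.lcm g₁ g₂ : ℤ) := by
        rw [hl, Int.lcm_natCast_natCast]
      rw [h8]
      exact Int.coe_lcm_dvd h7 h6
    · have he : (Icc 1 M).filter (fun m₂ : ℕ => g₁ ∣ m₂ ∧ (g₂ : ℤ) ∣ (m₁ : ℤ) - m₂) = ∅ := by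
        rw [Finset.filter_eq_empty_iff]
        rintro m₂ _ ⟨h1, h2⟩
        apply hd
        have h3 : (g₀ : ℤ) ∣ (m₂ : ℤ) := by
          exact_mod_cast (Nat.gcd_dvd_left g₁ g₂).trans h1
        have h4 : (g₀ : ℤ) ∣ (m₁ : ℤ) - m₂ := by
          refine dvd_trans ?_ h2
          exact_mod_cast Nat.gcd_dvd_right g₁ g₂
        have h5 := dvd_add h4 h3
        rw [sub_add_cancel] at h5
        exact_mod_cast h5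
      rw [he]
      simp
  have h1 : ∑ m₁ ∈ Icc 1 M, tauR m₁ ^ 4 * ((g₁ : ℝ) * g₂ *
      (((Icc 1 M).filter (fun m₂ : ℕ => g₁ ∣ m₂ ∧ (g₂ : ℤ) ∣ (m₁ : ℤ) - m₂)).card : ℝ)) ≤
      ∑ m₁ ∈ Icc 1 M, (if g₀ ∣ m₁ then tauR m₁ ^ 4 * ((g₀ : ℝ) * l * ((M : ℝ) / l + 1)) else 0) := by
    refine Finset.sum_le_sum fun m₁ _ => ?_
    have h2 := hcard m₁
    rw [hgl]
    have h3 : 0 ≤ tauR m₁ ^ 4 := pow_nonneg (tauR_nonneg _) 4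
    split_ifs with hd
    · rw [if_pos hd] at h2
      gcongr
    · rw [if_neg hd] at h2
      have h4 : (((Icc 1 M).filter
        (fun m₂ : ℕ => g₁ ∣ m₂ ∧ (g₂ : ℤ) ∣ (m₁ : ℤ) - m₂)).card : ℝ) = 0 :=
        le_antisymm h2 (Nat.cast_nonneg _)
      rw [h4]
      simp
  refine h1.trans ?_
  rw [← Finset.sum_filter, ← Finset.sum_mul]
  have h2 : 0 ≤ (g₀ : ℝ) * l * ((M : ℝ) / l + 1) := by positivity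
  refine (mul_le_mul_of_nonneg_right (H g₀ hg₀') h2).trans ?_
  have h3 : tauR g₀ ^ 4 * ((M : ℝ) / g₀) * L * ((g₀ : ℝ) * l * ((M : ℝ) / l + 1)) =
      tauR g₀ ^ 4 * L * ((M : ℝ) ^ 2 + l * M) := by
    field_simp
  rw [h3]
  have h4 : (l : ℝ) ≤ (ρ : ℝ) ^ 2 := by
    have h5 : (l : ℝ) ≤ ρ := by exact_mod_cast Nat.le_of_dvd (by omega) hlρ
    have h6 : (1 : ℝ) ≤ ρ := by exact_mod_cast hρ
    nlinarith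
  have h5 : tauR g₀ ^ 4 ≤ tauR ρ ^ 4 := pow_le_pow_left₀ (tauR_nonneg _) (tau_mono hρ hg₀ρ) 4
  have h6 : 0 ≤ tauR g₀ ^ 4 := pow_nonneg (tauR_nonneg _) 4
  gcongr

/-- `∑_{m₁, m₂} τ(m₁)⁴ (m₂, ρ)(m₁ - m₂, ρ)` -/
theorem sum_one {L : ℝ} {ρ M : ℕ} (hρ : 1 ≤ ρ) (hL : 0 ≤ L)
    (H : ∀ g : ℕ, 1 ≤ g → ∑ m ∈ (Icc 1 M).filter (fun m => g ∣ m), tauR m ^ 4 ≤
      tauR g ^ 4 * (M / g : ℝ) * L) :
    ∑ m₁ ∈ Icc 1 M, ∑ m₂ ∈ Icc 1 M, tauR m₁ ^ 4 * ((Nat.gcd m₂ ρ : ℝ) *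
      (Int.gcd ((m₁ : ℤ) - m₂) ρ : ℝ)) ≤
      tauR ρ ^ 6 * L * ((M : ℝ) ^ 2 + (ρ : ℝ) ^ 2 * M) := by
  have h1 : ∀ m₁ ∈ Icc 1 M, ∑ m₂ ∈ Icc 1 M, tauR m₁ ^ 4 * ((Nat.gcd m₂ ρ : ℝ) *
      (Int.gcd ((m₁ : ℤ) - m₂) ρ : ℝ)) ≤ ∑ g₁ ∈ ρ.divisors, ∑ g₂ ∈ ρ.divisors,
      tauR m₁ ^ 4 * ((g₁ : ℝ) * g₂ *
      (((Icc 1 M).filter (fun m₂ : ℕ => g₁ ∣ m₂ ∧ (g₂ : ℤ) ∣ (m₁ : ℤ) - m₂)).card : ℝ)) := by
    intro m₁ _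
    have h2 : ∀ m₂ ∈ Icc 1 M, tauR m₁ ^ 4 * ((Nat.gcd m₂ ρ : ℝ) *
      (Int.gcd ((m₁ : ℤ) - m₂) ρ : ℝ)) ≤ ∑ g₁ ∈ ρ.divisors, ∑ g₂ ∈ ρ.divisors,
      (if g₁ ∣ m₂ ∧ (g₂ : ℤ) ∣ (m₁ : ℤ) - m₂ then tauR m₁ ^ 4 * ((g₁ : ℝ) * g₂) else 0) := by
      intro m₂ _
      have h3 := gcd_le (m₂ : ℤ) hρ
      rw [Int.gcd_natCast_natCast] at h3
      have h4 := gcd_le ((m₁ : ℤ) - m₂) hρ
      have h5 : (Nat.gcd m₂ ρ : ℝ) * (Int.gcd ((m₁ : ℤ) - m₂) ρ : ℝ) ≤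
          (∑ g ∈ ρ.divisors, (if (g : ℤ) ∣ (m₂ : ℤ) then (g : ℝ) else 0)) *
          ∑ g ∈ ρ.divisors, (if (g : ℤ) ∣ (m₁ : ℤ) - m₂ then (g : ℝ) else 0) :=
        mul_le_mul h3 h4 (Nat.cast_nonneg _) (Finset.sum_nonneg fun g _ => by positivity)
      have h6 := mul_le_mul_of_nonneg_left h5 (pow_nonneg (tauR_nonneg m₁) 4)
      refine h6.trans (le_of_eq ?_)
      rw [Finset.sum_mul_sum, Finset.mul_sum]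
      refine Finset.sum_congr rfl fun g₁ _ => ?_
      rw [Finset.mul_sum]
      refine Finset.sum_congr rfl fun g₂ _ => ?_
      by_cases e1 : g₁ ∣ m₂
      · have e1' : (g₁ : ℤ) ∣ (m₂ : ℤ) := by exact_mod_cast e1
        by_cases e2 : (g₂ : ℤ) ∣ (m₁ : ℤ) - m₂
        · rw [if_pos e1', if_pos e2, if_pos ⟨e1, e2⟩]
        · have e3 : ¬ (g₁ ∣ m₂ ∧ (g₂ : ℤ) ∣ (m₁ : ℤ) - m₂) := fun h => e2 h.2
          rw [if_neg e2, if_neg e3]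
          simp
      · have e1' : ¬ (g₁ : ℤ) ∣ (m₂ : ℤ) := by exact_mod_cast e1
        have e3 : ¬ (g₁ ∣ m₂ ∧ (g₂ : ℤ) ∣ (m₁ : ℤ) - m₂) := fun h => e1 h.1
        rw [if_neg e1', if_neg e3]
        simp
    refine (Finset.sum_le_sum h2).trans (le_of_eq ?_)
    rw [Finset.sum_comm]
    refine Finset.sum_congr rfl fun g₁ _ => ?_
    rw [Finset.sum_comm]
    refine Finset.sum_congr rfl fun g₂ _ => ?_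
    rw [← Finset.sum_filter, Finset.sum_const, nsmul_eq_mul]
    ring
  refine (Finset.sum_le_sum h1).trans ?_
  rw [Finset.sum_comm]
  have h2 : ∀ g₁ ∈ ρ.divisors, ∑ m₁ ∈ Icc 1 M, ∑ g₂ ∈ ρ.divisors,
      tauR m₁ ^ 4 * ((g₁ : ℝ) * g₂ *
      (((Icc 1 M).filter (fun m₂ : ℕ => g₁ ∣ m₂ ∧ (g₂ : ℤ) ∣ (m₁ : ℤ) - m₂)).card : ℝ)) ≤
      tauR ρ * (tauR ρ ^ 4 * L * ((M : ℝ) ^ 2 + (ρ : ℝ) ^ 2 * M)) := by
    intro g₁ hg₁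
    rw [Finset.sum_comm]
    have h3 : ∀ g₂ ∈ ρ.divisors, ∑ m₁ ∈ Icc 1 M,
      tauR m₁ ^ 4 * ((g₁ : ℝ) * g₂ *
      (((Icc 1 M).filter (fun m₂ : ℕ => g₁ ∣ m₂ ∧ (g₂ : ℤ) ∣ (m₁ : ℤ) - m₂)).card : ℝ)) ≤
      tauR ρ ^ 4 * L * ((M : ℝ) ^ 2 + (ρ : ℝ) ^ 2 * M) := fun g₂ hg₂ =>
      sum_pair hρ hL (Nat.dvd_of_mem_divisors hg₁) (Nat.dvd_of_mem_divisors hg₂) H
    refine (Finset.sum_le_sum h3).trans ?_
    rw [Finset.sum_const, nsmul_eq_mul]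
    exact le_of_eq rfl
  refine (Finset.sum_le_sum h2).trans ?_
  rw [Finset.sum_const, nsmul_eq_mul]
  refine le_of_eq ?_
  have : (ρ.divisors.card : ℝ) = tauR ρ := rfl
  rw [this]
  ring

end GcdPAux

open GcdPAux

theorem gcd_pair : ∃ E : ℕ, ∀ (ρ M : ℕ), 1 ≤ ρ → 1 ≤ M →
    ∑ m₁ ∈ Icc 1 M, ∑ m₂ ∈ Icc 1 M, tauR m₁ ^ 2 * tauR m₂ ^ 2 * (Nat.gcd m₂ ρ : ℝ) *
      (Int.gcd ((m₁ : ℤ) - m₂) ρ : ℝ) * (if m₁ = m₂ then 0 else 1) ≤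
      4 * tauR ρ ^ 6 * (1 + Real.log M) ^ E * ((M : ℝ) ^ 2 + (ρ : ℝ) ^ 2 * M) := by
  obtain ⟨E, HE⟩ := tau4_sum
  refine ⟨E, fun ρ M hρ hM => ?_⟩
  have hlog : 0 ≤ Real.log M := Real.log_nonneg (by exact_mod_cast hM)
  set L : ℝ := (1 + Real.log M) ^ E with hLdef
  have hL : 0 ≤ L := by positivity
  have H : ∀ g : ℕ, 1 ≤ g → ∑ m ∈ (Icc 1 M).filter (fun m => g ∣ m), tauR m ^ 4 ≤
      tauR g ^ 4 * (M / g : ℝ) * L := fun g hg => HE g M hg hM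
  have hρ1 : (1 : ℝ) ≤ ρ := by exact_mod_cast hρ
  have hτ : 0 ≤ tauR ρ := tauR_nonneg ρ
  have hB : 0 ≤ (M : ℝ) ^ 2 + (ρ : ℝ) ^ 2 * M := by positivity
  have s1 := sum_one (M := M) hρ hL H
  have s2 : ∑ m₁ ∈ Icc 1 M, ∑ m₂ ∈ Icc 1 M, tauR m₂ ^ 4 * ((Nat.gcd m₂ ρ : ℝ) *
      (Int.gcd ((m₁ : ℤ) - m₂) ρ : ℝ)) ≤ tauR ρ ^ 6 * L * ((M : ℝ) ^ 2 + (ρ : ℝ) ^ 2 * M) := by
    rw [Finset.sum_comm]
    have h1 : ∀ m₂ ∈ Icc 1 M, ∑ m₁ ∈ Icc 1 M, tauR m₂ ^ 4 * ((Nat.gcd m₂ ρ : ℝ) *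
        (Int.gcd ((m₁ : ℤ) - m₂) ρ : ℝ)) ≤
        tauR m₂ ^ 4 * (Nat.gcd m₂ ρ : ℝ) * (tauR ρ * (M + ρ)) := by
      intro m₂ _
      have h2 := mul_le_mul_of_nonneg_left (sum_gcd_sub ρ M m₂ hρ)
        (mul_nonneg (pow_nonneg (tauR_nonneg m₂) 4) (Nat.cast_nonneg (α := ℝ) (Nat.gcd m₂ ρ)))
      refine le_trans (le_of_eq ?_) h2
      rw [Finset.mul_sum]
      refine Finset.sum_congr rfl fun m₁ _ => ?_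
      ring
    refine (Finset.sum_le_sum h1).trans ?_
    rw [← Finset.sum_mul]
    have h3 : 0 ≤ tauR ρ * ((M : ℝ) + ρ) := by positivity
    refine (mul_le_mul_of_nonneg_right (sum_tau_gcd (M := M) hρ hL H) h3).trans ?_
    have h4 : tauR ρ ^ 5 * M * L * (tauR ρ * ((M : ℝ) + ρ)) =
        tauR ρ ^ 6 * L * ((M : ℝ) ^ 2 + ρ * M) := by ring
    rw [h4]
    have h5 : (ρ : ℝ) ≤ (ρ : ℝ) ^ 2 := by nlinarith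
    gcongr
  have h1 : ∑ m₁ ∈ Icc 1 M, ∑ m₂ ∈ Icc 1 M, tauR m₁ ^ 2 * tauR m₂ ^ 2 * (Nat.gcd m₂ ρ : ℝ) *
      (Int.gcd ((m₁ : ℤ) - m₂) ρ : ℝ) * (if m₁ = m₂ then 0 else 1) ≤
      ∑ m₁ ∈ Icc 1 M, ∑ m₂ ∈ Icc 1 M, (tauR m₁ ^ 4 * ((Nat.gcd m₂ ρ : ℝ) *
      (Int.gcd ((m₁ : ℤ) - m₂) ρ : ℝ)) + tauR m₂ ^ 4 * ((Nat.gcd m₂ ρ : ℝ) *
      (Int.gcd ((m₁ : ℤ) - m₂) ρ : ℝ))) := by
    refine Finset.sum_le_sum fun m₁ _ => Finset.sum_le_sum fun m₂ _ => ?_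
    have h2 : 0 ≤ (Nat.gcd m₂ ρ : ℝ) * (Int.gcd ((m₁ : ℤ) - m₂) ρ : ℝ) := by positivity
    have h3 : tauR m₁ ^ 2 * tauR m₂ ^ 2 ≤ tauR m₁ ^ 4 + tauR m₂ ^ 4 := by
      nlinarith [sq_nonneg (tauR m₁ ^ 2 - tauR m₂ ^ 2), sq_nonneg (tauR m₁ ^ 2),
        sq_nonneg (tauR m₂ ^ 2)]
    have h4 := mul_le_mul_of_nonneg_right h3 h2
    have h5 : 0 ≤ tauR m₁ ^ 2 * tauR m₂ ^ 2 * ((Nat.gcd m₂ ρ : ℝ) *
      (Int.gcd ((m₁ : ℤ) - m₂) ρ : ℝ)) := by positivity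
    split_ifs
    · rw [mul_zero]
      linarith
    · rw [mul_one]
      linarith
  refine h1.trans ?_
  simp only [Finset.sum_add_distrib]
  have h6 : 0 ≤ tauR ρ ^ 6 * L * ((M : ℝ) ^ 2 + (ρ : ℝ) ^ 2 * M) := by positivity
  have h7 : 4 * tauR ρ ^ 6 * L * ((M : ℝ) ^ 2 + (ρ : ℝ) ^ 2 * M) =
      4 * (tauR ρ ^ 6 * L * ((M : ℝ) ^ 2 + (ρ : ℝ) ^ 2 * M)) := by ring
  rw [h7]
  linarith

end Pool.Agent.MVD
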