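import Pool.Agent.MVD.Defs
import Pool.Agent.SInt.TauP

/-!
# Module GcdQ: divisor sums
-/

open Finset Complex

namespace Pool.Agent.MVD

open Pool.Agent.ANT Pool.Agent.SInt

namespace GcdQAux

lemma sum_mult {g : ℕ} (hg : 1 ≤ g) (M : ℕ) (f : ℕ → ℝ) :
    ∑ m ∈ (Icc 1 M).filter (fun m => g ∣ m), f m = ∑ j ∈ Icc 1 (M / g), f (g * j) := by
  refine (Finset.sum_bij (fun j _ => g * j) ?_ ?_ ?_ ?_).symm
  · intro j hj
    have h1 := Finset.mem_Icc.mp hj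
    refine Finset.mem_filter.mpr ⟨Finset.mem_Icc.mpr ⟨Nat.mul_pos hg h1.1, ?_⟩, Dvd.intro _ rfl⟩
    calc g * j ≤ g * (M / g) := Nat.mul_le_mul_left g h1.2
      _ ≤ M := Nat.mul_div_le M g
  · intro a _ b _ h
    exact Nat.eq_of_mul_eq_mul_left hg h
  · intro m hm
    obtain ⟨h1, h2⟩ := Finset.mem_filter.mp hm
    have h3 := Finset.mem_Icc.mp h1
    obtain ⟨j, rfl⟩ := h2
    refine ⟨j, Finset.mem_Icc.mpr ⟨?_, ?_⟩, rfl⟩
    · rcases Nat.eq_zero_or_pos j with h | h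
      · rw [h] at h3
        simp at h3
      · exact h
    · exact (Nat.le_div_iff_mul_le hg).mpr (by rw [mul_comm]; exact h3.2)
  · intro _ _
    rfl

lemma Hs_div_le (M g : ℕ) : Hs (M / g) ≤ 1 + Real.log M :=
  (Hs_mono (Nat.div_le_self M g)).trans (Hs_le M)

lemma tau_mono {g ρ : ℕ} (hρ : 1 ≤ ρ) (h : g ∣ ρ) : tauR g ≤ tauR ρ := by
  unfold tauR
  exact_mod_cast Finset.card_le_card (Nat.divisors_subset_of_dvd (by omega) h)

lemma gcd_le_sum (q ρ : ℕ) (hρ : 1 ≤ ρ) :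
    (Nat.gcd q ρ : ℝ) ≤ ∑ g ∈ ρ.divisors, if g ∣ q then (g : ℝ) else 0 := by
  have hmem : Nat.gcd q ρ ∈ ρ.divisors := Nat.mem_divisors.mpr ⟨Nat.gcd_dvd_right q ρ, by omega⟩
  have h1 := Finset.single_le_sum (f := fun g : ℕ => if g ∣ q then (g : ℝ) else 0)
    (fun g _ => by
      split_ifs <;> positivity) hmem
  simp only [Nat.gcd_dvd_left, if_true] at h1
  exact h1

end GcdQAux

open GcdQAux in
theorem tau_gcd_q : ∃ E : ℕ, ∀ (ρ Q : ℕ), 1 ≤ ρ → 1 ≤ Q →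
    ∑ q ∈ Icc 1 Q, tauR q ^ 2 * (Nat.gcd q ρ : ℝ) / q ≤ tauR ρ ^ 3 * (1 + Real.log Q) ^ E := by
  refine ⟨4, fun ρ Q hρ hQ => ?_⟩
  have hL : 0 ≤ 1 + Real.log (Q : ℝ) := by
    have := Real.log_natCast_nonneg Q
    linarith
  calc ∑ q ∈ Icc 1 Q, tauR q ^ 2 * (Nat.gcd q ρ : ℝ) / q
      ≤ ∑ q ∈ Icc 1 Q, ∑ g ∈ ρ.divisors, (if g ∣ q then (g : ℝ) * (tauR q ^ 2 / q) else 0) := by
        refine Finset.sum_le_sum fun q _ => ?_
        calc tauR q ^ 2 * (Nat.gcd q ρ : ℝ) / q = (tauR q ^ 2 / q) * (Nat.gcd q ρ : ℝ) := by ring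
          _ ≤ (tauR q ^ 2 / q) * ∑ g ∈ ρ.divisors, (if g ∣ q then (g : ℝ) else 0) :=
              mul_le_mul_of_nonneg_left (gcd_le_sum q ρ hρ)
                (div_nonneg (pow_nonneg (tauR_nonneg _) _) (Nat.cast_nonneg _))
          _ = _ := by
              rw [Finset.mul_sum]
              refine Finset.sum_congr rfl fun g _ => ?_
              split_ifs <;> ring
    _ = ∑ g ∈ ρ.divisors, ∑ q ∈ Icc 1 Q, (if g ∣ q then (g : ℝ) * (tauR q ^ 2 / q) else 0) := Finset.sum_comm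
    _ ≤ ∑ g ∈ ρ.divisors, tauR ρ ^ 2 * (1 + Real.log Q) ^ 4 := by
        refine Finset.sum_le_sum fun g hg => ?_
        have hgρ : g ∣ ρ := Nat.dvd_of_mem_divisors hg
        have hg1 : 1 ≤ g := Nat.pos_of_mem_divisors hg
        have hg0 : (0 : ℝ) < g := by exact_mod_cast hg1
        rw [← Finset.sum_filter, sum_mult hg1 Q (fun q => (g : ℝ) * (tauR q ^ 2 / q))]
        calc ∑ j ∈ Icc 1 (Q / g), (g : ℝ) * (tauR (g * j) ^ 2 / ((g * j : ℕ) : ℝ))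
            ≤ ∑ j ∈ Icc 1 (Q / g), tauR g ^ 2 * (tauR j ^ 2 / j) := by
              refine Finset.sum_le_sum fun j hj => ?_
              have hj0 : (0 : ℝ) < j := by exact_mod_cast (Finset.mem_Icc.mp hj).1
              have h1 : tauR (g * j) ^ 2 ≤ tauR g ^ 2 * tauR j ^ 2 := by
                rw [← mul_pow]
                exact pow_le_pow_left₀ (tauR_nonneg _) (tauR_mul_le g j) 2
              push_cast
              have h2 : (g : ℝ) * (tauR (g * j) ^ 2 / (g * j)) = tauR (g * j) ^ 2 / j := by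
                field_simp
              rw [h2, ← mul_div_assoc]
              exact div_le_div_of_nonneg_right h1 hj0.le
          _ = tauR g ^ 2 * ∑ j ∈ Icc 1 (Q / g), tauR j ^ 2 / j := by rw [Finset.mul_sum]
          _ ≤ tauR ρ ^ 2 * (1 + Real.log Q) ^ 4 := by
              refine mul_le_mul (pow_le_pow_left₀ (tauR_nonneg _) (tau_mono hρ hgρ) 2) ?_ ?_
                (pow_nonneg (tauR_nonneg _) _)
              · refine (sum_tau_pow_div_le 2 (Q / g)).trans ?_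
                exact pow_le_pow_left₀ (Hs_nonneg _) (Hs_div_le Q g) 4
              · exact Finset.sum_nonneg fun j _ => div_nonneg (pow_nonneg (tauR_nonneg _) _) (Nat.cast_nonneg _)
    _ = tauR ρ ^ 3 * (1 + Real.log Q) ^ 4 := by
        rw [Finset.sum_const, nsmul_eq_mul]
        unfold tauR
        ring

open GcdQAux in
theorem tau4_sum : ∃ E : ℕ, ∀ (g M : ℕ), 1 ≤ g → 1 ≤ M →
    ∑ m ∈ (Icc 1 M).filter (fun m => g ∣ m), tauR m ^ 4 ≤ tauR g ^ 4 * (M / g : ℝ) * (1 + Real.log M) ^ E := by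
  refine ⟨16, fun g M hg hM => ?_⟩
  have hg0 : (0 : ℝ) < g := by exact_mod_cast hg
  rw [sum_mult hg M (fun m => tauR m ^ 4)]
  have hdiv : ((M / g : ℕ) : ℝ) ≤ (M / g : ℝ) := Nat.cast_div_le
  calc ∑ j ∈ Icc 1 (M / g), tauR (g * j) ^ 4
      ≤ ∑ j ∈ Icc 1 (M / g), tauR g ^ 4 * (M / g : ℝ) * (tauR j ^ 4 / j) := by
        refine Finset.sum_le_sum fun j hj => ?_
        have hj1 := Finset.mem_Icc.mp hj
        have hj0 : (0 : ℝ) < j := by exact_mod_cast hj1.1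
        have h1 : tauR (g * j) ^ 4 ≤ tauR g ^ 4 * tauR j ^ 4 := by
          rw [← mul_pow]
          exact pow_le_pow_left₀ (tauR_nonneg _) (tauR_mul_le g j) 4
        have h2 : (j : ℝ) ≤ (M / g : ℝ) := le_trans (by exact_mod_cast hj1.2) hdiv
        have h3 : tauR g ^ 4 * (M / g : ℝ) * (tauR j ^ 4 / j) = tauR g ^ 4 * tauR j ^ 4 * ((M / g : ℝ) / j) := by
          ring
        rw [h3]
        refine h1.trans (le_mul_of_one_le_right (mul_nonneg (pow_nonneg (tauR_nonneg _) _)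
          (pow_nonneg (tauR_nonneg _) _)) ?_)
        rw [le_div_iff₀ hj0, one_mul]
        exact h2
    _ = tauR g ^ 4 * (M / g : ℝ) * ∑ j ∈ Icc 1 (M / g), tauR j ^ 4 / j := by rw [Finset.mul_sum]
    _ ≤ tauR g ^ 4 * (M / g : ℝ) * (1 + Real.log M) ^ 16 := by
        refine mul_le_mul_of_nonneg_left ?_ (mul_nonneg (pow_nonneg (tauR_nonneg _) _) (by positivity))
        refine (sum_tau_pow_div_le 4 (M / g)).trans ?_
        exact pow_le_pow_left₀ (Hs_nonneg _) (Hs_div_le M g) 16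

/-- `τ(ρ)^k ≤ C ρ^{1/100}`. -/
theorem tau_small (k : ℕ) : ∃ C : ℝ, 0 < C ∧ ∀ ρ : ℕ, 1 ≤ ρ → tauR ρ ^ k ≤ C * (ρ : ℝ) ^ (1 / 100 : ℝ) := by
  have hk0 : (0 : ℝ) < 1 / (100 * (k + 1)) := by positivity
  obtain ⟨C, hC1, hC⟩ := tauR_le_rpow hk0
  refine ⟨C ^ k, by positivity, fun ρ hρ => ?_⟩
  have hρ1 : (1 : ℝ) ≤ ρ := by exact_mod_cast hρ
  have hρ0 : (0 : ℝ) < ρ := by linarith
  calc tauR ρ ^ k ≤ (C * (ρ : ℝ) ^ (1 / (100 * (k + 1)) : ℝ)) ^ k :=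
        pow_le_pow_left₀ (tauR_nonneg _) (hC ρ (by omega)) k
    _ = C ^ k * (ρ : ℝ) ^ ((1 / (100 * (k + 1)) : ℝ) * k) := by
        rw [mul_pow, Real.rpow_mul hρ0.le, Real.rpow_natCast]
    _ ≤ C ^ k * (ρ : ℝ) ^ (1 / 100 : ℝ) := by
        refine mul_le_mul_of_nonneg_left (Real.rpow_le_rpow_of_exponent_le hρ1 ?_) (by positivity)
        rw [div_mul_eq_mul_div, one_mul, div_le_div_iff₀ (by positivity) (by norm_num)]
        linarith

namespace GcdQAux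

lemma count_close (M m : ℕ) {δ : ℝ} (hδ : 0 ≤ δ) :
    (((Icc 1 M).filter (fun n : ℕ => |(m : ℝ) - n| ≤ δ)).card : ℝ) ≤ 2 * δ + 1 := by
  have hsub : (Icc 1 M).filter (fun n : ℕ => |(m : ℝ) - n| ≤ δ) ⊆ Icc (m - ⌊δ⌋₊) (m + ⌊δ⌋₊) := by
    intro n hn
    have h1 := (Finset.mem_filter.mp hn).2
    rw [abs_le] at h1
    rw [Finset.mem_Icc]
    constructor
    · have h2 : ((m - n : ℕ) : ℝ) ≤ δ := by
        rcases Nat.le_total m n with h3 | h3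
        · rw [Nat.sub_eq_zero_of_le h3]
          simpa using hδ
        · rw [Nat.cast_sub h3]
          exact h1.2
      have h4 := Nat.le_floor h2
      omega
    · have h2 : ((n - m : ℕ) : ℝ) ≤ δ := by
        rcases Nat.le_total n m with h3 | h3
        · rw [Nat.sub_eq_zero_of_le h3]
          simpa using hδ
        · rw [Nat.cast_sub h3]
          linarith [h1.1]
      have h4 := Nat.le_floor h2
      omega
  have h5 := Finset.card_le_card hsub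
  rw [Nat.card_Icc] at h5
  have h6 : ((Icc 1 M).filter (fun n : ℕ => |(m : ℝ) - n| ≤ δ)).card ≤ 2 * ⌊δ⌋₊ + 1 := by omega
  have h7 : (⌊δ⌋₊ : ℝ) ≤ δ := Nat.floor_le hδ
  calc (((Icc 1 M).filter (fun n : ℕ => |(m : ℝ) - n| ≤ δ)).card : ℝ) ≤ ((2 * ⌊δ⌋₊ + 1 : ℕ) : ℝ) := by
        exact_mod_cast h6
    _ = 2 * (⌊δ⌋₊ : ℝ) + 1 := by push_cast; ring
    _ ≤ 2 * δ + 1 := by linarith

end GcdQAux

open GcdQAux in
/-- Pairs of close integers. -/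
theorem close_pairs : ∃ E : ℕ, ∀ (M : ℕ) (δ : ℝ), 1 ≤ M → 0 ≤ δ →
    ∑ m₁ ∈ Icc 1 M, ∑ m₂ ∈ Icc 1 M, (if |(m₁ : ℝ) - m₂| ≤ δ then tauR m₁ ^ 2 * tauR m₂ ^ 2 else 0) ≤
      (1 + Real.log M) ^ E * ((2 * δ + 1) * M) := by
  obtain ⟨E, hE⟩ := tau4_sum
  refine ⟨E, fun M δ hM hδ => ?_⟩
  have hS : ∑ m ∈ Icc 1 M, tauR m ^ 4 ≤ (M : ℝ) * (1 + Real.log M) ^ E := by
    have h1 := hE 1 M le_rfl hM
    have h2 : (Icc 1 M).filter (fun m => 1 ∣ m) = Icc 1 M := by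
      refine Finset.filter_true_of_mem fun m _ => one_dvd m
    rw [h2] at h1
    have h3 : tauR 1 = 1 := by
      unfold tauR
      simp
    rw [h3] at h1
    simpa using h1
  have hone : ∑ m₁ ∈ Icc 1 M, ∑ m₂ ∈ Icc 1 M, (if |(m₁ : ℝ) - m₂| ≤ δ then tauR m₁ ^ 4 else 0) ≤
      (2 * δ + 1) * ((M : ℝ) * (1 + Real.log M) ^ E) := by
    calc ∑ m₁ ∈ Icc 1 M, ∑ m₂ ∈ Icc 1 M, (if |(m₁ : ℝ) - m₂| ≤ δ then tauR m₁ ^ 4 else 0)
        ≤ ∑ m₁ ∈ Icc 1 M, (2 * δ + 1) * tauR m₁ ^ 4 := by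
          refine Finset.sum_le_sum fun m₁ _ => ?_
          rw [← Finset.sum_filter, Finset.sum_const, nsmul_eq_mul]
          exact mul_le_mul_of_nonneg_right (count_close M m₁ hδ) (pow_nonneg (tauR_nonneg _) _)
      _ = (2 * δ + 1) * ∑ m₁ ∈ Icc 1 M, tauR m₁ ^ 4 := by rw [Finset.mul_sum]
      _ ≤ _ := mul_le_mul_of_nonneg_left hS (by linarith)
  have htwo : ∑ m₁ ∈ Icc 1 M, ∑ m₂ ∈ Icc 1 M, (if |(m₁ : ℝ) - m₂| ≤ δ then tauR m₂ ^ 4 else 0) ≤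
      (2 * δ + 1) * ((M : ℝ) * (1 + Real.log M) ^ E) := by
    rw [Finset.sum_comm]
    refine le_trans (le_of_eq ?_) hone
    refine Finset.sum_congr rfl fun m₁ _ => Finset.sum_congr rfl fun m₂ _ => ?_
    rw [abs_sub_comm]
  have hle : ∑ m₁ ∈ Icc 1 M, ∑ m₂ ∈ Icc 1 M, (if |(m₁ : ℝ) - m₂| ≤ δ then tauR m₁ ^ 2 * tauR m₂ ^ 2 else 0) ≤
      (∑ m₁ ∈ Icc 1 M, ∑ m₂ ∈ Icc 1 M, (if |(m₁ : ℝ) - m₂| ≤ δ then tauR m₁ ^ 4 else 0) +
        ∑ m₁ ∈ Icc 1 M, ∑ m₂ ∈ Icc 1 M, (if |(m₁ : ℝ) - m₂| ≤ δ then tauR m₂ ^ 4 else 0)) / 2 := by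
    rw [← Finset.sum_add_distrib, Finset.sum_div]
    refine Finset.sum_le_sum fun m₁ _ => ?_
    rw [← Finset.sum_add_distrib, Finset.sum_div]
    refine Finset.sum_le_sum fun m₂ _ => ?_
    split_ifs
    · nlinarith [sq_nonneg (tauR m₁ ^ 2 - tauR m₂ ^ 2)]
    · simp
  refine hle.trans ?_
  have : (1 + Real.log M) ^ E * ((2 * δ + 1) * M) =
      ((2 * δ + 1) * ((M : ℝ) * (1 + Real.log M) ^ E) + (2 * δ + 1) * ((M : ℝ) * (1 + Real.log M) ^ E)) / 2 := by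
    ring
  rw [this]
  linarith

end Pool.Agent.MVD
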