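import Pool.Agent.MVD.LSInt
import Pool.Agent.MVD.Gall

/-!
# Module HLSa: hybrid large sieve

gallagher for the sequence `twc a χ` and ls_interval: for fixed `u` the `n ≤ N` with `|log n - u| ≤ 1/(2T)` lie in `[e^{u-1/(2T)}, e^{u+1/(2T)}]`, an interval `(M, M+L]` of naturals with `L ≤ 2 e^u/T + 1`; put the
coefficients outside the set equal to zero. So `∑_{r ≤ R} ∑*_χ |..|² ≤ 12 (4 e^u/T + 2 + R²) ∑_{n in the set} |a(n)/n|²` and `e^u ≤ 2n` for these `n`. Integrate over `u` (each `n` occurs for a set of `u` of length `1/T`):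
total `C T² · (1/T) · 12 ∑_n (8n/T + 2 + R²) |a(n)/n|² ≤ C' (N + R² T) ∑ |a(n)|²/n²` (`R, T ≥ 1`). Integrability: finite sums of indicator functions of intervals.
-/

open Finset Complex MeasureTheory

namespace Pool.Agent.MVD

open Pool.Agent.ANT Pool.Agent.SInt

private theorem HLSa_ind {δ : ℝ} (N : ℕ) (c : ℕ → ℂ) (u : ℝ) :
    ∑ n ∈ (Icc 1 N).filter (fun n : ℕ => |Real.log n - u| ≤ δ), c n =
      ∑ n ∈ Icc 1 N, (Set.Icc (Real.log n - δ) (Real.log n + δ)).indicator (fun _ => c n) u := by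
  rw [sum_filter]
  refine sum_congr rfl fun n _ => ?_
  rw [Set.indicator_apply]
  have h : |Real.log n - u| ≤ δ ↔ u ∈ Set.Icc (Real.log n - δ) (Real.log n + δ) := by
    rw [abs_le, Set.mem_Icc]
    constructor
    · rintro ⟨h1, h2⟩
      constructor <;> linarith
    · rintro ⟨h1, h2⟩
      constructor <;> linarith
  by_cases h1 : |Real.log n - u| ≤ δ
  · rw [if_pos h1, if_pos (h.1 h1)]
  · rw [if_neg h1, if_neg (fun h2 => h1 (h.2 h2))]

private theorem HLSa_int {δ : ℝ} (N : ℕ) (c : ℕ → ℂ) :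
    Integrable (fun u : ℝ => ‖∑ n ∈ (Icc 1 N).filter (fun n : ℕ => |Real.log n - u| ≤ δ), c n‖ ^ 2) := by
  have h1 : MemLp (fun u : ℝ => ∑ n ∈ Icc 1 N,
      (Set.Icc (Real.log n - δ) (Real.log n + δ)).indicator (fun _ => c n) u) 2 := by
    apply memLp_finsetSum
    intro n _
    exact memLp_indicator_const 2 measurableSet_Icc _ (Or.inr (by simp))
  have h2 := h1.integrable_norm_pow (by norm_num)
  refine h2.congr ?_
  filter_upwards with u
  rw [HLSa_ind]

private theorem HLSa_indR {δ : ℝ} (n : ℕ) (K : ℝ) :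
    (fun u : ℝ => if |Real.log n - u| ≤ δ then K else 0) =
      (Set.Icc (Real.log n - δ) (Real.log n + δ)).indicator (fun _ => K) := by
  ext u
  rw [Set.indicator_apply]
  have h : |Real.log n - u| ≤ δ ↔ u ∈ Set.Icc (Real.log n - δ) (Real.log n + δ) := by
    rw [abs_le, Set.mem_Icc]
    constructor
    · rintro ⟨h1, h2⟩
      constructor <;> linarith
    · rintro ⟨h1, h2⟩
      constructor <;> linarith
  by_cases h1 : |Real.log n - u| ≤ δ
  · rw [if_pos h1, if_pos (h.1 h1)]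
  · rw [if_neg h1, if_neg (fun h2 => h1 (h.2 h2))]

private theorem HLSa_integral {δ : ℝ} (hδ : 0 ≤ δ) (n : ℕ) (K : ℝ) :
    Integrable (fun u : ℝ => if |Real.log n - u| ≤ δ then K else 0) ∧
      ∫ u : ℝ, (if |Real.log n - u| ≤ δ then K else 0) = 2 * δ * K := by
  rw [HLSa_indR]
  constructor
  · rw [integrable_indicator_iff measurableSet_Icc]
    exact integrableOn_const (by simp)
  · rw [integral_indicator measurableSet_Icc, setIntegral_const, smul_eq_mul]
    congr 1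
    rw [Measure.real, Real.volume_Icc, ENNReal.toReal_ofReal (by linarith)]
    ring

/-- the bound for fixed `u` -/
private theorem HLSa_point (R N : ℕ) {T : ℝ} (hT : 1 ≤ T) (a : ℕ → ℂ) (u : ℝ) :
    ∑ r ∈ Icc 1 R, ∑ χ ∈ Prim r, ‖∑ n ∈ (Icc 1 N).filter
        (fun n : ℕ => |Real.log n - u| ≤ 1 / (2 * T)), twc a χ n / (n : ℂ)‖ ^ 2 ≤
      ∑ n ∈ Icc 1 N, if |Real.log n - u| ≤ 1 / (2 * T) then
        12 * (8 * n / T + 2 + (R : ℝ) ^ 2) * (‖a n‖ ^ 2 / (n : ℝ) ^ 2) else 0 := by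
  have hT0 : 0 < T := by linarith
  set δ : ℝ := 1 / (2 * T) with hδ
  have hδ0 : 0 < δ := by positivity
  have hδ1 : δ ≤ 1 / 2 := by
    rw [hδ, div_le_div_iff₀ (by positivity) (by norm_num)]
    linarith
  set S := (Icc 1 N).filter (fun n : ℕ => |Real.log n - u| ≤ δ) with hS
  -- the interval
  have hx0 : 0 < Real.exp (u - δ) := Real.exp_pos _
  have hxy : Real.exp (u - δ) ≤ Real.exp (u + δ) := Real.exp_le_exp.2 (by linarith)
  set c : ℕ := ⌈Real.exp (u - δ)⌉₊ with hc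
  have hc1 : 1 ≤ c := Nat.one_le_iff_ne_zero.2 (by
    have := Nat.ceil_pos.2 hx0
    omega)
  set M : ℕ := c - 1 with hM
  have hMlt : (M : ℝ) < Real.exp (u - δ) := Nat.lt_ceil.1 (by omega)
  set d : ℕ := ⌊Real.exp (u + δ)⌋₊ with hd
  have hMd : M ≤ d := Nat.le_floor (hMlt.le.trans hxy)
  obtain ⟨L, hL⟩ : ∃ L, d = M + L := ⟨d - M, by omega⟩
  have hSub : ∀ n ∈ S, n ∈ Ioc M (M + L) ∧ Real.exp u ≤ 2 * n := by
    intro n hn
    rw [hS, mem_filter, mem_Icc] at hn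
    obtain ⟨⟨hn1, hn2⟩, hn3⟩ := hn
    have hn0 : (0 : ℝ) < n := by exact_mod_cast hn1
    rw [abs_le] at hn3
    have h1 : Real.exp (u - δ) ≤ n := by
      rw [← Real.le_log_iff_exp_le hn0]; linarith [hn3.1]
    have h2 : (n : ℝ) ≤ Real.exp (u + δ) := by
      rw [← Real.log_le_iff_le_exp hn0]; linarith [hn3.2]
    refine ⟨mem_Ioc.2 ⟨?_, ?_⟩, ?_⟩
    · have : c ≤ n := Nat.ceil_le.2 h1
      omega
    · rw [← hL]
      exact Nat.le_floor h2
    · have h3 : Real.exp u = Real.exp (u - δ) * Real.exp δ := by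
        rw [← Real.exp_add]; ring_nf
      have h4 : Real.exp δ ≤ 2 := by
        have h5 : Real.exp δ ≤ Real.exp (1 / 2) := Real.exp_le_exp.2 hδ1
        have h6 : Real.exp (1 / 2) ≤ 2 := by
          have h7 : Real.exp (1 / 2) * Real.exp (1 / 2) = Real.exp 1 := by
            rw [← Real.exp_add]; norm_num
          have h8 := Real.exp_one_lt_d9
          have h9 := Real.exp_pos (1 / 2)
          nlinarith
        linarith
      rw [h3]
      calc Real.exp (u - δ) * Real.exp δ ≤ n * 2 := mul_le_mul h1 h4 (Real.exp_pos _).le hn0.le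
        _ = 2 * n := by ring
  have hLle : (L : ℝ) ≤ 2 * Real.exp u / T + 1 := by
    have h1 : (L : ℝ) = d - M := by
      rw [hL]; push_cast; ring
    have h2 : (d : ℝ) ≤ Real.exp (u + δ) := Nat.floor_le (Real.exp_pos _).le
    have h3 : Real.exp (u - δ) ≤ (M : ℝ) + 1 := by
      have : Real.exp (u - δ) ≤ c := Nat.le_ceil _
      have h4 : (c : ℝ) = M + 1 := by
        have : c = M + 1 := by omega
        rw [this]; push_cast; ring
      linarith
    have h5 : Real.exp (u + δ) - Real.exp (u - δ) ≤ 2 * Real.exp u / T := by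
      have h6 : Real.exp (u + δ) = Real.exp u * Real.exp δ := Real.exp_add _ _
      have h7 : Real.exp (u - δ) = Real.exp u * Real.exp (-δ) := by
        rw [← Real.exp_add]; ring_nf
      have h8 : 1 - δ ≤ Real.exp (-δ) := by
        have := Real.add_one_le_exp (-δ)
        linarith
      have h9 : Real.exp δ * (1 - δ) ≤ 1 := by
        calc Real.exp δ * (1 - δ) ≤ Real.exp δ * Real.exp (-δ) :=
              mul_le_mul_of_nonneg_left h8 (Real.exp_pos _).le
          _ = 1 := by rw [← Real.exp_add]; simp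
      have h10 : Real.exp δ ≤ 1 + 2 * δ := by
        have h11 : 0 < Real.exp δ := Real.exp_pos _
        have h12 : 1 ≤ (1 + 2 * δ) * (1 - δ) := by nlinarith
        have h13 : 0 < 1 - δ := by linarith
        exact le_of_mul_le_mul_right (h9.trans h12) h13
      have h14 : 2 * Real.exp u / T = Real.exp u * (4 * δ) := by
        rw [hδ]; field_simp; ring
      rw [h6, h7, h14, ← mul_sub]
      apply mul_le_mul_of_nonneg_left _ (Real.exp_pos _).le
      linarith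
    linarith
  -- the large sieve
  set b : ℕ → ℂ := fun n => if n ∈ S then a n / n else 0 with hb
  have hSS : S ⊆ Ioc M (M + L) := fun n hn => (hSub n hn).1
  have e1 : ∀ r ∈ Icc 1 R, ∀ χ ∈ Prim r, ‖∑ n ∈ S, twc a χ n / (n : ℂ)‖ ^ 2 =
      ‖∑ n ∈ Ioc M (M + L), b n * χ (n : ZMod r)‖ ^ 2 := by
    intro r _ χ _
    congr 2
    rw [← sum_subset hSS]
    · refine sum_congr rfl fun n hn => ?_
      simp only [hb, twc]
      rw [if_pos hn]
      ring
    · intro n _ hn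
      simp only [hb]
      rw [if_neg hn, zero_mul]
  rw [sum_congr rfl fun r hr => sum_congr rfl fun χ hχ => e1 r hr χ hχ]
  refine (ls_interval R M L b).trans ?_
  have e2 : ∑ n ∈ Ioc M (M + L), ‖b n‖ ^ 2 = ∑ n ∈ S, ‖a n‖ ^ 2 / (n : ℝ) ^ 2 := by
    rw [← sum_subset hSS]
    · refine sum_congr rfl fun n hn => ?_
      simp only [hb]
      rw [if_pos hn, norm_div, div_pow, Complex.norm_natCast]
    · intro n _ hn
      simp only [hb]
      rw [if_neg hn]
      simp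
  rw [e2, mul_sum, hS, sum_filter]
  refine sum_le_sum fun n hn => ?_
  by_cases hn3 : |Real.log n - u| ≤ δ
  · rw [if_pos hn3, if_pos hn3]
    have hnS : n ∈ S := by rw [hS, mem_filter]; exact ⟨hn, hn3⟩
    have h1 := (hSub n hnS).2
    apply mul_le_mul_of_nonneg_right _ (by positivity)
    have h2 : 2 * Real.exp u / T ≤ 4 * n / T :=
      div_le_div_of_nonneg_right (by linarith) hT0.le
    have h3 : 8 * (n : ℝ) / T = 2 * (4 * n / T) := by ring
    rw [h3]
    nlinarith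
  · rw [if_neg hn3, if_neg hn3]

theorem hls : ∃ C : ℝ, 0 < C ∧ ∀ (R N : ℕ) (T : ℝ) (a : ℕ → ℂ), 1 ≤ R → 1 ≤ T →
    ∑ r ∈ Icc 1 R, ∑ χ ∈ Prim r, ∫ t in Set.Icc (-T) T, ‖Fh (twc a χ) N t‖ ^ 2 ≤
      C * (N + (R : ℝ) ^ 2 * T) * ∑ n ∈ Icc 1 N, ‖a n‖ ^ 2 / (n : ℝ) ^ 2 := by
  obtain ⟨C, hC, hG⟩ := gallagher
  refine ⟨96 * C, by positivity, fun R N T a hR hT => ?_⟩
  have hT0 : 0 < T := by linarith
  have hδ0 : 0 ≤ 1 / (2 * T) := by positivity
  have hR1 : (1 : ℝ) ≤ R := by exact_mod_cast hR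
  have hR2 : (1 : ℝ) ≤ (R : ℝ) ^ 2 := one_le_pow₀ hR1
  calc ∑ r ∈ Icc 1 R, ∑ χ ∈ Prim r, ∫ t in Set.Icc (-T) T, ‖Fh (twc a χ) N t‖ ^ 2
      ≤ ∑ r ∈ Icc 1 R, ∑ χ ∈ Prim r, C * T ^ 2 * ∫ u : ℝ, ‖∑ n ∈ (Icc 1 N).filter
          (fun n : ℕ => |Real.log n - u| ≤ 1 / (2 * T)), twc a χ n / (n : ℂ)‖ ^ 2 :=
        sum_le_sum fun r _ => sum_le_sum fun χ _ => hG (twc a χ) N T hT
    _ = C * T ^ 2 * ∫ u : ℝ, ∑ r ∈ Icc 1 R, ∑ χ ∈ Prim r, ‖∑ n ∈ (Icc 1 N).filter
          (fun n : ℕ => |Real.log n - u| ≤ 1 / (2 * T)), twc a χ n / (n : ℂ)‖ ^ 2 := by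
        rw [integral_finsetSum _ (fun r _ => integrable_finsetSum _ fun χ _ => HLSa_int N _),
          mul_sum]
        refine sum_congr rfl fun r _ => ?_
        rw [integral_finsetSum _ (fun χ _ => HLSa_int N _), mul_sum]
    _ ≤ C * T ^ 2 * ∫ u : ℝ, ∑ n ∈ Icc 1 N, (if |Real.log n - u| ≤ 1 / (2 * T) then
        12 * (8 * n / T + 2 + (R : ℝ) ^ 2) * (‖a n‖ ^ 2 / (n : ℝ) ^ 2) else 0) := by
        apply mul_le_mul_of_nonneg_left _ (by positivity)
        apply integral_mono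
        · exact integrable_finsetSum _ fun r _ => integrable_finsetSum _ fun χ _ => HLSa_int N _
        · exact integrable_finsetSum _ fun n _ => (HLSa_integral hδ0 n _).1
        · intro u
          exact HLSa_point R N hT a u
    _ = C * T ^ 2 * ∑ n ∈ Icc 1 N, 2 * (1 / (2 * T)) *
        (12 * (8 * n / T + 2 + (R : ℝ) ^ 2) * (‖a n‖ ^ 2 / (n : ℝ) ^ 2)) := by
        rw [integral_finsetSum _ (fun n _ => (HLSa_integral hδ0 n _).1)]
        congr 1
        exact sum_congr rfl fun n _ => (HLSa_integral hδ0 n _).2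
    _ = ∑ n ∈ Icc 1 N, (12 * C * (8 * n + (2 + (R : ℝ) ^ 2) * T)) * (‖a n‖ ^ 2 / (n : ℝ) ^ 2) := by
        rw [mul_sum]
        refine sum_congr rfl fun n _ => ?_
        field_simp
        ring
    _ ≤ ∑ n ∈ Icc 1 N, (96 * C * (N + (R : ℝ) ^ 2 * T)) * (‖a n‖ ^ 2 / (n : ℝ) ^ 2) := by
        refine sum_le_sum fun n hn => ?_
        apply mul_le_mul_of_nonneg_right _ (by positivity)
        have hn' : (n : ℝ) ≤ N := by exact_mod_cast (mem_Icc.1 hn).2
        have h1 : (2 + (R : ℝ) ^ 2) * T ≤ 8 * ((R : ℝ) ^ 2 * T) := by nlinarith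
        have h2 : 8 * (n : ℝ) + (2 + (R : ℝ) ^ 2) * T ≤ 8 * (N + (R : ℝ) ^ 2 * T) := by linarith
        calc 12 * C * (8 * n + (2 + (R : ℝ) ^ 2) * T) ≤ 12 * C * (8 * (N + (R : ℝ) ^ 2 * T)) := by
              gcongr
          _ = 96 * C * (N + (R : ℝ) ^ 2 * T) := by ring
    _ = 96 * C * (N + (R : ℝ) ^ 2 * T) * ∑ n ∈ Icc 1 N, ‖a n‖ ^ 2 / (n : ℝ) ^ 2 := by
        rw [mul_sum]

end Pool.Agent.MVD
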