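import Pool.Agent.MVD.HLSa

/-!
# Module HLSb: hybrid large sieve, suprema over `t`

For `g(t) = Fh (twc a χ) N t` (smooth in `t`) and any `|τ| ≤ T`: `|g(τ)|² ≤ ∫_{τ-1}^{τ+1} (|g|² + 2|g||g'|) dt` (or with other constants; `|g(τ)|² ≤ |g(s)|² + ∫ |(|g|²)'|`, average over `s ∈ [τ, τ+1]`),
`g'(t) = -i Fh (twc (a log) χ) N t`. `2|g||g'| ≤ |g|² log N + |g'|²/log N`. The interval `[τ-1,τ+1]` is contained in `[-(T+1), T+1]`, `T + 1 ≤ 2T`. Then hls for `a` and for `a log` (`log n ≤ log N`), `log N ≥ 1` for `N ≥ 3`.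
-/

open Finset Complex MeasureTheory

namespace Pool.Agent.MVD

open Pool.Agent.ANT Pool.Agent.SInt

private lemma HLSb_deriv (b : ℕ → ℂ) (N : ℕ) (t : ℝ) :
    HasDerivAt (fun t : ℝ => Fh b N t)
      (-I * Fh (fun n => b n * ((Real.log n : ℝ) : ℂ)) N t) t := by
  unfold Fh
  rw [mul_sum]
  refine HasDerivAt.fun_sum fun n _ => ?_
  have h1 : HasDerivAt (fun t : ℝ => -((1 + (t : ℂ) * I) * ((Real.log n : ℝ) : ℂ)))
      (-(1 * I * ((Real.log n : ℝ) : ℂ))) t :=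
    ((((hasDerivAt_id t).ofReal_comp.mul_const I).const_add 1).mul_const _).neg
  refine ((h1.cexp).const_mul (b n)).congr_deriv ?_
  ring

private lemma HLSb_cont (b : ℕ → ℂ) (N : ℕ) : Continuous (fun t : ℝ => Fh b N t) :=
  continuous_iff_continuousAt.2 fun t => (HLSb_deriv b N t).continuousAt

private lemma HLSb_sup (g g' : ℝ → ℂ) (hg : ∀ t, HasDerivAt g (g' t) t) (hg' : Continuous g')
    (τ : ℝ) :
    ‖g τ‖ ^ 2 ≤ ∫ t in τ..(τ + 1), (‖g t‖ ^ 2 + 2 * (‖g t‖ * ‖g' t‖)) := by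
  have hc : Continuous g := continuous_iff_continuousAt.2 fun t => (hg t).continuousAt
  have hder : ∀ t, HasDerivAt (fun t => ‖g t‖ ^ 2) (2 * inner ℝ (g t) (g' t)) t :=
    fun t => (hg t).norm_sq
  have hcd : Continuous (fun t => 2 * inner ℝ (g t) (g' t)) := by fun_prop
  have hcn : Continuous (fun t => 2 * (‖g t‖ * ‖g' t‖)) := by fun_prop
  have hcs : Continuous (fun t => ‖g t‖ ^ 2) := by fun_prop
  have h1 : ∀ s ∈ Set.Icc τ (τ + 1), ‖g τ‖ ^ 2 ≤ ‖g s‖ ^ 2 +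
      ∫ t in τ..(τ + 1), 2 * (‖g t‖ * ‖g' t‖) := by
    intro s hs
    have h2 : ∫ t in τ..s, 2 * inner ℝ (g t) (g' t) = ‖g s‖ ^ 2 - ‖g τ‖ ^ 2 :=
      intervalIntegral.integral_eq_sub_of_hasDerivAt (fun t _ => hder t)
        (hcd.intervalIntegrable _ _)
    have h3 : ∫ t in τ..s, -(2 * inner ℝ (g t) (g' t)) ≤ ∫ t in τ..s, 2 * (‖g t‖ * ‖g' t‖) := by
      refine intervalIntegral.integral_mono_on hs.1 (hcd.neg.intervalIntegrable _ _)
        (hcn.intervalIntegrable _ _) fun t _ => ?_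
      have h4 := abs_real_inner_le_norm (g t) (g' t)
      have h5 := neg_abs_le (inner ℝ (g t) (g' t))
      linarith
    have h6 : ∫ t in τ..s, 2 * (‖g t‖ * ‖g' t‖) ≤ ∫ t in τ..(τ + 1), 2 * (‖g t‖ * ‖g' t‖) := by
      refine intervalIntegral.integral_mono_interval le_rfl hs.1 hs.2 ?_
        (hcn.intervalIntegrable _ _)
      exact Filter.Eventually.of_forall fun t => by positivity
    rw [intervalIntegral.integral_neg] at h3
    linarith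
  have h7 : ∫ s in τ..(τ + 1), ‖g τ‖ ^ 2 ≤ ∫ s in τ..(τ + 1), (‖g s‖ ^ 2 +
      ∫ t in τ..(τ + 1), 2 * (‖g t‖ * ‖g' t‖)) := by
    refine intervalIntegral.integral_mono_on (by linarith)
      (continuous_const.intervalIntegrable _ _)
      ((hcs.add continuous_const).intervalIntegrable _ _) h1
  rw [intervalIntegral.integral_const, intervalIntegral.integral_add
    (hcs.intervalIntegrable _ _) (continuous_const.intervalIntegrable _ _),
    intervalIntegral.integral_const] at h7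
  rw [intervalIntegral.integral_add (hcs.intervalIntegrable _ _) (hcn.intervalIntegrable _ _)]
  simpa using h7

private lemma HLSb_one (b : ℕ → ℂ) (N : ℕ) {T L τ : ℝ} (hL : 1 ≤ L) (hτ : |τ| ≤ T) :
    ‖Fh b N τ‖ ^ 2 ≤ 2 * L * (∫ t in Set.Icc (-(T + 1)) (T + 1), ‖Fh b N t‖ ^ 2) +
      1 / L * ∫ t in Set.Icc (-(T + 1)) (T + 1),
        ‖Fh (fun n => b n * ((Real.log n : ℝ) : ℂ)) N t‖ ^ 2 := by
  set lb : ℕ → ℂ := fun n => b n * ((Real.log n : ℝ) : ℂ) with hlb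
  have hc1 : Continuous (fun t => Fh b N t) := HLSb_cont b N
  have hc2 : Continuous (fun t => Fh lb N t) := HLSb_cont lb N
  have hcc2 : Continuous (fun t => -I * Fh lb N t) := by fun_prop
  have h1 := HLSb_sup (fun t => Fh b N t) (fun t => -I * Fh lb N t) (fun t => HLSb_deriv b N t)
    hcc2 τ
  refine h1.trans ?_
  have hL0 : 0 < L := by linarith
  obtain ⟨ht1, ht2⟩ := abs_le.1 hτ
  have hF : Continuous (fun t => 2 * L * ‖Fh b N t‖ ^ 2 + 1 / L * ‖Fh lb N t‖ ^ 2) := by fun_prop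
  have hpt : ∀ t, ‖Fh b N t‖ ^ 2 + 2 * (‖Fh b N t‖ * ‖-I * Fh lb N t‖) ≤
      2 * L * ‖Fh b N t‖ ^ 2 + 1 / L * ‖Fh lb N t‖ ^ 2 := by
    intro t
    rw [norm_mul, norm_neg, Complex.norm_I, one_mul]
    have h2 : 0 ≤ L * (‖Fh b N t‖ - 1 / L * ‖Fh lb N t‖) ^ 2 := by positivity
    have h3 : L * (‖Fh b N t‖ - 1 / L * ‖Fh lb N t‖) ^ 2 =
        L * ‖Fh b N t‖ ^ 2 - 2 * (‖Fh b N t‖ * ‖Fh lb N t‖) + 1 / L * ‖Fh lb N t‖ ^ 2 := by
      field_simp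
      ring
    have h4 : ‖Fh b N t‖ ^ 2 ≤ L * ‖Fh b N t‖ ^ 2 := by
      have := sq_nonneg ‖Fh b N t‖
      nlinarith
    linarith
  have h2 : ∫ t in τ..(τ + 1), (‖Fh b N t‖ ^ 2 + 2 * (‖Fh b N t‖ * ‖-I * Fh lb N t‖)) ≤
      ∫ t in τ..(τ + 1), (2 * L * ‖Fh b N t‖ ^ 2 + 1 / L * ‖Fh lb N t‖ ^ 2) := by
    refine intervalIntegral.integral_mono_on (by linarith) ?_ (hF.intervalIntegrable _ _)
      fun t _ => hpt t
    exact Continuous.intervalIntegrable (by fun_prop) _ _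
  refine h2.trans ?_
  rw [intervalIntegral.integral_of_le (by linarith)]
  have hi1 : IntegrableOn (fun t => ‖Fh b N t‖ ^ 2) (Set.Icc (-(T + 1)) (T + 1)) :=
    (by fun_prop : Continuous (fun t => ‖Fh b N t‖ ^ 2)).continuousOn.integrableOn_Icc
  have hi2 : IntegrableOn (fun t => ‖Fh lb N t‖ ^ 2) (Set.Icc (-(T + 1)) (T + 1)) :=
    (by fun_prop : Continuous (fun t => ‖Fh lb N t‖ ^ 2)).continuousOn.integrableOn_Icc
  have h3 : ∫ t in Set.Ioc τ (τ + 1), (2 * L * ‖Fh b N t‖ ^ 2 + 1 / L * ‖Fh lb N t‖ ^ 2) ≤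
      ∫ t in Set.Icc (-(T + 1)) (T + 1), (2 * L * ‖Fh b N t‖ ^ 2 + 1 / L * ‖Fh lb N t‖ ^ 2) := by
    refine setIntegral_mono_set hF.continuousOn.integrableOn_Icc ?_ ?_
    · exact Filter.Eventually.of_forall fun t => by positivity
    · refine LE.le.eventuallyLE ?_
      intro t ht
      exact ⟨by linarith [ht.1], by linarith [ht.2]⟩
  refine h3.trans (le_of_eq ?_)
  rw [integral_add (hi1.const_mul _) (hi2.const_mul _), integral_const_mul, integral_const_mul]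

/-- Version with suprema over `|t| ≤ T`. -/
theorem hls_sup : ∃ C : ℝ, 0 < C ∧ ∀ (R N : ℕ) (T : ℝ) (a : ℕ → ℂ), 1 ≤ R → 1 ≤ T → 3 ≤ N →
    ∀ τ : (r : ℕ) → DirichletCharacter ℂ r → ℝ, (∀ r χ, |τ r χ| ≤ T) →
    ∑ r ∈ Icc 1 R, ∑ χ ∈ Prim r, ‖Fh (twc a χ) N (τ r χ)‖ ^ 2 ≤
      C * (N + (R : ℝ) ^ 2 * T) * Real.log N * ∑ n ∈ Icc 1 N, ‖a n‖ ^ 2 / (n : ℝ) ^ 2 := by
  obtain ⟨C, hC, hls⟩ := hls
  refine ⟨6 * C, by positivity, fun R N T a hR hT hN τ hτ => ?_⟩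
  have hL : 1 ≤ Real.log N := by
    have h1 : Real.exp 1 ≤ (N : ℝ) := by
      have h2 : (3 : ℝ) ≤ N := by exact_mod_cast hN
      linarith [Real.exp_one_lt_d9]
    rw [Real.le_log_iff_exp_le (by linarith [Real.exp_pos 1])]
    exact h1
  set L : ℝ := Real.log N with hLdef
  set la : ℕ → ℂ := fun n => a n * ((Real.log n : ℝ) : ℂ) with hla
  have htw : ∀ (r : ℕ) (χ : DirichletCharacter ℂ r),
      (fun n => twc a χ n * ((Real.log n : ℝ) : ℂ)) = twc la χ := by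
    intro r χ
    funext n
    simp only [twc, hla]
    ring
  have h1 : ∑ r ∈ Icc 1 R, ∑ χ ∈ Prim r, ‖Fh (twc a χ) N (τ r χ)‖ ^ 2 ≤
      ∑ r ∈ Icc 1 R, ∑ χ ∈ Prim r,
        (2 * L * (∫ t in Set.Icc (-(T + 1)) (T + 1), ‖Fh (twc a χ) N t‖ ^ 2) +
          1 / L * ∫ t in Set.Icc (-(T + 1)) (T + 1), ‖Fh (twc la χ) N t‖ ^ 2) := by
    refine sum_le_sum fun r _ => sum_le_sum fun χ _ => ?_
    have h2 := HLSb_one (twc a χ) N hL (hτ r χ)
    rwa [htw r χ] at h2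
  simp only [sum_add_distrib, ← mul_sum] at h1
  have h2 := hls R N (T + 1) a hR (by linarith)
  have h3 := hls R N (T + 1) la hR (by linarith)
  set S : ℝ := ∑ n ∈ Icc 1 N, ‖a n‖ ^ 2 / (n : ℝ) ^ 2 with hS
  have hS0 : 0 ≤ S := sum_nonneg fun n _ => by positivity
  have h4 : ∑ n ∈ Icc 1 N, ‖la n‖ ^ 2 / (n : ℝ) ^ 2 ≤ L ^ 2 * S := by
    rw [hS, mul_sum]
    refine sum_le_sum fun n hn => ?_
    rw [mem_Icc] at hn
    have hn1 : (1 : ℝ) ≤ n := by exact_mod_cast hn.1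
    have h5 : 0 ≤ Real.log n := Real.log_nonneg hn1
    have h6 : Real.log n ≤ L := Real.log_le_log (by linarith) (by exact_mod_cast hn.2)
    have h7 : ‖la n‖ ^ 2 = ‖a n‖ ^ 2 * Real.log n ^ 2 := by
      simp only [hla]
      rw [norm_mul, Complex.norm_real, Real.norm_eq_abs, mul_pow, sq_abs]
    rw [h7, mul_div_right_comm, mul_comm]
    exact mul_le_mul_of_nonneg_right (pow_le_pow_left₀ h5 h6 2) (by positivity)
  have hN0 : (0 : ℝ) ≤ N := Nat.cast_nonneg N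
  have hK : (N : ℝ) + (R : ℝ) ^ 2 * (T + 1) ≤ 2 * (N + (R : ℝ) ^ 2 * T) := by
    have : 0 ≤ (R : ℝ) ^ 2 * (T - 1) := mul_nonneg (by positivity) (by linarith)
    linarith
  have hK0 : 0 ≤ (N : ℝ) + (R : ℝ) ^ 2 * (T + 1) := by positivity
  have hL0 : 0 < L := by linarith
  set A : ℝ := ∑ r ∈ Icc 1 R, ∑ χ ∈ Prim r, ∫ t in Set.Icc (-(T + 1)) (T + 1),
    ‖Fh (twc a χ) N t‖ ^ 2 with hA
  set B : ℝ := ∑ r ∈ Icc 1 R, ∑ χ ∈ Prim r, ∫ t in Set.Icc (-(T + 1)) (T + 1),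
    ‖Fh (twc la χ) N t‖ ^ 2 with hB
  have h8 : B ≤ C * (N + (R : ℝ) ^ 2 * (T + 1)) * (L ^ 2 * S) :=
    h3.trans (mul_le_mul_of_nonneg_left h4 (by positivity))
  calc _ ≤ 2 * L * A + 1 / L * B := h1
    _ ≤ 2 * L * (C * (N + (R : ℝ) ^ 2 * (T + 1)) * S) +
        1 / L * (C * (N + (R : ℝ) ^ 2 * (T + 1)) * (L ^ 2 * S)) :=
        add_le_add (mul_le_mul_of_nonneg_left h2 (by positivity))
          (mul_le_mul_of_nonneg_left h8 (by positivity))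
    _ = 3 * C * L * S * (N + (R : ℝ) ^ 2 * (T + 1)) := by
        field_simp
        ring
    _ ≤ 3 * C * L * S * (2 * (N + (R : ℝ) ^ 2 * T)) :=
        mul_le_mul_of_nonneg_left hK (by positivity)
    _ = 6 * C * (N + (R : ℝ) ^ 2 * T) * L * S := by ring

end Pool.Agent.MVD
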