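import Pool.Agent.MVD.IdentA

/-!
# Module IdentB: the three factor identity with explicit smooth parts

From ident3: `α₁ = 2 Mf U`, `α₀ = -2 LoL U * Mf U`, `β₁ = - (Mf U * Mf U)`, `β₀ = LoL U * Mf U * Mf U`; the convolution `cv a b n = ∑_{de = n} a(d) b(e)`.
`lgA` is `fun l => log l`, `zeta` is `fun _ => 1` on positive integers.
Coefficient bounds: `|LoL U * Mf U| (m) ≤ ∑_{d ∣ m} Λ(d) = log m`, `|Mf * Mf| ≤ τ`, `|LoL * Mf * Mf|(m) ≤ ∑_{d ∣ m} Λ(d) τ(m/d) ≤ τ(m) log m`. Support: `m ≤ U^3`.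
-/

open Finset Complex
open scoped ArithmeticFunction.Moebius ArithmeticFunction.vonMangoldt

namespace Pool.Agent.MVD

open Pool.Agent.ANT Pool.Agent.SInt

namespace IdentBAux

theorem cv_af (f : ArithmeticFunction ℂ) (b : ℕ → ℂ) (g : ArithmeticFunction ℂ)
    (h : ∀ k, k ≠ 0 → b k = g k) (n : ℕ) : cv (fun m => f m) b n = (f * g) n := by
  unfold cv
  rw [ArithmeticFunction.mul_apply]
  apply Finset.sum_congr rfl
  intro p hp
  rw [Nat.mem_divisorsAntidiagonal] at hp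
  have hp2 : p.2 ≠ 0 := by
    intro h0
    apply hp.2
    rw [← hp.1, h0, mul_zero]
  rw [h _ hp2]

theorem ib_zeta_one (k : ℕ) (hk : k ≠ 0) :
    (1 : ℂ) = (ArithmeticFunction.zeta : ArithmeticFunction ℂ) k := by
  rw [ArithmeticFunction.natCoe_apply, ArithmeticFunction.zeta_apply_ne hk]
  simp

theorem cv_one_one (k : ℕ) : cv (fun _ => 1) (fun _ => 1) k =
    ((ArithmeticFunction.zeta : ArithmeticFunction ℂ) *
      (ArithmeticFunction.zeta : ArithmeticFunction ℂ)) k := by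
  unfold cv
  rw [ArithmeticFunction.mul_apply]
  apply Finset.sum_congr rfl
  intro p hp
  rw [Nat.mem_divisorsAntidiagonal] at hp
  have hp2 : p.2 ≠ 0 := by
    intro h0
    apply hp.2
    rw [← hp.1, h0, mul_zero]
  have hp1 : p.1 ≠ 0 := by
    intro h0
    apply hp.2
    rw [← hp.1, h0, zero_mul]
  rw [← ib_zeta_one _ hp1, ← ib_zeta_one _ hp2]

theorem cv_one_log (k : ℕ) : cv (fun _ => 1) (fun l => ((Real.log l : ℝ) : ℂ)) k =
    ((ArithmeticFunction.zeta : ArithmeticFunction ℂ) * lgA) k := by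
  unfold cv
  rw [ArithmeticFunction.mul_apply]
  apply Finset.sum_congr rfl
  intro p hp
  rw [Nat.mem_divisorsAntidiagonal] at hp
  have hp1 : p.1 ≠ 0 := by
    intro h0
    apply hp.2
    rw [← hp.1, h0, zero_mul]
  rw [← ib_zeta_one _ hp1]
  rfl

theorem ib_norm_Mf_le (U n : ℕ) : ‖Mf U n‖ ≤ 1 := by
  rw [Mf_apply]
  split_ifs
  · exact norm_muC_le n
  · simp

theorem ib_Mf_zero {U n : ℕ} (h : U < n) : Mf U n = 0 := by
  rw [Mf_apply, if_neg (by omega)]

theorem ib_norm_MM_le (U n : ℕ) : ‖(Mf U * Mf U) n‖ ≤ tauR n := by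
  rw [ArithmeticFunction.mul_apply, tauR_eq_sum]
  refine (norm_sum_le _ _).trans (Finset.sum_le_sum fun p _ => ?_)
  rw [norm_mul]
  calc ‖Mf U p.1‖ * ‖Mf U p.2‖ ≤ 1 * 1 :=
        mul_le_mul (ib_norm_Mf_le _ _) (ib_norm_Mf_le _ _) (norm_nonneg _) zero_le_one
    _ = 1 := one_mul 1

theorem mul_zero_of {f g : ArithmeticFunction ℂ} {A B n : ℕ} (hf : ∀ k, A < k → f k = 0)
    (hg : ∀ k, B < k → g k = 0) (h : A * B < n) : (f * g) n = 0 := by
  rw [ArithmeticFunction.mul_apply]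
  apply Finset.sum_eq_zero
  intro p hp
  rw [Nat.mem_divisorsAntidiagonal] at hp
  by_cases h1 : A < p.1
  · rw [hf _ h1, zero_mul]
  · by_cases h2 : B < p.2
    · rw [hg _ h2, mul_zero]
    · exfalso
      have := Nat.mul_le_mul (not_lt.1 h1) (not_lt.1 h2)
      rw [hp.1] at this
      omega

theorem ib_MM_zero {U n : ℕ} (h : U * U < n) : (Mf U * Mf U) n = 0 :=
  mul_zero_of (fun _ => ib_Mf_zero) (fun _ => ib_Mf_zero) h

theorem ib_Lo_zero {U n : ℕ} (h : U < n) : LoL U n = 0 := by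
  show (if n ≤ U then ((Λ n : ℝ) : ℂ) else 0) = 0
  rw [if_neg (by omega)]

theorem ib_norm_Lo_le (U n : ℕ) : ‖LoL U n‖ ≤ Λ n := by
  show ‖(if n ≤ U then ((Λ n : ℝ) : ℂ) else 0)‖ ≤ Λ n
  split_ifs
  · rw [Complex.norm_real, Real.norm_of_nonneg ArithmeticFunction.vonMangoldt_nonneg]
  · rw [norm_zero]; exact ArithmeticFunction.vonMangoldt_nonneg

theorem ib_tauR_le {d n : ℕ} (hn : n ≠ 0) (h : d ∣ n) : tauR d ≤ tauR n := by
  unfold tauR
  exact_mod_cast Finset.card_le_card (Nat.divisors_subset_of_dvd hn h)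

theorem ib_norm_LMM_le (U n : ℕ) : ‖(LoL U * (Mf U * Mf U)) n‖ ≤ tauR n * Real.log n := by
  rw [ArithmeticFunction.mul_apply]
  refine (norm_sum_le _ _).trans ?_
  have h1 : ∀ p ∈ n.divisorsAntidiagonal, ‖LoL U p.1 * (Mf U * Mf U) p.2‖ ≤
      tauR n * Λ p.1 := by
    intro p hp
    rw [Nat.mem_divisorsAntidiagonal] at hp
    rw [norm_mul, mul_comm]
    exact mul_le_mul ((ib_norm_MM_le U p.2).trans (ib_tauR_le hp.2 ⟨p.1, by rw [← hp.1, mul_comm]⟩))
      (ib_norm_Lo_le U p.1) (norm_nonneg _) (tauR_nonneg n)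
  refine (Finset.sum_le_sum h1).trans ?_
  rw [← Finset.mul_sum, Nat.sum_divisorsAntidiagonal (fun d _ => (Λ d : ℝ)),
    ArithmeticFunction.vonMangoldt_sum]

theorem ib_log_le (n : ℕ) : (0 : ℝ) ≤ Real.log n := by
  rcases Nat.eq_zero_or_pos n with h | h
  · simp [h]
  · exact Real.log_nonneg (by exact_mod_cast h)

end IdentBAux

open IdentBAux

/-- The three factor identity in the form used for the local averages: two type I parts with one smooth variable and two with two smooth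
variables; the coefficient sequences are supported on `m ≤ U^3` and bounded by `2 τ(m) (1 + log m)`. -/
theorem ident3' {U : ℕ} (hU : 1 ≤ U) : ∃ α₀ α₁ β₀ β₁ : ℕ → ℂ,
    (∀ m, U ^ 3 < m → α₀ m = 0 ∧ α₁ m = 0 ∧ β₀ m = 0 ∧ β₁ m = 0) ∧
    (∀ m, ‖α₀ m‖ ≤ 2 * tauR m * (1 + Real.log m) ∧ ‖α₁ m‖ ≤ 2 * tauR m * (1 + Real.log m) ∧
      ‖β₀ m‖ ≤ 2 * tauR m * (1 + Real.log m) ∧ ‖β₁ m‖ ≤ 2 * tauR m * (1 + Real.log m)) ∧
    ∀ n, U < n → LamN n = (HiL U * az U * az U) n + cv α₀ (fun _ => 1) n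
      + cv α₁ (fun l => ((Real.log l : ℝ) : ℂ)) n
      + cv β₀ (cv (fun _ => 1) (fun _ => 1)) n
      + cv β₁ (cv (fun _ => 1) (fun l => ((Real.log l : ℝ) : ℂ))) n := by
  refine ⟨fun m => (-(2 : ℂ) • (Mf U * LoL U)) m, fun m => ((2 : ℂ) • Mf U) m,
    fun m => (LoL U * (Mf U * Mf U)) m, fun m => (-(Mf U * Mf U)) m, ?_, ?_, ?_⟩
  · intro m hm
    have h1 : U ≤ U ^ 3 := Nat.le_self_pow (by norm_num) U
    have h2 : U * U ≤ U ^ 3 := by
      calc U * U = U ^ 2 := (sq U).symm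
        _ ≤ U ^ 3 := Nat.pow_le_pow_right hU (by norm_num)
    refine ⟨?_, ?_, ?_, ?_⟩
    · show (-(2 : ℂ)) • (aL U m) = 0
      rw [aL_zero (by omega), smul_zero]
    · show (2 : ℂ) • (Mf U m) = 0
      rw [ib_Mf_zero (by omega), smul_zero]
    · exact mul_zero_of (fun _ => ib_Lo_zero) (fun _ => ib_MM_zero) (by
        calc U * (U * U) = U ^ 3 := by ring
          _ < m := hm)
    · show -((Mf U * Mf U) m) = 0
      rw [ib_MM_zero (by omega), neg_zero]
  · intro m
    have hl := ib_log_le m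
    have ht := tauR_nonneg m
    have hone : m ≠ 0 → 1 ≤ tauR m := fun h => one_le_tauR h
    refine ⟨?_, ?_, ?_, ?_⟩
    · have e : ‖(-(2 : ℂ)) • (aL U m)‖ = 2 * ‖aL U m‖ := by
        rw [norm_smul, norm_neg]; norm_num
      show ‖(-(2 : ℂ)) • (aL U m)‖ ≤ _
      rw [e]
      have h1 := norm_aL_le U m
      rcases Nat.eq_zero_or_pos m with h | h
      · subst h
        simp only [Nat.cast_zero, Real.log_zero] at h1 ⊢
        nlinarith
      · have h2 := hone (by omega)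
        have h3 : Real.log m ≤ tauR m * Real.log m := le_mul_of_one_le_left hl h2
        nlinarith
    · have e : ‖(2 : ℂ) • (Mf U m)‖ = 2 * ‖Mf U m‖ := by
        rw [norm_smul]; norm_num
      show ‖(2 : ℂ) • (Mf U m)‖ ≤ _
      rw [e]
      rcases Nat.eq_zero_or_pos m with h | h
      · subst h
        simp only [ArithmeticFunction.map_zero, norm_zero, mul_zero]
        positivity
      · have h1 := ib_norm_Mf_le U m
        have h2 := hone (by omega)
        nlinarith [mul_nonneg ht hl]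
    · have h1 := ib_norm_LMM_le U m
      refine h1.trans ?_
      nlinarith [mul_nonneg ht hl]
    · show ‖-((Mf U * Mf U) m)‖ ≤ _
      rw [norm_neg]
      refine (ib_norm_MM_le U m).trans ?_
      nlinarith [mul_nonneg ht hl]
  · intro n hn
    rw [cv_af _ _ _ ib_zeta_one n, cv_af _ (fun l => ((Real.log l : ℝ) : ℂ)) lgA (fun _ _ => rfl) n,
      cv_af _ _ _ (fun k _ => cv_one_one k) n, cv_af _ _ _ (fun k _ => cv_one_log k) n,
      ident3 hU hn]
    have a1 : (-(2 : ℂ) • (Mf U * LoL U) * (ArithmeticFunction.zeta : ArithmeticFunction ℂ)) n =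
        -(2 * (LoL U * (ArithmeticFunction.zeta : ArithmeticFunction ℂ) * Mf U) n) := by
      rw [smul_mul_assoc]
      show -(2 : ℂ) • ((Mf U * LoL U * (ArithmeticFunction.zeta : ArithmeticFunction ℂ)) n) = _
      rw [show Mf U * LoL U * (ArithmeticFunction.zeta : ArithmeticFunction ℂ) =
        LoL U * (ArithmeticFunction.zeta : ArithmeticFunction ℂ) * Mf U by ring, smul_eq_mul]
      ring
    have a2 : ((2 : ℂ) • Mf U * lgA) n = 2 * (lgA * Mf U) n := by
      rw [smul_mul_assoc]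
      show (2 : ℂ) • ((Mf U * lgA) n) = _
      rw [mul_comm (Mf U) lgA, smul_eq_mul]
    have a3 : (LoL U * (Mf U * Mf U) * ((ArithmeticFunction.zeta : ArithmeticFunction ℂ) *
        (ArithmeticFunction.zeta : ArithmeticFunction ℂ))) n =
        (LoL U * (ArithmeticFunction.zeta : ArithmeticFunction ℂ) *
          (ArithmeticFunction.zeta : ArithmeticFunction ℂ) * (Mf U * Mf U)) n := by
      congr 1
      ring
    have a4 : (-(Mf U * Mf U) * ((ArithmeticFunction.zeta : ArithmeticFunction ℂ) * lgA)) n =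
        -((lgA * (ArithmeticFunction.zeta : ArithmeticFunction ℂ) * (Mf U * Mf U)) n) := by
      have : -(Mf U * Mf U) * ((ArithmeticFunction.zeta : ArithmeticFunction ℂ) * lgA) =
        -(lgA * (ArithmeticFunction.zeta : ArithmeticFunction ℂ) * (Mf U * Mf U)) := by ring
      rw [this]
      rfl
    rw [a1, a2, a3, a4]
    ring

end Pool.Agent.MVD
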