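import Pool.Agent.MVD.RamA

/-!
The product of Gauss sums attached to a character.
-/

open Finset Complex
open scoped ArithmeticFunction.Moebius

namespace Pool.Agent.MVD

open Pool.Agent.ANT Pool.Agent.SInt

/-- `c_χ(v) c_{χ̄}(-1)`. -/
noncomputable def KS {s : ℕ} (χ : DirichletCharacter ℂ s) (v : ℤ) : ℂ :=
  (∑ a ∈ red s, χ (a : ZMod s) * ee (a * v / s)) * ∑ m ∈ red s, χ⁻¹ (m : ZMod s) * ee (-(m / s))

end Pool.Agent.MVD
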