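import Pool.Agent.MVD.Defs
import Pool.Agent.SInt.KapRep

/-!
# Module KapA: from the Mellin kernel to the phases

kap_rep (SInt/KapRep): for `v = N - qk ≥ V ≥ 2D`, `kap D v t = ∫_{|w|<D} GD(w) e^{it log(v-w)} dw` (`w < v` always) and `v - w = (N - w) - qk`. Hence the sum with `kap` is
`∫_{|w|<D} GD(w) ZS c f K N V (N-w) t q dw`; triangle inequality, sum over `q ∈ S` inside the integral, `∫ GD = 1` (integral_GD). Integrability: finite sums of functions of `w` continuous on the bounded set `|w| < D` (`v - w > 0` there).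
-/

open Finset Complex MeasureTheory

namespace Pool.Agent.MVD

open Pool.Agent.ANT Pool.Agent.SInt

private lemma kz_norm (t x : ℝ) : ‖eit t x‖ = 1 := by
  unfold eit
  rw [mul_comm, Complex.norm_exp_ofReal_mul_I]

private lemma kz_meas (t : ℝ) : Measurable (eit t) := by
  unfold eit
  fun_prop

private lemma kz_int {D : ℕ} (t a : ℝ) :
    IntegrableOn (fun w : ℝ => ((GD D w : ℝ) : ℂ) * eit t (a - w)) (Set.Ioo (-(D : ℝ)) D) := by
  refine Measure.integrableOn_of_bounded (M := 1 / D) (by simp) ?_ ?_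
  · refine Measurable.aestronglyMeasurable ?_
    have := (continuous_GD D).measurable
    have h0 := kz_meas t
    fun_prop
  · refine Filter.Eventually.of_forall fun w => ?_
    rw [norm_mul, Complex.norm_real, Real.norm_of_nonneg (GD_nonneg D w), kz_norm, mul_one]
    exact GD_le D w

private lemma kz_GD_int {D : ℕ} (hD : 1 ≤ D) : Integrable (GD D) := by
  refine (continuous_GD D).integrable_of_hasCompactSupport ?_
  refine HasCompactSupport.intro (isCompact_Icc (a := -(D : ℝ)) (b := D)) fun x hx => ?_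
  refine GD_eq_zero hD ?_
  by_contra hlt
  rw [not_le, abs_lt] at hlt
  exact hx ⟨hlt.1.le, hlt.2.le⟩

/-- the kernel for a large argument -/
private lemma kz_kap {D V : ℕ} (hD : 1 ≤ D) (hV : 2 * D ≤ V) (N q k : ℕ) (hk : q * k + V ≤ N)
    (t : ℝ) : kap D ((N : ℤ) - q * k) t =
      ∫ w in Set.Ioo (-(D : ℝ)) D, ((GD D w : ℝ) : ℂ) * eit t (((N : ℝ) - q * k) - w) := by
  rw [kap_rep hD]
  refine setIntegral_congr_fun measurableSet_Ioo fun w hw => ?_
  have hw2 : w < D := hw.2
  have hkR : (q : ℝ) * k + V ≤ N := by exact_mod_cast hk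
  have hVR : (2 : ℝ) * D ≤ V := by exact_mod_cast hV
  have hDR : (1 : ℝ) ≤ D := by exact_mod_cast hD
  have h1 : w < (((N : ℤ) - q * k : ℤ) : ℝ) := by
    push_cast
    linarith
  rw [if_pos h1]
  unfold eit
  push_cast
  rfl

theorem kap_ZS {D V : ℕ} (hD : 1 ≤ D) (hV : 2 * D ≤ V) (c : ℕ → ℂ) (f : ℤ → ℂ) (K N : ℕ) (t : ℝ) (S : Finset ℕ)
    {B : ℝ} (hB : ∀ y : ℝ, |y - N| ≤ D → ∑ q ∈ S, ‖ZS c f K N V y t q‖ ≤ B) :
    ∑ q ∈ S, ‖∑ k ∈ (Icc 1 K).filter (fun k => q * k + V ≤ N), c k * f ((N : ℤ) - q * k) *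
      kap D ((N : ℤ) - q * k) t‖ ≤ B := by
  have hB0 : 0 ≤ B := by
    have h1 := hB N (by simp)
    exact (Finset.sum_nonneg fun q _ => norm_nonneg _).trans h1
  have hGint := kz_GD_int hD
  -- the sum with the kernel as an integral
  have hrep : ∀ q ∈ S, ∑ k ∈ (Icc 1 K).filter (fun k => q * k + V ≤ N),
      c k * f ((N : ℤ) - q * k) * kap D ((N : ℤ) - q * k) t =
      ∫ w in Set.Ioo (-(D : ℝ)) D, ((GD D w : ℝ) : ℂ) * ZS c f K N V ((N : ℝ) - w) t q := by
    intro q _
    have h1 : ∀ w : ℝ, ((GD D w : ℝ) : ℂ) * ZS c f K N V ((N : ℝ) - w) t q =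
        ∑ k ∈ (Icc 1 K).filter (fun k => q * k + V ≤ N), c k * f ((N : ℤ) - q * k) *
          (((GD D w : ℝ) : ℂ) * eit t (((N : ℝ) - q * k) - w)) := by
      intro w
      unfold ZS
      rw [Finset.mul_sum]
      refine Finset.sum_congr rfl fun k _ => ?_
      have e : (N : ℝ) - w - q * k = ((N : ℝ) - q * k) - w := by ring
      rw [e]
      ring
    simp_rw [h1]
    rw [integral_finsetSum _ fun k _ => (kz_int t _).const_mul _]
    refine Finset.sum_congr rfl fun k hk => ?_
    rw [kz_kap hD hV N q k (Finset.mem_filter.mp hk).2 t, integral_const_mul]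
  have hintq : ∀ q ∈ S, IntegrableOn (fun w : ℝ => ((GD D w : ℝ) : ℂ) *
      ZS c f K N V ((N : ℝ) - w) t q) (Set.Ioo (-(D : ℝ)) D) := by
    intro q _
    have h1 : (fun w : ℝ => ((GD D w : ℝ) : ℂ) * ZS c f K N V ((N : ℝ) - w) t q) =
        fun w => ∑ k ∈ (Icc 1 K).filter (fun k => q * k + V ≤ N), c k * f ((N : ℤ) - q * k) *
          (((GD D w : ℝ) : ℂ) * eit t (((N : ℝ) - q * k) - w)) := by
      funext w
      unfold ZS
      rw [Finset.mul_sum]
      refine Finset.sum_congr rfl fun k _ => ?_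
      have e : (N : ℝ) - w - q * k = ((N : ℝ) - q * k) - w := by ring
      rw [e]
      ring
    rw [h1]
    exact integrable_finsetSum _ fun k _ => (kz_int t _).const_mul _
  calc ∑ q ∈ S, ‖∑ k ∈ (Icc 1 K).filter (fun k => q * k + V ≤ N), c k * f ((N : ℤ) - q * k) *
        kap D ((N : ℤ) - q * k) t‖
      = ∑ q ∈ S, ‖∫ w in Set.Ioo (-(D : ℝ)) D, ((GD D w : ℝ) : ℂ) *
          ZS c f K N V ((N : ℝ) - w) t q‖ :=
        Finset.sum_congr rfl fun q hq => by rw [hrep q hq]
    _ ≤ ∑ q ∈ S, ∫ w in Set.Ioo (-(D : ℝ)) D, ‖((GD D w : ℝ) : ℂ) *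
          ZS c f K N V ((N : ℝ) - w) t q‖ :=
        Finset.sum_le_sum fun q _ => norm_integral_le_integral_norm _
    _ = ∫ w in Set.Ioo (-(D : ℝ)) D, ∑ q ∈ S, ‖((GD D w : ℝ) : ℂ) *
          ZS c f K N V ((N : ℝ) - w) t q‖ :=
        (integral_finsetSum _ fun q hq => (hintq q hq).norm).symm
    _ ≤ ∫ w in Set.Ioo (-(D : ℝ)) D, GD D w * B := by
        refine setIntegral_mono_on (integrable_finsetSum _ fun q hq => (hintq q hq).norm)
          (hGint.integrableOn.mul_const B) measurableSet_Ioo fun w hw => ?_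
        have h1 : ∀ q, ‖((GD D w : ℝ) : ℂ) * ZS c f K N V ((N : ℝ) - w) t q‖ =
            GD D w * ‖ZS c f K N V ((N : ℝ) - w) t q‖ := by
          intro q
          rw [norm_mul, Complex.norm_real, Real.norm_of_nonneg (GD_nonneg D w)]
        simp_rw [h1]
        rw [← Finset.mul_sum]
        refine mul_le_mul_of_nonneg_left (hB _ ?_) (GD_nonneg D w)
        rw [abs_le]
        constructor
        · linarith [hw.2]
        · linarith [hw.1]
    _ = (∫ w in Set.Ioo (-(D : ℝ)) D, GD D w) * B := integral_mul_const _ _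
    _ ≤ 1 * B := by
        refine mul_le_mul_of_nonneg_right ?_ hB0
        rw [← integral_GD hD]
        exact setIntegral_le_integral hGint (Filter.Eventually.of_forall fun w => GD_nonneg D w)
    _ = B := one_mul B

end Pool.Agent.MVD
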