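import Pool.Agent.MVD.KapA

/-!
# Module KapI: integrals over `t`

Interchange the finite sum over `k` with the integral over `A`: `∑_k c f ∫_A P kap = ∫_A P(t) (∑_k c f kap(t)) dt`, norm `≤ ∫_A |P(t)| ‖∑_k ..‖ dt`, sum over `q ∈ S`, kap_ZS for `t ∈ A`: `∑_q ‖∑_k ..‖ ≤ B`.
Integrability: `P` is continuous, `kap` continuous in `t` (continuous_kap) and bounded by 1, `A ⊆ [-T,T]` measurable.
-/

open Finset Complex MeasureTheory

namespace Pool.Agent.MVD

open Pool.Agent.ANT Pool.Agent.SInt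

/-- Interchange of the sum over `k` with the integral over `t`, and the triangle inequality. -/
theorem int_ZS {D V : ℕ} (hD : 1 ≤ D) (hV : 2 * D ≤ V) (c : ℕ → ℂ) (f : ℤ → ℂ) (K N : ℕ) (S : Finset ℕ) {T : ℝ}
    (hT : 0 < T) (P : ℝ → ℂ) (hP : Continuous P) (A : Set ℝ) (hA : MeasurableSet A) (hAT : A ⊆ Set.Icc (-T) T) {B : ℝ} (hB0 : 0 ≤ B)
    (hB : ∀ t ∈ A, ∀ y : ℝ, |y - N| ≤ D → ∑ q ∈ S, ‖ZS c f K N V y t q‖ ≤ B) :
    ∑ q ∈ S, ‖∑ k ∈ (Icc 1 K).filter (fun k => q * k + V ≤ N), c k * f ((N : ℤ) - q * k) *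
      ∫ t in A, P t * kap D ((N : ℤ) - q * k) t‖ ≤ B * ∫ t in A, ‖P t‖ := by
  have hint : ∀ g : ℝ → ℂ, Continuous g → IntegrableOn g A := fun g hg =>
    (hg.continuousOn.integrableOn_compact isCompact_Icc).mono_set hAT
  have hintr : ∀ g : ℝ → ℝ, Continuous g → IntegrableOn g A := fun g hg =>
    (hg.continuousOn.integrableOn_compact isCompact_Icc).mono_set hAT
  have hGc : ∀ q : ℕ, Continuous (fun t : ℝ => ∑ k ∈ (Icc 1 K).filter (fun k => q * k + V ≤ N),
      c k * f ((N : ℤ) - q * k) * kap D ((N : ℤ) - q * k) t) := fun q =>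
    continuous_finsetSum _ (fun k _ => continuous_const.mul (continuous_kap D _))
  have h1 : ∀ q ∈ S, ‖∑ k ∈ (Icc 1 K).filter (fun k => q * k + V ≤ N),
      c k * f ((N : ℤ) - q * k) * ∫ t in A, P t * kap D ((N : ℤ) - q * k) t‖ ≤
      ∫ t in A, ‖P t‖ * ‖∑ k ∈ (Icc 1 K).filter (fun k => q * k + V ≤ N),
        c k * f ((N : ℤ) - q * k) * kap D ((N : ℤ) - q * k) t‖ := by
    intro q _
    have e1 : ∑ k ∈ (Icc 1 K).filter (fun k => q * k + V ≤ N),
        c k * f ((N : ℤ) - q * k) * ∫ t in A, P t * kap D ((N : ℤ) - q * k) t =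
        ∫ t in A, P t * ∑ k ∈ (Icc 1 K).filter (fun k => q * k + V ≤ N),
          c k * f ((N : ℤ) - q * k) * kap D ((N : ℤ) - q * k) t := by
      have e2 : ∀ t : ℝ, P t * ∑ k ∈ (Icc 1 K).filter (fun k => q * k + V ≤ N),
          c k * f ((N : ℤ) - q * k) * kap D ((N : ℤ) - q * k) t =
          ∑ k ∈ (Icc 1 K).filter (fun k => q * k + V ≤ N),
          c k * f ((N : ℤ) - q * k) * (P t * kap D ((N : ℤ) - q * k) t) := by
        intro t
        rw [Finset.mul_sum]
        exact Finset.sum_congr rfl fun k _ => by ring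
      simp only [e2]
      have hi3 : ∀ k ∈ (Icc 1 K).filter (fun k => q * k + V ≤ N), IntegrableOn (fun t : ℝ =>
          c k * f ((N : ℤ) - q * k) * (P t * kap D ((N : ℤ) - q * k) t)) A := fun k _ =>
        hint _ (continuous_const.mul (hP.mul (continuous_kap D ((N : ℤ) - q * k))))
      rw [integral_finsetSum _ hi3]
      exact Finset.sum_congr rfl fun k _ => (integral_const_mul _ _).symm
    rw [e1]
    refine (norm_integral_le_integral_norm _).trans (le_of_eq ?_)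
    simp only [norm_mul]
  refine (Finset.sum_le_sum h1).trans ?_
  have hi2 : ∀ q ∈ S, IntegrableOn (fun t : ℝ => ‖P t‖ *
      ‖∑ k ∈ (Icc 1 K).filter (fun k => q * k + V ≤ N),
        c k * f ((N : ℤ) - q * k) * kap D ((N : ℤ) - q * k) t‖) A := fun q _ =>
    hintr _ (hP.norm.mul (hGc q).norm)
  rw [← integral_finsetSum _ hi2, ← integral_const_mul]
  refine setIntegral_mono_on (hintr _ ?_) ((hintr _ hP.norm).const_mul B) hA ?_
  · exact continuous_finsetSum _ fun q _ => hP.norm.mul (hGc q).norm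
  · intro t ht
    rw [← Finset.mul_sum, mul_comm B]
    refine mul_le_mul_of_nonneg_left ?_ (norm_nonneg _)
    exact kap_ZS hD hV c f K N t S (fun y hy => hB t ht y hy)

end Pool.Agent.MVD
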