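import Pool.Agent.MVD.LPPoly

/-!
A bad modulus of size less than `exp (c log X / log log X)` has a zero very close to `1`.
-/

set_option autoImplicit false

open Complex

namespace Pool.Agent.MVD

open Pool.Agent.ANT Pool.Agent.SInt

/-- all conditions on `L = log X` -/
private lemma LPBadZ_ev (κ c C a : ℝ) (hκ : 0 < κ) (b K : ℕ) : ∃ L0 : ℝ, ∀ L : ℝ, L0 ≤ L →
    3 ≤ L ∧ 1 ≤ Real.log L ∧ c ≤ Real.log L ∧ a * Real.log L ≤ L / 100 ∧
    (3 * b + 10 : ℕ) * Real.log L + 2 ≤ L ∧ K * Real.log L ≤ κ * L ∧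
    L ^ (b + 3) * 2 ^ 17 ≤ Real.exp (17 * κ * L) ∧ 4 * 2 ^ 17 ≤ Real.exp (17 * κ * L) ∧
    12 * C ≤ L ^ 2 ∧ 2 ≤ Real.exp (κ * L) := by
  have hlog : ∀ ε : ℝ, 0 < ε → ∀ᶠ L : ℝ in Filter.atTop, Real.log L ≤ ε * L := by
    intro ε hε
    have h1 := (Real.isLittleO_log_id_atTop).def hε
    filter_upwards [h1, Filter.eventually_ge_atTop (0 : ℝ)] with L hL h0
    simp only [id, Real.norm_eq_abs] at hL
    rw [abs_of_nonneg h0] at hL
    exact (le_abs_self _).trans hL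
  have e1 : ∀ᶠ L : ℝ in Filter.atTop, 3 ≤ L := Filter.eventually_ge_atTop 3
  have e2 : ∀ᶠ L : ℝ in Filter.atTop, max 1 c ≤ Real.log L :=
    Real.tendsto_log_atTop.eventually_ge_atTop _
  have e3 : ∀ᶠ L : ℝ in Filter.atTop, Real.log L ≤ 1 / (100 * (|a| + 1)) * L := hlog _ (by positivity)
  have e4 : ∀ᶠ L : ℝ in Filter.atTop, Real.log L ≤ 1 / (2 * ((3 * b + 10 : ℕ) : ℝ)) * L :=
    hlog _ (by positivity)
  have e5 : ∀ᶠ L : ℝ in Filter.atTop, Real.log L ≤ κ / (K + 1) * L := hlog _ (by positivity)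
  have e6 : ∀ᶠ L : ℝ in Filter.atTop, 4 ≤ L := Filter.eventually_ge_atTop 4
  have e7 : ∀ᶠ L : ℝ in Filter.atTop, L ^ (b + 3) * 2 ^ 17 ≤ Real.exp (17 * κ * L) := by
    have h1 := (isLittleO_pow_exp_pos_mul_atTop (b + 3) (b := 17 * κ) (by positivity)).def
      (show (0 : ℝ) < 1 / 2 ^ 17 by positivity)
    filter_upwards [h1, Filter.eventually_ge_atTop (0 : ℝ)] with L hL h0
    rw [Real.norm_eq_abs, Real.norm_eq_abs, abs_of_nonneg (by positivity),
      abs_of_nonneg (Real.exp_pos _).le] at hL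
    have : L ^ (b + 3) * 2 ^ 17 ≤ 1 / 2 ^ 17 * Real.exp (17 * κ * L) * 2 ^ 17 := by gcongr
    calc L ^ (b + 3) * 2 ^ 17 ≤ 1 / 2 ^ 17 * Real.exp (17 * κ * L) * 2 ^ 17 := this
      _ = Real.exp (17 * κ * L) := by ring
  have e8 : ∀ᶠ L : ℝ in Filter.atTop, (4 * 2 ^ 17 : ℝ) ≤ Real.exp (17 * κ * L) := by
    have h1 : Filter.Tendsto (fun L : ℝ => Real.exp (17 * κ * L)) Filter.atTop Filter.atTop :=
      Real.tendsto_exp_atTop.comp (Filter.tendsto_id.const_mul_atTop (by positivity))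
    exact h1.eventually_ge_atTop _
  have e9 : ∀ᶠ L : ℝ in Filter.atTop, 12 * C ≤ L := Filter.eventually_ge_atTop _
  have e10 : ∀ᶠ L : ℝ in Filter.atTop, (2 : ℝ) ≤ Real.exp (κ * L) := by
    have h1 : Filter.Tendsto (fun L : ℝ => Real.exp (κ * L)) Filter.atTop Filter.atTop :=
      Real.tendsto_exp_atTop.comp (Filter.tendsto_id.const_mul_atTop hκ)
    exact h1.eventually_ge_atTop _
  obtain ⟨L0, hL0⟩ := Filter.eventually_atTop.1
    (e1.and (e2.and (e3.and (e4.and (e5.and (e6.and (e7.and (e8.and (e9.and e10)))))))))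
  refine ⟨L0, fun L hL => ?_⟩
  obtain ⟨f1, f2, f3, f4, f5, f6, f7, f8, f9, f10⟩ := hL0 L hL
  have g1 : 1 ≤ Real.log L := (le_max_left _ _).trans f2
  have g2 : c ≤ Real.log L := (le_max_right _ _).trans f2
  refine ⟨f1, g1, g2, ?_, ?_, ?_, f7, f8, ?_, f10⟩
  · have h1 : a * Real.log L ≤ (|a| + 1) * Real.log L :=
      mul_le_mul_of_nonneg_right (by linarith [le_abs_self a]) (by linarith)
    have h2 : (|a| + 1) * Real.log L ≤ (|a| + 1) * (1 / (100 * (|a| + 1)) * L) := by gcongr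
    have h3 : (|a| + 1) * (1 / (100 * (|a| + 1)) * L) = L / 100 := by
      have : |a| + 1 ≠ 0 := by positivity
      field_simp
    linarith
  · have h2 : ((3 * b + 10 : ℕ) : ℝ) * Real.log L ≤
        ((3 * b + 10 : ℕ) : ℝ) * (1 / (2 * ((3 * b + 10 : ℕ) : ℝ)) * L) := by gcongr
    have h3 : ((3 * b + 10 : ℕ) : ℝ) * (1 / (2 * ((3 * b + 10 : ℕ) : ℝ)) * L) = L / 2 := by
      have : ((3 * b + 10 : ℕ) : ℝ) ≠ 0 := by positivity
      field_simp
    linarith
  · have hK : (0 : ℝ) ≤ K := Nat.cast_nonneg _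
    have h2 : (K : ℝ) * Real.log L ≤ (K + 1) * (κ / (K + 1) * L) := by
      have : (K : ℝ) * Real.log L ≤ (K + 1) * Real.log L :=
        mul_le_mul_of_nonneg_right (by linarith) (by linarith)
      refine this.trans ?_
      gcongr
    have h3 : ((K : ℝ) + 1) * (κ / (K + 1) * L) = κ * L := by
      have : (K : ℝ) + 1 ≠ 0 := by positivity
      field_simp
    linarith
  · nlinarith

/-- A small bad modulus has a zero close to `1`. Put `L = log X`, `Z = c L / log L` with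
`c = 17 κ c' / (2 (3 b + 40))`, `η = c' / Z`, `T = L^(3b+10)`, `δ = L^(-(b+3))`, `M = 2^j ≥ mz κ X ≥ X^(17κ)/2^17`:
if there were no zero as stated then `PC_bound` would give `‖PC LamN χ M t‖ ≤ L^(-b)`. Note
`M^(-η/2) ≤ 2 L^(-(3b+40))`, `el r T ≤ 2 L`, `1/η ≤ L`. -/
theorem bad_zero {κ : ℝ} (hκ : 0 < κ) (hκ1 : κ ≤ 1 / 1000) (b : ℕ) {c' : ℝ} (hc' : 0 < c') :
    ∃ c : ℝ, 0 < c ∧ ∃ X₀ : ℕ, ∀ X : ℕ, X₀ ≤ X → ∀ (r : ℕ) [NeZero r], BadR κ b X r →
      (r : ℝ) < Real.exp (c * Real.log X / Real.log (Real.log X)) →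
      ∃ χ : DirichletCharacter ℂ r, χ.IsPrimitive ∧ ∃ ρ : ℂ, χ.LFunction ρ = 0 ∧
        |ρ.im| ≤ Real.log X ^ (3 * b + 11) ∧
        1 - c' * Real.log (Real.log X) / (c * Real.log X) < ρ.re := by
  obtain ⟨C, hC, hPC⟩ := PC_bound
  obtain ⟨K, hK⟩ : ∃ K : ℕ, K = 3 * b + 40 := ⟨_, rfl⟩
  have hK0 : (0 : ℝ) < K := by rw [hK]; positivity
  have hK40 : (40 : ℝ) ≤ K := by rw [hK]; push_cast; linarith [(Nat.cast_nonneg b : (0 : ℝ) ≤ b)]
  obtain ⟨c, hc⟩ : ∃ c : ℝ, c = 17 * κ * c' / (2 * K) := ⟨_, rfl⟩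
  have hc0 : 0 < c := by rw [hc]; positivity
  obtain ⟨L0, hL0⟩ := LPBadZ_ev κ c C (2 * K / (17 * κ)) hκ b K
  obtain ⟨X₀, hX₀⟩ := exists_nat_ge (Real.exp L0)
  refine ⟨c, hc0, max X₀ 2, ?_⟩
  intro X hX r _ hbad hr
  have hX2 : 2 ≤ X := (le_max_right _ _).trans hX
  have hXr : (0 : ℝ) < X := by exact_mod_cast (show 0 < X by omega)
  obtain ⟨L, hL⟩ : ∃ L : ℝ, L = Real.log X := ⟨_, rfl⟩
  rw [← hL] at hr ⊢
  have hXL : (X : ℝ) = Real.exp L := by rw [hL, Real.exp_log hXr]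
  have hLL : L0 ≤ L := by
    rw [hL, Real.le_log_iff_exp_le hXr]
    exact hX₀.trans (by exact_mod_cast (le_max_left _ _).trans hX)
  obtain ⟨h3, hl1, hlc, hη1, hel, hKl, hM1, hM2, hC2, hR2⟩ := hL0 L hLL
  obtain ⟨hr2, hrR, χ, hχ, j, t, hj1, hj2, ht, hlt⟩ := hbad
  rw [← hL] at ht hlt
  have hL0' : 0 < L := by linarith
  have hL1 : 1 ≤ L := by linarith
  refine ⟨χ, hχ, ?_⟩
  by_contra hno
  push Not at hno
  -- the parameters
  obtain ⟨ℓ, hℓ⟩ : ∃ ℓ : ℝ, ℓ = Real.log L := ⟨_, rfl⟩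
  rw [← hℓ] at hl1 hlc hη1 hel hKl hno hr
  have hℓ0 : 0 < ℓ := by linarith
  obtain ⟨η, hη⟩ : ∃ η : ℝ, η = c' * ℓ / (c * L) := ⟨_, rfl⟩
  have hηv : η = 2 * K / (17 * κ) * ℓ / L := by
    rw [hη, hc]
    field_simp
  have hη0 : 0 < η := by rw [hηv]; positivity
  have hη2 : η ≤ 1 / 100 := by
    rw [hηv, div_le_iff₀ hL0']
    linarith
  rw [← hη] at hno
  obtain ⟨T, hT⟩ : ∃ T : ℝ, T = L ^ (3 * b + 10) := ⟨_, rfl⟩
  have hT1 : 1 ≤ T := by rw [hT]; exact one_le_pow₀ hL1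
  have hT0 : 0 < T := by linarith
  have htT : |t| ≤ T := by
    refine ht.trans ?_
    rw [hT]
    exact pow_le_pow_right₀ hL1 (by omega)
  have hT2 : 2 * T + 1 ≤ L ^ (3 * b + 11) := by
    have : L ^ (3 * b + 11) = L * T := by rw [hT]; ring
    rw [this]
    have h4 := mul_le_mul_of_nonneg_right h3 hT0.le
    linarith
  have hχ1 : χ ≠ 1 := by
    rintro rfl
    have h1 : (1 : DirichletCharacter ℂ r).conductor = r := hχ
    rw [DirichletCharacter.conductor_one] at h1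
    omega
  obtain ⟨M, hM⟩ : ∃ M : ℕ, M = 2 ^ j := ⟨_, rfl⟩
  rw [← hM] at hj1 hj2 hlt
  -- size of `M`
  have hR : Real.exp (κ * L) / 2 ≤ (mR κ X : ℝ) := by
    have h1 : (X : ℝ) ^ κ = Real.exp (κ * L) := by
      rw [Real.rpow_def_of_pos hXr, ← hL, mul_comm]
    have h2 := Nat.lt_floor_add_one ((X : ℝ) ^ κ)
    rw [h1] at h2
    unfold mR
    rw [h1]
    linarith
  have hMz : ((mR κ X ^ 17 : ℕ) : ℝ) ≤ M := by
    have h1 : mR κ X ^ 17 ≤ mz κ X := Nat.le_pow_clog (by norm_num) _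
    exact_mod_cast h1.trans hj1
  have hMlow : Real.exp (17 * κ * L) / 2 ^ 17 ≤ M := by
    refine le_trans ?_ hMz
    push_cast
    have h1 : Real.exp (17 * κ * L) / 2 ^ 17 = (Real.exp (κ * L) / 2) ^ 17 := by
      rw [div_pow, ← Real.exp_nat_mul]
      congr 2
      push_cast
      ring
    rw [h1]
    exact pow_le_pow_left₀ (by positivity) hR 17
  have hM4r : (4 : ℝ) ≤ M := by
    refine le_trans ?_ hMlow
    rw [le_div_iff₀ (by positivity)]
    linarith
  have hM4 : 4 ≤ M := by exact_mod_cast hM4r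
  have hM0 : (0 : ℝ) < M := by linarith
  have hML : L ^ (b + 3) ≤ M := by
    refine le_trans ?_ hMlow
    rw [le_div_iff₀ (by positivity)]
    linarith
  have hlogM : 17 * κ * L - 17 * Real.log 2 ≤ Real.log M := by
    have h1 : Real.log (Real.exp (17 * κ * L) / 2 ^ 17) ≤ Real.log M :=
      Real.log_le_log (by positivity) hMlow
    rw [Real.log_div (Real.exp_pos _).ne' (by positivity), Real.log_exp, Real.log_pow] at h1
    push_cast at h1
    linarith
  have hlog2M : Real.log (2 * M) ≤ 2 * L := by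
    have h1 : (2 * M : ℝ) ≤ 4 * X := by
      have : (M : ℝ) ≤ 2 * X := by exact_mod_cast hj2
      linarith
    have h2 : Real.log (2 * M) ≤ Real.log (4 * X) := Real.log_le_log (by positivity) h1
    rw [Real.log_mul (by norm_num) hXr.ne', ← hL] at h2
    have h4 : Real.log 4 ≤ 3 := by
      have := Real.log_le_sub_one_of_pos (show (0 : ℝ) < 4 by norm_num)
      linarith
    linarith
  have hlog2M0 : 0 ≤ Real.log (2 * M) := Real.log_nonneg (by linarith)
  -- `M^(-η/2)`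
  have hMη : (M : ℝ) ^ (-(η / 2)) ≤ 2 / L ^ K := by
    rw [Real.rpow_def_of_pos hM0]
    have h2 : (0 : ℝ) < Real.log 2 := Real.log_pos (by norm_num)
    have h1 : Real.log M * -(η / 2) ≤ Real.log 2 - K * ℓ := by
      have e1 : η / 2 = K * ℓ / (17 * κ * L) := by
        rw [hηv]
        field_simp
      have e2 : (17 * κ * L - 17 * Real.log 2) * (η / 2) ≤ Real.log M * (η / 2) := by gcongr
      have e3 : (17 * κ * L - 17 * Real.log 2) * (η / 2) = K * ℓ - Real.log 2 * (K * ℓ / (κ * L)) := by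
        rw [e1]
        field_simp
      have e4 : K * ℓ / (κ * L) ≤ 1 := by
        rw [div_le_one (by positivity)]
        exact hKl
      have e5 : Real.log 2 * (K * ℓ / (κ * L)) ≤ Real.log 2 := mul_le_of_le_one_right h2.le e4
      linarith
    refine (Real.exp_le_exp.2 h1).trans ?_
    rw [Real.exp_sub, Real.exp_log (by norm_num)]
    have h4 : Real.exp (K * ℓ) = L ^ K := by
      rw [Real.exp_nat_mul, hℓ, Real.exp_log hL0']
    rw [h4]
  -- `el`
  have hel2 : el r T ≤ 2 * L := by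
    unfold el
    rw [abs_of_pos hT0]
    have hr0 : (0 : ℝ) < r := by exact_mod_cast (show 0 < r by omega)
    rw [Real.log_mul hr0.ne' (by positivity)]
    have h1 : Real.log r ≤ L := by
      have e1 : Real.log r ≤ c * L / ℓ := by
        rw [Real.log_le_iff_le_exp hr0]
        exact hr.le
      have e2 : c * L / ℓ ≤ L := by
        rw [div_le_iff₀ hℓ0]
        have e3 := mul_le_mul_of_nonneg_right hlc hL0'.le
        linarith
      linarith
    have h2 : Real.log (T + 3) ≤ L := by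
      have e1 : Real.log (T + 3) ≤ Real.log (4 * T) := Real.log_le_log (by positivity) (by linarith)
      rw [Real.log_mul (by norm_num) hT0.ne', hT, Real.log_pow, ← hℓ] at e1
      have e2 : Real.log 4 ≤ 2 := by
        have e3 : Real.log 4 = 2 * Real.log 2 := by
          rw [show (4 : ℝ) = 2 ^ 2 by norm_num, Real.log_pow]
          norm_num
        have e4 := Real.log_two_lt_d9
        linarith
      rw [hT]
      linarith
    linarith
  have hel0 : 0 ≤ el r T := by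
    have := one_le_el (r := r) (by omega) T
    linarith
  have h1η : 1 / η ≤ L := by
    rw [div_le_iff₀ hη0, hηv]
    have e1 : L * (2 * K / (17 * κ) * ℓ / L) = 2 * K / (17 * κ) * ℓ := by field_simp
    rw [e1]
    have e2 : 1 ≤ 2 * K / (17 * κ) := by
      rw [le_div_iff₀ (by positivity)]
      linarith
    exact one_le_mul_of_one_le_of_one_le e2 hl1
  -- the bound
  obtain ⟨δ, hδ⟩ : ∃ δ : ℝ, δ = 1 / L ^ (b + 3) := ⟨_, rfl⟩
  have hδ0 : 0 < δ := by rw [hδ]; positivity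
  have hδ1 : δ ≤ 1 := by
    rw [hδ, div_le_one (by positivity)]
    exact one_le_pow₀ hL1
  have hmain := hPC r χ hχ1 η T t δ M hη0 hη2 hT1 htT hM4 hδ0 hδ1 (by
    intro s hs1 hs2 hs0
    have := hno s hs0 (hs2.trans hT2)
    linarith)
  have hb1 : (M : ℝ) ^ (-(η / 2)) + 1 / T ^ 2 ≤ 3 / L ^ (3 * b + 20) := by
    have e1 : (M : ℝ) ^ (-(η / 2)) ≤ 2 / L ^ (3 * b + 20) := by
      refine hMη.trans ?_
      rw [hK]
      exact div_le_div_of_nonneg_left (by norm_num) (by positivity)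
        (pow_le_pow_right₀ hL1 (by omega))
    have e2 : 1 / T ^ 2 ≤ 1 / L ^ (3 * b + 20) := by
      rw [hT, ← pow_mul]
      exact div_le_div_of_nonneg_left (by norm_num) (by positivity)
        (pow_le_pow_right₀ hL1 (by omega))
    have e3 : (3 : ℝ) / L ^ (3 * b + 20) = 2 / L ^ (3 * b + 20) + 1 / L ^ (3 * b + 20) := by ring
    rw [e3]
    linarith
  have hb2 : ((M : ℝ) ^ (-(η / 2)) + 1 / T ^ 2) * el r T / η ≤ 6 / L ^ (3 * b + 18) := by
    have e1 : ((M : ℝ) ^ (-(η / 2)) + 1 / T ^ 2) * el r T / η =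
        ((M : ℝ) ^ (-(η / 2)) + 1 / T ^ 2) * (el r T * (1 / η)) := by ring
    rw [e1]
    have e2 : el r T * (1 / η) ≤ 2 * L * L := by
      have : 0 ≤ 1 / η := by positivity
      exact mul_le_mul hel2 h1η this (by positivity)
    have e3 : ((M : ℝ) ^ (-(η / 2)) + 1 / T ^ 2) * (el r T * (1 / η)) ≤
        3 / L ^ (3 * b + 20) * (2 * L * L) :=
      mul_le_mul hb1 e2 (by positivity) (by positivity)
    refine e3.trans (le_of_eq ?_)
    rw [show 3 * b + 20 = 3 * b + 18 + 2 by ring, pow_add]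
    field_simp
    ring
  have hb3 : Real.log (2 * M) / T ≤ 2 / L ^ (3 * b + 9) := by
    rw [hT, div_le_div_iff₀ (by positivity) (by positivity)]
    have e1 : L ^ (3 * b + 10) = L * L ^ (3 * b + 9) := by ring
    rw [e1]
    have e2 : 0 < L ^ (3 * b + 9) := by positivity
    have e3 := mul_le_mul_of_nonneg_right hlog2M e2.le
    linarith
  have hb4 : (((M : ℝ) ^ (-(η / 2)) + 1 / T ^ 2) * el r T / η + Real.log (2 * M) / T) / δ ≤
      8 / L ^ (b + 2) := by
    have e1 : ((M : ℝ) ^ (-(η / 2)) + 1 / T ^ 2) * el r T / η + Real.log (2 * M) / T ≤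
        8 / L ^ (3 * b + 9) := by
      have f1 : 6 / L ^ (3 * b + 18) ≤ 6 / L ^ (3 * b + 9) :=
        div_le_div_of_nonneg_left (by norm_num) (by positivity) (pow_le_pow_right₀ hL1 (by omega))
      have f2 : (8 : ℝ) / L ^ (3 * b + 9) = 6 / L ^ (3 * b + 9) + 2 / L ^ (3 * b + 9) := by ring
      rw [f2]
      linarith
    have e2 : (((M : ℝ) ^ (-(η / 2)) + 1 / T ^ 2) * el r T / η + Real.log (2 * M) / T) / δ ≤
        8 / L ^ (3 * b + 9) / δ := by gcongr
    refine e2.trans ?_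
    rw [hδ, div_div, mul_one_div]
    have e3 : L ^ (3 * b + 9) / L ^ (b + 3) = L ^ (2 * b + 6) := by
      rw [div_eq_iff (by positivity), ← pow_add]
      congr 1
      ring
    rw [e3]
    exact div_le_div_of_nonneg_left (by norm_num) (by positivity)
      (pow_le_pow_right₀ hL1 (by omega))
  have hb5 : δ * Real.log (2 * M) ≤ 2 / L ^ (b + 2) := by
    have e1 : δ * Real.log (2 * M) ≤ δ * (2 * L) := by gcongr
    refine e1.trans (le_of_eq ?_)
    rw [hδ, show b + 3 = b + 2 + 1 by ring, pow_succ]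
    field_simp
  have hb6 : Real.log (2 * M) / M ≤ 2 / L ^ (b + 2) := by
    rw [div_le_div_iff₀ hM0 (by positivity)]
    have e1 : L ^ (b + 3) = L * L ^ (b + 2) := by ring
    rw [e1] at hML
    have e2 : 0 < L ^ (b + 2) := by positivity
    have e3 := mul_le_mul_of_nonneg_right hlog2M e2.le
    linarith
  have hfin : ‖PC LamN χ M t‖ ≤ 1 / L ^ b := by
    refine hmain.trans ?_
    have e1 : C * ((((M : ℝ) ^ (-(η / 2)) + 1 / T ^ 2) * el r T / η + Real.log (2 * M) / T) / δ +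
        δ * Real.log (2 * M) + Real.log (2 * M) / M) ≤ C * (12 / L ^ (b + 2)) := by
      refine mul_le_mul_of_nonneg_left ?_ hC.le
      have f2 : (12 : ℝ) / L ^ (b + 2) = 8 / L ^ (b + 2) + 2 / L ^ (b + 2) + 2 / L ^ (b + 2) := by ring
      rw [f2]
      linarith
    refine e1.trans ?_
    rw [← mul_div_assoc, div_le_div_iff₀ (by positivity) (by positivity)]
    have e2 : L ^ (b + 2) = L ^ 2 * L ^ b := by ring
    rw [e2]
    have e3 : 0 < L ^ b := by positivity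
    have e4 := mul_le_mul_of_nonneg_right hC2 e3.le
    linarith
  exact absurd hlt (not_lt.2 hfin)

end Pool.Agent.MVD
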