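import Mathlib
import Pool.Agent.Lib.ANT.Recip

/-!
Growth of Dirichlet `L`-functions to the right of `Re s = 0`.
-/

set_option autoImplicit false

open Complex

namespace Pool.Agent.MVD

open Pool.Agent.ANT

/-- The function `log (r (|t| + 3))`. -/
noncomputable def el (r : ℕ) (t : ℝ) : ℝ := Real.log (r * (|t| + 3))

theorem one_le_el {r : ℕ} (hr : 1 ≤ r) (t : ℝ) : 1 ≤ el r t := by
  unfold el
  have hr' : (1:ℝ) ≤ r := by exact_mod_cast hr
  have h3 : (3:ℝ) ≤ r * (|t| + 3) := by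
    have := abs_nonneg t
    nlinarith
  rw [Real.le_log_iff_exp_le (by linarith)]
  have := Real.exp_one_lt_d9
  linarith

theorem el_two_mul {r : ℕ} (hr : 1 ≤ r) {t u : ℝ} (h : |u| ≤ 2 * |t| + 2) : el r u ≤ 2 * el r t := by
  unfold el
  have hr' : (1:ℝ) ≤ r := by exact_mod_cast hr
  have ht := abs_nonneg t
  have hu := abs_nonneg u
  have h1 : (r:ℝ) * (|u| + 3) ≤ (r * (|t| + 3)) ^ 2 := by
    have h3 : (3:ℝ) ≤ r * (|t| + 3) := by nlinarith
    have h4 : (r:ℝ) * (|u| + 3) ≤ r * (|t| + 3) * 3 := by nlinarith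
    nlinarith
  calc Real.log (r * (|u| + 3)) ≤ Real.log ((r * (|t| + 3)) ^ 2) :=
        Real.log_le_log (by positivity) h1
    _ = 2 * Real.log (r * (|t| + 3)) := by rw [Real.log_pow]; push_cast; ring

/-- `LX` of the library is the `L`-function on `Re s > 0` (identity theorem: both are holomorphic there,
`LX_differentiableAt`, and agree on `Re s > 1`, `LX_eq_LSeries`, `DirichletCharacter.LFunction_eq_LSeries`). -/
theorem LX_eq_LFunction {r : ℕ} [NeZero r] {χ : DirichletCharacter ℂ r} (hχ : χ ≠ 1) {s : ℂ} (hs : 0 < s.re) :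
    LX χ s = χ.LFunction s := by
  have hopen : IsOpen {z : ℂ | 0 < z.re} := isOpen_lt continuous_const continuous_re
  have hconv : Convex ℝ {z : ℂ | 0 < z.re} := convex_halfSpace_re_gt 0
  have hF : AnalyticOnNhd ℂ (LX χ) {z : ℂ | 0 < z.re} :=
    DifferentiableOn.analyticOnNhd
      (fun z hz => (LX_differentiableAt χ hz (Or.inl hχ)).differentiableWithinAt) hopen
  have hG : AnalyticOnNhd ℂ χ.LFunction {z : ℂ | 0 < z.re} :=
    DifferentiableOn.analyticOnNhd
      (fun z _ => (DirichletCharacter.differentiable_LFunction hχ z).differentiableWithinAt) hopen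
  have h2 : (2:ℂ) ∈ {z : ℂ | 0 < z.re} := by simp
  have hev : LX χ =ᶠ[nhds (2:ℂ)] χ.LFunction := by
    have : {z : ℂ | 1 < z.re} ∈ nhds (2:ℂ) :=
      (isOpen_lt continuous_const continuous_re).mem_nhds (by simp)
    filter_upwards [this] with z hz
    exact Pool.Agent.ANT.LX_eq_LFunction χ hz
  exact hF.eqOn_of_preconnected_of_eventuallyEq hG hconv.isPreconnected h2 hev hs

/-- Growth: `LX χ s = s * HInt χ 0 s` (`kap_eq_zero`, `Gx_zero`), `norm_HInt_le`, `norm_sum_Icc_char_le`. -/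
theorem LF_growth {r : ℕ} [NeZero r] {χ : DirichletCharacter ℂ r} (hχ : χ ≠ 1) {s : ℂ} (hs : 0 < s.re) :
    ‖χ.LFunction s‖ ≤ ‖s‖ * r / s.re := by
  rw [← LX_eq_LFunction hχ hs]
  unfold LX
  rw [kap_eq_zero hχ, Gx_zero]
  have h := norm_HInt_le (f := fun n => χ n) (κ := 0) (R1 := r) (fun u _ => by
    unfold Rem
    rw [zero_mul, sub_zero]
    exact norm_sum_Icc_char_le hχ _) hs
  simp only
  rw [norm_mul, mul_div_assoc]
  exact mul_le_mul_of_nonneg_left h (norm_nonneg _)

end Pool.Agent.MVD
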