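import Pool.Agent.MVD.LPZeroC

/-!
# Zero-free region for Dirichlet L-functions (uniform in the modulus) and Landau's repulsion theorem
-/

open Finset Complex

namespace Pool.Agent.MVD

open Pool.Agent.ANT

theorem lel_two_mul {r : ℕ} [NeZero r] {t u : ℝ} (h : |u| ≤ 2 * |t|) : lel r u ≤ 2 * lel r t := by
  unfold lel
  have hr : (1 : ℝ) ≤ r := by exact_mod_cast Nat.pos_of_ne_zero (NeZero.ne r)
  have h1 : (2 : ℝ) * Real.log (r * (|t| + 3)) = Real.log ((r * (|t| + 3)) ^ 2) := by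
    rw [Real.log_pow]; norm_num
  rw [h1]
  apply Real.log_le_log (by positivity)
  have h2 := abs_nonneg t
  have h3 : (r : ℝ) * (|u| + 3) ≤ r * (2 * |t| + 3) := by gcongr
  have h4 : 2 * |t| + 3 ≤ r * (|t| + 3) ^ 2 := by nlinarith
  calc (r : ℝ) * (|u| + 3) ≤ r * (2 * |t| + 3) := h3
    _ ≤ r * (r * (|t| + 3) ^ 2) := by gcongr
    _ = _ := by ring

theorem lel_zero_le {r : ℕ} [NeZero r] (t : ℝ) : lel r 0 ≤ lel r t := by
  unfold lel
  have hr : (1 : ℝ) ≤ r := by exact_mod_cast Nat.pos_of_ne_zero (NeZero.ne r)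
  have h := abs_nonneg t
  apply Real.log_le_log (by positivity)
  rw [abs_zero]
  gcongr

/-- a nontrivial character has modulus at least three; its `log` factor -/
theorem lel_le {r : ℕ} [NeZero r] (t : ℝ) (hr2 : 2 ≤ r) :
    lel r t ≤ 2 * Real.log (r * (|t| + 2)) := by
  unfold lel
  have hr : (2 : ℝ) ≤ r := by exact_mod_cast hr2
  have h1 : (2 : ℝ) * Real.log (r * (|t| + 2)) = Real.log ((r * (|t| + 2)) ^ 2) := by
    rw [Real.log_pow]; norm_num
  rw [h1]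
  apply Real.log_le_log (by positivity)
  have h2 := abs_nonneg t
  have h4 : |t| + 3 ≤ r * (|t| + 2) ^ 2 := by nlinarith
  calc (r : ℝ) * (|t| + 3) ≤ r * (r * (|t| + 2) ^ 2) := by gcongr
    _ = _ := by ring

theorem two_le_level {r : ℕ} [NeZero r] {χ : DirichletCharacter ℂ r} (hχ : χ ≠ 1) : 2 ≤ r := by
  have h0 : r ≠ 0 := NeZero.ne r
  have h1 : r ≠ 1 := by
    rintro rfl
    exact hχ (DirichletCharacter.level_one χ)
  omega

theorem re_inv_eq (x y : ℝ) : (1 / ((x : ℂ) + y * I)).re = x / (x ^ 2 + y ^ 2) := by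
  rw [one_div, Complex.inv_re, Complex.normSq_apply]
  simp
  ring_nf

/-- The core of the zero free region. -/
theorem zfr_core {r : ℕ} [NeZero r] {χ : DirichletCharacter ℂ r} (hχ : χ ≠ 1) {ρ : ℂ}
    (hρ : χ.LFunction ρ = 0) (hβ : 1 - 1 / (3600 * Kc * lel r ρ.im) < ρ.re) :
    χ ^ 2 = 1 ∧ ρ.im = 0 := by
  set β := ρ.re with hβd
  set γ := ρ.im with hγd
  set ℓ := lel r γ with hℓ
  have hℓ1 : 1 ≤ ℓ := one_le_lel γ
  have hK := Kc_ge
  have hβ1 : β ≤ 1 := by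
    by_contra hcon
    push Not at hcon
    exact DirichletCharacter.LFunction_ne_zero_of_one_le_re χ (Or.inl hχ) hcon.le hρ
  have hρe : ρ = β + γ * I := by
    apply Complex.ext <;> simp [hβd, hγd]
  set δ : ℝ := 1 / (150 * Kc * ℓ) with hδ
  have hKl : 6100 ≤ Kc * ℓ := by nlinarith
  have hδ0 : 0 < δ := by positivity
  have hδs : δ ≤ 1 / 100 := by
    rw [hδ]
    apply one_div_le_one_div_of_le (by norm_num)
    nlinarith
  have hc : 1 / (3600 * Kc * ℓ) = δ / 24 := by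
    rw [hδ]
    field_simp
    norm_num
  rw [hc] at hβ
  set σ : ℝ := 1 + δ with hσ
  have hσ1 : 1 < σ := by linarith
  have hσ2 : σ ≤ 51 / 50 := by linarith
  have hKδ : Kc * ℓ * δ = 1 / 150 := by
    rw [hδ]
    field_simp
  -- the basic upper bounds
  have hvm1 : vm (1 : DirichletCharacter ℂ r) σ ≤ 1 / δ + Kc * ℓ := by
    have h1 := vm_one_le (r := r) 0 hσ1 hσ2
    have e : (σ : ℂ) + ((0 : ℝ) : ℂ) * I = σ := by simp
    rw [e] at h1
    have e2 : ((σ : ℂ) - 1) = ((δ : ℝ) : ℂ) + ((0 : ℝ) : ℂ) * I := by rw [hσ]; push_cast; ring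
    rw [e2, re_inv_eq] at h1
    have e3 : δ / (δ ^ 2 + 0 ^ 2) = 1 / δ := by field_simp; ring
    rw [e3] at h1
    have h2 : lel r 0 ≤ ℓ := lel_zero_le γ
    have h3 : Kc * lel r 0 ≤ Kc * ℓ := mul_le_mul_of_nonneg_left h2 (by linarith)
    linarith
  have hdist : ‖ρ - ((51 / 50 : ℝ) + γ * I)‖ ≤ 1 / 4 := by
    rw [hρe]
    have : (β : ℂ) + γ * I - ((51 / 50 : ℝ) + γ * I) = ((β - 51 / 50 : ℝ) : ℂ) := by push_cast; ring
    rw [this, Complex.norm_real, Real.norm_eq_abs, abs_le]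
    constructor <;> linarith
  have hvmχ : vm χ (σ + γ * I) ≤ -(1 / (σ - β)) + Kc * ℓ := by
    have h1 := vm_le hχ γ {ρ} (by simpa using ⟨hρ, by simpa using hdist⟩) hσ1 hσ2
    rw [Finset.sum_singleton, hρe] at h1
    have e2 : (σ : ℂ) + γ * I - (β + γ * I) = ((σ - β : ℝ) : ℂ) + ((0 : ℝ) : ℂ) * I := by push_cast; ring
    rw [e2, re_inv_eq] at h1
    have h3 : σ - β ≠ 0 := by linarith
    have e3 : (σ - β) / ((σ - β) ^ 2 + 0 ^ 2) = 1 / (σ - β) := by field_simp; ring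
    rw [e3] at h1
    exact h1
  have h341 := three_four χ γ hσ1
  have hsb : 0 < σ - β := by linarith
  have hsb2 : σ - β ≤ 25 / 24 * δ := by linarith
  have hinv : 96 / (100 * δ) ≤ 1 / (σ - β) := by
    rw [div_le_div_iff₀ (by positivity) hsb]
    nlinarith
  have hδinv : Kc * ℓ = 1 / (150 * δ) := by
    rw [eq_div_iff (by positivity)]
    linarith
  have hlel2 : lel r (2 * γ) ≤ 2 * ℓ := lel_two_mul (by rw [abs_mul]; norm_num)
  by_cases hχ2 : χ ^ 2 = 1
  · refine ⟨hχ2, ?_⟩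
    by_contra hγ
    rw [hχ2] at h341
    have hvm2 := vm_one_le (r := r) (2 * γ) hσ1 hσ2
    have e2 : (σ : ℂ) + ((2 * γ : ℝ) : ℂ) * I - 1 = ((δ : ℝ) : ℂ) + ((2 * γ : ℝ) : ℂ) * I := by
      rw [hσ]; push_cast; ring
    rw [e2, re_inv_eq] at hvm2
    rcases le_or_gt (δ / 2) |γ| with hbig | hsmall
    · -- far from the real axis
      have h4 : δ / (δ ^ 2 + (2 * γ) ^ 2) ≤ 1 / (2 * δ) := by
        rw [div_le_div_iff₀ (by positivity) (by positivity)]
        have : δ ^ 2 ≤ (2 * γ) ^ 2 := by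
          have h5 : (2 * γ) ^ 2 = (2 * |γ|) ^ 2 := by rw [mul_pow, mul_pow, sq_abs]
          rw [h5]
          gcongr
          linarith
        nlinarith
      have h5 : Kc * lel r (2 * γ) ≤ 2 * (Kc * ℓ) := by
        calc Kc * lel r (2 * γ) ≤ Kc * (2 * ℓ) := mul_le_mul_of_nonneg_left hlel2 (by linarith)
          _ = _ := by ring
      have h6 : 0 ≤ 3 * (1 / δ + Kc * ℓ) + 4 * (-(96 / (100 * δ)) + Kc * ℓ) +
          (1 / (2 * δ) + 2 * (Kc * ℓ)) := by linarith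
      rw [hδinv] at h6
      have h7 : 3 * (1 / δ + 1 / (150 * δ)) + 4 * (-(96 / (100 * δ)) + 1 / (150 * δ)) +
          (1 / (2 * δ) + 2 * (1 / (150 * δ))) = (-(28 / 100)) / δ := by
        field_simp
        norm_num
      rw [h7] at h6
      have h8 : (-(28 / 100)) / δ < 0 := div_neg_of_neg_of_pos (by norm_num) hδ0
      linarith
    · -- close to the real axis: two zeros
      have hρ' : χ.LFunction ((starRingEnd ℂ) ρ) = 0 := by
        rw [LF_conj hχ2 hχ, hρ, map_zero]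
      have hne : ρ ≠ (starRingEnd ℂ) ρ := by
        intro h
        have := congrArg Complex.im h
        rw [Complex.conj_im] at this
        exact hγ (by linarith)
      have hcd : ∀ ε : ℝ, |ε| < δ / 2 → ‖((β : ℂ) + ε * I) - ((51 / 50 : ℝ) + ((0 : ℝ) : ℂ) * I)‖ ≤ 1 / 4 := by
        intro ε hε
        have : ((β : ℂ) + ε * I) - ((51 / 50 : ℝ) + ((0 : ℝ) : ℂ) * I) =
            ((β - 51 / 50 : ℝ) : ℂ) + ε * I := by push_cast; ring
        rw [this]
        refine (norm_add_le _ _).trans ?_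
        rw [Complex.norm_real, Real.norm_eq_abs, norm_mul, norm_I, mul_one, Complex.norm_real,
          Real.norm_eq_abs]
        have : |β - 51 / 50| ≤ 1 / 25 := by
          rw [abs_le]
          constructor <;> linarith
        linarith
      have hρ'e : (starRingEnd ℂ) ρ = β + ((-γ : ℝ) : ℂ) * I := by
        apply Complex.ext <;> simp [hβd, hγd]
      have h1 := vm_le hχ 0 {ρ, (starRingEnd ℂ) ρ} (by
        intro a ha
        rw [Finset.mem_insert, Finset.mem_singleton] at ha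
        rcases ha with rfl | rfl
        · refine ⟨hρ, ?_⟩
          have := hcd γ hsmall
          rwa [← hρe] at this
        · refine ⟨hρ', ?_⟩
          have := hcd (-γ) (by rwa [abs_neg])
          rwa [← hρ'e] at this) hσ1 hσ2
      rw [Finset.sum_pair hne, hρ'e, hρe] at h1
      have e3 : (σ : ℂ) + ((0 : ℝ) : ℂ) * I - (β + γ * I) = ((σ - β : ℝ) : ℂ) + ((-γ : ℝ) : ℂ) * I := by
        push_cast; ring
      have e4 : (σ : ℂ) + ((0 : ℝ) : ℂ) * I - (β + ((-γ : ℝ) : ℂ) * I) =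
          ((σ - β : ℝ) : ℂ) + ((γ : ℝ) : ℂ) * I := by
        push_cast; ring
      rw [e3, e4, re_inv_eq, re_inv_eq] at h1
      have e5 : (σ : ℂ) + ((0 : ℝ) : ℂ) * I = σ := by simp
      rw [e5] at h1
      have h0 := two_pos' hχ2 hσ1
      have h2 : lel r 0 ≤ ℓ := lel_zero_le γ
      have hg2 : γ ^ 2 ≤ δ ^ 2 / 4 := by
        rw [← sq_abs]
        nlinarith [abs_nonneg γ]
      have h3 : 74 / (100 * δ) ≤ (σ - β) / ((σ - β) ^ 2 + γ ^ 2) := by
        have h5 : δ ≤ σ - β := by linarith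
        clear_value σ β γ ℓ δ
        generalize σ - β = x at *
        rw [div_le_div_iff₀ (by positivity) (by positivity)]
        have h6 : 0 ≤ (x - δ) * (25 / 24 * δ - x) := mul_nonneg (by linarith) (by linarith)
        nlinarith
      have h4 : (σ - β) / ((σ - β) ^ 2 + (-γ) ^ 2) = (σ - β) / ((σ - β) ^ 2 + γ ^ 2) := by
        rw [neg_sq]
      rw [h4] at h1
      have h5 : Kc * lel r 0 ≤ Kc * ℓ := mul_le_mul_of_nonneg_left h2 (by linarith)
      have h6 : 0 ≤ 1 / δ + Kc * ℓ + (-(74 / (100 * δ) + 74 / (100 * δ)) + Kc * ℓ) := by linarith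
      rw [hδinv] at h6
      have h7 : 1 / δ + 1 / (150 * δ) + (-(74 / (100 * δ) + 74 / (100 * δ)) + 1 / (150 * δ)) =
          (-(7 / 15)) / δ := by
        field_simp
        norm_num
      rw [h7] at h6
      have h8 : (-(7 / 15)) / δ < 0 := div_neg_of_neg_of_pos (by norm_num) hδ0
      linarith
  · exfalso
    have hvm2 := vm_le hχ2 (2 * γ) ∅ (by simp) hσ1 hσ2
    rw [Finset.sum_empty] at hvm2
    have h5 : Kc * lel r (2 * γ) ≤ 2 * (Kc * ℓ) := by
      calc Kc * lel r (2 * γ) ≤ Kc * (2 * ℓ) := mul_le_mul_of_nonneg_left hlel2 (by linarith)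
        _ = _ := by ring
    have h6 : 0 ≤ 3 * (1 / δ + Kc * ℓ) + 4 * (-(96 / (100 * δ)) + Kc * ℓ) +
        (2 * (Kc * ℓ)) := by linarith
    rw [hδinv] at h6
    have h7 : 3 * (1 / δ + 1 / (150 * δ)) + 4 * (-(96 / (100 * δ)) + 1 / (150 * δ)) +
        (2 * (1 / (150 * δ))) = (-(78 / 100)) / δ := by
      field_simp
      norm_num
    rw [h7] at h6
    have h8 : (-(78 / 100)) / δ < 0 := div_neg_of_neg_of_pos (by norm_num) hδ0
    linarith

/-- The classical zero-free region: a zero close to the line `Re s = 1` is real and the character is real. -/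
theorem zfr : ∃ c : ℝ, 0 < c ∧ ∀ (r : ℕ) [NeZero r] (χ : DirichletCharacter ℂ r), χ ≠ 1 →
    ∀ ρ : ℂ, χ.LFunction ρ = 0 → 1 - c / Real.log (r * (|ρ.im| + 2)) < ρ.re →
      χ ^ 2 = 1 ∧ ρ.im = 0 := by
  have hK := Kc_ge
  refine ⟨1 / (7200 * Kc), by positivity, fun r _ χ hχ ρ hρ hβ => zfr_core hχ hρ ?_⟩
  refine lt_of_le_of_lt ?_ hβ
  have h2 := two_le_level hχ
  have hr : (2 : ℝ) ≤ r := by exact_mod_cast h2
  have h3 := lel_le (r := r) ρ.im h2
  have h4 := one_le_lel (r := r) ρ.im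
  have h5 : 0 < Real.log (r * (|ρ.im| + 2)) := by linarith
  have h6 : 1 / (7200 * Kc) / Real.log (r * (|ρ.im| + 2)) ≤ 1 / (3600 * Kc * lel r ρ.im) := by
    rw [div_div]
    apply one_div_le_one_div_of_le (by positivity)
    nlinarith
  linarith

/-- Landau for two characters of the same modulus. -/
theorem landau_same {r : ℕ} [NeZero r] {χ ψ : DirichletCharacter ℂ r} (hχ2 : χ ^ 2 = 1)
    (hψ2 : ψ ^ 2 = 1) (hχ : χ ≠ 1) (hψ : ψ ≠ 1) (hχψ : χ * ψ ≠ 1) {β₁ β₂ : ℝ}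
    (h1 : χ.LFunction β₁ = 0) (h2 : ψ.LFunction β₂ = 0) :
    min β₁ β₂ ≤ 1 - 1 / (3600 * Kc * lel r 0) := by
  by_contra hcon
  push Not at hcon
  rw [lt_min_iff] at hcon
  obtain ⟨hb1, hb2⟩ := hcon
  have hK := Kc_ge
  set ℓ := lel r 0 with hℓ
  have hℓ1 : 1 ≤ ℓ := one_le_lel 0
  have hle : ∀ {η : DirichletCharacter ℂ r} {β : ℝ}, η ≠ 1 → η.LFunction β = 0 → β ≤ 1 := by
    intro η β hη h
    by_contra hcon
    push Not at hcon
    exact DirichletCharacter.LFunction_ne_zero_of_one_le_re η (Or.inl hη)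
      (s := (β : ℂ)) (by simpa using hcon.le) h
  have h3 := hle hχ h1
  have h4 := hle hψ h2
  set δ : ℝ := 1 / (150 * Kc * ℓ) with hδ
  have hKl : 6100 ≤ Kc * ℓ := by nlinarith
  have hδ0 : 0 < δ := by positivity
  have hδs : δ ≤ 1 / 100 := by
    rw [hδ]
    apply one_div_le_one_div_of_le (by norm_num)
    nlinarith
  have hc : 1 / (3600 * Kc * ℓ) = δ / 24 := by
    rw [hδ]
    field_simp
    norm_num
  rw [hc] at hb1 hb2
  set σ : ℝ := 1 + δ with hσ
  have hσ1 : 1 < σ := by linarith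
  have hσ2 : σ ≤ 51 / 50 := by linarith
  have hKδ : Kc * ℓ * δ = 1 / 150 := by
    rw [hδ]
    field_simp
  have hδinv : Kc * ℓ = 1 / (150 * δ) := by
    rw [eq_div_iff (by positivity)]
    linarith
  have e : (σ : ℂ) + ((0 : ℝ) : ℂ) * I = σ := by simp
  have hvm1 : vm (1 : DirichletCharacter ℂ r) σ ≤ 1 / δ + Kc * ℓ := by
    have h1 := vm_one_le (r := r) 0 hσ1 hσ2
    rw [e] at h1
    have e2 : ((σ : ℂ) - 1) = ((δ : ℝ) : ℂ) + ((0 : ℝ) : ℂ) * I := by rw [hσ]; push_cast; ring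
    rw [e2, re_inv_eq] at h1
    have e3 : δ / (δ ^ 2 + 0 ^ 2) = 1 / δ := by field_simp; ring
    rw [e3] at h1
    exact h1
  have hz : ∀ {η : DirichletCharacter ℂ r} {β : ℝ}, η ≠ 1 → η.LFunction β = 0 → 1 - δ / 24 < β →
      vm η σ ≤ -(96 / (100 * δ)) + Kc * ℓ := by
    intro η β hη h hb
    have hβ1 := hle hη h
    have h1 := vm_le hη 0 {(β : ℂ)} (by
      intro a ha
      rw [Finset.mem_singleton] at ha
      subst ha
      refine ⟨h, ?_⟩
      have : (β : ℂ) - ((51 / 50 : ℝ) + ((0 : ℝ) : ℂ) * I) = ((β - 51 / 50 : ℝ) : ℂ) := by push_cast; ring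
      rw [this, Complex.norm_real, Real.norm_eq_abs, abs_le]
      constructor <;> linarith) hσ1 hσ2
    rw [Finset.sum_singleton, e] at h1
    have e2 : (σ : ℂ) - β = ((σ - β : ℝ) : ℂ) + ((0 : ℝ) : ℂ) * I := by push_cast; ring
    rw [e2, re_inv_eq] at h1
    have h3 : σ - β ≠ 0 := by linarith
    have e3 : (σ - β) / ((σ - β) ^ 2 + 0 ^ 2) = 1 / (σ - β) := by field_simp; ring
    rw [e3] at h1
    have hsb : 0 < σ - β := by linarith
    have hinv : 96 / (100 * δ) ≤ 1 / (σ - β) := by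
      rw [div_le_div_iff₀ (by positivity) hsb]
      nlinarith
    linarith
  have h5 := hz hχ h1 hb1
  have h6 := hz hψ h2 hb2
  have h7 := vm_le hχψ 0 ∅ (by simp) hσ1 hσ2
  rw [Finset.sum_empty, e] at h7
  have h8 := four_pos hχ2 hψ2 hσ1
  have h9 : 0 ≤ 1 / δ + Kc * ℓ + 2 * (-(96 / (100 * δ)) + Kc * ℓ) + Kc * ℓ := by linarith
  rw [hδinv] at h9
  have h10 : 1 / δ + 1 / (150 * δ) + 2 * (-(96 / (100 * δ)) + 1 / (150 * δ)) + 1 / (150 * δ) =
      (-(268 / 300)) / δ := by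
    field_simp
    norm_num
  rw [h10] at h9
  have h11 : (-(268 / 300)) / δ < 0 := div_neg_of_neg_of_pos (by norm_num) hδ0
  linarith

/-- Landau's theorem: real zeros of L-functions of two different real primitive characters repel each other. -/
theorem landau_zeros : ∃ c : ℝ, 0 < c ∧ ∀ (r₁ r₂ : ℕ) [NeZero r₁] [NeZero r₂]
    (χ₁ : DirichletCharacter ℂ r₁) (χ₂ : DirichletCharacter ℂ r₂), χ₁.IsPrimitive → χ₂.IsPrimitive →
    χ₁ ^ 2 = 1 → χ₂ ^ 2 = 1 → χ₁ ≠ 1 → χ₂ ≠ 1 → r₁ ≠ r₂ → ∀ β₁ β₂ : ℝ,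
    χ₁.LFunction β₁ = 0 → χ₂.LFunction β₂ = 0 →
      min β₁ β₂ ≤ 1 - c / Real.log (r₁ * r₂) := by
  have hK := Kc_ge
  refine ⟨1 / (7200 * Kc), by positivity, ?_⟩
  intro r₁ r₂ _ _ χ₁ χ₂ hp1 hp2 hs1 hs2 hn1 hn2 hne β₁ β₂ hz1 hz2
  have hd1 : r₁ ∣ r₁ * r₂ := dvd_mul_right _ _
  have hd2 : r₂ ∣ r₁ * r₂ := dvd_mul_left _ _
  set ψ₁ := DirichletCharacter.changeLevel hd1 χ₁ with hψ1
  set ψ₂ := DirichletCharacter.changeLevel hd2 χ₂ with hψ2
  have ha1 : ψ₁ ^ 2 = 1 := by rw [hψ1, ← map_pow, hs1, map_one]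
  have ha2 : ψ₂ ^ 2 = 1 := by rw [hψ2, ← map_pow, hs2, map_one]
  have hb1 : ψ₁ ≠ 1 := fun h => hn1 ((DirichletCharacter.changeLevel_eq_one_iff hd1).mp h)
  have hb2 : ψ₂ ≠ 1 := fun h => hn2 ((DirichletCharacter.changeLevel_eq_one_iff hd2).mp h)
  have hb3 : ψ₁ * ψ₂ ≠ 1 := by
    intro h
    have h1 : ψ₁ = ψ₂ := by
      calc ψ₁ = ψ₁ * ψ₂ ^ 2 := by rw [ha2, mul_one]
        _ = (ψ₁ * ψ₂) * ψ₂ := by rw [sq, mul_assoc]
        _ = ψ₂ := by rw [h, one_mul]
    have h2 := DirichletCharacter.conductor_changeLevel χ₁ hd1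
    have h3 := DirichletCharacter.conductor_changeLevel χ₂ hd2
    rw [← hψ1, h1] at h2
    rw [← hψ2] at h3
    have h4 : χ₁.conductor = r₁ := hp1
    have h5 : χ₂.conductor = r₂ := hp2
    exact hne (by rw [← h4, ← h5, ← h2, ← h3])
  have hc1 : ψ₁.LFunction β₁ = 0 := by
    rw [hψ1, DirichletCharacter.LFunction_changeLevel hd1 χ₁ (Or.inl hn1), hz1, zero_mul]
  have hc2 : ψ₂.LFunction β₂ = 0 := by
    rw [hψ2, DirichletCharacter.LFunction_changeLevel hd2 χ₂ (Or.inl hn2), hz2, zero_mul]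
  have key := landau_same ha1 ha2 hb1 hb2 hb3 hc1 hc2
  refine key.trans ?_
  have h1 := two_le_level hn1
  have h2 := two_le_level hn2
  have hr1 : (2 : ℝ) ≤ r₁ := by exact_mod_cast h1
  have hr2 : (2 : ℝ) ≤ r₂ := by exact_mod_cast h2
  have h3 : lel (r₁ * r₂) 0 ≤ 2 * Real.log (r₁ * r₂) := by
    unfold lel
    have h4 : (2 : ℝ) * Real.log (r₁ * r₂) = Real.log (((r₁ : ℝ) * r₂) ^ 2) := by
      rw [Real.log_pow]; norm_num
    rw [h4]
    apply Real.log_le_log (by positivity)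
    push_cast
    rw [abs_zero]
    have h5 : (4 : ℝ) ≤ r₁ * r₂ := by nlinarith
    nlinarith
  have h4 := one_le_lel (r := r₁ * r₂) 0
  have h5 : 0 < Real.log ((r₁ : ℝ) * r₂) := by linarith
  have h6 : 1 / (7200 * Kc) / Real.log (r₁ * r₂) ≤ 1 / (3600 * Kc * lel (r₁ * r₂) 0) := by
    rw [div_div]
    apply one_div_le_one_div_of_le (by positivity)
    nlinarith
  linarith

end Pool.Agent.MVD
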