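import Pool.Agent.MVD.LPBadZ
import Pool.Agent.MVD.LPZero

set_option autoImplicit false

open Complex

namespace Pool.Agent.MVD

namespace LPFinalAux

/-- the conditions on the size -/
theorem large {c : ℝ} (hc : 0 < c) (n : ℕ) (hn : 1 ≤ n) : ∃ X₁ : ℕ, ∀ X : ℕ, X₁ ≤ X →
    2 ≤ Real.log X ∧ 0 < Real.log (Real.log X) ∧
      Real.log (Real.log X ^ n + 2) ≤ c * Real.log X / Real.log (Real.log X) := by
  have h1 : Filter.Tendsto (fun X : ℕ => Real.log (X : ℝ)) Filter.atTop Filter.atTop :=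
    Real.tendsto_log_atTop.comp tendsto_natCast_atTop_atTop
  have h2 := (Real.isLittleO_pow_log_id_atTop (n := 2)).comp_tendsto h1
  have hpos : 0 < c / ((n : ℝ) + 1) := by positivity
  have h3 := h2.bound hpos
  have h4 := h1.eventually (Filter.eventually_ge_atTop (2 : ℝ))
  obtain ⟨X₁, hX⟩ := Filter.eventually_atTop.1 (h3.and h4)
  refine ⟨X₁, fun X hXX => ?_⟩
  obtain ⟨h5, h6⟩ := hX X hXX
  have hL : 0 < Real.log X := by linarith
  have hl : 0 < Real.log (Real.log X) := Real.log_pos (by linarith)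
  refine ⟨h6, hl, ?_⟩
  simp only [Function.comp_apply, id_eq, Real.norm_eq_abs] at h5
  rw [abs_of_nonneg (by positivity), abs_of_pos hL] at h5
  have hLn : Real.log X ≤ Real.log X ^ n := by
    calc Real.log X = Real.log X ^ 1 := (pow_one _).symm
      _ ≤ Real.log X ^ n := pow_le_pow_right₀ (by linarith) hn
  have h7 : Real.log X ^ n + 2 ≤ Real.log X ^ (n + 1) := by
    rw [pow_succ]
    nlinarith
  have h8 : Real.log (Real.log X ^ n + 2) ≤ ((n : ℝ) + 1) * Real.log (Real.log X) := by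
    have := Real.log_le_log (by positivity) h7
    rw [Real.log_pow] at this
    push_cast at this
    exact this
  refine h8.trans ?_
  rw [le_div_iff₀ hl]
  have h9 : ((n : ℝ) + 1) * (Real.log (Real.log X) ^ 2) ≤ c * Real.log X := by
    calc ((n : ℝ) + 1) * (Real.log (Real.log X) ^ 2)
        ≤ ((n : ℝ) + 1) * (c / ((n : ℝ) + 1) * Real.log X) :=
          mul_le_mul_of_nonneg_left h5 (by positivity)
      _ = c * Real.log X := by field_simp
  calc ((n : ℝ) + 1) * Real.log (Real.log X) * Real.log (Real.log X)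
      = ((n : ℝ) + 1) * (Real.log (Real.log X) ^ 2) := by ring
    _ ≤ c * Real.log X := h9

theorem ne_one {r : ℕ} (hr : 2 ≤ r) {χ : DirichletCharacter ℂ r} (h : χ.IsPrimitive) : χ ≠ 1 := by
  intro h1
  rw [h1] at h
  have h2 : (1 : DirichletCharacter ℂ r).conductor = r := h
  have : NeZero r := ⟨by omega⟩
  rw [DirichletCharacter.conductor_one] at h2
  omega

end LPFinalAux

open LPFinalAux

/-- comparison of the thresholds at comparable sizes -/
theorem LPFinalAux.comp {c : ℝ} (hc : 0 < c) : ∃ Z₁ : ℕ, ∀ Z : ℕ, Z₁ ≤ Z → ∀ X : ℕ, Z ≤ 2 * X → X ≤ 2 * Z →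
    0 < Real.log Z ∧ 0 < Real.log (Real.log Z) ∧
    (c / 2) * Real.log Z / Real.log (Real.log Z) ≤ c * Real.log X / Real.log (Real.log X) := by
  have h1 : Filter.Tendsto (fun Z : ℕ => Real.log (Z : ℝ)) Filter.atTop Filter.atTop :=
    Real.tendsto_log_atTop.comp tendsto_natCast_atTop_atTop
  obtain ⟨Z₁, hZ₁⟩ := Filter.eventually_atTop.1 (h1.eventually (Filter.eventually_ge_atTop (4 : ℝ)))
  refine ⟨max Z₁ 1, fun Z hZ X hX1 hX2 => ?_⟩
  have hL : 4 ≤ Real.log Z := hZ₁ Z ((le_max_left _ _).trans hZ)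
  have hZ0 : (0 : ℝ) < Z := by
    have : 0 < Z := (le_max_right _ _).trans hZ
    exact_mod_cast this
  have hX0 : (0 : ℝ) < X := by
    have h2 : 0 < Z := (le_max_right _ _).trans hZ
    have : 0 < X := by omega
    exact_mod_cast this
  have a1 : (Z : ℝ) ≤ 2 * X := by exact_mod_cast hX1
  have a2 : (X : ℝ) ≤ 2 * Z := by exact_mod_cast hX2
  have b1 := Real.log_le_log hZ0 a1
  have b2 := Real.log_le_log hX0 a2
  rw [Real.log_mul (by norm_num) hX0.ne'] at b1
  rw [Real.log_mul (by norm_num) hZ0.ne'] at b2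
  have l2 := Real.log_two_lt_d9
  have l3 := Real.log_two_gt_d9
  have d1 : 3 / 4 * Real.log Z ≤ Real.log X := by linarith
  have d2 : Real.log X ≤ 2 * Real.log Z := by linarith
  have hLX : 3 ≤ Real.log X := by linarith
  have e1 : 0 < Real.log (Real.log Z) := Real.log_pos (by linarith)
  have e2 : 0 < Real.log (Real.log X) := Real.log_pos (by linarith)
  have e3 : Real.log (Real.log X) ≤ 3 / 2 * Real.log (Real.log Z) := by
    have f1 := Real.log_le_log (by linarith) d2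
    rw [Real.log_mul (by norm_num) (by linarith)] at f1
    have f2 : 2 * Real.log 2 ≤ Real.log (Real.log Z) := by
      have f3 := Real.log_le_log (by norm_num) hL
      have f4 : Real.log 4 = 2 * Real.log 2 := by
        rw [show (4 : ℝ) = 2 ^ 2 by norm_num, Real.log_pow]
        norm_num
      linarith
    linarith
  refine ⟨by linarith, e1, ?_⟩
  rw [div_le_div_iff₀ e1 e2]
  have g1 : Real.log Z * Real.log (Real.log X) ≤ Real.log Z * (3 / 2 * Real.log (Real.log Z)) :=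
    mul_le_mul_of_nonneg_left e3 (by linarith)
  have g2 : 3 / 4 * Real.log Z * Real.log (Real.log Z) ≤ Real.log X * Real.log (Real.log Z) :=
    mul_le_mul_of_nonneg_right d1 e1.le
  have g3 : c / 2 * (Real.log Z * Real.log (Real.log X)) ≤
      c / 2 * (Real.log Z * (3 / 2 * Real.log (Real.log Z))) :=
    mul_le_mul_of_nonneg_left g1 (by positivity)
  have g4 : c * (3 / 4 * Real.log Z * Real.log (Real.log Z)) ≤
      c * (Real.log X * Real.log (Real.log Z)) := mul_le_mul_of_nonneg_left g2 hc.le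
  have g5 : c / 2 * (Real.log Z * (3 / 2 * Real.log (Real.log Z))) =
      c * (3 / 4 * Real.log Z * Real.log (Real.log Z)) := by ring
  calc c / 2 * Real.log Z * Real.log (Real.log X) = c / 2 * (Real.log Z * Real.log (Real.log X)) := by ring
    _ ≤ c * (Real.log X * Real.log (Real.log Z)) := by linarith
    _ = c * Real.log X * Real.log (Real.log Z) := by ring

/-- Landau-Page for bad moduli, uniformly for `X` of size about `Z`. Use `bad_zero` with
`c' = min c₁ c₂ / 4`; for `r < e^T`, `T = (c/2) log Z / log log Z ≤ c log X / log log X`, the zero `ρ` has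
`Re ρ > 1 - c' log log X / (c log X)`, hence `ρ` is real and `χ` real by `zfr`; two different moduli contradict
`landau_zeros` because `log (r₁ r₂) ≤ 2 T`. Primitive characters of modulus `r ≥ 2` are not `1`. -/
theorem bad_LP_unif {κ : ℝ} (hκ : 0 < κ) (hκ1 : κ ≤ 1 / 1000) (b : ℕ) : ∃ c : ℝ, 0 < c ∧ ∃ Z₀ : ℕ, ∀ Z : ℕ, Z₀ ≤ Z →
    ∃ r₀ : ℕ, ∀ X : ℕ, Z ≤ 2 * X → X ≤ 2 * Z → ∀ r : ℕ, BadR κ b X r → r ≠ r₀ →
      Real.exp (c * Real.log Z / Real.log (Real.log Z)) ≤ r := by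
  obtain ⟨c₁, hc₁, H1⟩ := zfr
  obtain ⟨c₂, hc₂, H2⟩ := landau_zeros
  have hc' : 0 < min c₁ c₂ / 4 := by
    have := lt_min hc₁ hc₂
    linarith
  have hc1' : 2 * (min c₁ c₂ / 4) ≤ c₁ := by
    have := min_le_left c₁ c₂
    linarith
  have hc2' : 2 * (min c₁ c₂ / 4) ≤ c₂ := by
    have := min_le_right c₁ c₂
    linarith
  obtain ⟨c, hc, X₀, H3⟩ := bad_zero hκ hκ1 b hc'
  obtain ⟨X₁, H4⟩ := large hc (3 * b + 11) (by omega)
  obtain ⟨Z₁, H5⟩ := comp hc
  refine ⟨c / 2, by positivity, max Z₁ (2 * (X₀ + X₁)), fun Z hZ => ?_⟩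
  set T : ℝ := c / 2 * Real.log Z / Real.log (Real.log Z) with hT0
  have hXX : ∀ X : ℕ, Z ≤ 2 * X → X₀ ≤ X ∧ X₁ ≤ X := by
    intro X h
    have := (le_max_right _ _).trans hZ
    omega
  have hTpos : 0 < T := by
    obtain ⟨p1, p2, -⟩ := H5 Z ((le_max_left _ _).trans hZ) Z (by omega) (by omega)
    positivity
  -- the zero of a small bad modulus
  have key : ∀ X : ℕ, Z ≤ 2 * X → X ≤ 2 * Z → ∀ r : ℕ, BadR κ b X r → (r : ℝ) < Real.exp T →
      ∃ _ : NeZero r, ∃ χ : DirichletCharacter ℂ r, χ.IsPrimitive ∧ χ ^ 2 = 1 ∧ χ ≠ 1 ∧ ∃ β : ℝ,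
        χ.LFunction β = 0 ∧ 1 - (min c₁ c₂ / 4) / T < β := by
    intro X hX1 hX2 r hr hrT
    obtain ⟨-, -, hTX⟩ := H5 Z ((le_max_left _ _).trans hZ) X hX1 hX2
    obtain ⟨hx0, hx1⟩ := hXX X hX1
    obtain ⟨hL, hl, hTl⟩ := H4 X hx1
    have hL0 : 0 < Real.log X := by linarith
    set W : ℝ := c * Real.log X / Real.log (Real.log X) with hW
    have hW0 : 0 < W := by positivity
    have hr2 : 2 ≤ r := hr.1
    have : NeZero r := ⟨by omega⟩
    have hrW : (r : ℝ) < Real.exp W := lt_of_lt_of_le hrT (Real.exp_le_exp.2 hTX)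
    obtain ⟨χ, hχ, ρ, h0, him, hre⟩ := H3 X hx0 r hr hrW
    have hχ1 := ne_one hr2 hχ
    have hre' : 1 - (min c₁ c₂ / 4) / W < ρ.re := by
      have e : (min c₁ c₂ / 4) * Real.log (Real.log X) / (c * Real.log X) =
          (min c₁ c₂ / 4) / W := by
        rw [hW]; field_simp
      rw [e] at hre
      exact hre
    have hr0 : (2 : ℝ) ≤ r := by exact_mod_cast hr2
    have hi0 : 0 ≤ |ρ.im| := abs_nonneg _
    have hlog0 : 0 < Real.log (r * (|ρ.im| + 2)) := by
      apply Real.log_pos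
      nlinarith
    have hlog : Real.log (r * (|ρ.im| + 2)) ≤ 2 * W := by
      rw [Real.log_mul (by positivity) (by positivity)]
      have h1 : Real.log r ≤ W := by
        have := Real.log_le_log (by positivity) hrW.le
        rwa [Real.log_exp] at this
      have h2 : Real.log (|ρ.im| + 2) ≤ W :=
        (Real.log_le_log (by positivity) (by linarith)).trans hTl
      linarith
    have h3 : 1 - c₁ / Real.log (r * (|ρ.im| + 2)) < ρ.re := by
      refine lt_of_le_of_lt ?_ hre'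
      have : (min c₁ c₂ / 4) / W ≤ c₁ / Real.log (r * (|ρ.im| + 2)) := by
        rw [div_le_div_iff₀ hW0 hlog0]
        calc (min c₁ c₂ / 4) * Real.log (r * (|ρ.im| + 2)) ≤ (min c₁ c₂ / 4) * (2 * W) :=
              mul_le_mul_of_nonneg_left hlog hc'.le
          _ = 2 * (min c₁ c₂ / 4) * W := by ring
          _ ≤ c₁ * W := mul_le_mul_of_nonneg_right hc1' hW0.le
      linarith
    obtain ⟨h4, h5⟩ := H1 r χ hχ1 ρ h0 h3
    refine ⟨inferInstance, χ, hχ, h4, hχ1, ρ.re, ?_, ?_⟩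
    · have : ((ρ.re : ℝ) : ℂ) = ρ := by
        apply Complex.ext
        · simp
        · simp [h5]
      rw [this]
      exact h0
    · have : (min c₁ c₂ / 4) / W ≤ (min c₁ c₂ / 4) / T :=
        div_le_div_of_nonneg_left hc'.le hTpos hTX
      linarith
  by_cases hex : ∃ X, Z ≤ 2 * X ∧ X ≤ 2 * Z ∧ ∃ r, BadR κ b X r ∧ (r : ℝ) < Real.exp T
  · obtain ⟨X₂, hX₂, hX₂', r₀, hb0, hr0⟩ := hex
    refine ⟨r₀, fun X hX1 hX2 r hb hne => ?_⟩
    by_contra hlt
    rw [not_le] at hlt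
    obtain ⟨_, χ₁, hp₁, hs₁, hn₁, β₁, hz₁, hβ₁⟩ := key X hX1 hX2 r hb hlt
    obtain ⟨_, χ₂, hp₂, hs₂, hn₂, β₂, hz₂, hβ₂⟩ := key X₂ hX₂ hX₂' r₀ hb0 hr0
    have h5 := H2 r r₀ χ₁ χ₂ hp₁ hp₂ hs₁ hs₂ hn₁ hn₂ hne β₁ β₂ hz₁ hz₂
    have h6 : 1 - (min c₁ c₂ / 4) / T < min β₁ β₂ := lt_min hβ₁ hβ₂
    have hr2 : (2 : ℝ) ≤ r := by exact_mod_cast hb.1
    have hr2' : (2 : ℝ) ≤ r₀ := by exact_mod_cast hb0.1
    have hlog0 : 0 < Real.log (r * r₀) := by
      apply Real.log_pos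
      nlinarith
    have hlog : Real.log (r * r₀) ≤ 2 * T := by
      rw [Real.log_mul (by positivity) (by positivity)]
      have h1 : Real.log r ≤ T := by
        have := Real.log_le_log (by positivity) hlt.le
        rwa [Real.log_exp] at this
      have h2 : Real.log r₀ ≤ T := by
        have := Real.log_le_log (by positivity) hr0.le
        rwa [Real.log_exp] at this
      linarith
    have h7 : (min c₁ c₂ / 4) / T ≤ c₂ / Real.log (r * r₀) := by
      rw [div_le_div_iff₀ hTpos hlog0]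
      calc (min c₁ c₂ / 4) * Real.log (r * r₀) ≤ (min c₁ c₂ / 4) * (2 * T) :=
            mul_le_mul_of_nonneg_left hlog hc'.le
        _ = 2 * (min c₁ c₂ / 4) * T := by ring
        _ ≤ c₂ * T := mul_le_mul_of_nonneg_right hc2' hTpos.le
    linarith
  · refine ⟨0, fun X hX1 hX2 r hb _ => ?_⟩
    by_contra hlt
    rw [not_le] at hlt
    exact hex ⟨X, hX1, hX2, r, hb, hlt⟩

/-- Landau-Page for bad moduli (this is `bad_LP` of `BadIface`). -/
theorem bad_LP' {κ : ℝ} (hκ : 0 < κ) (hκ1 : κ ≤ 1 / 1000) (b : ℕ) : ∃ c : ℝ, 0 < c ∧ ∃ X₀ : ℕ, ∀ X : ℕ, X₀ ≤ X →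
    ∃ r₀ : ℕ, ∀ r : ℕ, BadR κ b X r → r ≠ r₀ →
      Real.exp (c * Real.log X / Real.log (Real.log X)) ≤ r := by
  obtain ⟨c, hc, Z₀, h⟩ := bad_LP_unif hκ hκ1 b
  refine ⟨c, hc, Z₀, fun X hX => ?_⟩
  obtain ⟨r₀, hr⟩ := h X hX
  exact ⟨r₀, fun r hb hne => hr X (by omega) (by omega) r hb hne⟩

end Pool.Agent.MVD
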