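import Mathlib
import Pool.Agent.Lib.ANT.Perron

/-!
The exact formula for Riesz means.
-/

set_option autoImplicit false

open Complex MeasureTheory Set Filter Asymptotics Topology

namespace Pool.Agent.MVD

open Pool.Agent.ANT

/-- Exact formula for the Riesz mean; this is inside the proof of `Pool.Agent.ANT.riesz_bound`
(the facts `hfin`, `hsumF`, `hmain.tsum_eq`), please copy that proof. -/
theorem riesz_formula {a : ℕ → ℂ} {σ x : ℝ} (hσ : 1 ≤ σ) (hx : 0 < x) (hsum : LSeriesSummable a (σ : ℂ)) :
    (2 * Real.pi : ℝ) * ∑ n ∈ Finset.Icc 1 ⌊x⌋₊, a n * ((1 - n / x : ℝ) : ℂ) =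
      ∫ t : ℝ, LSeries a (σ + t * I) * (x : ℂ) ^ ((σ : ℂ) + t * I) * rieszM (σ + t * I) := by
  set F : ℕ → ℝ → ℂ := fun n t => LSeries.term a (σ + t * I) n * (x:ℂ) ^ ((σ:ℂ) + t * I) *
    rieszM (σ + t * I) with hF
  have hnorm : ∀ n t, ‖F n t‖ = ‖LSeries.term a σ n‖ * x ^ σ * ‖rieszM (σ + t * I)‖ := by
    intro n t
    rw [hF]
    simp only [norm_mul]
    congr 2
    · rw [LSeries.norm_term_eq, LSeries.norm_term_eq]
      simp
    · rw [Complex.norm_cpow_eq_rpow_re_of_pos hx]
      simp
  have hmeas : ∀ n, Continuous (F n) := by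
    intro n
    rw [hF]
    refine Continuous.mul (Continuous.mul ?_ ?_) (continuous_rieszM hσ)
    · rcases eq_or_ne n 0 with rfl | hn
      · simp only [LSeries.term_zero]; exact continuous_const
      · have hn' : (n:ℂ) ≠ 0 := by exact_mod_cast hn
        have : (fun t : ℝ => LSeries.term a (σ + t * I) n) =
            fun t : ℝ => a n * (n:ℂ) ^ (-((σ:ℂ) + t * I)) := by
          ext t
          rw [LSeries.term_of_ne_zero hn, cpow_neg, div_eq_mul_inv]
        rw [this]
        refine continuous_const.mul ?_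
        exact Continuous.const_cpow (continuous_vert σ).neg (Or.inl hn')
    · exact Continuous.const_cpow (continuous_vert σ) (Or.inl (by exact_mod_cast hx.ne'))
  have hint : ∀ n, Integrable (F n) := by
    intro n
    have h1 : Integrable (fun t : ℝ => ‖LSeries.term a σ n‖ * x ^ σ * ‖rieszM (σ + t * I)‖) :=
      (integrable_rieszM hσ).norm.const_mul _
    refine h1.mono' (hmeas n).aestronglyMeasurable (Eventually.of_forall fun t => ?_)
    exact (hnorm n t).le
  have hsumm : Summable fun n => ∫ t, ‖F n t‖ := by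
    have : (fun n => ∫ t, ‖F n t‖) = fun n => ‖LSeries.term a σ n‖ *
        (x ^ σ * ∫ t : ℝ, ‖rieszM (σ + t * I)‖) := by
      ext n
      simp only [hnorm]
      rw [integral_const_mul]
      ring
    rw [this]
    exact hsum.norm.mul_right _
  have hmain := hasSum_integral_of_summable_integral_norm hint hsumm
  have hterm : ∀ n, ∫ t, F n t = if n = 0 then 0 else
      (2 * Real.pi : ℝ) * (a n * ((max (1 - n / x) 0 : ℝ) : ℂ)) := by
    intro n
    rcases eq_or_ne n 0 with rfl | hn
    · simp [hF]
    · rw [if_neg hn]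
      have hnx : (0:ℝ) < n / x := by
        have : (0:ℝ) < n := by exact_mod_cast Nat.pos_of_ne_zero hn
        positivity
      rw [← riesz_inversion hσ hnx]
      have : ∀ t, F n t = a n * ((((n / x : ℝ)) : ℂ) ^ (-((σ:ℂ) + t * I)) * rieszM (σ + t * I)) := by
        intro t
        rw [hF]
        simp only
        rw [term_mul_eq hn hx]; ring
      simp only [this]
      rw [integral_const_mul]
      rw [real_smul]
      have hpi : ((2 * Real.pi : ℝ) : ℂ) * ((1 / (2 * Real.pi) : ℝ) : ℂ) = 1 := by
        rw [← ofReal_mul]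
        have : 2 * Real.pi * (1 / (2 * Real.pi)) = 1 := by
          have := Real.pi_pos
          field_simp
        rw [this]; simp
      linear_combination (-(a n * ∫ t : ℝ, (((n / x : ℝ)) : ℂ) ^ (-((σ:ℂ) + t * I)) *
        rieszM (σ + t * I))) * hpi
  -- the tsum is a finite sum
  have hfin : ∑' n, (∫ t, F n t) =
      (2 * Real.pi : ℝ) * ∑ n ∈ Finset.Icc 1 ⌊x⌋₊, a n * ((1 - n / x : ℝ) : ℂ) := by
    rw [tsum_eq_sum (s := Finset.Icc 1 ⌊x⌋₊)]
    · rw [Finset.mul_sum]
      refine Finset.sum_congr rfl fun n hn => ?_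
      have h1 := (Finset.mem_Icc.mp hn).1
      have h2 := (Finset.mem_Icc.mp hn).2
      rw [hterm, if_neg (by omega), max_eq_left]
      have : (n:ℝ) ≤ x := (Nat.le_floor_iff hx.le).mp h2
      rw [sub_nonneg, div_le_one hx]
      exact this
    · intro n hn
      rw [hterm]
      split_ifs with h0
      · rfl
      · have : ¬ (n ≤ ⌊x⌋₊) := fun h => hn (Finset.mem_Icc.mpr ⟨by omega, h⟩)
        have h1 : x < n := by
          by_contra hcon
          push Not at hcon
          exact this (Nat.le_floor hcon)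
        rw [max_eq_right]
        · simp
        · rw [sub_nonpos, one_le_div hx]
          exact h1.le
  have hsumF : ∀ t, ∑' n, F n t = LSeries a (σ + t * I) * (x:ℂ) ^ ((σ:ℂ) + t * I) *
      rieszM (σ + t * I) := by
    intro t
    rw [hF]
    simp only
    rw [tsum_mul_right, tsum_mul_right]
    rfl
  have hfinal := hmain.tsum_eq
  rw [hfin] at hfinal
  simp only [hsumF] at hfinal
  exact_mod_cast hfinal

end Pool.Agent.MVD
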