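import Pool.Agent.MVD.LPBase

/-!
The twisted prime coefficients.
-/

set_option autoImplicit false

open Complex
open scoped ArithmeticFunction.vonMangoldt

namespace Pool.Agent.MVD

open Pool.Agent.ANT

/-- The coefficients `χ(n) Λ(n) n^(-it)`. -/
noncomputable def lamt {r : ℕ} (χ : DirichletCharacter ℂ r) (t : ℝ) (n : ℕ) : ℂ :=
  χ n * ((Λ n : ℝ) : ℂ) * (n : ℂ) ^ (-(t * I))

private lemma term_lamt {r : ℕ} (χ : DirichletCharacter ℂ r) (t : ℝ) (s : ℂ) :
    LSeries.term (lamt χ t) s =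
      LSeries.term ((fun n : ℕ => χ n) * (fun n : ℕ => ((Λ n : ℝ) : ℂ))) (s + t * I) := by
  funext n
  rcases eq_or_ne n 0 with rfl | hn
  · simp
  · have hn' : (n : ℂ) ≠ 0 := by exact_mod_cast hn
    rw [LSeries.term_of_ne_zero hn, LSeries.term_of_ne_zero hn, lamt, Pi.mul_apply,
      Complex.cpow_add _ _ hn', Complex.cpow_neg]
    have h1 : (n : ℂ) ^ s ≠ 0 := by simp [Complex.cpow_eq_zero_iff, hn']
    have h2 : (n : ℂ) ^ ((t : ℂ) * I) ≠ 0 := by simp [Complex.cpow_eq_zero_iff, hn']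
    field_simp

/-- On `Re s > 1` the Dirichlet series of `lamt χ t` is `- L'/L (s + i t)` (`LSeries_twist_vonMangoldt_eq`). -/
theorem LSeries_lamt {r : ℕ} [NeZero r] {χ : DirichletCharacter ℂ r} (t : ℝ) {s : ℂ} (hs : 1 < s.re) :
    LSeriesSummable (lamt χ t) s ∧ LSeries (lamt χ t) s = -logDeriv χ.LFunction (s + t * I) := by
  have hs' : 1 < (s + t * I).re := by simpa using hs
  refine ⟨?_, ?_⟩
  · unfold LSeriesSummable
    rw [term_lamt]
    exact DirichletCharacter.LSeriesSummable_twist_vonMangoldt χ hs'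
  · have h1 : LSeries (lamt χ t) s =
        LSeries ((fun n : ℕ => χ n) * (fun n : ℕ => ((Λ n : ℝ) : ℂ))) (s + t * I) := by
      unfold LSeries
      rw [term_lamt]
    rw [h1, DirichletCharacter.LSeries_twist_vonMangoldt_eq χ hs', logDeriv_apply]
    have h2 : χ.LFunction =ᶠ[nhds (s + t * I)] LSeries (fun n : ℕ => χ n) := by
      filter_upwards [(isOpen_lt continuous_const Complex.continuous_re).mem_nhds hs'] with w hw
      exact DirichletCharacter.LFunction_eq_LSeries χ hw
    rw [h2.deriv_eq, DirichletCharacter.LFunction_eq_LSeries χ hs', neg_div]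

end Pool.Agent.MVD
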