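import Mathlib

/-!
Shift of a vertical line integral.
-/

set_option autoImplicit false

open Complex MeasureTheory

namespace Pool.Agent.MVD

/-- Shift of a vertical line integral: Cauchy for the rectangle `[σ₁, σ₂] × [-T, T]`
(`Complex.integral_boundary_rect_eq_zero_of_differentiableOn`), and `∫ 1/(1+u²) ≤ π`. -/
theorem shift_line {F : ℂ → ℂ} {σ₁ σ₂ T B₁ B₂ : ℝ} (hσ : σ₁ ≤ σ₂) (hT : 0 < T)
    (hF : ∀ s : ℂ, σ₁ ≤ s.re → s.re ≤ σ₂ → |s.im| ≤ T → DifferentiableAt ℂ F s)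
    (h1 : ∀ u : ℝ, |u| ≤ T → ‖F (σ₁ + u * I)‖ ≤ B₁ / (1 + u ^ 2))
    (h2 : ∀ σ : ℝ, σ₁ ≤ σ → σ ≤ σ₂ → ‖F (σ + T * I)‖ ≤ B₂ ∧ ‖F (σ - T * I)‖ ≤ B₂) :
    ‖∫ u in (-T)..T, F (σ₂ + u * I)‖ ≤ Real.pi * B₁ + 2 * (σ₂ - σ₁) * B₂ := by
  have hB1 : 0 ≤ B₁ := by
    have h := h1 0 (by simpa using hT.le)
    have h' : (0 : ℝ) ≤ B₁ / (1 + (0 : ℝ) ^ 2) := le_trans (norm_nonneg _) h
    simpa using h'
  have hTT : -T ≤ T := by linarith
  -- Cauchy
  have hC := Complex.integral_boundary_rect_eq_zero_of_differentiableOn F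
    ((σ₁ : ℂ) + (-T : ℝ) * I) ((σ₂ : ℂ) + (T : ℝ) * I) (by
      intro s hs
      rw [mem_reProdIm] at hs
      simp only [add_re, ofReal_re, mul_re, I_re, mul_zero, ofReal_im, I_im, mul_one, sub_self,
        add_zero, add_im, mul_im, zero_add] at hs
      rw [Set.uIcc_of_le hσ, Set.uIcc_of_le hTT] at hs
      exact (hF s hs.1.1 hs.1.2 (abs_le.2 ⟨hs.2.1, hs.2.2⟩)).differentiableWithinAt)
  simp only [add_re, ofReal_re, mul_re, I_re, mul_zero, ofReal_im, I_im, mul_one, sub_self,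
        add_zero, add_im, mul_im, zero_add, smul_eq_mul] at hC
  have hA : ‖∫ u in (-T)..T, F (σ₁ + u * I)‖ ≤ Real.pi * B₁ := by
    have hint : IntervalIntegrable (fun u : ℝ => B₁ * (1 + u ^ 2)⁻¹) volume (-T) T :=
      (intervalIntegral.intervalIntegrable_inv_one_add_sq).const_mul B₁
    have h3 : ‖∫ u in (-T)..T, F (σ₁ + u * I)‖ ≤ ∫ u in (-T)..T, B₁ * (1 + u ^ 2)⁻¹ := by
      refine intervalIntegral.norm_integral_le_of_norm_le hTT ?_ hint
      refine Filter.Eventually.of_forall fun u hu => ?_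
      rw [← div_eq_mul_inv]
      exact h1 u (abs_le.2 ⟨hu.1.le, hu.2⟩)
    refine h3.trans ?_
    rw [intervalIntegral.integral_const_mul, integral_inv_one_add_sq, Real.arctan_neg]
    have h4 := (Real.arctan_lt_pi_div_two T).le
    nlinarith
  have hD : ‖∫ x in σ₁..σ₂, F (x + (T : ℝ) * I)‖ ≤ B₂ * |σ₂ - σ₁| := by
    refine intervalIntegral.norm_integral_le_of_norm_le_const fun x hx => ?_
    rw [Set.uIoc_of_le hσ] at hx
    exact (h2 x hx.1.le hx.2).1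
  have hE : ‖∫ x in σ₁..σ₂, F (x + (-T : ℝ) * I)‖ ≤ B₂ * |σ₂ - σ₁| := by
    refine intervalIntegral.norm_integral_le_of_norm_le_const fun x hx => ?_
    rw [Set.uIoc_of_le hσ] at hx
    have := (h2 x hx.1.le hx.2).2
    rw [sub_eq_add_neg] at this
    simpa using this
  rw [abs_of_nonneg (sub_nonneg.2 hσ)] at hD hE
  have hK : I * (∫ u in (-T)..T, F (σ₂ + u * I)) =
      I * (∫ u in (-T)..T, F (σ₁ + u * I)) + (∫ x in σ₁..σ₂, F (x + (T : ℝ) * I))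
        - (∫ x in σ₁..σ₂, F (x + (-T : ℝ) * I)) := by
    linear_combination hC
  have hN : ‖∫ u in (-T)..T, F (σ₂ + u * I)‖ = ‖I * (∫ u in (-T)..T, F (σ₂ + u * I))‖ := by
    rw [norm_mul, norm_I, one_mul]
  rw [hN, hK]
  refine (norm_sub_le _ _).trans ?_
  have h5 := norm_add_le (I * (∫ u in (-T)..T, F (σ₁ + u * I)))
    (∫ x in σ₁..σ₂, F (x + (T : ℝ) * I))
  rw [norm_mul, norm_I, one_mul] at h5
  nlinarith

end Pool.Agent.MVD
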