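import Mathlib
import Pool.Agent.Lib.ANT.Recip

/-!
Lower bound and logarithmic derivative of Dirichlet `L`-functions on `Re s > 1`.
-/

set_option autoImplicit false

open Complex
open scoped ArithmeticFunction.vonMangoldt

namespace Pool.Agent.MVD

open Pool.Agent.ANT

namespace LPLowAux

open Filter Asymptotics MeasureTheory

/-- linear partial sums: the Dirichlet series is at most `C σ / (σ - 1)` -/
theorem dir_le (f : ℕ → ℝ) (hf : ∀ n, 0 ≤ f n) (C : ℝ) (hC : 0 ≤ C)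
    (hS : ∀ n : ℕ, ∑ k ∈ Finset.Icc 1 n, f k ≤ C * n) (σ : ℝ) (hσ : 1 < σ) :
    (Summable fun n : ℕ => f n * (n : ℝ) ^ (-σ)) ∧
      ∑' n : ℕ, f n * (n : ℝ) ^ (-σ) ≤ C * σ / (σ - 1) := by
  have hσ0 : 0 < σ := by linarith
  have hO : (fun n ↦ ∑ k ∈ Finset.Icc 1 n, f k) =O[atTop] fun n ↦ (n : ℝ) ^ (1 : ℝ) := by
    refine IsBigO.of_bound C (Eventually.of_forall fun n => ?_)
    rw [Real.rpow_one, Real.norm_of_nonneg (Finset.sum_nonneg fun k _ => hf k),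
      Real.norm_of_nonneg (Nat.cast_nonneg n)]
    exact hS n
  have hs : (1 : ℝ) < ((σ : ℂ)).re := by simpa using hσ
  have hterm : ∀ n : ℕ, LSeries.term (fun n => (f n : ℂ)) (σ : ℂ) n =
      ((f n * (n : ℝ) ^ (-σ) : ℝ) : ℂ) := by
    intro n
    rcases Nat.eq_zero_or_pos n with rfl | hn
    · rw [LSeries.term_zero, Nat.cast_zero, Real.zero_rpow (by linarith : -σ ≠ 0), mul_zero,
        Complex.ofReal_zero]
    · rw [LSeries.term_of_ne_zero hn.ne', Real.rpow_neg (Nat.cast_nonneg n), ← div_eq_mul_inv]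
      push_cast
      rw [Complex.ofReal_cpow (Nat.cast_nonneg n), Complex.ofReal_natCast]
  have hsum : LSeriesSummable (fun n => (f n : ℂ)) (σ : ℂ) :=
    LSeriesSummable_of_sum_norm_bigO_and_nonneg hO hf zero_le_one hs
  have hsum' : Summable fun n : ℕ => f n * (n : ℝ) ^ (-σ) := by
    have h1 : Summable fun n : ℕ => ((f n * (n : ℝ) ^ (-σ) : ℝ) : ℂ) := by
      refine hsum.congr ?_
      intro n
      exact (hterm n)
    exact Complex.summable_ofReal.mp h1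
  refine ⟨hsum', ?_⟩
  have h2 : LSeries (fun n => (f n : ℂ)) (σ : ℂ) = ((∑' n : ℕ, f n * (n : ℝ) ^ (-σ) : ℝ) : ℂ) := by
    unfold LSeries
    rw [Complex.ofReal_tsum]
    exact tsum_congr hterm
  have h3 := LSeries_eq_mul_integral_of_nonneg f zero_le_one hs hO hf
  rw [h2] at h3
  have h4 : ‖∫ t in Set.Ioi (1 : ℝ), (∑ k ∈ Finset.Icc 1 ⌊t⌋₊, (f k : ℂ)) * t ^ (-((σ : ℂ) + 1))‖ ≤
      ∫ t in Set.Ioi (1 : ℝ), C * t ^ (-σ) := by
    refine norm_integral_le_of_norm_le ?_ ?_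
    · exact ((integrableOn_Ioi_rpow_of_lt (by linarith) one_pos).const_mul C)
    · refine (ae_restrict_iff' measurableSet_Ioi).mpr (Eventually.of_forall fun t ht => ?_)
      have ht1 : (1 : ℝ) < t := ht
      have ht0 : 0 < t := by linarith
      rw [norm_mul, Complex.norm_cpow_eq_rpow_re_of_pos ht0]
      have h5 : ‖∑ k ∈ Finset.Icc 1 ⌊t⌋₊, (f k : ℂ)‖ ≤ C * t := by
        rw [← Complex.ofReal_sum, Complex.norm_real,
          Real.norm_of_nonneg (Finset.sum_nonneg fun k _ => hf k)]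
        exact (hS _).trans (mul_le_mul_of_nonneg_left (Nat.floor_le ht0.le) hC)
      have h6 : (-((σ : ℂ) + 1)).re = -σ - 1 := by simp; ring
      rw [h6]
      have h7 : t ^ (-σ) = t * t ^ (-σ - 1) := by
        rw [Real.rpow_sub ht0, Real.rpow_one, mul_div_cancel₀ _ ht0.ne']
      rw [h7, ← mul_assoc]
      exact mul_le_mul_of_nonneg_right h5 (Real.rpow_nonneg ht0.le _)
  have h8 : ∫ t in Set.Ioi (1 : ℝ), C * t ^ (-σ) = C / (σ - 1) := by
    rw [integral_const_mul, integral_Ioi_rpow_of_lt (by linarith) one_pos, Real.one_rpow]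
    have : σ - 1 ≠ 0 := by linarith
    have h9 : -σ + 1 = -(σ - 1) := by ring
    rw [h9, neg_div_neg_eq]
    ring
  have h10 : ‖((∑' n : ℕ, f n * (n : ℝ) ^ (-σ) : ℝ) : ℂ)‖ ≤ σ * (C / (σ - 1)) := by
    rw [h3, norm_mul, Complex.norm_real, Real.norm_of_nonneg hσ0.le, ← h8]
    exact mul_le_mul_of_nonneg_left h4 hσ0.le
  rw [Complex.norm_real] at h10
  calc _ ≤ ‖∑' n : ℕ, f n * (n : ℝ) ^ (-σ)‖ := Real.le_norm_self _
    _ ≤ σ * (C / (σ - 1)) := h10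
    _ = C * σ / (σ - 1) := by ring

theorem norm_term_le (f : ℕ → ℂ) (g : ℕ → ℝ) (hg : ∀ n, 0 ≤ g n) (hfg : ∀ n, ‖f n‖ ≤ g n) (s : ℂ) (n : ℕ) :
    ‖LSeries.term f s n‖ ≤ g n * (n : ℝ) ^ (-s.re) := by
  rcases Nat.eq_zero_or_pos n with rfl | hn
  · rw [LSeries.term_zero, norm_zero]
    exact mul_nonneg (hg 0) (Real.rpow_nonneg (Nat.cast_nonneg 0) _)
  · rw [LSeries.norm_term_eq, if_neg hn.ne', Real.rpow_neg (Nat.cast_nonneg n), ← div_eq_mul_inv]
    exact div_le_div_of_nonneg_right (hfg n) (Real.rpow_nonneg (Nat.cast_nonneg n) _)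

theorem norm_LSeries_le (f : ℕ → ℂ) (g : ℕ → ℝ) (hg : ∀ n, 0 ≤ g n) (hfg : ∀ n, ‖f n‖ ≤ g n) (s : ℂ)
    (hsum : Summable fun n : ℕ => g n * (n : ℝ) ^ (-s.re)) :
    ‖LSeries f s‖ ≤ ∑' n : ℕ, g n * (n : ℝ) ^ (-s.re) := by
  unfold LSeries
  exact tsum_of_norm_bounded hsum.hasSum (norm_term_le f g hg hfg s)

end LPLowAux

/-- Lower bound: `LSeries_cmu_mul`, `norm_cmu_le` and `∑ n^(-σ) ≤ σ / (σ - 1)`. -/
theorem LF_lower {r : ℕ} [NeZero r] {χ : DirichletCharacter ℂ r} (hχ : χ ≠ 1) {s : ℂ} (hs : 1 < s.re) :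
    (s.re - 1) / s.re ≤ ‖χ.LFunction s‖ := by
  have h1 := LPLowAux.dir_le (fun _ => 1) (fun _ => zero_le_one) 1 zero_le_one
    (fun n => by simp) s.re hs
  have h2 := LPLowAux.norm_LSeries_le (cmu χ) (fun _ => 1) (fun _ => zero_le_one)
    (norm_cmu_le χ) s h1.1
  have h3 : ‖LSeries (cmu χ) s‖ ≤ s.re / (s.re - 1) := by
    refine h2.trans (h1.2.trans (le_of_eq ?_))
    ring
  have h4 := LSeries_cmu_mul χ hs
  have h5 : LX χ s = χ.LFunction s := by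
    rw [LX_eq_LSeries χ hs, DirichletCharacter.LFunction_eq_LSeries χ hs]
  rw [h5] at h4
  have h6 := congrArg norm h4
  rw [norm_mul, norm_one] at h6
  have hs0 : 0 < s.re := by linarith
  have hs1 : 0 < s.re - 1 := by linarith
  have h7 : 0 ≤ ‖χ.LFunction s‖ := norm_nonneg _
  have h8 : 1 ≤ s.re / (s.re - 1) * ‖χ.LFunction s‖ := by
    have h10 := mul_le_mul_of_nonneg_right h3 h7
    rwa [h6] at h10
  rw [div_le_iff₀ hs0]
  have h9 : s.re / (s.re - 1) * ‖χ.LFunction s‖ * (s.re - 1) = ‖χ.LFunction s‖ * s.re := by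
    field_simp
  nlinarith

/-- `∑ Λ(n) n^(-σ) ≤ C / (σ - 1)`. (For instance from Chebyshev `∑_{n ≤ x} Λ(n) ≤ C x` and partial summation, or
dyadically; or from the continuity of `-ζ'/ζ(σ) - 1/(σ-1)`.) -/
theorem vM_le : ∃ C : ℝ, 0 < C ∧ ∀ σ : ℝ, 1 < σ → σ ≤ 2 →
    (Summable fun n : ℕ => Λ n * (n : ℝ) ^ (-σ)) ∧ ∑' n : ℕ, Λ n * (n : ℝ) ^ (-σ) ≤ C / (σ - 1) := by
  have hlog : 0 < Real.log 4 := Real.log_pos (by norm_num)
  refine ⟨(Real.log 4 + 4) * 2, by positivity, fun σ hσ hσ2 => ?_⟩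
  have h1 := LPLowAux.dir_le (fun n => Λ n) (fun n => ArithmeticFunction.vonMangoldt_nonneg)
    (Real.log 4 + 4) (by positivity) (fun n => by
      have h2 := Chebyshev.psi_le_const_mul_self (x := (n : ℝ)) (Nat.cast_nonneg n)
      have h3 : Chebyshev.psi (n : ℝ) = ∑ k ∈ Finset.Icc 1 n, Λ k := by
        rw [Chebyshev.psi, Nat.floor_natCast]
        rfl
      rw [← h3]
      exact h2) σ hσ
  refine ⟨h1.1, h1.2.trans ?_⟩
  refine div_le_div_of_nonneg_right ?_ (by linarith)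
  exact mul_le_mul_of_nonneg_left hσ2 (by positivity)

/-- `L'/L` on `Re s > 1` (`LSeries_twist_vonMangoldt_eq` and `vM_le`). -/
theorem LF_logDeriv_le : ∃ C : ℝ, 0 < C ∧ ∀ (r : ℕ) [NeZero r] (χ : DirichletCharacter ℂ r), χ ≠ 1 →
    ∀ s : ℂ, 1 < s.re → s.re ≤ 2 → ‖logDeriv χ.LFunction s‖ ≤ C / (s.re - 1) := by
  obtain ⟨C, hC, hb⟩ := vM_le
  refine ⟨C, hC, fun r _ χ hχ s hs hs2 => ?_⟩
  obtain ⟨h1, h2⟩ := hb s.re hs hs2
  have h3 := DirichletCharacter.LSeries_twist_vonMangoldt_eq χ hs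
  have h4 : logDeriv χ.LFunction s =
      -LSeries ((fun n : ℕ => χ n) * (fun n : ℕ => (Λ n : ℂ))) s := by
    rw [h3, logDeriv_apply, DirichletCharacter.deriv_LFunction_eq_deriv_LSeries χ hs,
      DirichletCharacter.LFunction_eq_LSeries χ hs]
    ring
  rw [h4, norm_neg]
  refine (LPLowAux.norm_LSeries_le _ (fun n => Λ n)
    (fun n => ArithmeticFunction.vonMangoldt_nonneg) ?_ s h1).trans h2
  intro n
  rw [Pi.mul_apply, norm_mul]
  have h5 := χ.norm_le_one (n : ZMod r)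
  have h6 : ‖((Λ n : ℝ) : ℂ)‖ = Λ n := by
    rw [Complex.norm_real, Real.norm_of_nonneg ArithmeticFunction.vonMangoldt_nonneg]
  calc ‖χ (n : ZMod r)‖ * ‖((Λ n : ℝ) : ℂ)‖ ≤ 1 * Λ n := by
        rw [h6]
        exact mul_le_mul_of_nonneg_right h5 ArithmeticFunction.vonMangoldt_nonneg
    _ = Λ n := one_mul _

end Pool.Agent.MVD
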