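import Pool.Agent.MVD.LPBase
import Pool.Agent.MVD.LPLow
import Pool.Agent.Lib.Hadamard.Entire

/-!
Local expansion of the logarithmic derivative of a Dirichlet `L`-function near the line `Re s = 1`.
-/

set_option autoImplicit false

open Complex

namespace Pool.Agent.MVD

open Pool.Agent.ANT

private theorem lploc_order {f : ℂ → ℂ} (c a : ℂ) :
    analyticOrderNatAt (fun z => f (c + z)) a = analyticOrderNatAt f (c + a) := by
  unfold analyticOrderNatAt
  congr 1
  have hg : AnalyticAt ℂ (fun z : ℂ => c + z) a := by fun_prop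
  have hg' : deriv (fun z : ℂ => c + z) a ≠ 0 := by
    have : deriv (fun z : ℂ => c + z) a = 1 := by
      rw [deriv_const_add]; simp
    rw [this]; exact one_ne_zero
  have := analyticOrderAt_comp_of_deriv_ne_zero (f := f) hg hg'
  exact this

private theorem lploc_logDeriv {f : ℂ → ℂ} (c z : ℂ) :
    logDeriv (fun z => f (c + z)) z = logDeriv f (c + z) := by
  rw [logDeriv_apply, logDeriv_apply]
  congr 1
  exact deriv_comp_const_add f c z

/-- Local expansion. Apply `Hadamard.norm_logDeriv_sub_sum_le` and `Hadamard.zero_count` to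
`f z = χ.LFunction (51/50 + t I + z)` (entire: `DirichletCharacter.differentiable_LFunction`), `R = r = 3/10`:
on `‖z‖ ≤ 9/10` one has `‖f z‖ ≤ 9 r (|t| + 3)` (`LF_growth`), and `1/51 ≤ ‖f 0‖` (`LF_lower`), so
`A = log (459 r (|t| + 3)) ≤ 7 * el r t`. The set `S` is the set of all zeros in the closed disc of radius `3/10`
(finite: `Hadamard.finite_zeros`); the base point is `w = 0`, where `L'/L` is bounded (`LF_logDeriv_le`), and
`‖a‖ ≥ 1/50` for every zero `51/50 + t I + a` because `L` has no zeros with real part `> 1`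
(`DirichletCharacter.LFunction_ne_zero_of_one_le_re`). -/
theorem local_expansion : ∃ C : ℝ, 0 < C ∧ ∀ (r : ℕ) [NeZero r] (χ : DirichletCharacter ℂ r), χ ≠ 1 → ∀ t : ℝ,
    ∃ S : Finset ℂ,
      (∀ a : ℂ, a ∈ S ↔ χ.LFunction a = 0 ∧ ‖a - (51 / 50 + t * I)‖ ≤ 3 / 10) ∧
      (∀ a ∈ S, 1 ≤ analyticOrderNatAt χ.LFunction a) ∧
      (∑ a ∈ S, (analyticOrderNatAt χ.LFunction a : ℝ)) ≤ C * el r t ∧
      ∀ s : ℂ, ‖s - (51 / 50 + t * I)‖ ≤ 3 / 80 → χ.LFunction s ≠ 0 →
        ‖logDeriv χ.LFunction s - ∑ a ∈ S, (analyticOrderNatAt χ.LFunction a : ℂ) / (s - a)‖ ≤ C * el r t := by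
  classical
  obtain ⟨C0, hC0, hL0⟩ := LF_logDeriv_le
  refine ⟨27 * 8 + 50 * C0 + 50 * 12, by positivity, ?_⟩
  intro r _ χ hχ t
  have hr1 : 1 ≤ r := NeZero.one_le
  have hr : (1:ℝ) ≤ r := by exact_mod_cast hr1
  set s0 : ℂ := 51 / 50 + t * I with hs0
  have hs0re : s0.re = 51 / 50 := by simp [hs0]
  have hs0im : s0.im = t := by simp [hs0]
  have hs0n : ‖s0‖ ≤ 51 / 50 + |t| := by
    calc ‖s0‖ ≤ |s0.re| + |s0.im| := Complex.norm_le_abs_re_add_abs_im s0
      _ = 51 / 50 + |t| := by rw [hs0re, hs0im, abs_of_pos (by norm_num)]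
  have hLd : Differentiable ℂ χ.LFunction := DirichletCharacter.differentiable_LFunction hχ
  set f : ℂ → ℂ := fun z => χ.LFunction (s0 + z) with hfdef
  have hf : Differentiable ℂ f := by
    intro z
    exact (hLd (s0 + z)).comp z (by fun_prop)
  have hne1 : ∀ s : ℂ, 1 ≤ s.re → χ.LFunction s ≠ 0 := fun s hs =>
    DirichletCharacter.LFunction_ne_zero_of_one_le_re χ (.inl hχ) hs
  have hf0v : f 0 = χ.LFunction s0 := by simp [hfdef]
  have h0 : f 0 ≠ 0 := by
    rw [hf0v]; exact hne1 s0 (by rw [hs0re]; norm_num)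
  have hlow : 1 / 51 ≤ ‖f 0‖ := by
    have := LF_lower hχ (s := s0) (by rw [hs0re]; norm_num)
    rw [hs0re] at this
    rw [hf0v]
    norm_num at this ⊢
    exact this
  have hel : 1 ≤ el r t := one_le_el hr1 t
  have hX : 0 < (r:ℝ) * (|t| + 3) := by positivity
  set A : ℝ := Real.log (459 * (r * (|t| + 3))) with hA
  have hexpA : Real.exp A = 459 * (r * (|t| + 3)) := Real.exp_log (by positivity)
  have hAel : A ≤ 8 * el r t := by
    have h1 : A = Real.log 459 + el r t := by
      rw [hA, Real.log_mul (by norm_num) hX.ne']; rfl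
    have h2 : Real.log 459 ≤ 7 := by
      rw [Real.log_le_iff_le_exp (by norm_num)]
      have h3 : (2.7:ℝ) ≤ Real.exp 1 := by
        have := Real.exp_one_gt_d9; linarith
      calc (459:ℝ) ≤ 2.7 ^ 7 := by norm_num
        _ ≤ (Real.exp 1) ^ 7 := by gcongr
        _ = Real.exp 7 := by rw [← Real.exp_nat_mul]; norm_num
    linarith
  have hApos : 0 < A := by
    rw [hA]
    apply Real.log_pos
    have : (1:ℝ) * 3 ≤ r * (|t| + 3) := by
      apply mul_le_mul hr (by linarith [abs_nonneg t]) (by norm_num) (by linarith)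
    linarith
  have hgrow : ∀ z : ℂ, ‖z‖ ≤ 9 / 10 → ‖f z‖ ≤ ‖f 0‖ * Real.exp A := by
    intro z hz
    have hzre : -(9 / 10) ≤ z.re := by
      have := Complex.abs_re_le_norm z
      have := abs_le.mp (this.trans hz)
      linarith [this.1]
    have hre : (s0 + z).re = 51 / 50 + z.re := by simp [hs0re]
    have hre' : 3 / 25 ≤ (s0 + z).re := by rw [hre]; linarith
    have h1 := LF_growth hχ (s := s0 + z) (by linarith)
    have h2 : ‖s0 + z‖ ≤ |t| + 3 := by
      calc ‖s0 + z‖ ≤ ‖s0‖ + ‖z‖ := norm_add_le _ _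
        _ ≤ 51 / 50 + |t| + 9 / 10 := by linarith
        _ ≤ |t| + 3 := by linarith
    have h3 : ‖f z‖ ≤ 9 * (r * (|t| + 3)) := by
      calc ‖f z‖ = ‖χ.LFunction (s0 + z)‖ := rfl
        _ ≤ ‖s0 + z‖ * r / (s0 + z).re := h1
        _ ≤ (|t| + 3) * r / (3 / 25) := by gcongr
        _ = (25 / 3) * (r * (|t| + 3)) := by ring
        _ ≤ 9 * (r * (|t| + 3)) := by
          apply mul_le_mul_of_nonneg_right (by norm_num) hX.le
    calc ‖f z‖ ≤ 9 * (r * (|t| + 3)) := h3
      _ = 1 / 51 * (459 * (r * (|t| + 3))) := by ring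
      _ ≤ ‖f 0‖ * (459 * (r * (|t| + 3))) := by gcongr
      _ = ‖f 0‖ * Real.exp A := by rw [hexpA]
  -- zeros
  have hfin := Hadamard.finite_zeros hf h0 0 (3 / 10)
  set T : Finset ℂ := hfin.toFinset with hT
  have memT : ∀ a : ℂ, a ∈ T ↔ f a = 0 ∧ ‖a‖ ≤ 3 / 10 := by
    intro a
    rw [hT, Set.Finite.mem_toFinset]
    simp [Metric.mem_closedBall, dist_zero_right]
  have hcount := Hadamard.zero_count hf h0 (R := 3 / 10) (A := A) (by norm_num)
    (fun z hz => hgrow z (by rw [hz]; norm_num)) T (fun a ha => (memT a).mp ha)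
  have hord : ∀ a : ℂ, analyticOrderNatAt f a = analyticOrderNatAt χ.LFunction (s0 + a) :=
    fun a => lploc_order s0 a
  have hsum12 : (∑ a ∈ T, (analyticOrderNatAt f a : ℝ)) ≤ 12 * el r t := by
    have hlog2 : (0.69:ℝ) ≤ Real.log 2 := by
      have := Real.log_two_gt_d9; linarith
    have h1 : (∑ a ∈ T, (analyticOrderNatAt f a : ℝ)) * Real.log 2 ≤ 8 * el r t := by
      have : ((∑ a ∈ T, analyticOrderNatAt f a : ℕ) : ℝ) =
        ∑ a ∈ T, (analyticOrderNatAt f a : ℝ) := by push_cast; rfl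
      rw [← this]; linarith
    have h2 : 0 ≤ ∑ a ∈ T, (analyticOrderNatAt f a : ℝ) :=
      Finset.sum_nonneg fun a _ => Nat.cast_nonneg _
    nlinarith
  set S : Finset ℂ := T.image (fun a => s0 + a) with hS
  have hinj : Set.InjOn (fun a : ℂ => s0 + a) (T : Set ℂ) := by
    intro a _ b _ h; simpa using h
  have memS : ∀ a : ℂ, a ∈ S ↔ χ.LFunction a = 0 ∧ ‖a - s0‖ ≤ 3 / 10 := by
    intro a
    rw [hS, Finset.mem_image]
    constructor
    · rintro ⟨b, hb, rfl⟩
      have := (memT b).mp hb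
      refine ⟨this.1, by simpa using this.2⟩
    · rintro ⟨h1, h2⟩
      refine ⟨a - s0, (memT _).mpr ⟨?_, h2⟩, by ring⟩
      simp only [hfdef]
      rw [add_sub_cancel]; exact h1
  have sumS : ∀ g : ℂ → ℂ, ∑ a ∈ S, g a = ∑ a ∈ T, g (s0 + a) := fun g =>
    Finset.sum_image hinj
  have sumSR : ∀ g : ℂ → ℝ, ∑ a ∈ S, g a = ∑ a ∈ T, g (s0 + a) := fun g =>
    Finset.sum_image hinj
  have hs1 : χ.LFunction s0 ≠ 0 := by rw [← hf0v]; exact h0
  refine ⟨S, memS, ?_, ?_, ?_⟩
  · intro a ha
    have ha' := (memS a).mp ha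
    have hA1 : AnalyticAt ℂ χ.LFunction a := hLd.analyticAt a
    have h1 : analyticOrderAt χ.LFunction a ≠ 0 := by
      rw [Ne, hA1.analyticOrderAt_eq_zero]
      simpa using ha'.1
    have h2 : analyticOrderAt χ.LFunction a ≠ ⊤ := Hadamard.order_ne_top hLd hs1 a
    rw [Nat.one_le_iff_ne_zero]
    intro h3
    unfold analyticOrderNatAt at h3
    rw [ENat.toNat_eq_zero] at h3
    rcases h3 with h3 | h3
    · exact h1 h3
    · exact h2 h3
  · rw [sumSR]
    have : ∑ a ∈ T, (analyticOrderNatAt χ.LFunction (s0 + a) : ℝ) =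
        ∑ a ∈ T, (analyticOrderNatAt f a : ℝ) :=
      Finset.sum_congr rfl fun a _ => by rw [hord]
    rw [this]
    nlinarith
  · intro s hs hLs
    have hz : ‖s - s0‖ ≤ (3 / 10) / 8 := by linarith
    have hfz : f (s - s0) ≠ 0 := by
      simp only [hfdef]; rw [add_sub_cancel]; exact hLs
    have key := Hadamard.norm_logDeriv_sub_sum_le hf h0 (R := 3 / 10) (r := 3 / 10) (A := A)
      (by norm_num) le_rfl hApos (fun z hz => hgrow z (by rw [hz]; norm_num)) T
      (fun a ha => (memT a).mp ha) (fun a ha ha' => (memT a).mpr ⟨ha, ha'.le⟩)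
      (z := s - s0) (w := 0) hz (by simp; norm_num) hfz h0
    have e1 : logDeriv f (s - s0) = logDeriv χ.LFunction s := by
      have := lploc_logDeriv (f := χ.LFunction) s0 (s - s0)
      rw [add_sub_cancel] at this
      exact this
    have e2 : logDeriv f 0 = logDeriv χ.LFunction s0 := by
      have := lploc_logDeriv (f := χ.LFunction) s0 0
      rw [add_zero] at this
      exact this
    have e3 : ∑ a ∈ S, (analyticOrderNatAt χ.LFunction a : ℂ) / (s - a) =
        ∑ a ∈ T, (analyticOrderNatAt f a : ℂ) * (1 / (s - s0 - a)) := by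
      rw [sumS]
      refine Finset.sum_congr rfl fun a _ => ?_
      rw [hord, show s - (s0 + a) = s - s0 - a by ring]
      ring
    have hLs0 : ‖logDeriv χ.LFunction s0‖ ≤ 50 * C0 := by
      have := hL0 r χ hχ s0 (by rw [hs0re]; norm_num) (by rw [hs0re]; norm_num)
      rw [hs0re] at this
      calc ‖logDeriv χ.LFunction s0‖ ≤ C0 / (51 / 50 - 1) := this
        _ = 50 * C0 := by ring
    have hsumw : ‖∑ a ∈ T, (analyticOrderNatAt f a : ℂ) * (1 / (0 - a))‖ ≤
        50 * (12 * el r t) := by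
      calc ‖∑ a ∈ T, (analyticOrderNatAt f a : ℂ) * (1 / (0 - a))‖
          ≤ ∑ a ∈ T, ‖(analyticOrderNatAt f a : ℂ) * (1 / (0 - a))‖ := norm_sum_le _ _
        _ ≤ ∑ a ∈ T, 50 * (analyticOrderNatAt f a : ℝ) := by
          refine Finset.sum_le_sum fun a ha => ?_
          have ha' := (memT a).mp ha
          have hare : a.re < -(1 / 50) := by
            by_contra hcon
            push Not at hcon
            have : (1:ℝ) ≤ (s0 + a).re := by
              rw [Complex.add_re, hs0re]; linarith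
            exact hne1 _ this ha'.1
          have hanorm : 1 / 50 ≤ ‖a‖ := by
            have := Complex.abs_re_le_norm a
            rw [abs_of_neg (by linarith)] at this
            linarith
          rw [norm_mul, Complex.norm_natCast, norm_div, norm_one, zero_sub, norm_neg, mul_comm]
          apply mul_le_mul_of_nonneg_right _ (Nat.cast_nonneg _)
          rw [div_le_iff₀ (by linarith)]
          linarith
        _ = 50 * ∑ a ∈ T, (analyticOrderNatAt f a : ℝ) := by rw [Finset.mul_sum]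
        _ ≤ 50 * (12 * el r t) := by gcongr
    have hmain : 64 * A / (3 / 10) ^ 2 * ‖s - s0 - 0‖ ≤ 27 * (8 * el r t) := by
      rw [sub_zero]
      calc 64 * A / (3 / 10) ^ 2 * ‖s - s0‖ ≤ 64 * A / (3 / 10) ^ 2 * ((3 / 10) / 8) := by
            gcongr
        _ = (80 / 3) * A := by ring
        _ ≤ 27 * (8 * el r t) := by nlinarith
    rw [e1, e2] at key
    have e4 : logDeriv χ.LFunction s - ∑ a ∈ S, (analyticOrderNatAt χ.LFunction a : ℂ) / (s - a) =
        ((logDeriv χ.LFunction s - logDeriv χ.LFunction s0) -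
          ∑ a ∈ T, (analyticOrderNatAt f a : ℂ) * (1 / (s - s0 - a) - 1 / (0 - a))) +
        logDeriv χ.LFunction s0 - ∑ a ∈ T, (analyticOrderNatAt f a : ℂ) * (1 / (0 - a)) := by
      rw [e3]
      simp only [mul_sub, Finset.sum_sub_distrib]
      ring
    rw [e4]
    calc _ ≤ ‖((logDeriv χ.LFunction s - logDeriv χ.LFunction s0) -
          ∑ a ∈ T, (analyticOrderNatAt f a : ℂ) * (1 / (s - s0 - a) - 1 / (0 - a)))‖ +
          ‖logDeriv χ.LFunction s0‖ +
          ‖∑ a ∈ T, (analyticOrderNatAt f a : ℂ) * (1 / (0 - a))‖ := by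
            refine (norm_sub_le _ _).trans ?_
            gcongr
            exact norm_add_le _ _
      _ ≤ 27 * (8 * el r t) + 50 * C0 + 50 * (12 * el r t) := by
        gcongr
        exact key.trans hmain
      _ ≤ (27 * 8 + 50 * C0 + 50 * 12) * el r t := by nlinarith

end Pool.Agent.MVD
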