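import Pool.Agent.MVD.LPLoc

/-!
Bound of `L'/L` in a zero free strip.
-/

set_option autoImplicit false

open Complex

namespace Pool.Agent.MVD

open Pool.Agent.ANT

/-- Bound of `L'/L` in a zero free strip. From `local_expansion` with `t = Im s`: every `a ∈ S` has
`|Im a| ≤ T + 1`, hence `Re a ≤ 1 - η`, so `‖s - a‖ ≥ η/2`. -/
theorem logDeriv_bound : ∃ C : ℝ, 0 < C ∧ ∀ (r : ℕ) [NeZero r] (χ : DirichletCharacter ℂ r), χ ≠ 1 →
    ∀ η T : ℝ, 0 < η → η ≤ 1 / 100 → 0 ≤ T →
    (∀ s : ℂ, 1 - η < s.re → |s.im| ≤ T + 1 → χ.LFunction s ≠ 0) →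
    ∀ s : ℂ, 1 - η / 2 ≤ s.re → s.re ≤ 1 + 1 / 30 → |s.im| ≤ T →
      ‖logDeriv χ.LFunction s‖ ≤ C * el r T / η := by
  obtain ⟨C, hC, H⟩ := local_expansion
  refine ⟨3 * C, by positivity, ?_⟩
  intro r _ χ hχ η T hη hη1 hT hfree s hs1 hs2 hsT
  obtain ⟨S, hS, -, hcount, hexp⟩ := H r χ hχ s.im
  have hr1 : 1 ≤ r := Nat.one_le_iff_ne_zero.2 (NeZero.ne r)
  -- the point lies in the small disc
  have hdisc : ‖s - (51 / 50 + s.im * I)‖ ≤ 3 / 80 := by
    have e : s - (51 / 50 + s.im * I) = ((s.re - 51 / 50 : ℝ) : ℂ) := by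
      apply Complex.ext
      · simp
      · simp
    rw [e, Complex.norm_real, Real.norm_eq_abs, abs_le]
    constructor <;> linarith
  have hs0 : χ.LFunction s ≠ 0 := hfree s (by linarith) (by linarith)
  have h1 := hexp s hdisc hs0
  -- the zeros are far from the point
  have hfar : ∀ a ∈ S, η / 2 ≤ ‖s - a‖ := by
    intro a ha
    obtain ⟨ha0, ha1⟩ := (hS a).1 ha
    have him : |a.im - s.im| ≤ 3 / 10 := by
      have h2 := (Complex.abs_im_le_norm (a - (51 / 50 + s.im * I))).trans ha1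
      simpa using h2
    have him2 : |a.im| ≤ T + 1 := by
      have h3 : |a.im| ≤ |a.im - s.im| + |s.im| := by
        have := abs_add_le (a.im - s.im) s.im
        simpa using this
      linarith
    have hre : a.re ≤ 1 - η := by
      by_contra hcon
      exact hfree a (not_le.1 hcon) him2 ha0
    have h4 : s.re - a.re ≤ ‖s - a‖ := by
      have := Complex.re_le_norm (s - a)
      simpa using this
    linarith
  have hsum : ‖∑ a ∈ S, (analyticOrderNatAt χ.LFunction a : ℂ) / (s - a)‖ ≤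
      2 * C * el r s.im / η := by
    calc ‖∑ a ∈ S, (analyticOrderNatAt χ.LFunction a : ℂ) / (s - a)‖
        ≤ ∑ a ∈ S, ‖(analyticOrderNatAt χ.LFunction a : ℂ) / (s - a)‖ := norm_sum_le _ _
      _ ≤ ∑ a ∈ S, (analyticOrderNatAt χ.LFunction a : ℝ) * (2 / η) := by
          refine Finset.sum_le_sum fun a ha => ?_
          rw [norm_div, Complex.norm_natCast, div_eq_mul_inv]
          refine mul_le_mul_of_nonneg_left ?_ (Nat.cast_nonneg _)
          have h5 := hfar a ha
          have h6 : (0 : ℝ) < η / 2 := by positivity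
          calc ‖s - a‖⁻¹ ≤ (η / 2)⁻¹ := inv_anti₀ h6 h5
            _ = 2 / η := by rw [inv_div]
      _ = (∑ a ∈ S, (analyticOrderNatAt χ.LFunction a : ℝ)) * (2 / η) := by
          rw [Finset.sum_mul]
      _ ≤ (C * el r s.im) * (2 / η) := mul_le_mul_of_nonneg_right hcount (by positivity)
      _ = 2 * C * el r s.im / η := by ring
  have hel0 : 0 ≤ el r s.im := by linarith [one_le_el hr1 s.im]
  have hel : el r s.im ≤ el r T := by
    unfold el
    have hr0 : (0 : ℝ) < r := by exact_mod_cast hr1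
    apply Real.log_le_log
    · positivity
    · refine mul_le_mul_of_nonneg_left ?_ hr0.le
      rw [abs_of_nonneg hT]
      linarith
  have h7 : C * el r s.im ≤ C * el r s.im / η := by
    rw [le_div_iff₀ hη]
    have h8 : 0 ≤ C * el r s.im := mul_nonneg hC.le hel0
    nlinarith
  calc ‖logDeriv χ.LFunction s‖
      = ‖(logDeriv χ.LFunction s - ∑ a ∈ S, (analyticOrderNatAt χ.LFunction a : ℂ) / (s - a)) +
          ∑ a ∈ S, (analyticOrderNatAt χ.LFunction a : ℂ) / (s - a)‖ := by
        rw [sub_add_cancel]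
    _ ≤ C * el r s.im + 2 * C * el r s.im / η := (norm_add_le _ _).trans (add_le_add h1 hsum)
    _ ≤ C * el r s.im / η + 2 * C * el r s.im / η := by linarith
    _ = 3 * C * el r s.im / η := by ring
    _ ≤ 3 * C * el r T / η := by gcongr

end Pool.Agent.MVD
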