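import Pool.Agent.MVD.LPPsi
import Pool.Agent.MVD.Defs

/-!
Prime polynomials `∑_{M ≤ n < 2M} Λ(n) χ(n) n^(-1-it)` for a character without zeros near `Re s = 1`.
-/

set_option autoImplicit false

open Complex

namespace Pool.Agent.MVD

open Pool.Agent.ANT Pool.Agent.SInt

namespace LPPolyAux

theorem PC_eq {r : ℕ} (χ : DirichletCharacter ℂ r) (M : ℕ) (hM : 1 ≤ M) (t : ℝ) :
    PC LamN χ M t = ∑ n ∈ Finset.Ioc (M - 1) (2 * M - 1), lamt χ t n * ((fun n : ℕ => 1 / (n : ℝ)) n : ℝ) := by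
  unfold PC Fh dy
  have hsub : Finset.Ioc (M - 1) (2 * M - 1) ⊆ Finset.Icc 1 (2 * M) := by
    intro n hn
    rw [Finset.mem_Ioc] at hn
    rw [Finset.mem_Icc]
    omega
  rw [← Finset.sum_subset hsub]
  · refine Finset.sum_congr rfl fun n hn => ?_
    rw [Finset.mem_Ioc] at hn
    rw [if_pos (by rw [Finset.mem_Ico]; omega)]
    have hn0 : n ≠ 0 := by omega
    have hnc : (n : ℂ) ≠ 0 := by exact_mod_cast hn0
    unfold twc LamN lamt
    rw [Complex.cpow_def_of_ne_zero hnc]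
    have h1 : -((1 + (t : ℂ) * I) * ((Real.log n : ℝ) : ℂ))
        = -((Real.log n : ℝ) : ℂ) + Complex.log n * -((t : ℂ) * I) := by
      rw [Complex.ofReal_log (Nat.cast_nonneg n), Complex.ofReal_natCast]
      ring
    rw [h1, Complex.exp_add]
    have h2 : cexp (-((Real.log n : ℝ) : ℂ)) = ((1 / (n : ℝ) : ℝ) : ℂ) := by
      rw [← Complex.ofReal_neg, ← Complex.ofReal_exp, Real.exp_neg,
        Real.exp_log (by exact_mod_cast Nat.pos_of_ne_zero hn0), one_div]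
    rw [h2]
    ring
  · intro n _ hn2
    rw [Finset.mem_Ioc] at hn2
    rw [if_neg (by rw [Finset.mem_Ico]; omega), zero_mul]

theorem sum_Ioc_eq (f : ℕ → ℂ) {a b : ℕ} (h : a ≤ b) :
    ∑ n ∈ Finset.Ioc a b, f n = ∑ n ∈ Finset.Icc 1 b, f n - ∑ n ∈ Finset.Icc 1 a, f n := by
  have : Finset.Icc 1 b = Finset.Icc 1 a ∪ Finset.Ioc a b := by
    ext n
    simp only [Finset.mem_union, Finset.mem_Icc, Finset.mem_Ioc]
    omega
  rw [this, Finset.sum_union]
  · ring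
  · rw [Finset.disjoint_left]
    intro n hn hn'
    simp only [Finset.mem_Icc, Finset.mem_Ioc] at hn hn'
    omega

theorem real_bd {C η T δ E : ℝ} {M u : ℕ} (hC : 0 < C) (hη : 0 < η) (hη1 : η ≤ 1 / 100) (hT : 1 ≤ T)
    (hM : 4 ≤ M) (hδ : 0 < δ) (hE : 0 ≤ E) (hu : M - 1 ≤ u) (hu2 : u ≤ 2 * M - 1) :
    C * u * ((((u : ℝ) ^ (-(η / 2)) + 1 / T ^ 2) * E / η + Real.log (2 * u) / T) / δ
        + δ * Real.log (2 * u)) + C * Real.log (2 * u) ≤
      4 * C * M * ((((M : ℝ) ^ (-(η / 2)) + 1 / T ^ 2) * E / η + Real.log (2 * M) / T) / δ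
        + δ * Real.log (2 * M)) + 2 * C * Real.log (2 * M) := by
  have hMr : (4 : ℝ) ≤ M := by exact_mod_cast hM
  have hur : (M : ℝ) / 2 ≤ u := by
    have : M ≤ 2 * u := by omega
    have : (M : ℝ) ≤ 2 * u := by exact_mod_cast this
    linarith
  have hur2 : (u : ℝ) ≤ 2 * M := by
    have : u ≤ 2 * M := by omega
    exact_mod_cast this
  have hu0 : (0 : ℝ) < u := by linarith
  have hM0 : (0 : ℝ) < M := by linarith
  have hlogM : 0 ≤ Real.log (2 * M) := Real.log_nonneg (by linarith)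
  have hlogu : Real.log (2 * u) ≤ 2 * Real.log (2 * M) := by
    have h1 : Real.log (2 * u) ≤ Real.log ((2 * M) ^ 2) := by
      apply Real.log_le_log (by linarith)
      nlinarith
    rw [Real.log_pow] at h1
    exact_mod_cast h1
  have hlogu0 : 0 ≤ Real.log (2 * u) := Real.log_nonneg (by linarith)
  have hpow : (u : ℝ) ^ (-(η / 2)) ≤ 2 * (M : ℝ) ^ (-(η / 2)) := by
    have h1 : (u : ℝ) ^ (-(η / 2)) ≤ ((M : ℝ) / 2) ^ (-(η / 2)) :=
      Real.rpow_le_rpow_of_nonpos (by linarith) hur (by linarith)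
    have h2 : ((M : ℝ) / 2) ^ (-(η / 2)) = (M : ℝ) ^ (-(η / 2)) * 2 ^ (η / 2) := by
      rw [Real.div_rpow hM0.le (by norm_num), Real.rpow_neg (by norm_num : (0:ℝ) ≤ 2), div_inv_eq_mul]
    have h3 : (2 : ℝ) ^ (η / 2) ≤ 2 := by
      calc (2 : ℝ) ^ (η / 2) ≤ 2 ^ (1 : ℝ) :=
            Real.rpow_le_rpow_of_exponent_le (by norm_num) (by linarith)
        _ = 2 := Real.rpow_one 2
    have h4 : 0 ≤ (M : ℝ) ^ (-(η / 2)) := Real.rpow_nonneg hM0.le _
    calc _ ≤ _ := h1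
      _ = _ := h2
      _ ≤ (M : ℝ) ^ (-(η / 2)) * 2 := mul_le_mul_of_nonneg_left h3 h4
      _ = _ := mul_comm _ _
  have hMp : 0 ≤ (M : ℝ) ^ (-(η / 2)) := Real.rpow_nonneg hM0.le _
  have hup : 0 ≤ (u : ℝ) ^ (-(η / 2)) := Real.rpow_nonneg hu0.le _
  have hT2 : 0 ≤ 1 / T ^ 2 := by positivity
  have hT0 : 0 < T := by linarith
  set SM := (((M : ℝ) ^ (-(η / 2)) + 1 / T ^ 2) * E / η + Real.log (2 * M) / T) / δ
        + δ * Real.log (2 * M) with hSM
  set Su := (((u : ℝ) ^ (-(η / 2)) + 1 / T ^ 2) * E / η + Real.log (2 * u) / T) / δ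
        + δ * Real.log (2 * u) with hSu
  have hS0 : 0 ≤ Su := by positivity
  have hS : Su ≤ 2 * SM := by
    have e : 2 * SM = (((2 * (M : ℝ) ^ (-(η / 2)) + 2 * (1 / T ^ 2)) * E / η + 2 * Real.log (2 * M) / T) / δ
        + δ * (2 * Real.log (2 * M))) := by rw [hSM]; ring
    rw [e, hSu]
    gcongr
    linarith
  have h1 : C * u * Su ≤ C * (2 * M) * (2 * SM) := by
    apply mul_le_mul _ hS hS0 (by positivity)
    exact mul_le_mul_of_nonneg_left hur2 hC.le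
  have h2 : C * Real.log (2 * u) ≤ C * (2 * Real.log (2 * M)) := mul_le_mul_of_nonneg_left hlogu hC.le
  nlinarith

end LPPolyAux

open LPPolyAux

/-- Abel summation from `psi_twist` (the sums up to `x`, `M - 1 ≤ x ≤ 2 M - 1`, and `(M-1)^(-η/2) ≤ 2 M^(-η/2)`);
`PC LamN χ M t = ∑_{M ≤ n < 2M} lamt χ t n / n`. -/
theorem PC_bound : ∃ C : ℝ, 0 < C ∧ ∀ (r : ℕ) [NeZero r] (χ : DirichletCharacter ℂ r), χ ≠ 1 →
    ∀ (η T t δ : ℝ) (M : ℕ), 0 < η → η ≤ 1 / 100 → 1 ≤ T → |t| ≤ T → 4 ≤ M → 0 < δ → δ ≤ 1 →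
    (∀ s : ℂ, 1 - η < s.re → |s.im| ≤ 2 * T + 1 → χ.LFunction s ≠ 0) →
    ‖PC LamN χ M t‖ ≤
      C * ((((M : ℝ) ^ (-(η / 2)) + 1 / T ^ 2) * el r T / η + Real.log (2 * M) / T) / δ + δ * Real.log (2 * M) +
        Real.log (2 * M) / M) := by
  obtain ⟨C, hC, hpsi⟩ := psi_twist
  refine ⟨8 * C, by positivity, ?_⟩
  intro r _ χ hχ η T t δ M hη hη1 hT ht hM hδ hδ1 hz
  have hr : 1 ≤ r := NeZero.one_le
  have hE : 0 ≤ el r T := le_trans zero_le_one (one_le_el hr T)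
  have hMr : (4 : ℝ) ≤ M := by exact_mod_cast hM
  have hM0 : (0 : ℝ) < M := by linarith
  have hlogM : 0 ≤ Real.log (2 * M) := Real.log_nonneg (by linarith)
  set SM := (((M : ℝ) ^ (-(η / 2)) + 1 / T ^ 2) * el r T / η + Real.log (2 * M) / T) / δ
        + δ * Real.log (2 * M) with hSM
  have hb : ∀ u : ℕ, M - 1 ≤ u → u ≤ 2 * M - 1 →
      ‖∑ n ∈ Finset.Icc 1 u, lamt χ t n‖ ≤ 4 * C * M * SM + 2 * C * Real.log (2 * M) := by
    intro u hu hu2
    have hu3 : (3 : ℝ) ≤ u := by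
      have : 3 ≤ u := by omega
      exact_mod_cast this
    have h := hpsi r χ hχ η T t u δ hη hη1 hT ht hu3 hδ hδ1 hz
    rw [Nat.floor_natCast] at h
    exact h.trans (real_bd hC hη hη1 hT hM hδ hE hu hu2)
  rw [PC_eq χ M (by omega) t]
  have hab := abel_ineq (b := lamt χ t) (w := fun n : ℕ => 1 / (n : ℝ)) (Y := M - 1) (X := 2 * M - 1)
    (by omega) (B := 2 * (4 * C * M * SM + 2 * C * Real.log (2 * M)))
    (fun n _ => by positivity)
    (fun n hn => by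
      have hn0 : (0 : ℝ) < n := by
        have : 0 < n := by omega
        exact_mod_cast this
      apply one_div_le_one_div_of_le hn0
      push_cast
      linarith)
    (fun u hu hu2 => by
      rw [sum_Ioc_eq _ hu]
      refine (norm_sub_le _ _).trans ?_
      have h1 := hb u hu hu2
      have h2 := hb (M - 1) le_rfl (by omega)
      linarith)
  refine hab.trans ?_
  have e1 : ((M - 1 + 1 : ℕ) : ℝ) = M := by
    congr 1
    omega
  show 2 * (4 * C * M * SM + 2 * C * Real.log (2 * M)) * (1 / ((M - 1 + 1 : ℕ) : ℝ)) ≤ _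
  rw [e1]
  have e2 : 2 * (4 * C * M * SM + 2 * C * Real.log (2 * M)) * (1 / (M : ℝ))
      = 8 * C * SM + 4 * C * (Real.log (2 * M) / M) := by
    field_simp
    ring
  rw [e2]
  have h3 : 0 ≤ C * (Real.log (2 * M) / M) := by positivity
  nlinarith

end Pool.Agent.MVD
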