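import Pool.Agent.MVD.LPShift
import Pool.Agent.Lib.ANT.Unsmooth

set_option autoImplicit false

open Complex

namespace Pool.Agent.MVD

open Pool.Agent.ANT

/-- the coefficients are at most `log n` -/
private theorem LPPsi_norm_lamt {r : ℕ} (χ : DirichletCharacter ℂ r) (t : ℝ) {n : ℕ} (hn : 1 ≤ n) :
    ‖lamt χ t n‖ ≤ Real.log n := by
  unfold lamt
  have h1 : ‖((n : ℂ)) ^ (-((t : ℂ) * I))‖ = 1 := by
    rw [Complex.norm_natCast_cpow_of_pos (by omega)]
    simp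
  have h2 : ‖χ n‖ ≤ 1 := DirichletCharacter.norm_le_one χ _
  have h3 : 0 ≤ ArithmeticFunction.vonMangoldt n := ArithmeticFunction.vonMangoldt_nonneg
  rw [norm_mul, norm_mul, h1, mul_one, Complex.norm_real, Real.norm_of_nonneg h3]
  calc ‖χ n‖ * ArithmeticFunction.vonMangoldt n ≤ 1 * ArithmeticFunction.vonMangoldt n :=
        mul_le_mul_of_nonneg_right h2 h3
    _ ≤ Real.log n := by
        rw [one_mul]
        exact ArithmeticFunction.vonMangoldt_le_log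

/-- Removing the weight: `Pool.Agent.ANT.unsmooth` with `h = δ x`, `D = log (2x)`. -/
theorem psi_twist : ∃ C : ℝ, 0 < C ∧ ∀ (r : ℕ) [NeZero r] (χ : DirichletCharacter ℂ r), χ ≠ 1 →
    ∀ η T t₀ x δ : ℝ, 0 < η → η ≤ 1 / 100 → 1 ≤ T → |t₀| ≤ T → 3 ≤ x → 0 < δ → δ ≤ 1 →
    (∀ s : ℂ, 1 - η < s.re → |s.im| ≤ 2 * T + 1 → χ.LFunction s ≠ 0) →
    ‖∑ n ∈ Finset.Icc 1 ⌊x⌋₊, lamt χ t₀ n‖ ≤
      C * x * (((x ^ (-(η / 2)) + 1 / T ^ 2) * el r T / η + Real.log (2 * x) / T) / δ + δ * Real.log (2 * x)) +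
      C * Real.log (2 * x) := by
  obtain ⟨C, hC, H⟩ := riesz_shift
  refine ⟨5 * C + 1, by positivity, ?_⟩
  intro r _ χ hχ η T t₀ x δ hη hη1 hT ht₀ hx hδ hδ1 hz
  have hx0 : 0 < x := by linarith
  have hr : (1:ℝ) ≤ (r:ℝ) := by exact_mod_cast Nat.one_le_iff_ne_zero.2 (NeZero.ne r)
  have hel : 0 ≤ el r T := by
    unfold el
    apply Real.log_nonneg
    have h1 := abs_nonneg T
    nlinarith
  have hlog : 0 ≤ Real.log (2 * x) := Real.log_nonneg (by linarith)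
  set M : ℝ := C * ((x ^ (-(η / 2)) + 1 / T ^ 2) * el r T / η + Real.log (2 * x) / T) with hM
  have hR : ∀ y : ℝ, x ≤ y → y ≤ 2 * x →
      ‖∑ n ∈ Finset.Icc 1 ⌊y⌋₊, lamt χ t₀ n * ((1 - n / y : ℝ) : ℂ)‖ ≤ M * y := by
    intro y hy hy2
    have h1 := H r χ hχ η T t₀ y hη hη1 hT ht₀ (by linarith) hz
    refine h1.trans ?_
    have hy0 : 0 < y := by linarith
    have h2 : y ^ (-(η / 2)) ≤ x ^ (-(η / 2)) :=
      Real.rpow_le_rpow_of_nonpos hx0 hy (by linarith)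
    have h3 : Real.log y ≤ Real.log (2 * x) := Real.log_le_log hy0 hy2
    have h4 : (y ^ (-(η / 2)) + 1 / T ^ 2) * el r T / η + Real.log y / T ≤
        (x ^ (-(η / 2)) + 1 / T ^ 2) * el r T / η + Real.log (2 * x) / T := by
      have h5 : (y ^ (-(η / 2)) + 1 / T ^ 2) * el r T ≤
          (x ^ (-(η / 2)) + 1 / T ^ 2) * el r T :=
        mul_le_mul_of_nonneg_right (by linarith) hel
      have h6 := div_le_div_of_nonneg_right h5 hη.le
      have h7 := div_le_div_of_nonneg_right h3 (show (0:ℝ) ≤ T by linarith)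
      linarith
    calc C * y * ((y ^ (-(η / 2)) + 1 / T ^ 2) * el r T / η + Real.log y / T)
        ≤ C * y * ((x ^ (-(η / 2)) + 1 / T ^ 2) * el r T / η + Real.log (2 * x) / T) :=
          mul_le_mul_of_nonneg_left h4 (by positivity)
      _ = M * y := by rw [hM]; ring
  have hD : ∀ n : ℕ, 1 ≤ n → (n:ℝ) ≤ 2 * x → ‖lamt χ t₀ n‖ ≤ Real.log (2 * x) := by
    intro n hn hn2
    refine (LPPsi_norm_lamt χ t₀ hn).trans (Real.log_le_log ?_ hn2)
    exact_mod_cast hn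
  have h8 := unsmooth (b := lamt χ t₀) (M := M) (h := δ * x) (by linarith) (by positivity)
    (by nlinarith) hD hR
  refine h8.trans ?_
  set B : ℝ := (x ^ (-(η / 2)) + 1 / T ^ 2) * el r T / η + Real.log (2 * x) / T with hB
  have hB0 : 0 ≤ B := by
    have h9 : 0 ≤ x ^ (-(η / 2)) := Real.rpow_nonneg hx0.le _
    have h10 : 0 ≤ (x ^ (-(η / 2)) + 1 / T ^ 2) * el r T / η := by positivity
    have h11 : 0 ≤ Real.log (2 * x) / T := div_nonneg hlog (by linarith)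
    linarith
  have e1 : 5 * M * x ^ 2 / (δ * x) = 5 * C * x * (B / δ) := by
    rw [hM]
    field_simp
  rw [e1]
  have h12 : 0 ≤ x * (B / δ) := by positivity
  have h13 : 0 ≤ x * (δ * Real.log (2 * x)) := by positivity
  have h14 : 0 ≤ C * (x * (δ * Real.log (2 * x))) := by positivity
  have h15 : 0 ≤ C * Real.log (2 * x) := by positivity
  nlinarith

end Pool.Agent.MVD
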