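import Pool.Agent.MVD.LPLocB
import Pool.Agent.MVD.LPForm
import Pool.Agent.MVD.LPLine
import Pool.Agent.MVD.LPLam

/-!
Riesz means of the primes twisted by a character whose `L`-function has no zeros near `Re s = 1`.
-/

set_option autoImplicit false

open Complex
open scoped ArithmeticFunction.vonMangoldt

namespace Pool.Agent.MVD

open Pool.Agent.ANT

namespace LPShiftAux

open MeasureTheory

/-- `‖1/(s(s+1))‖ ≤ 2/(1+u²)` on `Re s ≥ 9/10`. -/
lemma norm_rieszM_le' {s : ℂ} (hs : 9 / 10 ≤ s.re) : ‖rieszM s‖ ≤ 2 / (1 + s.im ^ 2) := by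
  have hs0 : s ≠ 0 := by
    intro h
    rw [h] at hs
    simp at hs
    linarith
  have hs1 : s + 1 ≠ 0 := by
    intro h
    have := congrArg Complex.re h
    rw [add_re, one_re, zero_re] at this
    linarith
  have e : rieszM s = 1 / (s * (s + 1)) := by
    unfold rieszM; field_simp; ring
  rw [e, norm_div, norm_one, norm_mul]
  have h1 : (1 + s.im ^ 2) / 2 ≤ ‖s‖ * ‖s + 1‖ := by
    have h2 : ((1 + s.im ^ 2) / 2) ^ 2 ≤ (‖s‖ * ‖s + 1‖) ^ 2 := by
      rw [mul_pow, Complex.sq_norm, Complex.sq_norm, Complex.normSq_apply, Complex.normSq_apply,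
        add_re, one_re, add_im, one_im, add_zero]
      have a1 : 81 / 100 ≤ s.re * s.re := by nlinarith
      have a2 : 361 / 100 ≤ (s.re + 1) * (s.re + 1) := by nlinarith
      have a3 : 0 ≤ s.im * s.im := mul_self_nonneg _
      calc ((1 + s.im ^ 2) / 2) ^ 2 ≤ (81 / 100 + s.im * s.im) * (361 / 100 + s.im * s.im) := by
            nlinarith
        _ ≤ _ := by gcongr
    exact le_of_pow_le_pow_left₀ two_ne_zero (by positivity) h2
  have h3 : 0 < (1 + s.im ^ 2) / 2 := by positivity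
  calc 1 / (‖s‖ * ‖s + 1‖) ≤ 1 / ((1 + s.im ^ 2) / 2) := one_div_le_one_div_of_le h3 h1
    _ = 2 / (1 + s.im ^ 2) := by field_simp

/-- Truncation of an integral over the line. -/
lemma trunc {G : ℝ → ℂ} {M T : ℝ} (hT : 0 < T) (hGc : Continuous G)
    (hG : ∀ u, ‖G u‖ ≤ M * (1 + u ^ 2)⁻¹) :
    ‖∫ u, G u‖ ≤ ‖∫ u in (-T)..T, G u‖ + 2 * M / T := by
  have hM : 0 ≤ M := by
    have := (norm_nonneg _).trans (hG 0)
    simpa using this
  have hi1 : Integrable (fun u : ℝ => M * (1 + u ^ 2)⁻¹) := integrable_inv_one_add_sq.const_mul _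
  have hi : Integrable G := hi1.mono' hGc.aestronglyMeasurable (Filter.Eventually.of_forall hG)
  have hs : MeasurableSet (Set.Ioc (-T) T) := measurableSet_Ioc
  have h1 := integral_add_compl hs hi
  rw [← h1, intervalIntegral.integral_of_le (by linarith)]
  refine (norm_add_le _ _).trans ?_
  gcongr
  have h2 : ‖∫ u in (Set.Ioc (-T) T)ᶜ, G u‖ ≤ ∫ u in (Set.Ioc (-T) T)ᶜ, M * (1 + u ^ 2)⁻¹ :=
    norm_integral_le_of_norm_le hi1.integrableOn (Filter.Eventually.of_forall hG)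
  refine h2.trans ?_
  have h3 := integral_add_compl hs hi1
  have h9 : ∫ u : ℝ, M * (1 + u ^ 2)⁻¹ = M * Real.pi := by
    rw [integral_const_mul, integral_univ_inv_one_add_sq]
  rw [h9, ← intervalIntegral.integral_of_le (by linarith), intervalIntegral.integral_const_mul,
    integral_inv_one_add_sq, Real.arctan_neg] at h3
  have h4 : Real.arctan T = Real.pi / 2 - Real.arctan T⁻¹ := by
    rw [Real.arctan_inv_of_pos hT]; ring
  have h5 : Real.arctan T⁻¹ ≤ T⁻¹ := by
    have h6 : 0 ≤ T⁻¹ := by positivity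
    have h7 := Real.le_tan (Real.arctan_nonneg.2 h6) (Real.arctan_lt_pi_div_two _)
    rwa [Real.tan_arctan] at h7
  have h8 : ∫ u in (Set.Ioc (-T) T)ᶜ, M * (1 + u ^ 2)⁻¹ = 2 * M * Real.arctan T⁻¹ := by
    rw [h4] at h3
    linarith
  rw [h8, div_eq_mul_inv]
  exact mul_le_mul_of_nonneg_left h5 (by positivity)

end LPShiftAux

open LPShiftAux

/-- Riesz means. `riesz_formula` with `σ₂ = 1 + 1/(30 log x)` (so `x^σ₂ ≤ 2x`), tail `|u| > T` by
`‖L'/L‖ ≤ C log x` (`LF_logDeriv_le`) and `‖rieszM‖ ≤ 1/(1+u^2)` (`norm_rieszM_le`), then `shift_line` to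
`σ₁ = 1 - η/2` with `logDeriv_bound` at height `2T` (`el r (2T) ≤ 2 el r T`);
`‖rieszM s‖ = 1/‖s(s+1)‖ ≤ 2/(1+u^2)` on `Re s ≥ 9/10`. -/
theorem riesz_shift : ∃ C : ℝ, 0 < C ∧ ∀ (r : ℕ) [NeZero r] (χ : DirichletCharacter ℂ r), χ ≠ 1 →
    ∀ η T t₀ x : ℝ, 0 < η → η ≤ 1 / 100 → 1 ≤ T → |t₀| ≤ T → 3 ≤ x →
    (∀ s : ℂ, 1 - η < s.re → |s.im| ≤ 2 * T + 1 → χ.LFunction s ≠ 0) →
    ‖∑ n ∈ Finset.Icc 1 ⌊x⌋₊, lamt χ t₀ n * ((1 - n / x : ℝ) : ℂ)‖ ≤
      C * x * ((x ^ (-(η / 2)) + 1 / T ^ 2) * el r T / η + Real.log x / T) := by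
  obtain ⟨C₁, hC₁, H1⟩ := logDeriv_bound
  obtain ⟨C₂, hC₂, H2⟩ := LF_logDeriv_le
  refine ⟨16 * C₁ + 120 * C₂, by positivity, ?_⟩
  intro r _ χ hχ η T t₀ x hη hη1 hT ht₀ hx hL
  have hr1 : 1 ≤ r := Nat.one_le_iff_ne_zero.2 (NeZero.ne r)
  have hx0 : 0 < x := by linarith
  have hT0 : 0 < T := by linarith
  have hlog : 1 < Real.log x := by
    rw [Real.lt_log_iff_exp_lt hx0]
    have := Real.exp_one_lt_d9
    linarith
  have hell : 1 ≤ el r T := one_le_el hr1 T
  have hel2 : el r (2 * T) ≤ 2 * el r T := by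
    refine el_two_mul hr1 ?_
    rw [abs_mul, abs_two]
    linarith
  set σ₂ : ℝ := 1 + 1 / (30 * Real.log x) with hσ₂
  set σ₁ : ℝ := 1 - η / 2 with hσ₁
  have hd0 : 0 < 1 / (30 * Real.log x) := by positivity
  have hd1 : 1 / (30 * Real.log x) ≤ 1 / 30 := by
    apply one_div_le_one_div_of_le (by norm_num); linarith
  have hσ2a : 1 < σ₂ := by linarith
  have hσ2b : σ₂ ≤ 1 + 1 / 30 := by linarith
  have hxσ : ∀ σ : ℝ, σ ≤ σ₂ → x ^ σ ≤ 2 * x := by
    intro σ hσ
    calc x ^ σ ≤ x ^ σ₂ := Real.rpow_le_rpow_of_exponent_le (by linarith) hσ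
      _ = x * x ^ (1 / (30 * Real.log x)) := by
          rw [hσ₂, Real.rpow_add hx0, Real.rpow_one]
      _ = x * Real.exp (1 / 30) := by
          rw [Real.rpow_def_of_pos hx0]
          congr 2
          field_simp
      _ ≤ x * 2 := by
          have h1 : Real.exp (1 / 30) ≤ 2 := by
            have h2 := Real.exp_bound_div_one_sub_of_interval (x := 1 / 30) (by norm_num) (by norm_num)
            linarith
          exact mul_le_mul_of_nonneg_left h1 hx0.le
      _ = 2 * x := by ring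
  -- the function
  set F : ℂ → ℂ := fun s => -logDeriv χ.LFunction (s + t₀ * I) * (x : ℂ) ^ s * rieszM s with hF
  have hxn : ∀ s : ℂ, ‖(x : ℂ) ^ s‖ = x ^ s.re := fun s =>
    Complex.norm_cpow_eq_rpow_re_of_pos hx0 s
  have hFn : ∀ s : ℂ, ‖F s‖ = ‖logDeriv χ.LFunction (s + t₀ * I)‖ * x ^ s.re * ‖rieszM s‖ := by
    intro s
    rw [hF]
    simp only [norm_mul, norm_neg, hxn]
  have hre : ∀ s : ℂ, (s + t₀ * I).re = s.re := by intro s; simp
  have him : ∀ s : ℂ, (s + t₀ * I).im = s.im + t₀ := by intro s; simp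
  -- differentiability
  have hdiff : ∀ s : ℂ, 0 < s.re → χ.LFunction (s + t₀ * I) ≠ 0 → DifferentiableAt ℂ F s := by
    intro s hs hne
    have hs0 : s ≠ 0 := by
      intro h
      rw [h] at hs
      simp at hs
    have hs1 : s + 1 ≠ 0 := by
      intro h
      have := congrArg Complex.re h
      rw [add_re, one_re, zero_re] at this
      linarith
    have hLd : Differentiable ℂ χ.LFunction := DirichletCharacter.differentiable_LFunction hχ
    have hd1 : DifferentiableAt ℂ (logDeriv χ.LFunction) (s + t₀ * I) := by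
      have h2 : DifferentiableAt ℂ (deriv χ.LFunction) (s + t₀ * I) :=
        (hLd.analyticAt (s + t₀ * I)).deriv.differentiableAt
      exact h2.div (hLd _) hne
    have hd2 : DifferentiableAt ℂ (fun s : ℂ => logDeriv χ.LFunction (s + t₀ * I)) s :=
      DifferentiableAt.comp (g := logDeriv χ.LFunction) (f := fun s : ℂ => s + t₀ * I) s hd1
        (differentiableAt_id.add_const _)
    have hd3 : DifferentiableAt ℂ (fun s : ℂ => (x : ℂ) ^ s) s :=
      differentiableAt_id.const_cpow (Or.inl (by exact_mod_cast hx0.ne'))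
    have hd4 : DifferentiableAt ℂ rieszM s := by
      have : rieszM = fun s : ℂ => 1 / s - 1 / (s + 1) := rfl
      rw [this]
      exact ((differentiableAt_const _).div differentiableAt_id hs0).sub
        ((differentiableAt_const _).div (differentiableAt_id.add_const _) hs1)
    exact (hd2.neg.mul hd3).mul hd4
  -- the formula
  have hs2 : ∀ u : ℝ, 1 < ((σ₂ : ℂ) + u * I).re := by
    intro u; simpa using hσ2a
  have hform := riesz_formula (a := lamt χ t₀) hσ2a.le hx0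
    (LSeries_lamt (χ := χ) t₀ (s := (σ₂ : ℂ)) (by simpa using hσ2a)).1
  have hform2 : ∀ u : ℝ, LSeries (lamt χ t₀) (σ₂ + u * I) * (x : ℂ) ^ ((σ₂ : ℂ) + u * I) *
      rieszM (σ₂ + u * I) = F (σ₂ + u * I) := by
    intro u
    rw [(LSeries_lamt (χ := χ) t₀ (hs2 u)).2]
  simp only [hform2] at hform
  -- bound of the tail
  have hGb : ∀ u : ℝ, ‖F (σ₂ + u * I)‖ ≤ 60 * C₂ * Real.log x * x * (1 + u ^ 2)⁻¹ := by
    intro u
    have e1 : ((σ₂ : ℂ) + u * I).re = σ₂ := by simp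
    rw [hFn, e1]
    have h1 := H2 r χ hχ (σ₂ + u * I + t₀ * I) (by rw [hre, e1]; exact hσ2a)
      (by rw [hre, e1]; linarith)
    rw [hre, e1] at h1
    have h2 : C₂ / (σ₂ - 1) = 30 * C₂ * Real.log x := by
      rw [hσ₂]; field_simp; ring
    rw [h2] at h1
    have h3 := norm_rieszM_le hσ2a.le u
    have h4 := hxσ σ₂ le_rfl
    calc ‖logDeriv χ.LFunction (σ₂ + u * I + t₀ * I)‖ * x ^ σ₂ * ‖rieszM (σ₂ + u * I)‖
        ≤ (30 * C₂ * Real.log x) * (2 * x) * (1 + u ^ 2)⁻¹ := by gcongr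
      _ = 60 * C₂ * Real.log x * x * (1 + u ^ 2)⁻¹ := by ring
  have hGc : Continuous (fun u : ℝ => F (σ₂ + u * I)) := by
    rw [continuous_iff_continuousAt]
    intro u
    have h1 : DifferentiableAt ℂ F (σ₂ + u * I) := by
      refine hdiff _ (by have := hs2 u; linarith) ?_
      refine DirichletCharacter.LFunction_ne_zero_of_one_le_re χ (Or.inl hχ) ?_
      rw [hre]; exact (hs2 u).le
    have h2 : ContinuousAt (fun u : ℝ => (σ₂ : ℂ) + u * I) u := by fun_prop
    exact ContinuousAt.comp (g := F) (f := fun u : ℝ => (σ₂ : ℂ) + u * I) h1.continuousAt h2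
  have htr := trunc hT0 hGc hGb
  -- the shift
  have hzf : ∀ s : ℂ, σ₁ ≤ s.re → |s.im| ≤ T → χ.LFunction (s + t₀ * I) ≠ 0 := by
    intro s h1 h2
    apply hL
    · rw [hre]; linarith
    · rw [him]
      have := abs_add_le s.im t₀
      linarith
  have hld : ∀ s : ℂ, σ₁ ≤ s.re → s.re ≤ σ₂ → |s.im| ≤ T →
      ‖logDeriv χ.LFunction (s + t₀ * I)‖ ≤ 2 * C₁ * el r T / η := by
    intro s h1 h2 h3
    have h4 := H1 r χ hχ η (2 * T) hη hη1 (by linarith) hL (s + t₀ * I)
      (by rw [hre]; exact h1) (by rw [hre]; linarith) (by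
        rw [him]
        have := abs_add_le s.im t₀
        linarith)
    refine h4.trans ?_
    rw [div_le_div_iff_of_pos_right hη]
    calc C₁ * el r (2 * T) ≤ C₁ * (2 * el r T) := mul_le_mul_of_nonneg_left hel2 hC₁.le
      _ = 2 * C₁ * el r T := by ring
  have hsh := shift_line (F := F) (σ₁ := σ₁) (σ₂ := σ₂) (T := T)
    (B₁ := 2 * C₁ * el r T / η * x ^ σ₁ * 2)
    (B₂ := 2 * C₁ * el r T / η * (2 * x) * (2 / T ^ 2)) (by linarith) hT0
    (fun s h1 h2 h3 => hdiff s (by linarith) (hzf s h1 h3))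
    (by
      intro u hu
      have e1 : ((σ₁ : ℂ) + u * I).re = σ₁ := by simp
      have e2 : ((σ₁ : ℂ) + u * I).im = u := by simp
      have h1 := hld (σ₁ + u * I) (by rw [e1]) (by rw [e1]; linarith) (by rw [e2]; exact hu)
      have h2 := norm_rieszM_le' (s := (σ₁ : ℂ) + u * I) (by rw [e1]; linarith)
      rw [e2] at h2
      rw [hFn, e1]
      calc _ ≤ (2 * C₁ * el r T / η) * x ^ σ₁ * (2 / (1 + u ^ 2)) := by gcongr
        _ = _ := by ring)
    (by
      intro σ h1 h2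
      have key : ∀ s : ℂ, s.re = σ → s.im ^ 2 = T ^ 2 → |s.im| ≤ T →
          ‖F s‖ ≤ 2 * C₁ * el r T / η * (2 * x) * (2 / T ^ 2) := by
        intro s e1 e2 e3
        have h3 := hld s (by rw [e1]; exact h1) (by rw [e1]; exact h2) e3
        have h4 := norm_rieszM_le' (s := s) (by rw [e1]; linarith)
        rw [e2] at h4
        have h5 : 2 / (1 + T ^ 2) ≤ 2 / T ^ 2 :=
          div_le_div_of_nonneg_left (by norm_num) (by positivity) (by linarith)
        have h6 := hxσ σ h2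
        rw [hFn, e1]
        calc _ ≤ (2 * C₁ * el r T / η) * (2 * x) * (2 / T ^ 2) := by
              gcongr
              exact h4.trans h5
          _ = _ := by ring
      constructor
      · refine key _ (by simp) (by simp) ?_
        simp [abs_of_pos hT0]
      · refine key _ (by simp) (by simp) ?_
        simp [abs_of_pos hT0])
  -- conclusion
  set S : ℂ := ∑ n ∈ Finset.Icc 1 ⌊x⌋₊, lamt χ t₀ n * ((1 - n / x : ℝ) : ℂ) with hS
  have hpi3 := Real.pi_gt_three
  have hpi4 := Real.pi_le_four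
  have hnorm : 2 * Real.pi * ‖S‖ = ‖∫ u : ℝ, F (σ₂ + u * I)‖ := by
    rw [← hform, norm_mul]
    congr 1
    rw [Complex.norm_real, Real.norm_of_nonneg (by positivity)]
  have hxs : x ^ σ₁ = x * x ^ (-(η / 2)) := by
    rw [hσ₁, sub_eq_add_neg, Real.rpow_add hx0, Real.rpow_one]
  rw [hxs] at hsh
  have hE0 : 0 ≤ el r T / η := by positivity
  set E : ℝ := el r T / η with hE
  set P : ℝ := x ^ (-(η / 2)) with hP
  have hP0 : 0 ≤ P := Real.rpow_nonneg hx0.le _
  have hsd : σ₂ - σ₁ ≤ 1 := by linarith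
  have hsd0 : 0 ≤ σ₂ - σ₁ := by linarith
  have hA : Real.pi * (2 * C₁ * el r T / η * (x * P) * 2) ≤ 16 * C₁ * x * (P * E) := by
    have h1 : 2 * C₁ * el r T / η * (x * P) * 2 = 4 * C₁ * x * (P * E) := by rw [hE]; ring
    rw [h1]
    have h2 : 0 ≤ 4 * C₁ * x * (P * E) := by positivity
    nlinarith
  have hB : 2 * (σ₂ - σ₁) * (2 * C₁ * el r T / η * (2 * x) * (2 / T ^ 2)) ≤
      16 * C₁ * x * (1 / T ^ 2 * E) := by
    have h1 : 2 * C₁ * el r T / η * (2 * x) * (2 / T ^ 2) = 8 * C₁ * x * (1 / T ^ 2 * E) := by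
      rw [hE]; ring
    rw [h1]
    have h2 : 0 ≤ 8 * C₁ * x * (1 / T ^ 2 * E) := by positivity
    nlinarith
  have hC : 2 * (60 * C₂ * Real.log x * x) / T = 120 * C₂ * x * (Real.log x / T) := by ring
  rw [hC] at htr
  have hfin : 2 * Real.pi * ‖S‖ ≤ 16 * C₁ * x * (P * E) + 16 * C₁ * x * (1 / T ^ 2 * E) +
      120 * C₂ * x * (Real.log x / T) := by
    rw [hnorm]
    linarith
  have hSn : ‖S‖ ≤ 2 * Real.pi * ‖S‖ := by
    have := norm_nonneg S
    nlinarith
  refine (hSn.trans hfin).trans ?_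
  have e1 : (16 * C₁ + 120 * C₂) * x * ((P + 1 / T ^ 2) * el r T / η + Real.log x / T) =
      16 * C₁ * x * (P * E) + 16 * C₁ * x * (1 / T ^ 2 * E) + 120 * C₂ * x * (Real.log x / T)
      + (120 * C₂ * x * ((P + 1 / T ^ 2) * E) + 16 * C₁ * x * (Real.log x / T)) := by
    rw [hE]; ring
  rw [e1]
  have : 0 ≤ 120 * C₂ * x * ((P + 1 / T ^ 2) * E) + 16 * C₁ * x * (Real.log x / T) := by
    positivity
  linarith

end Pool.Agent.MVD
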