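import Pool.Agent.Lib.Hadamard.Entire
import Pool.Agent.Lib.ANT.Siegel

open Finset Complex
open scoped ArithmeticFunction.vonMangoldt

namespace Pool.Agent.MVD

open Pool.Agent.ANT

/-- Abstract local lemma for the real part of the logarithmic derivative. -/
theorem local_re {f : ℂ → ℂ} (hf : Differentiable ℂ f) {s0 : ℂ} {A : ℝ} (hA : 1 ≤ A)
    (hs0 : s0.re = 51 / 50) (hgr : ∀ z, ‖z - s0‖ ≤ 1 → ‖f z‖ ≤ ‖f s0‖ * Real.exp A)
    (hz : ∀ z, f z = 0 → z.re ≤ 1) (hld : ‖logDeriv f s0‖ ≤ A) (U : Finset ℂ)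
    (hU : ∀ a ∈ U, f a = 0 ∧ ‖a - s0‖ ≤ 1 / 4) {s : ℂ} (him : s.im = s0.im) (h1 : 1 < s.re)
    (h2 : s.re ≤ 51 / 50) :
    -(logDeriv f s).re ≤ -∑ a ∈ U, (1 / (s - a)).re + 100 * A := by
  classical
  set g : ℂ → ℂ := fun z => f (s0 + z) with hg
  have hgd : Differentiable ℂ g := hf.comp (differentiable_const _ |>.add differentiable_id)
  have hf0 : f s0 ≠ 0 := by
    intro h
    have := hz s0 h
    linarith
  have hg0 : g 0 ≠ 0 := by simpa [hg] using hf0
  have hld' : ∀ z, logDeriv g z = logDeriv f (s0 + z) := by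
    intro z
    rw [logDeriv_apply, logDeriv_apply]
    congr 1
    exact deriv_comp_const_add f s0 z
  have hA0 : 0 < A := by linarith
  have hfin : {z : ℂ | g z = 0 ∧ z ∈ Metric.closedBall (0 : ℂ) (1 / 3)}.Finite :=
    Hadamard.finite_zeros hgd hg0 0 (1 / 3)
  set T : Finset ℂ := hfin.toFinset with hT
  have hTm : ∀ a, a ∈ T ↔ g a = 0 ∧ ‖a‖ ≤ 1 / 3 := by
    intro a
    simp [hT]
  have hgr' : ∀ z, ‖z‖ ≤ 1 → ‖g z‖ ≤ ‖g 0‖ * Real.exp A := by
    intro z hz1
    have := hgr (s0 + z) (by simpa using hz1)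
    simpa [hg] using this
  have key := Hadamard.norm_logDeriv_sub_sum_le hgd hg0 (R := 1 / 3) (r := 1 / 3) (A := A)
    (by norm_num) le_rfl hA0 (fun z hz1 => hgr' z (by linarith)) T (fun a ha => (hTm a).1 ha)
    (fun a ha1 ha2 => (hTm a).2 ⟨ha1, ha2.le⟩) (z := s - s0) (w := 0) (by
      have : s - s0 = ((s.re - s0.re : ℝ) : ℂ) := by
        apply Complex.ext <;> simp [him]
      rw [this, Complex.norm_real, Real.norm_eq_abs, abs_le]
      constructor <;> linarith) (by norm_num) (by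
      intro h
      have h3 : f s = 0 := by simpa [hg] using h
      have := hz s h3
      linarith) hg0
  have hcount := Hadamard.zero_count hgd hg0 (R := 1 / 3) (A := A) (by norm_num)
    (fun z hz1 => hgr' z (by linarith)) T (fun a ha => (hTm a).1 ha)
  have hnorm : ‖s - s0‖ ≤ 1 / 50 := by
    have : s - s0 = ((s.re - s0.re : ℝ) : ℂ) := by
      apply Complex.ext <;> simp [him]
    rw [this, Complex.norm_real, Real.norm_eq_abs, abs_le]
    constructor <;> linarith
  rw [hld', hld'] at key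
  have e1 : s0 + (s - s0) = s := by ring
  rw [e1, add_zero] at key
  -- real parts
  have hre : ∀ a ∈ T, 0 ≤ (1 / (s - s0 - a)).re := by
    intro a ha
    have h3 := ((hTm a).1 ha).1
    have h4 := hz (s0 + a) h3
    rw [one_div, Complex.inv_re]
    refine div_nonneg ?_ (Complex.normSq_nonneg _)
    simp only [sub_re, add_re] at h4 ⊢
    linarith
  have hre0 : ∀ a ∈ T, (1 / ((0 : ℂ) - a)).re ≤ 50 := by
    intro a ha
    have h3 := ((hTm a).1 ha).1
    have h4 := hz (s0 + a) h3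
    rw [add_re, hs0] at h4
    have h5 : (1 / 50 : ℝ) ≤ ‖(0 : ℂ) - a‖ := by
      have := Complex.abs_re_le_norm ((0 : ℂ) - a)
      have h6 : (0 - a).re = -a.re := by simp
      rw [h6] at this
      have := le_abs_self (-a.re)
      linarith
    refine (Complex.re_le_norm _).trans ?_
    rw [norm_div, norm_one, div_le_iff₀ (by linarith)]
    linarith
  have hm : ∀ a ∈ T, 1 ≤ analyticOrderNatAt g a := by
    intro a ha
    have h3 := ((hTm a).1 ha).1
    rw [Nat.one_le_iff_ne_zero]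
    intro h
    have h4 : AnalyticAt ℂ g a := hgd.analyticAt a
    unfold analyticOrderNatAt at h
    rw [ENat.toNat_eq_zero] at h
    rcases h with h | h
    · exact (h4.analyticOrderAt_eq_zero.mp h) h3
    · exact absurd h (Hadamard.order_ne_top hgd hg0 a)
  have hsum : (∑ a ∈ T, (analyticOrderNatAt g a : ℂ) * (1 / (s - s0 - a) - 1 / (0 - a))).re ≥
      ∑ a ∈ U, (1 / (s - a)).re - 73 * A := by
    rw [Complex.re_sum]
    have h3 : ∀ a ∈ T, ((analyticOrderNatAt g a : ℂ) * (1 / (s - s0 - a) - 1 / (0 - a))).re =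
        (analyticOrderNatAt g a : ℝ) * (1 / (s - s0 - a)).re -
          (analyticOrderNatAt g a : ℝ) * (1 / (0 - a)).re := by
      intro a _
      rw [← Complex.ofReal_natCast, Complex.re_ofReal_mul, sub_re]
      ring
    rw [Finset.sum_congr rfl h3, Finset.sum_sub_distrib]
    have h4 : ∑ a ∈ T, (analyticOrderNatAt g a : ℝ) * (1 / ((0:ℂ) - a)).re ≤ 73 * A := by
      calc ∑ a ∈ T, (analyticOrderNatAt g a : ℝ) * (1 / ((0:ℂ) - a)).re
          ≤ ∑ a ∈ T, (analyticOrderNatAt g a : ℝ) * 50 :=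
            Finset.sum_le_sum fun a ha => mul_le_mul_of_nonneg_left (hre0 a ha) (Nat.cast_nonneg _)
        _ = 50 * ((∑ a ∈ T, analyticOrderNatAt g a : ℕ) : ℝ) := by
            rw [← Finset.sum_mul]; push_cast; ring
        _ ≤ 73 * A := by
            have h5 := Real.log_two_gt_d9
            have h6 : (0 : ℝ) ≤ ((∑ a ∈ T, analyticOrderNatAt g a : ℕ) : ℝ) := Nat.cast_nonneg _
            nlinarith
    have h5 : ∑ a ∈ U, (1 / (s - a)).re ≤
        ∑ a ∈ T, (analyticOrderNatAt g a : ℝ) * (1 / (s - s0 - a)).re := by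
      have h6 : ∑ a ∈ U, (1 / (s - a)).re = ∑ a ∈ U.image (fun a => a - s0), (1 / (s - s0 - a)).re := by
        rw [Finset.sum_image]
        · refine Finset.sum_congr rfl fun a _ => ?_
          congr 2
          ring
        · intro a _ b _ hab
          simpa using hab
      rw [h6]
      have hsub : U.image (fun a => a - s0) ⊆ T := by
        intro a ha
        obtain ⟨b, hb, rfl⟩ := Finset.mem_image.mp ha
        obtain ⟨h7, h8⟩ := hU b hb
        rw [hTm]
        refine ⟨?_, by linarith⟩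
        simp only [hg]
        rw [add_sub_cancel]
        exact h7
      calc ∑ a ∈ U.image (fun a => a - s0), (1 / (s - s0 - a)).re
          ≤ ∑ a ∈ T, (1 / (s - s0 - a)).re :=
            Finset.sum_le_sum_of_subset_of_nonneg hsub fun a ha _ => hre a ha
        _ ≤ _ := by
            refine Finset.sum_le_sum fun a ha => ?_
            have h7 : (1 : ℝ) ≤ analyticOrderNatAt g a := by exact_mod_cast hm a ha
            nlinarith [hre a ha]
    linarith
  have hfin2 := (Complex.abs_re_le_norm _).trans key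
  rw [abs_le] at hfin2
  have h10 := hfin2.1
  rw [sub_re, sub_re] at h10
  have h11 : 64 * A / (1 / 3) ^ 2 * ‖s - s0 - 0‖ ≤ 12 * A := by
    rw [sub_zero]
    calc 64 * A / (1 / 3) ^ 2 * ‖s - s0‖ ≤ 64 * A / (1 / 3) ^ 2 * (1 / 50) := by gcongr
      _ ≤ 12 * A := by norm_num; linarith
  have h12 : (logDeriv f s0).re ≥ -A := by
    have := (Complex.abs_re_le_norm (logDeriv f s0)).trans hld
    rw [abs_le] at this
    exact this.1
  linarith

/-- The `L`-function on the half-plane `Re s > 0` for a nontrivial character. -/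
theorem LF_eq_HInt {r : ℕ} [NeZero r] {χ : DirichletCharacter ℂ r} (hχ : χ ≠ 1) {s : ℂ}
    (hs : 0 < s.re) : χ.LFunction s = s * HInt (fun n => χ n) 0 s := by
  have hopen : IsOpen {z : ℂ | 0 < z.re} := isOpen_re_pos
  have h1 : AnalyticOnNhd ℂ (χ.LFunction) {z : ℂ | 0 < z.re} := fun z _ =>
    (DirichletCharacter.differentiable_LFunction hχ).analyticAt z
  have h2 : AnalyticOnNhd ℂ (LX χ) {z : ℂ | 0 < z.re} := by
    refine DifferentiableOn.analyticOnNhd (fun z hz => ?_) hopen
    exact (LX_differentiableAt χ hz (Or.inl hχ)).differentiableWithinAt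
  have hpre : IsPreconnected {z : ℂ | 0 < z.re} := (convex_halfSpace_re_gt 0).isPreconnected
  have heq := h1.eqOn_of_preconnected_of_eventuallyEq h2 hpre (z₀ := 2) (by simp) (by
    have : {z : ℂ | 1 < z.re} ∈ nhds (2 : ℂ) :=
      (isOpen_lt continuous_const continuous_re).mem_nhds (by simp)
    filter_upwards [this] with z hz
    exact (LX_eq_LFunction χ hz).symm)
  have h3 := heq hs
  rw [h3]
  unfold LX
  rw [kap_eq_zero hχ, Gx_zero]

/-- The same for the trivial character. -/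
theorem LT_eq_HInt {r : ℕ} [NeZero r] {s : ℂ} (hs : 0 < s.re) :
    DirichletCharacter.LFunctionTrivChar₁ r s = kap (1 : DirichletCharacter ℂ r) * s +
      (s - 1) * (s * HInt (fun n => (1 : DirichletCharacter ℂ r) n) (kap (1 : DirichletCharacter ℂ r)) s) := by
  have hopen : IsOpen {z : ℂ | 0 < z.re} := isOpen_re_pos
  have h1 : AnalyticOnNhd ℂ (DirichletCharacter.LFunctionTrivChar₁ r) {z : ℂ | 0 < z.re} := fun z _ =>
    (DirichletCharacter.differentiable_LFunctionTrivChar₁ r).analyticAt z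
  have h2 : AnalyticOnNhd ℂ (fun s => kap (1 : DirichletCharacter ℂ r) * s +
      (s - 1) * (s * HInt (fun n => (1 : DirichletCharacter ℂ r) n) (kap (1 : DirichletCharacter ℂ r)) s))
      {z : ℂ | 0 < z.re} := by
    refine DifferentiableOn.analyticOnNhd (fun z hz => ?_) hopen
    have h3 : DifferentiableAt ℂ (HInt (fun n => (1 : DirichletCharacter ℂ r) n)
        (kap (1 : DirichletCharacter ℂ r))) z := HInt_differentiableAt (fun _ hu => norm_Rem_char_le _ hu) hz
    have h4 : DifferentiableAt ℂ (fun s => kap (1 : DirichletCharacter ℂ r) * s +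
      (s - 1) * (s * HInt (fun n => (1 : DirichletCharacter ℂ r) n) (kap (1 : DirichletCharacter ℂ r)) s)) z := by
      fun_prop
    exact h4.differentiableWithinAt
  have hpre : IsPreconnected {z : ℂ | 0 < z.re} := (convex_halfSpace_re_gt 0).isPreconnected
  refine h1.eqOn_of_preconnected_of_eventuallyEq h2 hpre (z₀ := 2) (by simp) ?_ hs
  have : {z : ℂ | 1 < z.re} ∈ nhds (2 : ℂ) :=
    (isOpen_lt continuous_const continuous_re).mem_nhds (by simp)
  filter_upwards [this] with z hz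
  have hz' : 1 < z.re := hz
  have hz1 : z ≠ 1 := by
    rintro rfl
    simp at hz'
  have hz2 : z - 1 ≠ 0 := sub_ne_zero.mpr hz1
  rw [DirichletCharacter.LFunctionTrivChar₁, Function.update_of_ne hz1]
  have h5 := LX_eq_LFunction (1 : DirichletCharacter ℂ r) hz'
  have h6 : DirichletCharacter.LFunctionTrivChar r z = (1 : DirichletCharacter ℂ r).LFunction z := rfl
  rw [h6, ← h5]
  unfold LX Gx
  field_simp

theorem LF_growth' {r : ℕ} [NeZero r] {χ : DirichletCharacter ℂ r} (hχ : χ ≠ 1) {s : ℂ}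
    (hs : 1 / 50 ≤ s.re) : ‖χ.LFunction s‖ ≤ 150 * r * ‖s‖ := by
  have hs0 : 0 < s.re := by linarith
  rw [LF_eq_HInt hχ hs0, norm_mul]
  have h1 : ‖HInt (fun n => χ n) 0 s‖ ≤ 3 * r / s.re := by
    refine norm_HInt_le (fun u hu => ?_) hs0
    have := norm_Rem_char_le χ hu
    rwa [kap_eq_zero hχ] at this
  have h2 : 3 * (r : ℝ) / s.re ≤ 150 * r := by
    rw [div_le_iff₀ hs0]
    have : (0 : ℝ) ≤ r := Nat.cast_nonneg _
    nlinarith
  have h3 : 0 ≤ ‖s‖ := norm_nonneg _
  calc ‖s‖ * ‖HInt (fun n => χ n) 0 s‖ ≤ ‖s‖ * (150 * r) := by gcongr; linarith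
    _ = _ := by ring

theorem LT_growth {r : ℕ} [NeZero r] {s : ℂ} (hs : 1 / 50 ≤ s.re) :
    ‖DirichletCharacter.LFunctionTrivChar₁ r s‖ ≤ 151 * r * (‖s‖ + 1) ^ 2 := by
  have hs0 : 0 < s.re := by linarith
  rw [LT_eq_HInt hs0]
  have hr : (1 : ℝ) ≤ r := by exact_mod_cast Nat.pos_of_ne_zero (NeZero.ne r)
  have h1 : ‖HInt (fun n => (1 : DirichletCharacter ℂ r) n) (kap (1 : DirichletCharacter ℂ r)) s‖ ≤
      3 * r / s.re := norm_HInt_le (fun u hu => norm_Rem_char_le _ hu) hs0
  have h2 : 3 * (r : ℝ) / s.re ≤ 150 * r := by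
    rw [div_le_iff₀ hs0]
    have : (0 : ℝ) ≤ r := Nat.cast_nonneg _
    nlinarith
  have h3 : 0 ≤ ‖s‖ := norm_nonneg _
  have h4 : ‖s - 1‖ ≤ ‖s‖ + 1 := by
    have := norm_sub_le s 1
    simpa using this
  have h5 := norm_kap_le (1 : DirichletCharacter ℂ r)
  calc _ ≤ ‖kap (1 : DirichletCharacter ℂ r) * s‖ + ‖(s - 1) * (s * HInt (fun n =>
        (1 : DirichletCharacter ℂ r) n) (kap (1 : DirichletCharacter ℂ r)) s)‖ := norm_add_le _ _
    _ ≤ 1 * ‖s‖ + (‖s‖ + 1) * (‖s‖ * (150 * r)) := by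
        rw [norm_mul, norm_mul, norm_mul]
        gcongr
        linarith
    _ ≤ 151 * r * (‖s‖ + 1) ^ 2 := by nlinarith

end Pool.Agent.MVD
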