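import Pool.Agent.MVD.LPZeroA
import Pool.Agent.Lib.ANT.LLower

/-!
# Local bounds for the logarithmic derivatives
-/

open Finset Complex
open scoped ArithmeticFunction.vonMangoldt

namespace Pool.Agent.MVD

open Pool.Agent.ANT

/-- real part of the Dirichlet series with coefficients `χ(n) Λ(n)` -/
noncomputable def vm {r : ℕ} (χ : DirichletCharacter ℂ r) (s : ℂ) : ℝ :=
  (LSeries ((fun n : ℕ => χ n) * (fun n : ℕ => ((Λ n : ℝ) : ℂ))) s).re

/-- `log (r (|t| + 3))` -/
noncomputable def lel (r : ℕ) (t : ℝ) : ℝ := Real.log (r * (|t| + 3))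

theorem one_le_lel {r : ℕ} [NeZero r] (t : ℝ) : 1 ≤ lel r t := by
  unfold lel
  have hr : (1 : ℝ) ≤ r := by exact_mod_cast Nat.pos_of_ne_zero (NeZero.ne r)
  rw [Real.le_log_iff_exp_le (by positivity)]
  have := Real.exp_one_lt_d9
  have h1 : 0 ≤ |t| := abs_nonneg t
  nlinarith

theorem logDeriv_LF_eq {r : ℕ} [NeZero r] (χ : DirichletCharacter ℂ r) {s : ℂ} (hs : 1 < s.re) :
    LSeries ((fun n : ℕ => χ n) * (fun n : ℕ => ((Λ n : ℝ) : ℂ))) s = -logDeriv χ.LFunction s := by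
  have h := DirichletCharacter.LSeries_twist_vonMangoldt_eq χ hs
  rw [h, logDeriv_apply, DirichletCharacter.deriv_LFunction_eq_deriv_LSeries χ hs,
    DirichletCharacter.LFunction_eq_LSeries χ hs, neg_div]

theorem vm_eq {r : ℕ} [NeZero r] (χ : DirichletCharacter ℂ r) {s : ℂ} (hs : 1 < s.re) :
    vm χ s = -(logDeriv χ.LFunction s).re := by
  unfold vm
  rw [logDeriv_LF_eq χ hs, neg_re]

/-- the value at `51/50` -/
noncomputable def Vc : ℝ := ∑' n : ℕ, ‖LSeries.term (fun n : ℕ => ((Λ n : ℝ) : ℂ)) ((51 / 50 : ℝ) : ℂ) n‖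

theorem Vc_nonneg : 0 ≤ Vc := tsum_nonneg fun _ => norm_nonneg _

theorem norm_logDeriv_base {r : ℕ} [NeZero r] (χ : DirichletCharacter ℂ r) {s : ℂ}
    (hs : s.re = 51 / 50) : ‖logDeriv χ.LFunction s‖ ≤ Vc := by
  have hs1 : 1 < s.re := by rw [hs]; norm_num
  have h1 : logDeriv χ.LFunction s =
      -LSeries ((fun n : ℕ => χ n) * (fun n : ℕ => ((Λ n : ℝ) : ℂ))) s := by
    rw [logDeriv_LF_eq χ hs1, neg_neg]
  rw [h1, norm_neg]
  have hsum : LSeriesSummable (fun n : ℕ => ((Λ n : ℝ) : ℂ)) ((51 / 50 : ℝ) : ℂ) :=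
    ArithmeticFunction.LSeriesSummable_vonMangoldt (by simp; norm_num)
  have h2 : Summable fun n => ‖LSeries.term ((fun n : ℕ => χ n) * (fun n : ℕ => ((Λ n : ℝ) : ℂ))) s n‖ :=
    (DirichletCharacter.LSeriesSummable_twist_vonMangoldt χ hs1).norm
  unfold LSeries Vc
  refine (norm_tsum_le_tsum_norm h2).trans (h2.tsum_le_tsum (fun n => ?_) hsum.norm)
  rw [LSeries.norm_term_eq, LSeries.norm_term_eq]
  split_ifs with hn
  · exact le_rfl
  · rw [ofReal_re, hs, Pi.mul_apply, norm_mul]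
    gcongr
    exact mul_le_of_le_one_left (norm_nonneg _) (χ.norm_le_one _)

/-- the constant of the local bounds -/
noncomputable def Kc : ℝ := 100 * (Vc + 61)

theorem Kc_ge : 6100 ≤ Kc := by
  unfold Kc
  have := Vc_nonneg
  linarith

theorem exp_ge {r : ℕ} [NeZero r] (t : ℝ) (k : ℕ) (hk : (k : ℝ) ≤ Vc + 61) :
    (r * (|t| + 3)) ^ k ≤ Real.exp ((Vc + 61) * lel r t) := by
  have hr : (1 : ℝ) ≤ r := by exact_mod_cast Nat.pos_of_ne_zero (NeZero.ne r)
  have hpos : (0 : ℝ) < r * (|t| + 3) := by positivity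
  have h1 : (r * (|t| + 3) : ℝ) ^ k = Real.exp (k * lel r t) := by
    unfold lel
    rw [mul_comm (k : ℝ), Real.exp_mul, Real.exp_log hpos, Real.rpow_natCast]
  rw [h1]
  have := one_le_lel (r := r) t
  gcongr

theorem base_norm {t : ℝ} {z : ℂ} (hz : ‖z - ((51 / 50 : ℝ) + t * I)‖ ≤ 1) :
    1 / 50 ≤ z.re ∧ ‖z‖ + 1 ≤ |t| + 4 := by
  have h1 := (Complex.abs_re_le_norm (z - ((51 / 50 : ℝ) + t * I))).trans hz
  have h2 : (z - ((51 / 50 : ℝ) + t * I)).re = z.re - 51 / 50 := by simp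
  rw [h2, abs_le] at h1
  constructor
  · linarith [h1.1]
  · have h3 : z = (z - ((51 / 50 : ℝ) + t * I)) + ((51 / 50 : ℝ) + t * I) := by ring
    have h4 : ‖z‖ ≤ 1 + (51 / 50 + |t|) := by
      rw [h3]
      refine (norm_add_le _ _).trans (add_le_add hz ((norm_add_le _ _).trans (add_le_add ?_ ?_)))
      · rw [Complex.norm_real, Real.norm_eq_abs, abs_of_pos (by norm_num)]
      · rw [norm_mul, norm_I, mul_one, Complex.norm_real, Real.norm_eq_abs]
    linarith

theorem base_lower {r : ℕ} [NeZero r] (χ : DirichletCharacter ℂ r) {s : ℂ} (hs : s.re = 51 / 50) :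
    1 / 150 ≤ ‖χ.LFunction s‖ := by
  have h1 := LX_lower_far χ (s := s) (by rw [hs]; norm_num) (by rw [hs]; norm_num)
  rw [LX_eq_LFunction χ (by rw [hs]; norm_num), hs] at h1
  linarith

/-- local bound for a nontrivial character -/
theorem vm_le {r : ℕ} [NeZero r] {χ : DirichletCharacter ℂ r} (hχ : χ ≠ 1) (t : ℝ) (U : Finset ℂ)
    (hU : ∀ a ∈ U, χ.LFunction a = 0 ∧ ‖a - ((51 / 50 : ℝ) + t * I)‖ ≤ 1 / 4) {σ : ℝ} (h1 : 1 < σ)
    (h2 : σ ≤ 51 / 50) :
    vm χ (σ + t * I) ≤ -∑ a ∈ U, (1 / (σ + t * I - a)).re + Kc * lel r t := by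
  have hr : (1 : ℝ) ≤ r := by exact_mod_cast Nat.pos_of_ne_zero (NeZero.ne r)
  have hs0 : (((51 / 50 : ℝ) : ℂ) + t * I).re = 51 / 50 := by simp
  have hl := one_le_lel (r := r) t
  have hV := Vc_nonneg
  have hA : 1 ≤ (Vc + 61) * lel r t := by nlinarith
  have key := local_re (DirichletCharacter.differentiable_LFunction hχ) (s0 := ((51 / 50 : ℝ) : ℂ) + t * I)
    (A := (Vc + 61) * lel r t) hA hs0 (fun z hz => ?_) (fun z hz => ?_) ?_ U hU (s := σ + t * I)
    (by simp) (by simpa using h1) (by simpa using h2)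
  · rw [vm_eq χ (by simpa using h1)]
    refine key.trans (le_of_eq ?_)
    unfold Kc
    ring
  · obtain ⟨h3, h4⟩ := base_norm hz
    have h5 := LF_growth' hχ h3
    have h6 := base_lower χ hs0
    have h7 := exp_ge (r := r) t 11 (by push_cast; linarith)
    have habs := abs_nonneg t
    have hx : (3 : ℝ) ≤ r * (|t| + 3) := by nlinarith
    have h8 : (59049 : ℝ) * (r * (|t| + 3)) ≤ (r * (|t| + 3)) ^ 11 := by
      calc (59049 : ℝ) * (r * (|t| + 3)) = 3 ^ 10 * (r * (|t| + 3)) := by norm_num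
        _ ≤ (r * (|t| + 3)) ^ 10 * (r * (|t| + 3)) := by gcongr
        _ = _ := by ring
    calc ‖χ.LFunction z‖ ≤ 150 * r * ‖z‖ := h5
      _ ≤ 150 * r * (|t| + 3) := by gcongr; linarith
      _ ≤ 1 / 150 * ((59049 : ℝ) * (r * (|t| + 3))) := by nlinarith
      _ ≤ ‖χ.LFunction ((51 / 50 : ℝ) + t * I)‖ * Real.exp ((Vc + 61) * lel r t) := by
          gcongr
          linarith
  · by_contra hcon
    push Not at hcon
    exact DirichletCharacter.LFunction_ne_zero_of_one_le_re χ (Or.inl hχ) hcon.le hz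
  · refine (norm_logDeriv_base χ hs0).trans ?_
    nlinarith

theorem logDeriv_LT_eq {r : ℕ} [NeZero r] {s : ℂ} (hs : 1 < s.re) :
    logDeriv (DirichletCharacter.LFunctionTrivChar₁ r) s =
      1 / (s - 1) + logDeriv (1 : DirichletCharacter ℂ r).LFunction s := by
  have hs1 : s ≠ 1 := by
    rintro rfl
    simp at hs
  have hs2 : s - 1 ≠ 0 := sub_ne_zero.mpr hs1
  have hne : (1 : DirichletCharacter ℂ r).LFunction s ≠ 0 :=
    DirichletCharacter.LFunction_ne_zero_of_one_le_re 1 (Or.inr hs1) hs.le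
  rw [logDeriv_apply, DirichletCharacter.deriv_LFunctionTrivChar₁_apply_of_ne_one r hs1,
    DirichletCharacter.LFunctionTrivChar₁, Function.update_of_ne hs1, logDeriv_apply]
  have h6 : DirichletCharacter.LFunctionTrivChar r = (1 : DirichletCharacter ℂ r).LFunction := rfl
  rw [h6]
  field_simp
  ring

/-- local bound for the trivial character -/
theorem vm_one_le {r : ℕ} [NeZero r] (t : ℝ) {σ : ℝ} (h1 : 1 < σ) (h2 : σ ≤ 51 / 50) :
    vm (1 : DirichletCharacter ℂ r) (σ + t * I) ≤ (1 / ((σ : ℂ) + t * I - 1)).re + Kc * lel r t := by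
  have hr : (1 : ℝ) ≤ r := by exact_mod_cast Nat.pos_of_ne_zero (NeZero.ne r)
  have hs0 : (((51 / 50 : ℝ) : ℂ) + t * I).re = 51 / 50 := by simp
  have hl := one_le_lel (r := r) t
  have hV := Vc_nonneg
  have hA : 1 ≤ (Vc + 61) * lel r t := by nlinarith
  have hs01 : 1 < (((51 / 50 : ℝ) : ℂ) + t * I).re := by rw [hs0]; norm_num
  have hne1 : (((51 / 50 : ℝ) : ℂ) + t * I) ≠ 1 := by
    intro h
    rw [h] at hs01
    simp at hs01
  have hdist : 1 / 50 ≤ ‖(((51 / 50 : ℝ) : ℂ) + t * I) - 1‖ := by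
    have := Complex.abs_re_le_norm ((((51 / 50 : ℝ) : ℂ) + t * I) - 1)
    rw [sub_re, hs0, one_re, abs_of_pos (by norm_num)] at this
    linarith
  have key := local_re (DirichletCharacter.differentiable_LFunctionTrivChar₁ r)
    (s0 := ((51 / 50 : ℝ) : ℂ) + t * I)
    (A := (Vc + 61) * lel r t) hA hs0 (fun z hz => ?_) (fun z hz => ?_) ?_ ∅ (by simp) (s := σ + t * I)
    (by simp) (by simpa using h1) (by simpa using h2)
  · rw [vm_eq _ (by simpa using h1)]
    rw [logDeriv_LT_eq (by simpa using h1), add_re, Finset.sum_empty] at key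
    have : 100 * ((Vc + 61) * lel r t) = Kc * lel r t := by unfold Kc; ring
    linarith
  · obtain ⟨h3, h4⟩ := base_norm hz
    have h5 := LT_growth (r := r) h3
    have h6 := base_lower (1 : DirichletCharacter ℂ r) hs0
    have h7 := exp_ge (r := r) t 61 (by push_cast; linarith)
    have habs := abs_nonneg t
    have hx : (3 : ℝ) ≤ r * (|t| + 3) := by nlinarith
    have h8 : (3 : ℝ) ^ 59 * (r * (|t| + 3)) ^ 2 ≤ (r * (|t| + 3)) ^ 61 := by
      calc (3 : ℝ) ^ 59 * (r * (|t| + 3)) ^ 2 ≤ (r * (|t| + 3)) ^ 59 * (r * (|t| + 3)) ^ 2 := by gcongr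
        _ = _ := by ring
    have h9 : 1 / 7500 ≤ ‖DirichletCharacter.LFunctionTrivChar₁ r ((51 / 50 : ℝ) + t * I)‖ := by
      rw [DirichletCharacter.LFunctionTrivChar₁, Function.update_of_ne hne1, norm_mul]
      calc (1 : ℝ) / 7500 = 1 / 50 * (1 / 150) := by norm_num
        _ ≤ _ := by
            gcongr
    have h10 : ‖z‖ + 1 ≤ 2 * (|t| + 3) := by linarith
    have h11 : 0 ≤ ‖z‖ := norm_nonneg _
    calc ‖DirichletCharacter.LFunctionTrivChar₁ r z‖ ≤ 151 * r * (‖z‖ + 1) ^ 2 := h5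
      _ ≤ 151 * r * (2 * (|t| + 3)) ^ 2 := by gcongr
      _ ≤ 604 * (r * (|t| + 3)) ^ 2 := by
          have : (r : ℝ) * (|t| + 3) ^ 2 ≤ (r * (|t| + 3)) ^ 2 := by
            rw [mul_pow]
            gcongr
            nlinarith
          nlinarith
      _ ≤ 1 / 7500 * ((3 : ℝ) ^ 59 * (r * (|t| + 3)) ^ 2) := by
          have : (604 : ℝ) ≤ 1 / 7500 * 3 ^ 59 := by norm_num
          have h12 : (0 : ℝ) ≤ (r * (|t| + 3)) ^ 2 := by positivity
          nlinarith
      _ ≤ _ := by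
          gcongr
          exact h8.trans h7
  · by_contra hcon
    push Not at hcon
    have hz1 : z ≠ 1 := by
      rintro rfl
      simp at hcon
    rw [DirichletCharacter.LFunctionTrivChar₁, Function.update_of_ne hz1] at hz
    rcases mul_eq_zero.mp hz with h | h
    · exact hz1 (sub_eq_zero.mp h)
    · exact DirichletCharacter.LFunction_ne_zero_of_one_le_re (1 : DirichletCharacter ℂ r)
        (Or.inr hz1) hcon.le h
  · rw [logDeriv_LT_eq hs01]
    refine (norm_add_le _ _).trans ?_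
    have h3 := norm_logDeriv_base (1 : DirichletCharacter ℂ r) hs0
    have h4 : ‖1 / ((((51 / 50 : ℝ) : ℂ) + t * I) - 1)‖ ≤ 50 := by
      rw [norm_div, norm_one, div_le_iff₀ (by linarith)]
      linarith
    have h5 : Vc + 61 ≤ (Vc + 61) * lel r t := le_mul_of_one_le_right (by linarith) hl
    linarith

end Pool.Agent.MVD
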