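import Pool.Agent.MVD.LPZeroB

/-!
# Positivity and conjugation
-/

open Finset Complex
open scoped ArithmeticFunction.vonMangoldt ComplexConjugate

namespace Pool.Agent.MVD

open Pool.Agent.ANT

/-- the `n`-th term -/
theorem term_eq {r : ℕ} (χ : DirichletCharacter ℂ r) (σ t : ℝ) {n : ℕ} (hn : n ≠ 0) :
    LSeries.term ((fun n : ℕ => χ n) * (fun n : ℕ => ((Λ n : ℝ) : ℂ))) (σ + t * I) n =
      ((Λ n * (n : ℝ) ^ (-σ) : ℝ) : ℂ) * (χ n * (n : ℂ) ^ (-(t * I))) := by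
  rw [LSeries.term_of_ne_zero hn, Pi.mul_apply]
  have hn0 : (n : ℂ) ≠ 0 := Nat.cast_ne_zero.mpr hn
  have h1 : ((n : ℂ) ^ ((σ : ℂ) + t * I))⁻¹ = ((((n : ℝ) ^ (-σ) : ℝ)) : ℂ) * (n : ℂ) ^ (-(t * I)) := by
    rw [← Complex.cpow_neg, neg_add, Complex.cpow_add _ _ hn0, Complex.ofReal_cpow (Nat.cast_nonneg _)]
    push_cast
    ring
  rw [div_eq_mul_inv, h1]
  push_cast
  ring

theorem vm_eq_tsum {r : ℕ} [NeZero r] (χ : DirichletCharacter ℂ r) {σ : ℝ} (t : ℝ) (hσ : 1 < σ) :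
    Summable (fun n : ℕ => (LSeries.term ((fun n : ℕ => χ n) * (fun n : ℕ => ((Λ n : ℝ) : ℂ)))
      (σ + t * I) n).re) ∧
    vm χ (σ + t * I) = ∑' n : ℕ, (LSeries.term ((fun n : ℕ => χ n) * (fun n : ℕ => ((Λ n : ℝ) : ℂ)))
      (σ + t * I) n).re := by
  have h : LSeriesSummable ((fun n : ℕ => χ n) * (fun n : ℕ => ((Λ n : ℝ) : ℂ))) (σ + t * I) :=
    DirichletCharacter.LSeriesSummable_twist_vonMangoldt χ (by simpa using hσ)
  have h2 : Summable (LSeries.term ((fun n : ℕ => χ n) * (fun n : ℕ => ((Λ n : ℝ) : ℂ)))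
    (σ + t * I)) := h
  refine ⟨(Complex.hasSum_re h2.hasSum).summable, ?_⟩
  unfold vm LSeries
  exact Complex.re_tsum h2

/-- 3-4-1 inequality -/
theorem three_four {r : ℕ} [NeZero r] (χ : DirichletCharacter ℂ r) {σ : ℝ} (t : ℝ) (hσ : 1 < σ) :
    0 ≤ 3 * vm (1 : DirichletCharacter ℂ r) σ + 4 * vm χ (σ + t * I) + vm (χ ^ 2) (σ + (2 * t : ℝ) * I) := by
  obtain ⟨a1, a2⟩ := vm_eq_tsum (1 : DirichletCharacter ℂ r) 0 hσ
  obtain ⟨b1, b2⟩ := vm_eq_tsum χ t hσ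
  obtain ⟨c1, c2⟩ := vm_eq_tsum (χ ^ 2) (2 * t) hσ
  have e : (σ : ℂ) + ((0 : ℝ) : ℂ) * I = σ := by simp
  have e1 : vm (1 : DirichletCharacter ℂ r) (σ : ℂ) =
      vm (1 : DirichletCharacter ℂ r) (σ + ((0 : ℝ) : ℂ) * I) := by rw [e]
  rw [e1, a2, b2, c2, ← tsum_mul_left, ← tsum_mul_left,
    ← (a1.mul_left 3).tsum_add (b1.mul_left 4), ← ((a1.mul_left 3).add (b1.mul_left 4)).tsum_add c1]
  refine tsum_nonneg fun n => ?_
  rcases Nat.eq_zero_or_pos n with rfl | hn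
  · simp
  have hn0 : n ≠ 0 := hn.ne'
  have hn1 : (n : ℂ) ≠ 0 := Nat.cast_ne_zero.mpr hn0
  rw [term_eq _ _ _ hn0, term_eq _ _ _ hn0, term_eq _ _ _ hn0, Complex.re_ofReal_mul,
    Complex.re_ofReal_mul, Complex.re_ofReal_mul]
  have hL : 0 ≤ Λ n * (n : ℝ) ^ (-σ) :=
    mul_nonneg ArithmeticFunction.vonMangoldt_nonneg (Real.rpow_nonneg (Nat.cast_nonneg _) _)
  set L := Λ n * (n : ℝ) ^ (-σ)
  by_cases hu : IsUnit (n : ZMod r)
  · have h1 : (1 : DirichletCharacter ℂ r) n = 1 := MulChar.one_apply hu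
    have h2 : ‖χ n‖ = 1 := χ.unit_norm_eq_one hu.unit
    set w : ℂ := χ n * (n : ℂ) ^ (-(t * I)) with hw
    have hw1 : ‖w‖ = 1 := by
      rw [hw, norm_mul, h2, one_mul]
      have := Complex.norm_natCast_cpow_of_pos hn (-(t * I))
      rw [this]
      simp
    have h3 : (χ ^ 2) n * (n : ℂ) ^ (-(((2 * t : ℝ) : ℂ) * I)) = w ^ 2 := by
      rw [hw, mul_pow, MulChar.pow_apply' _ two_ne_zero, ← Complex.cpow_nat_mul]
      congr 2
      push_cast
      ring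
    rw [h1, h3]
    have h4 : w.re ^ 2 + w.im ^ 2 = 1 := by
      have := Complex.sq_norm w
      rw [hw1, Complex.normSq_apply] at this
      nlinarith
    have h5 : (w ^ 2).re = 2 * w.re ^ 2 - 1 := by
      rw [sq, Complex.mul_re]
      nlinarith
    have h6 : ((1 : ℂ) * (n : ℂ) ^ (-(((0 : ℝ) : ℂ) * I))).re = 1 := by simp
    rw [h6, h5]
    have h7 : 0 ≤ L * (2 * (1 + w.re) ^ 2) := by positivity
    nlinarith
  · have h1 : (1 : DirichletCharacter ℂ r) n = 0 := MulChar.map_nonunit _ hu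
    have h2 : χ n = 0 := MulChar.map_nonunit _ hu
    have h3 : (χ ^ 2) n = 0 := MulChar.map_nonunit _ hu
    rw [h1, h2, h3]
    simp

/-- positivity for two quadratic characters -/
theorem four_pos {r : ℕ} [NeZero r] {χ ψ : DirichletCharacter ℂ r} (hχ : χ ^ 2 = 1) (hψ : ψ ^ 2 = 1)
    {σ : ℝ} (hσ : 1 < σ) :
    0 ≤ vm (1 : DirichletCharacter ℂ r) σ + vm χ σ + vm ψ σ + vm (χ * ψ) σ := by
  obtain ⟨a1, a2⟩ := vm_eq_tsum (1 : DirichletCharacter ℂ r) 0 hσ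
  obtain ⟨b1, b2⟩ := vm_eq_tsum χ 0 hσ
  obtain ⟨c1, c2⟩ := vm_eq_tsum ψ 0 hσ
  obtain ⟨d1, d2⟩ := vm_eq_tsum (χ * ψ) 0 hσ
  have e : (σ : ℂ) + ((0 : ℝ) : ℂ) * I = σ := by simp
  have e1 : ∀ χ : DirichletCharacter ℂ r, vm χ (σ : ℂ) = vm χ (σ + ((0 : ℝ) : ℂ) * I) := by
    intro χ
    rw [e]
  rw [e1, e1, e1, e1, a2, b2, c2, d2, ← a1.tsum_add b1, ← (a1.add b1).tsum_add c1,
    ← ((a1.add b1).add c1).tsum_add d1]
  refine tsum_nonneg fun n => ?_
  rcases Nat.eq_zero_or_pos n with rfl | hn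
  · simp
  have hn0 : n ≠ 0 := hn.ne'
  rw [term_eq _ _ _ hn0, term_eq _ _ _ hn0, term_eq _ _ _ hn0, term_eq _ _ _ hn0,
    Complex.re_ofReal_mul, Complex.re_ofReal_mul, Complex.re_ofReal_mul, Complex.re_ofReal_mul]
  have hL : 0 ≤ Λ n * (n : ℝ) ^ (-σ) :=
    mul_nonneg ArithmeticFunction.vonMangoldt_nonneg (Real.rpow_nonneg (Nat.cast_nonneg _) _)
  set L := Λ n * (n : ℝ) ^ (-σ)
  have h0 : (n : ℂ) ^ (-(((0 : ℝ) : ℂ) * I)) = 1 := by simp
  rw [h0, mul_one, mul_one, mul_one, mul_one]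
  by_cases hu : IsUnit (n : ZMod r)
  · have h1 : (1 : DirichletCharacter ℂ r) n = 1 := MulChar.one_apply hu
    have h2 : χ n = 1 ∨ χ n = -1 := by
      have h3 : χ n ^ 2 = 1 := by
        rw [← MulChar.pow_apply' _ two_ne_zero, hχ, h1]
      rw [sq] at h3
      exact mul_self_eq_one_iff.mp h3
    have h4 : ψ n = 1 ∨ ψ n = -1 := by
      have h3 : ψ n ^ 2 = 1 := by
        rw [← MulChar.pow_apply' _ two_ne_zero, hψ, h1]
      rw [sq] at h3
      exact mul_self_eq_one_iff.mp h3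
    have h5 : (χ * ψ) n = χ n * ψ n := rfl
    rw [h1, h5]
    rcases h2 with h2 | h2 <;> rcases h4 with h4 | h4 <;> rw [h2, h4] <;> simp <;> linarith
  · have h1 : (1 : DirichletCharacter ℂ r) n = 0 := MulChar.map_nonunit _ hu
    have h2 : χ n = 0 := MulChar.map_nonunit _ hu
    have h3 : ψ n = 0 := MulChar.map_nonunit _ hu
    have h4 : (χ * ψ) n = 0 := MulChar.map_nonunit _ hu
    rw [h1, h2, h3, h4]
    simp

/-- positivity for one quadratic character -/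
theorem two_pos' {r : ℕ} [NeZero r] {χ : DirichletCharacter ℂ r} (hχ : χ ^ 2 = 1)
    {σ : ℝ} (hσ : 1 < σ) : 0 ≤ vm (1 : DirichletCharacter ℂ r) σ + vm χ σ := by
  have h := four_pos (χ := χ) (ψ := 1) hχ (one_pow 2) hσ
  rw [mul_one] at h
  linarith

/-- conjugation symmetry for real characters -/
theorem LF_conj {r : ℕ} [NeZero r] {χ : DirichletCharacter ℂ r} (hχ : χ ^ 2 = 1) (hχ1 : χ ≠ 1) (s : ℂ) :
    χ.LFunction (conj s) = conj (χ.LFunction s) := by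
  have hd := DirichletCharacter.differentiable_LFunction hχ1
  have h1 : AnalyticOnNhd ℂ (fun s => conj (χ.LFunction (conj s))) Set.univ := by
    refine DifferentiableOn.analyticOnNhd (fun z _ => ?_) isOpen_univ
    have := (hd (conj z))
    exact (differentiableAt_conj_conj_iff.mpr this).differentiableWithinAt
  have h2 : AnalyticOnNhd ℂ χ.LFunction Set.univ := fun z _ => hd.analyticAt z
  have heq := h1.eqOn_of_preconnected_of_eventuallyEq h2 isPreconnected_univ (z₀ := 2) trivial (by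
    have : {z : ℂ | 1 < z.re} ∈ nhds (2 : ℂ) :=
      (isOpen_lt continuous_const continuous_re).mem_nhds (by simp)
    filter_upwards [this] with z hz
    have hz' : 1 < (conj z).re := by simpa using hz
    rw [DirichletCharacter.LFunction_eq_LSeries χ hz', DirichletCharacter.LFunction_eq_LSeries χ hz]
    unfold LSeries
    rw [Complex.conj_tsum]
    refine tsum_congr fun n => ?_
    rcases Nat.eq_zero_or_pos n with rfl | hn
    · simp
    rw [LSeries.term_of_ne_zero hn.ne', LSeries.term_of_ne_zero hn.ne', map_div₀]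
    congr 1
    · exact Complex.conj_eq_iff_im.mpr (quad_im hχ _)
    · rw [Complex.cpow_conj _ _ (by rw [Complex.natCast_arg]; exact Real.pi_pos.ne), Complex.conj_conj,
        Complex.conj_natCast])
  have h3 := heq (Set.mem_univ s)
  simp only at h3
  rw [← h3, Complex.conj_conj]

end Pool.Agent.MVD
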