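import Pool.Agent.MVD.Defs
import Pool.Agent.Lib.ANT.LSMult

/-!
# Module LSInt: the multiplicative large sieve on an arbitrary interval

`prim_le_farey` for the sequence cut to `(M, M + N]`, then the additive large sieve `large_sieve_farey` after a translation by `M`.
-/

open Finset Complex MeasureTheory

namespace Pool.Agent.MVD

open Pool.Agent.ANT Pool.Agent.SInt

namespace LSIntAux

lemma sum_cut (M N : ℕ) (f : ℕ → ℂ) :
    ∑ n ∈ Ioc 0 (M + N), (if M < n then f n else 0) = ∑ n ∈ Ioc M (M + N), f n := by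
  rw [← Finset.sum_filter]
  refine Finset.sum_congr ?_ fun _ _ => rfl
  ext n
  simp only [Finset.mem_filter, Finset.mem_Ioc]
  omega

lemma sum_shift (M N : ℕ) (f : ℕ → ℂ) :
    ∑ n ∈ Ioc M (M + N), f n = ∑ n ∈ Ioc 0 N, f (n + M) := by
  rw [← Finset.sum_image (f := f) (g := fun n => n + M) (s := Ioc 0 N)
    (fun x _ y _ h => by simpa using h)]
  refine Finset.sum_congr ?_ fun _ _ => rfl
  rw [Finset.image_add_right_Ioc]
  rw [zero_add, add_comm]

lemma sum_shift_real (M N : ℕ) (f : ℕ → ℝ) :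
    ∑ n ∈ Ioc M (M + N), f n = ∑ n ∈ Ioc 0 N, f (n + M) := by
  rw [← Finset.sum_image (f := f) (g := fun n => n + M) (s := Ioc 0 N)
    (fun x _ y _ h => by simpa using h)]
  refine Finset.sum_congr ?_ fun _ _ => rfl
  rw [Finset.image_add_right_Ioc]
  rw [zero_add, add_comm]

end LSIntAux

open LSIntAux in
/-- Multiplicative large sieve on an arbitrary interval. -/
theorem ls_interval (R M N : ℕ) (a : ℕ → ℂ) :
    ∑ r ∈ Icc 1 R, ∑ χ ∈ Prim r, ‖∑ n ∈ Ioc M (M + N), a n * χ (n : ZMod r)‖ ^ 2 ≤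
      12 * (2 * N + (R : ℝ) ^ 2) * ∑ n ∈ Ioc M (M + N), ‖a n‖ ^ 2 := by
  classical
  have hIcc : Icc 1 R = Ioc 0 R := by
    ext n
    simp only [Finset.mem_Icc, Finset.mem_Ioc]
    omega
  rw [hIcc]
  have hf := large_sieve_farey R N (fun n => a (n + M))
  rw [← sum_shift_real M N (fun n => ‖a n‖ ^ 2)] at hf
  refine le_trans (Finset.sum_le_sum fun q hq => ?_) hf
  have hq0 := (Finset.mem_Ioc.mp hq).1
  haveI : NeZero q := ⟨hq0.ne'⟩
  have h1 := prim_le_farey (q := q) (M + N) (fun n => if M < n then a n else 0)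
  have h2 : ∀ b : ℕ, ‖∑ n ∈ Ioc 0 (M + N), (if M < n then a n else 0) * ee (n * ((b : ℝ) / q))‖ =
      ‖∑ n ∈ Ioc 0 N, a (n + M) * ee (n * ((b : ℝ) / q))‖ := by
    intro b
    have h3 : ∑ n ∈ Ioc 0 (M + N), (if M < n then a n else 0) * ee (n * ((b : ℝ) / q)) =
        ee (M * ((b : ℝ) / q)) * ∑ n ∈ Ioc 0 N, a (n + M) * ee (n * ((b : ℝ) / q)) := by
      have h4 : ∀ n : ℕ, (if M < n then a n else 0) * ee (n * ((b : ℝ) / q)) =
          if M < n then a n * ee (n * ((b : ℝ) / q)) else 0 := by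
        intro n
        split_ifs <;> simp
      simp only [h4]
      rw [sum_cut, sum_shift, Finset.mul_sum]
      refine Finset.sum_congr rfl fun n _ => ?_
      have h5 : ee (((n + M : ℕ) : ℝ) * ((b : ℝ) / q)) = ee (M * ((b : ℝ) / q)) * ee (n * ((b : ℝ) / q)) := by
        rw [← ee_add]
        congr 1
        push_cast
        ring
      rw [h5]
      ring
    rw [h3, norm_mul, norm_ee, one_mul]
  simp only [h2] at h1
  have h6 : ∀ χ : DirichletCharacter ℂ q, ∑ n ∈ Ioc 0 (M + N), (if M < n then a n else 0) * χ (n : ZMod q) =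
      ∑ n ∈ Ioc M (M + N), a n * χ (n : ZMod q) := by
    intro χ
    rw [← sum_cut]
    refine Finset.sum_congr rfl fun n _ => ?_
    split_ifs <;> simp
  simp only [h6] at h1
  have hφ : (0 : ℝ) < q.totient := by exact_mod_cast Nat.totient_pos.mpr hq0
  have hφq : (q.totient : ℝ) ≤ q := by exact_mod_cast Nat.totient_le q
  have h7 : (1 : ℝ) ≤ (q : ℝ) / q.totient := (one_le_div hφ).mpr hφq
  refine le_trans ?_ h1
  have h8 : ∑ χ ∈ Prim q, ‖∑ n ∈ Ioc M (M + N), a n * χ (n : ZMod q)‖ ^ 2 =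
      ∑ χ ∈ (Finset.univ : Finset (DirichletCharacter ℂ q)).filter (fun χ => χ.IsPrimitive),
        ‖∑ n ∈ Ioc M (M + N), a n * χ (n : ZMod q)‖ ^ 2 := by
    refine Finset.sum_congr ?_ fun _ _ => rfl
    ext χ
    rw [mem_Prim]
    simp
  rw [h8]
  exact le_mul_of_one_le_left (Finset.sum_nonneg fun _ _ => by positivity) h7

end Pool.Agent.MVD
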