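import Pool.Agent.MVD.CharExp
import Pool.Agent.SInt.MajRed
import Pool.Agent.SInt.TriB
import Pool.Agent.Lib.ANT.SW

/-!
# Module MJCHAR: the major arc part in terms of primitive characters

`MJ(v) = ∑_{s ≤ R} ∑_{n ≤ 2X} Λ(n) GD(v-n) ∑_{a ∈ red s} e(a(v-n)/s)`. The terms with `(n,s) > 1` (powers of primes `p ∣ s`): at most
`∑_{s ≤ R} s (1/D) ∑_{n ≤ 2X, (n,s)>1} Λ(n) ≤ R² (1/D) · 2 log R · log 2X` (sum_vonMangoldt_not_coprime_le, card_primeFactors_le_log in Lib/ANT/SW).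
For `(n,s) = 1`: ram_char, regroup, KS_eq: `χ` mod `rk` induced by `χ₀`, `χ(n) = χ₀(n)`:
`(1/φ(rk)) KS χ v = (r/φ(r)) χ̄₀(v) (μ(k)/φ(k)) c_k(v)` for `(k,r)=1` (φ multiplicative), else 0; the sum over `k` is `Wr R r v`.
The coprimality `(n,rk)=1` is then dropped in the same way: error at most
`∑_{r,χ₀,k} (r/φ(rk)) |c_k(v)| (1/D) 2 log R log 2X`, `|c_k(v)| ≤ k`, number of `χ₀` mod `r` at most `φ(r)`: `≤ ∑_r r ∑_k k ... ≤ R^3 ...`.
-/

open Finset Complex
open scoped ArithmeticFunction.Moebius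

namespace Pool.Agent.MVD

open Pool.Agent.ANT Pool.Agent.SInt

namespace MJcharAux

open scoped ArithmeticFunction.vonMangoldt

/-- mass of the integers not coprime to `s` -/
lemma nc_le {s R Z : ℕ} (hs : 1 ≤ s) (hsR : s ≤ R) (hZ : 1 ≤ Z) :
    ∑ n ∈ (Icc 1 Z).filter (fun n => ¬ n.Coprime s), Λ n ≤ R * Real.log Z := by
  have h1 := sum_vonMangoldt_not_coprime_le (q := s) (by omega) (N := Z) (by omega)
  have h2 : Icc 1 Z = Ioc 0 Z := by
    ext n
    simp only [Finset.mem_Icc, Finset.mem_Ioc]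
    omega
  rw [h2]
  refine h1.trans (mul_le_mul_of_nonneg_right ?_ (Real.log_natCast_nonneg _))
  have h3 : s.primeFactors.card ≤ s := by
    have h4 : s.primeFactors ⊆ Icc 1 s := by
      intro p hp
      rw [Finset.mem_Icc]
      exact ⟨(Nat.prime_of_mem_primeFactors hp).one_lt.le,
        Nat.le_of_dvd (by omega) (Nat.dvd_of_mem_primeFactors hp)⟩
    simpa using Finset.card_le_card h4
  exact_mod_cast h3.trans hsR

/-- a weighted sum supported on the integers not coprime to `s` -/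
lemma nc_sum {s R Z D : ℕ} (hs : 1 ≤ s) (hsR : s ≤ R) (hZ : 1 ≤ Z) (v : ℤ) (f : ℕ → ℂ) {c : ℝ}
    (hc : 0 ≤ c) (h0 : ∀ n ∈ Icc 1 Z, n.Coprime s → f n = 0)
    (h1 : ∀ n ∈ Icc 1 Z, ¬ n.Coprime s → ‖f n‖ ≤ c * Λ n) :
    ‖∑ n ∈ Icc 1 Z, f n * ((GD D ((v : ℝ) - n) : ℝ) : ℂ)‖ ≤ c * (R * Real.log Z) / D := by
  calc ‖∑ n ∈ Icc 1 Z, f n * ((GD D ((v : ℝ) - n) : ℝ) : ℂ)‖
      ≤ ∑ n ∈ Icc 1 Z, ‖f n‖ * (1 / D) := by
        refine (norm_sum_le _ _).trans (Finset.sum_le_sum fun n _ => ?_)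
        rw [norm_mul, Complex.norm_real, Real.norm_eq_abs, abs_of_nonneg (GD_nonneg D _)]
        exact mul_le_mul_of_nonneg_left (GD_le D _) (norm_nonneg _)
    _ = ∑ n ∈ (Icc 1 Z).filter (fun n => ¬ n.Coprime s), ‖f n‖ * (1 / D) := by
        rw [Finset.sum_filter]
        refine Finset.sum_congr rfl fun n hn => ?_
        by_cases h : n.Coprime s
        · rw [h0 n hn h, norm_zero, zero_mul, if_neg (not_not.2 h)]
        · rw [if_pos h]
    _ ≤ ∑ n ∈ (Icc 1 Z).filter (fun n => ¬ n.Coprime s), (c * Λ n) * (1 / D) := by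
        refine Finset.sum_le_sum fun n hn => ?_
        rw [Finset.mem_filter] at hn
        exact mul_le_mul_of_nonneg_right (h1 n hn.1 hn.2) (by positivity)
    _ = c * (∑ n ∈ (Icc 1 Z).filter (fun n => ¬ n.Coprime s), Λ n) / D := by
        rw [← Finset.sum_mul, ← Finset.mul_sum]
        ring
    _ ≤ c * (R * Real.log Z) / D := by
        have := nc_le hs hsR hZ
        gcongr

lemma card_red (s : ℕ) : (red s).card = s.totient := by
  unfold red
  rw [Nat.totient_eq_card_coprime]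
  congr 1
  refine Finset.filter_congr fun a _ => ?_
  rw [Nat.coprime_comm]

lemma card_red_le (s : ℕ) : (red s).card ≤ s := by
  rw [card_red]
  exact Nat.totient_le s

lemma norm_LamN (n : ℕ) : ‖LamN n‖ = Λ n := by
  unfold LamN
  rw [Complex.norm_real, Real.norm_eq_abs, abs_of_nonneg ArithmeticFunction.vonMangoldt_nonneg]

/-- the Ramanujan type sum -/
noncomputable def G (s : ℕ) (v : ℤ) (n : ℕ) : ℂ := ∑ a ∈ red s, ee (a * ((v : ℝ) - n) / s)

lemma norm_G_le (s : ℕ) (v : ℤ) (n : ℕ) : ‖G s v n‖ ≤ s := by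
  unfold G
  calc ‖∑ a ∈ red s, ee (a * ((v : ℝ) - n) / s)‖ ≤ ∑ a ∈ red s, (1 : ℝ) := by
        refine (norm_sum_le _ _).trans (Finset.sum_le_sum fun a _ => ?_)
        rw [norm_ee]
    _ = (red s).card := by
        rw [Finset.sum_const, nsmul_eq_mul, mul_one]
    _ ≤ s := by exact_mod_cast card_red_le s

lemma norm_cR_le (k : ℕ) (v : ℤ) : ‖cR k v‖ ≤ k.totient := by
  unfold cR
  calc ‖∑ a ∈ red k, ee (a * v / k)‖ ≤ ∑ a ∈ red k, (1 : ℝ) := by
        refine (norm_sum_le _ _).trans (Finset.sum_le_sum fun a _ => ?_)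
        rw [norm_ee]
    _ = k.totient := by
        rw [Finset.sum_const, nsmul_eq_mul, mul_one, card_red]

/-- the term of the character `χ` -/
noncomputable def F (Z D : ℕ) (v : ℤ) (s : ℕ) (χ : DirichletCharacter ℂ s) : ℂ :=
  1 / (s.totient : ℂ) * KS χ v * LAh (twc LamN χ) Z D v

lemma step1 {s R Z D : ℕ} (hs : 1 ≤ s) (hsR : s ≤ R) (hZ : 1 ≤ Z) (v : ℤ) :
    ‖∑ a ∈ red s, ∑ n ∈ Icc 1 Z,
        ((Λ n : ℝ) : ℂ) * ee (a * ((v : ℝ) - n) / s) * ((GD D ((v : ℝ) - n) : ℝ) : ℂ)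
      - ∑ χ : DirichletCharacter ℂ s, F Z D v s χ‖ ≤ s * (R * Real.log Z) / D := by
  have e1 : ∑ a ∈ red s, ∑ n ∈ Icc 1 Z,
        ((Λ n : ℝ) : ℂ) * ee (a * ((v : ℝ) - n) / s) * ((GD D ((v : ℝ) - n) : ℝ) : ℂ) =
      ∑ n ∈ Icc 1 Z, (LamN n * G s v n) * ((GD D ((v : ℝ) - n) : ℝ) : ℂ) := by
    rw [Finset.sum_comm]
    refine Finset.sum_congr rfl fun n _ => ?_
    unfold G LamN
    rw [Finset.mul_sum, Finset.sum_mul]
  have e2 : ∑ χ : DirichletCharacter ℂ s, F Z D v s χ =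
      ∑ n ∈ Icc 1 Z, (LamN n * (1 / (s.totient : ℂ) *
        ∑ χ : DirichletCharacter ℂ s, χ (n : ZMod s) * KS χ v)) *
          ((GD D ((v : ℝ) - n) : ℝ) : ℂ) := by
    unfold F LAh twc
    simp_rw [Finset.mul_sum]
    rw [Finset.sum_comm]
    refine Finset.sum_congr rfl fun n _ => ?_
    rw [Finset.sum_mul]
    refine Finset.sum_congr rfl fun χ _ => ?_
    ring
  rw [e1, e2, ← Finset.sum_sub_distrib]
  have e3 : ∀ n ∈ Icc 1 Z, (LamN n * G s v n) * ((GD D ((v : ℝ) - n) : ℝ) : ℂ) -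
      (LamN n * (1 / (s.totient : ℂ) *
        ∑ χ : DirichletCharacter ℂ s, χ (n : ZMod s) * KS χ v)) *
          ((GD D ((v : ℝ) - n) : ℝ) : ℂ) =
      (LamN n * (G s v n - 1 / (s.totient : ℂ) *
        ∑ χ : DirichletCharacter ℂ s, χ (n : ZMod s) * KS χ v)) *
          ((GD D ((v : ℝ) - n) : ℝ) : ℂ) := fun n _ => by ring
  rw [Finset.sum_congr rfl e3]
  refine nc_sum hs hsR hZ v _ (Nat.cast_nonneg s) ?_ ?_
  · intro n _ hn
    have h1 := ram_char hs v hn
    unfold G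
    rw [h1, sub_self, mul_zero]
  · intro n _ hn
    have h2 : ∑ χ : DirichletCharacter ℂ s, χ (n : ZMod s) * KS χ v = 0 := by
      refine Finset.sum_eq_zero fun χ _ => ?_
      have h3 : ¬ IsUnit (n : ZMod s) := fun h' => hn ((ZMod.isUnit_iff_coprime n s).mp h')
      rw [MulChar.map_nonunit _ h3, zero_mul]
    rw [h2, mul_zero, sub_zero, norm_mul, norm_LamN, mul_comm]
    exact mul_le_mul_of_nonneg_right (norm_G_le s v n) ArithmeticFunction.vonMangoldt_nonneg

lemma LAh_diff {r k R Z D : ℕ} (hr : 1 ≤ r) (hk : 1 ≤ k) (hrk : r * k ≤ R) (hZ : 1 ≤ Z) (v : ℤ)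
    (χ : DirichletCharacter ℂ r) :
    ‖LAh (twc LamN (DirichletCharacter.changeLevel (Dvd.intro k rfl : r ∣ r * k) χ)) Z D v
      - LAh (twc LamN χ) Z D v‖ ≤ R * Real.log Z / D := by
  unfold LAh
  rw [← Finset.sum_sub_distrib]
  have e3 : ∀ n ∈ Icc 1 Z,
      twc LamN (DirichletCharacter.changeLevel (Dvd.intro k rfl : r ∣ r * k) χ) n *
        ((GD D ((v : ℝ) - n) : ℝ) : ℂ) - twc LamN χ n * ((GD D ((v : ℝ) - n) : ℝ) : ℂ) =
      (LamN n * (DirichletCharacter.changeLevel (Dvd.intro k rfl : r ∣ r * k) χ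
        ((n : ℕ) : ZMod (r * k)) - χ (n : ZMod r))) * ((GD D ((v : ℝ) - n) : ℝ) : ℂ) :=
    fun n _ => by
      unfold twc
      ring
  rw [Finset.sum_congr rfl e3]
  have key := nc_sum (D := D) (s := r * k) (Nat.mul_pos hr hk) hrk hZ v
    (fun n => LamN n * (DirichletCharacter.changeLevel (Dvd.intro k rfl : r ∣ r * k) χ
        ((n : ℕ) : ZMod (r * k)) - χ (n : ZMod r))) (c := 1) zero_le_one ?_ ?_
  · rw [one_mul] at key
    exact key
  · intro n _ hn
    have h2 : IsCoprime ((n : ℕ) : ℤ) ((r * k : ℕ) : ℤ) := Nat.isCoprime_iff_coprime.mpr hn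
    have h3 := DirichletCharacter.changeLevel_eq_cast_of_dvd' χ (Dvd.intro k rfl : r ∣ r * k) h2
    simp only [Int.cast_natCast] at h3
    rw [h3, sub_self, mul_zero]
  · intro n _ hn
    have h3 : ¬ IsUnit ((n : ℕ) : ZMod (r * k)) :=
      fun h' => hn ((ZMod.isUnit_iff_coprime n (r * k)).mp h')
    rw [MulChar.map_nonunit _ h3, zero_sub, norm_mul, norm_neg, norm_LamN, mul_comm]
    exact mul_le_mul_of_nonneg_right (DirichletCharacter.norm_le_one χ _)
      ArithmeticFunction.vonMangoldt_nonneg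

/-- the main term of the pair `(χ, k)` -/
noncomputable def M (Z D : ℕ) (v : ℤ) (r : ℕ) (χ : DirichletCharacter ℂ r) (k : ℕ) : ℂ :=
  if k.Coprime r then (r : ℂ) / (r.totient : ℂ) *
    (χ⁻¹ (v : ZMod r) * (muC k / (k.totient : ℂ) * cR k v)) * LAh (twc LamN χ) Z D v else 0

lemma step2 {r k R Z D : ℕ} (hr : 1 ≤ r) (hk : 1 ≤ k) (hrk : r * k ≤ R) (hZ : 1 ≤ Z) (v : ℤ)
    {χ : DirichletCharacter ℂ r} (hχ : χ.IsPrimitive) :
    ‖F Z D v (r * k) (DirichletCharacter.changeLevel (Dvd.intro k rfl : r ∣ r * k) χ)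
      - M Z D v r χ k‖ ≤ (r : ℝ) / r.totient * (R * Real.log Z / D) := by
  have hB : 0 ≤ (R : ℝ) * Real.log Z / D := by
    have := Real.log_natCast_nonneg Z
    positivity
  unfold F M
  rw [KS_eq hr hk hχ v]
  by_cases hc : k.Coprime r
  · rw [if_pos hc, if_pos hc]
    have ht : (r * k).totient = r.totient * k.totient := Nat.totient_mul hc.symm
    have hφr : (r.totient : ℂ) ≠ 0 := by
      have := Nat.totient_pos.2 hr
      exact_mod_cast this.ne'
    have hφk : (k.totient : ℂ) ≠ 0 := by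
      have := Nat.totient_pos.2 hk
      exact_mod_cast this.ne'
    rw [ht]
    have e1 : 1 / ((r.totient * k.totient : ℕ) : ℂ) *
        ((r : ℂ) * χ⁻¹ (v : ZMod r) * (muC k * cR k v)) *
        LAh (twc LamN (DirichletCharacter.changeLevel (Dvd.intro k rfl : r ∣ r * k) χ)) Z D v -
        (r : ℂ) / (r.totient : ℂ) *
          (χ⁻¹ (v : ZMod r) * (muC k / (k.totient : ℂ) * cR k v)) * LAh (twc LamN χ) Z D v =
        (r : ℂ) / (r.totient : ℂ) *
          (χ⁻¹ (v : ZMod r) * (muC k / (k.totient : ℂ) * cR k v)) *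
        (LAh (twc LamN (DirichletCharacter.changeLevel (Dvd.intro k rfl : r ∣ r * k) χ)) Z D v
          - LAh (twc LamN χ) Z D v) := by
      push_cast
      field_simp
    rw [e1, norm_mul]
    refine mul_le_mul ?_ (LAh_diff hr hk hrk hZ v χ) (norm_nonneg _) (by positivity)
    rw [norm_mul, norm_div, Complex.norm_natCast, Complex.norm_natCast]
    refine mul_le_of_le_one_right (by positivity) ?_
    rw [norm_mul]
    refine mul_le_one₀ (DirichletCharacter.norm_le_one _ _) (norm_nonneg _) ?_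
    rw [norm_mul, norm_div, Complex.norm_natCast]
    have h1 : (0 : ℝ) < k.totient := by exact_mod_cast Nat.totient_pos.2 hk
    calc ‖muC k‖ / (k.totient : ℝ) * ‖cR k v‖ ≤ 1 / (k.totient : ℝ) * k.totient :=
          mul_le_mul (div_le_div_of_nonneg_right (norm_muC_le k) h1.le) (norm_cR_le k v)
            (norm_nonneg _) (by positivity)
      _ = 1 := one_div_mul_cancel h1.ne'
  · rw [if_neg hc, if_neg hc, mul_zero, zero_mul, sub_zero, norm_zero]
    positivity

lemma card_Prim_le {r : ℕ} (hr : 1 ≤ r) : ((Prim r).card : ℝ) ≤ r.totient := by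
  classical
  have : NeZero r := ⟨by omega⟩
  have h1 : (Prim r).card ≤ Fintype.card (DirichletCharacter ℂ r) := Finset.card_le_univ _
  have h2 := DirichletCharacter.card_eq_totient_of_hasEnoughRootsOfUnity ℂ r
  rw [Nat.card_eq_fintype_card] at h2
  rw [← h2]
  exact_mod_cast h1

lemma sum_M (R Z D : ℕ) (v : ℤ) (r : ℕ) (χ : DirichletCharacter ℂ r) :
    ∑ k ∈ Icc 1 (R / r), M Z D v r χ k = (r : ℂ) / (r.totient : ℂ) *
      (χ⁻¹ (v : ZMod r) * Wr R r v) * LAh (twc LamN χ) Z D v := by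
  unfold M Wr
  rw [← Finset.sum_filter, Finset.mul_sum, Finset.mul_sum, Finset.sum_mul]

end MJcharAux

open MJcharAux

theorem MJ_char : ∃ C : ℝ, 0 < C ∧ ∀ (X R D : ℕ) (v : ℤ), 3 ≤ X → 1 ≤ R → R ≤ X → 1 ≤ D →
    ‖MJ X R D v - ∑ r ∈ Icc 1 R, ∑ χ ∈ Prim r, (r : ℂ) / (r.totient : ℂ) * (χ⁻¹ (v : ZMod r) * Wr R r v) *
        LAh (twc LamN χ) (2 * X) D v‖ ≤ C * (R : ℝ) ^ 4 * Real.log X ^ 2 / D := by
  refine ⟨4, by norm_num, ?_⟩
  intro X R D v hX hR _ hD
  have hZ : 1 ≤ 2 * X := by omega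
  set B : ℝ := R * Real.log ((2 * X : ℕ) : ℝ) / D with hB
  have hB0 : 0 ≤ B := by
    have := Real.log_natCast_nonneg (2 * X)
    positivity
  -- first step
  have h1 : ‖MJ X R D v - ∑ s ∈ Icc 1 R, ∑ χ : DirichletCharacter ℂ s, F (2 * X) D v s χ‖ ≤
      (R : ℝ) ^ 2 * B := by
    unfold MJ
    rw [← Finset.sum_sub_distrib]
    calc _ ≤ ∑ s ∈ Icc 1 R, (R : ℝ) * B := by
          refine (norm_sum_le _ _).trans (Finset.sum_le_sum fun s hs => ?_)
          rw [Finset.mem_Icc] at hs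
          refine (step1 hs.1 hs.2 hZ v).trans ?_
          rw [hB, mul_div_assoc]
          refine mul_le_mul_of_nonneg_right ?_ hB0
          exact_mod_cast hs.2
      _ = _ := by
          rw [Finset.sum_const, Nat.card_Icc, nsmul_eq_mul, Nat.add_sub_cancel]
          ring
  -- second step
  have h2 : ‖∑ s ∈ Icc 1 R, ∑ χ : DirichletCharacter ℂ s, F (2 * X) D v s χ -
      ∑ r ∈ Icc 1 R, ∑ χ ∈ Prim r, (r : ℂ) / (r.totient : ℂ) * (χ⁻¹ (v : ZMod r) * Wr R r v) *
        LAh (twc LamN χ) (2 * X) D v‖ ≤ (R : ℝ) ^ 2 * B := by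
    rw [regroup, ← Finset.sum_sub_distrib]
    calc _ ≤ ∑ r ∈ Icc 1 R, (R : ℝ) * B := by
          refine (norm_sum_le _ _).trans (Finset.sum_le_sum fun r hr => ?_)
          rw [Finset.mem_Icc] at hr
          rw [← Finset.sum_sub_distrib]
          have hφ : (0 : ℝ) < r.totient := by exact_mod_cast Nat.totient_pos.2 hr.1
          have hr0 : (0 : ℝ) < r := by exact_mod_cast hr.1
          calc _ ≤ ∑ χ ∈ Prim r, (R : ℝ) / r.totient * B := by
                refine (norm_sum_le _ _).trans (Finset.sum_le_sum fun χ hχ => ?_)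
                rw [← sum_M, ← Finset.sum_sub_distrib]
                calc _ ≤ ∑ k ∈ Icc 1 (R / r), (r : ℝ) / r.totient * B := by
                      refine (norm_sum_le _ _).trans (Finset.sum_le_sum fun k hk => ?_)
                      rw [Finset.mem_Icc] at hk
                      refine step2 hr.1 hk.1 ?_ hZ v (mem_Prim.1 hχ)
                      calc r * k ≤ r * (R / r) := Nat.mul_le_mul_left r hk.2
                        _ ≤ R := Nat.mul_div_le R r
                  _ = ((r * (R / r) : ℕ) : ℝ) / r.totient * B := by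
                      rw [Finset.sum_const, Nat.card_Icc, nsmul_eq_mul, Nat.add_sub_cancel]
                      push_cast
                      ring
                  _ ≤ (R : ℝ) / r.totient * B := by
                      refine mul_le_mul_of_nonneg_right ?_ hB0
                      refine div_le_div_of_nonneg_right ?_ hφ.le
                      exact_mod_cast Nat.mul_div_le R r
            _ = (Prim r).card * ((R : ℝ) / r.totient * B) := by
                rw [Finset.sum_const, nsmul_eq_mul]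
            _ ≤ r.totient * ((R : ℝ) / r.totient * B) := by
                refine mul_le_mul_of_nonneg_right (card_Prim_le hr.1) ?_
                positivity
            _ = (R : ℝ) * B := by
                field_simp
      _ = _ := by
          rw [Finset.sum_const, Nat.card_Icc, nsmul_eq_mul, Nat.add_sub_cancel]
          ring
  -- conclusion
  have hR1 : (1 : ℝ) ≤ R := by exact_mod_cast hR
  have hD0 : (0 : ℝ) < D := by exact_mod_cast hD
  have hX3 : (3 : ℝ) ≤ X := by exact_mod_cast hX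
  have hL1 : 1 ≤ Real.log X := by
    rw [Real.le_log_iff_exp_le (by linarith)]
    have := Real.exp_one_lt_d9
    linarith
  have hL2 : Real.log ((2 * X : ℕ) : ℝ) ≤ 2 * Real.log X ^ 2 := by
    push_cast
    rw [Real.log_mul (by norm_num) (by linarith)]
    have h3 : Real.log 2 ≤ Real.log X := Real.log_le_log (by norm_num) (by linarith)
    nlinarith
  calc _ = ‖(MJ X R D v - ∑ s ∈ Icc 1 R, ∑ χ : DirichletCharacter ℂ s, F (2 * X) D v s χ) +
        (∑ s ∈ Icc 1 R, ∑ χ : DirichletCharacter ℂ s, F (2 * X) D v s χ -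
        ∑ r ∈ Icc 1 R, ∑ χ ∈ Prim r, (r : ℂ) / (r.totient : ℂ) * (χ⁻¹ (v : ZMod r) * Wr R r v) *
        LAh (twc LamN χ) (2 * X) D v)‖ := by
        rw [sub_add_sub_cancel]
    _ ≤ (R : ℝ) ^ 2 * B + (R : ℝ) ^ 2 * B := (norm_add_le _ _).trans (add_le_add h1 h2)
    _ = 2 * (R : ℝ) ^ 3 * Real.log ((2 * X : ℕ) : ℝ) / D := by
        rw [hB]
        ring
    _ ≤ 2 * (R : ℝ) ^ 4 * (2 * Real.log X ^ 2) / D := by
        have h4 : (R : ℝ) ^ 3 ≤ (R : ℝ) ^ 4 := pow_le_pow_right₀ hR1 (by norm_num)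
        have h5 := Real.log_natCast_nonneg (2 * X)
        gcongr
    _ = 4 * (R : ℝ) ^ 4 * Real.log X ^ 2 / D := by ring

/-- Trivial bound. -/
theorem norm_MJ_le {X R D : ℕ} (hX : 1 ≤ X) (hD : 1 ≤ D) (v : ℤ) :
    ‖MJ X R D v‖ ≤ (R : ℝ) ^ 2 * Real.log (2 * X) := by
  have hsum : ∑ n ∈ Icc 1 (2 * X), GD D ((v : ℝ) - n) ≤ 1 := by
    have h1 : ∑ n ∈ Icc 1 (2 * X), GD D ((v : ℝ) - n) =
        ∑ m ∈ (Icc 1 (2 * X)).image (fun n : ℕ => (n : ℤ)), GD D ((m : ℝ) - v) := by
      rw [Finset.sum_image (fun a _ b _ h => by exact_mod_cast h)]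
      refine Finset.sum_congr rfl fun n _ => ?_
      unfold GD
      rw [← tri_neg, neg_sub]
      push_cast
      rfl
    rw [h1]
    exact sum_GD_le hD v _
  have hlog : 0 ≤ Real.log (2 * X) := by
    have := Real.log_natCast_nonneg (2 * X)
    push_cast at this
    exact this
  have hin : ∀ r a : ℕ, ‖∑ n ∈ Icc 1 (2 * X),
      ((ArithmeticFunction.vonMangoldt n : ℝ) : ℂ) * ee (a * ((v : ℝ) - n) / r) *
        ((GD D ((v : ℝ) - n) : ℝ) : ℂ)‖ ≤ Real.log (2 * X) := by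
    intro r a
    calc _ ≤ ∑ n ∈ Icc 1 (2 * X), Real.log (2 * X) * GD D ((v : ℝ) - n) := by
          refine (norm_sum_le _ _).trans (Finset.sum_le_sum fun n hn => ?_)
          rw [Finset.mem_Icc] at hn
          rw [norm_mul, norm_mul, norm_ee, mul_one, Complex.norm_real, Complex.norm_real,
            Real.norm_eq_abs, Real.norm_eq_abs, abs_of_nonneg (GD_nonneg D _),
            abs_of_nonneg ArithmeticFunction.vonMangoldt_nonneg]
          refine mul_le_mul_of_nonneg_right ?_ (GD_nonneg D _)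
          refine ArithmeticFunction.vonMangoldt_le_log.trans ?_
          have hn0 : (0 : ℝ) < n := by exact_mod_cast hn.1
          refine Real.log_le_log hn0 ?_
          exact_mod_cast hn.2
      _ = Real.log (2 * X) * ∑ n ∈ Icc 1 (2 * X), GD D ((v : ℝ) - n) := by
          rw [Finset.mul_sum]
      _ ≤ Real.log (2 * X) * 1 := mul_le_mul_of_nonneg_left hsum hlog
      _ = _ := mul_one _
  unfold MJ
  calc _ ≤ ∑ r ∈ Icc 1 R, ((red r).card : ℝ) * Real.log (2 * X) := by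
        refine (norm_sum_le _ _).trans (Finset.sum_le_sum fun r _ => ?_)
        refine (norm_sum_le _ _).trans ?_
        rw [← nsmul_eq_mul]
        exact Finset.sum_le_card_nsmul _ _ _ fun a _ => hin r a
    _ = (∑ r ∈ Icc 1 R, ((red r).card : ℝ)) * Real.log (2 * X) := by
        rw [Finset.sum_mul]
    _ ≤ (R : ℝ) ^ 2 * Real.log (2 * X) :=
        mul_le_mul_of_nonneg_right (card_red_sum_le R) hlog

end Pool.Agent.MVD
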