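import Pool.Agent.MVD.ZDefs
import Pool.Agent.MVD.KapZ

/-!
# Module MajReg: one character, one region of `t`

Wr_dsum gives `ω` with `Wr R r v = Hs(R)^4 dsum ω (R/r) v`, so `χ⁻¹(v) Wr R r v = Hs(R)^4 ff χ⁻¹ ω (R/r) v`, `Hs(R)^4 ≤ (3 log X)^4 ≤ (log X)^5` for large `X` (Hs_le_log). Then int_ZS with `D = mD`, `V = mV` (`2D ≤ V`: ParOK.DV; `D ≥ 1`),
`c = cc e i`, `f = ff χ⁻¹ ω (R/r)`, `T = mT`. The data `ZOK κ X N r (R/r) χ⁻¹ ω y t`: `χ⁻¹` is primitive (isPrimitive_inv in Lib, search), `r (R/r) ≤ R`, `|y - N| ≤ D`, `|t| ≤ mT` since `t ∈ A ⊆ [-mT, mT]`.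
-/

open Finset Complex MeasureTheory

namespace Pool.Agent.MVD

open Pool.Agent.ANT Pool.Agent.SInt

theorem maj_region {κ : ℝ} (hκ : 0 < κ) (hκ1 : κ ≤ 1 / 1000) : ∃ X₀ : ℕ, ∀ X : ℕ, X₀ ≤ X →
    ∀ N : ℕ, X - mW X < N → N < X + mW X → ∀ (e i K : ℕ) (S : Finset ℕ),
    ∀ r : ℕ, 1 ≤ r → r ≤ mR κ X → ∀ χ ∈ Prim r, ∀ P : ℝ → ℂ, Continuous P →
    ∀ A : Set ℝ, MeasurableSet A → A ⊆ Set.Icc (-mT κ X) (mT κ X) → ∀ B : ℝ, 0 ≤ B →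
    (∀ (ω : ℕ → ℂ) (y t : ℝ), t ∈ A → ZOK κ X N r (mR κ X / r) χ⁻¹ ω y t →
      ∑ q ∈ S, ‖ZS (cc e i) (ff χ⁻¹ ω (mR κ X / r)) K N (mV κ X) y t q‖ ≤ B) →
    ∑ q ∈ S, ‖∑ k ∈ (Icc 1 K).filter (fun k => q * k + mV κ X ≤ N), cc e i k *
        (χ⁻¹ (((N : ℤ) - q * k : ℤ) : ZMod r) * Wr (mR κ X) r ((N : ℤ) - q * k)) *
        ∫ t in A, P t * kap (mD κ X) ((N : ℤ) - q * k) t‖ ≤
      Real.log X ^ 5 * B * ∫ t in A, ‖P t‖ := by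
  obtain ⟨X₁, h1⟩ := par_ok hκ hκ1
  obtain ⟨X₂, h2⟩ := exists_nat_ge (Real.exp 81)
  refine ⟨max X₁ X₂, fun X hX N hN1 hN2 e i K S r hr hrR χ hχ P hP A hA hAT B hB0 hB => ?_⟩
  have hpar := h1 X ((le_max_left _ _).trans hX)
  have hX2 : X₂ ≤ X := (le_max_right _ _).trans hX
  have hlog : 81 ≤ Real.log X := by
    rw [Real.le_log_iff_exp_le (by
      have := hpar.X3
      positivity)]
    exact h2.trans (by exact_mod_cast hX2)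
  have hR1 : 1 ≤ mR κ X := le_trans (by norm_num) hpar.R2
  obtain ⟨ω, hω, hW⟩ := Wr_dsum hR1 hr
  have hH0 : (0 : ℝ) ≤ Hs (mR κ X) := Hs_nonneg _
  have hRX : mR κ X ≤ X ^ 2 := by
    have h3 : mR κ X ≤ mR κ X ^ 1000 := Nat.le_self_pow (by norm_num) _
    have h4 : X ≤ X ^ 2 := Nat.le_self_pow (by norm_num) _
    exact (h3.trans hpar.Rpow).trans h4
  have hH : Hs (mR κ X) ≤ 3 * Real.log X := Hs_le_log (le_trans (by norm_num) hpar.X3) hRX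
  have hH4 : Hs (mR κ X) ^ 4 ≤ Real.log X ^ 5 := by
    refine (pow_le_pow_left₀ hH0 hH 4).trans ?_
    have h5 : (0 : ℝ) ≤ Real.log X ^ 4 := by positivity
    calc (3 * Real.log X) ^ 4 = 81 * Real.log X ^ 4 := by ring
      _ ≤ Real.log X * Real.log X ^ 4 := mul_le_mul_of_nonneg_right hlog h5
      _ = Real.log X ^ 5 := by ring
  have hT : 0 < mT κ X := by
    unfold mT
    have : (0 : ℝ) < mR κ X := by exact_mod_cast hR1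
    positivity
  have hD1 : 1 ≤ mD κ X := (Nat.one_le_pow _ _ hR1).trans hpar.D3
  have : NeZero r := ⟨by omega⟩
  have hprim : (χ⁻¹).IsPrimitive := isPrimitive_inv (mem_Prim.1 hχ)
  have key := int_ZS hD1 hpar.DV (cc e i) (ff χ⁻¹ ω (mR κ X / r)) K N S hT P hP A hA hAT hB0
    (fun t ht y hy => hB ω y t ht
      ⟨hN1, hN2, hr, hrR, Nat.mul_div_le _ _, hprim, hω, hy, abs_le.2 (hAT ht)⟩)
  have heq : ∀ q ∈ S, ‖∑ k ∈ (Icc 1 K).filter (fun k => q * k + mV κ X ≤ N), cc e i k *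
        (χ⁻¹ (((N : ℤ) - q * k : ℤ) : ZMod r) * Wr (mR κ X) r ((N : ℤ) - q * k)) *
        ∫ t in A, P t * kap (mD κ X) ((N : ℤ) - q * k) t‖ =
      Hs (mR κ X) ^ 4 * ‖∑ k ∈ (Icc 1 K).filter (fun k => q * k + mV κ X ≤ N), cc e i k *
        ff χ⁻¹ ω (mR κ X / r) ((N : ℤ) - q * k) *
        ∫ t in A, P t * kap (mD κ X) ((N : ℤ) - q * k) t‖ := by
    intro q _
    have h6 : ‖((Hs (mR κ X) ^ 4 : ℝ) : ℂ)‖ = Hs (mR κ X) ^ 4 := by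
      rw [Complex.norm_real, Real.norm_of_nonneg (by positivity)]
    rw [← h6, ← norm_mul, Finset.mul_sum]
    congr 1
    refine Finset.sum_congr rfl fun k _ => ?_
    rw [hW]
    unfold ff
    ring
  rw [Finset.sum_congr rfl heq, ← Finset.mul_sum]
  have hI : 0 ≤ ∫ t in A, ‖P t‖ := integral_nonneg fun _ => norm_nonneg _
  calc Hs (mR κ X) ^ 4 * _ ≤ Hs (mR κ X) ^ 4 * (B * ∫ t in A, ‖P t‖) :=
        mul_le_mul_of_nonneg_left key (by positivity)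
    _ ≤ Real.log X ^ 5 * (B * ∫ t in A, ‖P t‖) :=
        mul_le_mul_of_nonneg_right hH4 (mul_nonneg hB0 hI)
    _ = Real.log X ^ 5 * B * ∫ t in A, ‖P t‖ := by ring


end Pool.Agent.MVD
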