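import Pool.Agent.MVD.Par
import Pool.Agent.MVD.BVRed1

/-!
Interface of the Bombieri-Vinogradov block for `μ` (block BV, statement ZTWO).

`Z_two`: small conductor and small height. For every `N` in the window, every `q ≤ X^(1-ε)` coprime to `N`, every character `χ` mod `r ≤ (log X)^B`,
every coefficient sequence `ω` (`|ω| ≤ 1`, supported on `d` coprime to `r`), the sum over `k ≤ u` of `μ(ek) (log k)^i χ(N-qk) ∑_{d ≤ R, d ∣ N - qk} ω(d)` is
`≤ (X/q) (log X)^(-A)`, for all `u`.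
-/

open Finset Complex

namespace Pool.Agent.MVD

open Pool.Agent.ANT Pool.Agent.SInt

lemma tauR_le_self (n : ℕ) : tauR n ≤ n := by
  unfold tauR
  exact_mod_cast Nat.card_divisors_le_self n

lemma gcd_pos_of_right' {b r : ℕ} (hr : 0 < r) : 0 < b.gcd r := Nat.gcd_pos_of_pos_right b hr

theorem Z_two {κ ε : ℝ} (hκ : 0 < κ) (hκ1 : κ ≤ 1 / 1000) (hε : 20 * κ ≤ ε) (A B C₀ : ℕ) : ∃ X₀ : ℕ, ∀ X : ℕ, X₀ ≤ X →
    ∀ N : ℕ, N ≤ 2 * X → ∀ q : ℕ, 1 ≤ q → (q : ℝ) ≤ 2 * (X : ℝ) ^ (1 - ε) → q.Coprime N →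
    ∀ e : ℕ, 1 ≤ e → (e : ℝ) ≤ Real.log X ^ C₀ → ∀ i : ℕ, i ≤ 1 →
    ∀ r : ℕ, 1 ≤ r → (r : ℝ) ≤ Real.log X ^ B → ∀ χ : DirichletCharacter ℂ r, ∀ ω : ℕ → ℂ, OmOK ω r →
    ∀ Y : ℕ, Y ≤ mR κ X → ∀ u : ℕ, q * u ≤ N →
    ‖∑ k ∈ Icc 1 u, cc e i k * ff χ ω Y ((N : ℤ) - q * k)‖ ≤ (X : ℝ) / q / Real.log X ^ A := by
  set A' : ℕ := A + 2 * C₀ + 3 * B + 6 with hA'
  obtain ⟨C, hC, hbv⟩ := bv_mu A'
  set η : ℝ := ε - 2 * κ with hη
  have hη0 : 0 < η := by rw [hη]; linarith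
  obtain ⟨X1, hX1⟩ := const_log_pow_le 1 B hκ
  obtain ⟨X2, hX2⟩ := const_log_pow_le 3 0 hη0
  set K : ℝ := 128 * C / η ^ A' with hK
  refine ⟨max (max X1 X2) (max 3 ⌈Real.exp K⌉₊), ?_⟩
  intro X hX N hN q hq hqX hqN e he heX i hi r hr hrX χ ω hω Y hY u hqu
  have hXX1 : X1 ≤ X := le_trans (le_trans (le_max_left _ _) (le_max_left _ _)) hX
  have hXX2 : X2 ≤ X := le_trans (le_trans (le_max_right _ _) (le_max_left _ _)) hX
  have hX3 : 3 ≤ X := le_trans (le_trans (le_max_left _ _) (le_max_right _ _)) hX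
  have hXK : ⌈Real.exp K⌉₊ ≤ X := le_trans (le_trans (le_max_right _ _) (le_max_right _ _)) hX
  have hX3R : (3 : ℝ) ≤ X := by exact_mod_cast hX3
  have hX0 : (0 : ℝ) < X := by linarith
  have hX1' : (1 : ℝ) ≤ X := by linarith
  have hL1 := one_le_log hX3R
  set L := Real.log (X : ℝ) with hL
  have hLK : K ≤ L := by
    have h1 : Real.exp K ≤ X := (Nat.le_ceil _).trans (by exact_mod_cast hXK)
    rw [hL, Real.le_log_iff_exp_le hX0]; exact h1
  have hLB : L ^ B ≤ (X : ℝ) ^ κ := by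
    have := hX1 X hXX1
    rwa [one_mul] at this
  have h3η : (3 : ℝ) ≤ (X : ℝ) ^ η := by
    have := hX2 X hXX2
    rwa [pow_zero, mul_one] at this
  have hq0 : (0 : ℝ) < q := by exact_mod_cast hq
  have hrR : (1 : ℝ) ≤ r := by exact_mod_cast hr
  set Z : ℝ := 2 * X / q with hZ
  have hZ0 : 0 < Z := by positivity
  have hZX : (X : ℝ) ^ ε ≤ Z := by
    rw [hZ, le_div_iff₀ hq0]
    calc (X : ℝ) ^ ε * q ≤ (X : ℝ) ^ ε * (2 * (X : ℝ) ^ (1 - ε)) := by gcongr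
      _ = 2 * ((X : ℝ) ^ ε * (X : ℝ) ^ (1 - ε)) := by ring
      _ = 2 * X := by rw [← Real.rpow_add hX0]; norm_num
  have hYκ : (Y : ℝ) ≤ (X : ℝ) ^ κ := by
    calc (Y : ℝ) ≤ (mR κ X : ℝ) := by exact_mod_cast hY
      _ ≤ (X : ℝ) ^ κ := Nat.floor_le (by positivity)
  have huZ : (u : ℝ) ≤ Z := by
    rw [hZ, le_div_iff₀ hq0]
    have h1 : ((q * u : ℕ) : ℝ) ≤ ((2 * X : ℕ) : ℝ) := by exact_mod_cast hqu.trans hN
    push_cast at h1
    linarith
  have huL : Real.log (u : ℝ) ≤ 2 * L := by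
    rcases Nat.eq_zero_or_pos u with h0 | h0
    · rw [h0]; simp; linarith
    · have h1 : (u : ℝ) ≤ (X : ℝ) ^ 2 := by
        have h2 : Z ≤ 2 * X := by
          rw [hZ]; exact div_le_self (by positivity) (by exact_mod_cast hq)
        nlinarith
      have h2 := Real.log_le_log (by exact_mod_cast h0) h1
      rw [Real.log_pow] at h2
      push_cast at h2
      exact h2
  -- sizes of the moduli
  have hbig : ∀ g ∈ Icc 1 Y, ∀ h : ℕ, 0 < h → h ≤ r → (X : ℝ) ^ η ≤ Z / (g * h : ℕ) := by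
    intro g hg h hh hhr
    obtain ⟨hg1, hg2⟩ := mem_Icc.mp hg
    have hgR : (0 : ℝ) < g := by exact_mod_cast hg1
    have hhR : (0 : ℝ) < h := by exact_mod_cast hh
    push_cast
    rw [le_div_iff₀ (by positivity)]
    have h1 : (g : ℝ) ≤ (X : ℝ) ^ κ := le_trans (by exact_mod_cast hg2) hYκ
    have h2 : (h : ℝ) ≤ (X : ℝ) ^ κ := le_trans (by exact_mod_cast hhr) (hrX.trans hLB)
    calc (X : ℝ) ^ η * (g * h) ≤ (X : ℝ) ^ η * ((X : ℝ) ^ κ * (X : ℝ) ^ κ) := by gcongr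
      _ = (X : ℝ) ^ ε := by
          rw [← Real.rpow_add hX0, ← Real.rpow_add hX0]; congr 1; rw [hη]; ring
      _ ≤ Z := hZX
  have hmod : (((Y * r : ℕ) : ℝ)) ^ 4 ≤ (X : ℝ) ^ η := by
    push_cast
    have h2 : (r : ℝ) ≤ (X : ℝ) ^ κ := hrX.trans hLB
    calc ((Y : ℝ) * r) ^ 4 ≤ ((X : ℝ) ^ κ * (X : ℝ) ^ κ) ^ 4 := by gcongr
      _ = (X : ℝ) ^ (8 * κ) := by
          rw [← Real.rpow_add hX0, ← Real.rpow_natCast, ← Real.rpow_mul hX0.le]
          congr 1; push_cast; ring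
      _ ≤ (X : ℝ) ^ η := Real.rpow_le_rpow_of_exponent_le hX1' (by rw [hη]; linarith)
  have hηL : 0 < η * L := by positivity
  set Bd : ℕ → ℝ → ℝ := fun w z => C * tauR w ^ 2 * |z| / (η * L) ^ A' with hBdd
  have hBd : ∀ w z, 0 ≤ Bd w z := by intro w z; simp only [hBdd]; positivity
  have hmain : ∀ b ∈ range r, ∑ d ∈ (Icc 1 Y).filter (fun d => d.Coprime r),
        ‖∑ k ∈ (Icc 1 u).filter (fun k : ℕ => k % r = b ∧ (d : ℤ) ∣ (N : ℤ) - q * k), cc e i k‖ ≤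
      2 * (2 * L) * ∑ g ∈ Icc 1 Y, Bd (e * (g * b.gcd r)) (Z / (g * b.gcd r : ℕ)) := by
    intro b hb
    refine pairs_sum hqN hr (mem_range.mp hb) he hi (by linarith) huL huZ Bd hBd ?_
    intro g hg v a hv ha
    have hh0 : 0 < b.gcd r := gcd_pos_of_right' hr
    have hhr : b.gcd r ≤ r := Nat.le_of_dvd hr (Nat.gcd_dvd_right b r)
    have hg1 := (mem_Icc.mp hg).1
    have hx := hbig g hg _ hh0 hhr
    have hx3 : 3 ≤ Z / (g * b.gcd r : ℕ) := h3η.trans hx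
    have hw : e * (g * b.gcd r) ≠ 0 := by positivity
    have h1 := hbv _ hx3 _ hw (Y * r) (hmod.trans hx) v a hv ha
    refine h1.trans ?_
    simp only [hBdd]
    have hx0 : 0 < Z / (g * b.gcd r : ℕ) := by linarith
    rw [abs_of_pos hx0]
    have hlog : η * L ≤ Real.log (Z / (g * b.gcd r : ℕ)) := by
      have := Real.log_le_log (by positivity) hx
      rwa [Real.log_rpow hX0] at this
    gcongr
  have hHs : Hs Y ≤ 2 * L := by
    refine (Hs_le Y).trans ?_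
    have : Real.log (Y : ℝ) ≤ L := by
      rcases Nat.eq_zero_or_pos Y with h0 | h0
      · rw [h0]; simp; linarith
      · refine Real.log_le_log (by exact_mod_cast h0) (hYκ.trans ?_)
        calc (X : ℝ) ^ κ ≤ (X : ℝ) ^ (1 : ℝ) := Real.rpow_le_rpow_of_exponent_le hX1' (by linarith)
          _ = X := Real.rpow_one _
    linarith
  have hsum : ∀ b ∈ range r, ∑ g ∈ Icc 1 Y, Bd (e * (g * b.gcd r)) (Z / (g * b.gcd r : ℕ)) ≤
      C * (L ^ C₀) ^ 2 * (L ^ B) ^ 2 * Z * (2 * L) ^ 4 / (η * L) ^ A' := by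
    intro b hb
    have hh0 : 0 < b.gcd r := gcd_pos_of_right' hr
    have hhr : b.gcd r ≤ r := Nat.le_of_dvd hr (Nat.gcd_dvd_right b r)
    have hterm : ∀ g ∈ Icc 1 Y, Bd (e * (g * b.gcd r)) (Z / (g * b.gcd r : ℕ)) ≤
        C * (L ^ C₀) ^ 2 * (L ^ B) ^ 2 * Z / (η * L) ^ A' * (tauR g ^ 2 / g) := by
      intro g hg
      have hg1 := (mem_Icc.mp hg).1
      have hgR : (0 : ℝ) < g := by exact_mod_cast hg1
      have hhR : (1 : ℝ) ≤ (b.gcd r : ℕ) := by exact_mod_cast hh0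
      simp only [hBdd]
      have hx0 : 0 < Z / (g * b.gcd r : ℕ) := by
        have : (0 : ℝ) < ((g * b.gcd r : ℕ) : ℝ) := by positivity
        positivity
      rw [abs_of_pos hx0]
      have h1 : tauR (e * (g * b.gcd r)) ≤ L ^ C₀ * (tauR g * L ^ B) := by
        calc tauR (e * (g * b.gcd r)) ≤ tauR e * tauR (g * b.gcd r) := tauR_mul_le _ _
          _ ≤ tauR e * (tauR g * tauR (b.gcd r)) := by
              have := tauR_mul_le g (b.gcd r)
              have := tauR_nonneg e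
              gcongr
          _ ≤ L ^ C₀ * (tauR g * L ^ B) := by
              have h2 : tauR e ≤ L ^ C₀ := (tauR_le_self e).trans heX
              have h3 : tauR (b.gcd r) ≤ L ^ B :=
                (tauR_le_self _).trans (le_trans (by exact_mod_cast hhr) hrX)
              have h4 := tauR_nonneg g
              have h5 := tauR_nonneg (b.gcd r)
              gcongr
      have h2 : Z / (g * b.gcd r : ℕ) ≤ Z / g := by
        push_cast
        apply div_le_div_of_nonneg_left hZ0.le hgR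
        nlinarith
      have h0 := tauR_nonneg (e * (g * b.gcd r))
      calc C * tauR (e * (g * b.gcd r)) ^ 2 * (Z / (g * b.gcd r : ℕ)) / (η * L) ^ A' ≤
            C * (L ^ C₀ * (tauR g * L ^ B)) ^ 2 * (Z / g) / (η * L) ^ A' := by gcongr
        _ = _ := by ring
    calc _ ≤ ∑ g ∈ Icc 1 Y, C * (L ^ C₀) ^ 2 * (L ^ B) ^ 2 * Z / (η * L) ^ A' * (tauR g ^ 2 / g) :=
          sum_le_sum hterm
      _ = C * (L ^ C₀) ^ 2 * (L ^ B) ^ 2 * Z / (η * L) ^ A' * ∑ g ∈ Ioc 0 Y, tauR g ^ 2 / g := by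
          rw [← mul_sum]
          rfl
      _ ≤ C * (L ^ C₀) ^ 2 * (L ^ B) ^ 2 * Z / (η * L) ^ A' * (2 * L) ^ 4 := by
          have h1 := sum_tau_sq_div_le Y
          have h2 : Hs Y ^ 4 ≤ (2 * L) ^ 4 := by
            have := Hs_nonneg Y
            gcongr
          have h3 := h1.trans h2
          gcongr
      _ = _ := by ring
  have hfin : ‖∑ k ∈ Icc 1 u, cc e i k * ff χ ω Y ((N : ℤ) - q * k)‖ ≤
      r * (2 * (2 * L) * (C * (L ^ C₀) ^ 2 * (L ^ B) ^ 2 * Z * (2 * L) ^ 4 / (η * L) ^ A')) := by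
    refine (expand hr χ hω e i Y N q u).trans ?_
    calc _ ≤ ∑ b ∈ range r, 2 * (2 * L) * (C * (L ^ C₀) ^ 2 * (L ^ B) ^ 2 * Z * (2 * L) ^ 4 /
          (η * L) ^ A') := by
          refine sum_le_sum fun b hb => (hmain b hb).trans ?_
          have := hsum b hb
          gcongr
      _ = _ := by rw [sum_const, card_range, nsmul_eq_mul]
  refine hfin.trans ?_
  have hLp : ∀ n : ℕ, 0 < L ^ n := fun n => by positivity
  have e1 : L ^ A' = L ^ A * (L ^ C₀) ^ 2 * (L ^ B) ^ 2 * L ^ B * L ^ 6 := by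
    rw [hA']; ring
  calc (r : ℝ) * (2 * (2 * L) * (C * (L ^ C₀) ^ 2 * (L ^ B) ^ 2 * Z * (2 * L) ^ 4 / (η * L) ^ A')) ≤
        L ^ B * (2 * (2 * L) * (C * (L ^ C₀) ^ 2 * (L ^ B) ^ 2 * Z * (2 * L) ^ 4 / (η * L) ^ A')) := by
        gcongr
    _ = K / L * (X / q / L ^ A) := by
        rw [mul_pow η L A', e1, hZ, hK]
        have := (hLp C₀).ne'
        have := (hLp B).ne'
        have := (hLp A).ne'
        have : L ≠ 0 := by positivity
        field_simp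
        ring
    _ ≤ 1 * (X / q / L ^ A) := by
        have h1 : K / L ≤ 1 := by rw [div_le_one (by linarith)]; exact hLK
        gcongr
    _ = _ := one_mul _

end Pool.Agent.MVD
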