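import Pool.Agent.MVD.ZDefs
import Pool.Agent.MVD.ZTwoIface

/-!
# Module ZOneB: small conductor and small height, with weights

`Z_two_phase`: Abel summation from Z_two (all `u` with `q u ≤ N`): the weights `eit t (y - qk)`, `k ≤ u = min(K, (N-V)/q)`, have absolute value 1 and total variation `≤ |t| log(y/(V/2))`, and `log(y/(V/2)) ≤ log(40 R^3) ≤ log X`: so `≤ (log X)^{B+1}` (tv_phi with `x₁ = 0`, or directly:
`‖e^{ia} - e^{ib}‖ ≤ |a-b|` and monotonicity of the logarithm; ZOK.facts and ParOK). Use Z_two with `A + B + 3` in place of `A`.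
`Z_two_mono`: Abel summation with a weight `w(k)` that is nonnegative and nonincreasing: `|∑_{k ≤ u} a(k) w(k)| ≤ w(1) max_{u' ≤ u} |∑_{k ≤ u'} a(k)|`. `dsum ω Y v = ff 1 ω Y v` for the character mod 1.
If `N < V` or `K = 0` the sums are empty.
-/

open Finset Complex

namespace Pool.Agent.MVD

open Pool.Agent.ANT Pool.Agent.SInt

namespace ZOneBAux

theorem norm_eit (t x : ℝ) : ‖eit t x‖ = 1 := by
  unfold eit
  rw [mul_comm, Complex.norm_exp_ofReal_mul_I]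

theorem eit_sub (t x z : ℝ) : ‖eit t x - eit t z‖ ≤ |t| * |Real.log x - Real.log z| := by
  have h1 : eit t x - eit t z = eit t z * (cexp (I * ((t * (Real.log x - Real.log z) : ℝ) : ℂ)) - 1) := by
    unfold eit
    rw [mul_sub, mul_one, ← Complex.exp_add]
    congr 2
    push_cast
    ring
  rw [h1, norm_mul, norm_eit, one_mul]
  have h2 := Real.norm_exp_I_mul_ofReal_sub_one_le (x := t * (Real.log x - Real.log z))
  rw [Real.norm_eq_abs, abs_mul] at h2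
  exact h2

theorem filt {q K V N : ℕ} (hq : 1 ≤ q) : ∃ u : ℕ, (Icc 1 K).filter (fun k => q * k + V ≤ N) = Ioc 0 u ∧
    ∀ k, 1 ≤ k → k ≤ u → q * k + V ≤ N := by
  by_cases hV : V ≤ N
  · refine ⟨min K ((N - V) / q), ?_, ?_⟩
    · ext k
      simp only [Finset.mem_filter, Finset.mem_Icc, Finset.mem_Ioc, le_min_iff]
      rw [Nat.le_div_iff_mul_le hq, mul_comm k q]
      constructor
      · rintro ⟨⟨h1, h2⟩, h3⟩
        exact ⟨by omega, h2, by omega⟩
      · rintro ⟨h1, h2, h3⟩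
        exact ⟨⟨by omega, h2⟩, by omega⟩
    · intro k _ hk2
      have h3 := (le_min_iff.mp hk2).2
      rw [Nat.le_div_iff_mul_le hq, mul_comm k q] at h3
      omega
  · refine ⟨0, ?_, ?_⟩
    · rw [Finset.Ioc_self, Finset.filter_eq_empty_iff]
      intro k _ hk
      omega
    · intro k h1 h2
      omega

theorem abel_tv (b φ : ℕ → ℂ) (u : ℕ) : ∑ k ∈ Ioc 0 u, b k * φ k =
    (∑ k ∈ Ioc 0 u, b k) * φ u - ∑ k ∈ range u, (∑ j ∈ Ioc 0 k, b j) * (φ (k + 1) - φ k) := by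
  induction u with
  | zero => simp
  | succ u ih =>
    rw [Finset.sum_Ioc_succ_top (by omega), ih, Finset.sum_Ioc_succ_top (by omega) b, Finset.sum_range_succ]
    ring

theorem abel_bd {b φ : ℕ → ℂ} {u : ℕ} {M : ℝ} (hM0 : 0 ≤ M)
    (hM : ∀ u', u' ≤ u → ‖∑ k ∈ Ioc 0 u', b k‖ ≤ M) (h1 : ‖φ u‖ ≤ 1) (L : ℕ → ℝ)
    (hL : ∀ k, k < u → ‖φ (k + 1) - φ k‖ ≤ L k - L (k + 1)) :
    ‖∑ k ∈ Ioc 0 u, b k * φ k‖ ≤ M * (1 + (L 0 - L u)) := by
  rw [abel_tv]
  have h2 : ‖(∑ k ∈ Ioc 0 u, b k) * φ u‖ ≤ M * 1 := by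
    rw [norm_mul]
    exact mul_le_mul (hM u le_rfl) h1 (norm_nonneg _) hM0
  have h3 : ‖∑ k ∈ range u, (∑ j ∈ Ioc 0 k, b j) * (φ (k + 1) - φ k)‖ ≤ ∑ k ∈ range u, M * (L k - L (k + 1)) := by
    refine (norm_sum_le _ _).trans (Finset.sum_le_sum fun k hk => ?_)
    rw [norm_mul]
    have hk' := Finset.mem_range.mp hk
    exact mul_le_mul (hM k hk'.le) (hL k hk') (norm_nonneg _) hM0
  rw [← Finset.mul_sum, Finset.sum_range_sub'] at h3
  calc _ ≤ M * 1 + M * (L 0 - L u) := (norm_sub_le _ _).trans (add_le_add h2 h3)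
    _ = _ := by ring

theorem ff_one (ω : ℕ → ℂ) (Y : ℕ) (v : ℤ) : ff (1 : DirichletCharacter ℂ 1) ω Y v = dsum ω Y v := by
  unfold ff
  rw [MulChar.one_apply (isUnit_of_subsingleton _), one_mul]

theorem mV_ge {κ : ℝ} {X : ℕ} (hP : ParOK κ X) : 1000 ≤ mV κ X := by
  have h1 := hP.W2
  have h2 := hP.V2
  have h3 := hP.Rpow
  have h4 := hP.R2
  have h5 : mR κ X ^ 5 ≤ mR κ X ^ 1000 := Nat.pow_le_pow_right (by omega) (by norm_num)
  have h6 : mR κ X ^ 5 = mR κ X ^ 3 * mR κ X ^ 2 := by ring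
  have h7 : 10000 ≤ mR κ X ^ 2 := by nlinarith
  have h8 : 0 < mR κ X ^ 3 := by positivity
  have h9 : mR κ X ^ 3 * 10000 ≤ mR κ X ^ 3 * mR κ X ^ 2 := Nat.mul_le_mul_left _ h7
  by_contra hcon
  push Not at hcon
  have h10 : mV κ X * mR κ X ^ 3 < 1000 * mR κ X ^ 3 := Nat.mul_lt_mul_of_pos_right hcon h8
  omega

end ZOneBAux

open ZOneBAux

theorem Z_two_phase {κ ε : ℝ} (hκ : 0 < κ) (hκ1 : κ ≤ 1 / 1000) (hε : 20 * κ ≤ ε) (A B C₀ : ℕ) : ∃ X₀ : ℕ, ∀ X : ℕ, X₀ ≤ X →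
    ∀ (N r Y K : ℕ) (χ : DirichletCharacter ℂ r) (ω : ℕ → ℂ) (y t : ℝ), ZOK κ X N r Y χ ω y t →
    (r : ℝ) ≤ Real.log X ^ B → |t| ≤ Real.log X ^ B →
    ∀ q : ℕ, 1 ≤ q → (q : ℝ) ≤ 2 * (X : ℝ) ^ (1 - ε) → q.Coprime N →
    ∀ e : ℕ, 1 ≤ e → (e : ℝ) ≤ Real.log X ^ C₀ → ∀ i : ℕ, i ≤ 1 →
    ‖ZS (cc e i) (ff χ ω Y) K N (mV κ X) y t q‖ ≤ (X : ℝ) / q / Real.log X ^ A := by
  obtain ⟨X₁, h1⟩ := Z_two hκ hκ1 hε (A + B + 3) B C₀
  obtain ⟨X₂, h2⟩ := par_ok hκ hκ1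
  refine ⟨max 8 (max X₁ X₂), ?_⟩
  intro X hX N r Y K χ ω y t hz hr ht q hq hqX hqN e he heX i hi
  have hX8 : 8 ≤ X := (le_max_left _ _).trans hX
  have hX1 : X₁ ≤ X := (le_max_left _ _).trans ((le_max_right _ _).trans hX)
  have hX2 : X₂ ≤ X := (le_max_right _ _).trans ((le_max_right _ _).trans hX)
  have hP := h2 X hX2
  obtain ⟨f1, f2, f3, f4, f5, f6, f7, f8, f9⟩ := hz.facts hP
  have hV := mV_ge hP
  have hlog : 2 ≤ Real.log X := by
    have h8 : Real.log 8 = 3 * Real.log 2 := by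
      rw [show (8 : ℝ) = 2 ^ (3 : ℕ) by norm_num, Real.log_pow]; norm_num
    have h9 : Real.log 8 ≤ Real.log X := Real.log_le_log (by norm_num) (by exact_mod_cast hX8)
    have := Real.log_two_gt_d9
    linarith
  have hX0 : (0 : ℝ) < X := by exact_mod_cast (by omega : 0 < X)
  have hq0 : (0 : ℝ) < q := by exact_mod_cast (by omega : 0 < q)
  obtain ⟨u, hu1, hu2⟩ := filt (K := K) (V := mV κ X) (N := N) hq
  set M : ℝ := (X : ℝ) / q / Real.log X ^ (A + B + 3) with hMdef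
  have hM0 : 0 ≤ M := by positivity
  have hM : ∀ u', u' ≤ u → ‖∑ k ∈ Ioc 0 u', cc e i k * ff χ ω Y ((N : ℤ) - q * k)‖ ≤ M := by
    intro u' hu'
    have hIcc : Ioc 0 u' = Icc 1 u' := rfl
    rw [hIcc]
    refine h1 X hX1 N f4 q hq hqX hqN e he heX i hi r hz.r1 hr χ ω hz.om Y f6 u' ?_
    rcases Nat.eq_zero_or_pos u' with h0 | h0
    · rw [h0]; simp
    · have := hu2 u' h0 hu'
      omega
  unfold ZS
  rw [hu1]
  rcases Nat.eq_zero_or_pos u with hu0 | hu0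
  · rw [hu0]
    simp only [Finset.Ioc_self, Finset.sum_empty, norm_zero]
    positivity
  have hpos : ∀ k : ℕ, k ≤ u → (mV κ X : ℝ) / 2 ≤ y - q * k := by
    intro k hk
    have h3 := f8 q u (hu2 u hu0 le_rfl)
    have h4 : (q : ℝ) * k ≤ q * u := mul_le_mul_of_nonneg_left (by exact_mod_cast hk) hq0.le
    linarith
  have hb := abel_bd (b := fun k => cc e i k * ff χ ω Y ((N : ℤ) - q * k)) (φ := fun k : ℕ => eit t (y - q * k))
    (u := u) hM0 hM (norm_eit _ _).le (fun k : ℕ => |t| * Real.log (y - q * k)) (by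
      intro k hk
      refine (eit_sub _ _ _).trans ?_
      have h3 := hpos (k + 1) hk
      have h4 := hpos k hk.le
      have h5 : Real.log (y - q * ((k + 1 : ℕ) : ℝ)) ≤ Real.log (y - q * k) := by
        refine Real.log_le_log (by linarith) ?_
        push_cast
        nlinarith
      have h6 : |Real.log (y - q * ((k + 1 : ℕ) : ℝ)) - Real.log (y - q * k)| =
          Real.log (y - q * k) - Real.log (y - q * ((k + 1 : ℕ) : ℝ)) := by
        rw [abs_sub_comm]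
        exact abs_of_nonneg (by linarith)
      rw [h6, mul_sub])
  refine hb.trans ?_
  have h3 : |t| * Real.log (y - q * ((0 : ℕ) : ℝ)) - |t| * Real.log (y - q * (u : ℝ)) ≤
      Real.log X ^ B * Real.log X := by
    have h4 : Real.log ((mV κ X : ℝ) / 2) ≤ Real.log (y - q * (u : ℝ)) := Real.log_le_log f7 (hpos u le_rfl)
    have h5 : Real.log (y - q * ((0 : ℕ) : ℝ)) = Real.log y := by simp
    have h6 : Real.log y - Real.log ((mV κ X : ℝ) / 2) ≤ Real.log X := by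
      have h7 : Real.log y ≤ Real.log (X * ((mV κ X : ℝ) / 2)) := by
        refine Real.log_le_log f1 ?_
        have hV' : (1000 : ℝ) ≤ mV κ X := by exact_mod_cast hV
        nlinarith
      rw [Real.log_mul hX0.ne' f7.ne'] at h7
      linarith
    rw [h5, ← mul_sub]
    calc |t| * (Real.log y - Real.log (y - q * (u : ℝ))) ≤ |t| * Real.log X :=
          mul_le_mul_of_nonneg_left (by linarith) (abs_nonneg t)
      _ ≤ Real.log X ^ B * Real.log X := mul_le_mul_of_nonneg_right ht (by linarith)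
  have h4 : 1 + Real.log X ^ B * Real.log X ≤ Real.log X ^ (B + 3) := by
    have h5 : 1 ≤ Real.log X ^ B := one_le_pow₀ (by linarith)
    have h6 : Real.log X ^ (B + 3) = Real.log X ^ B * Real.log X * (Real.log X * Real.log X) := by ring
    rw [h6]
    have h7 : 1 ≤ Real.log X ^ B * Real.log X := by nlinarith
    have h8 : (4 : ℝ) ≤ Real.log X * Real.log X := by nlinarith
    nlinarith
  calc M * (1 + (|t| * Real.log (y - q * ((0 : ℕ) : ℝ)) - |t| * Real.log (y - q * (u : ℝ))))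
      ≤ M * Real.log X ^ (B + 3) := mul_le_mul_of_nonneg_left (by linarith) hM0
    _ = (X : ℝ) / q / Real.log X ^ A := by
        rw [hMdef, show A + B + 3 = A + (B + 3) by ring, pow_add]
        have h9 : Real.log X ^ (B + 3) ≠ 0 := by positivity
        have h10 : Real.log X ^ A ≠ 0 := by positivity
        field_simp

theorem Z_two_mono {κ ε : ℝ} (hκ : 0 < κ) (hκ1 : κ ≤ 1 / 1000) (hε : 20 * κ ≤ ε) (A C₀ : ℕ) : ∃ X₀ : ℕ, ∀ X : ℕ, X₀ ≤ X →
    ∀ N : ℕ, N ≤ 2 * X → ∀ q : ℕ, 1 ≤ q → (q : ℝ) ≤ 2 * (X : ℝ) ^ (1 - ε) → q.Coprime N →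
    ∀ e : ℕ, 1 ≤ e → (e : ℝ) ≤ Real.log X ^ C₀ → ∀ i : ℕ, i ≤ 1 →
    ∀ (ω : ℕ → ℂ) (Y K : ℕ), OmOK ω 1 → Y ≤ mR κ X →
    ∀ (w : ℕ → ℝ) (G : ℝ), (∀ k, 0 ≤ w k) → (∀ k, w (k + 1) ≤ w k) → w 1 ≤ G →
    ‖∑ k ∈ (Icc 1 K).filter (fun k => q * k + mV κ X ≤ N), cc e i k * dsum ω Y ((N : ℤ) - q * k) * ((w k : ℝ) : ℂ)‖ ≤
      G * ((X : ℝ) / q / Real.log X ^ A) := by
  obtain ⟨X₁, h1⟩ := Z_two hκ hκ1 hε A 0 C₀
  refine ⟨max 1 X₁, ?_⟩
  intro X hX N hN q hq hqX hqN e he heX i hi ω Y K hω hY w G hw0 hw hG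
  have hX1 : X₁ ≤ X := (le_max_right _ _).trans hX
  have hX0 : 1 ≤ X := (le_max_left _ _).trans hX
  have hlog0 : 0 ≤ Real.log X := Real.log_natCast_nonneg _
  obtain ⟨u, hu1, hu2⟩ := filt (K := K) (V := mV κ X) (N := N) hq
  set M : ℝ := (X : ℝ) / q / Real.log X ^ A with hMdef
  have hM0 : 0 ≤ M := by positivity
  rw [hu1]
  have hb := abel_Ioc (b := fun k => cc e i k * dsum ω Y ((N : ℤ) - q * k)) (w := w) (X := u) (B := M)
    (fun n _ => hw0 n) (fun n _ => hw n) (by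
      intro u' hu'
      have hIcc : Ioc 0 u' = Icc 1 u' := rfl
      rw [hIcc]
      have h2 := h1 X hX1 N hN q hq hqX hqN e he heX i hi 1 le_rfl (by simp) (1 : DirichletCharacter ℂ 1) ω hω
        Y hY u' (by
          rcases Nat.eq_zero_or_pos u' with h0 | h0
          · rw [h0]; simp
          · have := hu2 u' h0 hu'
            omega)
      simp only [ff_one] at h2
      exact h2)
  refine hb.trans ?_
  rw [mul_comm G]
  exact mul_le_mul_of_nonneg_left hG hM0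

end Pool.Agent.MVD
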