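import Pool.Agent.MVD.VauOne
import Pool.Agent.MVD.ZOne
import Pool.Agent.MVD.MajReg

/-!
# Module MajOneB: the principal character, boxes

`r = 1`: the only character mod 1 is `χ = 1`, it is in `Prim 1` and `χ⁻¹(v) = 1`; `rp 1 N = 1`, `Zsav 1 N t = (1+|t|)^{-1/32}`. `L = log X`. For each box apply maj_region with `r = 1`, `P = P2 κ X p` (continuous: continuous_Fh), twice, after splitting the integral over `[-mT,mT]` in `|t| ≤ L^{B₁}` and `|t| > L^{B₁}`: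
`|t| ≤ L^{B₁}`: Z_two_phase with `A + c + 20`: `B = X L^{-(A+c+20)}` (`∑_{q ∈ [Q,2Q)} 1/q ≤ 1`, `(q,N) = 1`, `q ≤ 2 X^{1-ε}`, `1 = r ≤ L^{B₁}`); `|t| > L^{B₁}`: Z_one: `B = X L^E (L^{-B₁/32} + R^{-1/2})`, `B₁ = 32 (A + E + c + 20)`. P2_L1 (`∫ ‖P2‖ ≤ L^c`), card_box2 (`≤ (4L)²`).
-/

open Finset Complex MeasureTheory

namespace Pool.Agent.MVD

open Pool.Agent.ANT Pool.Agent.SInt

private theorem chi_one (v : ZMod 1) : (1 : DirichletCharacter ℂ 1)⁻¹ v = 1 := by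
  rw [inv_one]
  exact MulChar.one_apply (isUnit_of_subsingleton v)

private theorem one_mem_Prim : (1 : DirichletCharacter ℂ 1) ∈ Prim 1 := by
  rw [mem_Prim]
  exact DirichletCharacter.isPrimitive_one_level_one

private theorem continuous_P2 (κ : ℝ) (X : ℕ) (p : ℕ × ℕ) : Continuous (P2 κ X p) := by
  unfold P2
  exact (continuous_Fh _ _).mul (continuous_Fh _ _)

private theorem rp_one (N : ℕ) : rp 1 N = 1 := by
  simp [rp]

/-- one region, `r = 1` -/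
private theorem region_one {κ : ℝ} {X N K e i : ℕ} {S : Finset ℕ} {p : ℕ × ℕ} {A : Set ℝ} {B : ℝ}
    (hR : 1 ≤ mR κ X)
    (h4 : ∀ (e i K : ℕ) (S : Finset ℕ), ∀ r : ℕ, 1 ≤ r → r ≤ mR κ X → ∀ χ ∈ Prim r, ∀ P : ℝ → ℂ, Continuous P →
    ∀ A : Set ℝ, MeasurableSet A → A ⊆ Set.Icc (-mT κ X) (mT κ X) → ∀ B : ℝ, 0 ≤ B →
    (∀ (ω : ℕ → ℂ) (y t : ℝ), t ∈ A → ZOK κ X N r (mR κ X / r) χ⁻¹ ω y t →
      ∑ q ∈ S, ‖ZS (cc e i) (ff χ⁻¹ ω (mR κ X / r)) K N (mV κ X) y t q‖ ≤ B) →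
    ∑ q ∈ S, ‖∑ k ∈ (Icc 1 K).filter (fun k => q * k + mV κ X ≤ N), cc e i k *
        (χ⁻¹ (((N : ℤ) - q * k : ℤ) : ZMod r) * Wr (mR κ X) r ((N : ℤ) - q * k)) *
        ∫ t in A, P t * kap (mD κ X) ((N : ℤ) - q * k) t‖ ≤
      Real.log X ^ 5 * B * ∫ t in A, ‖P t‖)
    (hA : MeasurableSet A) (hAs : A ⊆ Set.Icc (-mT κ X) (mT κ X)) (hB : 0 ≤ B)
    (hZ : ∀ (ω : ℕ → ℂ) (y t : ℝ), t ∈ A → ZOK κ X N 1 (mR κ X / 1) (1 : DirichletCharacter ℂ 1)⁻¹ ω y t →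
      ∑ q ∈ S, ‖ZS (cc e i) (ff (1 : DirichletCharacter ℂ 1)⁻¹ ω (mR κ X / 1)) K N (mV κ X) y t q‖ ≤ B)
    {I : ℝ} (hI : ∫ t in Set.Icc (-mT κ X) (mT κ X), ‖P2 κ X p t‖ ≤ I) (hlog : 0 ≤ Real.log X) :
    ∑ q ∈ S, ‖∑ k ∈ (Icc 1 K).filter (fun k => q * k + mV κ X ≤ N), cc e i k *
        Wr (mR κ X) 1 ((N : ℤ) - q * k) *
        ∫ t in A, P2 κ X p t * kap (mD κ X) ((N : ℤ) - q * k) t‖ ≤ Real.log X ^ 5 * B * I := by
  have h1 := h4 e i K S 1 le_rfl hR 1 one_mem_Prim (P2 κ X p) (continuous_P2 κ X p) A hA hAs B hB hZ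
  have h2 : ∫ t in A, ‖P2 κ X p t‖ ≤ I := by
    refine le_trans ?_ hI
    refine setIntegral_mono_set ?_ (Filter.Eventually.of_forall fun t => norm_nonneg _)
      (Filter.Eventually.of_forall hAs)
    exact (continuous_P2 κ X p).norm.integrableOn_Icc
  have h3 : ∑ q ∈ S, ‖∑ k ∈ (Icc 1 K).filter (fun k => q * k + mV κ X ≤ N), cc e i k *
        Wr (mR κ X) 1 ((N : ℤ) - q * k) *
        ∫ t in A, P2 κ X p t * kap (mD κ X) ((N : ℤ) - q * k) t‖ =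
      ∑ q ∈ S, ‖∑ k ∈ (Icc 1 K).filter (fun k => q * k + mV κ X ≤ N), cc e i k *
        ((1 : DirichletCharacter ℂ 1)⁻¹ (((N : ℤ) - q * k : ℤ) : ZMod 1) *
          Wr (mR κ X) 1 ((N : ℤ) - q * k)) *
        ∫ t in A, P2 κ X p t * kap (mD κ X) ((N : ℤ) - q * k) t‖ := by
    refine Finset.sum_congr rfl fun q _ => ?_
    congr 1
    refine Finset.sum_congr rfl fun k _ => ?_
    rw [chi_one, one_mul]
  rw [h3]
  refine h1.trans ?_
  exact mul_le_mul_of_nonneg_left h2 (mul_nonneg (pow_nonneg hlog 5) hB)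

/-- `∑_{Q ≤ q < 2Q} X/q ≤ X` -/
private theorem sum_div_le {Q : ℕ} (hQ : 1 ≤ Q) {x : ℝ} (hx : 0 ≤ x) {S : Finset ℕ}
    (hS : S ⊆ Ico Q (2 * Q)) : ∑ q ∈ S, x / q ≤ x := by
  have hQ0 : (0 : ℝ) < Q := by exact_mod_cast hQ
  have h1 : ∀ q ∈ S, x / q ≤ x / Q := by
    intro q hq
    have h2 := (Finset.mem_Ico.1 (hS hq)).1
    exact div_le_div_of_nonneg_left hx hQ0 (by exact_mod_cast h2)
  have h2 := Finset.sum_le_card_nsmul S _ _ h1
  have h3 : (S.card : ℝ) ≤ Q := by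
    have h4 := Finset.card_le_card hS
    rw [Nat.card_Ico] at h4
    have h5 : S.card ≤ Q := by omega
    exact_mod_cast h5
  refine h2.trans ?_
  rw [nsmul_eq_mul]
  calc (S.card : ℝ) * (x / Q) ≤ Q * (x / Q) :=
        mul_le_mul_of_nonneg_right h3 (div_nonneg hx hQ0.le)
    _ = x := by field_simp

theorem maj_one_box {κ ε : ℝ} (hκ : 0 < κ) (hκ1 : κ ≤ 1 / 1000) (hε : 20 * κ ≤ ε) (A C₀ : ℕ) : ∃ X₀ : ℕ, ∀ X : ℕ, X₀ ≤ X →
    ∀ N : ℕ, X - mW X < N → N < X + mW X →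
    ∀ Q K : ℕ, 1 ≤ Q → (Q : ℝ) ≤ (X : ℝ) ^ (1 - ε) → N ≤ Q * K →
    ∀ e : ℕ, 1 ≤ e → (e : ℝ) ≤ Real.log X ^ C₀ → ∀ i : ℕ, i ≤ 1 →
    ∑ q ∈ (Ico Q (2 * Q)).filter (fun q => q.Coprime N),
        ∑ p ∈ box2 κ X, ‖∑ k ∈ (Icc 1 K).filter (fun k => q * k + mV κ X ≤ N), cc e i k *
          Wr (mR κ X) 1 ((N : ℤ) - q * k) *
          ∫ t in Set.Icc (-mT κ X) (mT κ X), P2 κ X p t * kap (mD κ X) ((N : ℤ) - q * k) t‖ ≤
      X / Real.log X ^ A := by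
  obtain ⟨c, X1, hc⟩ := P2_L1 hκ hκ1
  obtain ⟨E, X2, hE⟩ := Z_one hκ hκ1 hε C₀
  obtain ⟨X3, h3⟩ := Z_two_phase hκ hκ1 hε (A + c + 20) (32 * (A + E + c + 20)) C₀
  obtain ⟨X4, h4⟩ := maj_region hκ hκ1
  obtain ⟨X5, h5⟩ := par_ok hκ hκ1
  obtain ⟨X6, h6⟩ := log_le_R hκ hκ1 1 (A + E + c + 20) (δ := 1 / 2) (by norm_num)
  refine ⟨max (max (max X1 X2) (max X3 X4)) (max (max X5 X6) 1000), ?_⟩
  intro X hX N hN1 hN2 Q K hQ hQX hNK e he heL i hi
  simp only [max_le_iff] at hX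
  obtain ⟨⟨⟨hX1, hX2⟩, hX3, hX4⟩, ⟨hX5, hX6⟩, hX7⟩ := hX
  have hP := h5 X hX5
  have hR1 : 1 ≤ mR κ X := by have := hP.R2; omega
  set L : ℝ := Real.log X with hL
  have hX0 : (0 : ℝ) < X := by
    have : 0 < X := by omega
    exact_mod_cast this
  have hL2 : 2 ≤ L := by
    rw [hL, Real.le_log_iff_exp_le hX0]
    have h1 : Real.exp 2 = Real.exp 1 * Real.exp 1 := by
      rw [← Real.exp_add]
      norm_num
    have h2 := Real.exp_one_lt_d9
    have h3 : (1000 : ℝ) ≤ X := by exact_mod_cast hX7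
    have h4 : Real.exp 1 * Real.exp 1 ≤ 3 * 3 := by
      apply mul_le_mul <;> first | linarith | positivity
    rw [h1]
    linarith
  have hL0 : 0 < L := by linarith
  have hL1 : 1 ≤ L := by linarith
  set B₁ : ℕ := 32 * (A + E + c + 20) with hB₁
  set S : Finset ℕ := (Ico Q (2 * Q)).filter (fun q => q.Coprime N) with hS
  have hSsub : S ⊆ Ico Q (2 * Q) := Finset.filter_subset _ _
  set T : Set ℝ := Set.Icc (-(L ^ B₁)) (L ^ B₁) with hT
  have hTm : MeasurableSet T := measurableSet_Icc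
  set M : ℕ := A + E + c + 20 with hM
  -- the first region
  have hreg1 : ∀ p ∈ box2 κ X, ∑ q ∈ S, ‖∑ k ∈ (Icc 1 K).filter (fun k => q * k + mV κ X ≤ N), cc e i k *
        Wr (mR κ X) 1 ((N : ℤ) - q * k) *
        ∫ t in Set.Icc (-mT κ X) (mT κ X) ∩ T, P2 κ X p t * kap (mD κ X) ((N : ℤ) - q * k) t‖ ≤
      L ^ 5 * (X / L ^ (A + c + 20)) * L ^ c := by
    intro p hp
    refine region_one hR1 (fun e i K S => h4 X hX4 N hN1 hN2 e i K S) (measurableSet_Icc.inter hTm)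
      Set.inter_subset_left (by positivity) ?_ (hc X hX1 p hp) hL0.le
    intro ω y t ht hz
    have ht2 : |t| ≤ L ^ B₁ := abs_le.2 ht.2
    have h1 : ∀ q ∈ S, ‖ZS (cc e i) (ff (1 : DirichletCharacter ℂ 1)⁻¹ ω (mR κ X / 1)) K N (mV κ X) y t q‖ ≤
        (X / L ^ (A + c + 20)) / q := by
      intro q hq
      obtain ⟨hq1, hq2⟩ := Finset.mem_filter.1 hq
      rw [Finset.mem_Ico] at hq1
      have hq3 : (q : ℝ) ≤ 2 * (X : ℝ) ^ (1 - ε) := by
        have : (q : ℝ) ≤ 2 * Q := by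
          have : q ≤ 2 * Q := by omega
          exact_mod_cast this
        linarith
      have h2 := h3 X hX3 N 1 (mR κ X / 1) K _ ω y t hz (by
        have h5 := one_le_pow₀ (n := B₁) hL1
        simpa using h5) ht2 q (by omega) hq3 hq2 e he heL i hi
      refine h2.trans (le_of_eq ?_)
      rw [div_right_comm]
    exact (Finset.sum_le_sum h1).trans (sum_div_le hQ (by positivity) hSsub)
  -- the second region
  have hreg2 : ∀ p ∈ box2 κ X, ∑ q ∈ S, ‖∑ k ∈ (Icc 1 K).filter (fun k => q * k + mV κ X ≤ N), cc e i k *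
        Wr (mR κ X) 1 ((N : ℤ) - q * k) *
        ∫ t in Set.Icc (-mT κ X) (mT κ X) \ T, P2 κ X p t * kap (mD κ X) ((N : ℤ) - q * k) t‖ ≤
      L ^ 5 * (X * L ^ E * (2 / L ^ M)) * L ^ c := by
    intro p hp
    refine region_one hR1 (fun e i K S => h4 X hX4 N hN1 hN2 e i K S) (measurableSet_Icc.diff hTm)
      Set.sdiff_subset (by positivity) ?_ (hc X hX1 p hp) hL0.le
    intro ω y t ht hz
    have ht2 : L ^ B₁ ≤ |t| := by
      by_contra hcon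
      exact ht.2 (abs_le.1 (not_le.1 hcon).le)
    have h1 := hE X hX2 Q hQ hQX e he heL i hi N 1 (mR κ X / 1) K _ ω y t hz hNK
    refine le_trans (Finset.sum_le_sum_of_subset_of_nonneg hSsub fun _ _ _ => norm_nonneg _) (h1.trans ?_)
    refine mul_le_mul_of_nonneg_left ?_ (by positivity)
    have hz1 : Zsav 1 N t ≤ 1 / L ^ M := by
      unfold Zsav
      rw [rp_one, Nat.cast_one, one_mul]
      have h2 : (L ^ B₁) ≤ 1 + |t| := by linarith
      have h3 : (1 + |t|) ^ (-(1 / 32) : ℝ) ≤ (L ^ B₁) ^ (-(1 / 32) : ℝ) :=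
        Real.rpow_le_rpow_of_nonpos (by positivity) h2 (by norm_num)
      refine h3.trans (le_of_eq ?_)
      rw [hB₁, pow_mul, Real.rpow_neg (by positivity), one_div]
      rw [← pow_mul, mul_comm 32 M, pow_mul, ← Real.rpow_natCast (L ^ M) 32, ← Real.rpow_mul (by positivity)]
      norm_num
    have hR2 : 1 / √(mR κ X : ℝ) ≤ 1 / L ^ M := by
      have h2 := h6 X hX6
      rw [one_mul, ← Real.sqrt_eq_rpow] at h2
      exact one_div_le_one_div_of_le (by positivity) h2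
    calc Zsav 1 N t + 1 / √(mR κ X : ℝ) ≤ 1 / L ^ M + 1 / L ^ M := add_le_add hz1 hR2
      _ = 2 / L ^ M := by ring
  -- one box
  have hbox : ∀ p ∈ box2 κ X, ∑ q ∈ S, ‖∑ k ∈ (Icc 1 K).filter (fun k => q * k + mV κ X ≤ N), cc e i k *
        Wr (mR κ X) 1 ((N : ℤ) - q * k) *
        ∫ t in Set.Icc (-mT κ X) (mT κ X), P2 κ X p t * kap (mD κ X) ((N : ℤ) - q * k) t‖ ≤
      3 * X / L ^ (A + 15) := by
    intro p hp
    have hsplit : ∀ v : ℤ, ∫ t in Set.Icc (-mT κ X) (mT κ X), P2 κ X p t * kap (mD κ X) v t =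
        (∫ t in Set.Icc (-mT κ X) (mT κ X) ∩ T, P2 κ X p t * kap (mD κ X) v t) +
          ∫ t in Set.Icc (-mT κ X) (mT κ X) \ T, P2 κ X p t * kap (mD κ X) v t := by
      intro v
      refine (integral_inter_add_sdiff hTm ?_).symm
      exact ((continuous_P2 κ X p).mul (continuous_kap _ v)).integrableOn_Icc
    have h1 : ∀ q ∈ S, ‖∑ k ∈ (Icc 1 K).filter (fun k => q * k + mV κ X ≤ N), cc e i k *
        Wr (mR κ X) 1 ((N : ℤ) - q * k) *
        ∫ t in Set.Icc (-mT κ X) (mT κ X), P2 κ X p t * kap (mD κ X) ((N : ℤ) - q * k) t‖ ≤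
        ‖∑ k ∈ (Icc 1 K).filter (fun k => q * k + mV κ X ≤ N), cc e i k *
        Wr (mR κ X) 1 ((N : ℤ) - q * k) *
        ∫ t in Set.Icc (-mT κ X) (mT κ X) ∩ T, P2 κ X p t * kap (mD κ X) ((N : ℤ) - q * k) t‖ +
        ‖∑ k ∈ (Icc 1 K).filter (fun k => q * k + mV κ X ≤ N), cc e i k *
        Wr (mR κ X) 1 ((N : ℤ) - q * k) *
        ∫ t in Set.Icc (-mT κ X) (mT κ X) \ T, P2 κ X p t * kap (mD κ X) ((N : ℤ) - q * k) t‖ := by
      intro q _
      refine le_trans (le_of_eq ?_) (norm_add_le _ _)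
      rw [← Finset.sum_add_distrib]
      congr 1
      refine Finset.sum_congr rfl fun k _ => ?_
      rw [hsplit, mul_add]
    refine (Finset.sum_le_sum h1).trans ?_
    rw [Finset.sum_add_distrib]
    refine (add_le_add (hreg1 p hp) (hreg2 p hp)).trans (le_of_eq ?_)
    have e1 : L ^ (A + c + 20) = L ^ 5 * L ^ c * L ^ (A + 15) := by
      rw [← pow_add, ← pow_add]
      congr 1
      omega
    have e2 : L ^ M = L ^ 5 * L ^ E * L ^ c * L ^ (A + 15) := by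
      rw [hM, ← pow_add, ← pow_add, ← pow_add]
      congr 1
      omega
    rw [e1, e2]
    field_simp
    ring
  -- all boxes
  rw [Finset.sum_comm]
  have h7 := Finset.sum_le_card_nsmul (box2 κ X) _ _ hbox
  refine h7.trans ?_
  rw [nsmul_eq_mul]
  have h8 := card_box2 (κ := κ) (X := X) (by omega)
  rw [← hL] at h8
  calc ((box2 κ X).card : ℝ) * (3 * X / L ^ (A + 15)) ≤ (4 * L) ^ 2 * (3 * X / L ^ (A + 15)) :=
        mul_le_mul_of_nonneg_right h8 (by positivity)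
    _ = 48 / L ^ 13 * (X / L ^ A) := by
        have e3 : L ^ (A + 15) = L ^ A * L ^ 13 * L ^ 2 := by
          rw [← pow_add, ← pow_add]
        rw [e3]
        field_simp
        ring
    _ ≤ 1 * (X / L ^ A) := by
        refine mul_le_mul_of_nonneg_right ?_ (by positivity)
        rw [div_le_one (by positivity)]
        have h9 : (2 : ℝ) ^ 13 ≤ L ^ 13 := pow_le_pow_left₀ (by norm_num) hL2 13
        linarith
    _ = X / L ^ A := one_mul _

end Pool.Agent.MVD
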