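import Pool.Agent.MVD.RamA
import Pool.Agent.Lib.ANT.BVRed

/-!
# Module RamB: the sieve weight `W_r` as a divisor sum

`Wr_dsum`: by `cR_eq`, `W_r(v) = ∑_{d ≤ R/r, d ∣ v} ω'(d)` with
`ω'(d) = ∑_{k ≤ R/r, (k,r)=1, d ∣ k} (μ(k)/φ(k)) d μ(k/d)`; `|ω'(d)| ≤ d ∑_{k' ≤ R} 1/φ(dk') ≤ (d/φ(d)) ∑_{k' ≤ R} 1/φ(k')`
(`φ(dk') ≥ φ(d)φ(k')`, Nat.totient_super_multiplicative), `∑_{k ≤ R} 1/φ(k) ≤ Hs R ^ 2` (sum_inv_totient_le in Lib/ANT/BVRed) and
`d/φ(d) ≤ Hs R ^ 2` for `d ≤ R` (`d/φ(d) = ∑_{k ∣ d} μ(k)^2/φ(k)`, or a bound found in Lib). Put `ω = ω'/Hs(R)^4`. `ω'(d) = 0` unless `(d,r) = 1` because `d ∣ k`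
(and put `ω(d) = 0` for `d > R/r` or `d = 0`).
`norm_dsum_le`: the number of `d` with `d ∣ v` is at most `τ(|v|)`; `tauR n = (n.divisors.card : ℝ)`.
-/

open Finset Complex
open scoped ArithmeticFunction.Moebius

namespace Pool.Agent.MVD

open Pool.Agent.ANT Pool.Agent.SInt

private lemma ramb_one_le_Hs {R : ℕ} (hR : 1 ≤ R) : 1 ≤ Hs R := by
  have h1 : Hs 1 ≤ Hs R := Hs_mono hR
  have h2 : Hs 1 = 1 := by
    unfold Hs
    simp
  linarith

/-- `d / φ(d)` -/
private lemma ramb_div_totient {R d : ℕ} (hd : 1 ≤ d) (hdR : d ≤ R) :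
    (d : ℝ) / d.totient ≤ Hs R ^ 2 := by
  have hφ : (0 : ℝ) < d.totient := by exact_mod_cast Nat.totient_pos.mpr hd
  have h1 : (d : ℝ) = ∑ e ∈ d.divisors, ((d / e).totient : ℝ) := by
    have h := Nat.sum_totient d
    rw [← Nat.sum_div_divisors] at h
    exact_mod_cast h.symm
  have h2 : (d : ℝ) / d.totient ≤ ∑ e ∈ d.divisors, (1 : ℝ) / e.totient := by
    rw [div_le_iff₀ hφ, Finset.sum_mul]
    conv_lhs => rw [h1]
    refine Finset.sum_le_sum fun e he => ?_
    obtain ⟨c, hc⟩ := Nat.dvd_of_mem_divisors he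
    have he0 : 0 < e := Nat.pos_of_mem_divisors he
    have hφe : (0 : ℝ) < e.totient := by exact_mod_cast Nat.totient_pos.mpr he0
    have h3 : d / e = c := by rw [hc, Nat.mul_div_cancel_left _ he0]
    have h4 : ((e.totient : ℝ)) * (c.totient : ℝ) ≤ (d.totient : ℝ) := by
      rw [hc]
      exact_mod_cast Nat.totient_super_multiplicative e c
    rw [h3, div_mul_eq_mul_div, one_mul, le_div_iff₀ hφe, mul_comm]
    exact h4
  refine h2.trans (le_trans ?_ (sum_inv_totient_le R))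
  refine Finset.sum_le_sum_of_subset_of_nonneg ?_ fun _ _ _ => by positivity
  intro e he
  have he0 : 0 < e := Nat.pos_of_mem_divisors he
  have := Nat.divisor_le he
  exact Finset.mem_Ioc.mpr ⟨he0, this.trans hdR⟩

private lemma ramb_norm_muC (n : ℕ) : ‖muC n‖ ≤ 1 := by
  unfold muC
  have h : |ArithmeticFunction.moebius n| ≤ 1 := ArithmeticFunction.abs_moebius_le_one
  rw [Complex.norm_intCast]
  exact_mod_cast h

/-- the weight before normalising -/
private noncomputable def ramb_w (Y r d : ℕ) : ℂ :=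
  ∑ k ∈ ((Icc 1 Y).filter (fun k => k.Coprime r)).filter (fun k => d ∣ k),
    muC k / (k.totient : ℂ) * ((d : ℂ) * muC (k / d))

private lemma ramb_w_coprime {Y r d : ℕ} (h : ¬ d.Coprime r) : ramb_w Y r d = 0 := by
  unfold ramb_w
  rw [Finset.filter_filter, Finset.filter_false_of_mem, Finset.sum_empty]
  rintro k _ ⟨h1, h2⟩
  exact h (Nat.Coprime.coprime_dvd_left h2 h1)

private lemma ramb_norm_w {R Y r d : ℕ} (hY : Y ≤ R) (hd : 1 ≤ d) (hdR : d ≤ R) :
    ‖ramb_w Y r d‖ ≤ Hs R ^ 4 := by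
  have hφd : (0 : ℝ) < d.totient := by exact_mod_cast Nat.totient_pos.mpr hd
  have hd0 : (0 : ℝ) < d := by exact_mod_cast hd
  calc ‖ramb_w Y r d‖
      ≤ ∑ k ∈ ((Icc 1 Y).filter (fun k => k.Coprime r)).filter (fun k => d ∣ k),
          (d : ℝ) / k.totient := by
        refine (norm_sum_le _ _).trans (Finset.sum_le_sum fun k hk => ?_)
        have h1 := ramb_norm_muC k
        have h2 := ramb_norm_muC (k / d)
        rw [norm_mul, norm_div, norm_mul, Complex.norm_natCast, Complex.norm_natCast]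
        have hk0 : (0 : ℝ) ≤ k.totient := Nat.cast_nonneg _
        calc ‖muC k‖ / (k.totient : ℝ) * (d * ‖muC (k / d)‖)
            ≤ 1 / (k.totient : ℝ) * (d * 1) := by gcongr
          _ = (d : ℝ) / k.totient := by ring
    _ ≤ ∑ k ∈ (Ioc 0 R).image (fun k' => d * k'), (d : ℝ) / k.totient := by
        refine Finset.sum_le_sum_of_subset_of_nonneg ?_ fun _ _ _ => by positivity
        intro k hk
        obtain ⟨h1, h2⟩ := Finset.mem_filter.mp hk
        obtain ⟨h3, _⟩ := Finset.mem_filter.mp h1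
        obtain ⟨h4, h5⟩ := Finset.mem_Icc.mp h3
        obtain ⟨c, hc⟩ := h2
        refine Finset.mem_image.mpr ⟨c, Finset.mem_Ioc.mpr ⟨?_, ?_⟩, hc.symm⟩
        · rcases Nat.eq_zero_or_pos c with h0 | h0
          · rw [h0, mul_zero] at hc
            omega
          · exact h0
        · have : c ≤ d * c := Nat.le_mul_of_pos_left c hd
          omega
    _ = ∑ k' ∈ Ioc 0 R, (d : ℝ) / ((d * k').totient : ℕ) := by
        rw [Finset.sum_image]
        intro a _ b _ hab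
        exact Nat.eq_of_mul_eq_mul_left hd hab
    _ ≤ ∑ k' ∈ Ioc 0 R, (d : ℝ) / d.totient * (1 / k'.totient) := by
        refine Finset.sum_le_sum fun k hk => ?_
        have hk0 := (Finset.mem_Ioc.mp hk).1
        have hφk : (0 : ℝ) < k.totient := by exact_mod_cast Nat.totient_pos.mpr hk0
        rw [div_mul_div_comm, mul_one]
        have h1 : (d.totient : ℝ) * k.totient ≤ ((d * k : ℕ)).totient := by
          exact_mod_cast Nat.totient_super_multiplicative d k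
        gcongr
    _ = (d : ℝ) / d.totient * ∑ k' ∈ Ioc 0 R, (1 : ℝ) / k'.totient := by rw [Finset.mul_sum]
    _ ≤ Hs R ^ 2 * Hs R ^ 2 := by
        refine mul_le_mul (ramb_div_totient hd hdR) (sum_inv_totient_le R) ?_ (by positivity)
        exact Finset.sum_nonneg fun _ _ => by positivity
    _ = Hs R ^ 4 := by ring

private lemma ramb_Wr (R r : ℕ) (v : ℤ) :
    Wr R r v = ∑ d ∈ Icc 1 (R / r), if (d : ℤ) ∣ v then ramb_w (R / r) r d else 0 := by
  unfold Wr
  have h1 : ∀ k ∈ (Icc 1 (R / r)).filter (fun k => k.Coprime r),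
      muC k / (k.totient : ℂ) * cR k v =
      ∑ d ∈ Icc 1 (R / r), if d ∣ k then (if (d : ℤ) ∣ v then
        muC k / (k.totient : ℂ) * ((d : ℂ) * muC (k / d)) else 0) else 0 := by
    intro k hk
    obtain ⟨h2, _⟩ := Finset.mem_filter.mp hk
    obtain ⟨h3, h4⟩ := Finset.mem_Icc.mp h2
    rw [cR_eq h3, Finset.mul_sum, ← Finset.sum_filter]
    have h5 : (Icc 1 (R / r)).filter (fun d => d ∣ k) = k.divisors := by
      ext d
      rw [Finset.mem_filter, Finset.mem_Icc, Nat.mem_divisors]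
      constructor
      · rintro ⟨_, h6⟩
        exact ⟨h6, by omega⟩
      · rintro ⟨h6, _⟩
        have h7 := Nat.le_of_dvd (by omega) h6
        have h8 := Nat.pos_of_dvd_of_pos h6 (by omega)
        exact ⟨⟨h8, by omega⟩, h6⟩
    rw [h5]
    refine Finset.sum_congr rfl fun d _ => ?_
    split_ifs
    · rfl
    · rw [mul_zero]
  rw [Finset.sum_congr rfl h1, Finset.sum_comm]
  refine Finset.sum_congr rfl fun d _ => ?_
  by_cases hd : (d : ℤ) ∣ v
  · simp only [if_pos hd]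
    unfold ramb_w
    rw [← Finset.sum_filter]
  · simp only [if_neg hd, ite_self, Finset.sum_const_zero]

theorem Wr_dsum {R r : ℕ} (hR : 1 ≤ R) (hr : 1 ≤ r) : ∃ ω : ℕ → ℂ, OmOK ω r ∧
    ∀ v : ℤ, Wr R r v = ((Hs R ^ 4 : ℝ) : ℂ) * dsum ω (R / r) v := by
  have hH := ramb_one_le_Hs hR
  have hH0 : 0 < Hs R := by linarith
  have hHc : ((Hs R ^ 4 : ℝ) : ℂ) ≠ 0 := by
    have : (Hs R ^ 4 : ℝ) ≠ 0 := by positivity
    exact_mod_cast this
  have hY : R / r ≤ R := Nat.div_le_self _ _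
  refine ⟨fun d => if 1 ≤ d ∧ d ≤ R / r then ramb_w (R / r) r d / ((Hs R ^ 4 : ℝ) : ℂ) else 0,
    ⟨?_, ?_⟩, ?_⟩
  · intro d
    beta_reduce
    split_ifs with h
    · rw [norm_div, Complex.norm_real, Real.norm_of_nonneg (by positivity),
        div_le_one (by positivity)]
      exact ramb_norm_w hY h.1 (h.2.trans hY)
    · simp
  · intro d hd
    beta_reduce
    split_ifs with h
    · rw [ramb_w_coprime hd, zero_div]
    · rfl
  · intro v
    rw [ramb_Wr]
    unfold dsum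
    rw [Finset.mul_sum]
    refine Finset.sum_congr rfl fun d hd => ?_
    beta_reduce
    rw [if_pos (Finset.mem_Icc.mp hd)]
    by_cases hdv : (d : ℤ) ∣ v
    · rw [if_pos hdv, if_pos hdv, mul_div_cancel₀ _ hHc]
    · rw [if_neg hdv, if_neg hdv, mul_zero]

theorem norm_dsum_le {ω : ℕ → ℂ} (hω : ∀ d, ‖ω d‖ ≤ 1) (Y : ℕ) {v : ℤ} (hv : v ≠ 0) :
    ‖dsum ω Y v‖ ≤ tauR v.natAbs := by
  unfold dsum tauR
  rw [← Finset.sum_filter]
  calc ‖∑ d ∈ (Icc 1 Y).filter (fun d : ℕ => (d : ℤ) ∣ v), ω d‖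
      ≤ ∑ d ∈ (Icc 1 Y).filter (fun d : ℕ => (d : ℤ) ∣ v), (1 : ℝ) :=
        (norm_sum_le _ _).trans (Finset.sum_le_sum fun d _ => hω d)
    _ = (((Icc 1 Y).filter (fun d : ℕ => (d : ℤ) ∣ v)).card : ℝ) := by simp
    _ ≤ (v.natAbs.divisors.card : ℝ) := by
        refine Nat.cast_le.mpr (Finset.card_le_card fun d hd => ?_)
        rw [Nat.mem_divisors]
        exact ⟨Int.natCast_dvd.mp (Finset.mem_filter.mp hd).2, Int.natAbs_ne_zero.mpr hv⟩

end Pool.Agent.MVD
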