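import Pool.Agent.MVD.VauDef
import Pool.Agent.MVD.ZOneB
import Pool.Agent.MVD.RamB

/-!
# Module MajOneA: the principal character, smooth part

`Wr R 1 v = Hs(R)^4 dsum ω R v` (Wr_dsum with `r = 1`, `R/1 = R`), `Hs(R) ≤ 3 log X`.
`smoothOne v = ∑_{m ≤ mU²} (Mf m (1/m) JJ_1(m,v) - aL m (1/m) JJ_0(m,v))`, `|Mf| ≤ 1`, `|aL m| ≤ log m`, `JJ ≥ 0` (JJ_nonneg), increasing in `v` (JJ_mono), `≤ 1 + log(2X)` for `v + D ≤ 2X` (JJ_le with `Z = 2X`; here `v = N - qk ≤ N`, `N + D ≤ 2X`), so `w(k) = JJ_j(m, N - qk)` is nonincreasing in `k`,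
`w(1) ≤ G = 2 log X`·...: Z_two_mono with `G = 1 + log(2X)` and `A + 10` in place of `A`. `∑_{m ≤ mU²} (1+log m)/m ≤ (1 + log X)²`. `∑_{q ∈ [Q,2Q)} X/q ≤ X`. `q ≤ 2Q ≤ 2 X^{1-ε}`, `(q,N) = 1`.
-/

open Finset Complex MeasureTheory

namespace Pool.Agent.MVD

open Pool.Agent.ANT Pool.Agent.SInt

namespace MajOneAAux

/-- exchange of the sums -/
theorem exch {κ : ℝ} {X Y : ℕ} {ω : ℕ → ℂ} {H : ℝ} (F : Finset ℕ) (v : ℕ → ℤ) (c : ℕ → ℂ)
    (Wf : ℤ → ℂ) (hW : ∀ v, Wf v = ((H : ℝ) : ℂ) * dsum ω Y v) :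
    ∑ k ∈ F, c k * Wf (v k) * smoothOne κ X (v k) =
      ((H : ℝ) : ℂ) * ∑ m ∈ Icc 1 ((mU κ X) ^ 2), (((1 : ℝ) / m : ℝ) : ℂ) *
        (Mf (mU κ X - 1) m * (∑ k ∈ F, c k * dsum ω Y (v k) * ((JJ 1 (mD κ X) m (v k) : ℝ) : ℂ)) -
        aL (mU κ X - 1) m * (∑ k ∈ F, c k * dsum ω Y (v k) * ((JJ 0 (mD κ X) m (v k) : ℝ) : ℂ))) := by
  have h1 : ∀ k ∈ F, c k * Wf (v k) * smoothOne κ X (v k) =
      ∑ m ∈ Icc 1 ((mU κ X) ^ 2), c k * Wf (v k) *
        (Mf (mU κ X - 1) m * (((1 : ℝ) / m * JJ 1 (mD κ X) m (v k) : ℝ) : ℂ) -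
          aL (mU κ X - 1) m * (((1 : ℝ) / m * JJ 0 (mD κ X) m (v k) : ℝ) : ℂ)) := by
    intro k _
    rw [smoothOne, mul_sum]
  rw [sum_congr rfl h1, sum_comm, mul_sum]
  refine sum_congr rfl fun m _ => ?_
  simp only [mul_sum, ← sum_sub_distrib]
  refine sum_congr rfl fun k _ => ?_
  rw [hW]
  push_cast
  ring

theorem bound {m : ℕ} (hm : 1 ≤ m) {M L a b : ℂ} {G lm : ℝ} (hM : ‖M‖ ≤ 1) (hL : ‖L‖ ≤ lm)
    (hl : 0 ≤ lm) (ha : ‖a‖ ≤ G) (hb : ‖b‖ ≤ G) :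
    ‖(((1 : ℝ) / m : ℝ) : ℂ) * (M * a - L * b)‖ ≤ (1 / m) * ((1 + lm) * G) := by
  have hG : 0 ≤ G := (norm_nonneg a).trans ha
  rw [norm_mul, Complex.norm_real, Real.norm_of_nonneg (by positivity)]
  refine mul_le_mul_of_nonneg_left ?_ (by positivity)
  refine (norm_sub_le _ _).trans ?_
  rw [norm_mul, norm_mul, add_mul, one_mul]
  refine add_le_add ?_ ?_
  · calc ‖M‖ * ‖a‖ ≤ 1 * G := by gcongr
      _ = G := one_mul G
  · exact mul_le_mul hL hb (norm_nonneg _) hl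

end MajOneAAux

open MajOneAAux in
theorem maj_one_smooth {κ ε : ℝ} (hκ : 0 < κ) (hκ1 : κ ≤ 1 / 1000) (hε : 20 * κ ≤ ε) (A C₀ : ℕ) : ∃ X₀ : ℕ, ∀ X : ℕ, X₀ ≤ X →
    ∀ N : ℕ, X - mW X < N → N < X + mW X →
    ∀ Q K : ℕ, 1 ≤ Q → (Q : ℝ) ≤ (X : ℝ) ^ (1 - ε) →
    ∀ e : ℕ, 1 ≤ e → (e : ℝ) ≤ Real.log X ^ C₀ → ∀ i : ℕ, i ≤ 1 →
    ∑ q ∈ (Ico Q (2 * Q)).filter (fun q => q.Coprime N),
      ‖∑ k ∈ (Icc 1 K).filter (fun k => q * k + mV κ X ≤ N), cc e i k * Wr (mR κ X) 1 ((N : ℤ) - q * k) *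
          smoothOne κ X ((N : ℤ) - q * k)‖ ≤
      X / Real.log X ^ A := by
  obtain ⟨X₁, h1⟩ := Z_two_mono hκ hκ1 hε (A + 10) C₀
  obtain ⟨X₂, h2⟩ := par_ok hκ hκ1
  refine ⟨max (max X₁ X₂) ⌈Real.exp 13⌉₊, ?_⟩
  intro X hX N hN1 hN2 Q K hQ hQX e he heX i hi
  have hX1 : X₁ ≤ X := (le_max_left _ _).trans ((le_max_left _ _).trans hX)
  have hX2 : X₂ ≤ X := (le_max_right _ _).trans ((le_max_left _ _).trans hX)
  have hXe : Real.exp 13 ≤ (X : ℝ) :=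
    (Nat.le_ceil _).trans (by exact_mod_cast (le_max_right _ _).trans hX)
  have hP := h2 X hX2
  have hX3 := hP.X3
  have hX0 : (0 : ℝ) < X := lt_of_lt_of_le (Real.exp_pos _) hXe
  have hL : 13 ≤ Real.log X := (Real.le_log_iff_exp_le hX0).2 hXe
  set L := Real.log X with hLdef
  have hL0 : 0 < L := by linarith
  -- sizes
  have hW1 := hP.W1
  have hNX : N ≤ 2 * X := by omega
  have hR2 := hP.R2
  have hR4 : 1 ≤ mR κ X ^ 4 := Nat.one_le_pow _ _ (by omega)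
  have hD1 : 1 ≤ mD κ X := hR4.trans hP.D3
  have hDW : mD κ X ≤ mW X := by
    have h3 := hP.D1
    calc mD κ X = mD κ X * 1 := (mul_one _).symm
      _ ≤ mD κ X * mR κ X ^ 4 := Nat.mul_le_mul_left _ hR4
      _ ≤ mW X := h3
  have hND : N + mD κ X ≤ 2 * X := by omega
  have hRX : mR κ X ^ 16 ≤ X :=
    (Nat.pow_le_pow_right (by omega) (by norm_num)).trans hP.Rpow
  have hR1X : mR κ X ≤ X := by
    calc mR κ X = mR κ X ^ 1 := (pow_one _).symm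
      _ ≤ mR κ X ^ 16 := Nat.pow_le_pow_right (by omega) (by norm_num)
      _ ≤ X := hRX
  have hUX : mU κ X ≤ X := by
    have h3 := hP.U2
    have h4 : 2 * mR κ X ^ 15 ≤ mR κ X ^ 16 := by
      rw [pow_succ' (mR κ X) 15]
      exact Nat.mul_le_mul_right _ (by omega)
    omega
  have hU2 : (mU κ X) ^ 2 ≤ X ^ 2 := Nat.pow_le_pow_left hUX 2
  have hHR : Hs (mR κ X) ≤ 3 * L := by
    refine Hs_le_log (by omega) ?_
    nlinarith
  have hHU : Hs ((mU κ X) ^ 2) ≤ 3 * L := Hs_le_log (by omega) hU2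
  have hHR0 := Hs_nonneg (mR κ X)
  have hHU0 := Hs_nonneg ((mU κ X) ^ 2)
  -- the bound `G`
  have hG : 1 + Real.log ((2 * X : ℕ) : ℝ) ≤ 3 * L := by
    push_cast
    rw [Real.log_mul (by norm_num) hX0.ne']
    have := Real.log_two_lt_d9
    linarith
  have hG0 : 0 ≤ 1 + Real.log ((2 * X : ℕ) : ℝ) := by
    have : 0 ≤ Real.log ((2 * X : ℕ) : ℝ) := Real.log_natCast_nonneg _
    linarith
  obtain ⟨ω, hω, hWr⟩ := Wr_dsum (R := mR κ X) (r := 1) (by omega) le_rfl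
  have hY : mR κ X / 1 ≤ mR κ X := Nat.div_le_self _ _
  have key : ∀ q ∈ (Ico Q (2 * Q)).filter (fun q => q.Coprime N),
      ‖∑ k ∈ (Icc 1 K).filter (fun k => q * k + mV κ X ≤ N), cc e i k *
        Wr (mR κ X) 1 ((N : ℤ) - q * k) * smoothOne κ X ((N : ℤ) - q * k)‖ ≤
        (2187 * L ^ 7 * ((X : ℝ) / L ^ (A + 10))) * (1 / Q) := by
    intro q hq
    rw [mem_filter, mem_Ico] at hq
    obtain ⟨⟨hq1, hq2⟩, hqN⟩ := hq
    have hq0 : 1 ≤ q := hQ.trans hq1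
    have hq0' : (0 : ℝ) < q := by exact_mod_cast hq0
    have hQ0' : (0 : ℝ) < Q := by exact_mod_cast hQ
    have hqX : (q : ℝ) ≤ 2 * (X : ℝ) ^ (1 - ε) := by
      have : (q : ℝ) ≤ 2 * Q := by exact_mod_cast hq2.le
      linarith
    rw [exch (ω := ω) (Y := mR κ X / 1) (H := Hs (mR κ X) ^ 4)
      ((Icc 1 K).filter (fun k => q * k + mV κ X ≤ N)) (fun k => (N : ℤ) - q * k) (cc e i)
      (Wr (mR κ X) 1) hWr]
    set E : ℝ := (X : ℝ) / q / L ^ (A + 10) with hE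
    have hE0 : 0 ≤ E := by positivity
    have hT : ∀ j : ℕ, j ≤ 1 → ∀ m ∈ Icc 1 ((mU κ X) ^ 2),
        ‖∑ k ∈ (Icc 1 K).filter (fun k => q * k + mV κ X ≤ N), cc e i k *
          dsum ω (mR κ X / 1) ((N : ℤ) - q * k) * ((JJ j (mD κ X) m ((N : ℤ) - q * k) : ℝ) : ℂ)‖ ≤
          (1 + Real.log ((2 * X : ℕ) : ℝ)) * E := by
      intro j hj m hm
      have hm1 : 1 ≤ m := (mem_Icc.1 hm).1
      refine h1 X hX1 N hNX q hq0 hqX hqN e he heX i hi ω (mR κ X / 1) K hω hY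
        (fun k => JJ j (mD κ X) m ((N : ℤ) - q * k)) _ (fun k => JJ_nonneg hm1 _) (fun k => ?_) ?_
      · apply JJ_mono hj hD1 hm1
        push_cast
        have : (0 : ℤ) ≤ q := Nat.cast_nonneg q
        nlinarith
      · refine JJ_le hj hD1 hm1 (by omega) ?_
        have : (0 : ℤ) ≤ q := Nat.cast_nonneg q
        have h3 : (N : ℤ) + mD κ X ≤ (2 * X : ℕ) := by exact_mod_cast hND
        push_cast at h3 ⊢
        linarith
    have hlogm : ∀ m ∈ Icc 1 ((mU κ X) ^ 2), Real.log m ≤ 2 * L := by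
      intro m hm
      rw [mem_Icc] at hm
      have h3 : (m : ℝ) ≤ (X : ℝ) ^ 2 := by exact_mod_cast hm.2.trans hU2
      have h4 : Real.log m ≤ Real.log ((X : ℝ) ^ 2) :=
        Real.log_le_log (by exact_mod_cast hm.1) h3
      rw [Real.log_pow] at h4
      exact_mod_cast h4
    have hsum : ‖∑ m ∈ Icc 1 ((mU κ X) ^ 2), (((1 : ℝ) / m : ℝ) : ℂ) *
        (Mf (mU κ X - 1) m * (∑ k ∈ (Icc 1 K).filter (fun k => q * k + mV κ X ≤ N), cc e i k *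
          dsum ω (mR κ X / 1) ((N : ℤ) - q * k) * ((JJ 1 (mD κ X) m ((N : ℤ) - q * k) : ℝ) : ℂ)) -
        aL (mU κ X - 1) m * (∑ k ∈ (Icc 1 K).filter (fun k => q * k + mV κ X ≤ N), cc e i k *
          dsum ω (mR κ X / 1) ((N : ℤ) - q * k) * ((JJ 0 (mD κ X) m ((N : ℤ) - q * k) : ℝ) : ℂ)))‖ ≤
        Hs ((mU κ X) ^ 2) * ((1 + 2 * L) * ((1 + Real.log ((2 * X : ℕ) : ℝ)) * E)) := by
      refine (norm_sum_le _ _).trans ?_
      have hHs : Hs ((mU κ X) ^ 2) = ∑ m ∈ Icc 1 ((mU κ X) ^ 2), (1 : ℝ) / m := rfl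
      rw [hHs, sum_mul]
      refine sum_le_sum fun m hm => ?_
      exact bound (mem_Icc.1 hm).1 (norm_Mf_le _ _) ((norm_aL_le _ _).trans (hlogm m hm))
        (by positivity) (hT 1 le_rfl m hm) (hT 0 (by norm_num) m hm)
    rw [norm_mul, Complex.norm_real, Real.norm_of_nonneg (by positivity)]
    calc Hs (mR κ X) ^ 4 * _ ≤ (3 * L) ^ 4 *
          ((3 * L) * ((1 + 2 * L) * ((3 * L) * E))) := by
          refine mul_le_mul (pow_le_pow_left₀ hHR0 hHR 4) (hsum.trans ?_) (norm_nonneg _)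
            (by positivity)
          have h3 : (1 + Real.log ((2 * X : ℕ) : ℝ)) * E ≤ 3 * L * E :=
            mul_le_mul_of_nonneg_right hG hE0
          have h4 : (1 + 2 * L) * ((1 + Real.log ((2 * X : ℕ) : ℝ)) * E) ≤
              (1 + 2 * L) * (3 * L * E) := mul_le_mul_of_nonneg_left h3 (by linarith)
          exact mul_le_mul hHU h4 (mul_nonneg (by linarith) (mul_nonneg hG0 hE0)) (by positivity)
      _ ≤ (3 * L) ^ 4 * ((3 * L) * ((3 * L) * ((3 * L) * E))) := by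
          have h3 : 1 + 2 * L ≤ 3 * L := by linarith
          have h5 : 0 ≤ 3 * L * E := by positivity
          have h4 : (1 + 2 * L) * (3 * L * E) ≤ 3 * L * (3 * L * E) :=
            mul_le_mul_of_nonneg_right h3 h5
          refine mul_le_mul_of_nonneg_left (mul_le_mul_of_nonneg_left h4 (by positivity))
            (by positivity)
      _ = 2187 * L ^ 7 * ((X : ℝ) / L ^ (A + 10)) * (1 / q) := by
          rw [hE]
          field_simp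
          norm_num
      _ ≤ 2187 * L ^ 7 * ((X : ℝ) / L ^ (A + 10)) * (1 / Q) := by
          refine mul_le_mul_of_nonneg_left ?_ (by positivity)
          exact one_div_le_one_div_of_le hQ0' (by exact_mod_cast hq1)
  refine (sum_le_sum key).trans ?_
  rw [sum_const, nsmul_eq_mul]
  have hQ0' : (0 : ℝ) < Q := by exact_mod_cast hQ
  have hcard : (((Ico Q (2 * Q)).filter (fun q => q.Coprime N)).card : ℝ) ≤ Q := by
    have h3 := card_filter_le (Ico Q (2 * Q)) (fun q => q.Coprime N)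
    rw [Nat.card_Ico] at h3
    have h4 : 2 * Q - Q = Q := by omega
    rw [h4] at h3
    exact_mod_cast h3
  have hB0 : 0 ≤ 2187 * L ^ 7 * ((X : ℝ) / L ^ (A + 10)) * (1 / Q) := by positivity
  calc _ ≤ (Q : ℝ) * (2187 * L ^ 7 * ((X : ℝ) / L ^ (A + 10)) * (1 / Q)) :=
        mul_le_mul_of_nonneg_right hcard hB0
    _ = 2187 * L ^ 7 * ((X : ℝ) / L ^ (A + 10)) := by field_simp
    _ ≤ L ^ 3 * L ^ 7 * ((X : ℝ) / L ^ (A + 10)) := by
        have h3 : (2187 : ℝ) ≤ L ^ 3 := by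
          calc (2187 : ℝ) ≤ 13 ^ 3 := by norm_num
            _ ≤ L ^ 3 := pow_le_pow_left₀ (by norm_num) hL 3
        have h4 : 0 ≤ L ^ 7 * ((X : ℝ) / L ^ (A + 10)) := by positivity
        nlinarith
    _ = X / L ^ A := by
        rw [pow_add L A 10]
        field_simp

end Pool.Agent.MVD
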