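import Pool.Agent.MVD.MeanL
import Pool.Agent.MVD.ZOne
import Pool.Agent.MVD.MajReg
import Pool.Agent.MVD.BoxD

/-!
# Module MajTwo: nonprincipal characters

`L = log X`, `ρ = rp r N`. Put `F(χ,p,A) = ∑_{q ∈ [Q,2Q), (q,N)=1} ‖∑_k cc χ⁻¹ Wr ∫_{A} P3 kap‖`. By maj_region, if the `Z`-sums are `≤ B` on `A` then `F ≤ L^5 B ∫_A ‖P3‖`. `r/φ(r) ≤ Hs(R)^2 ≤ 9L²` (sum_inv_totient_le style lemma in Lib; or `r/φ(r) ≤ (1 + log r)`-type bounds).
Parameters: `c` from L1_all, L1_good, `E` from Z_one `C₀`; `B₁ = 32 (A + E + c + 30)`, `b = B₁ + A + E + c + 30` (natural numbers).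
Regions for `(r,t)` (split the integral over `[-mT,mT]` in `|t| ≤ L^{B₁}` and `|t| > L^{B₁}`):
S: `r ≤ L^{B₁}`, `|t| ≤ L^{B₁}`: Z_two_phase with `A' = A + c + 30`: `∑_{q ∈ [Q,2Q)} (X/q) L^{-A'} ≤ X L^{-A'}`; L1_all.
H: `r > L^{B₁}`, `ρ ≤ L^{B₁}`, `|t| ≤ L^{B₁}`: then `r` is not bad (otherwise `ρ > L^b ≥ L^{B₁}` by hypothesis), so `‖PC LamN χ (2^j) t‖ ≤ L^{-b}` for all primitive
`χ` mod `r`, `|t| ≤ L^{b}`, `mz ≤ 2^j ≤ 2X`; Z_one with `Zsav ≤ 1`, i.e. `B = 2 X L^E`, and L1_good with `G = {r : L^{B₁} < r ≤ R, ρ ≤ L^{B₁}}`, `T' = L^{B₁}`, `δ = L^{-b}`.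
G: the rest, i.e. `|t| > L^{B₁}`, or `|t| ≤ L^{B₁}` and `r > L^{B₁}` and `ρ > L^{B₁}`: `Zsav ≤ L^{-B₁/32}`; Z_one (`B = X L^E (L^{-B₁/32} + R^{-1/2})`) and L1_all.
Sum over the boxes (card_box3: `≤ (4L)^3`). `P3` is continuous in `t` (continuous_Fh in SInt/MelInv). The sums over `q ∈ [Q,2Q), (q,N) = 1` are bounded by the sums over `q ∈ [Q,2Q)` in H, G; in S the coprimality is used.
-/

open Finset Complex MeasureTheory

namespace Pool.Agent.MVD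

open Pool.Agent.ANT Pool.Agent.SInt

namespace MajTwoAux

theorem prod_ge (S : Finset ℕ) (hS : ∀ p ∈ S, 2 ≤ p) :
    1 / ((S.card : ℝ) + 1) ≤ ∏ p ∈ S, (1 - ((p : ℝ))⁻¹) := by
  induction S using Finset.induction_on_max with
  | empty => simp
  | insert m s hm ih =>
    have hms : m ∉ s := fun h => lt_irrefl _ (hm m h)
    rw [Finset.prod_insert hms, Finset.card_insert_of_notMem hms]
    have ih' := ih (fun p hp => hS p (Finset.mem_insert_of_mem hp))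
    have hm2 : 2 ≤ m := hS m (Finset.mem_insert_self _ _)
    have hsub : s ⊆ Finset.Ico 2 m := fun p hp =>
      Finset.mem_Ico.2 ⟨hS p (Finset.mem_insert_of_mem hp), hm p hp⟩
    have hcard : s.card ≤ m - 2 := by simpa using Finset.card_le_card hsub
    have hc : (s.card : ℝ) + 2 ≤ m := by
      have : s.card + 2 ≤ m := by omega
      exact_mod_cast this
    have hc0 : (0 : ℝ) ≤ s.card := Nat.cast_nonneg _
    have h1 : ((s.card : ℝ) + 1) / (s.card + 2) ≤ 1 - ((m : ℝ))⁻¹ := by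
      have h2 : ((m : ℝ))⁻¹ ≤ ((s.card : ℝ) + 2)⁻¹ := inv_anti₀ (by linarith) hc
      have h3 : ((s.card : ℝ) + 1) / (s.card + 2) = 1 - ((s.card : ℝ) + 2)⁻¹ := by
        field_simp
        ring
      rw [h3]; linarith
    push_cast
    calc 1 / ((s.card : ℝ) + 1 + 1) = ((s.card : ℝ) + 1) / (s.card + 2) * (1 / ((s.card : ℝ) + 1)) := by
          field_simp
          ring
      _ ≤ (1 - ((m : ℝ))⁻¹) * ∏ p ∈ s, (1 - ((p : ℝ))⁻¹) := by
          apply mul_le_mul h1 ih' (by positivity)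
          exact le_trans (by positivity) h1

theorem ratio_le {r : ℕ} (hr : 1 ≤ r) : (r : ℝ) / r.totient ≤ r.primeFactors.card + 1 := by
  have h1 := prod_ge r.primeFactors (fun p hp => (Nat.prime_of_mem_primeFactors hp).two_le)
  have h2 : (r.totient : ℝ) = r * ∏ p ∈ r.primeFactors, (1 - ((p : ℝ))⁻¹) := by
    have h := congrArg (fun x : ℚ => (x : ℝ)) (Nat.totient_eq_mul_prod_factors r)
    push_cast at h
    exact h
  have hr0 : (0 : ℝ) < r := by exact_mod_cast hr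
  have hc0 : (0 : ℝ) < (r.primeFactors.card : ℝ) + 1 := by positivity
  have h3 : 0 < ∏ p ∈ r.primeFactors, (1 - ((p : ℝ))⁻¹) := lt_of_lt_of_le (by positivity) h1
  rw [h2, div_le_iff₀ (mul_pos hr0 h3)]
  rw [div_le_iff₀ hc0] at h1
  nlinarith

theorem card_le {r : ℕ} (hr : 1 ≤ r) : 2 ^ r.primeFactors.card ≤ r := by
  have h1 : ∏ p ∈ r.primeFactors, 2 ≤ ∏ p ∈ r.primeFactors, p :=
    Finset.prod_le_prod (fun _ _ => Nat.zero_le _)
      (fun p hp => (Nat.prime_of_mem_primeFactors hp).two_le)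
  rw [Finset.prod_const] at h1
  exact h1.trans (Nat.le_of_dvd (by omega) (Nat.prod_primeFactors_dvd r))

theorem weight_le {r X : ℕ} (hr : 1 ≤ r) (hrX : r ≤ X) (hL : 2 ≤ Real.log X) :
    (r : ℝ) / r.totient ≤ 9 * Real.log X ^ 2 := by
  have h1 := ratio_le hr
  have h2 : ((2 : ℝ) ^ r.primeFactors.card) ≤ X := by
    have : 2 ^ r.primeFactors.card ≤ X := (card_le hr).trans hrX
    exact_mod_cast this
  have h3 := Real.log_le_log (by positivity) h2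
  rw [Real.log_pow] at h3
  have h4 : (1 : ℝ) / 2 ≤ Real.log 2 := by
    have := Real.log_two_gt_d9
    linarith
  have h5 : (0 : ℝ) ≤ r.primeFactors.card := Nat.cast_nonneg _
  nlinarith

theorem two_le_log {x : ℝ} (hx : 1000 ≤ x) : 2 ≤ Real.log x := by
  rw [Real.le_log_iff_exp_le (by linarith)]
  have h := Real.exp_one_lt_d9
  have h' : Real.exp 2 = Real.exp 1 * Real.exp 1 := by rw [← Real.exp_add]; norm_num
  rw [h']
  have h'' := Real.exp_pos 1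
  nlinarith

theorem aux1 {a b t : ℝ} (h : a ≤ |t|) (hb : 1 ≤ b) : a ≤ b * (1 + |t|) := by
  have := abs_nonneg t
  nlinarith

theorem aux2 {a b t : ℝ} (ha : 0 ≤ a) (h : a ≤ b) : a ≤ b * (1 + |t|) := by
  have h1 := abs_nonneg t
  have h2 : 0 ≤ b * |t| := mul_nonneg (ha.trans h) h1
  linarith

/-- splitting of the integral -/
theorem split_int {r : ℕ} {T T₁ : ℝ} (hT : T₁ ≤ T) (P : ℝ → ℂ) (hP : Continuous P) (D : ℕ)
    (s : Finset ℕ) (a : ℕ → ℂ) (v : ℕ → ℤ) :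
    ‖∑ k ∈ s, a k * ∫ t in Set.Icc (-T) T, P t * kap D (v k) t‖ ≤
      ‖∑ k ∈ s, a k * ∫ t in Set.Icc (-T₁) T₁, P t * kap D (v k) t‖ +
      ‖∑ k ∈ s, a k * ∫ t in Set.Icc (-T) T \ Set.Icc (-T₁) T₁, P t * kap D (v k) t‖ := by
  have h : ∀ k ∈ s, a k * ∫ t in Set.Icc (-T) T, P t * kap D (v k) t =
      a k * (∫ t in Set.Icc (-T₁) T₁, P t * kap D (v k) t) +
      a k * ∫ t in Set.Icc (-T) T \ Set.Icc (-T₁) T₁, P t * kap D (v k) t := by
    intro k _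
    have hi : IntegrableOn (fun t => P t * kap D (v k) t) (Set.Icc (-T) T) :=
      (hP.mul (continuous_kap D (v k))).continuousOn.integrableOn_compact isCompact_Icc
    rw [setIntegral_sdiff measurableSet_Icc hi (Set.Icc_subset_Icc (by linarith) hT)]
    ring
  rw [Finset.sum_congr rfl h, Finset.sum_add_distrib]
  exact norm_add_le _ _

theorem P3_cont {r : ℕ} (κ : ℝ) (X : ℕ) (χ : DirichletCharacter ℂ r) (p : ℕ × ℕ × ℕ) :
    Continuous (P3 κ X χ p) := by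
  unfold P3 PC
  exact ((continuous_Fh _ _).mul (continuous_Fh _ _)).mul (continuous_Fh _ _)

/-- the final numerical inequality -/
theorem num {L X : ℝ} (hL : 2 ≤ L) (hX : 0 ≤ X) (A E c1 c2 B : ℕ) :
    9 * L ^ 2 * ((4 * L) ^ 3 * (L ^ 5 * (2 * X * L ^ E / L ^ (A + E + c1 + c2 + 30)) * L ^ c1 +
      L ^ 5 * (2 * X * L ^ E) * (1 / L ^ (B + (A + E + c1 + c2 + 30)) * L ^ c2))) ≤ X / L ^ A := by
  have hL0 : 0 < L := by linarith
  have hL1 : 1 ≤ L := by linarith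
  have t1 : L ^ 5 * (2 * X * L ^ E / L ^ (A + E + c1 + c2 + 30)) * L ^ c1 ≤
      2 * X * L ^ 5 / (L ^ A * L ^ 30) := by
    have e : L ^ 5 * (2 * X * L ^ E / L ^ (A + E + c1 + c2 + 30)) * L ^ c1 =
        (2 * X * L ^ 5 / (L ^ A * L ^ 30)) * (1 / L ^ c2) := by
      rw [pow_add, pow_add, pow_add, pow_add]
      field_simp
    rw [e]
    have h1 : 1 / L ^ c2 ≤ 1 := by
      rw [div_le_one (by positivity)]
      exact one_le_pow₀ hL1
    calc _ ≤ (2 * X * L ^ 5 / (L ^ A * L ^ 30)) * 1 := mul_le_mul_of_nonneg_left h1 (by positivity)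
      _ = _ := mul_one _
  have t2 : L ^ 5 * (2 * X * L ^ E) * (1 / L ^ (B + (A + E + c1 + c2 + 30)) * L ^ c2) ≤
      2 * X * L ^ 5 / (L ^ A * L ^ 30) := by
    have e : L ^ 5 * (2 * X * L ^ E) * (1 / L ^ (B + (A + E + c1 + c2 + 30)) * L ^ c2) =
        (2 * X * L ^ 5 / (L ^ A * L ^ 30)) * (1 / (L ^ B * L ^ c1)) := by
      rw [pow_add, pow_add, pow_add, pow_add, pow_add]
      field_simp
    rw [e]
    have h1 : 1 / (L ^ B * L ^ c1) ≤ 1 := by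
      rw [div_le_one (by positivity)]
      have h2 : (1 : ℝ) ≤ L ^ B := one_le_pow₀ hL1
      have h3 : (1 : ℝ) ≤ L ^ c1 := one_le_pow₀ hL1
      nlinarith
    calc _ ≤ (2 * X * L ^ 5 / (L ^ A * L ^ 30)) * 1 := mul_le_mul_of_nonneg_left h1 (by positivity)
      _ = _ := mul_one _
  have t3 : 9 * L ^ 2 * ((4 * L) ^ 3 * (2 * X * L ^ 5 / (L ^ A * L ^ 30) + 2 * X * L ^ 5 / (L ^ A * L ^ 30)))
      = (X / L ^ A) * (2304 / L ^ 20) := by
    field_simp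
    ring
  have t4 : 2304 / L ^ 20 ≤ 1 := by
    rw [div_le_one (by positivity)]
    calc (2304 : ℝ) ≤ 2 ^ 20 := by norm_num
      _ ≤ L ^ 20 := by gcongr
  calc _ ≤ 9 * L ^ 2 * ((4 * L) ^ 3 * (2 * X * L ^ 5 / (L ^ A * L ^ 30) + 2 * X * L ^ 5 / (L ^ A * L ^ 30))) := by
        gcongr
    _ = (X / L ^ A) * (2304 / L ^ 20) := t3
    _ ≤ (X / L ^ A) * 1 := mul_le_mul_of_nonneg_left t4 (by positivity)
    _ = _ := mul_one _

theorem Zsav_le_one {r N : ℕ} {t : ℝ} (hr : 1 ≤ r) : Zsav r N t ≤ 1 := by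
  unfold Zsav
  have h1 : (1 : ℝ) ≤ rp r N := by exact_mod_cast rp_pos hr
  have h2 : 1 ≤ 1 + |t| := by linarith [abs_nonneg t]
  exact Real.rpow_le_one_of_one_le_of_nonpos (by nlinarith) (by norm_num)

theorem Zsav_le {r N : ℕ} {t L : ℝ} (hL : 0 < L) (m : ℕ)
    (h : L ^ (32 * m) ≤ (rp r N : ℝ) * (1 + |t|)) : Zsav r N t ≤ 1 / L ^ m := by
  unfold Zsav
  have h1 := Real.rpow_le_rpow_of_nonpos (by positivity) h (by norm_num : (-(1 / 32) : ℝ) ≤ 0)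
  refine h1.trans (le_of_eq ?_)
  rw [mul_comm 32 m, pow_mul, ← Real.rpow_natCast (L ^ m) 32, ← Real.rpow_mul (by positivity)]
  norm_num
  rw [Real.rpow_neg_one]

theorem sum_div_le {X : ℝ} (hX : 0 ≤ X) {Q : ℕ} (hQ : 1 ≤ Q) (S : Finset ℕ) (hS : S ⊆ Ico Q (2 * Q)) :
    ∑ q ∈ S, X / q ≤ X := by
  have hQ0 : (0 : ℝ) < Q := by exact_mod_cast hQ
  calc ∑ q ∈ S, X / (q : ℝ) ≤ ∑ q ∈ Ico Q (2 * Q), X / (q : ℝ) :=
        Finset.sum_le_sum_of_subset_of_nonneg hS (fun _ _ _ => by positivity)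
    _ ≤ ∑ q ∈ Ico Q (2 * Q), X / (Q : ℝ) := by
        refine Finset.sum_le_sum fun q hq => ?_
        have : (Q : ℝ) ≤ q := by exact_mod_cast (Finset.mem_Ico.1 hq).1
        gcongr
    _ = X := by
        rw [Finset.sum_const, Nat.card_Ico, nsmul_eq_mul]
        have : ((2 * Q - Q : ℕ) : ℝ) = Q := by
          congr 1
          omega
        rw [this]
        field_simp

/-- Summation of the bounds of the single terms. -/
theorem assemble {X : ℕ} {L W M : ℝ} (S : Finset ℕ) (Rs : Finset ℕ) (Bx : Finset (ℕ × ℕ × ℕ))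
    (w : ℕ → ℝ) (f : ℕ → (r : ℕ) → DirichletCharacter ℂ r → ℕ × ℕ × ℕ → ℝ)
    (hf : ∀ q r χ p, 0 ≤ f q r χ p) (hw : ∀ r ∈ Rs, w r ≤ W)
    (hp : ∀ p ∈ Bx, ∑ r ∈ Rs, ∑ χ ∈ Prim r, ∑ q ∈ S, f q r χ p ≤ M) (hM : 0 ≤ M) (hW : 0 ≤ W)
    (hc : (Bx.card : ℝ) ≤ (4 * L) ^ 3) :
    ∑ q ∈ S, ∑ r ∈ Rs, ∑ χ ∈ Prim r, w r * ∑ p ∈ Bx, f q r χ p ≤ W * ((4 * L) ^ 3 * M) := by
  have e1 : ∑ q ∈ S, ∑ r ∈ Rs, ∑ χ ∈ Prim r, w r * ∑ p ∈ Bx, f q r χ p =
      ∑ r ∈ Rs, ∑ χ ∈ Prim r, w r * ∑ p ∈ Bx, ∑ q ∈ S, f q r χ p := by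
    rw [Finset.sum_comm]
    refine Finset.sum_congr rfl fun r _ => ?_
    rw [Finset.sum_comm]
    refine Finset.sum_congr rfl fun χ _ => ?_
    rw [← Finset.mul_sum, Finset.sum_comm]
  have e2 : ∑ r ∈ Rs, ∑ χ ∈ Prim r, ∑ p ∈ Bx, ∑ q ∈ S, f q r χ p =
      ∑ p ∈ Bx, ∑ r ∈ Rs, ∑ χ ∈ Prim r, ∑ q ∈ S, f q r χ p := by
    rw [Finset.sum_comm' (s := Bx) (t := fun _ => Rs) (t' := Rs) (s' := fun _ => Bx) (by simp [and_comm])]
    refine Finset.sum_congr rfl fun r _ => ?_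
    rw [Finset.sum_comm]
  rw [e1]
  calc ∑ r ∈ Rs, ∑ χ ∈ Prim r, w r * ∑ p ∈ Bx, ∑ q ∈ S, f q r χ p
      ≤ ∑ r ∈ Rs, ∑ χ ∈ Prim r, W * ∑ p ∈ Bx, ∑ q ∈ S, f q r χ p := by
        refine Finset.sum_le_sum fun r hr => Finset.sum_le_sum fun χ _ => ?_
        apply mul_le_mul_of_nonneg_right (hw r hr)
        exact Finset.sum_nonneg fun p _ => Finset.sum_nonneg fun q _ => hf q r χ p
    _ = W * ∑ p ∈ Bx, ∑ r ∈ Rs, ∑ χ ∈ Prim r, ∑ q ∈ S, f q r χ p := by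
        rw [← e2]
        simp only [← Finset.mul_sum]
    _ ≤ W * ∑ p ∈ Bx, M := by
        apply mul_le_mul_of_nonneg_left _ hW
        exact Finset.sum_le_sum hp
    _ = W * (Bx.card * M) := by rw [Finset.sum_const, nsmul_eq_mul]
    _ ≤ W * ((4 * L) ^ 3 * M) := by gcongr

end MajTwoAux

open MajTwoAux

theorem maj_two {κ ε : ℝ} (hκ : 0 < κ) (hκ1 : κ ≤ 1 / 1000) (hε : 20 * κ ≤ ε) (A C₀ : ℕ) : ∃ b X₀ : ℕ, ∀ X : ℕ, X₀ ≤ X →
    ∀ N : ℕ, X - mW X < N → N < X + mW X → (∀ r, BadR κ b X r → Real.log X ^ b < (rp r N : ℝ)) →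
    ∀ Q K : ℕ, 1 ≤ Q → (Q : ℝ) ≤ (X : ℝ) ^ (1 - ε) → N ≤ Q * K →
    ∀ e : ℕ, 1 ≤ e → (e : ℝ) ≤ Real.log X ^ C₀ → ∀ i : ℕ, i ≤ 1 →
    ∑ q ∈ (Ico Q (2 * Q)).filter (fun q => q.Coprime N),
      ∑ r ∈ Icc 2 (mR κ X), ∑ χ ∈ Prim r, (r : ℝ) / r.totient * ∑ p ∈ box3 κ X,
        ‖∑ k ∈ (Icc 1 K).filter (fun k => q * k + mV κ X ≤ N), cc e i k *
          (χ⁻¹ (((N : ℤ) - q * k : ℤ) : ZMod r) * Wr (mR κ X) r ((N : ℤ) - q * k)) *
          ∫ t in Set.Icc (-mT κ X) (mT κ X), P3 κ X χ p t * kap (mD κ X) ((N : ℤ) - q * k) t‖ ≤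
      X / Real.log X ^ A := by
  obtain ⟨c1, X1, h1⟩ := L1_all hκ hκ1
  obtain ⟨c2, X2, h2⟩ := L1_good hκ hκ1
  obtain ⟨E, X3, h3⟩ := Z_one hκ hκ1 hε C₀
  set m₀ := A + E + c1 + c2 + 30 with hm₀
  set B₁ := 32 * m₀ with hB₁
  obtain ⟨X4, h4⟩ := Z_two_phase hκ hκ1 hε (A + c1 + c2 + 30) B₁ C₀
  obtain ⟨X5, h5⟩ := maj_region hκ hκ1
  obtain ⟨X6, h6⟩ := par_ok hκ hκ1
  obtain ⟨X7, h7⟩ := log_le_R hκ hκ1 1 m₀ (δ := 1 / 2) (by norm_num)
  obtain ⟨X8, h8⟩ := log_le_R hκ hκ1 1 B₁ (δ := 1) (by norm_num)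
  refine ⟨B₁ + m₀, max (max (max X1 X2) (max X3 X4)) (max (max X5 X6) (max X7 X8)), ?_⟩
  intro X hX N hN1 hN2 hbad Q K hQ hQX hNQ e he heL i hi
  simp only [max_le_iff] at hX
  obtain ⟨⟨⟨hX1, hX2⟩, hX3, hX4⟩, ⟨hX5, hX6⟩, hX7, hX8⟩ := hX
  have hP := h6 X hX6
  have hX1000 := hP.X3
  have hXr : (1000 : ℝ) ≤ X := by exact_mod_cast hX1000
  have hL2 : 2 ≤ Real.log X := two_le_log hXr
  set L := Real.log X with hLdef
  have hL0 : 0 < L := by linarith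
  have hL1 : 1 ≤ L := by linarith
  have hX0 : (0 : ℝ) ≤ X := Nat.cast_nonneg _
  have hR0 : (0 : ℝ) < mR κ X := by
    have := hP.R2
    have : 0 < mR κ X := by omega
    exact_mod_cast this
  have hR1 : (1 : ℝ) ≤ mR κ X := by
    have := hP.R2
    have : 1 ≤ mR κ X := by omega
    exact_mod_cast this
  have hRX : mR κ X ≤ X := by
    have := hP.Rpow
    calc mR κ X = mR κ X ^ 1 := (pow_one _).symm
      _ ≤ mR κ X ^ 1000 := Nat.pow_le_pow_right (by have := hP.R2; omega) (by norm_num)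
      _ ≤ X := this
  have hT₁ : L ^ B₁ ≤ mT κ X := by
    have h := h8 X hX8
    rw [one_mul, Real.rpow_one] at h
    refine h.trans ?_
    unfold mT
    exact le_self_pow₀ hR1 (by norm_num)
  have hT₁0 : 0 < L ^ B₁ := by positivity
  have hsq : 1 / √(mR κ X : ℝ) ≤ 1 / L ^ m₀ := by
    have h := h7 X hX7
    rw [one_mul, ← Real.sqrt_eq_rpow] at h
    exact one_div_le_one_div_of_le (by positivity) h
  set S := (Ico Q (2 * Q)).filter (fun q => q.Coprime N) with hS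
  have hSs : S ⊆ Ico Q (2 * Q) := Finset.filter_subset _ _
  set B₀ : ℝ := 2 * X * L ^ E / L ^ m₀ with hB₀
  have hB₀0 : 0 ≤ B₀ := by positivity
  set G : Finset ℕ := (Icc 2 (mR κ X)).filter (fun r : ℕ => L ^ B₁ < (r : ℝ) ∧ (rp r N : ℝ) ≤ L ^ B₁) with hG
  -- the bound for the sums over `k` with a saving
  have hZsave : ∀ (r : ℕ) (χ : DirichletCharacter ℂ r) (ω : ℕ → ℂ) (y t : ℝ),
      ZOK κ X N r (mR κ X / r) χ ω y t → L ^ B₁ ≤ (rp r N : ℝ) * (1 + |t|) →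
      ∑ q ∈ S, ‖ZS (cc e i) (ff χ ω (mR κ X / r)) K N (mV κ X) y t q‖ ≤ B₀ := by
    intro r χ ω y t hZ hs
    have hz := h3 X hX3 Q hQ hQX e he heL i hi N r (mR κ X / r) K χ ω y t hZ hNQ
    have h9 : Zsav r N t ≤ 1 / L ^ m₀ := Zsav_le hL0 m₀ hs
    calc _ ≤ ∑ q ∈ Ico Q (2 * Q), ‖ZS (cc e i) (ff χ ω (mR κ X / r)) K N (mV κ X) y t q‖ :=
          Finset.sum_le_sum_of_subset_of_nonneg hSs (fun _ _ _ => norm_nonneg _)
      _ ≤ X * L ^ E * (Zsav r N t + 1 / √(mR κ X : ℝ)) := hz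
      _ ≤ X * L ^ E * (1 / L ^ m₀ + 1 / L ^ m₀) := by
          apply mul_le_mul_of_nonneg_left _ (by positivity)
          exact add_le_add h9 hsq
      _ = B₀ := by rw [hB₀]; ring
  -- the trivial bound
  have hZtriv : ∀ (r : ℕ) (χ : DirichletCharacter ℂ r) (ω : ℕ → ℂ) (y t : ℝ),
      ZOK κ X N r (mR κ X / r) χ ω y t →
      ∑ q ∈ S, ‖ZS (cc e i) (ff χ ω (mR κ X / r)) K N (mV κ X) y t q‖ ≤ 2 * X * L ^ E := by
    intro r χ ω y t hZ
    have hz := h3 X hX3 Q hQ hQX e he heL i hi N r (mR κ X / r) K χ ω y t hZ hNQ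
    have h9 : Zsav r N t ≤ 1 := Zsav_le_one hZ.r1
    have h10 : 1 / L ^ m₀ ≤ 1 := by
      rw [div_le_one (by positivity)]
      exact one_le_pow₀ hL1
    calc _ ≤ ∑ q ∈ Ico Q (2 * Q), ‖ZS (cc e i) (ff χ ω (mR κ X / r)) K N (mV κ X) y t q‖ :=
          Finset.sum_le_sum_of_subset_of_nonneg hSs (fun _ _ _ => norm_nonneg _)
      _ ≤ X * L ^ E * (Zsav r N t + 1 / √(mR κ X : ℝ)) := hz
      _ ≤ X * L ^ E * (1 + 1) := by
          apply mul_le_mul_of_nonneg_left _ (by positivity)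
          exact add_le_add h9 (hsq.trans h10)
      _ = 2 * X * L ^ E := by ring
  -- small conductor and small height
  have hZsmall : ∀ (r : ℕ) (χ : DirichletCharacter ℂ r) (ω : ℕ → ℂ) (y t : ℝ),
      ZOK κ X N r (mR κ X / r) χ ω y t → (r : ℝ) ≤ L ^ B₁ → |t| ≤ L ^ B₁ →
      ∑ q ∈ S, ‖ZS (cc e i) (ff χ ω (mR κ X / r)) K N (mV κ X) y t q‖ ≤ B₀ := by
    intro r χ ω y t hZ hr ht
    have hq : ∀ q ∈ S, ‖ZS (cc e i) (ff χ ω (mR κ X / r)) K N (mV κ X) y t q‖ ≤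
        (X : ℝ) / q / L ^ (A + c1 + c2 + 30) := by
      intro q hq
      rw [hS, Finset.mem_filter, Finset.mem_Ico] at hq
      refine h4 X hX4 N r (mR κ X / r) K χ ω y t hZ hr ht q (by omega) ?_ hq.2 e he heL i hi
      have h9 : (q : ℝ) ≤ 2 * Q := by
        have : q ≤ 2 * Q := by omega
        exact_mod_cast this
      linarith
    refine (Finset.sum_le_sum hq).trans ?_
    rw [← Finset.sum_div]
    have h10 := sum_div_le hX0 hQ S hSs
    calc _ ≤ (X : ℝ) / L ^ (A + c1 + c2 + 30) := by gcongr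
      _ = X * L ^ E / L ^ m₀ := by
          have : L ^ m₀ = L ^ (A + c1 + c2 + 30) * L ^ E := by
            rw [← pow_add]; congr 1; omega
          rw [this]
          field_simp
      _ ≤ B₀ := by
          rw [hB₀]
          gcongr
          have : 0 ≤ (X : ℝ) := hX0
          linarith
  -- one character
  have hone : ∀ p ∈ box3 κ X, ∀ r ∈ Icc 2 (mR κ X), ∀ χ ∈ Prim r,
      ∑ q ∈ S, ‖∑ k ∈ (Icc 1 K).filter (fun k => q * k + mV κ X ≤ N), cc e i k *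
          (χ⁻¹ (((N : ℤ) - q * k : ℤ) : ZMod r) * Wr (mR κ X) r ((N : ℤ) - q * k)) *
          ∫ t in Set.Icc (-mT κ X) (mT κ X), P3 κ X χ p t * kap (mD κ X) ((N : ℤ) - q * k) t‖ ≤
      L ^ 5 * B₀ * (∫ t in Set.Icc (-mT κ X) (mT κ X), ‖P3 κ X χ p t‖) +
        (if r ∈ G then L ^ 5 * (2 * X * L ^ E) * (∫ t in Set.Icc (-(L ^ B₁)) (L ^ B₁), ‖P3 κ X χ p t‖)
          else 0) := by
    intro p hp r hr χ hχ
    rw [Finset.mem_Icc] at hr
    have hc := P3_cont κ X χ p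
    have hint : IntegrableOn (fun t => ‖P3 κ X χ p t‖) (Set.Icc (-mT κ X) (mT κ X)) :=
      hc.norm.continuousOn.integrableOn_compact isCompact_Icc
    have hsub : Set.Icc (-(L ^ B₁)) (L ^ B₁) ⊆ Set.Icc (-mT κ X) (mT κ X) :=
      Set.Icc_subset_Icc (by linarith) hT₁
    have hIs : (∫ t in Set.Icc (-(L ^ B₁)) (L ^ B₁), ‖P3 κ X χ p t‖) +
        (∫ t in Set.Icc (-mT κ X) (mT κ X) \ Set.Icc (-(L ^ B₁)) (L ^ B₁), ‖P3 κ X χ p t‖) =
        ∫ t in Set.Icc (-mT κ X) (mT κ X), ‖P3 κ X χ p t‖ := by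
      rw [setIntegral_sdiff measurableSet_Icc hint hsub]
      ring
    have hreg := h5 X hX5 N hN1 hN2 e i K S r (by omega) hr.2 χ hχ (P3 κ X χ p) hc
    -- large heights
    have hl := hreg (Set.Icc (-mT κ X) (mT κ X) \ Set.Icc (-(L ^ B₁)) (L ^ B₁))
      (measurableSet_Icc.diff measurableSet_Icc) Set.sdiff_subset B₀ hB₀0 (by
        intro ω y t ht hZ
        refine hZsave r χ⁻¹ ω y t hZ ?_
        have h9 : L ^ B₁ ≤ |t| := by
          by_contra hcon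
          push Not at hcon
          exact ht.2 (Set.mem_Icc.2 (abs_le.1 hcon.le))
        have h10 : (1 : ℝ) ≤ rp r N := by exact_mod_cast rp_pos hZ.r1
        exact aux1 h9 h10)
    have hsplit : ∀ q ∈ S, ‖∑ k ∈ (Icc 1 K).filter (fun k => q * k + mV κ X ≤ N), cc e i k *
          (χ⁻¹ (((N : ℤ) - q * k : ℤ) : ZMod r) * Wr (mR κ X) r ((N : ℤ) - q * k)) *
          ∫ t in Set.Icc (-mT κ X) (mT κ X), P3 κ X χ p t * kap (mD κ X) ((N : ℤ) - q * k) t‖ ≤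
        ‖∑ k ∈ (Icc 1 K).filter (fun k => q * k + mV κ X ≤ N), cc e i k *
          (χ⁻¹ (((N : ℤ) - q * k : ℤ) : ZMod r) * Wr (mR κ X) r ((N : ℤ) - q * k)) *
          ∫ t in Set.Icc (-(L ^ B₁)) (L ^ B₁), P3 κ X χ p t * kap (mD κ X) ((N : ℤ) - q * k) t‖ +
        ‖∑ k ∈ (Icc 1 K).filter (fun k => q * k + mV κ X ≤ N), cc e i k *
          (χ⁻¹ (((N : ℤ) - q * k : ℤ) : ZMod r) * Wr (mR κ X) r ((N : ℤ) - q * k)) *
          ∫ t in Set.Icc (-mT κ X) (mT κ X) \ Set.Icc (-(L ^ B₁)) (L ^ B₁),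
            P3 κ X χ p t * kap (mD κ X) ((N : ℤ) - q * k) t‖ := fun q _ =>
      split_int (r := r) hT₁ (P3 κ X χ p) hc (mD κ X) _
        (fun k => cc e i k * (χ⁻¹ (((N : ℤ) - q * k : ℤ) : ZMod r) * Wr (mR κ X) r ((N : ℤ) - q * k)))
        (fun k => (N : ℤ) - q * k)
    refine (Finset.sum_le_sum hsplit).trans ?_
    rw [Finset.sum_add_distrib, ← hIs]
    by_cases hrG : r ∈ G
    · rw [if_pos hrG]
      have hs := hreg (Set.Icc (-(L ^ B₁)) (L ^ B₁)) measurableSet_Icc hsub (2 * X * L ^ E)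
        (by positivity) (fun ω y t _ hZ => hZtriv r χ⁻¹ ω y t hZ)
      have h9 : 0 ≤ L ^ 5 * B₀ * ∫ t in Set.Icc (-(L ^ B₁)) (L ^ B₁), ‖P3 κ X χ p t‖ := by
        apply mul_nonneg (by positivity)
        exact integral_nonneg fun t => norm_nonneg _
      rw [mul_add]
      linarith
    · rw [if_neg hrG, add_zero, mul_add]
      refine add_le_add ?_ hl
      refine hreg (Set.Icc (-(L ^ B₁)) (L ^ B₁)) measurableSet_Icc hsub B₀ hB₀0 ?_
      intro ω y t ht hZ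
      have ht' : |t| ≤ L ^ B₁ := abs_le.2 (Set.mem_Icc.1 ht)
      by_cases hrB : (r : ℝ) ≤ L ^ B₁
      · exact hZsmall r χ⁻¹ ω y t hZ hrB ht'
      · push Not at hrB
        refine hZsave r χ⁻¹ ω y t hZ ?_
        have h9 : L ^ B₁ < (rp r N : ℝ) := by
          by_contra hcon
          push Not at hcon
          exact hrG (Finset.mem_filter.2 ⟨Finset.mem_Icc.2 hr, hrB, hcon⟩)
        exact aux2 hT₁0.le h9.le
  -- one box
  have hbox : ∀ p ∈ box3 κ X, ∑ r ∈ Icc 2 (mR κ X), ∑ χ ∈ Prim r,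
      ∑ q ∈ S, ‖∑ k ∈ (Icc 1 K).filter (fun k => q * k + mV κ X ≤ N), cc e i k *
          (χ⁻¹ (((N : ℤ) - q * k : ℤ) : ZMod r) * Wr (mR κ X) r ((N : ℤ) - q * k)) *
          ∫ t in Set.Icc (-mT κ X) (mT κ X), P3 κ X χ p t * kap (mD κ X) ((N : ℤ) - q * k) t‖ ≤
      L ^ 5 * B₀ * L ^ c1 + L ^ 5 * (2 * X * L ^ E) * (1 / L ^ (B₁ + m₀) * L ^ c2) := by
    intro p hp
    refine (Finset.sum_le_sum fun r hr => Finset.sum_le_sum fun χ hχ => hone p hp r hr χ hχ).trans ?_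
    simp only [Finset.sum_add_distrib]
    refine add_le_add ?_ ?_
    · simp only [← Finset.mul_sum]
      apply mul_le_mul_of_nonneg_left _ (by positivity)
      refine le_trans ?_ (h1 X hX1 p hp)
      refine Finset.sum_le_sum_of_subset_of_nonneg (Finset.Icc_subset_Icc_left (by norm_num)) ?_
      intro r _ _
      exact Finset.sum_nonneg fun χ _ => integral_nonneg fun t => norm_nonneg _
    · have e9 : ∑ r ∈ Icc 2 (mR κ X), ∑ χ ∈ Prim r, (if r ∈ G then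
          L ^ 5 * (2 * X * L ^ E) * (∫ t in Set.Icc (-(L ^ B₁)) (L ^ B₁), ‖P3 κ X χ p t‖) else 0) =
          L ^ 5 * (2 * X * L ^ E) * ∑ r ∈ G, ∑ χ ∈ Prim r,
            ∫ t in Set.Icc (-(L ^ B₁)) (L ^ B₁), ‖P3 κ X χ p t‖ := by
        rw [Finset.mul_sum]
        have hGs : G ⊆ Icc 2 (mR κ X) := Finset.filter_subset _ _
        rw [← Finset.sum_subset hGs]
        · refine Finset.sum_congr rfl fun r hr => ?_
          rw [Finset.mul_sum]
          refine Finset.sum_congr rfl fun χ _ => ?_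
          rw [if_pos hr]
        · intro r _ hr
          refine Finset.sum_eq_zero fun χ _ => ?_
          rw [if_neg hr]
      rw [e9]
      apply mul_le_mul_of_nonneg_left _ (by positivity)
      refine h2 X hX2 p hp G (L ^ B₁) (1 / L ^ (B₁ + m₀)) ?_ hT₁0 hT₁ (by positivity) ?_
      · intro r hr
        have := (Finset.mem_filter.1 hr).1
        rw [Finset.mem_Icc] at this ⊢
        omega
      · intro r hr χ hχ t ht
        obtain ⟨hr1, hr2, hr3⟩ := Finset.mem_filter.1 hr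
        rw [Finset.mem_Icc] at hr1
        have hnb : ¬ BadR κ (B₁ + m₀) X r := by
          intro hb
          have h9 := hbad r hb
          have h10 : L ^ B₁ ≤ L ^ (B₁ + m₀) := pow_le_pow_right₀ hL1 (by omega)
          linarith
        by_contra hcon
        push Not at hcon
        apply hnb
        unfold box3 at hp
        rw [Finset.mem_filter] at hp
        obtain ⟨-, hp1, -, -, hp4⟩ := hp
        refine ⟨hr1.1, hr1.2, χ, mem_Prim.1 hχ, p.1, t, hp1, ?_, ?_, hcon⟩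
        · refine le_trans ?_ hp4
          exact Nat.pow_le_pow_right (by norm_num) (by omega)
        · exact ht.trans (pow_le_pow_right₀ hL1 (by omega))
  have hcard := card_box3 (κ := κ) (X := X) (by omega)
  have hfin := assemble (X := X) (L := L) (W := 9 * L ^ 2) S (Icc 2 (mR κ X)) (box3 κ X)
    (fun r => (r : ℝ) / r.totient)
    (fun q r χ p => ‖∑ k ∈ (Icc 1 K).filter (fun k => q * k + mV κ X ≤ N), cc e i k *
          (χ⁻¹ (((N : ℤ) - q * k : ℤ) : ZMod r) * Wr (mR κ X) r ((N : ℤ) - q * k)) *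
          ∫ t in Set.Icc (-mT κ X) (mT κ X), P3 κ X χ p t * kap (mD κ X) ((N : ℤ) - q * k) t‖)
    (fun _ _ _ _ => norm_nonneg _)
    (fun r hr => by
      rw [Finset.mem_Icc] at hr
      exact weight_le (by omega) (hr.2.trans hRX) hL2)
    hbox (by positivity) (by positivity) hcard
  refine hfin.trans ?_
  rw [hB₀, hm₀]
  exact num hL2 hX0 A E c1 c2 B₁

end Pool.Agent.MVD
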