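import Pool.Agent.MVD.MajTwo
import Pool.Agent.MVD.MajOne
import Pool.Agent.MVD.EGTail
import Pool.Agent.MVD.Box
import Pool.Agent.Lib.ANT.BVRiesz

/-!
# Module MAJOR: the major arc contribution for every `N` not nearly divisible by a bad modulus

EG_tail (error `X/√R`), then for `v = N - qk ≥ V` (`v ≤ N`, `v + D ≤ 2X`): MJ_char (error `C R^4 log² X/D ≤ 1/R`, as `D ≥ X/(10R^4)`), one_dec for `r = 1` (`Prim 1` has one element, `χ⁻¹ = 1`, `twc LamN 1 = LamN`), box_dec for `r ≥ 2`: the errors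
`≤ (r/φ(r)) |Wr R r v| R^{-5}` with `|Wr| ≤ Hs^4 τ(v) ≤ R^{1/10}` (Wr_dsum, norm_dsum_le, tau_le_R), number of `(r,χ)`: `≤ R²`: total error `≤ 1/R` pointwise, and err_sum. The main terms: maj_two, maj_one with `A + 2`, the factor `1/(2π)`.
The hypothesis on `N` is used with the `b` of maj_two.
-/

open Finset Complex MeasureTheory

namespace Pool.Agent.MVD

open Pool.Agent.ANT Pool.Agent.SInt

private lemma maj_Prim_one : Prim 1 = {1} := by
  ext χ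
  rw [mem_Prim, Finset.mem_singleton]
  constructor
  · intro _
    exact DirichletCharacter.level_one χ
  · rintro rfl
    exact DirichletCharacter.isPrimitive_one_level_one

private lemma maj_twc_one : twc LamN (1 : DirichletCharacter ℂ 1) = LamN := by
  funext n
  unfold twc
  rw [MulChar.one_apply (isUnit_of_subsingleton _), mul_one]

/-- The contribution of the principal character. -/
private noncomputable def majM1 (κ : ℝ) (X : ℕ) (v : ℤ) : ℂ :=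
  Wr (mR κ X) 1 v * (smoothOne κ X v +
    ∑ p ∈ box2 κ X, (1 / (2 * Real.pi) : ℂ) * ∫ t in Set.Icc (-mT κ X) (mT κ X),
        P2 κ X p t * kap (mD κ X) v t)

/-- The contribution of one nonprincipal character. -/
private noncomputable def majF (κ : ℝ) (X : ℕ) (v : ℤ) (r : ℕ) (χ : DirichletCharacter ℂ r) : ℂ :=
  (r : ℂ) / (r.totient : ℂ) * (χ⁻¹ (v : ZMod r) * Wr (mR κ X) r v) *
    ∑ p ∈ box3 κ X, (1 / (2 * Real.pi) : ℂ) * ∫ t in Set.Icc (-mT κ X) (mT κ X),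
        P3 κ X χ p t * kap (mD κ X) v t

private noncomputable def majM2 (κ : ℝ) (X : ℕ) (v : ℤ) : ℂ :=
  ∑ r ∈ Icc 2 (mR κ X), ∑ χ ∈ Prim r, majF κ X v r χ

private lemma maj_split {M : Type*} [AddCommMonoid M] {R : ℕ} (hR : 1 ≤ R) (f : ℕ → M) :
    ∑ r ∈ Icc 1 R, f r = f 1 + ∑ r ∈ Icc 2 R, f r := by
  have : Icc 1 R = insert 1 (Icc 2 R) := by
    ext x
    simp only [Finset.mem_Icc, Finset.mem_insert]
    omega
  rw [this, Finset.sum_insert (by simp)]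

/-- Pointwise decomposition. -/
private lemma maj_pointwise {κ : ℝ} (hκ : 0 < κ) (hκ1 : κ ≤ 1 / 1000) : ∃ X₀ : ℕ, ∀ X : ℕ, X₀ ≤ X →
    ∀ N : ℕ, N < X + mW X → ∀ v : ℤ, (mV κ X : ℤ) ≤ v → v ≤ N →
    ‖MJ X (mR κ X) (mD κ X) v - majM1 κ X v - majM2 κ X v‖ ≤ 1 / (mR κ X : ℝ) := by
  obtain ⟨C, hC, hMJ⟩ := MJ_char
  obtain ⟨X1, h1⟩ := one_dec hκ hκ1
  obtain ⟨X2, h2⟩ := box_dec hκ hκ1
  obtain ⟨X3, h3⟩ := par_ok hκ hκ1
  obtain ⟨X4, h4⟩ := log_le_R hκ hκ1 (10 * C) 2 (δ := 1) one_pos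
  obtain ⟨X5, h5⟩ := log_le_R hκ hκ1 81 4 (δ := 1 / 2) (by norm_num)
  obtain ⟨X6, h6⟩ := tau_le_R hκ hκ1 (δ := 1 / 2) (by norm_num)
  refine ⟨X1 + X2 + X3 + X4 + X5 + X6, fun X hX N hN v hv1 hv2 => ?_⟩
  have P := h3 X (by omega)
  have hX3 : 3 ≤ X := le_trans (by norm_num) P.X3
  set R := mR κ X with hRdef
  set D := mD κ X with hDdef
  have hR2 : 100 ≤ R := P.R2
  have hR1 : 1 ≤ R := by omega
  have hRr : (100 : ℝ) ≤ R := by exact_mod_cast hR2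
  have hRpos : (0 : ℝ) < R := by linarith
  have hRX : R ≤ X := le_trans (Nat.le_self_pow (by norm_num) R) P.Rpow
  have hD4 : R ^ 4 ≤ D := P.D3
  have hD1 : 1 ≤ D := le_trans (Nat.one_le_pow _ _ (by omega)) hD4
  have hDW : D ≤ mW X := by
    have := P.D1
    have h4 : 1 ≤ R ^ 4 := Nat.one_le_pow _ _ (by omega)
    calc D = D * 1 := (mul_one D).symm
      _ ≤ D * R ^ 4 := Nat.mul_le_mul_left _ h4
      _ ≤ mW X := P.D1
  have hW1 := P.W1
  have hvD : v + D ≤ 2 * X := by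
    have hz1 : (D : ℤ) ≤ mW X := by exact_mod_cast hDW
    have hz2 : 4 * (mW X : ℤ) ≤ X := by exact_mod_cast hW1
    have hz3 : (N : ℤ) < X + mW X := by exact_mod_cast hN
    have hz4 : (0 : ℤ) ≤ mW X := by positivity
    linarith
  have hVD : 2 * D ≤ mV κ X := P.DV
  have hv0 : 0 < v := by
    have : (2 * D : ℤ) ≤ mV κ X := by exact_mod_cast hVD
    have : (1 : ℤ) ≤ D := by exact_mod_cast hD1
    linarith
  have hvne : v ≠ 0 := hv0.ne'
  have hlog4 := h4 X (by omega)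
  have hlog5 := h5 X (by omega)
  have htau := h6 X (by omega) v.natAbs (by omega) (by
    have hz3 : (N : ℤ) < X + mW X := by exact_mod_cast hN
    have hz2 : 4 * (mW X : ℤ) ≤ X := by exact_mod_cast hW1
    have h7 : v.natAbs ≤ 2 * X := by omega
    have h8 : 2 * X ≤ X ^ 4 := by
      calc 2 * X ≤ X * X := Nat.mul_le_mul_right _ (by omega)
        _ = X ^ 2 := (sq X).symm
        _ ≤ X ^ 4 := Nat.pow_le_pow_right (by omega) (by norm_num)
    exact h7.trans h8)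
  rw [Real.rpow_one] at hlog4
  -- bound for Wr
  have hWr : ∀ r : ℕ, 1 ≤ r → ‖Wr R r v‖ ≤ R := by
    intro r hr
    obtain ⟨ω, hω, hWd⟩ := Wr_dsum hR1 hr
    rw [hWd v, norm_mul, Complex.norm_real, Real.norm_eq_abs]
    have hHs0 : 0 ≤ Hs R := by unfold Hs; positivity
    rw [abs_of_nonneg (by positivity)]
    have hHs : Hs R ≤ 3 * Real.log X := Hs_le_log hX3 (by
      calc R ≤ X := hRX
        _ ≤ X ^ 2 := Nat.le_self_pow (by norm_num) X)
    have h7 := norm_dsum_le hω.1 (R / r) hvne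
    calc Hs R ^ 4 * ‖dsum ω (R / r) v‖ ≤ (3 * Real.log X) ^ 4 * tauR v.natAbs := by
          gcongr
      _ = 81 * Real.log X ^ 4 * tauR v.natAbs := by ring
      _ ≤ (R : ℝ) ^ (1 / 2 : ℝ) * (R : ℝ) ^ (1 / 2 : ℝ) := by
          apply mul_le_mul hlog5 htau
          · unfold tauR; positivity
          · positivity
      _ = R := by
          rw [← Real.rpow_add hRpos]; norm_num
  -- first error
  have hE1 := hMJ X R D v hX3 hR1 hRX hD1
  have hE1' : C * (R : ℝ) ^ 4 * Real.log X ^ 2 / D ≤ 1 / (R : ℝ) ^ 2 := by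
    have hX5 : (X : ℝ) ≤ 5 * mW X := by exact_mod_cast P.W2
    have hW2 : (mW X : ℝ) ≤ 2 * (D * (R : ℝ) ^ 4) := by exact_mod_cast P.D2
    have hXR : (R : ℝ) ^ 1000 ≤ X := by exact_mod_cast P.Rpow
    have hR20 : (R : ℝ) ^ 20 ≤ (R : ℝ) ^ 1000 := pow_le_pow_right₀ (by linarith) (by norm_num)
    have h8 : (R : ℝ) ^ 20 ≤ 10 * D * (R : ℝ) ^ 4 := by linarith
    have h9 : (R : ℝ) ^ 16 ≤ 10 * D := by
      have h10 : (R : ℝ) ^ 16 * (R : ℝ) ^ 4 ≤ 10 * D * (R : ℝ) ^ 4 := by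
        rw [← pow_add]; exact h8
      exact le_of_mul_le_mul_right h10 (by positivity)
    have hDpos : (0 : ℝ) < D := by exact_mod_cast hD1
    rw [div_le_div_iff₀ hDpos (by positivity)]
    have h10 : 10 * (C * (R : ℝ) ^ 4 * Real.log X ^ 2 * (R : ℝ) ^ 2) ≤ 10 * (1 * D) := by
      calc 10 * (C * (R : ℝ) ^ 4 * Real.log X ^ 2 * (R : ℝ) ^ 2) =
            (10 * C * Real.log X ^ 2) * (R : ℝ) ^ 6 := by ring
        _ ≤ (R : ℝ) * (R : ℝ) ^ 6 := by gcongr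
        _ = (R : ℝ) ^ 7 := by ring
        _ ≤ (R : ℝ) ^ 16 := pow_le_pow_right₀ (by linarith) (by norm_num)
        _ ≤ 10 * (1 * D) := by linarith
    linarith
  -- the principal character
  have hdec1 := h1 X (by omega) v hv1 hvD
  have hone : ∑ χ ∈ Prim 1, ((1 : ℕ) : ℂ) / ((1 : ℕ).totient : ℂ) * (χ⁻¹ (v : ZMod 1) * Wr R 1 v) *
        LAh (twc LamN χ) (2 * X) D v = Wr R 1 v * LAh LamN (2 * X) D v := by
    rw [maj_Prim_one, Finset.sum_singleton, inv_one, maj_twc_one,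
      MulChar.one_apply (isUnit_of_subsingleton _)]
    simp
  have hE2 : ‖Wr R 1 v * LAh LamN (2 * X) D v - majM1 κ X v‖ ≤ 1 / (R : ℝ) ^ 4 := by
    unfold majM1
    rw [← hRdef, ← hDdef, ← mul_sub, norm_mul]
    have e : LAh LamN (2 * X) D v - (smoothOne κ X v +
        ∑ p ∈ box2 κ X, (1 / (2 * Real.pi) : ℂ) * ∫ t in Set.Icc (-mT κ X) (mT κ X),
          P2 κ X p t * kap D v t) = LAh LamN (2 * X) D v - smoothOne κ X v -
        ∑ p ∈ box2 κ X, (1 / (2 * Real.pi) : ℂ) * ∫ t in Set.Icc (-mT κ X) (mT κ X),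
          P2 κ X p t * kap D v t := by ring
    rw [e]
    calc ‖Wr R 1 v‖ * _ ≤ R * (1 / (R : ℝ) ^ 5) :=
          mul_le_mul (hWr 1 le_rfl) hdec1 (norm_nonneg _) hRpos.le
      _ = 1 / (R : ℝ) ^ 4 := by field_simp
  -- the other characters
  have hE3 : ‖∑ r ∈ Icc 2 R, ∑ χ ∈ Prim r, (r : ℂ) / (r.totient : ℂ) *
        (χ⁻¹ (v : ZMod r) * Wr R r v) * LAh (twc LamN χ) (2 * X) D v - majM2 κ X v‖ ≤
        1 / (R : ℝ) ^ 2 := by
    unfold majM2
    rw [← hRdef, ← Finset.sum_sub_distrib]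
    refine (norm_sum_le _ _).trans ?_
    have hterm : ∀ r ∈ Icc 2 R, ‖∑ χ ∈ Prim r, (r : ℂ) / (r.totient : ℂ) *
        (χ⁻¹ (v : ZMod r) * Wr R r v) * LAh (twc LamN χ) (2 * X) D v -
        ∑ χ ∈ Prim r, majF κ X v r χ‖ ≤ 1 / (R : ℝ) ^ 3 := by
      intro r hr
      have hr' := Finset.mem_Icc.mp hr
      have : NeZero r := ⟨by omega⟩
      have hφ : (0 : ℝ) < r.totient := by
        exact_mod_cast Nat.totient_pos.mpr (by omega)
      have hrR : (r : ℝ) ≤ R := by exact_mod_cast hr'.2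
      rw [← Finset.sum_sub_distrib]
      refine (norm_sum_le _ _).trans ?_
      have hχ : ∀ χ ∈ Prim r, ‖(r : ℂ) / (r.totient : ℂ) *
          (χ⁻¹ (v : ZMod r) * Wr R r v) * LAh (twc LamN χ) (2 * X) D v - majF κ X v r χ‖ ≤
          (r : ℝ) / r.totient * (1 / (R : ℝ) ^ 4) := by
        intro χ hχ
        have hdec := h2 X (by omega) r hr'.1 hr'.2 χ hχ v hv1 hvD
        unfold majF
        rw [← hRdef, ← hDdef, ← mul_sub, norm_mul, norm_mul, norm_mul, norm_div,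
          Complex.norm_natCast, Complex.norm_natCast]
        have hc : ‖χ⁻¹ (v : ZMod r)‖ ≤ 1 := DirichletCharacter.norm_le_one _ _
        calc (r : ℝ) / r.totient * (‖χ⁻¹ (v : ZMod r)‖ * ‖Wr R r v‖) * _ ≤
              (r : ℝ) / r.totient * (1 * R) * (1 / (R : ℝ) ^ 5) := by
                gcongr
                exact hWr r (by omega)
          _ = (r : ℝ) / r.totient * (1 / (R : ℝ) ^ 4) := by field_simp
      refine (Finset.sum_le_sum hχ).trans ?_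
      rw [Finset.sum_const, nsmul_eq_mul]
      calc ((Prim r).card : ℝ) * ((r : ℝ) / r.totient * (1 / (R : ℝ) ^ 4)) ≤
            r.totient * ((r : ℝ) / r.totient * (1 / (R : ℝ) ^ 4)) := by
              gcongr
              exact_mod_cast card_Prim_le r
        _ = r * (1 / (R : ℝ) ^ 4) := by field_simp
        _ ≤ R * (1 / (R : ℝ) ^ 4) := by gcongr
        _ = 1 / (R : ℝ) ^ 3 := by field_simp
    refine (Finset.sum_le_sum hterm).trans ?_
    rw [Finset.sum_const, nsmul_eq_mul, Nat.card_Icc]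
    have hcard : ((R + 1 - 2 : ℕ) : ℝ) ≤ R := by
      have : R + 1 - 2 ≤ R := by omega
      exact_mod_cast this
    calc ((R + 1 - 2 : ℕ) : ℝ) * (1 / (R : ℝ) ^ 3) ≤ R * (1 / (R : ℝ) ^ 3) := by gcongr
      _ = 1 / (R : ℝ) ^ 2 := by field_simp
  have hsplit := maj_split hR1 (fun r => ∑ χ ∈ Prim r, (r : ℂ) / (r.totient : ℂ) *
        (χ⁻¹ (v : ZMod r) * Wr R r v) * LAh (twc LamN χ) (2 * X) D v)

  rw [hone] at hsplit
  rw [hsplit] at hE1
  have etot : MJ X R D v - majM1 κ X v - majM2 κ X v =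
      (MJ X R D v - (Wr R 1 v * LAh LamN (2 * X) D v +
        ∑ r ∈ Icc 2 R, ∑ χ ∈ Prim r, (r : ℂ) / (r.totient : ℂ) *
        (χ⁻¹ (v : ZMod r) * Wr R r v) * LAh (twc LamN χ) (2 * X) D v)) +
      (Wr R 1 v * LAh LamN (2 * X) D v - majM1 κ X v) +
      (∑ r ∈ Icc 2 R, ∑ χ ∈ Prim r, (r : ℂ) / (r.totient : ℂ) *
        (χ⁻¹ (v : ZMod r) * Wr R r v) * LAh (twc LamN χ) (2 * X) D v - majM2 κ X v) := by ring
  rw [etot]
  refine (norm_add₃_le).trans ?_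
  have hfin : 1 / (R : ℝ) ^ 2 + 1 / (R : ℝ) ^ 4 + 1 / (R : ℝ) ^ 2 ≤ 1 / R := by
    have h4 : 1 / (R : ℝ) ^ 4 ≤ 1 / (R : ℝ) ^ 2 := by
      apply one_div_le_one_div_of_le (by positivity)
      exact pow_le_pow_right₀ (by linarith) (by norm_num)
    have h5 : 3 * (1 / (R : ℝ) ^ 2) ≤ 1 / R := by
      rw [mul_one_div, div_le_div_iff₀ (by positivity) hRpos]
      nlinarith
    linarith
  linarith

theorem major {κ ε : ℝ} (hκ : 0 < κ) (hκ1 : κ ≤ 1 / 1000) (hε : 20 * κ ≤ ε) (A C₀ : ℕ) : ∃ b X₀ : ℕ, ∀ X : ℕ, X₀ ≤ X →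
    ∀ N : ℕ, X - mW X < N → N < X + mW X → (∀ r, BadR κ b X r → Real.log X ^ b < (rp r N : ℝ)) →
    ∀ Q K : ℕ, 1 ≤ Q → (Q : ℝ) ≤ (X : ℝ) ^ (1 - ε) → N ≤ Q * K →
    ∀ e : ℕ, 1 ≤ e → (e : ℝ) ≤ Real.log X ^ C₀ → ∀ i : ℕ, i ≤ 1 →
    ∑ q ∈ (Ico Q (2 * Q)).filter (fun q => q.Coprime N),
      ‖EG (fun _ => cc e i) K (MJ X (mR κ X) (mD κ X)) N q‖ ≤ X / Real.log X ^ A := by
  obtain ⟨b, Y1, hY1⟩ := maj_two hκ hκ1 hε (A + 2) C₀
  obtain ⟨Y2, hY2⟩ := maj_one_smooth hκ hκ1 hε (A + 2) C₀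
  obtain ⟨Y3, hY3⟩ := maj_one_box hκ hκ1 hε (A + 2) C₀
  obtain ⟨Y4, hY4⟩ := EG_tail hκ hκ1 hε
  obtain ⟨Y5, hY5⟩ := maj_pointwise hκ hκ1
  obtain ⟨Y6, hY6⟩ := par_ok hκ hκ1
  obtain ⟨Y7, hY7⟩ := log_le_R hκ hκ1 1 (A + 2) (δ := 1 / 2) (by norm_num)
  obtain ⟨Y8, hY8⟩ := log_le_R hκ hκ1 8 (A + 4) (δ := 1) one_pos
  refine ⟨b, Y1 + Y2 + Y3 + Y4 + Y5 + Y6 + Y7 + Y8, fun X hX N hN1 hN2 hbad Q K hQ hQX hNQ e he heX
    i hi => ?_⟩
  have P := hY6 X (by omega)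
  have hX3 : 3 ≤ X := le_trans (by norm_num) P.X3
  have hRr : (100 : ℝ) ≤ mR κ X := by exact_mod_cast P.R2
  have hRpos : (0 : ℝ) < mR κ X := by linarith
  have hXr : (1000 : ℝ) ≤ X := by exact_mod_cast P.X3
  have hXpos : (0 : ℝ) < X := by linarith
  have hL3 : (3 : ℝ) ≤ Real.log X := by
    have h1 : Real.exp 3 ≤ X := by
      have h2 : Real.exp 1 ≤ 2.72 := by
        have := Real.exp_one_lt_d9; linarith
      calc Real.exp 3 = (Real.exp 1) ^ 3 := by rw [← Real.exp_nat_mul]; norm_num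
        _ ≤ 2.72 ^ 3 := by gcongr
        _ ≤ 1000 := by norm_num
        _ ≤ X := hXr
    rw [Real.le_log_iff_exp_le hXpos]
    exact h1
  have hLpos : (0 : ℝ) < Real.log X := by linarith
  set L := Real.log X with hL
  set S := (Ico Q (2 * Q)).filter (fun q => q.Coprime N) with hS
  have hSsub : S ⊆ Ico Q (2 * Q) := Finset.filter_subset _ _
  have hN2X : N ≤ 2 * X := by
    have := P.W1
    omega
  -- the five bounds
  have hb2 := hY1 X (by omega) N hN1 hN2 hbad Q K hQ hQX hNQ e he heX i hi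
  have hb1s := hY2 X (by omega) N hN1 hN2 Q K hQ hQX e he heX i hi
  have hb1b := hY3 X (by omega) N hN1 hN2 Q K hQ hQX hNQ e he heX i hi
  have htail := hY4 X (by omega) Q hQ hQX e i K N hi hN1 hN2
  set Er : ℤ → ℂ := fun v => MJ X (mR κ X) (mD κ X) v - majM1 κ X v - majM2 κ X v with hEr
  have herr := err_sum (κ := κ) hX3 (Q := Q) (e := e) (i := i) (K := K) (N := N) hQ hi hN2X Er
    (δ := 1 / (mR κ X : ℝ)) (by positivity)
    (fun v hv1 hv2 => hY5 X (by omega) N hN2 v hv1 hv2)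
  rw [← hS] at hb2 hb1s hb1b
  have hpi : ‖(1 / (2 * Real.pi) : ℂ)‖ ≤ 1 := by
    have : (1 / (2 * Real.pi) : ℂ) = ((1 / (2 * Real.pi) : ℝ) : ℂ) := by push_cast; ring
    rw [this, Complex.norm_real, Real.norm_eq_abs, abs_of_pos (by positivity)]
    rw [div_le_one (by positivity)]
    linarith [Real.pi_gt_three]
  -- decomposition for every q
  have hdecomp : ∀ q ∈ S, ‖EG (fun _ => cc e i) K (MJ X (mR κ X) (mD κ X)) N q‖ ≤
      ‖EG (fun _ => cc e i) K (MJ X (mR κ X) (mD κ X)) N q -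
        ∑ k ∈ (Icc 1 K).filter (fun k => q * k + mV κ X ≤ N), cc e i k *
          MJ X (mR κ X) (mD κ X) ((N : ℤ) - q * k)‖ +
      ‖∑ k ∈ (Icc 1 K).filter (fun k => q * k + mV κ X ≤ N), cc e i k * Er ((N : ℤ) - q * k)‖ +
      ‖∑ k ∈ (Icc 1 K).filter (fun k => q * k + mV κ X ≤ N), cc e i k *
          Wr (mR κ X) 1 ((N : ℤ) - q * k) * smoothOne κ X ((N : ℤ) - q * k)‖ +
      ∑ p ∈ box2 κ X, ‖∑ k ∈ (Icc 1 K).filter (fun k => q * k + mV κ X ≤ N), cc e i k *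
          Wr (mR κ X) 1 ((N : ℤ) - q * k) *
          ∫ t in Set.Icc (-mT κ X) (mT κ X), P2 κ X p t * kap (mD κ X) ((N : ℤ) - q * k) t‖ +
      ∑ r ∈ Icc 2 (mR κ X), ∑ χ ∈ Prim r, (r : ℝ) / r.totient * ∑ p ∈ box3 κ X,
        ‖∑ k ∈ (Icc 1 K).filter (fun k => q * k + mV κ X ≤ N), cc e i k *
          (χ⁻¹ (((N : ℤ) - q * k : ℤ) : ZMod r) * Wr (mR κ X) r ((N : ℤ) - q * k)) *
          ∫ t in Set.Icc (-mT κ X) (mT κ X), P3 κ X χ p t * kap (mD κ X) ((N : ℤ) - q * k) t‖ := by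
    intro q _
    set F := (Icc 1 K).filter (fun k => q * k + mV κ X ≤ N) with hF
    have e1 : ∑ k ∈ F, cc e i k * MJ X (mR κ X) (mD κ X) ((N : ℤ) - q * k) =
        ∑ k ∈ F, cc e i k * Er ((N : ℤ) - q * k) +
        ∑ k ∈ F, cc e i k * majM1 κ X ((N : ℤ) - q * k) +
        ∑ k ∈ F, cc e i k * majM2 κ X ((N : ℤ) - q * k) := by
      rw [← Finset.sum_add_distrib, ← Finset.sum_add_distrib]
      refine Finset.sum_congr rfl fun k _ => ?_
      simp only [hEr]; ring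
    have e2 : ∑ k ∈ F, cc e i k * majM1 κ X ((N : ℤ) - q * k) =
        ∑ k ∈ F, cc e i k * Wr (mR κ X) 1 ((N : ℤ) - q * k) * smoothOne κ X ((N : ℤ) - q * k) +
        ∑ p ∈ box2 κ X, (1 / (2 * Real.pi) : ℂ) * ∑ k ∈ F, cc e i k *
          Wr (mR κ X) 1 ((N : ℤ) - q * k) *
          ∫ t in Set.Icc (-mT κ X) (mT κ X), P2 κ X p t * kap (mD κ X) ((N : ℤ) - q * k) t := by
      have e3 : ∑ p ∈ box2 κ X, (1 / (2 * Real.pi) : ℂ) * ∑ k ∈ F, cc e i k *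
          Wr (mR κ X) 1 ((N : ℤ) - q * k) *
          ∫ t in Set.Icc (-mT κ X) (mT κ X), P2 κ X p t * kap (mD κ X) ((N : ℤ) - q * k) t =
          ∑ k ∈ F, ∑ p ∈ box2 κ X, (1 / (2 * Real.pi) : ℂ) * (cc e i k *
          Wr (mR κ X) 1 ((N : ℤ) - q * k) *
          ∫ t in Set.Icc (-mT κ X) (mT κ X), P2 κ X p t * kap (mD κ X) ((N : ℤ) - q * k) t) := by
        rw [Finset.sum_comm]
        refine Finset.sum_congr rfl fun p _ => ?_
        rw [Finset.mul_sum]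
      rw [e3, ← Finset.sum_add_distrib]
      refine Finset.sum_congr rfl fun k _ => ?_
      unfold majM1
      rw [mul_add, mul_add, Finset.mul_sum, Finset.mul_sum]
      congr 1
      · ring
      · refine Finset.sum_congr rfl fun p _ => ?_
        ring
    have e4 : ∑ k ∈ F, cc e i k * majM2 κ X ((N : ℤ) - q * k) =
        ∑ r ∈ Icc 2 (mR κ X), ∑ χ ∈ Prim r, (r : ℂ) / (r.totient : ℂ) * ∑ p ∈ box3 κ X,
        (1 / (2 * Real.pi) : ℂ) * ∑ k ∈ F, cc e i k *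
          (χ⁻¹ (((N : ℤ) - q * k : ℤ) : ZMod r) * Wr (mR κ X) r ((N : ℤ) - q * k)) *
          ∫ t in Set.Icc (-mT κ X) (mT κ X), P3 κ X χ p t * kap (mD κ X) ((N : ℤ) - q * k) t := by
      unfold majM2 majF
      simp only [Finset.mul_sum]
      rw [Finset.sum_comm]
      refine Finset.sum_congr rfl fun r _ => ?_
      rw [Finset.sum_comm]
      refine Finset.sum_congr rfl fun χ _ => ?_
      rw [Finset.sum_comm]
      refine Finset.sum_congr rfl fun p _ => ?_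
      refine Finset.sum_congr rfl fun k _ => ?_
      ring
    have n1 : ‖∑ p ∈ box2 κ X, (1 / (2 * Real.pi) : ℂ) * ∑ k ∈ F, cc e i k *
          Wr (mR κ X) 1 ((N : ℤ) - q * k) *
          ∫ t in Set.Icc (-mT κ X) (mT κ X), P2 κ X p t * kap (mD κ X) ((N : ℤ) - q * k) t‖ ≤
        ∑ p ∈ box2 κ X, ‖∑ k ∈ F, cc e i k *
          Wr (mR κ X) 1 ((N : ℤ) - q * k) *
          ∫ t in Set.Icc (-mT κ X) (mT κ X), P2 κ X p t * kap (mD κ X) ((N : ℤ) - q * k) t‖ := by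
      refine (norm_sum_le _ _).trans (Finset.sum_le_sum fun p _ => ?_)
      rw [norm_mul]
      exact mul_le_of_le_one_left (norm_nonneg _) hpi
    have n2 : ‖∑ r ∈ Icc 2 (mR κ X), ∑ χ ∈ Prim r, (r : ℂ) / (r.totient : ℂ) * ∑ p ∈ box3 κ X,
        (1 / (2 * Real.pi) : ℂ) * ∑ k ∈ F, cc e i k *
          (χ⁻¹ (((N : ℤ) - q * k : ℤ) : ZMod r) * Wr (mR κ X) r ((N : ℤ) - q * k)) *
          ∫ t in Set.Icc (-mT κ X) (mT κ X), P3 κ X χ p t * kap (mD κ X) ((N : ℤ) - q * k) t‖ ≤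
        ∑ r ∈ Icc 2 (mR κ X), ∑ χ ∈ Prim r, (r : ℝ) / r.totient * ∑ p ∈ box3 κ X,
        ‖∑ k ∈ F, cc e i k *
          (χ⁻¹ (((N : ℤ) - q * k : ℤ) : ZMod r) * Wr (mR κ X) r ((N : ℤ) - q * k)) *
          ∫ t in Set.Icc (-mT κ X) (mT κ X), P3 κ X χ p t * kap (mD κ X) ((N : ℤ) - q * k) t‖ := by
      refine (norm_sum_le _ _).trans (Finset.sum_le_sum fun r _ => ?_)
      refine (norm_sum_le _ _).trans (Finset.sum_le_sum fun χ _ => ?_)
      rw [norm_mul, norm_div, Complex.norm_natCast, Complex.norm_natCast]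
      apply mul_le_mul_of_nonneg_left _ (by positivity)
      refine (norm_sum_le _ _).trans (Finset.sum_le_sum fun p _ => ?_)
      rw [norm_mul]
      exact mul_le_of_le_one_left (norm_nonneg _) hpi
    have n3 : ‖EG (fun _ => cc e i) K (MJ X (mR κ X) (mD κ X)) N q‖ ≤
        ‖EG (fun _ => cc e i) K (MJ X (mR κ X) (mD κ X)) N q -
        ∑ k ∈ F, cc e i k * MJ X (mR κ X) (mD κ X) ((N : ℤ) - q * k)‖ +
        ‖∑ k ∈ F, cc e i k * MJ X (mR κ X) (mD κ X) ((N : ℤ) - q * k)‖ := by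
      have := norm_add_le (EG (fun _ => cc e i) K (MJ X (mR κ X) (mD κ X)) N q -
        ∑ k ∈ F, cc e i k * MJ X (mR κ X) (mD κ X) ((N : ℤ) - q * k))
        (∑ k ∈ F, cc e i k * MJ X (mR κ X) (mD κ X) ((N : ℤ) - q * k))
      rwa [sub_add_cancel] at this
    have n4 : ‖∑ k ∈ F, cc e i k * MJ X (mR κ X) (mD κ X) ((N : ℤ) - q * k)‖ ≤
        ‖∑ k ∈ F, cc e i k * Er ((N : ℤ) - q * k)‖ +
        (‖∑ k ∈ F, cc e i k * Wr (mR κ X) 1 ((N : ℤ) - q * k) *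
          smoothOne κ X ((N : ℤ) - q * k)‖ +
        ‖∑ p ∈ box2 κ X, (1 / (2 * Real.pi) : ℂ) * ∑ k ∈ F, cc e i k *
          Wr (mR κ X) 1 ((N : ℤ) - q * k) *
          ∫ t in Set.Icc (-mT κ X) (mT κ X), P2 κ X p t * kap (mD κ X) ((N : ℤ) - q * k) t‖) +
        ‖∑ r ∈ Icc 2 (mR κ X), ∑ χ ∈ Prim r, (r : ℂ) / (r.totient : ℂ) * ∑ p ∈ box3 κ X,
        (1 / (2 * Real.pi) : ℂ) * ∑ k ∈ F, cc e i k *
          (χ⁻¹ (((N : ℤ) - q * k : ℤ) : ZMod r) * Wr (mR κ X) r ((N : ℤ) - q * k)) *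
          ∫ t in Set.Icc (-mT κ X) (mT κ X), P3 κ X χ p t * kap (mD κ X) ((N : ℤ) - q * k) t‖ := by
      rw [e1, e2, e4]
      refine (norm_add₃_le).trans ?_
      gcongr
      exact norm_add_le _ _
    linarith
  refine (Finset.sum_le_sum hdecomp).trans ?_
  rw [Finset.sum_add_distrib, Finset.sum_add_distrib, Finset.sum_add_distrib,
    Finset.sum_add_distrib]
  have s1 : ∑ q ∈ S, ‖EG (fun _ => cc e i) K (MJ X (mR κ X) (mD κ X)) N q -
        ∑ k ∈ (Icc 1 K).filter (fun k => q * k + mV κ X ≤ N), cc e i k *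
          MJ X (mR κ X) (mD κ X) ((N : ℤ) - q * k)‖ ≤ X / √(mR κ X : ℝ) :=
    le_trans (Finset.sum_le_sum_of_subset_of_nonneg hSsub fun _ _ _ => norm_nonneg _) htail
  have s2 : ∑ q ∈ S, ‖∑ k ∈ (Icc 1 K).filter (fun k => q * k + mV κ X ≤ N), cc e i k *
      Er ((N : ℤ) - q * k)‖ ≤ 8 * X * L ^ 2 * (1 / (mR κ X : ℝ)) :=
    le_trans (Finset.sum_le_sum_of_subset_of_nonneg hSsub fun _ _ _ => norm_nonneg _) herr
  have hA2 : (0 : ℝ) < L ^ (A + 2) := by positivity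
  have t1 : X / √(mR κ X : ℝ) ≤ X / L ^ (A + 2) := by
    have h7 := hY7 X (by omega)
    rw [one_mul, ← Real.sqrt_eq_rpow] at h7
    exact div_le_div_of_nonneg_left hXpos.le hA2 h7
  have t2 : 8 * X * L ^ 2 * (1 / (mR κ X : ℝ)) ≤ X / L ^ (A + 2) := by
    have h8 := hY8 X (by omega)
    rw [Real.rpow_one] at h8
    rw [mul_one_div, div_le_div_iff₀ hRpos hA2]
    calc 8 * X * L ^ 2 * L ^ (A + 2) = X * (8 * L ^ (A + 4)) := by ring
      _ ≤ X * mR κ X := by gcongr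
  have t3 : 5 * (X / L ^ (A + 2)) ≤ X / L ^ A := by
    have e5 : X / L ^ A = L ^ 2 * (X / L ^ (A + 2)) := by
      rw [pow_add]; field_simp
    rw [e5]
    apply mul_le_mul_of_nonneg_right _ (by positivity)
    nlinarith
  linarith

end Pool.Agent.MVD
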