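import Pool.Agent.MVD.HLSa
import Pool.Agent.MVD.BoxDef
import Pool.Agent.MVD.IdentA

/-!
# Module MeanA: mean values of the three factors

`az_l2`: `PC a χ M t = Fh (dy (twc a χ) M) (2M) t`, and `dy (twc a χ) M = twc (dy a M) χ`; hls with `N = 2·2^j`, `T = R^14` (`R² T = R^16 ≤ mz ≤ 2^j`):
`C · 3 · 2^j ∑_{2^j ≤ n < 2^(j+1)} τ(n)²/n² ≤ 3C ∑_{n ≤ 4X} τ(n)²/n ≤ 3 C Hs(4X)^4` (norm_az_le, sum_tau_pow_div_le in SInt/TauP with k = 2; Hs is the harmonic sum, `≤ 1 + log`).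
`PC_Lam_le`: norm_Fh_le, `∑_{2^j ≤ n < 2^{j+1}} Λ(n)/n ≤ 2^{-j} ψ(2^{j+1}) ` is fine too, but simply: `Λ(n) ≤ log n ≤ log(4X)` and `∑_{2^j ≤ n < 2^{j+1}} 1/n ≤ 1`: `≤ log(4X) ≤ 2 log X`.
-/

open Finset Complex MeasureTheory

namespace Pool.Agent.MVD

open Pool.Agent.ANT Pool.Agent.SInt

namespace MeanAAux

lemma PC_eq {r : ℕ} (a : ℕ → ℂ) (χ : DirichletCharacter ℂ r) (M : ℕ) (t : ℝ) :
    PC a χ M t = Fh (twc (dy a M) χ) (2 * M) t := by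
  unfold PC
  congr 1
  funext n
  show (if n ∈ Ico M (2 * M) then a n * χ n else 0) =
    (if n ∈ Ico M (2 * M) then a n else 0) * χ n
  by_cases hn : n ∈ Ico M (2 * M)
  · rw [if_pos hn, if_pos hn]
  · rw [if_neg hn, if_neg hn, zero_mul]

lemma l2_sum {M : ℕ} {a : ℕ → ℂ} (ha : ∀ n, ‖a n‖ ≤ tauR n) :
    (M : ℝ) * ∑ n ∈ Icc 1 (2 * M), ‖dy a M n‖ ^ 2 / (n : ℝ) ^ 2 ≤ Hs (2 * M) ^ 4 := by
  have h1 := sum_tau_pow_div_le 2 (2 * M)
  norm_num at h1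
  refine le_trans ?_ h1
  rw [Finset.mul_sum]
  refine Finset.sum_le_sum fun n hn => ?_
  rw [Finset.mem_Icc] at hn
  have hn0 : (0 : ℝ) < n := by exact_mod_cast hn.1
  unfold dy
  split_ifs with h
  · rw [Finset.mem_Ico] at h
    have hM : (M : ℝ) ≤ n := by exact_mod_cast h.1
    have h2 : ‖a n‖ ^ 2 ≤ tauR n ^ 2 := pow_le_pow_left₀ (norm_nonneg _) (ha n) 2
    rw [← mul_div_assoc, div_le_div_iff₀ (by positivity) hn0]
    calc (M : ℝ) * ‖a n‖ ^ 2 * n ≤ n * tauR n ^ 2 * n := by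
          have : 0 ≤ tauR n := tauR_nonneg n
          gcongr
      _ = tauR n ^ 2 * (n : ℝ) ^ 2 := by ring
  · have : 0 ≤ tauR n := tauR_nonneg n
    rw [norm_zero]
    simp only [ne_eq, OfNat.ofNat_ne_zero, not_false_eq_true, zero_pow, zero_div, mul_zero]
    positivity

end MeanAAux

open MeanAAux

theorem az_l2 {κ : ℝ} (hκ : 0 < κ) (hκ1 : κ ≤ 1 / 1000) : ∃ c X₀ : ℕ, ∀ X : ℕ, X₀ ≤ X → ∀ j : ℕ,
    mz κ X ≤ 2 ^ j → 2 ^ j ≤ 2 * X →
    ∑ r ∈ Icc 1 (mR κ X), ∑ χ ∈ Prim r, ∫ t in Set.Icc (-mT κ X) (mT κ X),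
      ‖PC (fun n => az (mz κ X - 1) n) χ (2 ^ j) t‖ ^ 2 ≤ Real.log X ^ c := by
  obtain ⟨C, hC, h⟩ := hls
  obtain ⟨X₁, hX₁⟩ := par_ok hκ hκ1
  refine ⟨5, max X₁ ⌈Real.exp (243 * C)⌉₊, ?_⟩
  intro X hX j hj1 hj2
  have hp := hX₁ X ((le_max_left _ _).trans hX)
  have hXe : Real.exp (243 * C) ≤ X :=
    (Nat.le_ceil _).trans (by exact_mod_cast (le_max_right _ _).trans hX)
  have hX3 : 1000 ≤ X := hp.X3
  have hX0 : (0 : ℝ) < X := by
    have : 0 < X := by omega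
    exact_mod_cast this
  have hlog : 243 * C ≤ Real.log X := by
    rw [Real.le_log_iff_exp_le hX0]
    exact hXe
  have hR2 := hp.R2
  have hR1 : (1 : ℝ) ≤ mR κ X := by
    have : 1 ≤ mR κ X := by omega
    exact_mod_cast this
  have hT : 1 ≤ mT κ X := one_le_pow₀ hR1
  have hz : 1 ≤ mz κ X - 1 := by
    have h1 := hp.z1
    have h2 : 100 ^ 17 ≤ mR κ X ^ 17 := Nat.pow_le_pow_left hR2 17
    have h3 : 2 ≤ 100 ^ 17 := by norm_num
    omega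
  have h1 := h (mR κ X) (2 * 2 ^ j) (mT κ X) (dy (fun n => az (mz κ X - 1) n) (2 ^ j))
    (by omega) hT
  have h2 : ∑ r ∈ Icc 1 (mR κ X), ∑ χ ∈ Prim r, ∫ t in Set.Icc (-mT κ X) (mT κ X),
      ‖PC (fun n => az (mz κ X - 1) n) χ (2 ^ j) t‖ ^ 2 =
      ∑ r ∈ Icc 1 (mR κ X), ∑ χ ∈ Prim r, ∫ t in Set.Icc (-mT κ X) (mT κ X),
      ‖Fh (twc (dy (fun n => az (mz κ X - 1) n) (2 ^ j)) χ) (2 * 2 ^ j) t‖ ^ 2 := by
    refine Finset.sum_congr rfl fun r _ => Finset.sum_congr rfl fun χ _ => ?_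
    simp only [PC_eq]
  rw [h2]
  refine h1.trans ?_
  have hRM : (mR κ X : ℝ) ^ 2 * mT κ X ≤ ((2 ^ j : ℕ) : ℝ) := by
    have h3 : mR κ X ^ 16 ≤ 2 ^ j :=
      (Nat.pow_le_pow_right (by omega) (by norm_num)).trans (hp.z1.trans hj1)
    have h4 : (mR κ X : ℝ) ^ 2 * mT κ X = ((mR κ X ^ 16 : ℕ) : ℝ) := by
      unfold mT
      push_cast
      ring
    rw [h4]
    exact_mod_cast h3
  have hS := l2_sum (M := 2 ^ j) (a := fun n => az (mz κ X - 1) n) (fun n => norm_az_le hz n)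
  set S : ℝ := ∑ n ∈ Icc 1 (2 * 2 ^ j),
    ‖dy (fun n => az (mz κ X - 1) n) (2 ^ j) n‖ ^ 2 / (n : ℝ) ^ 2 with hSdef
  have hS0 : 0 ≤ S := Finset.sum_nonneg fun n _ => by positivity
  have hHs : Hs (2 * 2 ^ j) ≤ 3 * Real.log X := by
    refine Hs_le_log (by omega) ?_
    nlinarith
  have hHs0 := Hs_nonneg (2 * 2 ^ j)
  have hlog0 : 0 ≤ Real.log X := Real.log_natCast_nonneg X
  calc C * (((2 * 2 ^ j : ℕ) : ℝ) + (mR κ X : ℝ) ^ 2 * mT κ X) * S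
      ≤ C * (((2 * 2 ^ j : ℕ) : ℝ) + ((2 ^ j : ℕ) : ℝ)) * S := by gcongr
    _ = 3 * C * (((2 ^ j : ℕ) : ℝ) * S) := by
        push_cast
        ring
    _ ≤ 3 * C * Hs (2 * 2 ^ j) ^ 4 := by gcongr
    _ ≤ 3 * C * (3 * Real.log X) ^ 4 := by gcongr
    _ = 243 * C * Real.log X ^ 4 := by ring
    _ ≤ Real.log X * Real.log X ^ 4 := by gcongr
    _ = Real.log X ^ 5 := by ring

theorem PC_Lam_le {κ : ℝ} (hκ : 0 < κ) (hκ1 : κ ≤ 1 / 1000) : ∃ X₀ : ℕ, ∀ X : ℕ, X₀ ≤ X → ∀ j : ℕ,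
    2 ^ j ≤ 2 * X → ∀ (r : ℕ) (χ : DirichletCharacter ℂ r) (t : ℝ), ‖PC LamN χ (2 ^ j) t‖ ≤ 2 * Real.log X := by
  refine ⟨4, ?_⟩
  intro X hX j hj r χ t
  have hX0 : (4 : ℝ) ≤ X := by exact_mod_cast hX
  have hlog0 : 0 ≤ Real.log X := Real.log_natCast_nonneg X
  unfold PC
  refine norm_Fh_dyadic (Nat.one_le_two_pow) (fun m hm => ?_) (fun m => ?_) t
  · unfold dy
    rw [if_neg hm]
  · unfold dy
    split_ifs with h
    · rw [Finset.mem_Ico] at h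
      unfold twc LamN
      rw [norm_mul, Complex.norm_real, Real.norm_eq_abs,
        abs_of_nonneg ArithmeticFunction.vonMangoldt_nonneg]
      have hm1 : 1 ≤ m := le_trans Nat.one_le_two_pow h.1
      have hm0 : (0 : ℝ) < m := by exact_mod_cast hm1
      have hm4 : (m : ℝ) ≤ 4 * X := by
        have : m ≤ 4 * X := by omega
        exact_mod_cast this
      calc ArithmeticFunction.vonMangoldt m * ‖χ (m : ZMod r)‖
          ≤ ArithmeticFunction.vonMangoldt m * 1 :=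
            mul_le_mul_of_nonneg_left (DirichletCharacter.norm_le_one χ _)
              ArithmeticFunction.vonMangoldt_nonneg
        _ ≤ Real.log m := by
            rw [mul_one]
            exact ArithmeticFunction.vonMangoldt_le_log
        _ ≤ Real.log (4 * X) := Real.log_le_log hm0 hm4
        _ = Real.log 4 + Real.log X := Real.log_mul (by norm_num) (by linarith)
        _ ≤ Real.log X + Real.log X :=
            add_le_add (Real.log_le_log (by norm_num) hX0) le_rfl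
        _ = 2 * Real.log X := by ring
    · rw [norm_zero]
      linarith

end Pool.Agent.MVD
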