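import Pool.Agent.MVD.MeanA

/-!
# Module MeanB: `L¹` bounds for the boxes

`P3 = A₀ A₁ A₂` (A₀ the prime polynomial). `L1_all`: `|P3| ≤ 2 log X |A₁||A₂| ≤ log X (|A₁|² + |A₂|²)` (PC_Lam_le), sum and integrate: az_l2 for both.
`L1_good`: on a set `G` of moduli all of whose primitive characters satisfy `|A₀(t)| ≤ δ` for `|t| ≤ T'`: the same with `δ` in place of `2 log X` (sub-sums and sub-integrals of nonnegative
functions: `G ⊆ Icc 1 R`, `Icc (-T') T' ⊆ Icc (-T) T`). The integrands are continuous in `t` (continuous_Fh in SInt/MelInv), so integrable on compact intervals.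
The membership `p ∈ box3` gives `mz ≤ 2^(p.i)`; `2^(p.i) ≤ 2^(sum) ≤ 2X`.
-/

open Finset Complex MeasureTheory

namespace Pool.Agent.MVD

open Pool.Agent.ANT Pool.Agent.SInt

namespace MeanBAux

theorem cont_PC {r : ℕ} (a : ℕ → ℂ) (χ : DirichletCharacter ℂ r) (M : ℕ) : Continuous (PC a χ M) :=
  continuous_Fh _ _

theorem three {A B C : ℝ → ℂ} (hB : Continuous B) (hC : Continuous C) (hA : Continuous A)
    {S T M : ℝ} (hST : S ≤ T) (hM : 0 ≤ M) (hAM : ∀ t : ℝ, |t| ≤ S → ‖A t‖ ≤ M) :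
    ∫ t in Set.Icc (-S) S, ‖A t * B t * C t‖ ≤
      M / 2 * ((∫ t in Set.Icc (-T) T, ‖B t‖ ^ 2) + ∫ t in Set.Icc (-T) T, ‖C t‖ ^ 2) := by
  have hcB : Continuous fun t => ‖B t‖ ^ 2 := (hB.norm).pow 2
  have hcC : Continuous fun t => ‖C t‖ ^ 2 := (hC.norm).pow 2
  have h1 : ∫ t in Set.Icc (-S) S, ‖A t * B t * C t‖ ≤
      ∫ t in Set.Icc (-S) S, M / 2 * (‖B t‖ ^ 2 + ‖C t‖ ^ 2) := by
    refine setIntegral_mono_on ?_ ?_ measurableSet_Icc ?_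
    · exact (((hA.mul hB).mul hC).norm).continuousOn.integrableOn_Icc
    · exact (continuous_const.mul (hcB.add hcC)).continuousOn.integrableOn_Icc
    · intro t ht
      have h2 := hAM t (abs_le.mpr ⟨ht.1, ht.2⟩)
      rw [norm_mul, norm_mul]
      have hb := norm_nonneg (B t)
      have hc := norm_nonneg (C t)
      have h3 : ‖B t‖ * ‖C t‖ ≤ (‖B t‖ ^ 2 + ‖C t‖ ^ 2) / 2 := by nlinarith [sq_nonneg (‖B t‖ - ‖C t‖)]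
      calc ‖A t‖ * ‖B t‖ * ‖C t‖ = ‖A t‖ * (‖B t‖ * ‖C t‖) := by ring
        _ ≤ M * ((‖B t‖ ^ 2 + ‖C t‖ ^ 2) / 2) :=
            mul_le_mul h2 h3 (mul_nonneg hb hc) hM
        _ = _ := by ring
  have h2 : ∫ t in Set.Icc (-S) S, M / 2 * (‖B t‖ ^ 2 + ‖C t‖ ^ 2) ≤
      ∫ t in Set.Icc (-T) T, M / 2 * (‖B t‖ ^ 2 + ‖C t‖ ^ 2) := by
    refine setIntegral_mono_set ?_ ?_ ?_
    · exact (continuous_const.mul (hcB.add hcC)).continuousOn.integrableOn_Icc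
    · filter_upwards with t
      simp only [Pi.zero_apply]
      positivity
    · exact (Set.Icc_subset_Icc (by linarith) hST).eventuallyLE
  have h3 : ∫ t in Set.Icc (-T) T, M / 2 * (‖B t‖ ^ 2 + ‖C t‖ ^ 2) =
      M / 2 * ((∫ t in Set.Icc (-T) T, ‖B t‖ ^ 2) + ∫ t in Set.Icc (-T) T, ‖C t‖ ^ 2) := by
    rw [integral_const_mul, integral_add]
    · exact hcB.continuousOn.integrableOn_Icc
    · exact hcC.continuousOn.integrableOn_Icc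
  linarith

theorem sum_bd {κ : ℝ} {X c : ℕ} {p : ℕ × ℕ × ℕ}
    (h1 : ∑ r ∈ Icc 1 (mR κ X), ∑ χ ∈ Prim r, ∫ t in Set.Icc (-mT κ X) (mT κ X),
      ‖PC (fun n => az (mz κ X - 1) n) χ (2 ^ p.2.1) t‖ ^ 2 ≤ Real.log X ^ c)
    (h2 : ∑ r ∈ Icc 1 (mR κ X), ∑ χ ∈ Prim r, ∫ t in Set.Icc (-mT κ X) (mT κ X),
      ‖PC (fun n => az (mz κ X - 1) n) χ (2 ^ p.2.2) t‖ ^ 2 ≤ Real.log X ^ c)
    {G : Finset ℕ} {T' M : ℝ} (hG : G ⊆ Icc 1 (mR κ X)) (hT : T' ≤ mT κ X) (hM : 0 ≤ M)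
    (hA : ∀ r ∈ G, ∀ χ ∈ Prim r, ∀ t : ℝ, |t| ≤ T' → ‖PC LamN χ (2 ^ p.1) t‖ ≤ M) :
    ∑ r ∈ G, ∑ χ ∈ Prim r, ∫ t in Set.Icc (-T') T', ‖P3 κ X χ p t‖ ≤ M * Real.log X ^ c := by
  have hnn : ∀ (j r : ℕ) (χ : DirichletCharacter ℂ r), 0 ≤ ∫ t in Set.Icc (-mT κ X) (mT κ X),
      ‖PC (fun n => az (mz κ X - 1) n) χ (2 ^ j) t‖ ^ 2 := by
    intro j r χ
    exact integral_nonneg fun t => by positivity
  have e1 : ∀ j : ℕ, ∑ r ∈ G, ∑ χ ∈ Prim r, ∫ t in Set.Icc (-mT κ X) (mT κ X),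
      ‖PC (fun n => az (mz κ X - 1) n) χ (2 ^ j) t‖ ^ 2 ≤
      ∑ r ∈ Icc 1 (mR κ X), ∑ χ ∈ Prim r, ∫ t in Set.Icc (-mT κ X) (mT κ X),
      ‖PC (fun n => az (mz κ X - 1) n) χ (2 ^ j) t‖ ^ 2 := by
    intro j
    exact Finset.sum_le_sum_of_subset_of_nonneg hG fun r _ _ => Finset.sum_nonneg fun χ _ => hnn j r χ
  calc ∑ r ∈ G, ∑ χ ∈ Prim r, ∫ t in Set.Icc (-T') T', ‖P3 κ X χ p t‖
      ≤ ∑ r ∈ G, ∑ χ ∈ Prim r, M / 2 *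
        ((∫ t in Set.Icc (-mT κ X) (mT κ X), ‖PC (fun n => az (mz κ X - 1) n) χ (2 ^ p.2.1) t‖ ^ 2) +
          ∫ t in Set.Icc (-mT κ X) (mT κ X), ‖PC (fun n => az (mz κ X - 1) n) χ (2 ^ p.2.2) t‖ ^ 2) := by
        refine Finset.sum_le_sum fun r hr => Finset.sum_le_sum fun χ hχ => ?_
        exact three (cont_PC _ χ _) (cont_PC _ χ _) (cont_PC _ χ _) hT hM (hA r hr χ hχ)
    _ = M / 2 * ((∑ r ∈ G, ∑ χ ∈ Prim r, ∫ t in Set.Icc (-mT κ X) (mT κ X),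
          ‖PC (fun n => az (mz κ X - 1) n) χ (2 ^ p.2.1) t‖ ^ 2) +
          ∑ r ∈ G, ∑ χ ∈ Prim r, ∫ t in Set.Icc (-mT κ X) (mT κ X),
          ‖PC (fun n => az (mz κ X - 1) n) χ (2 ^ p.2.2) t‖ ^ 2) := by
        simp only [← Finset.mul_sum, Finset.sum_add_distrib]
    _ ≤ M / 2 * (Real.log X ^ c + Real.log X ^ c) := by
        refine mul_le_mul_of_nonneg_left (add_le_add ((e1 _).trans h1) ((e1 _).trans h2)) (by positivity)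
    _ = M * Real.log X ^ c := by ring

theorem box_mem {κ : ℝ} {X : ℕ} {p : ℕ × ℕ × ℕ} (hp : p ∈ box3 κ X) :
    2 ^ p.1 ≤ 2 * X ∧ (mz κ X ≤ 2 ^ p.2.1 ∧ 2 ^ p.2.1 ≤ 2 * X) ∧ (mz κ X ≤ 2 ^ p.2.2 ∧ 2 ^ p.2.2 ≤ 2 * X) := by
  unfold box3 at hp
  obtain ⟨_, _, h2, h3, h4⟩ := Finset.mem_filter.mp hp
  refine ⟨?_, ⟨h2, ?_⟩, ⟨h3, ?_⟩⟩
  · exact (Nat.pow_le_pow_right (by norm_num) (by omega)).trans h4
  · exact (Nat.pow_le_pow_right (by norm_num) (by omega)).trans h4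
  · exact (Nat.pow_le_pow_right (by norm_num) (by omega)).trans h4

end MeanBAux

open MeanBAux

theorem L1_all {κ : ℝ} (hκ : 0 < κ) (hκ1 : κ ≤ 1 / 1000) : ∃ c X₀ : ℕ, ∀ X : ℕ, X₀ ≤ X → ∀ p ∈ box3 κ X,
    ∑ r ∈ Icc 1 (mR κ X), ∑ χ ∈ Prim r, ∫ t in Set.Icc (-mT κ X) (mT κ X), ‖P3 κ X χ p t‖ ≤
      Real.log X ^ c := by
  obtain ⟨c, X₁, h1⟩ := az_l2 hκ hκ1
  obtain ⟨X₂, h2⟩ := PC_Lam_le hκ hκ1
  refine ⟨c + 2, max 8 (max X₁ X₂), fun X hX p hp => ?_⟩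
  have hX8 : 8 ≤ X := (le_max_left _ _).trans hX
  have hX1 : X₁ ≤ X := (le_max_left _ _).trans ((le_max_right _ _).trans hX)
  have hX2 : X₂ ≤ X := (le_max_right _ _).trans ((le_max_right _ _).trans hX)
  obtain ⟨b1, ⟨b2, b3⟩, ⟨b4, b5⟩⟩ := box_mem hp
  have hlog : 2 ≤ Real.log X := by
    have h8 : Real.log 8 = 3 * Real.log 2 := by
      rw [show (8 : ℝ) = 2 ^ (3 : ℕ) by norm_num, Real.log_pow]; norm_num
    have h9 : Real.log 8 ≤ Real.log X := Real.log_le_log (by norm_num) (by exact_mod_cast hX8)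
    have := Real.log_two_gt_d9
    linarith
  have h3 := sum_bd (G := Icc 1 (mR κ X)) (T' := mT κ X) (M := 2 * Real.log X) (p := p)
    (h1 X hX1 p.2.1 b2 b3) (h1 X hX1 p.2.2 b4 b5) (Finset.Subset.refl _) le_rfl (by linarith)
    (fun r _ χ _ t _ => h2 X hX2 p.1 b1 r χ t)
  refine h3.trans ?_
  have h4 : 0 ≤ Real.log X ^ c := by positivity
  calc 2 * Real.log X * Real.log X ^ c ≤ Real.log X * Real.log X * Real.log X ^ c := by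
        refine mul_le_mul_of_nonneg_right ?_ h4
        exact mul_le_mul_of_nonneg_right hlog (by linarith)
    _ = Real.log X ^ (c + 2) := by ring

theorem L1_good {κ : ℝ} (hκ : 0 < κ) (hκ1 : κ ≤ 1 / 1000) : ∃ c X₀ : ℕ, ∀ X : ℕ, X₀ ≤ X → ∀ p ∈ box3 κ X,
    ∀ (G : Finset ℕ) (T' δ : ℝ), G ⊆ Icc 1 (mR κ X) → 0 < T' → T' ≤ mT κ X → 0 ≤ δ →
    (∀ r ∈ G, ∀ χ ∈ Prim r, ∀ t : ℝ, |t| ≤ T' → ‖PC LamN χ (2 ^ p.1) t‖ ≤ δ) →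
    ∑ r ∈ G, ∑ χ ∈ Prim r, ∫ t in Set.Icc (-T') T', ‖P3 κ X χ p t‖ ≤ δ * Real.log X ^ c := by
  obtain ⟨c, X₁, h1⟩ := az_l2 hκ hκ1
  refine ⟨c, X₁, fun X hX p hp G T' δ hG _ hT hδ hA => ?_⟩
  obtain ⟨b1, ⟨b2, b3⟩, ⟨b4, b5⟩⟩ := box_mem hp
  exact sum_bd (h1 X hX p.2.1 b2 b3) (h1 X hX p.2.2 b4 b5) hG hT hδ hA

end Pool.Agent.MVD
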