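import Pool.Agent.SInt.Ineq1
import Pool.Agent.SInt.W1b
import Pool.Agent.SInt.MinGen
import Pool.Agent.SInt.Asy

/-! Minor arcs, medium moduli, arbitrary coefficients (explicit form of `SInt.minR2`). -/

open Finset Complex
open scoped ArithmeticFunction.Moebius ArithmeticFunction.vonMangoldt

namespace Pool.Agent.MVD

open Pool.Agent.ANT Pool.Agent.SInt

/-- the final numerical comparison -/
private theorem MinMed_num {L X W Q K P R l₁ l₂ : ℝ} (hL : 1 ≤ L) (hX : 1 ≤ X)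
    (hW : 1 ≤ W) (hQ : 1 ≤ Q) (hK : K ≤ 5 * X / Q) (hP : 1 ≤ P)
    (hR : P ≤ R) (hl₁ : l₁ ≤ L) (hl₁' : 0 ≤ l₁) (hl₂' : 0 ≤ l₂)
    (hl₂ : l₂ ≤ 1 + L) :
    (40 * (1 + l₁) / P + 400 / R ^ 2) * (12 * L ^ 2 * K * W) * (12 * X * (1 + l₂)) ≤
      (10 ^ 7 * L ^ 4) * (W * X ^ 2 / Q) / P := by
  have hL0 : (0 : ℝ) < L := by linarith
  have hX0 : (0 : ℝ) < X := by linarith
  have hW0 : (0 : ℝ) < W := by linarith
  have hQ0 : (0 : ℝ) < Q := by linarith
  have hP0 : 0 < P := by linarith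
  have hR0 : 1 ≤ R := hP.trans hR
  have e2 : 400 / R ^ 2 ≤ 400 * L / P := by
    rw [div_le_div_iff₀ (by positivity) hP0]
    have h1 : P ≤ R ^ 2 := by nlinarith
    have h2 : 1 * R ^ 2 ≤ L * R ^ 2 := mul_le_mul_of_nonneg_right hL (by positivity)
    nlinarith
  have e1 : 40 * (1 + l₁) / P ≤ 80 * L / P := by
    apply div_le_div_of_nonneg_right _ hP0.le
    linarith
  have e3 : 40 * (1 + l₁) / P + 400 / R ^ 2 ≤ 480 * L / P := by
    have : 80 * L / P + 400 * L / P = 480 * L / P := by ring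
    linarith
  have e4 : 12 * L ^ 2 * K * W ≤ 60 * L ^ 2 * X * W / Q := by
    calc 12 * L ^ 2 * K * W = 12 * L ^ 2 * W * K := by ring
      _ ≤ 12 * L ^ 2 * W * (5 * X / Q) := mul_le_mul_of_nonneg_left hK (by positivity)
      _ = 60 * L ^ 2 * X * W / Q := by ring
  have e5 : 12 * X * (1 + l₂) ≤ 36 * X * L := by
    nlinarith
  have n1 : 0 ≤ 40 * (1 + l₁) / P + 400 / R ^ 2 := by positivity
  have n3 : 0 ≤ 12 * X * (1 + l₂) := by positivity
  calc (40 * (1 + l₁) / P + 400 / R ^ 2) * (12 * L ^ 2 * K * W) * (12 * X * (1 + l₂))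
      ≤ (40 * (1 + l₁) / P + 400 / R ^ 2) * (60 * L ^ 2 * X * W / Q) * (12 * X * (1 + l₂)) :=
        mul_le_mul_of_nonneg_right (mul_le_mul_of_nonneg_left e4 n1) n3
    _ ≤ (480 * L / P) * (60 * L ^ 2 * X * W / Q) * (36 * X * L) := by
        apply mul_le_mul (mul_le_mul_of_nonneg_right e3 (by positivity)) e5 n3 (by positivity)
    _ = 1036800 * (L ^ 4 * (W * X ^ 2 / Q) / P) := by
        field_simp
        ring
    _ ≤ (10 ^ 7) * (L ^ 4 * (W * X ^ 2 / Q) / P) := by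
        apply mul_le_mul_of_nonneg_right (by norm_num) (by positivity)
    _ = _ := by ring

/-- Minor arcs, medium moduli: arbitrary coefficients. -/
theorem minMed {X W R D Q P : ℕ} (hL : 1 ≤ Real.log X) (hW1 : 1 ≤ W) (hWX : 4 * W ≤ X)
    (hR1 : 1 ≤ R) (hR4 : R ^ 4 ≤ D) (hDW : D * R ^ 2 ≤ W) (hPpos : 1 ≤ P) (hPQ : P ≤ Q)
    (hPQW : P * Q ≤ W) (hPR : P ≤ R) (c : ℕ → ℂ)
    (hc : ∀ k ∈ Icc 1 (KK X Q), ‖c k‖ ≤ 2 * Real.log X) :
    TT W X (Ico Q (2 * Q)) (fun _ => c) (KK X Q) (fmin X R D) ≤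
      (10 ^ 7 * Real.log X ^ 4) * (W * (X : ℝ) ^ 2 / Q) / P := by
  have hD1' : 1 ≤ D := (Nat.one_le_pow _ _ hR1).trans hR4
  have hDleW : D ≤ W := le_trans (Nat.le_mul_of_pos_right D (by positivity)) hDW
  have hX1 : 1 ≤ X := by omega
  have hD5 : 2 * X + D ≤ 32 * X := by omega
  set L := Real.log X with hLdef
  have hL0 : (0 : ℝ) < L := by linarith
  -- the modulus
  have hQpos : 1 ≤ Q := hPpos.trans hPQ
  have hQW : Q ≤ W := le_trans (Nat.le_mul_of_pos_left Q hPpos) hPQW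
  have hQr : (1 : ℝ) ≤ Q := by exact_mod_cast hQpos
  have hWr : (1 : ℝ) ≤ W := by exact_mod_cast hW1
  have hXr : (1 : ℝ) ≤ X := by exact_mod_cast hX1
  have hWXr : (4 : ℝ) * W ≤ X := by exact_mod_cast hWX
  have hQWr : (Q : ℝ) ≤ W := by exact_mod_cast hQW
  have hPr : (1 : ℝ) ≤ P := by exact_mod_cast hPpos
  -- K
  have hKn : KK X Q * Q ≤ 4 * X + Q := by
    unfold KK
    rw [add_mul, one_mul]
    have := Nat.div_mul_le_self (4 * X) Q
    omega
  have hKr : (KK X Q : ℝ) ≤ 5 * X / Q := by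
    rw [le_div_iff₀ (by linarith)]
    have h1 : (KK X Q : ℝ) * Q ≤ 4 * X + Q := by exact_mod_cast hKn
    linarith
  -- step 1
  have hY : X + W ≤ 32 * X := by omega
  have hS : ∀ q ∈ Ico Q (2 * Q), q * KK X Q ≤ 32 * X := by
    intro q hq
    rw [Finset.mem_Ico] at hq
    calc q * KK X Q ≤ (2 * Q) * KK X Q := Nat.mul_le_mul_right _ hq.2.le
      _ = 2 * (KK X Q * Q) := by ring
      _ ≤ 2 * (4 * X + Q) := Nat.mul_le_mul_left _ hKn
      _ ≤ 32 * X := by omega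
  have hg : ∀ n : ℤ, ((32 * X : ℕ) : ℤ) < |n| → fmin X R D n = 0 := by
    intro n hn
    apply fmin_zero hD1'
    push_cast at hn
    have hD5' : (2 : ℤ) * X + D ≤ 32 * X := by exact_mod_cast hD5
    have hX0 : (0 : ℤ) ≤ X := Int.natCast_nonneg _
    rcases lt_abs.1 hn with h | h
    · right; linarith
    · left; linarith
  have s1 := ineq1 (W := W) (X := X) (K := KK X Q) (Y := 32 * X) (M := 4 * (32 * X) + 1) hW1
    (by omega) hY (by omega) (Ico Q (2 * Q)) hS (fun _ => c) (fmin X R D) hg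
  refine s1.trans ?_
  -- step 2: the weight
  have hc2 : ∑ k ∈ Icc 1 (KK X Q), ‖c k‖ ^ 2 ≤ 4 * L ^ 2 * (KK X Q : ℝ) := by
    calc ∑ k ∈ Icc 1 (KK X Q), ‖c k‖ ^ 2 ≤ ∑ k ∈ Icc 1 (KK X Q), (2 * L) ^ 2 :=
          Finset.sum_le_sum fun k hk => pow_le_pow_left₀ (norm_nonneg _) (hc k hk) 2
      _ = 4 * L ^ 2 * (KK X Q : ℝ) := by
          rw [Finset.sum_const, Nat.card_Icc, nsmul_eq_mul]
          simp only [Nat.add_sub_cancel]
          ring
  have hImg : (Ico Q (2 * Q)).image (fun m => 1 * m) = Ico Q (2 * Q) := by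
    simp
  have hwt : ∀ α : ℝ, W1 W (Ico Q (2 * Q)) (fun _ => c) (KK X Q) α ≤
      4 * L ^ 2 * (KK X Q : ℝ) * LS (W / Q) Q α := by
    intro α
    have h := W1_le (W := W) (U := Q) (q := 1) hW1 hQpos le_rfl c (KK X Q) α
    rw [hImg] at h
    simp only [one_mul, Nat.cast_one] at h
    exact h.trans (mul_le_mul_of_nonneg_right hc2 (Fy_nonneg' (by linarith) α _))
  have s2 : 1 / ((4 * (32 * X) + 1 : ℕ) : ℝ) * ∑ j ∈ range (4 * (32 * X) + 1),
      ‖gh (32 * X) (fmin X R D) ((j : ℝ) / ((4 * (32 * X) + 1 : ℕ) : ℝ))‖ ^ 2 *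
        W1 W (Ico Q (2 * Q)) (fun _ => c) (KK X Q) ((j : ℝ) / ((4 * (32 * X) + 1 : ℕ) : ℝ)) ≤
      1 / ((4 * (32 * X) + 1 : ℕ) : ℝ) * ∑ j ∈ range (4 * (32 * X) + 1),
      ‖gh (32 * X) (fmin X R D) ((j : ℝ) / ((4 * (32 * X) + 1 : ℕ) : ℝ))‖ ^ 2 *
        (4 * L ^ 2 * (KK X Q : ℝ) * LS (W / Q) Q ((j : ℝ) / ((4 * (32 * X) + 1 : ℕ) : ℝ))) := by
    apply mul_le_mul_of_nonneg_left _ (by positivity)
    exact Finset.sum_le_sum fun j _ => mul_le_mul_of_nonneg_left (hwt _) (by positivity)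
  refine s2.trans ?_
  -- step 3, 4: the bounds for the weight
  have hC0 : 0 ≤ 4 * L ^ 2 * (KK X Q : ℝ) := by positivity
  have hZ : W / Q * Q ≤ W := Nat.div_mul_le_self W Q
  have hZr : ((W / Q : ℕ) : ℝ) * Q ≤ W := by exact_mod_cast hZ
  have hT : ∀ α : ℝ, 4 * L ^ 2 * (KK X Q : ℝ) * LS (W / Q) Q α ≤ 12 * L ^ 2 * (KK X Q : ℝ) * W := by
    intro α
    have h1 := LS_triv (W / Q) (V := (Q : ℝ)) (by linarith) α
    have h2 : (2 * ((W / Q : ℕ) : ℝ) + 1) * Q ≤ 3 * W := by nlinarith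
    calc 4 * L ^ 2 * (KK X Q : ℝ) * LS (W / Q) Q α ≤ 4 * L ^ 2 * (KK X Q : ℝ) * (3 * W) :=
          mul_le_mul_of_nonneg_left (h1.trans h2) hC0
      _ = 12 * L ^ 2 * (KK X Q : ℝ) * W := by ring
  have hlogW0 : 0 ≤ Real.log W := Real.log_nonneg hWr
  have hlogW : Real.log W ≤ L := Real.log_le_log (by linarith) (by linarith)
  have halt : ∀ α : ℝ, 4 * L ^ 2 * (KK X Q : ℝ) * LS (W / Q) Q α ≤
        (40 * (1 + Real.log W) / P) * (12 * L ^ 2 * (KK X Q : ℝ) * W) ∨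
      ∃ (r : ℕ) (a : ℤ), 1 ≤ r ∧ r ≤ R ∧ IsCoprime a (r : ℤ) ∧ |α - a / r| ≤ (R : ℝ) / W := by
    intro α
    rcases LS_alt α (P := P) (V := Q) (Z := W / Q) (T := W) hPpos hPQ hPQW hZ with h | h
    · left
      calc 4 * L ^ 2 * (KK X Q : ℝ) * LS (W / Q) Q α
          ≤ 4 * L ^ 2 * (KK X Q : ℝ) * (100 * (1 + Real.log W) * W / P) :=
            mul_le_mul_of_nonneg_left h hC0
        _ = (100 / 3 * (1 + Real.log W) / P) * (12 * L ^ 2 * (KK X Q : ℝ) * W) := by ring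
        _ ≤ (40 * (1 + Real.log W) / P) * (12 * L ^ 2 * (KK X Q : ℝ) * W) := by
            apply mul_le_mul_of_nonneg_right _ (by positivity)
            apply div_le_div_of_nonneg_right _ (by linarith)
            apply mul_le_mul_of_nonneg_right (by norm_num) (by linarith)
    · right
      obtain ⟨r, a, h1, h2, h3, h4⟩ := h
      refine ⟨r, a, h1, by omega, h3, h4.trans ?_⟩
      have hr : (1 : ℝ) ≤ r := by exact_mod_cast h1
      have hPR' : (P : ℝ) ≤ R := by exact_mod_cast hPR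
      rw [div_le_div_iff₀ (by positivity) (by linarith)]
      have hR0 : (0 : ℝ) ≤ R := Nat.cast_nonneg _
      calc (P : ℝ) * W ≤ R * W := mul_le_mul_of_nonneg_right hPR' (by linarith)
        _ = R * (1 * W) := by ring
        _ ≤ R * (r * W) := by
            apply mul_le_mul_of_nonneg_left _ hR0
            exact mul_le_mul_of_nonneg_right hr (by linarith)
  -- step 5
  have s3 := min_gen (X := X) (R := R) (D := D) (Y := 32 * X) (M := 4 * (32 * X) + 1) (W := W) hX1 hR1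
    hR4 hDW hD5 (by omega) (fun α => 4 * L ^ 2 * (KK X Q : ℝ) * LS (W / Q) Q α)
    (T := 12 * L ^ 2 * (KK X Q : ℝ) * W) (δ := 40 * (1 + Real.log W) / P)
    (by positivity) (div_nonneg (by linarith) (by linarith))
    (fun α => mul_nonneg hC0 (Fy_nonneg' (by linarith) α _)) hT halt
  refine s3.trans ?_
  have hl2 : Real.log (2 * X) = Real.log 2 + L := Real.log_mul (by norm_num) (by linarith)
  have hlog2 : Real.log 2 ≤ 1 := by
    have := Real.log_two_lt_d9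
    linarith
  have hlog2' : 0 ≤ Real.log 2 := Real.log_nonneg (by norm_num)
  exact MinMed_num hL hXr hWr hQr hKr hPr (by exact_mod_cast hPR) hlogW hlogW0 (by rw [hl2]; linarith)
    (by rw [hl2]; linarith)

end Pool.Agent.MVD
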