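import Pool.Agent.MVD.PMinor

/-! The exceptional set: all `N` for which the minor part is large. -/

open Finset Complex
open scoped ArithmeticFunction.Moebius ArithmeticFunction.vonMangoldt

namespace Pool.Agent.MVD

open Pool.Agent.ANT Pool.Agent.SInt

/-- The norm of the minor part at one modulus. -/
noncomputable def GGm (κ : ℝ) (X i e P N m : ℕ) : ℝ :=
  ‖EG (fun _ => cc e i) (KK X P) (fmin X (mR κ X) (mD κ X)) N m‖

theorem GGm_nonneg (κ : ℝ) (X i e P N m : ℕ) : 0 ≤ GGm κ X i e P N m := norm_nonneg _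

/-- Bound for the divisors `e`. -/
noncomputable def mE (κ : ℝ) (X : ℕ) : ℕ := ⌊(X : ℝ) ^ (κ / 100)⌋₊

/-- Bound for the moduli. -/
noncomputable def mY (ε : ℝ) (X : ℕ) : ℕ := ⌊(X : ℝ) ^ (1 - ε)⌋₊

/-- Total minor part at `N`. -/
noncomputable def Mn (ε κ : ℝ) (X N : ℕ) : ℝ :=
  ∑ i ∈ range 2, ∑ e ∈ Icc 1 (mE κ X), ∑ j ∈ range (Nat.log 2 (mY ε X) + 1),
    ∑ m ∈ Ico (2 ^ j) (2 * 2 ^ j), GGm κ X i e (2 ^ j) N m

theorem Mn_nonneg (ε κ : ℝ) (X N : ℕ) : 0 ≤ Mn ε κ X N :=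
  Finset.sum_nonneg fun _ _ => Finset.sum_nonneg fun _ _ => Finset.sum_nonneg fun _ _ =>
    Finset.sum_nonneg fun _ _ => GGm_nonneg _ _ _ _ _ _ _

private lemma block_le {κ : ℝ} {X P e i : ℕ} {B : ℝ} (hX : 8 ≤ X)
    (hTT : TT (mW X) X (Ico P (2 * P)) (fun _ => cc e i) (KK X P) (fmin X (mR κ X) (mD κ X)) ≤ B) :
    (∑ N ∈ Icc X (X + X / 8), ∑ m ∈ Ico P (2 * P), GGm κ X i e P N m) ^ 2 ≤ X * P * (2 * B) := by
  have h1 : (∑ N ∈ Icc X (X + X / 8), ∑ m ∈ Ico P (2 * P), GGm κ X i e P N m) ^ 2 ≤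
      (((X / 8 + 1) * P : ℕ) : ℝ) *
        ∑ N ∈ Icc X (X + X / 8), ∑ m ∈ Ico P (2 * P), GGm κ X i e P N m ^ 2 := by
    rw [← Finset.sum_product', ← Finset.sum_product']
    refine (sq_sum_le_card_mul_sum_sq).trans (le_of_eq ?_)
    congr 2
    rw [Finset.card_product, Nat.card_Icc, Nat.card_Ico]
    congr 1 <;> omega
  have h2 : ∑ N ∈ Icc X (X + X / 8), ∑ m ∈ Ico P (2 * P), GGm κ X i e P N m ^ 2 ≤
      2 * TT (mW X) X (Ico P (2 * P)) (fun _ => cc e i) (KK X P) (fmin X (mR κ X) (mD κ X)) := by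
    rw [Finset.sum_comm]
    unfold TT
    rw [Finset.mul_sum]
    refine Finset.sum_le_sum fun m hm => ?_
    rw [Finset.mul_sum]
    have hsub : Icc X (X + X / 8) ⊆ Ioo (X - mW X) (X + mW X) := by
      intro N hN
      rw [Finset.mem_Icc] at hN
      rw [Finset.mem_Ioo]
      unfold mW
      omega
    refine le_trans ?_ (Finset.sum_le_sum_of_subset_of_nonneg hsub ?_)
    · refine Finset.sum_le_sum fun N hN => ?_
      obtain ⟨hN1, hN2⟩ := Finset.mem_Icc.mp hN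
      have e2 : (1 : ℝ) / 2 ≤ tri (mW X) ((N : ℝ) - X) := by
        apply tri_half
        rw [abs_of_nonneg]
        · have h3 : 2 * N ≤ 2 * X + mW X := by
            unfold mW
            omega
          have h4 : (2 : ℝ) * N ≤ 2 * X + mW X := by exact_mod_cast h3
          linarith
        · have : (X : ℝ) ≤ N := by exact_mod_cast hN1
          linarith
      have h5 := sq_nonneg ‖EG (fun _ => cc e i) (KK X P) (fmin X (mR κ X) (mD κ X)) N m‖
      unfold GGm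
      nlinarith
    · intro N _ _
      have := tri_nonneg (mW X) ((N : ℝ) - X)
      positivity
  have hB : 0 ≤ B := le_trans (TT_nonneg) hTT
  calc _ ≤ _ := h1
    _ ≤ (((X / 8 + 1) * P : ℕ) : ℝ) * (2 * B) := by
        apply mul_le_mul_of_nonneg_left _ (Nat.cast_nonneg _)
        linarith
    _ ≤ ((X * P : ℕ) : ℝ) * (2 * B) := by
        apply mul_le_mul_of_nonneg_right _ (by positivity)
        have : (X / 8 + 1) * P ≤ X * P := Nat.mul_le_mul_right _ (by omega)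
        exact_mod_cast this
    _ = _ := by push_cast; ring

/-- Few `N` in the window around `X` have a large minor part. -/
theorem bad_window {ε κ : ℝ} (hκ : 0 < κ) (hκ1 : κ ≤ 1 / 1000) (hκε : 10 * κ ≤ ε) (hε1 : ε ≤ 1) :
    ∃ X₀ : ℕ,
    ∀ X : ℕ, X₀ ≤ X →
    (((Icc X (X + X / 8)).filter
      (fun N => (X : ℝ) * (X : ℝ) ^ (-(κ / 200)) < Mn ε κ X N)).card : ℝ) ≤
      (X : ℝ) ^ (1 - κ / 200) := by
  classical
  obtain ⟨X1, h1⟩ := minorP hκ hκ1 hκε
  obtain ⟨X2, h2⟩ := const_log_pow_le 12 1 (δ := κ / 200) (by positivity)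
  refine ⟨max (max X1 X2) 8, fun X hX => ?_⟩
  have hX1 : X1 ≤ X := le_trans (le_trans (le_max_left _ _) (le_max_left _ _)) hX
  have hX2 : X2 ≤ X := le_trans (le_trans (le_max_right _ _) (le_max_left _ _)) hX
  have hX8 : 8 ≤ X := le_trans (le_max_right _ _) hX
  have hXpos : (0 : ℝ) < X := by exact_mod_cast (by omega : 0 < X)
  have hX1r : (1 : ℝ) ≤ X := by exact_mod_cast (by omega : 1 ≤ X)
  set z : ℝ := (X : ℝ) ^ (κ / 200) with hz
  set L : ℝ := Real.log X with hL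
  have hz0 : 0 < z := Real.rpow_pos_of_pos hXpos _
  have hz1 : 1 ≤ z := Real.one_le_rpow hX1r (by positivity)
  have hzL : 12 * L ≤ z := by
    have := h2 X hX2
    rw [pow_one] at this
    exact this
  have hL1 : 1 ≤ L := by
    rw [hL, Real.le_log_iff_exp_le hXpos]
    have h3 := Real.exp_one_lt_d9
    have h4 : (8 : ℝ) ≤ X := by exact_mod_cast hX8
    linarith
  have hzinv : (X : ℝ) ^ (-(κ / 200)) = z⁻¹ := by rw [Real.rpow_neg hXpos.le]
  have hx10 : (X : ℝ) ^ (-(κ / 20)) = (z ^ 10)⁻¹ := by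
    rw [Real.rpow_neg hXpos.le, hz, ← Real.rpow_natCast, ← Real.rpow_mul hXpos.le]
    congr 2
    push_cast
    ring
  have hE : (mE κ X : ℝ) ≤ z ^ 2 := by
    have h3 : (X : ℝ) ^ (κ / 100) = z ^ 2 := by
      rw [hz, ← Real.rpow_natCast, ← Real.rpow_mul hXpos.le]
      congr 1
      push_cast
      ring
    unfold mE
    rw [h3]
    exact Nat.floor_le (by positivity)
  have hE20 : (mE κ X : ℝ) ≤ (X : ℝ) ^ (κ / 20) := by
    unfold mE
    refine (Nat.floor_le (by positivity)).trans ?_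
    exact Real.rpow_le_rpow_of_exponent_le hX1r (by linarith)
  have hε0 : 0 ≤ ε := by linarith
  -- the level
  have hYX : (mY ε X : ℝ) ≤ (X : ℝ) ^ (1 - ε) := by
    unfold mY
    exact Nat.floor_le (by positivity)
  have hY1 : 1 ≤ mY ε X := by
    unfold mY
    apply Nat.le_floor
    push_cast
    exact Real.one_le_rpow hX1r (by linarith)
  have hYX1 : (mY ε X : ℝ) ≤ X := hYX.trans (by
    calc (X : ℝ) ^ (1 - ε) ≤ (X : ℝ) ^ (1 : ℝ) :=
          Real.rpow_le_rpow_of_exponent_le hX1r (by linarith)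
      _ = X := Real.rpow_one _)
  have hJ : ((Nat.log 2 (mY ε X) + 1 : ℕ) : ℝ) ≤ 3 * L := by
    rcases Nat.eq_zero_or_pos (mY ε X) with h0 | h0
    · rw [h0]
      simp
      linarith
    have h3 : (2 : ℝ) ^ (Nat.log 2 (mY ε X)) ≤ X := by
      refine le_trans ?_ hYX1
      exact_mod_cast Nat.pow_log_le_self 2 (by omega)
    have h4 := Real.log_le_log (by positivity) h3
    rw [Real.log_pow, ← hL] at h4
    have h5 := Real.log_two_gt_d9
    push_cast
    nlinarith [Nat.cast_nonneg (α := ℝ) (Nat.log 2 (mY ε X))]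
  -- block bound
  have hblock : ∀ i, i ≤ 1 → ∀ e ∈ Icc 1 (mE κ X), ∀ j ∈ range (Nat.log 2 (mY ε X) + 1),
      ∑ N ∈ Icc X (X + X / 8), ∑ m ∈ Ico (2 ^ j) (2 * 2 ^ j), GGm κ X i e (2 ^ j) N m ≤
        2 * X ^ 2 / z ^ 5 := by
    intro i hi e he j hj
    obtain ⟨he1, he2⟩ := Finset.mem_Icc.mp he
    rw [Finset.mem_range] at hj
    have hP1 : 1 ≤ (2 : ℕ) ^ j := Nat.one_le_two_pow
    · have hP : (2 : ℕ) ^ j ≤ mY ε X := by
        calc (2 : ℕ) ^ j ≤ 2 ^ (Nat.log 2 (mY ε X)) := Nat.pow_le_pow_right (by norm_num) (by omega)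
          _ ≤ mY ε X := Nat.pow_log_le_self 2 (by omega)
      have hPX : (((2 : ℕ) ^ j : ℕ) : ℝ) ≤ (X : ℝ) ^ (1 - ε) := le_trans (by exact_mod_cast hP) hYX
      have hed : (e : ℝ) ≤ (X : ℝ) ^ (κ / 20) := le_trans (by exact_mod_cast he2) hE20
      have hmin := h1 X hX1 (2 ^ j) hP1 hPX e he1 hed i hi
      have h3 := block_le hX8 hmin
      have hP0 : (0 : ℝ) < ((2 ^ j : ℕ) : ℝ) := by positivity
      refine le_of_sq_le_sq (h3.trans ?_) (by positivity)
      rw [hx10]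
      have h4 : (X : ℝ) * ((2 ^ j : ℕ) : ℝ) * (2 * ((X : ℝ) ^ 3 / ((2 ^ j : ℕ) : ℝ) * (z ^ 10)⁻¹)) =
          2 * (X : ℝ) ^ 4 / z ^ 10 := by
        field_simp
      have h5 : (2 * (X : ℝ) ^ 2 / z ^ 5) ^ 2 = 4 * (X : ℝ) ^ 4 / z ^ 10 := by
        rw [div_pow, ← pow_mul]
        ring
      rw [h4, h5]
      apply div_le_div_of_nonneg_right _ (by positivity)
      have : (0 : ℝ) ≤ (X : ℝ) ^ 4 := by positivity
      linarith
  -- the first moment
  have hsum : ∑ N ∈ Icc X (X + X / 8), Mn ε κ X N ≤ X * z⁻¹ * (X * z⁻¹) := by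
    have h3 : ∀ i, i ≤ 1 → ∑ N ∈ Icc X (X + X / 8), ∑ e ∈ Icc 1 (mE κ X),
        ∑ j ∈ range (Nat.log 2 (mY ε X) + 1), ∑ m ∈ Ico (2 ^ j) (2 * 2 ^ j),
          GGm κ X i e (2 ^ j) N m ≤ z ^ 2 * (3 * L * (2 * X ^ 2 / z ^ 5)) := by
      intro i hi
      rw [Finset.sum_comm]
      have h4 : ∀ e ∈ Icc 1 (mE κ X), ∑ N ∈ Icc X (X + X / 8),
          ∑ j ∈ range (Nat.log 2 (mY ε X) + 1), ∑ m ∈ Ico (2 ^ j) (2 * 2 ^ j),
            GGm κ X i e (2 ^ j) N m ≤ 3 * L * (2 * X ^ 2 / z ^ 5) := by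
        intro e he
        rw [Finset.sum_comm]
        refine (Finset.sum_le_sum fun j hj => hblock i hi e he j hj).trans ?_
        rw [Finset.sum_const, Finset.card_range, nsmul_eq_mul]
        exact mul_le_mul_of_nonneg_right hJ (by positivity)
      refine (Finset.sum_le_sum h4).trans ?_
      rw [Finset.sum_const, Nat.card_Icc, nsmul_eq_mul, Nat.add_sub_cancel]
      exact mul_le_mul_of_nonneg_right hE (by positivity)
    have h5 : ∑ N ∈ Icc X (X + X / 8), Mn ε κ X N ≤ 2 * (z ^ 2 * (3 * L * (2 * X ^ 2 / z ^ 5))) := by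
      unfold Mn
      rw [Finset.sum_comm, Finset.sum_range_succ, Finset.sum_range_one]
      linarith [h3 0 (by norm_num), h3 1 le_rfl]
    refine h5.trans ?_
    have h6 : 2 * (z ^ 2 * (3 * L * (2 * X ^ 2 / z ^ 5))) = (12 * L / z) * (X * z⁻¹ * (X * z⁻¹)) := by
      field_simp
      ring
    rw [h6]
    calc (12 * L / z) * (X * z⁻¹ * (X * z⁻¹)) ≤ 1 * (X * z⁻¹ * (X * z⁻¹)) := by
          apply mul_le_mul_of_nonneg_right _ (by positivity)
          rw [div_le_one hz0]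
          exact hzL
      _ = _ := one_mul _
  -- Markov
  rw [hzinv]
  set S := (Icc X (X + X / 8)).filter (fun N => (X : ℝ) * z⁻¹ < Mn ε κ X N) with hS
  have h7 : (S.card : ℝ) * (X * z⁻¹) ≤ X * z⁻¹ * (X * z⁻¹) := by
    calc (S.card : ℝ) * (X * z⁻¹) = ∑ _N ∈ S, (X * z⁻¹ : ℝ) := by
          rw [Finset.sum_const, nsmul_eq_mul]
      _ ≤ ∑ N ∈ S, Mn ε κ X N :=
          Finset.sum_le_sum fun N hN => (Finset.mem_filter.mp hN).2.le
      _ ≤ ∑ N ∈ Icc X (X + X / 8), Mn ε κ X N :=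
          Finset.sum_le_sum_of_subset_of_nonneg (Finset.filter_subset _ _)
            fun N _ _ => Mn_nonneg _ _ _ _
      _ ≤ _ := hsum
  have h8 : (S.card : ℝ) ≤ X * z⁻¹ := le_of_mul_le_mul_right h7 (by positivity)
  refine h8.trans (le_of_eq ?_)
  rw [Real.rpow_sub hXpos, Real.rpow_one, ← hz, div_eq_mul_inv]

end Pool.Agent.MVD
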