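import Pool.Agent.MVD.PBad
import Pool.Agent.SInt.Expand
import Pool.Agent.DEH.Count

/-! The discrepancy in terms of the minor and the major part. -/

open Finset Complex
open scoped ArithmeticFunction.Moebius ArithmeticFunction.vonMangoldt

namespace Pool.Agent.MVD

open Pool.Agent.ANT Pool.Agent.SInt

private noncomputable def FF (X i e N m : ℕ) : ℝ := ‖EG (fun _ => cc e i) N (SInt.Lam (2 * X)) N m‖

private lemma FF_nonneg (X i e N m : ℕ) : 0 ≤ FF X i e N m := norm_nonneg _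

private lemma Lam_zero' {Z : ℕ} {v : ℤ} (hv : v ≤ 0) : SInt.Lam Z v = 0 := by
  unfold SInt.Lam
  rw [if_neg]
  omega

private lemma EG_len_aux (c : ℕ → ℕ → ℂ) {K N q Z : ℕ} (hq : 1 ≤ q) (h : N ≤ q * K) :
    EG c K (SInt.Lam Z) N q =
      ∑ k ∈ (Icc 1 N).filter (fun k => q * k < N), c q k * SInt.Lam Z ((N : ℤ) - q * k) := by
  unfold EG
  have h1 : ∑ k ∈ Icc 1 K, c q k * SInt.Lam Z ((N : ℤ) - q * k) =
      ∑ k ∈ (Icc 1 K).filter (fun k => q * k < N), c q k * SInt.Lam Z ((N : ℤ) - q * k) := by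
    symm
    apply Finset.sum_filter_of_ne
    intro k hk hne
    by_contra hcon
    apply hne
    rw [Lam_zero', mul_zero]
    have : (N : ℤ) ≤ q * k := by exact_mod_cast not_lt.mp hcon
    linarith
  rw [h1]
  congr 1
  ext k
  simp only [Finset.mem_filter, Finset.mem_Icc]
  constructor
  · rintro ⟨⟨a, b⟩, c⟩
    refine ⟨⟨a, ?_⟩, c⟩
    nlinarith
  · rintro ⟨⟨a, b⟩, c⟩
    refine ⟨⟨a, ?_⟩, c⟩
    have : q * k < q * K := lt_of_lt_of_le c h
    exact (Nat.lt_of_mul_lt_mul_left this).le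

/-- The norm of the major part at one modulus. -/
noncomputable def GGM (κ : ℝ) (X i e P N m : ℕ) : ℝ :=
  ‖EG (fun _ => cc e i) (KK X P) (MJ X (mR κ X) (mD κ X)) N m‖

private lemma FF_le {κ : ℝ} {X i e P N m : ℕ} (hN : N ≤ 2 * X) (hP : 1 ≤ P) (hPm : P ≤ m) :
    FF X i e N m ≤ GGm κ X i e P N m + GGM κ X i e P N m := by
  have hm0 : 1 ≤ m := le_trans hP hPm
  have e1 : EG (fun _ => cc e i) N (SInt.Lam (2 * X)) N m =
      EG (fun _ => cc e i) (KK X P) (SInt.Lam (2 * X)) N m := by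
    rw [EG_len_aux _ hm0 (K := N) (Nat.le_mul_of_pos_left N hm0),
      EG_len_aux _ hm0 (K := KK X P)]
    have h3 : 4 * X < P * (4 * X / P + 1) := Nat.lt_mul_div_succ _ hP
    have h4 : P * (4 * X / P + 1) ≤ m * (4 * X / P + 1) := Nat.mul_le_mul_right _ hPm
    unfold KK
    omega
  have e2 : EG (fun _ => cc e i) (KK X P) (SInt.Lam (2 * X)) N m =
      EG (fun _ => cc e i) (KK X P) (fmin X (mR κ X) (mD κ X)) N m +
      EG (fun _ => cc e i) (KK X P) (MJ X (mR κ X) (mD κ X)) N m := by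
    unfold EG fmin
    rw [← Finset.sum_add_distrib]
    refine Finset.sum_congr rfl fun k _ => ?_
    ring
  unfold FF GGm GGM
  rw [e1, e2]
  exact norm_add_le _ _

private lemma dyadic_le (p : ℕ → Prop) [DecidablePred p] (f : ℕ → ℝ) (hf : ∀ n, 0 ≤ f n) (M : ℕ) :
    ∑ m ∈ (Icc 1 M).filter p, f m ≤
      ∑ j ∈ range (Nat.log 2 M + 1), ∑ m ∈ (Ico (2 ^ j) (2 * 2 ^ j)).filter p, f m := by
  have h1 : ∀ m ∈ (Icc 1 M).filter p, Nat.log 2 m ∈ range (Nat.log 2 M + 1) := by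
    intro m hm
    rw [Finset.mem_range]
    have := Nat.log_mono_right (b := 2) (Finset.mem_Icc.mp (Finset.mem_filter.mp hm).1).2
    omega
  rw [← Finset.sum_fiberwise_of_maps_to h1]
  refine Finset.sum_le_sum fun j hj => ?_
  refine Finset.sum_le_sum_of_subset_of_nonneg ?_ fun m _ _ => hf m
  intro m hm
  obtain ⟨hm1, hm2⟩ := Finset.mem_filter.mp hm
  obtain ⟨hm3, hp⟩ := Finset.mem_filter.mp hm1
  obtain ⟨hm4, hm5⟩ := Finset.mem_Icc.mp hm3
  rw [Finset.mem_filter, Finset.mem_Ico, ← hm2]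
  refine ⟨⟨Nat.pow_log_le_self 2 (by omega), ?_⟩, hp⟩
  have := Nat.lt_pow_succ_log_self (b := 2) (by norm_num) m
  rw [pow_succ] at this
  omega

private lemma small_le {κ : ℝ} {X Q N i E0 M : ℕ} (hN : N ≤ 2 * X) (hM : Q * E0 ≤ M) :
    ∑ q ∈ (Icc 1 Q).filter (fun q => q.Coprime N),
      ∑ e ∈ q.divisors.filter (fun e => e ≤ E0), FF X i e N (q * e) ≤
      ∑ e ∈ Icc 1 E0, ∑ j ∈ range (Nat.log 2 M + 1),
        ∑ m ∈ (Ico (2 ^ j) (2 * 2 ^ j)).filter (fun m => m.Coprime N),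
          (GGm κ X i e (2 ^ j) N m + GGM κ X i e (2 ^ j) N m) := by
  have h1 : ∑ q ∈ (Icc 1 Q).filter (fun q => q.Coprime N),
      ∑ e ∈ q.divisors.filter (fun e => e ≤ E0), FF X i e N (q * e) ≤
      ∑ q ∈ (Icc 1 Q).filter (fun q => q.Coprime N),
        ∑ e ∈ (Icc 1 E0).filter (fun e => e.Coprime N), FF X i e N (q * e) := by
    refine Finset.sum_le_sum fun q hq => ?_
    refine Finset.sum_le_sum_of_subset_of_nonneg ?_ fun m _ _ => FF_nonneg _ _ _ _ _
    intro e he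
    obtain ⟨he1, he2⟩ := Finset.mem_filter.mp he
    have hcop := (Finset.mem_filter.mp hq).2
    exact Finset.mem_filter.mpr ⟨Finset.mem_Icc.mpr ⟨Nat.pos_of_mem_divisors he1, he2⟩,
      Nat.Coprime.coprime_dvd_left (Nat.dvd_of_mem_divisors he1) hcop⟩
  refine h1.trans ?_
  rw [Finset.sum_comm]
  have h0 : ∀ e ∈ (Icc 1 E0).filter (fun e => e.Coprime N),
      ∑ q ∈ (Icc 1 Q).filter (fun q => q.Coprime N), FF X i e N (q * e) ≤
      ∑ j ∈ range (Nat.log 2 M + 1),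
        ∑ m ∈ (Ico (2 ^ j) (2 * 2 ^ j)).filter (fun m => m.Coprime N),
          (GGm κ X i e (2 ^ j) N m + GGM κ X i e (2 ^ j) N m) := by
    intro e he
    obtain ⟨he0, hec⟩ := Finset.mem_filter.mp he
    obtain ⟨he1, he2⟩ := Finset.mem_Icc.mp he0
    have h2 : ∑ q ∈ (Icc 1 Q).filter (fun q => q.Coprime N), FF X i e N (q * e) =
        ∑ m ∈ ((Icc 1 Q).filter (fun q => q.Coprime N)).image (fun q => q * e), FF X i e N m := by
      rw [Finset.sum_image]
      intro a _ b _ hab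
      exact Nat.eq_of_mul_eq_mul_right he1 hab
    rw [h2]
    have h3 : ∑ m ∈ ((Icc 1 Q).filter (fun q => q.Coprime N)).image (fun q => q * e), FF X i e N m ≤
        ∑ m ∈ (Icc 1 M).filter (fun m => m.Coprime N), FF X i e N m := by
      refine Finset.sum_le_sum_of_subset_of_nonneg ?_ fun m _ _ => FF_nonneg _ _ _ _ _
      intro m hm
      obtain ⟨q, hq, rfl⟩ := Finset.mem_image.mp hm
      obtain ⟨hq0, hqc⟩ := Finset.mem_filter.mp hq
      obtain ⟨hq1, hq2⟩ := Finset.mem_Icc.mp hq0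
      refine Finset.mem_filter.mpr ⟨Finset.mem_Icc.mpr ⟨Nat.mul_pos hq1 he1,
        (Nat.mul_le_mul hq2 he2).trans hM⟩, ?_⟩
      exact Nat.Coprime.mul_left hqc hec
    refine h3.trans ((dyadic_le (fun m => m.Coprime N) (fun m => FF X i e N m)
      (fun m => FF_nonneg _ _ _ _ _) M).trans ?_)
    refine Finset.sum_le_sum fun j _ => Finset.sum_le_sum fun m hm => ?_
    have hm1 := (Finset.mem_Ico.mp (Finset.mem_filter.mp hm).1).1
    exact FF_le hN Nat.one_le_two_pow hm1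
  refine (Finset.sum_le_sum h0).trans ?_
  refine Finset.sum_le_sum_of_subset_of_nonneg (Finset.filter_subset _ _) fun e _ _ => ?_
  refine Finset.sum_nonneg fun j _ => Finset.sum_nonneg fun m _ => ?_
  exact add_nonneg (GGm_nonneg _ _ _ _ _ _ _) (norm_nonneg _)

private lemma tail_le {X Q N i E0 : ℕ} {L0 : ℝ} (hX : 3 ≤ X) (hN : N ≤ 2 * X) (hi : i ≤ 1)
    (hL0 : 0 < L0) (hE0 : L0 < E0 + 1) :
    ∑ q ∈ Icc 1 Q, ∑ e ∈ q.divisors.filter (fun e => ¬ e ≤ E0), FF X i e N (q * e) ≤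
      2 * X * (4 * Real.log X ^ 2 + 4) / L0 * Hs Q ^ 2 := by
  have h1 : ∀ q ∈ Icc 1 Q, ∑ e ∈ q.divisors.filter (fun e => ¬ e ≤ E0), FF X i e N (q * e) ≤
      2 * X * (4 * Real.log X ^ 2 + 4) / L0 * (tauR q / q) := by
    intro q hq
    obtain ⟨hq1, hq2⟩ := Finset.mem_Icc.mp hq
    have hq0 : (0 : ℝ) < q := by exact_mod_cast hq1
    have h2 : ∀ e ∈ q.divisors.filter (fun e => ¬ e ≤ E0), FF X i e N (q * e) ≤
        2 * X * (4 * Real.log X ^ 2 + 4) / L0 * (1 / q) := by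
      intro e he
      obtain ⟨he1, he2⟩ := Finset.mem_filter.mp he
      have he3 : 1 ≤ e := Nat.pos_of_mem_divisors he1
      refine (EG_triv hX hN hq1 he3 hi).trans ?_
      have he4 : L0 ≤ e := by
        have : (E0 : ℝ) + 1 ≤ e := by exact_mod_cast not_le.mp he2
        linarith
      have e1 : 2 * (X : ℝ) * (4 * Real.log X ^ 2 + 4) / L0 * (1 / q) =
          2 * X / (q * L0) * (4 * Real.log X ^ 2 + 4) := by
        field_simp
      rw [e1]
      gcongr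
    calc _ ≤ ∑ e ∈ q.divisors.filter (fun e => ¬ e ≤ E0),
          2 * X * (4 * Real.log X ^ 2 + 4) / L0 * (1 / q) := Finset.sum_le_sum h2
      _ = (q.divisors.filter (fun e => ¬ e ≤ E0)).card *
          (2 * X * (4 * Real.log X ^ 2 + 4) / L0 * (1 / q)) := by
          rw [Finset.sum_const, nsmul_eq_mul]
      _ ≤ tauR q * (2 * X * (4 * Real.log X ^ 2 + 4) / L0 * (1 / q)) := by
          apply mul_le_mul_of_nonneg_right _ (by positivity)
          unfold tauR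
          exact_mod_cast Finset.card_filter_le _ _
      _ = _ := by ring
  refine (Finset.sum_le_sum h1).trans ?_
  rw [← Finset.mul_sum]
  apply mul_le_mul_of_nonneg_left _ (by positivity)
  exact sum_tau_div_le Q

private lemma E_le {X N q : ℕ} (hX : 3 ≤ X) (hlog : 1 ≤ Real.log X) (hN : N ≤ 2 * X) (hN1 : 1 ≤ N)
    (hq : 1 ≤ q) (hqX : q ≤ 2 * X)
    {g : ℕ → ℝ} (hg : g = Pool.Agent.DEH.g1 ∨ g = Pool.Agent.DEH.g2) :
    |Pool.Agent.DEH.E g N q| ≤ 4 * Real.log X * ∑ i ∈ range 2, ∑ e ∈ q.divisors, FF X i e N (q * e) := by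
  have hnorm : |Pool.Agent.DEH.E g N q| = ‖((Pool.Agent.DEH.E g N q : ℝ) : ℂ)‖ := by
    rw [Complex.norm_real, Real.norm_eq_abs]
  rw [hnorm, Finset.sum_comm, Finset.mul_sum]
  rcases hg with rfl | rfl
  · rw [E_g1_expand hN hN1 hq, norm_mul]
    have h1 : ‖∑ e ∈ q.divisors, muC e * EG (fun _ => cc e 0) N (SInt.Lam (2 * X)) N (q * e)‖ ≤
        ∑ e ∈ q.divisors, 4 * Real.log X * ∑ i ∈ range 2, FF X i e N (q * e) := by
      refine (norm_sum_le _ _).trans (Finset.sum_le_sum fun e _ => ?_)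
      rw [norm_mul, Finset.sum_range_succ, Finset.sum_range_one]
      have h0 := FF_nonneg X 0 e N (q * e)
      have h1 := FF_nonneg X 1 e N (q * e)
      have h2 : ‖muC e‖ * FF X 0 e N (q * e) ≤ 1 * FF X 0 e N (q * e) :=
        mul_le_mul_of_nonneg_right (norm_muC_le e) h0
      change ‖muC e‖ * FF X 0 e N (q * e) ≤ _
      nlinarith
    calc _ ≤ 1 * _ := mul_le_mul (norm_muC_le q) h1 (norm_nonneg _) zero_le_one
      _ = _ := one_mul _
  · rw [E_g2_expand hN hN1 hq, norm_mul]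
    have h1 : ‖∑ e ∈ q.divisors, muC e * (((Real.log ((q * e : ℕ) : ℝ) : ℝ) : ℂ) *
        EG (fun _ => cc e 0) N (SInt.Lam (2 * X)) N (q * e) +
          EG (fun _ => cc e 1) N (SInt.Lam (2 * X)) N (q * e))‖ ≤
        ∑ e ∈ q.divisors, 4 * Real.log X * ∑ i ∈ range 2, FF X i e N (q * e) := by
      refine (norm_sum_le _ _).trans (Finset.sum_le_sum fun e he => ?_)
      have he1 : 1 ≤ e := Nat.pos_of_mem_divisors he
      have he2 : e ≤ q := Nat.divisor_le he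
      rw [norm_mul, Finset.sum_range_succ, Finset.sum_range_one]
      have h0 := FF_nonneg X 0 e N (q * e)
      have h1 := FF_nonneg X 1 e N (q * e)
      have hlq : 0 ≤ Real.log ((q * e : ℕ) : ℝ) := Real.log_natCast_nonneg _
      have hlq2 : Real.log ((q * e : ℕ) : ℝ) ≤ 4 * Real.log X := by
        have hX3 : (3 : ℝ) ≤ X := by exact_mod_cast hX
        have h3 : ((q * e : ℕ) : ℝ) ≤ (X : ℝ) ^ 4 := by
          have h4 : (q : ℝ) ≤ 2 * X := by exact_mod_cast hqX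
          have h5 : (e : ℝ) ≤ 2 * X := by exact_mod_cast he2.trans hqX
          push_cast
          have h6 : (q : ℝ) * e ≤ (2 * X) * (2 * X) :=
            mul_le_mul h4 h5 (Nat.cast_nonneg _) (by positivity)
          nlinarith [mul_le_mul hX3 hX3 (by norm_num) (by positivity : (0:ℝ) ≤ X),
            sq_nonneg (X : ℝ)]
        have h7 := Real.log_le_log (by exact_mod_cast Nat.mul_pos hq he1) h3
        rw [Real.log_pow] at h7
        exact_mod_cast h7
      have h8 : ‖((Real.log ((q * e : ℕ) : ℝ) : ℝ) : ℂ) *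
          EG (fun _ => cc e 0) N (SInt.Lam (2 * X)) N (q * e) +
          EG (fun _ => cc e 1) N (SInt.Lam (2 * X)) N (q * e)‖ ≤
          Real.log ((q * e : ℕ) : ℝ) * FF X 0 e N (q * e) + FF X 1 e N (q * e) := by
        refine (norm_add_le _ _).trans ?_
        rw [norm_mul, Complex.norm_real, Real.norm_of_nonneg hlq]
        rfl
      calc _ ≤ 1 * (Real.log ((q * e : ℕ) : ℝ) * FF X 0 e N (q * e) + FF X 1 e N (q * e)) :=
            mul_le_mul (norm_muC_le e) h8 (norm_nonneg _) zero_le_one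
        _ ≤ _ := by nlinarith
    calc _ ≤ 1 * _ := mul_le_mul (norm_muC_le q) h1 (norm_nonneg _) zero_le_one
      _ = _ := one_mul _

/-- The discrepancy is bounded by the errors at the moduli coprime to `N`. -/
theorem D_le_sum (g : ℕ → ℝ) (N : ℕ) (L : ℝ) (Q : ℕ) (hQ : ⌊L⌋₊ ≤ Q) :
    Pool.Agent.DEH.D g N L ≤ (1 + Hs Q ^ 2) *
      ∑ q ∈ (Icc 1 Q).filter (fun q => q.Coprime N), |Pool.Agent.DEH.E g N q| := by
  have hE0 : 0 ≤ ∑ q ∈ (Icc 1 Q).filter (fun q => q.Coprime N), |Pool.Agent.DEH.E g N q| :=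
    Finset.sum_nonneg fun _ _ => abs_nonneg _
  rcases Nat.eq_zero_or_pos Q with h0 | h0
  · have : ⌊L⌋₊ = 0 := by omega
    unfold Pool.Agent.DEH.D
    rw [this, h0]
    simp
  have hS : |Pool.Agent.DEH.S g N| ≤
      ∑ q ∈ (Icc 1 Q).filter (fun q => q.Coprime N), |Pool.Agent.DEH.E g N q| := by
    rw [← Pool.Agent.DEH.E_one]
    exact Finset.single_le_sum (f := fun q => |Pool.Agent.DEH.E g N q|)
      (fun _ _ => abs_nonneg _) (Finset.mem_filter.mpr ⟨Finset.mem_Icc.mpr ⟨le_refl 1, h0⟩,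
        Nat.coprime_one_left N⟩)
  have hphi : ∑ q ∈ Icc 1 Q, 1 / (q.totient : ℝ) ≤ Hs Q ^ 2 := by
    calc _ ≤ ∑ q ∈ Icc 1 Q, tauR q / q := by
          refine Finset.sum_le_sum fun q hq => ?_
          have h1 := (Finset.mem_Icc.mp hq).1
          exact Pool.Agent.DEH.one_div_totient_le (by omega)
      _ = ∑ q ∈ Finset.Ioc 0 Q, tauR q / q := rfl
      _ ≤ Hs Q ^ 2 := sum_tau_div_le Q
  have hsub : (Icc 1 ⌊L⌋₊).filter (fun q => q.Coprime N) ⊆
      (Icc 1 Q).filter (fun q => q.Coprime N) := by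
    intro q hq
    obtain ⟨h1, h2⟩ := Finset.mem_filter.mp hq
    obtain ⟨h3, h4⟩ := Finset.mem_Icc.mp h1
    exact Finset.mem_filter.mpr ⟨Finset.mem_Icc.mpr ⟨h3, h4.trans hQ⟩, h2⟩
  unfold Pool.Agent.DEH.D
  calc _ ≤ ∑ q ∈ (Icc 1 ⌊L⌋₊).filter (fun q => q.Coprime N),
        (|Pool.Agent.DEH.E g N q| + 1 / (q.totient : ℝ) * |Pool.Agent.DEH.S g N|) := by
        refine Finset.sum_le_sum fun q _ => ?_
        refine (abs_sub _ _).trans ?_
        rw [abs_mul, abs_of_nonneg (by positivity : (0:ℝ) ≤ 1 / (q.totient : ℝ))]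
    _ ≤ ∑ q ∈ (Icc 1 Q).filter (fun q => q.Coprime N),
        (|Pool.Agent.DEH.E g N q| + 1 / (q.totient : ℝ) * |Pool.Agent.DEH.S g N|) :=
        Finset.sum_le_sum_of_subset_of_nonneg hsub fun _ _ _ => by positivity
    _ = ∑ q ∈ (Icc 1 Q).filter (fun q => q.Coprime N), |Pool.Agent.DEH.E g N q| +
        (∑ q ∈ (Icc 1 Q).filter (fun q => q.Coprime N), 1 / (q.totient : ℝ)) *
          |Pool.Agent.DEH.S g N| := by
        rw [Finset.sum_add_distrib, Finset.sum_mul]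
    _ ≤ ∑ q ∈ (Icc 1 Q).filter (fun q => q.Coprime N), |Pool.Agent.DEH.E g N q| +
        Hs Q ^ 2 * ∑ q ∈ (Icc 1 Q).filter (fun q => q.Coprime N), |Pool.Agent.DEH.E g N q| := by
        have h5 : 0 ≤ Hs Q ^ 2 := sq_nonneg _
        have h6 : ∑ q ∈ (Icc 1 Q).filter (fun q => q.Coprime N), 1 / (q.totient : ℝ) ≤ Hs Q ^ 2 :=
          le_trans (Finset.sum_le_sum_of_subset_of_nonneg (Finset.filter_subset _ _)
            fun _ _ _ => by positivity) hphi
        have h7 := mul_le_mul h6 hS (abs_nonneg _) h5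
        linarith
    _ = _ := by ring

/-- the final comparison -/
private lemma pdec_num {X L z : ℝ} {A : ℕ} (hX0 : 0 < X) (hL1 : 1 ≤ L) (hz0 : 0 < z)
    (h3' : 120 * 2 ^ A * L ^ (A + 3) ≤ z) (hbig : 40000 * 2 ^ A ≤ L) :
    10 * L ^ 2 * (4 * L * (X * z⁻¹ + 2 * (L ^ (A + 8) * (3 * L * (X / L ^ (A + (A + 8) + 5))) +
      2 * X * (4 * L ^ 2 + 4) / L ^ (A + 8) * (3 * L) ^ 2))) ≤ X / (2 ^ A * L ^ A) := by
  have hL0 : 0 < L := by linarith
  have h2A : (1 : ℝ) ≤ 2 ^ A := one_le_pow₀ (by norm_num)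
  have hLA : 0 < L ^ A := by positivity
  have e3 : 10 * L ^ 2 * (4 * L * (X * z⁻¹ + 2 * (L ^ (A + 8) * (3 * L * (X / L ^ (A + (A + 8) + 5))) +
      2 * X * (4 * L ^ 2 + 4) / L ^ (A + 8) * (3 * L) ^ 2))) =
      X / (2 ^ A * L ^ A) * (40 * 2 ^ A * L ^ (A + 3) / z + 240 * 2 ^ A / L +
        1440 * 2 ^ A * (4 * L ^ 2 + 4) / L ^ 3) := by
    rw [show A + (A + 8) + 5 = A + A + 13 by ring, pow_add L (A + A) 13, pow_add L A A,
      pow_add L A 8, pow_add L A 3]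
    field_simp
    ring
  rw [e3]
  have h8 : 40 * 2 ^ A * L ^ (A + 3) / z ≤ 1 / 3 := by
    rw [div_le_div_iff₀ hz0 (by norm_num)]
    linarith
  have h9 : 240 * 2 ^ A / L ≤ 1 / 10 := by
    rw [div_le_div_iff₀ hL0 (by norm_num)]
    linarith
  have h10 : 1440 * 2 ^ A * (4 * L ^ 2 + 4) / L ^ 3 ≤ 1 / 3 := by
    rw [div_le_div_iff₀ (by positivity) (by norm_num)]
    have h11 : 4 * L ^ 2 + 4 ≤ 8 * L ^ 2 := by
      have : 1 ≤ L ^ 2 := one_le_pow₀ hL1
      linarith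
    calc 1440 * 2 ^ A * (4 * L ^ 2 + 4) * 3 ≤ 1440 * 2 ^ A * (8 * L ^ 2) * 3 := by gcongr
      _ = (34560 * 2 ^ A) * L ^ 2 := by ring
      _ ≤ L * L ^ 2 := by
          apply mul_le_mul_of_nonneg_right _ (by positivity)
          nlinarith
      _ = 1 * L ^ 3 := by ring
  calc X / (2 ^ A * L ^ A) * (40 * 2 ^ A * L ^ (A + 3) / z + 240 * 2 ^ A / L +
        1440 * 2 ^ A * (4 * L ^ 2 + 4) / L ^ 3) ≤ X / (2 ^ A * L ^ A) * 1 := by
        apply mul_le_mul_of_nonneg_left _ (by positivity)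
        linarith
    _ = _ := mul_one _

/-- The discrepancy at an unexceptional `N`, given the bound for the major part. -/
theorem pdec {ε κ : ℝ} (hκ : 0 < κ) (hκ1 : κ ≤ 1 / 1000) (hκε : 10 * κ ≤ ε) (hε1 : ε ≤ 1 / 2) (A : ℕ) :
    ∃ C₀ A' X₀ : ℕ, ∀ X : ℕ, X₀ ≤ X → ∀ N : ℕ, X ≤ N → N ≤ X + X / 8 →
    Mn ε κ X N ≤ (X : ℝ) * (X : ℝ) ^ (-(κ / 200)) →
    (∀ Q : ℕ, 1 ≤ Q → (Q : ℝ) ≤ (X : ℝ) ^ (1 - ε) → ∀ e : ℕ, 1 ≤ e → (e : ℝ) ≤ Real.log X ^ C₀ →
      ∀ i : ℕ, i ≤ 1 → ∑ q ∈ (Ico Q (2 * Q)).filter (fun q => q.Coprime N),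
        ‖EG (fun _ => cc e i) (KK X Q) (MJ X (mR κ X) (mD κ X)) N q‖ ≤ X / Real.log X ^ A') →
    ∀ g : ℕ → ℝ, g = Pool.Agent.DEH.g1 ∨ g = Pool.Agent.DEH.g2 → ∀ Q : ℝ,
      Q ≤ (N : ℝ) ^ (1 - 2 * ε) → Pool.Agent.DEH.D g N Q ≤ N / Real.log N ^ A := by
  have hε0 : 0 < ε := by linarith
  obtain ⟨X1, h1⟩ := const_log_pow_le 2 (A + 8) (δ := ε) hε0
  obtain ⟨X2, h2⟩ := const_log_pow_le 1 (A + 8) (δ := κ / 100) (by positivity)
  obtain ⟨X3, h3⟩ := const_log_pow_le (120 * 2 ^ A) (A + 3) (δ := κ / 200) (by positivity)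
  have htend : Filter.Tendsto (fun n : ℕ => Real.log n) Filter.atTop Filter.atTop :=
    Real.tendsto_log_atTop.comp tendsto_natCast_atTop_atTop
  obtain ⟨X4, h4⟩ := Filter.eventually_atTop.mp (htend.eventually_ge_atTop (40000 * 2 ^ A))
  refine ⟨A + 8, A + (A + 8) + 5, max (max X1 X2) (max (max X3 X4) 10), ?_⟩
  intro X hX N hXN hN2 hMn hMaj g hg Q hQ
  have hXa : X1 ≤ X := le_trans (le_trans (le_max_left _ _) (le_max_left _ _)) hX
  have hXb : X2 ≤ X := le_trans (le_trans (le_max_right _ _) (le_max_left _ _)) hX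
  have hXc : X3 ≤ X :=
    le_trans (le_trans (le_trans (le_max_left _ _) (le_max_left _ _)) (le_max_right _ _)) hX
  have hXd : X4 ≤ X :=
    le_trans (le_trans (le_trans (le_max_right _ _) (le_max_left _ _)) (le_max_right _ _)) hX
  have hX10 : 10 ≤ X := le_trans (le_trans (le_max_right _ _) (le_max_right _ _)) hX
  have hX0 : (0 : ℝ) < X := by exact_mod_cast (by omega : 0 < X)
  have hX1r : (1 : ℝ) ≤ X := by exact_mod_cast (by omega : 1 ≤ X)
  have h1' := h1 X hXa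
  have h2' := h2 X hXb
  have h3' := h3 X hXc
  have hbig := h4 X hXd
  set L : ℝ := Real.log X with hL
  set z : ℝ := (X : ℝ) ^ (κ / 200) with hz
  have hz0 : 0 < z := Real.rpow_pos_of_pos hX0 _
  have hzinv : (X : ℝ) ^ (-(κ / 200)) = z⁻¹ := by rw [Real.rpow_neg hX0.le]
  rw [hzinv] at hMn
  have h2A : (1 : ℝ) ≤ 2 ^ A := one_le_pow₀ (by norm_num)
  have hL1 : 1 ≤ L := by linarith
  have hL0 : 0 < L := by linarith
  have hN1 : 1 ≤ N := by omega
  have hN2X : N ≤ 2 * X := by omega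
  have hNr : (N : ℝ) ≤ 2 * X := by exact_mod_cast hN2X
  have hXNr : (X : ℝ) ≤ N := by exact_mod_cast hXN
  have hN0 : (0 : ℝ) < N := by linarith
  -- the level
  set Q' : ℕ := ⌊(N : ℝ) ^ (1 - 2 * ε)⌋₊ with hQ'
  have hQ'le : (Q' : ℝ) ≤ (N : ℝ) ^ (1 - 2 * ε) := Nat.floor_le (by positivity)
  have hfl : ⌊Q⌋₊ ≤ Q' := Nat.floor_le_floor hQ
  have hQ'2 : (Q' : ℝ) ≤ 2 * (X : ℝ) ^ (1 - 2 * ε) := by
    refine hQ'le.trans ?_
    calc (N : ℝ) ^ (1 - 2 * ε) ≤ (2 * X) ^ (1 - 2 * ε) :=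
          Real.rpow_le_rpow hN0.le hNr (by linarith)
      _ = 2 ^ (1 - 2 * ε) * (X : ℝ) ^ (1 - 2 * ε) := Real.mul_rpow (by norm_num) hX0.le
      _ ≤ 2 * (X : ℝ) ^ (1 - 2 * ε) := by
          apply mul_le_mul_of_nonneg_right _ (by positivity)
          calc (2 : ℝ) ^ (1 - 2 * ε) ≤ 2 ^ (1 : ℝ) :=
                Real.rpow_le_rpow_of_exponent_le (by norm_num) (by linarith)
            _ = 2 := Real.rpow_one _
  have hQ'X : Q' ≤ 2 * X := by
    have h5 : (X : ℝ) ^ (1 - 2 * ε) ≤ X := by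
      calc (X : ℝ) ^ (1 - 2 * ε) ≤ (X : ℝ) ^ (1 : ℝ) :=
            Real.rpow_le_rpow_of_exponent_le hX1r (by linarith)
        _ = X := Real.rpow_one _
    have : (Q' : ℝ) ≤ 2 * X := by linarith
    exact_mod_cast this
  -- the cutoff
  set E0 : ℕ := ⌊L ^ (A + 8)⌋₊ with hE0
  have hE0le : (E0 : ℝ) ≤ L ^ (A + 8) := Nat.floor_le (by positivity)
  have hE0lt : L ^ (A + 8) < E0 + 1 := Nat.lt_floor_add_one _
  have hE0mE : E0 ≤ mE κ X := by
    unfold mE
    rw [hE0]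
    apply Nat.floor_le_floor
    linarith
  have hM : Q' * E0 ≤ mY ε X := by
    unfold mY
    apply Nat.le_floor
    push_cast
    calc (Q' : ℝ) * E0 ≤ (2 * (X : ℝ) ^ (1 - 2 * ε)) * L ^ (A + 8) :=
          mul_le_mul hQ'2 hE0le (Nat.cast_nonneg _) (by positivity)
      _ = (X : ℝ) ^ (1 - 2 * ε) * (2 * L ^ (A + 8)) := by ring
      _ ≤ (X : ℝ) ^ (1 - 2 * ε) * (X : ℝ) ^ ε := by gcongr
      _ = (X : ℝ) ^ (1 - ε) := by
          rw [← Real.rpow_add hX0]
          congr 1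
          ring
  have hYX : (mY ε X : ℝ) ≤ (X : ℝ) ^ (1 - ε) := by
    unfold mY
    exact Nat.floor_le (by positivity)
  have hY1 : 1 ≤ mY ε X := by
    unfold mY
    apply Nat.le_floor
    push_cast
    exact Real.one_le_rpow hX1r (by linarith)
  have hYX1 : (mY ε X : ℝ) ≤ X := hYX.trans (by
    calc (X : ℝ) ^ (1 - ε) ≤ (X : ℝ) ^ (1 : ℝ) :=
          Real.rpow_le_rpow_of_exponent_le hX1r (by linarith)
      _ = X := Real.rpow_one _)
  have hJ : ((Nat.log 2 (mY ε X) + 1 : ℕ) : ℝ) ≤ 3 * L := by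
    have h5 : (2 : ℝ) ^ (Nat.log 2 (mY ε X)) ≤ X := by
      refine le_trans ?_ hYX1
      exact_mod_cast Nat.pow_log_le_self 2 (by omega)
    have h6 := Real.log_le_log (by positivity) h5
    rw [Real.log_pow, ← hL] at h6
    have h7 := Real.log_two_gt_d9
    push_cast
    nlinarith [Nat.cast_nonneg (α := ℝ) (Nat.log 2 (mY ε X))]
  have hHs : Hs Q' ≤ 3 * L := by
    rcases Nat.eq_zero_or_pos Q' with h0 | h0
    · rw [h0]
      have : Hs 0 ≤ 1 + Real.log (0 : ℕ) := Hs_le 0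
      simp at this
      linarith
    refine (Hs_le Q').trans ?_
    have h5 : Real.log Q' ≤ Real.log (2 * X) := by
      apply Real.log_le_log (by exact_mod_cast h0)
      exact_mod_cast hQ'X
    rw [Real.log_mul (by norm_num) hX0.ne', ← hL] at h5
    have h6 := Real.log_two_lt_d9
    linarith
  -- the sum of the errors
  have hsumE : ∑ q ∈ (Icc 1 Q').filter (fun q => q.Coprime N), |Pool.Agent.DEH.E g N q| ≤
      4 * L * ∑ i ∈ range 2, ∑ q ∈ (Icc 1 Q').filter (fun q => q.Coprime N),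
        ∑ e ∈ q.divisors, FF X i e N (q * e) := by
    rw [Finset.sum_comm, Finset.mul_sum]
    refine Finset.sum_le_sum fun q hq => ?_
    obtain ⟨hq1, hq2⟩ := Finset.mem_Icc.mp (Finset.mem_filter.mp hq).1
    exact E_le (by omega) hL1 hN2X hN1 hq1 (hq2.trans hQ'X) hg
  have hsplit : ∀ i, i ≤ 1 → ∑ q ∈ (Icc 1 Q').filter (fun q => q.Coprime N),
      ∑ e ∈ q.divisors, FF X i e N (q * e) ≤
      (∑ e ∈ Icc 1 E0, ∑ j ∈ range (Nat.log 2 (mY ε X) + 1),
        ∑ m ∈ Ico (2 ^ j) (2 * 2 ^ j), GGm κ X i e (2 ^ j) N m) +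
      L ^ (A + 8) * (3 * L * (X / L ^ (A + (A + 8) + 5))) +
      2 * X * (4 * L ^ 2 + 4) / L ^ (A + 8) * (3 * L) ^ 2 := by
    intro i hi
    have e1 : ∑ q ∈ (Icc 1 Q').filter (fun q => q.Coprime N),
        ∑ e ∈ q.divisors, FF X i e N (q * e) =
        ∑ q ∈ (Icc 1 Q').filter (fun q => q.Coprime N),
          ∑ e ∈ q.divisors.filter (fun e => e ≤ E0), FF X i e N (q * e) +
        ∑ q ∈ (Icc 1 Q').filter (fun q => q.Coprime N),
          ∑ e ∈ q.divisors.filter (fun e => ¬ e ≤ E0), FF X i e N (q * e) := by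
      rw [← Finset.sum_add_distrib]
      refine Finset.sum_congr rfl fun q _ => ?_
      rw [Finset.sum_filter_add_sum_filter_not]
    rw [e1]
    refine add_le_add ?_ ?_
    · refine (small_le (κ := κ) hN2X hM).trans ?_
      have e2 : ∑ e ∈ Icc 1 E0, ∑ j ∈ range (Nat.log 2 (mY ε X) + 1),
          ∑ m ∈ (Ico (2 ^ j) (2 * 2 ^ j)).filter (fun m => m.Coprime N),
            (GGm κ X i e (2 ^ j) N m + GGM κ X i e (2 ^ j) N m) =
          ∑ e ∈ Icc 1 E0, ∑ j ∈ range (Nat.log 2 (mY ε X) + 1),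
          ∑ m ∈ (Ico (2 ^ j) (2 * 2 ^ j)).filter (fun m => m.Coprime N), GGm κ X i e (2 ^ j) N m +
          ∑ e ∈ Icc 1 E0, ∑ j ∈ range (Nat.log 2 (mY ε X) + 1),
          ∑ m ∈ (Ico (2 ^ j) (2 * 2 ^ j)).filter (fun m => m.Coprime N),
            GGM κ X i e (2 ^ j) N m := by
        simp only [Finset.sum_add_distrib]
      rw [e2]
      refine add_le_add ?_ ?_
      · refine Finset.sum_le_sum fun e _ => Finset.sum_le_sum fun j _ => ?_
        exact Finset.sum_le_sum_of_subset_of_nonneg (Finset.filter_subset _ _)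
          fun m _ _ => GGm_nonneg _ _ _ _ _ _ _
      · have h5 : ∀ e ∈ Icc 1 E0, ∑ j ∈ range (Nat.log 2 (mY ε X) + 1),
            ∑ m ∈ (Ico (2 ^ j) (2 * 2 ^ j)).filter (fun m => m.Coprime N),
              GGM κ X i e (2 ^ j) N m ≤ 3 * L * (X / L ^ (A + (A + 8) + 5)) := by
          intro e he
          obtain ⟨he1, he2⟩ := Finset.mem_Icc.mp he
          have h6 : ∀ j ∈ range (Nat.log 2 (mY ε X) + 1),
              ∑ m ∈ (Ico (2 ^ j) (2 * 2 ^ j)).filter (fun m => m.Coprime N),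
                GGM κ X i e (2 ^ j) N m ≤ X / L ^ (A + (A + 8) + 5) := by
            intro j hj
            rw [Finset.mem_range] at hj
            have hP : (2 : ℕ) ^ j ≤ mY ε X := by
              calc (2 : ℕ) ^ j ≤ 2 ^ (Nat.log 2 (mY ε X)) :=
                    Nat.pow_le_pow_right (by norm_num) (by omega)
                _ ≤ mY ε X := Nat.pow_log_le_self 2 (by omega)
            have hPX : (((2 : ℕ) ^ j : ℕ) : ℝ) ≤ (X : ℝ) ^ (1 - ε) :=
              le_trans (by exact_mod_cast hP) hYX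
            have hed : (e : ℝ) ≤ L ^ (A + 8) := le_trans (by exact_mod_cast he2) hE0le
            exact hMaj (2 ^ j) Nat.one_le_two_pow hPX e he1 hed i hi
          refine (Finset.sum_le_sum h6).trans ?_
          rw [Finset.sum_const, Finset.card_range, nsmul_eq_mul]
          exact mul_le_mul_of_nonneg_right hJ (by positivity)
        refine (Finset.sum_le_sum h5).trans ?_
        rw [Finset.sum_const, Nat.card_Icc, nsmul_eq_mul, Nat.add_sub_cancel]
        exact mul_le_mul_of_nonneg_right hE0le (by positivity)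
    · have h5 := tail_le (X := X) (Q := Q') (N := N) (i := i) (E0 := E0) (L0 := L ^ (A + 8))
        (by omega) hN2X hi (by positivity) hE0lt
      have h6 : ∑ q ∈ (Icc 1 Q').filter (fun q => q.Coprime N),
          ∑ e ∈ q.divisors.filter (fun e => ¬ e ≤ E0), FF X i e N (q * e) ≤
          ∑ q ∈ Icc 1 Q', ∑ e ∈ q.divisors.filter (fun e => ¬ e ≤ E0), FF X i e N (q * e) :=
        Finset.sum_le_sum_of_subset_of_nonneg (Finset.filter_subset _ _)
          fun q _ _ => Finset.sum_nonneg fun e _ => FF_nonneg _ _ _ _ _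
      refine h6.trans (h5.trans ?_)
      apply mul_le_mul_of_nonneg_left _ (by positivity)
      exact pow_le_pow_left₀ (Hs_nonneg Q') hHs 2
  -- the minor part
  have hminor : ∑ i ∈ range 2, ∑ e ∈ Icc 1 E0, ∑ j ∈ range (Nat.log 2 (mY ε X) + 1),
        ∑ m ∈ Ico (2 ^ j) (2 * 2 ^ j), GGm κ X i e (2 ^ j) N m ≤ X * z⁻¹ := by
    refine le_trans ?_ hMn
    unfold Mn
    refine Finset.sum_le_sum fun i _ => ?_
    refine Finset.sum_le_sum_of_subset_of_nonneg (Finset.Icc_subset_Icc_right hE0mE) fun e _ _ => ?_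
    exact Finset.sum_nonneg fun j _ => Finset.sum_nonneg fun m _ => GGm_nonneg _ _ _ _ _ _ _
  have htot : ∑ q ∈ (Icc 1 Q').filter (fun q => q.Coprime N), |Pool.Agent.DEH.E g N q| ≤
      4 * L * (X * z⁻¹ + 2 * (L ^ (A + 8) * (3 * L * (X / L ^ (A + (A + 8) + 5))) +
      2 * X * (4 * L ^ 2 + 4) / L ^ (A + 8) * (3 * L) ^ 2)) := by
    refine hsumE.trans (mul_le_mul_of_nonneg_left ?_ (by positivity))
    rw [Finset.sum_range_succ, Finset.sum_range_one] at hminor ⊢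
    linarith [hsplit 0 (by norm_num), hsplit 1 le_rfl]
  -- the final comparison
  have hD := D_le_sum g N Q Q' hfl
  have hHs2 : 1 + Hs Q' ^ 2 ≤ 10 * L ^ 2 := by
    have h5 : Hs Q' ^ 2 ≤ (3 * L) ^ 2 := pow_le_pow_left₀ (Hs_nonneg Q') hHs 2
    have h6 : 1 ≤ L ^ 2 := one_le_pow₀ hL1
    nlinarith
  have hE0' : 0 ≤ ∑ q ∈ (Icc 1 Q').filter (fun q => q.Coprime N), |Pool.Agent.DEH.E g N q| :=
    Finset.sum_nonneg fun _ _ => abs_nonneg _
  have hlogN : Real.log N ≤ 2 * L := by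
    have h6 : Real.log N ≤ Real.log (2 * X) := Real.log_le_log hN0 hNr
    rw [Real.log_mul (by norm_num) hX0.ne'] at h6
    have h7 := Real.log_two_lt_d9
    linarith
  have hlogN0 : 0 < Real.log N := by
    have : L ≤ Real.log N := Real.log_le_log hX0 hXNr
    linarith
  have hgoal : (X : ℝ) / (2 ^ A * L ^ A) ≤ N / Real.log N ^ A := by
    have h5 : Real.log N ^ A ≤ 2 ^ A * L ^ A := by
      rw [← mul_pow]
      exact pow_le_pow_left₀ hlogN0.le hlogN A
    apply div_le_div₀ hN0.le hXNr (by positivity) h5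
  refine le_trans ?_ hgoal
  refine hD.trans ((mul_le_mul hHs2 htot hE0' (by positivity)).trans ?_)
  exact pdec_num hX0 hL1 hz0 h3' hbig

end Pool.Agent.MVD
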