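import Pool.Agent.MVD.PBad

/-! The exceptional set has a power saving. -/

open Finset Complex

namespace Pool.Agent.MVD

open Pool.Agent.ANT Pool.Agent.SInt

/-- The base point of `N`: keep the four leading binary digits. -/
def Xof (N : ℕ) : ℕ := N / 2 ^ (Nat.log 2 N - 3) * 2 ^ (Nat.log 2 N - 3)

theorem Xof_spec {N : ℕ} (hN : 8 ≤ N) : ∃ a m : ℕ, 8 ≤ m ∧ m < 16 ∧ Xof N = m * 2 ^ a ∧
    a + 3 = Nat.log 2 N ∧ Xof N ≤ N ∧ N ≤ Xof N + Xof N / 8 := by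
  have h3 : 3 ≤ Nat.log 2 N := by
    have := Nat.log_mono_right (b := 2) hN
    have e : Nat.log 2 8 = 3 := by
      rw [show (8 : ℕ) = 2 ^ 3 by norm_num]
      exact Nat.log_pow (by norm_num) 3
    omega
  obtain ⟨a, ha⟩ : ∃ a, Nat.log 2 N = a + 3 := ⟨Nat.log 2 N - 3, by omega⟩
  have h1 : 2 ^ (a + 3) ≤ N := by
    rw [← ha]
    exact Nat.pow_log_le_self 2 (by omega)
  have h2 : N < 2 ^ (a + 4) := by
    have := Nat.lt_pow_succ_log_self (b := 2) (by norm_num) N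
    rw [ha] at this
    exact this
  have hp : 0 < 2 ^ a := by positivity
  have e1 : Xof N = N / 2 ^ a * 2 ^ a := by
    unfold Xof
    rw [ha, Nat.add_sub_cancel]
  have h4 : 8 ≤ N / 2 ^ a := by
    rw [Nat.le_div_iff_mul_le hp]
    calc 8 * 2 ^ a = 2 ^ (a + 3) := by rw [pow_add]; ring
      _ ≤ N := h1
  have h5 : N / 2 ^ a < 16 := by
    rw [Nat.div_lt_iff_lt_mul hp]
    calc N < 2 ^ (a + 4) := h2
      _ = 16 * 2 ^ a := by rw [pow_add]; ring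
  refine ⟨a, N / 2 ^ a, h4, h5, e1, ha.symm, ?_, ?_⟩
  · rw [e1]
    exact Nat.div_mul_le_self _ _
  · rw [e1]
    have h6 : N < N / 2 ^ a * 2 ^ a + 2 ^ a := by
      have := Nat.lt_div_mul_add (a := N) hp
      exact this
    have h7 : 2 ^ a ≤ N / 2 ^ a * 2 ^ a / 8 := by
      rw [Nat.le_div_iff_mul_le (by norm_num), mul_comm (2 ^ a) 8]
      exact Nat.mul_le_mul_right _ h4
    omega

/-- The exceptional set. -/
def BB (ε κ : ℝ) : Set ℕ :=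
  {N : ℕ | (Xof N : ℝ) * (Xof N : ℝ) ^ (-(κ / 200)) < Mn ε κ (Xof N) N}

theorem BB_count {ε κ : ℝ} (hκ : 0 < κ) (hκ1 : κ ≤ 1 / 1000) (hκε : 10 * κ ≤ ε) (hε1 : ε ≤ 1) :
    ∃ Z₀ : ℕ, ∀ Z : ℕ, Z₀ ≤ Z →
    (({N : ℕ | N ∈ BB ε κ ∧ N ≤ Z}).ncard : ℝ) ≤ (Z : ℝ) ^ (1 - κ / 400) := by
  classical
  obtain ⟨X₀, hX₀⟩ := bad_window hκ hκ1 hκε hε1
  obtain ⟨Z1, h1⟩ := const_log_pow_le 48 1 (δ := κ / 400) (by positivity)
  have t2 : Filter.Tendsto (fun n : ℕ => (n : ℝ) ^ (1 - κ / 400)) Filter.atTop Filter.atTop :=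
    (tendsto_rpow_atTop (by linarith : 0 < 1 - κ / 400)).comp tendsto_natCast_atTop_atTop
  obtain ⟨Z2, h2⟩ := Filter.eventually_atTop.mp (t2.eventually_ge_atTop (2 * ((2 * X₀ + 8 : ℕ) : ℝ)))
  refine ⟨max (max Z1 Z2) 3, fun Z hZ => ?_⟩
  have hZ1 : Z1 ≤ Z := le_trans (le_trans (le_max_left _ _) (le_max_left _ _)) hZ
  have hZ2 : Z2 ≤ Z := le_trans (le_trans (le_max_right _ _) (le_max_left _ _)) hZ
  have hZ3 : 3 ≤ Z := le_trans (le_max_right _ _) hZ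
  have hZpos : (0 : ℝ) < Z := by exact_mod_cast (by omega : 0 < Z)
  have hZ1r : (1 : ℝ) ≤ Z := by exact_mod_cast (by omega : 1 ≤ Z)
  set L : ℝ := Real.log Z with hL
  have hL1 : 1 ≤ L := by
    rw [hL, Real.le_log_iff_exp_le hZpos]
    have h3 := Real.exp_one_lt_d9
    have h4 : (3 : ℝ) ≤ Z := by exact_mod_cast hZ3
    linarith
  set z : ℝ := (Z : ℝ) ^ (κ / 400) with hz
  have hz0 : 0 < z := Real.rpow_pos_of_pos hZpos _
  have hzL : 48 * L ≤ z := by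
    have := h1 Z hZ1
    rw [pow_one] at this
    exact this
  set Bset : ℕ × ℕ → Finset ℕ := fun p =>
    if X₀ ≤ p.2 * 2 ^ p.1 ∧ p.2 * 2 ^ p.1 ≤ Z then
      (Icc (p.2 * 2 ^ p.1) (p.2 * 2 ^ p.1 + p.2 * 2 ^ p.1 / 8)).filter
        (fun N => ((p.2 * 2 ^ p.1 : ℕ) : ℝ) * ((p.2 * 2 ^ p.1 : ℕ) : ℝ) ^ (-(κ / 200)) <
          Mn ε κ (p.2 * 2 ^ p.1) N)
    else ∅ with hBset
  have hcard : ∀ p, ((Bset p).card : ℝ) ≤ (Z : ℝ) ^ (1 - κ / 200) := by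
    intro p
    by_cases hp : X₀ ≤ p.2 * 2 ^ p.1 ∧ p.2 * 2 ^ p.1 ≤ Z
    · simp only [hBset]
      rw [if_pos hp]
      refine (hX₀ _ hp.1).trans ?_
      exact Real.rpow_le_rpow (Nat.cast_nonneg _) (by exact_mod_cast hp.2) (by linarith)
    · simp only [hBset]
      rw [if_neg hp]
      simp
      positivity
  have hsub : {N : ℕ | N ∈ BB ε κ ∧ N ≤ Z} ⊆ ↑(range (2 * X₀ + 8) ∪
      (range (Nat.log 2 Z + 1) ×ˢ Ico 8 16).biUnion Bset) := by
    rintro N ⟨hN, hNZ⟩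
    rw [Finset.coe_union, Set.mem_union]
    by_cases h8 : N < 2 * X₀ + 8
    · left
      exact Finset.mem_coe.mpr (Finset.mem_range.mpr h8)
    · right
      obtain ⟨a, m, hm1, hm2, e1, ha, h3, h4⟩ := Xof_spec (N := N) (by omega)
      have hN' : (Xof N : ℝ) * (Xof N : ℝ) ^ (-(κ / 200)) < Mn ε κ (Xof N) N := hN
      rw [Finset.mem_coe, Finset.mem_biUnion]
      have h5 : Nat.log 2 N ≤ Nat.log 2 Z := Nat.log_mono_right hNZ
      refine ⟨(a, m), Finset.mem_product.mpr ⟨Finset.mem_range.mpr (by omega),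
        Finset.mem_Ico.mpr ⟨hm1, hm2⟩⟩, ?_⟩
      have h6 : X₀ ≤ m * 2 ^ a ∧ m * 2 ^ a ≤ Z := by
        rw [← e1]
        constructor
        · omega
        · omega
      simp only [hBset]
      rw [if_pos h6, Finset.mem_filter, Finset.mem_Icc, ← e1]
      exact ⟨⟨h3, h4⟩, hN'⟩
  have h9 : (({N : ℕ | N ∈ BB ε κ ∧ N ≤ Z}).ncard : ℝ) ≤
      ((range (2 * X₀ + 8) ∪ (range (Nat.log 2 Z + 1) ×ˢ Ico 8 16).biUnion Bset).card : ℝ) := by
    have := Set.ncard_le_ncard hsub (Finset.finite_toSet _)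
    rw [Set.ncard_coe_finset] at this
    exact_mod_cast this
  have h10 : ((range (2 * X₀ + 8) ∪ (range (Nat.log 2 Z + 1) ×ˢ Ico 8 16).biUnion Bset).card : ℝ) ≤
      ((2 * X₀ + 8 : ℕ) : ℝ) + 3 * L * 8 * (Z : ℝ) ^ (1 - κ / 200) := by
    have h11 := Finset.card_union_le (range (2 * X₀ + 8))
      ((range (Nat.log 2 Z + 1) ×ˢ Ico 8 16).biUnion Bset)
    rw [Finset.card_range] at h11
    have h12 : (((range (Nat.log 2 Z + 1) ×ˢ Ico 8 16).biUnion Bset).card : ℝ) ≤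
        3 * L * 8 * (Z : ℝ) ^ (1 - κ / 200) := by
      have h13 : (((range (Nat.log 2 Z + 1) ×ˢ Ico 8 16).biUnion Bset).card : ℝ) ≤
          ∑ p ∈ range (Nat.log 2 Z + 1) ×ˢ Ico 8 16, ((Bset p).card : ℝ) := by
        exact_mod_cast Finset.card_biUnion_le
      refine h13.trans ((Finset.sum_le_sum fun p _ => hcard p).trans ?_)
      rw [Finset.sum_const, Finset.card_product, Finset.card_range, Nat.card_Ico, nsmul_eq_mul]
      have h14 : ((Nat.log 2 Z + 1 : ℕ) : ℝ) ≤ 3 * L := by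
        have h3 : (2 : ℝ) ^ (Nat.log 2 Z) ≤ Z := by
          exact_mod_cast Nat.pow_log_le_self 2 (by omega)
        have h4 := Real.log_le_log (by positivity) h3
        rw [Real.log_pow, ← hL] at h4
        have h5 := Real.log_two_gt_d9
        push_cast
        nlinarith [Nat.cast_nonneg (α := ℝ) (Nat.log 2 Z)]
      have h15 : (0 : ℝ) ≤ (Z : ℝ) ^ (1 - κ / 200) := by positivity
      have h16 : (((Nat.log 2 Z + 1) * (16 - 8) : ℕ) : ℝ) ≤ 3 * L * 8 := by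
        rw [show (16 - 8 : ℕ) = 8 by norm_num, Nat.cast_mul]
        push_cast at h14 ⊢
        linarith
      exact mul_le_mul_of_nonneg_right h16 h15
    have h17 : ((range (2 * X₀ + 8) ∪ (range (Nat.log 2 Z + 1) ×ˢ Ico 8 16).biUnion Bset).card : ℝ) ≤
        ((2 * X₀ + 8 : ℕ) : ℝ) + (((range (Nat.log 2 Z + 1) ×ˢ Ico 8 16).biUnion Bset).card : ℝ) := by
      exact_mod_cast h11
    linarith
  refine (h9.trans h10).trans ?_
  have h18 : (Z : ℝ) ^ (1 - κ / 200) = (Z : ℝ) ^ (1 - κ / 400) / z := by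
    rw [hz, ← Real.rpow_sub hZpos]
    congr 1
    ring
  have h19 : 2 * ((2 * X₀ + 8 : ℕ) : ℝ) ≤ (Z : ℝ) ^ (1 - κ / 400) := h2 Z hZ2
  have h20 : 3 * L * 8 * (Z : ℝ) ^ (1 - κ / 200) ≤ (Z : ℝ) ^ (1 - κ / 400) / 2 := by
    rw [h18]
    have h21 : 3 * L * 8 * ((Z : ℝ) ^ (1 - κ / 400) / z) =
        (48 * L / z) * ((Z : ℝ) ^ (1 - κ / 400) / 2) := by ring
    rw [h21]
    calc (48 * L / z) * ((Z : ℝ) ^ (1 - κ / 400) / 2) ≤ 1 * ((Z : ℝ) ^ (1 - κ / 400) / 2) := by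
          apply mul_le_mul_of_nonneg_right _ (by positivity)
          rw [div_le_one hz0]
          exact hzL
      _ = _ := one_mul _
  linarith

end Pool.Agent.MVD
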