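import Pool.Agent.MVD.PIface
import Pool.Agent.MVD.PDec
import Pool.Agent.MVD.PSet

/-! Final assembly. -/

open Finset Complex

namespace Pool.Agent.MVD

open Pool.Agent.ANT Pool.Agent.SInt Pool.Agent.DEH

open Classical in
/-- The moduli that must not divide `N` (from one base point `X`). -/
noncomputable def MX (κ : ℝ) (b X : ℕ) : Finset ℕ :=
  ((range (mR κ X + 1)).filter (fun r => BadR κ b X r)).biUnion fun r =>
    ((Icc 1 ⌊Real.log X ^ b⌋₊).filter (fun g => g ∣ r)).image (fun g => r / g)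

/-- The base points used for `N ∈ (Z, 2Z]`. -/
def XZ (Z : ℕ) : Finset ℕ := (Ioc Z (2 * Z)).image Xof

theorem XZ_card {Z : ℕ} (hZ : 8 ≤ Z) : (XZ Z).card ≤ 24 := by
  have hsub : XZ Z ⊆ (Icc (Nat.log 2 Z) (Nat.log 2 Z + 2) ×ˢ Ico 8 16).image
      (fun p => p.2 * 2 ^ (p.1 - 3)) := by
    intro x hx
    obtain ⟨N, hN, rfl⟩ := Finset.mem_image.mp hx
    obtain ⟨hN1, hN2⟩ := Finset.mem_Ioc.mp hN
    obtain ⟨a, m, hm1, hm2, e1, ha, -, -⟩ := Xof_spec (N := N) (by omega)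
    have h1 : Nat.log 2 Z ≤ Nat.log 2 N := Nat.log_mono_right hN1.le
    have h2 : Nat.log 2 N ≤ Nat.log 2 (Z * 2) := Nat.log_mono_right (by omega)
    rw [Nat.log_mul_base (by norm_num) (by omega)] at h2
    refine Finset.mem_image.mpr ⟨(a + 3, m), Finset.mem_product.mpr
      ⟨Finset.mem_Icc.mpr ⟨by omega, by omega⟩, Finset.mem_Ico.mpr ⟨hm1, hm2⟩⟩, ?_⟩
    simp [e1]
  refine (Finset.card_le_card hsub).trans (Finset.card_image_le.trans ?_)
  rw [Finset.card_product, Nat.card_Icc, Nat.card_Ico]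
  have : Nat.log 2 Z + 2 + 1 - Nat.log 2 Z = 3 := by omega
  rw [this]

theorem XZ_mem {Z X : ℕ} (hZ : 8 ≤ Z) (hX : X ∈ XZ Z) : Z ≤ 2 * X ∧ X ≤ 2 * Z := by
  obtain ⟨N, hN, rfl⟩ := Finset.mem_image.mp hX
  obtain ⟨hN1, hN2⟩ := Finset.mem_Ioc.mp hN
  obtain ⟨a, m, hm1, hm2, e1, ha, h3, h4⟩ := Xof_spec (N := N) (by omega)
  omega

/-- Powers of logarithms against `exp (c log Z / log log Z)`. -/
theorem log_pow_le_exp_loglog (b : ℕ) {c : ℝ} (hc : 0 < c) : ∃ Z₁ : ℕ, ∀ Z : ℕ, Z₁ ≤ Z →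
    (2 * Real.log Z) ^ b ≤ Real.exp (c * Real.log Z / Real.log (Real.log Z)) := by
  have tlog : Filter.Tendsto (fun n : ℕ => Real.log n) Filter.atTop Filter.atTop :=
    Real.tendsto_log_atTop.comp tendsto_natCast_atTop_atTop
  have h1 : ∀ᶠ y : ℝ in Filter.atTop, ‖Real.log y ^ 2‖ ≤ c / (2 * b + 1) * ‖id y‖ :=
    (Real.isLittleO_pow_log_id_atTop (n := 2)).def (by positivity)
  obtain ⟨Z1, h2⟩ := Filter.eventually_atTop.mp
    (tlog.eventually (h1.and (Filter.eventually_ge_atTop (3 : ℝ))))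
  refine ⟨Z1, fun Z hZ => ?_⟩
  obtain ⟨h3, h4⟩ := h2 Z hZ
  set y : ℝ := Real.log Z with hy
  have hy0 : 0 < y := by linarith
  have hl1 : 1 ≤ Real.log y := by
    rw [Real.le_log_iff_exp_le hy0]
    have := Real.exp_one_lt_d9
    linarith
  have hl0 : 0 < Real.log y := by linarith
  simp only [id, norm_pow, Real.norm_eq_abs, sq_abs, abs_of_pos hy0] at h3
  have h5 : Real.log (2 * y) ≤ 2 * Real.log y := by
    have h6 : Real.log (2 * y) ≤ Real.log (y * y) :=
      Real.log_le_log (by positivity) (by nlinarith)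
    rw [Real.log_mul hy0.ne' hy0.ne'] at h6
    linarith
  have h7 : (2 * y) ^ b = Real.exp (b * Real.log (2 * y)) := by
    rw [Real.exp_nat_mul, Real.exp_log (by positivity)]
  rw [h7]
  apply Real.exp_le_exp.mpr
  rw [le_div_iff₀ hl0]
  have hb0 : (0 : ℝ) ≤ b := Nat.cast_nonneg _
  calc (b : ℝ) * Real.log (2 * y) * Real.log y ≤ b * (2 * Real.log y) * Real.log y := by gcongr
    _ = (2 * b) * Real.log y ^ 2 := by ring
    _ ≤ (2 * b + 1) * (c / (2 * b + 1) * y) := by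
        apply mul_le_mul _ h3 (by positivity) (by positivity)
        linarith
    _ = c * y := by field_simp

theorem final {ε : ℝ} (hε : 0 < ε) : ∃ (δ : ℝ) (B : Set ℕ), 0 < δ ∧
    (∃ Z₀ : ℕ, ∀ Z : ℕ, Z₀ ≤ Z → (({N : ℕ | N ∈ B ∧ N ≤ Z}).ncard : ℝ) ≤ (Z : ℝ) ^ (1 - δ)) ∧
    ∀ A : ℕ, ∃ (C : ℕ) (c : ℝ), 0 < c ∧ ∀ A' : ℕ, ∃ Z₀ : ℕ, ∀ Z : ℕ, Z₀ ≤ Z →
      ∃ (M : Finset ℕ) (r₀ : ℕ), 0 < r₀ ∧ (M.card : ℝ) ≤ Real.log Z ^ C ∧
        (∀ r ∈ M, Real.log Z ^ A' < r ∧ (r : ℝ) ≤ (Z : ℝ) ^ ε ∧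
          (Real.exp (c * Real.log Z / Real.log (Real.log Z)) ≤ r ∨
            (r ∣ r₀ ∧ (r₀ : ℝ) ≤ r * Real.log Z ^ C))) ∧
        ∀ N : ℕ, Z < N → N ≤ 2 * Z → N ∉ B → (∀ r ∈ M, ¬ r ∣ N) → ∀ Q : ℝ,
          Q ≤ (N : ℝ) ^ (1 - ε) → D g1 N Q ≤ N / Real.log N ^ A ∧ D g2 N Q ≤ N / Real.log N ^ A := by
  classical
  set ε1 : ℝ := min ε 1 / 2 with hε1
  have hε1pos : 0 < ε1 := by
    have : 0 < min ε 1 := lt_min hε one_pos
    linarith
  have hε1half : ε1 ≤ 1 / 2 := by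
    have : min ε 1 ≤ 1 := min_le_right _ _
    linarith
  have hε1ε : 2 * ε1 ≤ ε := by
    have : min ε 1 ≤ ε := min_le_left _ _
    linarith
  set κ : ℝ := ε1 / 10000 with hκdef
  have hκ : 0 < κ := by positivity
  have hκ1 : κ ≤ 1 / 1000 := by linarith
  have hκε : 10 * κ ≤ ε1 := by linarith
  have hκε' : 10000 * κ ≤ ε1 := by linarith
  refine ⟨κ / 400, BB ε1 κ, by positivity, BB_count hκ hκ1 hκε (by linarith), fun A => ?_⟩
  obtain ⟨C₀, A1, X1, hdec⟩ := pdec hκ hκ1 hκε hε1half A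
  obtain ⟨b, X2, hmaj⟩ := majorP hκ hκ1 hκε' A1 C₀
  obtain ⟨C₁, X3, hcnt⟩ := bad_count hκ hκ1 b
  obtain ⟨c, hc, Z4, hLP⟩ := bad_LPU hκ hκ1 b
  refine ⟨C₁ + b + 1, c / 2, by positivity, fun A' => ?_⟩
  obtain ⟨X5, hSW⟩ := bad_SW hκ hκ1 b (A' + 1 + b)
  have tlog : Filter.Tendsto (fun n : ℕ => Real.log n) Filter.atTop Filter.atTop :=
    Real.tendsto_log_atTop.comp tendsto_natCast_atTop_atTop
  obtain ⟨Z6, h6⟩ := Filter.eventually_atTop.mp
    (tlog.eventually_ge_atTop (100 * 2 ^ (C₁ + b) + 2 ^ (A' + 2)))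
  -- the comparison for Landau-Page
  obtain ⟨Z7, h7⟩ : ∃ Z7 : ℕ, ∀ Z : ℕ, Z7 ≤ Z →
      (2 * Real.log Z) ^ b ≤ Real.exp (c / 2 * Real.log Z / Real.log (Real.log Z)) :=
    log_pow_le_exp_loglog b (by positivity)
  refine ⟨max (max (2 * (X1 + X2 + X3 + X5)) Z4) (max (max Z6 Z7) 10), fun Z hZ => ?_⟩
  have hZa : 2 * (X1 + X2 + X3 + X5) ≤ Z := le_trans (le_trans (le_max_left _ _) (le_max_left _ _)) hZ
  have hZ4 : Z4 ≤ Z := le_trans (le_trans (le_max_right _ _) (le_max_left _ _)) hZ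
  have hZ6 : Z6 ≤ Z :=
    le_trans (le_trans (le_trans (le_max_left _ _) (le_max_left _ _)) (le_max_right _ _)) hZ
  have hZ7 : Z7 ≤ Z :=
    le_trans (le_trans (le_trans (le_max_right _ _) (le_max_left _ _)) (le_max_right _ _)) hZ
  have hZ10 : 10 ≤ Z := le_trans (le_trans (le_max_right _ _) (le_max_right _ _)) hZ
  have hZ0 : (0 : ℝ) < Z := by exact_mod_cast (by omega : 0 < Z)
  have hZ1r : (1 : ℝ) ≤ Z := by exact_mod_cast (by omega : 1 ≤ Z)
  set L : ℝ := Real.log Z with hL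
  have hbig := h6 Z hZ6
  have h2C : (1 : ℝ) ≤ 2 ^ (C₁ + b) := one_le_pow₀ (by norm_num)
  have h2A : (1 : ℝ) ≤ 2 ^ (A' + 2) := one_le_pow₀ (by norm_num)
  have hL1 : 1 ≤ L := by linarith
  have hL0 : 0 < L := by linarith
  -- sizes of the base points
  have hlogX : ∀ X : ℕ, Z ≤ 2 * X → X ≤ 2 * Z → L / 2 ≤ Real.log X ∧ Real.log X ≤ 2 * L ∧
      1 ≤ Real.log X ∧ (0 : ℝ) < X := by
    intro X hX1 hX2
    have hX0 : (0 : ℝ) < X := by exact_mod_cast (by omega : 0 < X)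
    have h8 : (Z : ℝ) ≤ 2 * X := by exact_mod_cast hX1
    have h9 : (X : ℝ) ≤ 2 * Z := by exact_mod_cast hX2
    have h10 : L ≤ Real.log 2 + Real.log X := by
      rw [hL, ← Real.log_mul (by norm_num) hX0.ne']
      exact Real.log_le_log hZ0 h8
    have h11 : Real.log X ≤ Real.log 2 + L := by
      rw [hL, ← Real.log_mul (by norm_num) hZ0.ne']
      exact Real.log_le_log hX0 h9
    have h12 := Real.log_two_lt_d9
    refine ⟨by linarith, by linarith, by linarith, hX0⟩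
  obtain ⟨r₀, hr₀⟩ := hLP Z hZ4
  refine ⟨(XZ Z).biUnion (MX κ b), max 1 r₀, by omega, ?_, ?_, ?_⟩
  · -- cardinality
    have h8 : ∀ X ∈ XZ Z, ((MX κ b X).card : ℝ) ≤ (2 * L) ^ (C₁ + b) := by
      intro X hX
      obtain ⟨hX1, hX2⟩ := XZ_mem (by omega) hX
      obtain ⟨hl1, hl2, hl3, hX0⟩ := hlogX X hX1 hX2
      have h9 : ((MX κ b X).card : ℝ) ≤
          ∑ r ∈ (range (mR κ X + 1)).filter (fun r => BadR κ b X r),
            ((((Icc 1 ⌊Real.log X ^ b⌋₊).filter (fun g => g ∣ r)).image (fun g => r / g)).card : ℝ) := by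
        unfold MX
        exact_mod_cast Finset.card_biUnion_le
      have h10 : ∀ r ∈ (range (mR κ X + 1)).filter (fun r => BadR κ b X r),
          ((((Icc 1 ⌊Real.log X ^ b⌋₊).filter (fun g => g ∣ r)).image (fun g => r / g)).card : ℝ) ≤
            Real.log X ^ b := by
        intro r _
        have h11 : (((Icc 1 ⌊Real.log X ^ b⌋₊).filter (fun g => g ∣ r)).image
            (fun g => r / g)).card ≤ ⌊Real.log X ^ b⌋₊ := by
          refine Finset.card_image_le.trans ((Finset.card_filter_le _ _).trans ?_)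
          rw [Nat.card_Icc]
          omega
        calc _ ≤ ((⌊Real.log X ^ b⌋₊ : ℕ) : ℝ) := by exact_mod_cast h11
          _ ≤ Real.log X ^ b := Nat.floor_le (by positivity)
      refine h9.trans ((Finset.sum_le_sum h10).trans ?_)
      rw [Finset.sum_const, nsmul_eq_mul]
      have h12 := hcnt X (by omega) ((range (mR κ X + 1)).filter (fun r => BadR κ b X r))
        (fun r hr => (Finset.mem_filter.mp hr).2)
      calc _ ≤ Real.log X ^ C₁ * Real.log X ^ b :=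
            mul_le_mul_of_nonneg_right h12 (by positivity)
        _ = Real.log X ^ (C₁ + b) := (pow_add _ _ _).symm
        _ ≤ (2 * L) ^ (C₁ + b) := pow_le_pow_left₀ (by linarith) hl2 _
    have h13 : (((XZ Z).biUnion (MX κ b)).card : ℝ) ≤ ∑ X ∈ XZ Z, ((MX κ b X).card : ℝ) := by
      exact_mod_cast Finset.card_biUnion_le
    refine h13.trans ((Finset.sum_le_sum h8).trans ?_)
    rw [Finset.sum_const, nsmul_eq_mul]
    have h14 : ((XZ Z).card : ℝ) ≤ 24 := by exact_mod_cast XZ_card (Z := Z) (by omega)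
    calc ((XZ Z).card : ℝ) * (2 * L) ^ (C₁ + b) ≤ 24 * (2 * L) ^ (C₁ + b) :=
          mul_le_mul_of_nonneg_right h14 (by positivity)
      _ = (24 * 2 ^ (C₁ + b)) * L ^ (C₁ + b) := by rw [mul_pow]; ring
      _ ≤ L * L ^ (C₁ + b) := by
          apply mul_le_mul_of_nonneg_right _ (by positivity)
          linarith
      _ = L ^ (C₁ + b + 1) := by rw [pow_succ]; ring
  · -- the elements
    intro s hs
    obtain ⟨X, hX, hs⟩ := Finset.mem_biUnion.mp hs
    obtain ⟨hX1, hX2⟩ := XZ_mem (by omega) hX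
    obtain ⟨hl1, hl2, hl3, hX0⟩ := hlogX X hX1 hX2
    unfold MX at hs
    obtain ⟨r, hr, hs⟩ := Finset.mem_biUnion.mp hs
    obtain ⟨hr1, hbad⟩ := Finset.mem_filter.mp hr
    obtain ⟨g, hg, rfl⟩ := Finset.mem_image.mp hs
    obtain ⟨hg1, hgr⟩ := Finset.mem_filter.mp hg
    obtain ⟨hg2, hg3⟩ := Finset.mem_Icc.mp hg1
    have hr2 : 2 ≤ r := hbad.1
    have hrR : r ≤ mR κ X := hbad.2.1
    have hg0 : (0 : ℝ) < g := by exact_mod_cast hg2
    have hgle : (g : ℝ) ≤ Real.log X ^ b :=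
      le_trans (by exact_mod_cast hg3) (Nat.floor_le (by positivity))
    have hcast : ((r / g : ℕ) : ℝ) = (r : ℝ) / g := Nat.cast_div hgr hg0.ne'
    have hr0 : (0 : ℝ) < r := by exact_mod_cast (by omega : 0 < r)
    refine ⟨?_, ?_, ?_⟩
    · -- lower bound
      have h8 := hSW X (by omega) r hbad
      rw [hcast, lt_div_iff₀ hg0]
      have h9 : L ^ A' ≤ Real.log X ^ (A' + 1) := by
        calc L ^ A' = L ^ A' * 1 := (mul_one _).symm
          _ ≤ L ^ A' * (L / 2 ^ (A' + 1)) := by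
              apply mul_le_mul_of_nonneg_left _ (by positivity)
              rw [le_div_iff₀ (by positivity)]
              have : (2 : ℝ) ^ (A' + 1) ≤ 2 ^ (A' + 2) :=
                pow_le_pow_right₀ (by norm_num) (by omega)
              linarith
          _ = (L / 2) ^ (A' + 1) := by rw [div_pow, pow_succ L A']; ring
          _ ≤ Real.log X ^ (A' + 1) := pow_le_pow_left₀ (by positivity) hl1 _
      calc L ^ A' * g ≤ Real.log X ^ (A' + 1) * Real.log X ^ b :=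
            mul_le_mul h9 hgle hg0.le (by positivity)
        _ = Real.log X ^ (A' + 1 + b) := (pow_add _ _ _).symm
        _ < r := h8
    · -- upper bound
      have h8 : (r / g : ℕ) ≤ mR κ X := (Nat.div_le_self _ _).trans hrR
      have h9 : (mR κ X : ℝ) ≤ (X : ℝ) ^ κ := Nat.floor_le (by positivity)
      have h10 : (X : ℝ) ≤ (Z : ℝ) ^ (2 : ℝ) := by
        have h11 : (X : ℝ) ≤ 2 * Z := by exact_mod_cast hX2
        have h12 : (2 : ℝ) ≤ Z := by exact_mod_cast (by omega : 2 ≤ Z)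
        rw [Real.rpow_two]
        nlinarith
      calc ((r / g : ℕ) : ℝ) ≤ mR κ X := by exact_mod_cast h8
        _ ≤ (X : ℝ) ^ κ := h9
        _ ≤ ((Z : ℝ) ^ (2 : ℝ)) ^ κ := Real.rpow_le_rpow hX0.le h10 hκ.le
        _ = (Z : ℝ) ^ (2 * κ) := by rw [← Real.rpow_mul hZ0.le]
        _ ≤ (Z : ℝ) ^ ε := Real.rpow_le_rpow_of_exponent_le hZ1r (by linarith)
    · -- Landau-Page
      by_cases hrr : r = r₀
      · right
        have hmax : max 1 r₀ = r := by omega
        rw [hmax]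
        refine ⟨Nat.div_dvd_of_dvd hgr, ?_⟩
        have h8 : (g : ℝ) ≤ L ^ (C₁ + b + 1) := by
          calc (g : ℝ) ≤ Real.log X ^ b := hgle
            _ ≤ (2 * L) ^ b := pow_le_pow_left₀ (by linarith) hl2 _
            _ = 2 ^ b * L ^ b := by rw [mul_pow]
            _ ≤ L * L ^ b := by
                apply mul_le_mul_of_nonneg_right _ (by positivity)
                have : (2 : ℝ) ^ b ≤ 2 ^ (C₁ + b) := pow_le_pow_right₀ (by norm_num) (by omega)
                linarith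
            _ = L ^ (b + 1) := by rw [pow_succ]; ring
            _ ≤ L ^ (C₁ + b + 1) := pow_le_pow_right₀ hL1 (by omega)
        have h9 : (r : ℝ) = (r / g : ℕ) * g := by
          rw [hcast]
          field_simp
        rw [h9]
        exact mul_le_mul_of_nonneg_left h8 (Nat.cast_nonneg _)
      · left
        have h8 := hr₀ X hX1 hX2 r hbad hrr
        rw [hcast, le_div_iff₀ hg0]
        have h9 := h7 Z hZ7
        rw [← hL] at h8 h9
        calc Real.exp (c / 2 * L / Real.log L) * g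
            ≤ Real.exp (c / 2 * L / Real.log L) * Real.exp (c / 2 * L / Real.log L) := by
              apply mul_le_mul_of_nonneg_left _ (Real.exp_pos _).le
              refine hgle.trans (le_trans ?_ h9)
              exact pow_le_pow_left₀ (by linarith) hl2 _
          _ = Real.exp (c * L / Real.log L) := by
              rw [← Real.exp_add]
              congr 1
              ring
          _ ≤ r := h8
  · -- the conclusion
    intro N hN1 hN2 hNB hdiv Q hQ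
    obtain ⟨a, m, hm1, hm2, e1, ha, h3, h4⟩ := Xof_spec (N := N) (by omega)
    set X := Xof N with hXdef
    have hXZ : X ∈ XZ Z := Finset.mem_image.mpr ⟨N, Finset.mem_Ioc.mpr ⟨hN1, hN2⟩, rfl⟩
    obtain ⟨hX1, hX2⟩ := XZ_mem (by omega) hXZ
    obtain ⟨hl1, hl2, hl3, hX0⟩ := hlogX X hX1 hX2
    have hX8 : 8 ≤ X := by
      have h5 : 1 ≤ 2 ^ a := Nat.one_le_two_pow
      rw [e1]
      nlinarith
    have hMn : Mn ε1 κ X N ≤ (X : ℝ) * (X : ℝ) ^ (-(κ / 200)) := by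
      by_contra h5
      exact hNB (not_le.mp h5)
    have hNI : N ∈ Ioo (X - mW X) (X + mW X) := by
      rw [Finset.mem_Ioo]
      unfold mW
      omega
    have hbadr : ∀ r : ℕ, BadR κ b X r → Real.log X ^ b < ((r / Nat.gcd N r : ℕ) : ℝ) := by
      intro r hr
      by_contra h5
      rw [not_lt] at h5
      have hr2 : 2 ≤ r := hr.1
      have hgd : Nat.gcd N r ∣ r := Nat.gcd_dvd_right _ _
      have hgpos : 0 < Nat.gcd N r := Nat.gcd_pos_of_pos_right _ (by omega)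
      have hq1 : 1 ≤ r / Nat.gcd N r :=
        (Nat.one_le_div_iff hgpos).mpr (Nat.le_of_dvd (by omega) hgd)
      have hmem : Nat.gcd N r ∈ (XZ Z).biUnion (MX κ b) := by
        refine Finset.mem_biUnion.mpr ⟨X, hXZ, ?_⟩
        unfold MX
        refine Finset.mem_biUnion.mpr ⟨r, Finset.mem_filter.mpr
          ⟨Finset.mem_range.mpr (by have := hr.2.1; omega), hr⟩, ?_⟩
        refine Finset.mem_image.mpr ⟨r / Nat.gcd N r, Finset.mem_filter.mpr
          ⟨Finset.mem_Icc.mpr ⟨hq1, Nat.le_floor h5⟩, Nat.div_dvd_of_dvd hgd⟩, ?_⟩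
        exact Nat.div_div_self hgd (by omega)
      exact hdiv _ hmem (Nat.gcd_dvd_left _ _)
    have hM := hmaj X (by omega) N hNI hbadr
    have hNr1 : (1 : ℝ) ≤ N := by exact_mod_cast (by omega : 1 ≤ N)
    have hQ' : Q ≤ (N : ℝ) ^ (1 - 2 * ε1) :=
      hQ.trans (Real.rpow_le_rpow_of_exponent_le hNr1 (by linarith))
    exact ⟨hdec X (by omega) N h3 h4 hMn hM g1 (Or.inl rfl) Q hQ',
      hdec X (by omega) N h3 h4 hMn hM g2 (Or.inr rfl) Q hQ'⟩

end Pool.Agent.MVD
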