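import Pool.Agent.MVD.Major
import Pool.Agent.MVD.BadIface

/-! The major arc part in the form used by the final assembly. -/

open Finset Complex

namespace Pool.Agent.MVD

open Pool.Agent.ANT Pool.Agent.SInt

/-- The major arc part. -/
theorem majorP {ε κ : ℝ} (hκ : 0 < κ) (hκ1 : κ ≤ 1 / 1000) (hκε : 10000 * κ ≤ ε)
    (A C₀ : ℕ) : ∃ b X₀ : ℕ, ∀ X : ℕ, X₀ ≤ X → ∀ N : ℕ, N ∈ Ioo (X - mW X) (X + mW X) →
    (∀ r : ℕ, BadR κ b X r → Real.log X ^ b < ((r / Nat.gcd N r : ℕ) : ℝ)) →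
    ∀ Q : ℕ, 1 ≤ Q → (Q : ℝ) ≤ (X : ℝ) ^ (1 - ε) → ∀ e : ℕ, 1 ≤ e → (e : ℝ) ≤ Real.log X ^ C₀ →
      ∀ i : ℕ, i ≤ 1 → ∑ q ∈ (Ico Q (2 * Q)).filter (fun q => q.Coprime N),
        ‖EG (fun _ => cc e i) (KK X Q) (MJ X (mR κ X) (mD κ X)) N q‖ ≤ X / Real.log X ^ A := by
  obtain ⟨b, X₀, h⟩ := major hκ hκ1 (by linarith : 20 * κ ≤ ε) A C₀
  refine ⟨b, X₀, fun X hX N hN hbad Q hQ hQX e he heC i hi => ?_⟩
  have hN' := Finset.mem_Ioo.mp hN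
  have h1 : 4 * X < Q * (4 * X / Q + 1) := Nat.lt_mul_div_succ _ hQ
  have h2 : mW X ≤ X := by
    unfold mW
    omega
  have h3 : N ≤ Q * KK X Q := by
    unfold KK
    omega
  exact h X hX N hN'.1 hN'.2 hbad Q (KK X Q) hQ hQX h3 e he heC i hi

end Pool.Agent.MVD
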