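import Pool.Agent.MVD.Defs
import Pool.Agent.MVD.MinOne
import Pool.Agent.MVD.MinMed

/-! Minor arcs with a power saving. -/

open Finset Complex
open scoped ArithmeticFunction.Moebius ArithmeticFunction.vonMangoldt

namespace Pool.Agent.MVD

open Pool.Agent.ANT Pool.Agent.SInt

/-- Sizes of the parameters in terms of `x = X^{κ/20}`. -/
theorem pfacts {κ : ℝ} (hκ : 0 < κ) (hκ1 : κ ≤ 1 / 1000) (C : ℝ) (a : ℕ) :
    ∃ X₀ : ℕ, ∀ X : ℕ, X₀ ≤ X → ∃ x : ℝ, x = (X : ℝ) ^ (κ / 20) ∧ 100 ≤ x ∧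
      64 ≤ Real.log X ∧ C * Real.log X ^ a ≤ x ∧ x ^ 1000 ≤ X ∧ x ^ 20 / 2 ≤ mR κ X ∧
      (mR κ X : ℝ) ≤ x ^ 20 ∧ X ≤ 5 * mW X ∧ 4 * mW X ≤ X ∧ 1 ≤ mW X ∧ 1 ≤ mR κ X ∧
      mR κ X ^ 4 ≤ mD κ X ∧ mD κ X * mR κ X ^ 2 ≤ mW X ∧ mD κ X * mR κ X ^ 4 ≤ mW X := by
  obtain ⟨X1, h1⟩ := const_log_pow_le C a (δ := κ / 20) (by positivity)
  have t1 : Filter.Tendsto (fun n : ℕ => Real.log n) Filter.atTop Filter.atTop :=
    Real.tendsto_log_atTop.comp tendsto_natCast_atTop_atTop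
  have t2 : Filter.Tendsto (fun n : ℕ => (n : ℝ) ^ (κ / 20)) Filter.atTop Filter.atTop :=
    (tendsto_rpow_atTop (by positivity : 0 < κ / 20)).comp tendsto_natCast_atTop_atTop
  obtain ⟨X2, h2⟩ := Filter.eventually_atTop.mp (t1.eventually_ge_atTop 64)
  obtain ⟨X3, h3⟩ := Filter.eventually_atTop.mp (t2.eventually_ge_atTop 100)
  refine ⟨max (max X1 X2) (max X3 100), fun X hX => ?_⟩
  have hXa : X1 ≤ X := le_trans (le_trans (le_max_left _ _) (le_max_left _ _)) hX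
  have hXb : X2 ≤ X := le_trans (le_trans (le_max_right _ _) (le_max_left _ _)) hX
  have hXc : X3 ≤ X := le_trans (le_trans (le_max_left _ _) (le_max_right _ _)) hX
  have hXd : 100 ≤ X := le_trans (le_trans (le_max_right _ _) (le_max_right _ _)) hX
  have hX0 : (0 : ℝ) < X := by exact_mod_cast (by omega : 0 < X)
  have hX1 : (1 : ℝ) ≤ X := by exact_mod_cast (by omega : 1 ≤ X)
  set x : ℝ := (X : ℝ) ^ (κ / 20) with hx
  have hx100 : 100 ≤ x := h3 X hXc
  have hxk : x ^ 20 = (X : ℝ) ^ κ := by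
    rw [hx, ← Real.rpow_natCast, ← Real.rpow_mul hX0.le]
    congr 1
    push_cast
    ring
  have hx1000 : x ^ 1000 ≤ X := by
    rw [hx, ← Real.rpow_natCast, ← Real.rpow_mul hX0.le]
    calc (X : ℝ) ^ (κ / 20 * ((1000 : ℕ) : ℝ)) ≤ (X : ℝ) ^ (1 : ℝ) :=
          Real.rpow_le_rpow_of_exponent_le hX1 (by push_cast; linarith)
      _ = X := Real.rpow_one _
  have hR2 : (mR κ X : ℝ) ≤ x ^ 20 := by
    rw [hxk]
    exact Nat.floor_le (by positivity)
  have hx20 : (2 : ℝ) ≤ x ^ 20 := by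
    calc (2 : ℝ) ≤ x := by linarith
      _ = x ^ 1 := (pow_one _).symm
      _ ≤ x ^ 20 := pow_le_pow_right₀ (by linarith) (by norm_num)
  have hR1 : x ^ 20 / 2 ≤ mR κ X := by
    have h5 := Nat.lt_floor_add_one ((X : ℝ) ^ κ)
    rw [← hxk] at h5
    have h6 : (⌊x ^ 20⌋₊ : ℝ) = mR κ X := by
      unfold mR
      rw [hxk]
    rw [h6] at h5
    linarith
  have hR1' : 1 ≤ mR κ X := by
    have : (1 : ℝ) ≤ mR κ X := by linarith
    exact_mod_cast this
  have hW5 : X ≤ 5 * mW X := by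
    unfold mW
    omega
  have hW4 : 4 * mW X ≤ X := by
    unfold mW
    omega
  have hW1 : 1 ≤ mW X := by
    unfold mW
    omega
  have hR8 : mR κ X ^ 8 ≤ mW X := by
    have h7 : ((mR κ X ^ 8 : ℕ) : ℝ) ≤ mW X := by
      push_cast
      have h8 : (X : ℝ) ≤ 5 * mW X := by exact_mod_cast hW5
      have h9 : (mR κ X : ℝ) ^ 8 ≤ x ^ 160 := by
        calc (mR κ X : ℝ) ^ 8 ≤ (x ^ 20) ^ 8 := pow_le_pow_left₀ (Nat.cast_nonneg _) hR2 8
          _ = x ^ 160 := by rw [← pow_mul]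
      have h10 : 5 * x ^ 160 ≤ x ^ 1000 := by
        have h11 : (5 : ℝ) ≤ x ^ 840 := by
          calc (5 : ℝ) ≤ x := by linarith
            _ = x ^ 1 := (pow_one _).symm
            _ ≤ x ^ 840 := pow_le_pow_right₀ (by linarith) (by norm_num)
        calc 5 * x ^ 160 ≤ x ^ 840 * x ^ 160 := by gcongr
          _ = x ^ 1000 := by rw [← pow_add]
      linarith
    exact_mod_cast h7
  have hD1 : mR κ X ^ 4 ≤ mD κ X := by
    unfold mD
    rw [Nat.le_div_iff_mul_le (by positivity), ← pow_add]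
    exact hR8
  have hD2 : mD κ X * mR κ X ^ 4 ≤ mW X := Nat.div_mul_le_self _ _
  have hD3 : mD κ X * mR κ X ^ 2 ≤ mW X :=
    le_trans (Nat.mul_le_mul_left _ (Nat.pow_le_pow_right hR1' (by norm_num))) hD2
  exact ⟨x, rfl, hx100, h2 X hXb, h1 X hXa, hx1000, hR1, hR2, hW5, hW4, hW1, hR1', hD1, hD3, hD2⟩

/-- The minor arc estimate with a power saving. -/
theorem minorP {ε κ : ℝ} (hκ : 0 < κ) (hκ1 : κ ≤ 1 / 1000) (hκε : 10 * κ ≤ ε) : ∃ X₀ : ℕ, ∀ X : ℕ,
    X₀ ≤ X → ∀ Q : ℕ, 1 ≤ Q → (Q : ℝ) ≤ (X : ℝ) ^ (1 - ε) → ∀ d : ℕ, 1 ≤ d →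
    (d : ℝ) ≤ (X : ℝ) ^ (κ / 20) → ∀ i : ℕ, i ≤ 1 →
    TT (mW X) X (Ico Q (2 * Q)) (fun _ => cc d i) (KK X Q) (fmin X (mR κ X) (mD κ X)) ≤
      (X : ℝ) ^ 3 / Q * (X : ℝ) ^ (-(κ / 20)) := by
  obtain ⟨C, hC1, hone⟩ := minOne
  obtain ⟨X1, h1⟩ := pfacts hκ hκ1 (10 ^ 7 * C) 14
  refine ⟨X1, fun X hX Q hQ1 hQX d hd1 hdX i hi => ?_⟩
  obtain ⟨x, hx, hx100, hL64, hCL, hx1000, hR1, hR2, hW5, hW4, hW1, hR1', hD1, hD3, -⟩ := h1 X hX
  set L := Real.log X with hLdef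
  set R := mR κ X with hRdef
  set W := mW X with hWdef
  set D := mD κ X with hDdef
  have hL1 : 1 ≤ L := by linarith
  have hL0 : 0 < L := by linarith
  have hC0 : 0 < C := by linarith
  have hx0 : 0 < x := by linarith
  have hx1 : 1 ≤ x := by linarith
  have hxp : ∀ {m n : ℕ}, m ≤ n → x ^ m ≤ x ^ n := fun h => pow_le_pow_right₀ hx1 h
  have hXpos : 0 < X := by
    rcases Nat.eq_zero_or_pos X with h | h
    · omega
    · exact h
  have hX0 : (0 : ℝ) < X := by exact_mod_cast hXpos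
  have hX1 : (1 : ℝ) ≤ X := by exact_mod_cast hXpos
  have hW5r : (X : ℝ) ≤ 5 * W := by exact_mod_cast hW5
  have hW4r : (4 : ℝ) * W ≤ X := by exact_mod_cast hW4
  have hW0 : (0 : ℝ) < W := by exact_mod_cast hW1
  have hQ1r : (1 : ℝ) ≤ Q := by exact_mod_cast hQ1
  have hQ0 : (0 : ℝ) < Q := by linarith
  have hR0 : (0 : ℝ) < R := by exact_mod_cast hR1'
  -- `x⁻¹`
  have hxinv : (X : ℝ) ^ (-(κ / 20)) = x⁻¹ := by rw [Real.rpow_neg hX0.le, hx]
  -- bound of `Q`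
  have hQx : (Q : ℝ) * x ^ 200 ≤ X := by
    have h2 : (X : ℝ) ^ (1 - ε) ≤ (X : ℝ) ^ (1 - 10 * κ) :=
      Real.rpow_le_rpow_of_exponent_le hX1 (by linarith)
    have h3 : x ^ 200 = (X : ℝ) ^ (10 * κ) := by
      rw [hx, ← Real.rpow_natCast, ← Real.rpow_mul hX0.le]
      congr 1
      push_cast
      ring
    calc (Q : ℝ) * x ^ 200 ≤ (X : ℝ) ^ (1 - 10 * κ) * (X : ℝ) ^ (10 * κ) := by
          rw [h3]
          exact mul_le_mul_of_nonneg_right (hQX.trans h2) (by positivity)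
      _ = X := by
          rw [← Real.rpow_add hX0]
          have : 1 - 10 * κ + 10 * κ = 1 := by ring
          rw [this, Real.rpow_one]
  -- the parameter P
  set P := ⌊x ^ 2⌋₊ with hPdef
  have hP2 : (P : ℝ) ≤ x ^ 2 := Nat.floor_le (by positivity)
  have hP1 : x ^ 2 / 2 ≤ P := by
    have h2 := Nat.lt_floor_add_one (x ^ 2)
    rw [← hPdef] at h2
    nlinarith
  have hPr1 : (1 : ℝ) ≤ P := by nlinarith
  have hPpos : 1 ≤ P := by exact_mod_cast hPr1
  have hP0 : (0 : ℝ) < P := by linarith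
  have hPR : P ≤ R := by
    have : (P : ℝ) ≤ R := by
      have h2 : x ^ 2 ≤ x ^ 20 / 2 := by
        have h3 : 2 * x ^ 2 ≤ x * x ^ 2 := by
          apply mul_le_mul_of_nonneg_right (by linarith) (by positivity)
        have h4 : x * x ^ 2 = x ^ 3 := by ring
        have h5 : x ^ 3 ≤ x ^ 20 := hxp (by norm_num)
        linarith
      linarith
    exact_mod_cast this
  -- KK
  have hKn : KK X Q * Q ≤ 4 * X + Q := by
    unfold KK
    rw [add_mul, one_mul]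
    have := Nat.div_mul_le_self (4 * X) Q
    omega
  have hQK : 4 * X < Q * KK X Q := Nat.lt_mul_div_succ (4 * X) (by omega)
  have hQleX : (Q : ℝ) ≤ X := by
    calc (Q : ℝ) = Q * 1 := (mul_one _).symm
      _ ≤ Q * x ^ 200 := by
          apply mul_le_mul_of_nonneg_left (one_le_pow₀ hx1) hQ0.le
      _ ≤ X := hQx
  have hQleXn : Q ≤ X := by exact_mod_cast hQleX
  have hKr : (KK X Q : ℝ) ≤ 5 * X := by
    have h2 : KK X Q ≤ KK X Q * Q := Nat.le_mul_of_pos_right _ (by omega)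
    have h3 : KK X Q ≤ 5 * X := by omega
    exact_mod_cast h3
  rw [hxinv]
  by_cases hQs : (Q : ℝ) ≤ x ^ 4
  · -- small moduli
    have hlow : ∀ q ∈ Ico Q (2 * Q), TT W X {q} (fun _ => cc d i) (KK X Q) (fmin X R D) ≤
        C * L ^ 14 * (P * (W * X) + (P : ℝ) ^ 8 * d ^ 2 * (W * X ^ 2 / Q) / R ^ 2 +
          W * X ^ 2 / (Q ^ 2 * P)) := by
      intro q hq
      rw [mem_Ico] at hq
      have hXW2 : X ≤ W ^ 2 := by
        have h2 : (X : ℝ) ≤ (W : ℝ) ^ 2 := by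
          have h3 : (5 : ℝ) ≤ W := by
            have h4 : x ^ 1 ≤ x ^ 1000 := hxp (by norm_num)
            rw [pow_one] at h4
            linarith
          nlinarith
        exact_mod_cast h2
      have hUX : 2 * P ≤ X := by
        have h2 : (2 : ℝ) * P ≤ X := by
          have h3 : 2 * x ^ 2 ≤ x * x ^ 2 := by
            apply mul_le_mul_of_nonneg_right (by linarith) (by positivity)
          have h4 : x * x ^ 2 = x ^ 3 := by ring
          have h5 : x ^ 3 ≤ x ^ 1000 := hxp (by norm_num)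
          linarith
        exact_mod_cast h2
      have hq2r : (q : ℝ) ≤ 2 * x ^ 4 := by
        have h2 : (q : ℝ) ≤ (2 * Q : ℕ) := by exact_mod_cast hq.2.le
        push_cast at h2
        linarith
      have hUR : q * (2 * P * (2 * P) * d) ≤ R := by
        have h2 : ((q * (2 * P * (2 * P) * d) : ℕ) : ℝ) ≤ R := by
          push_cast
          rw [← hx] at hdX
          calc (q : ℝ) * (2 * P * (2 * P) * d) ≤ (2 * x ^ 4) * (2 * x ^ 2 * (2 * x ^ 2) * x) := by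
                gcongr
            _ = 8 * x ^ 9 := by ring
            _ ≤ x ^ 20 / 2 := by
                have h3 : 16 * x ^ 9 ≤ x * x ^ 9 := by
                  apply mul_le_mul_of_nonneg_right (by linarith) (by positivity)
                have h4 : x * x ^ 9 = x ^ 10 := by ring
                have h5 : x ^ 10 ≤ x ^ 20 := hxp (by norm_num)
                linarith
            _ ≤ R := hR1
        exact_mod_cast h2
      have hUK : 2 * P ≤ KK X Q := by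
        have h2 : (Q : ℝ) * (2 * P : ℕ) ≤ Q * KK X Q := by
          have h3 : (4 * X : ℝ) ≤ Q * KK X Q := by exact_mod_cast hQK.le
          have h4 : (Q : ℝ) * (2 * P : ℕ) ≤ x ^ 4 * (2 * x ^ 2) := by
            push_cast
            gcongr
          have h5 : x ^ 4 * (2 * x ^ 2) = 2 * x ^ 6 := by ring
          have h6 : x ^ 6 ≤ x ^ 1000 := hxp (by norm_num)
          linarith
        have h7 : ((2 * P : ℕ) : ℝ) ≤ KK X Q := le_of_mul_le_mul_left h2 hQ0
        exact_mod_cast h7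
      have hRM : R * Nat.sqrt (KK X Q) ≤ W := by
        have h2 : (Nat.sqrt (KK X Q) : ℝ) ^ 2 ≤ KK X Q := by
          rw [sq]; exact_mod_cast Nat.sqrt_le (KK X Q)
        have h3 : ((R : ℝ) * Nat.sqrt (KK X Q)) ^ 2 ≤ (W : ℝ) ^ 2 := by
          calc ((R : ℝ) * Nat.sqrt (KK X Q)) ^ 2 = (R : ℝ) ^ 2 * (Nat.sqrt (KK X Q) : ℝ) ^ 2 := by
                ring
            _ ≤ (x ^ 20) ^ 2 * (5 * X) := by
                refine mul_le_mul ?_ (h2.trans hKr) (by positivity) (by positivity)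
                exact pow_le_pow_left₀ (Nat.cast_nonneg _) hR2 2
            _ = 5 * x ^ 40 * X := by ring
            _ ≤ (X / 25) * X := by
                apply mul_le_mul_of_nonneg_right _ hX0.le
                have h4 : 125 * x ^ 40 ≤ x * x * x ^ 40 := by
                  apply mul_le_mul_of_nonneg_right (by nlinarith) (by positivity)
                have h5 : x * x * x ^ 40 = x ^ 42 := by ring
                have h6 : x ^ 42 ≤ x ^ 1000 := hxp (by norm_num)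
                linarith
            _ = (X / 5) ^ 2 := by ring
            _ ≤ (W : ℝ) ^ 2 := pow_le_pow_left₀ (by positivity) (by linarith) 2
        have h4 : (R : ℝ) * Nat.sqrt (KK X Q) ≤ W := le_of_sq_le_sq h3 (Nat.cast_nonneg _)
        exact_mod_cast h4
      exact hone X W R D q Q P d i hL64 hW1 hW4 hXW2 hR1' hD1 hD3 hQ1 hQleXn hq.1 hq.2 hPpos hUX hd1
        hUR hUK hRM hi
    rw [TT_eq_sum]
    have hsum : ∑ q ∈ Ico Q (2 * Q), TT W X {q} (fun _ => cc d i) (KK X Q) (fmin X R D) ≤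
        Q * (C * L ^ 14 * (P * (W * X) + (P : ℝ) ^ 8 * d ^ 2 * (W * X ^ 2 / Q) / R ^ 2 +
          W * X ^ 2 / (Q ^ 2 * P))) := by
      refine (Finset.sum_le_sum hlow).trans (le_of_eq ?_)
      rw [Finset.sum_const, Nat.card_Ico, nsmul_eq_mul, show 2 * Q - Q = Q by omega]
    refine hsum.trans ?_
    rw [← hx] at hdX
    have hM : 10 ^ 7 * (C * L ^ 14) ≤ x := by linarith
    have hM0 : 0 < C * L ^ 14 := by positivity
    -- the three terms
    have c1 : (Q : ℝ) * (P * (W * X)) ≤ x⁻¹ * (X ^ 3 / Q * x⁻¹) := by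
      have h2 : (Q : ℝ) * Q * (x * x) * P ≤ X := by
        calc (Q : ℝ) * Q * (x * x) * P ≤ x ^ 4 * x ^ 4 * (x * x) * x ^ 2 := by gcongr
          _ = x ^ 12 := by ring
          _ ≤ x ^ 1000 := hxp (by norm_num)
          _ ≤ X := hx1000
      have h3 : (W : ℝ) ≤ X := by linarith
      have h4 : x⁻¹ * (X ^ 3 / Q * x⁻¹) = (X : ℝ) ^ 3 / (Q * (x * x)) := by
        field_simp
      rw [h4, le_div_iff₀ (by positivity)]
      calc (Q : ℝ) * (P * (W * X)) * (Q * (x * x)) = (Q * Q * (x * x) * P) * (W * X) := by ring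
        _ ≤ X * (X * X) := by gcongr
        _ = (X : ℝ) ^ 3 := by ring
    have c2 : (Q : ℝ) * ((P : ℝ) ^ 8 * d ^ 2 * (W * X ^ 2 / Q) / R ^ 2) ≤
        x⁻¹ * (X ^ 3 / Q * x⁻¹) := by
      have h4 : x⁻¹ * (X ^ 3 / Q * x⁻¹) = (X : ℝ) ^ 3 / (Q * (x * x)) := by
        field_simp
      have h5 : (Q : ℝ) * ((P : ℝ) ^ 8 * d ^ 2 * (W * X ^ 2 / Q) / R ^ 2) =
          (P : ℝ) ^ 8 * d ^ 2 * (W * X ^ 2) / R ^ 2 := by
        field_simp
      rw [h4, h5, div_le_div_iff₀ (by positivity) (by positivity)]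
      have h6 : (x ^ 20 / 2) ^ 2 ≤ (R : ℝ) ^ 2 := pow_le_pow_left₀ (by positivity) hR1 2
      calc (P : ℝ) ^ 8 * d ^ 2 * (W * X ^ 2) * (Q * (x * x))
          ≤ (x ^ 2) ^ 8 * x ^ 2 * (X / 4 * X ^ 2) * (x ^ 4 * (x * x)) := by
            gcongr
            linarith
        _ = X ^ 3 * (x ^ 24 / 4) := by ring
        _ ≤ X ^ 3 * ((x ^ 20 / 2) ^ 2) := by
            apply mul_le_mul_of_nonneg_left _ (by positivity)
            have h7 : x ^ 24 ≤ x ^ 40 := hxp (by norm_num)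
            have h8 : (x ^ 20 / 2) ^ 2 = x ^ 40 / 4 := by ring
            rw [h8]
            linarith
        _ ≤ X ^ 3 * (R : ℝ) ^ 2 := by gcongr
    have c3 : (Q : ℝ) * (W * X ^ 2 / (Q ^ 2 * P)) ≤ x⁻¹ * (X ^ 3 / Q * x⁻¹) := by
      have h4 : x⁻¹ * (X ^ 3 / Q * x⁻¹) = (X : ℝ) ^ 3 / (Q * (x * x)) := by
        field_simp
      have h5 : (Q : ℝ) * (W * X ^ 2 / (Q ^ 2 * P)) = W * X ^ 2 / (Q * P) := by
        field_simp
      rw [h4, h5, div_le_div_iff₀ (by positivity) (by positivity)]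
      have hxx : x * x ≤ 2 * (P : ℝ) := by
        have : x * x = x ^ 2 := by ring
        linarith
      have hW' : (W : ℝ) ≤ (X : ℝ) / 4 := by linarith
      calc (W : ℝ) * (X : ℝ) ^ 2 * ((Q : ℝ) * (x * x))
          ≤ ((X : ℝ) / 4) * (X : ℝ) ^ 2 * ((Q : ℝ) * (2 * (P : ℝ))) :=
            mul_le_mul (mul_le_mul_of_nonneg_right hW' (by positivity))
              (mul_le_mul_of_nonneg_left hxx hQ0.le) (by positivity) (by positivity)
        _ = (X : ℝ) ^ 3 * ((Q : ℝ) * P) / 2 := by ring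
        _ ≤ (X : ℝ) ^ 3 * ((Q : ℝ) * P) := by
            have : 0 ≤ (X : ℝ) ^ 3 * ((Q : ℝ) * P) := by positivity
            linarith
    have hE : (0 : ℝ) ≤ X ^ 3 / Q * x⁻¹ := by positivity
    calc (Q : ℝ) * (C * L ^ 14 * (P * (W * X) + (P : ℝ) ^ 8 * d ^ 2 * (W * X ^ 2 / Q) / R ^ 2 +
          W * X ^ 2 / (Q ^ 2 * P)))
        = C * L ^ 14 * (Q * (P * (W * X)) + Q * ((P : ℝ) ^ 8 * d ^ 2 * (W * X ^ 2 / Q) / R ^ 2) +
          Q * (W * X ^ 2 / (Q ^ 2 * P))) := by ring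
      _ ≤ C * L ^ 14 * (x⁻¹ * (X ^ 3 / Q * x⁻¹) + x⁻¹ * (X ^ 3 / Q * x⁻¹) +
          x⁻¹ * (X ^ 3 / Q * x⁻¹)) := by gcongr
      _ = (3 * (C * L ^ 14) * x⁻¹) * (X ^ 3 / Q * x⁻¹) := by ring
      _ ≤ 1 * (X ^ 3 / Q * x⁻¹) := by
          apply mul_le_mul_of_nonneg_right _ hE
          rw [← div_eq_mul_inv, div_le_one hx0]
          linarith
      _ = X ^ 3 / Q * x⁻¹ := one_mul _
  · -- medium moduli
    push Not at hQs
    have hPQ : P ≤ Q := by
      have : (P : ℝ) ≤ Q := by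
        have h5 : x ^ 2 ≤ x ^ 4 := hxp (by norm_num)
        linarith
      exact_mod_cast this
    have hPQW : P * Q ≤ W := by
      have h2 : ((P * Q : ℕ) : ℝ) ≤ W := by
        push_cast
        have h3 : 5 * ((P : ℝ) * Q) ≤ X := by
          calc 5 * ((P : ℝ) * Q) ≤ x * (x ^ 2 * Q) := by
                gcongr
                linarith
            _ = Q * x ^ 3 := by ring
            _ ≤ Q * x ^ 200 := by
                apply mul_le_mul_of_nonneg_left (hxp (by norm_num)) hQ0.le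
            _ ≤ X := hQx
        linarith
      exact_mod_cast h2
    have hcoef : ∀ k ∈ Icc 1 (KK X Q), ‖cc d i k‖ ≤ 2 * Real.log X := by
      intro k hk
      rw [Finset.mem_Icc] at hk
      have hk1 : (0 : ℝ) < k := by exact_mod_cast hk.1
      have hk2 : (k : ℝ) ≤ 5 * X := by
        calc (k : ℝ) ≤ (KK X Q : ℝ) := by exact_mod_cast hk.2
          _ ≤ 5 * X := hKr
      have h6 : Real.log k ≤ Real.log 5 + Real.log X := by
        rw [← Real.log_mul (by norm_num) hX0.ne']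
        exact Real.log_le_log hk1 hk2
      have h7 : Real.log 5 ≤ 5 - 1 := Real.log_le_sub_one_of_pos (by norm_num)
      have h8 := norm_cc_le (d := d) (i := i) (k := k) hi
      rw [← hLdef] at h6 ⊢
      linarith
    refine (minMed hL1 hW1 hW4 hR1' hD1 hD3 hPpos hPQ hPQW hPR (cc d i) hcoef).trans ?_
    rw [← hLdef]
    have hM : 10 ^ 7 * L ^ 4 ≤ x := by
      calc 10 ^ 7 * L ^ 4 ≤ 10 ^ 7 * L ^ 14 :=
            mul_le_mul_of_nonneg_left (pow_le_pow_right₀ hL1 (by norm_num)) (by norm_num)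
        _ = 10 ^ 7 * 1 * L ^ 14 := by ring
        _ ≤ 10 ^ 7 * C * L ^ 14 := by gcongr
        _ ≤ x := hCL
    have h2 : (W : ℝ) * X ^ 2 / Q ≤ X ^ 3 / Q / 4 := by
      rw [div_div, div_le_div_iff₀ hQ0 (by positivity)]
      calc (W : ℝ) * (X : ℝ) ^ 2 * ((Q : ℝ) * 4) = (4 * (W : ℝ)) * ((X : ℝ) ^ 2 * (Q : ℝ)) := by ring
        _ ≤ (X : ℝ) * ((X : ℝ) ^ 2 * (Q : ℝ)) := by gcongr
        _ = (X : ℝ) ^ 3 * (Q : ℝ) := by ring
    calc 10 ^ 7 * L ^ 4 * (W * X ^ 2 / Q) / P ≤ x * (X ^ 3 / Q / 4) / (x ^ 2 / 2) := by gcongr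
      _ = X ^ 3 / Q * x⁻¹ / 2 := by
          field_simp
          ring
      _ ≤ X ^ 3 / Q * x⁻¹ := by
          have : (0 : ℝ) ≤ X ^ 3 / Q * x⁻¹ := by positivity
          linarith

end Pool.Agent.MVD
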