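import Pool.Agent.MVD.PerS

/-!
# Module PhiA: the phases `Φ(n) = ((y - x₁n)/(y - x₂n))^{it}`: basics

`tv_phi`: for `x₁ ≤ x₂` the function `n ↦ log(y - x₁n) - log(y - x₂n)` is increasing (as long as `x₂ n < y`) and nonnegative, so the variation of `Φ` over `n₀ < n < n₁` (`tv` is a sum over `n ∈ Ioo n₀ n₁` of `‖Φ(n+1) - Φ(n)‖`, `n + 1 ≤ n₁`) is at most
`|t| (log(y - x₁ n₁) - log(y - x₂n₁)) ≤ |t| log(y/Δ)` (`|e^{ia} - e^{ib}| ≤ |a - b|`; `y - x₂n₁ ≥ Δ`, `y - x₁n₁ ≤ y`). `tv_phi'`: the conjugate phase.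
-/

open Finset Complex

namespace Pool.Agent.MVD

open Pool.Agent.ANT Pool.Agent.SInt

/-- The phase. -/
noncomputable def phi (y t x₁ x₂ : ℝ) (n : ℕ) : ℂ :=
  cexp (I * ((t * (Real.log (y - x₁ * n) - Real.log (y - x₂ * n)) : ℝ) : ℂ))

namespace PhiAAux

/-- The logarithm of the quotient. -/
noncomputable def hh (y a b : ℝ) (n : ℕ) : ℝ := Real.log (y - a * n) - Real.log (y - b * n)

lemma norm_exp_sub_exp_le (a b : ℝ) :
    ‖cexp (I * (a : ℂ)) - cexp (I * (b : ℂ))‖ ≤ |a - b| := by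
  have e : cexp (I * (a : ℂ)) - cexp (I * (b : ℂ)) =
      cexp (I * (b : ℂ)) * (cexp (I * ((a - b : ℝ) : ℂ)) - 1) := by
    rw [mul_sub, mul_one, ← Complex.exp_add]
    congr 2
    push_cast
    ring
  rw [e, norm_mul]
  have h1 : ‖cexp (I * (b : ℂ))‖ = 1 := by
    rw [mul_comm]; exact Complex.norm_exp_ofReal_mul_I b
  rw [h1, one_mul]
  have h2 := Real.norm_exp_I_mul_ofReal_sub_one_le (x := a - b)
  rwa [Real.norm_eq_abs] at h2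

lemma dphi (y t a b : ℝ) (n : ℕ) :
    ‖phi y t a b (n + 1) - phi y t a b n‖ ≤ |t| * |hh y a b (n + 1) - hh y a b n| := by
  have h1 := norm_exp_sub_exp_le
    (t * (Real.log (y - a * ((n + 1 : ℕ) : ℝ)) - Real.log (y - b * ((n + 1 : ℕ) : ℝ))))
    (t * (Real.log (y - a * n) - Real.log (y - b * n)))
  rw [← mul_sub, abs_mul] at h1
  exact h1

lemma sum_le {y t x₁ x₂ Δ : ℝ} (hy : 0 < y) (h₁ : 0 ≤ x₁) (h₂ : x₁ ≤ x₂) (hΔ : 0 < Δ)
    (n₀ n₁ : ℕ) (hn : x₂ * n₁ ≤ y - Δ) (hΔy : Δ ≤ y) :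
    ∑ n ∈ Ioo n₀ n₁, |t| * |hh y x₁ x₂ (n + 1) - hh y x₁ x₂ n| ≤ |t| * Real.log (y / Δ) := by
  have hlog : 0 ≤ Real.log (y / Δ) := by
    apply Real.log_nonneg
    rw [le_div_iff₀ hΔ, one_mul]
    exact hΔy
  have hx2 : 0 ≤ x₂ := h₁.trans h₂
  have hlow2 : ∀ n : ℕ, n ≤ n₁ → Δ ≤ y - x₂ * n := by
    intro n hn'
    have h3 : (n : ℝ) ≤ n₁ := by exact_mod_cast hn'
    have h4 := mul_le_mul_of_nonneg_left h3 hx2
    linarith
  have hlow1 : ∀ n : ℕ, y - x₂ * n ≤ y - x₁ * n := by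
    intro n
    have h4 := mul_le_mul_of_nonneg_right h₂ (Nat.cast_nonneg (α := ℝ) n)
    linarith
  have hmono : ∀ n : ℕ, n + 1 ≤ n₁ → hh y x₁ x₂ n ≤ hh y x₁ x₂ (n + 1) := by
    intro n hn'
    have a1 := hlow2 n (by omega)
    have a2 := hlow2 (n + 1) hn'
    have a3 := hlow1 n
    have a4 := hlow1 (n + 1)
    unfold hh
    rw [← Real.log_div (by linarith) (by linarith), ← Real.log_div (by linarith) (by linarith)]
    apply Real.log_le_log (div_pos (by linarith) (by linarith))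
    rw [div_le_div_iff₀ (by linarith) (by linarith)]
    push_cast
    nlinarith [mul_nonneg hy.le (sub_nonneg.2 h₂)]
  have hnn : ∀ n : ℕ, n ≤ n₁ → 0 ≤ hh y x₁ x₂ n := by
    intro n hn'
    have a1 := hlow2 n hn'
    have a3 := hlow1 n
    unfold hh
    exact sub_nonneg.2 (Real.log_le_log (by linarith) a3)
  rcases Nat.lt_or_ge n₀ n₁ with hlt | hge
  swap
  · rw [Finset.Ioo_eq_empty (by omega), Finset.sum_empty]
    exact mul_nonneg (abs_nonneg _) hlog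
  have e1 : ∑ n ∈ Ioo n₀ n₁, |t| * |hh y x₁ x₂ (n + 1) - hh y x₁ x₂ n| =
      |t| * (hh y x₁ x₂ n₁ - hh y x₁ x₂ (n₀ + 1)) := by
    rw [← Finset.mul_sum]
    congr 1
    have e2 : ∑ n ∈ Ioo n₀ n₁, |hh y x₁ x₂ (n + 1) - hh y x₁ x₂ n| =
        ∑ n ∈ Ico (n₀ + 1) n₁, (hh y x₁ x₂ (n + 1) - hh y x₁ x₂ n) := by
      have e3 : Ioo n₀ n₁ = Ico (n₀ + 1) n₁ := by
        ext x; simp only [mem_Ioo, mem_Ico]; omega
      rw [e3]
      apply Finset.sum_congr rfl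
      intro n hn'
      rw [mem_Ico] at hn'
      exact abs_of_nonneg (sub_nonneg.2 (hmono n (by omega)))
    rw [e2, Finset.sum_Ico_sub _ (by omega)]
  rw [e1]
  apply mul_le_mul_of_nonneg_left _ (abs_nonneg _)
  have h3 := hnn (n₀ + 1) (by omega)
  have h4 : hh y x₁ x₂ n₁ ≤ Real.log (y / Δ) := by
    have a1 := hlow2 n₁ le_rfl
    have a3 := hlow1 n₁
    unfold hh
    rw [← Real.log_div (by linarith) (by linarith)]
    apply Real.log_le_log (div_pos (by linarith) (by linarith))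
    apply div_le_div₀ hy.le _ hΔ a1
    have := mul_nonneg h₁ (Nat.cast_nonneg (α := ℝ) n₁)
    linarith
  linarith

end PhiAAux

theorem norm_phi (y t x₁ x₂ : ℝ) (n : ℕ) : ‖phi y t x₁ x₂ n‖ = 1 := by
  unfold phi
  rw [mul_comm]
  exact Complex.norm_exp_ofReal_mul_I _

theorem eit_mul_conj {y t x₁ x₂ : ℝ} (n : ℕ) :
    eit t (y - x₁ * n) * (starRingEnd ℂ) (eit t (y - x₂ * n)) = phi y t x₁ x₂ n := by
  unfold eit phi
  rw [← Complex.exp_conj, map_mul, Complex.conj_I, Complex.conj_ofReal, ← Complex.exp_add]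
  congr 1
  push_cast
  ring

theorem tv_phi {y t x₁ x₂ Δ : ℝ} (hy : 0 < y) (h₁ : 0 ≤ x₁) (h₂ : x₁ ≤ x₂) (hΔ : 0 < Δ) (hΔy : Δ ≤ y) (n₀ n₁ : ℕ)
    (hn : x₂ * n₁ ≤ y - Δ) : tv (phi y t x₁ x₂) n₀ n₁ ≤ |t| * Real.log (y / Δ) :=
  (Finset.sum_le_sum fun n _ => PhiAAux.dphi y t x₁ x₂ n).trans
    (PhiAAux.sum_le hy h₁ h₂ hΔ n₀ n₁ hn hΔy)

theorem tv_phi' {y t x₁ x₂ Δ : ℝ} (hy : 0 < y) (h₁ : 0 ≤ x₁) (h₂ : x₁ ≤ x₂) (hΔ : 0 < Δ) (hΔy : Δ ≤ y) (n₀ n₁ : ℕ)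
    (hn : x₂ * n₁ ≤ y - Δ) : tv (phi y t x₂ x₁) n₀ n₁ ≤ |t| * Real.log (y / Δ) := by
  refine (Finset.sum_le_sum fun n _ => PhiAAux.dphi y t x₂ x₁ n).trans ?_
  refine le_trans (le_of_eq ?_) (PhiAAux.sum_le hy h₁ h₂ hΔ n₀ n₁ hn hΔy)
  apply Finset.sum_congr rfl
  intro n _
  congr 1
  unfold PhiAAux.hh
  rw [← abs_neg]
  congr 1
  ring

end Pool.Agent.MVD
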