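import Pool.Agent.MVD.PhiA
import Pool.Agent.SInt.Pair

/-!
# Module PhiB: sums of the phases

`phi_sum`: the `n ≤ n₁` with `x₂ n > (1-η) y` number at most `η y/x₂ + 1` (they lie in `((1-η)y/x₂, y/x₂)`), and if there are any, `y/x₂ < n₁/(1-η) ≤ 2 n₁`: at most `2 η n₁ + 1`. The others (`n ≤ n₁' = ⌊(1-η)y/x₂⌋`): pair_sum of SInt/Pair with
`r = 1`, `b = 0`, `θ = 0` (`ee (n * 0) = 1`) for `|t| ≥ 1`: `C η^{-5} (√|t| + (y/x₂)/√|t|)`; for `|t| < 1` trivially `≤ n₁' ≤ y/x₂`. Finally `√(1+|t|) ≤ √2 √|t|` for `|t| ≥ 1` and `√(1+|t|) ≤ √2` for `|t| < 1`.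
`phi_sum'`: conjugation.
-/

open Finset Complex

namespace Pool.Agent.MVD

open Pool.Agent.ANT Pool.Agent.SInt

theorem phi_sum : ∃ C : ℝ, 0 < C ∧ ∀ (y t x₁ x₂ η : ℝ) (n₀ n₁ : ℕ), 0 < y → 0 ≤ x₁ → x₁ < x₂ → 0 < η → η ≤ 1 / 2 →
    η * x₂ ≤ x₂ - x₁ → x₂ * n₁ < y →
    ‖∑ n ∈ Ioc n₀ n₁, phi y t x₁ x₂ n‖ ≤
      C / η ^ 5 * (√(1 + |t|) + y / x₂ / √(1 + |t|)) + 2 * η * n₁ + 1 := by
  obtain ⟨C₀, hC₀, hpair⟩ := pair_sum
  refine ⟨2 * C₀ + 2, by positivity, ?_⟩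
  intro y t x₁ x₂ η n₀ n₁ hy hx1 hx hη hη1 hκ hn
  have hx2 : 0 < x₂ := lt_of_le_of_lt hx1 hx
  have hz : 0 < y / x₂ := div_pos hy hx2
  have hs1 : 1 ≤ √(1 + |t|) := by
    rw [Real.one_le_sqrt]; have := abs_nonneg t; linarith
  have hs0 : 0 < √(1 + |t|) := by linarith
  have hη5 : (1 : ℝ) ≤ 1 / η ^ 5 := by
    rw [le_div_iff₀ (by positivity), one_mul]
    exact pow_le_one₀ hη.le (by linarith)
  have hzn : (n₁ : ℝ) < y / x₂ := by
    rw [lt_div_iff₀ hx2]; linarith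
  have hz0 : 0 ≤ (1 - η) * (y / x₂) := mul_nonneg (by linarith) hz.le
  set nn : ℕ := min n₁ ⌊(1 - η) * (y / x₂)⌋₊ with hnn
  have hnn1 : nn ≤ n₁ := min_le_left _ _
  have hnn2 : (nn : ℝ) ≤ (1 - η) * (y / x₂) := by
    calc (nn : ℝ) ≤ ((⌊(1 - η) * (y / x₂)⌋₊ : ℕ) : ℝ) := by exact_mod_cast min_le_right _ _
      _ ≤ _ := Nat.floor_le hz0
  have hnn3 : (n₁ : ℝ) - nn ≤ η * n₁ + 1 := by
    rcases le_total n₁ ⌊(1 - η) * (y / x₂)⌋₊ with h | h
    · have : nn = n₁ := min_eq_left h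
      rw [this]
      have : 0 ≤ η * n₁ := by positivity
      linarith
    · have h1 : nn = ⌊(1 - η) * (y / x₂)⌋₊ := min_eq_right h
      have h2 : (1 - η) * (y / x₂) < (nn : ℝ) + 1 := by
        rw [h1]; exact Nat.lt_floor_add_one _
      have h3 : (1 - η) * (n₁ : ℝ) ≤ (1 - η) * (y / x₂) :=
        mul_le_mul_of_nonneg_left hzn.le (by linarith)
      linarith
  -- the main part
  have hmain : ‖∑ n ∈ Ioc n₀ nn, phi y t x₁ x₂ n‖ ≤
      (2 * C₀ + 2) / η ^ 5 * (√(1 + |t|) + y / x₂ / √(1 + |t|)) := by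
    by_cases ht : 1 ≤ |t|
    · have hnx : (nn : ℝ) * x₂ ≤ (1 - η) * y := by
        calc (nn : ℝ) * x₂ ≤ (1 - η) * (y / x₂) * x₂ := mul_le_mul_of_nonneg_right hnn2 hx2.le
          _ = (1 - η) * y := by field_simp
      have h1 := hpair y t x₁ x₂ η 0 0 1 n₀ nn hy ht hx1 hx hη hη1 hκ le_rfl (by simp) hnx
      have e1 : ∀ n : ℕ, ee ((n : ℝ) * 0) *
          cexp (I * ((t * (Real.log (y - x₁ * n) - Real.log (y - x₂ * n)) : ℝ) : ℂ)) =
          phi y t x₁ x₂ n := by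
        intro n
        unfold ee phi
        simp
      simp only [e1] at h1
      refine h1.trans ?_
      have ht0 : 0 < |t| := by linarith
      have hT0 : 0 < √|t| := Real.sqrt_pos.mpr ht0
      have g1 : √|t| ≤ √(1 + |t|) := Real.sqrt_le_sqrt (by linarith)
      have g2 : √(1 + |t|) ≤ 2 * √|t| := by
        rw [show (2 : ℝ) * √|t| = √(4 * |t|) by
          rw [Real.sqrt_mul (by norm_num), show (4 : ℝ) = 2 ^ 2 by norm_num,
            Real.sqrt_sq (by norm_num)]]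
        exact Real.sqrt_le_sqrt (by linarith)
      have g3 : y / x₂ / √|t| ≤ 2 * (y / x₂ / √(1 + |t|)) := by
        rw [div_le_iff₀ hT0]
        have : 2 * (y / x₂ / √(1 + |t|)) * √|t| = y / x₂ * ((2 * √|t|) / √(1 + |t|)) := by ring
        rw [this]
        exact le_mul_of_one_le_right hz.le (by rw [le_div_iff₀ hs0]; linarith)
      have g4 : 0 ≤ C₀ / η ^ 5 := by positivity
      have g5 : 0 ≤ y / x₂ / √(1 + |t|) := by positivity
      calc C₀ / η ^ 5 * (((1 : ℕ) : ℝ) * √|t| + y / x₂ / √|t|)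
          ≤ C₀ / η ^ 5 * (2 * (√(1 + |t|) + y / x₂ / √(1 + |t|))) := by
            refine mul_le_mul_of_nonneg_left ?_ g4
            push_cast
            linarith
        _ = (2 * C₀) / η ^ 5 * (√(1 + |t|) + y / x₂ / √(1 + |t|)) := by ring
        _ ≤ _ := by
            have : (2 * C₀) / η ^ 5 ≤ (2 * C₀ + 2) / η ^ 5 := by
              apply div_le_div_of_nonneg_right (by linarith) (by positivity)
            exact mul_le_mul_of_nonneg_right this (by positivity)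
    · have ht1 : |t| < 1 := not_le.mp ht
      have h1 : ‖∑ n ∈ Ioc n₀ nn, phi y t x₁ x₂ n‖ ≤ nn := by
        refine (norm_sum_le _ _).trans ?_
        simp only [norm_phi]
        rw [Finset.sum_const, Nat.card_Ioc, nsmul_eq_mul, mul_one]
        exact_mod_cast Nat.sub_le _ _
      have h2 : (nn : ℝ) ≤ y / x₂ := by
        calc (nn : ℝ) ≤ n₁ := by exact_mod_cast hnn1
          _ ≤ _ := hzn.le
      have h3 : √(1 + |t|) ≤ 2 := by
        rw [show (2 : ℝ) = √4 by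
          rw [show (4 : ℝ) = 2 ^ 2 by norm_num, Real.sqrt_sq (by norm_num)]]
        exact Real.sqrt_le_sqrt (by linarith)
      have h4 : y / x₂ ≤ 2 * (y / x₂ / √(1 + |t|)) := by
        have : 2 * (y / x₂ / √(1 + |t|)) = y / x₂ * (2 / √(1 + |t|)) := by ring
        rw [this]
        exact le_mul_of_one_le_right hz.le (by rw [le_div_iff₀ hs0]; linarith)
      have h5 : 0 ≤ y / x₂ / √(1 + |t|) := by positivity
      calc _ ≤ y / x₂ := h1.trans h2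
        _ ≤ 1 * (2 * (√(1 + |t|) + y / x₂ / √(1 + |t|))) := by linarith
        _ ≤ 1 / η ^ 5 * (2 * (√(1 + |t|) + y / x₂ / √(1 + |t|))) :=
            mul_le_mul_of_nonneg_right hη5 (by positivity)
        _ = 2 / η ^ 5 * (√(1 + |t|) + y / x₂ / √(1 + |t|)) := by ring
        _ ≤ _ := by
            have : 2 / η ^ 5 ≤ (2 * C₀ + 2) / η ^ 5 := by
              apply div_le_div_of_nonneg_right (by linarith) (by positivity)
            exact mul_le_mul_of_nonneg_right this (by positivity)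
  have hrest : ‖∑ n ∈ (Ioc n₀ n₁) \ (Ioc n₀ nn), phi y t x₁ x₂ n‖ ≤ (n₁ : ℝ) - nn := by
    refine (norm_sum_le _ _).trans ?_
    simp only [norm_phi]
    rw [Finset.sum_const, nsmul_eq_mul, mul_one]
    have hsub : (Ioc n₀ n₁) \ (Ioc n₀ nn) ⊆ Ioc nn n₁ := by
      intro n hn
      simp only [Finset.mem_sdiff, Finset.mem_Ioc] at hn ⊢
      omega
    have h1 := Finset.card_le_card hsub
    rw [Nat.card_Ioc] at h1
    calc _ ≤ ((n₁ - nn : ℕ) : ℝ) := by exact_mod_cast h1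
      _ = _ := by rw [Nat.cast_sub hnn1]
  have hsplit : ∑ n ∈ Ioc n₀ n₁, phi y t x₁ x₂ n = ∑ n ∈ (Ioc n₀ n₁) \ (Ioc n₀ nn), phi y t x₁ x₂ n +
      ∑ n ∈ Ioc n₀ nn, phi y t x₁ x₂ n :=
    (Finset.sum_sdiff (Finset.Ioc_subset_Ioc_right hnn1)).symm
  rw [hsplit]
  have hη0 : 0 ≤ η * n₁ := by positivity
  calc _ ≤ _ := norm_add_le _ _
    _ ≤ ((n₁ : ℝ) - nn) + (2 * C₀ + 2) / η ^ 5 * (√(1 + |t|) + y / x₂ / √(1 + |t|)) :=
        add_le_add hrest hmain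
    _ ≤ _ := by linarith

/-- The same for the conjugate phase. -/
theorem phi_sum' : ∃ C : ℝ, 0 < C ∧ ∀ (y t x₁ x₂ η : ℝ) (n₀ n₁ : ℕ), 0 < y → 0 ≤ x₁ → x₁ < x₂ → 0 < η → η ≤ 1 / 2 →
    η * x₂ ≤ x₂ - x₁ → x₂ * n₁ < y →
    ‖∑ n ∈ Ioc n₀ n₁, phi y t x₂ x₁ n‖ ≤
      C / η ^ 5 * (√(1 + |t|) + y / x₂ / √(1 + |t|)) + 2 * η * n₁ + 1 := by
  obtain ⟨C, hC, h⟩ := phi_sum
  refine ⟨C, hC, ?_⟩
  intro y t x₁ x₂ η n₀ n₁ hy hx1 hx hη hη1 hκ hn
  have h1 := h y (-t) x₁ x₂ η n₀ n₁ hy hx1 hx hη hη1 hκ hn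
  have e1 : ∀ n : ℕ, phi y (-t) x₁ x₂ n = phi y t x₂ x₁ n := by
    intro n
    unfold phi
    congr 2
    push_cast
    ring
  simp only [e1, abs_neg] at h1
  exact h1

end Pool.Agent.MVD
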