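import Pool.Agent.MVD.Defs
import Pool.Agent.SInt.TriB
import Pool.Agent.SInt.TIaver
import Pool.Agent.Lib.ANT.CharSum

/-!
# Module SmoothA: smooth sums against a nonprincipal character are negligible

`sm_one`: sums of `χ` over intervals are `≤ 2 r` in absolute value (norm_sum_range_char_le in Lib/ANT/CharSum, or full periods give zero); the weight
`(log l)^i GD(v - ml)`, `lo < l ≤ Z/m`, is bounded by `(1+log Z)/D` and has total variation `≤ 4 (1 + log Z)/D`: `log` is increasing and bounded by `log Z`,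
`GD` is the triangle `max(0, 1 - |x|/D)/D`, increasing then decreasing in `l`, bounded by `1/D` (GD_nonneg, GD_le in SInt/TriB);
the variation of a product is at most `sup·var + sup·var`. Abel summation.
-/

open Finset Complex

namespace Pool.Agent.MVD

open Pool.Agent.ANT Pool.Agent.SInt

namespace SmoothAAux

/-- discrete Abel summation with a monotone majorant of the variation -/
lemma abel {a : ℕ → ℂ} {w g : ℕ → ℝ} {B : ℝ} {lo : ℕ}
    (hB : ∀ n, ‖∑ l ∈ Ioc lo n, a l‖ ≤ B) (K : ℕ) (hK : lo + 1 ≤ K)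
    (hw : ∀ l, lo + 1 ≤ l → l < K → |w (l + 1) - w l| ≤ g (l + 1) - g l) :
    ‖∑ l ∈ Ioc lo K, a l * (w l : ℂ) - (∑ l ∈ Ioc lo K, a l) * (w K : ℂ)‖ ≤
      B * (g K - g (lo + 1)) := by
  induction K, hK using Nat.le_induction with
  | base =>
    rw [Nat.Ioc_succ_singleton, Finset.sum_singleton, Finset.sum_singleton, sub_self, norm_zero,
      sub_self, mul_zero]
  | succ K hK ih =>
    have ih' := ih (fun l h1 h2 => hw l h1 (by omega))
    have e1 : ∑ l ∈ Ioc lo (K + 1), a l * (w l : ℂ) =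
        ∑ l ∈ Ioc lo K, a l * (w l : ℂ) + a (K + 1) * (w (K + 1) : ℂ) :=
      Finset.sum_Ioc_succ_top (by omega) _
    have e2 : ∑ l ∈ Ioc lo (K + 1), a l = ∑ l ∈ Ioc lo K, a l + a (K + 1) :=
      Finset.sum_Ioc_succ_top (by omega) _
    rw [e1, e2]
    have e3 : ∑ l ∈ Ioc lo K, a l * (w l : ℂ) + a (K + 1) * (w (K + 1) : ℂ) -
        (∑ l ∈ Ioc lo K, a l + a (K + 1)) * (w (K + 1) : ℂ) =
        (∑ l ∈ Ioc lo K, a l * (w l : ℂ) - (∑ l ∈ Ioc lo K, a l) * (w K : ℂ)) -
          (∑ l ∈ Ioc lo K, a l) * ((w (K + 1) - w K : ℝ) : ℂ) := by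
      push_cast
      ring
    rw [e3]
    refine (norm_sub_le _ _).trans ?_
    have h1 : ‖(∑ l ∈ Ioc lo K, a l) * ((w (K + 1) - w K : ℝ) : ℂ)‖ ≤
        B * (g (K + 1) - g K) := by
      rw [norm_mul, Complex.norm_real, Real.norm_eq_abs]
      have h2 := hw K hK (by omega)
      exact mul_le_mul (hB K) h2 (abs_nonneg _) ((norm_nonneg _).trans (hB K))
    calc _ ≤ B * (g K - g (lo + 1)) + B * (g (K + 1) - g K) := add_le_add ih' h1
      _ = _ := by ring

/-- the variation function of the hat -/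
noncomputable def gam (D : ℕ) (v x : ℝ) : ℝ :=
  if x ≤ v then GD D (v - x) else 2 / D - GD D (v - x)

lemma GD_anti {D : ℕ} {x y : ℝ} (h : |x| ≤ |y|) : GD D y ≤ GD D x := by
  unfold GD
  exact div_le_div_of_nonneg_right (tri_anti h) (Nat.cast_nonneg _)

lemma gam_var (D : ℕ) (v : ℝ) {x y : ℝ} (hxy : x ≤ y) :
    |GD D (v - y) - GD D (v - x)| ≤ gam D v y - gam D v x := by
  unfold gam
  by_cases hy : y ≤ v
  · have hx : x ≤ v := hxy.trans hy
    rw [if_pos hy, if_pos hx, abs_of_nonneg]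
    have : GD D (v - x) ≤ GD D (v - y) := by
      apply GD_anti
      rw [abs_of_nonneg (by linarith), abs_of_nonneg (by linarith)]
      linarith
    linarith
  · by_cases hx : x ≤ v
    · rw [if_neg hy, if_pos hx, abs_le]
      have h1 := GD_le D (v - y)
      have h2 := GD_le D (v - x)
      have h3 : (2 : ℝ) / D = 1 / D + 1 / D := by ring
      constructor <;> rw [h3] <;> linarith
    · rw [if_neg hy, if_neg hx]
      have hy' := not_le.1 hy
      have hx' := not_le.1 hx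
      have : GD D (v - y) ≤ GD D (v - x) := by
        apply GD_anti
        rw [abs_of_nonpos (by linarith), abs_of_nonpos (by linarith)]
        linarith
      rw [abs_of_nonpos (by linarith)]
      linarith

lemma gam_bd (D : ℕ) (v x : ℝ) : 0 ≤ gam D v x ∧ gam D v x ≤ 2 / D := by
  unfold gam
  have h1 := GD_le D (v - x)
  have h2 := GD_nonneg D (v - x)
  have h3 : (2 : ℝ) / D = 1 / D + 1 / D := by ring
  split_ifs
  · constructor
    · exact h2
    · rw [h3]; linarith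
  · constructor
    · rw [h3]; linarith
    · linarith

lemma lg_nonneg (l i : ℕ) : 0 ≤ Real.log l ^ i := pow_nonneg (Real.log_natCast_nonneg l) i

lemma lg_mono {l l' : ℕ} (hl : 1 ≤ l) (h : l ≤ l') (i : ℕ) : Real.log l ^ i ≤ Real.log l' ^ i := by
  refine pow_le_pow_left₀ (Real.log_natCast_nonneg l) (Real.log_le_log ?_ ?_) i
  · exact_mod_cast hl
  · exact_mod_cast h

lemma lg_le {l Z i : ℕ} (hl : 1 ≤ l) (h : l ≤ Z) (hi : i ≤ 1) :
    Real.log l ^ i ≤ 1 + Real.log Z := by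
  have h1 : Real.log l ≤ Real.log Z := Real.log_le_log (by exact_mod_cast hl) (by exact_mod_cast h)
  have h2 := Real.log_natCast_nonneg l
  interval_cases i
  · rw [pow_zero]; linarith
  · rw [pow_one]; linarith

end SmoothAAux

open SmoothAAux in
theorem sm_one : ∃ C : ℝ, 0 < C ∧ ∀ (r : ℕ) (χ : DirichletCharacter ℂ r) (m Z D i lo : ℕ) (v : ℤ),
    1 ≤ r → χ ≠ 1 → 1 ≤ m → 1 ≤ Z → 1 ≤ D → i ≤ 1 →
    ‖∑ l ∈ Ioc lo (Z / m), χ (l : ZMod r) * ((Real.log l ^ i : ℝ) : ℂ) *
      ((GD D ((v : ℝ) - m * l) : ℝ) : ℂ)‖ ≤ C * r * (1 + Real.log Z) / D := by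
  refine ⟨8, by norm_num, ?_⟩
  intro r χ m Z D i lo v hr hχ hm hZ hD hi
  haveI : NeZero r := ⟨by omega⟩
  have hD0 : (0 : ℝ) < D := by exact_mod_cast hD
  have hl := Real.log_natCast_nonneg Z
  obtain ⟨M, hM⟩ : ∃ M : ℝ, M = 1 + Real.log Z := ⟨_, rfl⟩
  have hM0 : 0 ≤ M := by rw [hM]; linarith
  rw [← hM]
  rcases Nat.lt_or_ge lo (Z / m) with hlo | hlo
  swap
  · rw [Finset.Ioc_eq_empty (by omega), Finset.sum_empty, norm_zero]
    positivity
  have hKZ : Z / m ≤ Z := Nat.div_le_self Z m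
  set K := Z / m with hK
  have hB : ∀ n, ‖∑ l ∈ Ioc lo n, χ (l : ZMod r)‖ ≤ 2 * r := by
    intro n
    rcases le_or_gt lo n with h | h
    · have e : ∑ l ∈ Ioc lo n, χ (l : ZMod r) =
          ∑ l ∈ range (n + 1), χ (l : ZMod r) - ∑ l ∈ range (lo + 1), χ (l : ZMod r) := by
        rw [eq_sub_iff_add_eq, add_comm]
        rw [Finset.range_eq_Ico, Finset.range_eq_Ico]
        have h2 : Ioc lo n = Ico (lo + 1) (n + 1) := by
          ext x; simp only [mem_Ioc, mem_Ico]; omega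
        rw [h2]
        exact Finset.sum_Ico_consecutive _ (Nat.zero_le _) (by omega)
      rw [e]
      refine (norm_sub_le _ _).trans ?_
      have h1 := norm_sum_range_char_le hχ (n + 1)
      have h2 := norm_sum_range_char_le hχ (lo + 1)
      linarith
    · rw [Finset.Ioc_eq_empty (by omega), Finset.sum_empty, norm_zero]
      positivity
  have h1 := abel (a := fun l : ℕ => χ (l : ZMod r))
    (w := fun l : ℕ => Real.log l ^ i * GD D ((v : ℝ) - m * l))
    (g := fun l : ℕ => Real.log l ^ i / D + M * gam D v (m * l)) hB K (by omega) (by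
      intro l h1 h2
      have hmono := lg_mono (l := l) (l' := l + 1) (by omega) (by omega) i
      have hmx : (m : ℝ) * l ≤ m * ((l + 1 : ℕ) : ℝ) := by
        push_cast
        have : (0 : ℝ) ≤ m := Nat.cast_nonneg _
        nlinarith
      have e : Real.log ((l + 1 : ℕ) : ℝ) ^ i * GD D ((v : ℝ) - m * ((l + 1 : ℕ) : ℝ)) -
          Real.log l ^ i * GD D ((v : ℝ) - m * l) =
          (Real.log ((l + 1 : ℕ) : ℝ) ^ i - Real.log l ^ i) *
            GD D ((v : ℝ) - m * ((l + 1 : ℕ) : ℝ)) +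
          Real.log l ^ i * (GD D ((v : ℝ) - m * ((l + 1 : ℕ) : ℝ)) -
            GD D ((v : ℝ) - m * l)) := by ring
      rw [e]
      have g1 : |(Real.log ((l + 1 : ℕ) : ℝ) ^ i - Real.log l ^ i) *
            GD D ((v : ℝ) - m * ((l + 1 : ℕ) : ℝ))| ≤
          (Real.log ((l + 1 : ℕ) : ℝ) ^ i - Real.log l ^ i) * (1 / D) := by
        rw [abs_mul, abs_of_nonneg (sub_nonneg.2 hmono), abs_of_nonneg (GD_nonneg _ _)]
        exact mul_le_mul_of_nonneg_left (GD_le _ _) (sub_nonneg.2 hmono)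
      have g2 : |Real.log l ^ i * (GD D ((v : ℝ) - m * ((l + 1 : ℕ) : ℝ)) -
            GD D ((v : ℝ) - m * l))| ≤
          M * (gam D v (m * ((l + 1 : ℕ) : ℝ)) - gam D v (m * l)) := by
        rw [abs_mul, abs_of_nonneg (lg_nonneg l i)]
        exact mul_le_mul (by rw [hM]; exact lg_le (by omega) (by omega) hi)
          (gam_var D v hmx) (abs_nonneg _) hM0
      refine (abs_add_le _ _).trans ((add_le_add g1 g2).trans (le_of_eq ?_))
      ring)
  have hsum : ∑ l ∈ Ioc lo K, χ (l : ZMod r) * ((Real.log l ^ i : ℝ) : ℂ) *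
      ((GD D ((v : ℝ) - m * l) : ℝ) : ℂ) =
      ∑ l ∈ Ioc lo K, χ (l : ZMod r) *
        ((Real.log l ^ i * GD D ((v : ℝ) - m * l) : ℝ) : ℂ) := by
    apply Finset.sum_congr rfl
    intro l _
    push_cast
    ring
  rw [hsum]
  have hend : ‖(∑ l ∈ Ioc lo K, χ (l : ZMod r)) *
      ((Real.log K ^ i * GD D ((v : ℝ) - m * K) : ℝ) : ℂ)‖ ≤ 2 * r * (M / D) := by
    rw [norm_mul, Complex.norm_real, Real.norm_eq_abs,
      abs_of_nonneg (mul_nonneg (lg_nonneg K i) (GD_nonneg _ _))]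
    have h3 : Real.log K ^ i * GD D ((v : ℝ) - m * K) ≤ M / D := by
      calc _ ≤ M * (1 / D) := mul_le_mul (by rw [hM]; exact lg_le (by omega) hKZ hi)
            (GD_le _ _) (GD_nonneg _ _) hM0
        _ = _ := by ring
    exact mul_le_mul (hB K) h3 (mul_nonneg (lg_nonneg K i) (GD_nonneg _ _)) (by positivity)
  have hg : Real.log K ^ i / D + M * gam D v (m * K) -
      (Real.log ((lo + 1 : ℕ) : ℝ) ^ i / D + M * gam D v (m * ((lo + 1 : ℕ) : ℝ))) ≤ 3 * M / D := by
    have h3 : Real.log K ^ i / D ≤ M / D :=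
      div_le_div_of_nonneg_right (by rw [hM]; exact lg_le (by omega) hKZ hi) hD0.le
    have h4 : 0 ≤ Real.log ((lo + 1 : ℕ) : ℝ) ^ i / D := div_nonneg (lg_nonneg _ i) hD0.le
    have h5 : M * gam D v (m * K) ≤ M * (2 / D) := mul_le_mul_of_nonneg_left (gam_bd D v _).2 hM0
    have h6 : 0 ≤ M * gam D v (m * ((lo + 1 : ℕ) : ℝ)) := mul_nonneg hM0 (gam_bd D v _).1
    have h7 : 3 * M / D = M / D + M * (2 / D) := by ring
    rw [h7]
    linarith
  have hr0 : (0 : ℝ) ≤ 2 * r := by positivity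
  have hfin := norm_le_norm_add_norm_sub' (∑ l ∈ Ioc lo K, χ (l : ZMod r) *
        ((Real.log l ^ i * GD D ((v : ℝ) - m * l) : ℝ) : ℂ))
    ((∑ l ∈ Ioc lo K, χ (l : ZMod r)) * ((Real.log K ^ i * GD D ((v : ℝ) - m * K) : ℝ) : ℂ))
  have h8 := h1.trans (mul_le_mul_of_nonneg_left hg hr0)
  calc _ ≤ 2 * r * (M / D) + 2 * r * (3 * M / D) := hfin.trans (add_le_add hend h8)
    _ = 8 * r * M / D := by ring

end Pool.Agent.MVD
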