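import Pool.Agent.MVD.SmoothA

/-!
# Module SmoothB: the smooth parts of the local averages

`neg_T1`: expand `LAh (twc (cv ..) χ) Z D v = ∑_{n ≤ Z} ..`: `n = m l`, `m ≤ M`, `l ≤ Z/m`, `χ(ml) = χ(m)χ(l)`; sm_one for each `m` (`m ≤ min(M,Z)`).
`neg_T2`: `n = m l₁ l₂`, `l₁ l₂ ≤ Z/m`: split into `l₁ ≤ l₂` and `l₂ < l₁`; for the shorter variable `l` fixed (`m l² ≤ Z`), sum over the longer one by
sm_one (with `m l` in place of `m`, cut `lo = l - 1` or `lo = l`): each is `≤ C r (1+log Z)/D` times a factor `(log l)^i ≤ 1 + log Z`, number of `l` at most `√Z`;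
`i` is the exponent of the logarithm of the second variable (in the case where the shorter variable is the second one the factor `(log l)^i` is constant and sm_one is used with exponent 0).
-/

open Finset Complex

namespace Pool.Agent.MVD

open Pool.Agent.ANT Pool.Agent.SInt

private theorem SmB_Icc (N : ℕ) : Icc 1 N = Ioc 0 N := by
  ext x
  simp only [mem_Icc, mem_Ioc]
  omega

private theorem SmB_expand {r : ℕ} (χ : DirichletCharacter ℂ r) (α g : ℕ → ℂ) (Z D : ℕ) (v : ℤ) :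
    LAh (twc (cv α g) χ) Z D v = ∑ m ∈ Ioc 0 Z, (α m * χ (m : ZMod r)) *
      ∑ l ∈ Ioc 0 (Z / m), χ (l : ZMod r) * g l * ((GD D ((v : ℝ) - m * l) : ℝ) : ℂ) := by
  have h := sum_pairs' (fun m l => (α m * χ (m : ZMod r)) *
    (χ (l : ZMod r) * g l * ((GD D ((v : ℝ) - m * l) : ℝ) : ℂ))) Z
  simp only [Finset.mul_sum]
  rw [← h]
  unfold LAh
  rw [SmB_Icc]
  refine Finset.sum_congr rfl fun n hn => ?_
  unfold twc cv
  rw [Finset.sum_mul, Finset.sum_mul]
  refine Finset.sum_congr rfl fun p hp => ?_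
  have hp' := (Nat.mem_divisorsAntidiagonal.mp hp).1
  have hp2 : (n : ℝ) = (p.1 : ℝ) * p.2 := by rw [← hp']; push_cast; ring
  have hp3 : χ (n : ZMod r) = χ (p.1 : ZMod r) * χ (p.2 : ZMod r) := by
    rw [← hp', Nat.cast_mul, map_mul]
  rw [hp2, hp3]
  ring

/-- sum over `m` -/
private theorem SmB_outer {r : ℕ} (χ : DirichletCharacter ℂ r) (α : ℕ → ℂ) (T : ℕ → ℂ) {Z M : ℕ} {B K : ℝ}
    (hB : 0 ≤ B) (hK : 0 ≤ K) (hα : ∀ m, m ≤ Z → ‖α m‖ ≤ B) (hM : ∀ m, M < m → α m = 0)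
    (hT : ∀ m, 1 ≤ m → ‖T m‖ ≤ K) :
    ‖∑ m ∈ Ioc 0 Z, (α m * χ (m : ZMod r)) * T m‖ ≤ B * M * K := by
  have h1 : ‖∑ m ∈ Ioc 0 Z, (α m * χ (m : ZMod r)) * T m‖ ≤
      ∑ m ∈ Ioc 0 Z, if m ≤ M then B * K else 0 := by
    refine (norm_sum_le _ _).trans (sum_le_sum fun m hm => ?_)
    rw [mem_Ioc] at hm
    split_ifs with hmM
    · rw [norm_mul, norm_mul]
      have h2 : ‖χ (m : ZMod r)‖ ≤ 1 := DirichletCharacter.norm_le_one _ _
      calc ‖α m‖ * ‖χ (m : ZMod r)‖ * ‖T m‖ ≤ B * 1 * K := by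
            gcongr
            · exact hα m hm.2
            · exact hT m hm.1
        _ = B * K := by ring
    · rw [hM m (not_le.1 hmM)]
      simp
  refine h1.trans ?_
  rw [← sum_filter, sum_const, nsmul_eq_mul]
  have h3 : ((Ioc 0 Z).filter fun m => m ≤ M).card ≤ M := by
    calc ((Ioc 0 Z).filter fun m => m ≤ M).card ≤ (Ioc 0 M).card := by
          apply card_le_card
          intro m hm
          simp only [mem_filter, mem_Ioc] at hm ⊢
          omega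
      _ = M := by simp
  have h4 : (((Ioc 0 Z).filter fun m => m ≤ M).card : ℝ) ≤ M := by exact_mod_cast h3
  calc (((Ioc 0 Z).filter fun m => m ≤ M).card : ℝ) * (B * K) ≤ M * (B * K) := by gcongr
    _ = B * M * K := by ring

theorem neg_T1 : ∃ C : ℝ, 0 < C ∧ ∀ (r : ℕ) (χ : DirichletCharacter ℂ r) (Z D i M : ℕ) (B : ℝ) (α : ℕ → ℂ) (v : ℤ),
    1 ≤ r → χ ≠ 1 → 1 ≤ Z → 1 ≤ D → i ≤ 1 → 0 ≤ B → (∀ m, m ≤ Z → ‖α m‖ ≤ B) → (∀ m, M < m → α m = 0) →
    ‖LAh (twc (cv α (fun l => ((Real.log l ^ i : ℝ) : ℂ))) χ) Z D v‖ ≤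
      C * B * M * r * (1 + Real.log Z) / D := by
  obtain ⟨C, hC, h⟩ := sm_one
  refine ⟨C, hC, fun r χ Z D i M B α v hr hχ hZ hD hi hB hα hM => ?_⟩
  have hlog : 0 ≤ Real.log Z := Real.log_natCast_nonneg Z
  have hK : 0 ≤ C * r * (1 + Real.log Z) / D := by positivity
  rw [SmB_expand]
  refine (SmB_outer χ α _ hB hK hα hM fun m hm => h r χ m Z D i 0 v hr hχ hm hZ hD hi).trans
    (le_of_eq ?_)
  ring

/-- a sum over the shorter variable `l` (the inner sum is empty when `Y < l * l`) -/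
private theorem SmB_short {Y : ℕ} {K : ℝ} (hK : 0 ≤ K) (S : ℕ → ℂ)
    (h0 : ∀ l, 1 ≤ l → Y < l * l → S l = 0) (hS : ∀ l, 1 ≤ l → l ≤ Y → ‖S l‖ ≤ K) :
    ‖∑ l ∈ Ioc 0 Y, S l‖ ≤ √(Y : ℝ) * K := by
  have h1 : ‖∑ l ∈ Ioc 0 Y, S l‖ ≤ ∑ l ∈ Ioc 0 Y, if l ≤ Nat.sqrt Y then K else 0 := by
    refine (norm_sum_le _ _).trans (sum_le_sum fun l hl => ?_)
    rw [mem_Ioc] at hl
    split_ifs with hlY
    · exact hS l hl.1 hl.2
    · rw [h0 l hl.1 (Nat.sqrt_lt.1 (not_le.1 hlY))]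
      simp
  refine h1.trans ?_
  rw [← sum_filter, sum_const, nsmul_eq_mul]
  have h3 : ((Ioc 0 Y).filter fun m => m ≤ Nat.sqrt Y).card ≤ Nat.sqrt Y := by
    calc ((Ioc 0 Y).filter fun m => m ≤ Nat.sqrt Y).card ≤ (Ioc 0 (Nat.sqrt Y)).card := by
          apply card_le_card
          intro m hm
          simp only [mem_filter, mem_Ioc] at hm ⊢
          omega
      _ = Nat.sqrt Y := by simp
  have h4 : (((Ioc 0 Y).filter fun m => m ≤ Nat.sqrt Y).card : ℝ) ≤ √(Y : ℝ) := by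
    have h5 : (((Ioc 0 Y).filter fun m => m ≤ Nat.sqrt Y).card : ℝ) ≤ (Nat.sqrt Y : ℝ) := by
      exact_mod_cast h3
    exact h5.trans Real.nat_sqrt_le_real_sqrt
  gcongr

theorem neg_T2 : ∃ C : ℝ, 0 < C ∧ ∀ (r : ℕ) (χ : DirichletCharacter ℂ r) (Z D i M : ℕ) (B : ℝ) (β : ℕ → ℂ) (v : ℤ),
    1 ≤ r → χ ≠ 1 → 1 ≤ Z → 1 ≤ D → i ≤ 1 → 0 ≤ B → (∀ m, m ≤ Z → ‖β m‖ ≤ B) → (∀ m, M < m → β m = 0) →
    ‖LAh (twc (cv β (cv (fun _ => 1) (fun l => ((Real.log l ^ i : ℝ) : ℂ)))) χ) Z D v‖ ≤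
      C * B * M * √(Z : ℝ) * r * (1 + Real.log Z) ^ 2 / D := by
  obtain ⟨C, hC, h⟩ := sm_one
  refine ⟨2 * C, by positivity, fun r χ Z D i M B β v hr hχ hZ hD hi hB hβ hM => ?_⟩
  have hlog : 0 ≤ Real.log Z := Real.log_natCast_nonneg Z
  have hK1 : 0 ≤ C * r * (1 + Real.log Z) / D := by positivity
  have hK : 0 ≤ 2 * C * √(Z : ℝ) * r * (1 + Real.log Z) ^ 2 / D := by positivity
  rw [SmB_expand]
  refine (SmB_outer χ β _ hB hK hβ hM fun m hm => ?_).trans (le_of_eq ?_)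
  · set Y := Z / m with hY
    have hYZ : Y ≤ Z := Nat.div_le_self _ _
    set P : ℕ → ℕ → ℂ := fun l₁ l₂ => χ (l₁ : ZMod r) * (χ (l₂ : ZMod r) *
      ((Real.log l₂ ^ i : ℝ) : ℂ) * ((GD D ((v : ℝ) - (m * l₁ : ℕ) * l₂) : ℝ) : ℂ)) with hP
    have e1 : ∑ l ∈ Ioc 0 Y, χ (l : ZMod r) * cv (fun _ => 1)
        (fun l => ((Real.log l ^ i : ℝ) : ℂ)) l * ((GD D ((v : ℝ) - m * l) : ℝ) : ℂ) =
        ∑ l₁ ∈ Ioc 0 Y, ∑ l₂ ∈ Ioc 0 (Y / l₁), P l₁ l₂ := by
      rw [← sum_pairs' P Y]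
      refine Finset.sum_congr rfl fun n hn => ?_
      unfold cv
      rw [Finset.mul_sum, Finset.sum_mul]
      refine Finset.sum_congr rfl fun p hp => ?_
      have hp' := (Nat.mem_divisorsAntidiagonal.mp hp).1
      have hp2 : (n : ℝ) = (p.1 : ℝ) * p.2 := by rw [← hp']; push_cast; ring
      have hp3 : χ (n : ZMod r) = χ (p.1 : ZMod r) * χ (p.2 : ZMod r) := by
        rw [← hp', Nat.cast_mul, map_mul]
      rw [hp2, hp3]
      simp only [hP]
      push_cast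
      ring_nf
    have e2 : ∑ l₁ ∈ Ioc 0 Y, ∑ l₂ ∈ Ioc 0 (Y / l₁), P l₁ l₂ =
        (∑ l₁ ∈ Ioc 0 Y, ∑ l₂ ∈ Ioc (l₁ - 1) (Y / l₁), P l₁ l₂) +
        ∑ l₂ ∈ Ioc 0 Y, ∑ l₁ ∈ Ioc l₂ (Y / l₂), P l₁ l₂ := by
      have e3 : ∑ l₁ ∈ Ioc 0 Y, ∑ l₂ ∈ Ioc 0 (Y / l₁), P l₁ l₂ =
          (∑ l₁ ∈ Ioc 0 Y, ∑ l₂ ∈ Ioc 0 (Y / l₁), if l₁ ≤ l₂ then P l₁ l₂ else 0) +
          ∑ l₁ ∈ Ioc 0 Y, ∑ l₂ ∈ Ioc 0 (Y / l₁), if l₂ < l₁ then P l₁ l₂ else 0 := by
        rw [← sum_add_distrib]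
        refine sum_congr rfl fun l₁ _ => ?_
        rw [← sum_add_distrib]
        refine sum_congr rfl fun l₂ _ => ?_
        by_cases h12 : l₁ ≤ l₂
        · rw [if_pos h12, if_neg (by omega), add_zero]
        · rw [if_neg h12, if_pos (by omega), zero_add]
      rw [e3]
      congr 1
      · refine sum_congr rfl fun l₁ hl₁ => ?_
        rw [← sum_filter]
        refine sum_congr ?_ fun _ _ => rfl
        ext x
        simp only [mem_filter, mem_Ioc] at hl₁ ⊢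
        omega
      · rw [sum_comm' (t' := Ioc 0 Y) (s' := fun l₂ => Ioc 0 (Y / l₂))]
        · refine sum_congr rfl fun l₂ hl₂ => ?_
          rw [← sum_filter]
          refine sum_congr ?_ fun _ _ => rfl
          ext x
          simp only [mem_filter, mem_Ioc] at hl₂ ⊢
          omega
        · intro x y
          simp only [mem_Ioc]
          constructor
          · rintro ⟨⟨h1, h2⟩, h3, h4⟩
            rw [Nat.le_div_iff_mul_le h1] at h4
            refine ⟨⟨h1, ?_⟩, h3, ?_⟩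
            · rw [Nat.le_div_iff_mul_le h3]; linarith [mul_comm x y]
            · exact (Nat.le_mul_of_pos_right y h1).trans h4
          · rintro ⟨⟨h1, h2⟩, h3, h4⟩
            rw [Nat.le_div_iff_mul_le h3] at h2
            refine ⟨⟨h1, ?_⟩, h3, ?_⟩
            · exact (Nat.le_mul_of_pos_right x h3).trans h2
            · rw [Nat.le_div_iff_mul_le h1]; linarith [mul_comm x y]
    rw [e1, e2]
    refine (norm_add_le _ _).trans ?_
    have hsq : √(Y : ℝ) ≤ √(Z : ℝ) := Real.sqrt_le_sqrt (by exact_mod_cast hYZ)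
    have b1 : ‖∑ l₁ ∈ Ioc 0 Y, ∑ l₂ ∈ Ioc (l₁ - 1) (Y / l₁), P l₁ l₂‖ ≤
        √(Y : ℝ) * (C * r * (1 + Real.log Z) / D) := by
      apply SmB_short hK1
      · intro l hl hYl
        have : Y / l ≤ l - 1 := by
          have : Y / l < l := by
            rw [Nat.div_lt_iff_lt_mul hl]
            exact hYl
          omega
        rw [Ioc_eq_empty_of_le this, sum_empty]
      · intro l hl _
        simp only [hP]
        rw [← mul_sum, norm_mul]
        have h2 : ‖χ (l : ZMod r)‖ ≤ 1 := DirichletCharacter.norm_le_one _ _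
        have h3 := h r χ (m * l) Z D i (l - 1) v hr hχ (Nat.mul_pos hm hl) hZ hD hi
        rw [← Nat.div_div_eq_div_mul] at h3
        calc ‖χ (l : ZMod r)‖ * _ ≤ 1 * (C * r * (1 + Real.log Z) / D) := by
              gcongr
          _ = _ := one_mul _
    have b2 : ‖∑ l₂ ∈ Ioc 0 Y, ∑ l₁ ∈ Ioc l₂ (Y / l₂), P l₁ l₂‖ ≤
        √(Y : ℝ) * ((1 + Real.log Z) * (C * r * (1 + Real.log Z) / D)) := by
      apply SmB_short (by positivity)
      · intro l hl hYl
        have : Y / l ≤ l := by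
          have : Y / l < l := by
            rw [Nat.div_lt_iff_lt_mul hl]
            exact hYl
          omega
        rw [Ioc_eq_empty_of_le this, sum_empty]
      · intro l hl hlY
        have h3 := h r χ (m * l) Z D 0 l v hr hχ (Nat.mul_pos hm hl) hZ hD (by omega)
        rw [← Nat.div_div_eq_div_mul] at h3
        have e4 : ∑ l₁ ∈ Ioc l (Y / l), P l₁ l = (χ (l : ZMod r) * ((Real.log l ^ i : ℝ) : ℂ)) *
            ∑ l₁ ∈ Ioc l (Y / l), χ (l₁ : ZMod r) * ((Real.log l₁ ^ 0 : ℝ) : ℂ) *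
              ((GD D ((v : ℝ) - (m * l : ℕ) * l₁) : ℝ) : ℂ) := by
          rw [mul_sum]
          refine sum_congr rfl fun l₁ _ => ?_
          simp only [hP, pow_zero]
          push_cast
          rw [show (v : ℝ) - m * l₁ * l = (v : ℝ) - m * l * l₁ by ring]
          ring
        rw [e4, norm_mul]
        have h2 : ‖χ (l : ZMod r) * ((Real.log l ^ i : ℝ) : ℂ)‖ ≤ 1 + Real.log Z := by
          rw [norm_mul, Complex.norm_real, Real.norm_eq_abs]
          have h5 : ‖χ (l : ZMod r)‖ ≤ 1 := DirichletCharacter.norm_le_one _ _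
          have h6 : 0 ≤ Real.log l := Real.log_natCast_nonneg l
          have h7 : Real.log l ≤ Real.log Z :=
            Real.log_le_log (by exact_mod_cast hl) (by exact_mod_cast hlY.trans hYZ)
          rw [abs_of_nonneg (by positivity)]
          have h8 : Real.log l ^ i ≤ 1 + Real.log Z := by
            interval_cases i
            · rw [pow_zero]; linarith
            · rw [pow_one]; linarith
          calc ‖χ (l : ZMod r)‖ * Real.log l ^ i ≤ 1 * (1 + Real.log Z) := by gcongr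
            _ = _ := one_mul _
        exact mul_le_mul h2 h3 (norm_nonneg _) (by linarith)
    calc _ ≤ √(Y : ℝ) * (C * r * (1 + Real.log Z) / D) +
          √(Y : ℝ) * ((1 + Real.log Z) * (C * r * (1 + Real.log Z) / D)) := add_le_add b1 b2
      _ ≤ √(Z : ℝ) * ((1 + Real.log Z) * (C * r * (1 + Real.log Z) / D)) +
          √(Z : ℝ) * ((1 + Real.log Z) * (C * r * (1 + Real.log Z) / D)) := by
          have h9 : C * r * (1 + Real.log Z) / D ≤ (1 + Real.log Z) * (C * r * (1 + Real.log Z) / D) := by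
            nlinarith
          gcongr
      _ = _ := by ring
  · ring

end Pool.Agent.MVD
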