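import Pool.Agent.MVD.Par
import Pool.Agent.SInt.TriB
import Pool.Agent.SInt.FhSq
import Pool.Agent.SInt.TIaver
import Pool.Agent.SInt.VauL

/-!
Definitions for the principal character.
-/

open Finset Complex MeasureTheory

namespace Pool.Agent.MVD

open Pool.Agent.ANT Pool.Agent.SInt

/-- The pairs of dyadic blocks. -/
noncomputable def box2 (κ : ℝ) (X : ℕ) : Finset (ℕ × ℕ) :=
  ((range (Nat.log 2 (2 * X) + 1)) ×ˢ (range (Nat.log 2 (2 * X) + 1))).filter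
    (fun p => mU κ X ≤ 2 ^ p.1 ∧ mU κ X ≤ 2 ^ p.2 ∧ 2 ^ (p.1 + p.2) ≤ 2 * X)

/-- The product of the two Dirichlet polynomials of a box. -/
noncomputable def P2 (κ : ℝ) (X : ℕ) (p : ℕ × ℕ) (t : ℝ) : ℂ :=
  Fh (dy (fun n => Hf (mU κ X - 1) n) (2 ^ p.1)) (2 * 2 ^ p.1) t *
    Fh (dy (bL (mU κ X - 1)) (2 ^ p.2)) (2 * 2 ^ p.2) t

/-- The type I part. -/
noncomputable def smoothOne (κ : ℝ) (X : ℕ) (v : ℤ) : ℂ :=
  ∑ m ∈ Icc 1 ((mU κ X) ^ 2), (Mf (mU κ X - 1) m * (((1 : ℝ) / m * JJ 1 (mD κ X) m v : ℝ) : ℂ) -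
    aL (mU κ X - 1) m * (((1 : ℝ) / m * JJ 0 (mD κ X) m v : ℝ) : ℂ))

/-- The type II part. -/
noncomputable def A2 (κ : ℝ) (X : ℕ) : ℕ → ℂ := cv (fun m => Hf (mU κ X - 1) m) (bL (mU κ X - 1))

/-- The part of `A2` in one box. -/
noncomputable def B2 (κ : ℝ) (X : ℕ) (p : ℕ × ℕ) : ℕ → ℂ :=
  cv (dy (fun n => Hf (mU κ X - 1) n) (2 ^ p.1)) (dy (bL (mU κ X - 1)) (2 ^ p.2))

end Pool.Agent.MVD
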