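import Pool.Agent.MVD.VauDef
import Pool.Agent.MVD.Trunc

/-!
# Module VauM: the principal character, type II part

`U = mU κ X - 1`, `mU` a power of two. `Hf U m = 0` for `m ≤ U` and `bL U n = 0` for `n ≤ U` (bL_zero), so `A2 n = ∑_{p ∈ box2} B2 p n` for `1 ≤ n ≤ 2X` exactly
(every `a ≥ 1` lies in exactly one block `[2^j, 2^(j+1))`, `a ≥ mU = 2^k` iff `2^j ≥ mU`; `2^(j₁+j₂) ≤ ab = n ≤ 2X`), which gives `one_dyadic` with LAh_cut (SInt/TriB).
`one_mellin`: Fh_cv (SInt/FhSq; `4 · 2^(j₁+j₂) ≤ 8X`) and LAh_trunc with `B = R^(1/10)`: `|Fh| ≤ ∑_m 1/m ∑_n log n/n ≤ (log)^3` on the blocks (norm_Fh_le, norm_bL_le, `|Hf| ≤ 1`);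
`2 B (v+D)²/(D² T) ≤ 800 R^(1/10-6) ≤ R^(-11/2)` (`D ≥ X/(10R^4)`, `T = R^14`).
-/

open Finset Complex MeasureTheory

namespace Pool.Agent.MVD

open Pool.Agent.ANT Pool.Agent.SInt

private lemma vauM_D {κ : ℝ} {X : ℕ} (hP : ParOK κ X) : 1 ≤ mD κ X := by
  have h1 := hP.D3
  have h2 := hP.R2
  have h3 : 1 ≤ mR κ X ^ 4 := Nat.one_le_pow _ _ (by omega)
  omega

private lemma vauM_dy (a : ℕ → ℂ) (j : ℕ) {n : ℕ} (hn : n ≠ 0) :
    dy a (2 ^ j) n = if j = Nat.log 2 n then a n else 0 := by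
  unfold dy
  have h : n ∈ Ico (2 ^ j) (2 * 2 ^ j) ↔ j = Nat.log 2 n := by
    rw [mem_Ico, eq_comm, Nat.log_eq_iff (Or.inr ⟨by norm_num, hn⟩), pow_succ, mul_comm 2]
  by_cases h1 : j = Nat.log 2 n
  · rw [if_pos (h.2 h1), if_pos h1]
  · rw [if_neg (fun hc => h1 (h.1 hc)), if_neg h1]

private lemma vauM_U {κ : ℝ} {X a : ℕ} (h : ¬ a ≤ mU κ X - 1) : mU κ X ≤ 2 ^ Nat.log 2 a := by
  have h1 : mU κ X ≤ a := by omega
  have h0 : 0 < mU κ X := by
    unfold mU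
    positivity
  have ha : a ≠ 0 := by omega
  unfold mU at h1 ⊢
  exact Nat.pow_le_pow_right (by norm_num) (Nat.le_log_of_pow_le (by norm_num) h1)

private lemma vauM_point {κ : ℝ} {X n : ℕ} (hnX : n ≤ 2 * X) :
    A2 κ X n = ∑ p ∈ box2 κ X, B2 κ X p n := by
  unfold A2 B2 cv
  rw [Finset.sum_comm]
  refine Finset.sum_congr rfl fun q hq => ?_
  have hq0 := Nat.ne_zero_of_mem_divisorsAntidiagonal hq
  have hq1 := (Nat.mem_divisorsAntidiagonal.mp hq).1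
  have h1 : ∀ p ∈ box2 κ X, dy (fun n => Hf (mU κ X - 1) n) (2 ^ p.1) q.1 *
      dy (bL (mU κ X - 1)) (2 ^ p.2) q.2 =
      if p = (Nat.log 2 q.1, Nat.log 2 q.2) then
        Hf (mU κ X - 1) q.1 * bL (mU κ X - 1) q.2 else 0 := by
    intro p _
    rw [vauM_dy _ _ hq0.1, vauM_dy _ _ hq0.2]
    by_cases h2 : p.1 = Nat.log 2 q.1
    · by_cases h3 : p.2 = Nat.log 2 q.2
      · have h5 : p = (Nat.log 2 q.1, Nat.log 2 q.2) := Prod.ext_iff.2 ⟨h2, h3⟩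
        rw [if_pos h2, if_pos h3, if_pos h5]
      · rw [if_neg h3, mul_zero, if_neg]
        intro h4
        exact h3 (Prod.ext_iff.1 h4).2
    · rw [if_neg h2, zero_mul, if_neg]
      intro h4
      exact h2 (Prod.ext_iff.1 h4).1
  rw [Finset.sum_congr rfl h1, Finset.sum_ite_eq']
  split_ifs with h2
  · rfl
  · by_cases ha : q.1 ≤ mU κ X - 1
    · have h3 : (fun m => Hf (mU κ X - 1) m) q.1 = 0 := by
        change Hf (mU κ X - 1) q.1 = 0
        rw [Hf_apply, if_pos ha]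
      rw [h3, zero_mul]
    · by_cases hb : q.2 ≤ mU κ X - 1
      · rw [bL_zero hb, mul_zero]
      · exfalso
        apply h2
        have h3 : 2 ^ Nat.log 2 q.1 ≤ q.1 := Nat.pow_log_le_self 2 hq0.1
        have h4 : 2 ^ Nat.log 2 q.2 ≤ q.2 := Nat.pow_log_le_self 2 hq0.2
        have h5 : q.1 ≤ 2 * X := by
          have : q.1 * 1 ≤ q.1 * q.2 := Nat.mul_le_mul_left _ (Nat.one_le_iff_ne_zero.2 hq0.2)
          omega
        have h6 : q.2 ≤ 2 * X := by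
          have : 1 * q.2 ≤ q.1 * q.2 := Nat.mul_le_mul_right _ (Nat.one_le_iff_ne_zero.2 hq0.1)
          omega
        unfold box2
        rw [mem_filter, mem_product, mem_range, mem_range]
        refine ⟨⟨?_, ?_⟩, vauM_U ha, vauM_U hb, ?_⟩
        · change Nat.log 2 q.1 < _
          exact Nat.lt_succ_of_le (Nat.log_mono_right h5)
        · change Nat.log 2 q.2 < _
          exact Nat.lt_succ_of_le (Nat.log_mono_right h6)
        · rw [pow_add]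
          calc 2 ^ Nat.log 2 q.1 * 2 ^ Nat.log 2 q.2 ≤ q.1 * q.2 := Nat.mul_le_mul h3 h4
            _ = n := hq1
            _ ≤ 2 * X := hnX

theorem one_dyadic {κ : ℝ} {X : ℕ} (hP : ParOK κ X) (v : ℤ) (hv : v + mD κ X ≤ 2 * X) :
    LAh (A2 κ X) (2 * X) (mD κ X) v = ∑ p ∈ box2 κ X, LAh (B2 κ X p) (8 * X) (mD κ X) v := by
  have hD := vauM_D hP
  have h1 : ∀ p ∈ box2 κ X, LAh (B2 κ X p) (8 * X) (mD κ X) v =
      LAh (B2 κ X p) (2 * X) (mD κ X) v := by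
    intro p _
    apply LAh_cut hD
    · push_cast
      linarith
    · push_cast
      exact hv
  rw [Finset.sum_congr rfl h1]
  unfold LAh
  rw [Finset.sum_comm]
  refine Finset.sum_congr rfl fun n hn => ?_
  rw [Finset.mem_Icc] at hn
  rw [vauM_point hn.2, Finset.sum_mul]

private lemma vauM_supp (a : ℕ → ℂ) (M : ℕ) : ∀ m, m ∉ Ico M (2 * M) → dy a M m = 0 := by
  intro m hm
  unfold dy
  rw [if_neg hm]

private lemma vauM_Fh {κ : ℝ} {X : ℕ} {p : ℕ × ℕ} (hp : p ∈ box2 κ X) (t : ℝ) :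
    Fh (B2 κ X p) (8 * X) t = P2 κ X p t := by
  unfold B2 P2
  apply Fh_cv (vauM_supp _ _) (vauM_supp _ _) (Nat.one_le_two_pow) (Nat.one_le_two_pow)
  unfold box2 at hp
  rw [mem_filter] at hp
  have h := hp.2.2.2
  rw [pow_add] at h
  rw [mul_assoc]
  omega

private lemma vauM_P2 {κ : ℝ} {X : ℕ} (hP : ParOK κ X) {p : ℕ × ℕ} (hp : p ∈ box2 κ X) (t : ℝ) :
    ‖P2 κ X p t‖ ≤ 2 * Real.log X := by
  have hX3 : (1000 : ℝ) ≤ X := by exact_mod_cast hP.X3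
  have hlog : 0 ≤ Real.log X := Real.log_nonneg (by linarith)
  unfold P2
  rw [norm_mul]
  have h1 : ‖Fh (dy (fun n => Hf (mU κ X - 1) n) (2 ^ p.1)) (2 * 2 ^ p.1) t‖ ≤ 1 := by
    apply norm_Fh_dyadic Nat.one_le_two_pow (vauM_supp _ _)
    intro m
    unfold dy
    split_ifs
    · exact norm_Hf_le _ _
    · simp
  have h2 : ‖Fh (dy (bL (mU κ X - 1)) (2 ^ p.2)) (2 * 2 ^ p.2) t‖ ≤ 2 * Real.log X := by
    apply norm_Fh_dyadic Nat.one_le_two_pow (vauM_supp _ _)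
    intro m
    unfold dy
    split_ifs with hm
    · refine (norm_bL_le _ _).trans ?_
      rw [mem_Ico] at hm
      unfold box2 at hp
      rw [mem_filter] at hp
      have h := hp.2.2.2
      rw [pow_add] at h
      have h3 : 1 * 2 ^ p.2 ≤ 2 ^ p.1 * 2 ^ p.2 := Nat.mul_le_mul_right _ Nat.one_le_two_pow
      have h4 : m ≤ 4 * X := by omega
      have h5 : 0 < m := lt_of_lt_of_le (by positivity) hm.1
      have h6 : (m : ℝ) ≤ (X : ℝ) ^ 2 := by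
        have h7 : (m : ℝ) ≤ 4 * X := by exact_mod_cast h4
        nlinarith
      calc Real.log m ≤ Real.log ((X : ℝ) ^ 2) := Real.log_le_log (by exact_mod_cast h5) h6
        _ = 2 * Real.log X := by
          rw [Real.log_pow]
          norm_num
    · rw [norm_zero]
      positivity
  calc _ ≤ 1 * (2 * Real.log X) := mul_le_mul h1 h2 (norm_nonneg _) zero_le_one
    _ = 2 * Real.log X := one_mul _

theorem one_mellin {κ : ℝ} (hκ : 0 < κ) (hκ1 : κ ≤ 1 / 1000) : ∃ X₀ : ℕ, ∀ X : ℕ, X₀ ≤ X →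
    ∀ p ∈ box2 κ X, ∀ v : ℤ, (mV κ X : ℤ) ≤ v → v + mD κ X ≤ 2 * X →
    ‖LAh (B2 κ X p) (8 * X) (mD κ X) v -
      (1 / (2 * Real.pi) : ℂ) * ∫ t in Set.Icc (-mT κ X) (mT κ X), P2 κ X p t * kap (mD κ X) v t‖ ≤
      1 / (mR κ X : ℝ) ^ (11 / 2 : ℝ) := by
  obtain ⟨X₁, h₁⟩ := par_ok hκ hκ1
  obtain ⟨X₂, h₂⟩ := log_le_R hκ hκ1 1600 1 (δ := 1 / 2) (by norm_num)
  refine ⟨max X₁ X₂, fun X hX p hp v hv1 hv2 => ?_⟩
  have hP := h₁ X (le_trans (le_max_left _ _) hX)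
  have hL := h₂ X (le_trans (le_max_right _ _) hX)
  have hD := vauM_D hP
  have hv0 : (0 : ℤ) ≤ v := le_trans (Int.natCast_nonneg _) hv1
  have hR0 : (0 : ℝ) < mR κ X := by
    have : 0 < mR κ X := by
      have := hP.R2
      omega
    exact_mod_cast this
  have hT : 0 < mT κ X := by
    unfold mT
    positivity
  have h3 := LAh_trunc hD (B2 κ X p) (8 * X) hT (B := 2 * Real.log X)
    (fun t => by rw [vauM_Fh hp t]; exact vauM_P2 hP hp t) hv0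
  have h4 : ∀ t : ℝ, Fh (B2 κ X p) (8 * X) t * kap (mD κ X) v t =
      P2 κ X p t * kap (mD κ X) v t := fun t => by rw [vauM_Fh hp t]
  simp only [h4] at h3
  refine h3.trans ?_
  have hD0 : (0 : ℝ) < mD κ X := by exact_mod_cast hD
  have hX3 : (1000 : ℝ) ≤ X := by exact_mod_cast hP.X3
  have hlog : 0 ≤ Real.log X := Real.log_nonneg (by linarith)
  have h5 : (X : ℝ) ≤ 10 * (mD κ X * (mR κ X : ℝ) ^ 4) := by
    have h6 : X ≤ 10 * (mD κ X * mR κ X ^ 4) := by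
      have := hP.W2
      have := hP.D2
      omega
    exact_mod_cast h6
  have h6 : (v : ℝ) + mD κ X ≤ 2 * X := by exact_mod_cast hv2
  have h7 : (0 : ℝ) ≤ (v : ℝ) + mD κ X := by
    have : (0 : ℝ) ≤ v := by exact_mod_cast hv0
    linarith
  have h8 : ((v : ℝ) + mD κ X) ^ 2 ≤ 400 * ((mD κ X : ℝ) ^ 2 * (mR κ X : ℝ) ^ 8) := by
    calc ((v : ℝ) + mD κ X) ^ 2 ≤ (20 * (mD κ X * (mR κ X : ℝ) ^ 4)) ^ 2 :=
          pow_le_pow_left₀ h7 (by linarith) 2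
      _ = 400 * ((mD κ X : ℝ) ^ 2 * (mR κ X : ℝ) ^ 8) := by ring
  have h9 : 2 * (2 * Real.log X) * ((v : ℝ) + mD κ X) ^ 2 / ((mD κ X : ℝ) ^ 2 * mT κ X) ≤
      (1600 * Real.log X ^ 1) / (mR κ X : ℝ) ^ 6 := by
    unfold mT
    rw [div_le_div_iff₀ (by positivity) (by positivity)]
    calc 2 * (2 * Real.log X) * ((v : ℝ) + mD κ X) ^ 2 * (mR κ X : ℝ) ^ 6
        ≤ 2 * (2 * Real.log X) * (400 * ((mD κ X : ℝ) ^ 2 * (mR κ X : ℝ) ^ 8)) *
          (mR κ X : ℝ) ^ 6 := by gcongr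
      _ = 1600 * Real.log X ^ 1 * ((mD κ X : ℝ) ^ 2 * (mR κ X : ℝ) ^ 14) := by ring
  refine h9.trans ?_
  have h10 : (1600 * Real.log X ^ 1) / (mR κ X : ℝ) ^ 6 ≤
      (mR κ X : ℝ) ^ (1 / 2 : ℝ) / (mR κ X : ℝ) ^ 6 := by
    gcongr
  refine h10.trans (le_of_eq ?_)
  rw [div_eq_div_iff (by positivity) (by positivity), one_mul, ← Real.rpow_add hR0]
  have h11 : (1 / 2 : ℝ) + 11 / 2 = ((6 : ℕ) : ℝ) := by norm_num
  rw [h11, Real.rpow_natCast]

end Pool.Agent.MVD
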