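import Pool.Agent.MVD.VauS
import Pool.Agent.MVD.VauM
import Pool.Agent.SInt.MelInv

/-!
# Module VauOne: the principal character

`one_dec`: add up one_smooth, one_dyadic, one_mellin: error `R^(-6) + (4 log X)^2 R^(-11/2) ≤ R^(-5)` (card_box2, log_le_R).
`P2_L1`: Cauchy-Schwarz for the integral and Fh_sq_dyadic (SInt/FhSq; `T = R^14 ≤ 2 mU ≤ 2 · 2^j`): the coefficients of the blocks are bounded by `1` (`Hf`) and by `log(4X)` (norm_bL_le).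
`card_box2`: `Nat.log 2 (2X) + 1 ≤ 2 + log X / log 2 ≤ 4 log X` for `X ≥ 3`.
-/

open Finset Complex MeasureTheory

namespace Pool.Agent.MVD

open Pool.Agent.ANT Pool.Agent.SInt

private lemma vauOne_log {X : ℕ} (hX : 3 ≤ X) : (1 : ℝ) ≤ Real.log X := by
  have h3 : (3 : ℝ) ≤ X := by exact_mod_cast hX
  rw [Real.le_log_iff_exp_le (by linarith)]
  linarith [Real.exp_one_lt_d9]

theorem card_box2 {κ : ℝ} {X : ℕ} (hX : 3 ≤ X) : ((box2 κ X).card : ℝ) ≤ (4 * Real.log X) ^ 2 := by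
  have h1 : (box2 κ X).card ≤ (Nat.log 2 (2 * X) + 1) * (Nat.log 2 (2 * X) + 1) := by
    refine (card_filter_le _ _).trans ?_
    rw [card_product, card_range]
  have h2 : ((box2 κ X).card : ℝ) ≤ ((Nat.log 2 (2 * X) + 1 : ℕ) : ℝ) ^ 2 := by
    rw [pow_two]
    exact_mod_cast h1
  refine h2.trans (pow_le_pow_left₀ (Nat.cast_nonneg _) ?_ 2)
  have h3 : Nat.log 2 (2 * X) = Nat.log 2 X + 1 := by
    rw [mul_comm]
    exact Nat.log_mul_base (by norm_num) (by omega)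
  rw [h3]
  have h4 : (Nat.log 2 X : ℝ) * Real.log 2 ≤ Real.log X := by
    have h5 : (2 : ℝ) ^ (Nat.log 2 X) ≤ X := by
      exact_mod_cast Nat.pow_log_le_self 2 (x := X) (by omega)
    have h6 := Real.log_le_log (by positivity) h5
    rwa [Real.log_pow] at h6
  have h5 := vauOne_log hX
  have h6 := Real.log_two_gt_d9
  have h7 : (0 : ℝ) ≤ Nat.log 2 X := Nat.cast_nonneg _
  push_cast
  nlinarith

theorem one_dec {κ : ℝ} (hκ : 0 < κ) (hκ1 : κ ≤ 1 / 1000) : ∃ X₀ : ℕ, ∀ X : ℕ, X₀ ≤ X →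
    ∀ v : ℤ, (mV κ X : ℤ) ≤ v → v + mD κ X ≤ 2 * X →
    ‖LAh LamN (2 * X) (mD κ X) v - smoothOne κ X v -
      ∑ p ∈ box2 κ X, (1 / (2 * Real.pi) : ℂ) * ∫ t in Set.Icc (-mT κ X) (mT κ X),
        P2 κ X p t * kap (mD κ X) v t‖ ≤ 1 / (mR κ X : ℝ) ^ 5 := by
  obtain ⟨X1, h1⟩ := one_smooth hκ hκ1
  obtain ⟨X2, h2⟩ := one_mellin hκ hκ1
  obtain ⟨X3, h3⟩ := par_ok hκ hκ1
  obtain ⟨X4, h4⟩ := log_le_R hκ hκ1 32 2 (δ := 1 / 2) (by norm_num)
  refine ⟨X1 + X2 + (X3 + X4), fun X hX v hv1 hv2 => ?_⟩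
  have hP := h3 X (by omega)
  have hR : (100 : ℝ) ≤ mR κ X := by exact_mod_cast hP.R2
  have hR0 : (0 : ℝ) < mR κ X := by linarith
  have hX3 : 3 ≤ X := by have := hP.X3; omega
  have e2 : ‖LAh (A2 κ X) (2 * X) (mD κ X) v -
      ∑ p ∈ box2 κ X, (1 / (2 * Real.pi) : ℂ) * ∫ t in Set.Icc (-mT κ X) (mT κ X),
        P2 κ X p t * kap (mD κ X) v t‖ ≤
      (4 * Real.log X) ^ 2 * (1 / (mR κ X : ℝ) ^ (11 / 2 : ℝ)) := by
    rw [one_dyadic hP v hv2, ← sum_sub_distrib]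
    refine (norm_sum_le _ _).trans
      ((sum_le_sum (fun p hp => h2 X (by omega) p hp v hv1 hv2)).trans ?_)
    rw [sum_const, nsmul_eq_mul]
    exact mul_le_mul_of_nonneg_right (card_box2 hX3) (by positivity)
  have e3 : (4 * Real.log X) ^ 2 * (1 / (mR κ X : ℝ) ^ (11 / 2 : ℝ)) ≤
      1 / 2 * (1 / (mR κ X : ℝ) ^ 5) := by
    have h5 := h4 X (by omega)
    have hr : 0 < (mR κ X : ℝ) ^ (1 / 2 : ℝ) := Real.rpow_pos_of_pos hR0 _
    have e5 : (mR κ X : ℝ) ^ (11 / 2 : ℝ) = (mR κ X : ℝ) ^ (1 / 2 : ℝ) * (mR κ X : ℝ) ^ 5 := by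
      rw [← Real.rpow_natCast, ← Real.rpow_add hR0]
      norm_num
    rw [e5]
    have h6 : (4 * Real.log X) ^ 2 / (mR κ X : ℝ) ^ (1 / 2 : ℝ) ≤ 1 / 2 := by
      rw [div_le_iff₀ hr]
      linarith
    calc (4 * Real.log X) ^ 2 * (1 / ((mR κ X : ℝ) ^ (1 / 2 : ℝ) * (mR κ X : ℝ) ^ 5))
        = (4 * Real.log X) ^ 2 / (mR κ X : ℝ) ^ (1 / 2 : ℝ) * (1 / (mR κ X : ℝ) ^ 5) := by
          field_simp
      _ ≤ 1 / 2 * (1 / (mR κ X : ℝ) ^ 5) := mul_le_mul_of_nonneg_right h6 (by positivity)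
  have e4 : 1 / (mR κ X : ℝ) ^ 6 ≤ 1 / 2 * (1 / (mR κ X : ℝ) ^ 5) := by
    have h7 : (1 : ℝ) / mR κ X ≤ 1 / 2 := by
      rw [div_le_div_iff₀ hR0 (by norm_num)]
      linarith
    calc 1 / (mR κ X : ℝ) ^ 6 = 1 / mR κ X * (1 / (mR κ X : ℝ) ^ 5) := by
          field_simp
      _ ≤ 1 / 2 * (1 / (mR κ X : ℝ) ^ 5) := mul_le_mul_of_nonneg_right h7 (by positivity)
  have e1 := h1 X (by omega) v hv1 hv2
  have e6 : LAh LamN (2 * X) (mD κ X) v - smoothOne κ X v -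
      ∑ p ∈ box2 κ X, (1 / (2 * Real.pi) : ℂ) * ∫ t in Set.Icc (-mT κ X) (mT κ X),
        P2 κ X p t * kap (mD κ X) v t =
      (LAh LamN (2 * X) (mD κ X) v - smoothOne κ X v - LAh (A2 κ X) (2 * X) (mD κ X) v) +
      (LAh (A2 κ X) (2 * X) (mD κ X) v -
        ∑ p ∈ box2 κ X, (1 / (2 * Real.pi) : ℂ) * ∫ t in Set.Icc (-mT κ X) (mT κ X),
          P2 κ X p t * kap (mD κ X) v t) := by
    ring
  rw [e6]
  refine (norm_add_le _ _).trans ?_
  linarith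

/-- The mean value theorem: `T = R^14 ≤ mU`. -/
theorem P2_L1 {κ : ℝ} (hκ : 0 < κ) (hκ1 : κ ≤ 1 / 1000) : ∃ c X₀ : ℕ, ∀ X : ℕ, X₀ ≤ X → ∀ p ∈ box2 κ X,
    ∫ t in Set.Icc (-mT κ X) (mT κ X), ‖P2 κ X p t‖ ≤ Real.log X ^ c := by
  obtain ⟨C, hC, hsq⟩ := Fh_sq_dyadic
  obtain ⟨X3, h3⟩ := par_ok hκ hκ1
  refine ⟨3, X3 + ⌈Real.exp (3 * C)⌉₊, fun X hX p hp => ?_⟩
  have hP := h3 X (by omega)
  have hR : 100 ≤ mR κ X := hP.R2
  have hX3 : 1000 ≤ X := hP.X3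
  have hXr : (1000 : ℝ) ≤ X := by exact_mod_cast hX3
  have hL1 := vauOne_log (X := X) (by omega)
  have hL : 3 * C ≤ Real.log X := by
    rw [Real.le_log_iff_exp_le (by linarith)]
    refine (Nat.le_ceil _).trans ?_
    exact_mod_cast (show ⌈Real.exp (3 * C)⌉₊ ≤ X by omega)
  have hL4 : Real.log ((4 * X : ℕ) : ℝ) ≤ 2 * Real.log X := by
    push_cast
    rw [Real.log_mul (by norm_num) (by linarith)]
    have : Real.log 4 ≤ Real.log X := Real.log_le_log (by norm_num) (by linarith)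
    linarith
  unfold box2 at hp
  rw [mem_filter] at hp
  obtain ⟨_, hp1, hp2, hp3⟩ := hp
  have hR0 : (0 : ℝ) < mR κ X := by exact_mod_cast (show 0 < mR κ X by omega)
  have hT : 0 < mT κ X := by
    unfold mT
    positivity
  have hTU : mT κ X ≤ mU κ X := by
    have h5 : mR κ X ^ 14 ≤ mU κ X :=
      (Nat.pow_le_pow_right (by omega) (by norm_num)).trans hP.U1
    unfold mT
    exact_mod_cast h5
  have hTp : ∀ j : ℕ, mU κ X ≤ 2 ^ j → mT κ X ≤ 2 * ((2 ^ j : ℕ) : ℝ) := by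
    intro j hj
    have h5 : (mU κ X : ℝ) ≤ ((2 ^ j : ℕ) : ℝ) := by exact_mod_cast hj
    have h6 : (0 : ℝ) ≤ ((2 ^ j : ℕ) : ℝ) := Nat.cast_nonneg _
    linarith
  have hF := hsq (2 ^ p.1) (dy (fun n => Hf (mU κ X - 1) n) (2 ^ p.1)) 1 (mT κ X)
    Nat.one_le_two_pow hT (hTp p.1 hp1) (fun m hm => by unfold dy; rw [if_neg hm])
    (fun m => by
      unfold dy
      split_ifs
      · exact norm_Hf_le _ _
      · simp)
  have hG := hsq (2 ^ p.2) (dy (bL (mU κ X - 1)) (2 ^ p.2)) (2 * Real.log X) (mT κ X)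
    Nat.one_le_two_pow hT (hTp p.2 hp2) (fun m hm => by unfold dy; rw [if_neg hm])
    (fun m => by
      unfold dy
      split_ifs with hm
      · rw [mem_Ico] at hm
        have h5 : m ≤ 4 * X := by
          have h6 : 2 ^ p.2 ≤ 2 ^ (p.1 + p.2) := Nat.pow_le_pow_right (by norm_num) (by omega)
          omega
        have h7 : 0 < m := lt_of_lt_of_le (by positivity) hm.1
        refine (norm_bL_le _ _).trans ((Real.log_le_log (by exact_mod_cast h7) ?_).trans hL4)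
        exact_mod_cast h5
      · rw [norm_zero]
        linarith)
  have hcF := (continuous_Fh (dy (fun n => Hf (mU κ X - 1) n) (2 ^ p.1)) (2 * 2 ^ p.1)).norm
  have hcG := (continuous_Fh (dy (bL (mU κ X - 1)) (2 ^ p.2)) (2 * 2 ^ p.2)).norm
  have hint : ∀ {g : ℝ → ℝ}, Continuous g →
      IntegrableOn g (Set.Icc (-mT κ X) (mT κ X)) := fun hg =>
    hg.continuousOn.integrableOn_compact isCompact_Icc
  have h5 : ∫ t in Set.Icc (-mT κ X) (mT κ X), ‖P2 κ X p t‖ ≤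
      ∫ t in Set.Icc (-mT κ X) (mT κ X),
        (1 / 2 * ‖Fh (dy (fun n => Hf (mU κ X - 1) n) (2 ^ p.1)) (2 * 2 ^ p.1) t‖ ^ 2 +
        1 / 2 * ‖Fh (dy (bL (mU κ X - 1)) (2 ^ p.2)) (2 * 2 ^ p.2) t‖ ^ 2) := by
    refine setIntegral_mono_on ?_ ?_ measurableSet_Icc (fun t _ => ?_)
    · refine hint ?_
      unfold P2
      exact ((continuous_Fh _ _).mul (continuous_Fh _ _)).norm
    · exact hint ((continuous_const.mul (hcF.pow 2)).add (continuous_const.mul (hcG.pow 2)))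
    · unfold P2
      rw [norm_mul]
      nlinarith [sq_nonneg (‖Fh (dy (fun n => Hf (mU κ X - 1) n) (2 ^ p.1)) (2 * 2 ^ p.1) t‖ -
        ‖Fh (dy (bL (mU κ X - 1)) (2 ^ p.2)) (2 * 2 ^ p.2) t‖)]
  refine h5.trans ?_
  have hi1 : IntegrableOn (fun t : ℝ =>
      1 / 2 * ‖Fh (dy (fun n => Hf (mU κ X - 1) n) (2 ^ p.1)) (2 * 2 ^ p.1) t‖ ^ 2)
      (Set.Icc (-mT κ X) (mT κ X)) := hint (continuous_const.mul (hcF.pow 2))
  have hi2 : IntegrableOn (fun t : ℝ =>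
      1 / 2 * ‖Fh (dy (bL (mU κ X - 1)) (2 ^ p.2)) (2 * 2 ^ p.2) t‖ ^ 2)
      (Set.Icc (-mT κ X) (mT κ X)) := hint (continuous_const.mul (hcG.pow 2))
  rw [integral_add hi1 hi2, integral_const_mul, integral_const_mul]
  have h6 : (1 : ℝ) ≤ Real.log X ^ 2 := one_le_pow₀ hL1
  have h7 : 3 * C * Real.log X ^ 2 ≤ Real.log X ^ 3 := by
    calc 3 * C * Real.log X ^ 2 ≤ Real.log X * Real.log X ^ 2 :=
          mul_le_mul_of_nonneg_right hL (by positivity)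
      _ = Real.log X ^ 3 := by ring
  nlinarith

end Pool.Agent.MVD
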