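import Pool.Agent.MVD.VauDef

/-!
# Module VauS: the principal character, type I part

`U = mU κ X - 1`, `mU` a power of two with `R^15 ≤ mU ≤ 2 R^15`. For `v ≥ mV` only `n > v - D ≥ D > U` matter (GD_eq_zero), so `LoL U` drops out of
vaughan_L (SInt/VauL). Type I: `∑_{m ≤ U²} α(m) ∑_{l ≤ 2X/m} (log l)^j GD(v - ml)` with `α = Mf U` (`j = 1`), `- aL U` (`j = 0`; aL_zero, norm_aL_le), coefficients `≤ 1 + log m`, by
TI_average with `r = 1`, `a = 0` (`Nat.Coprime 0 1`; `ee 0 = 1`), `Z = 2X`: `= α(m)/m JJ_j(m,v) + O((1+log 2X)/D)`; `Mf U m = 0` for `m > U` and `aL U m = 0` for `m > U²`, so the sum may be written over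
`m ≤ mU²`. Total error `≤ 4 R^30 · 2 · (1 + log 2X)² C · 10 R^4/X ≤ R^(-6)`.
-/

open Finset Complex MeasureTheory
open scoped ArithmeticFunction.Moebius ArithmeticFunction.vonMangoldt

namespace Pool.Agent.MVD

open Pool.Agent.ANT Pool.Agent.SInt

namespace VauSAux

theorem icc (N : ℕ) : Icc 1 N = Ioc 0 N := by
  ext x
  simp only [mem_Icc, mem_Ioc]
  omega

theorem lah (α : ℕ → ℂ) (j D Z : ℕ) (v : ℤ) :
    LAh (cv α (fun l => ((Real.log l ^ j : ℝ) : ℂ))) Z D v =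
      ∑ m ∈ Icc 1 Z, α m * ∑ l ∈ Icc 1 (Z / m), ((Real.log l ^ j : ℝ) : ℂ) *
        ((GD D ((v : ℝ) - m * l) : ℝ) : ℂ) := by
  have h := sum_pairs' (fun m l => α m * (((Real.log l ^ j : ℝ) : ℂ) *
        ((GD D ((v : ℝ) - m * l) : ℝ) : ℂ))) Z
  rw [icc]
  simp only [icc, Finset.mul_sum]
  rw [← h]
  unfold LAh
  rw [icc]
  refine Finset.sum_congr rfl fun n hn => ?_
  unfold cv
  rw [Finset.sum_mul]
  refine Finset.sum_congr rfl fun p hp => ?_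
  have hp' := (Nat.mem_divisorsAntidiagonal.mp hp).1
  have hp2 : (n : ℝ) = (p.1 : ℝ) * p.2 := by rw [← hp']; push_cast; ring
  rw [hp2, mul_assoc]

theorem avg : ∃ C : ℝ, 0 < C ∧ ∀ (m Z D i : ℕ) (v : ℤ), 1 ≤ m → i ≤ 1 →
    1 ≤ D → 1 ≤ Z → v + D ≤ Z →
    ‖∑ l ∈ Icc 1 (Z / m), ((Real.log l ^ i : ℝ) : ℂ) *
        ((GD D ((v : ℝ) - m * l) : ℝ) : ℂ) -
      (((1 : ℝ) / m * JJ i D m v : ℝ) : ℂ)‖ ≤ C * (1 + Real.log Z) / D := by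
  obtain ⟨C, hC, h⟩ := TI_average
  refine ⟨C, hC, fun m Z D i v hm hi hD hZ hv => ?_⟩
  have h1 := h m 1 0 Z D i v hm le_rfl (Nat.coprime_one_right 0) hi hD hZ hv
  rw [if_pos (one_dvd m)] at h1
  have h2 : ∑ l ∈ Icc 1 (Z / m), ((Real.log l ^ i : ℝ) : ℂ) * ee (-(((0 : ℕ) : ℝ) * ((m * l : ℕ) : ℝ) / ((1 : ℕ) : ℝ))) *
        ((GD D ((v : ℝ) - m * l) : ℝ) : ℂ) =
      ∑ l ∈ Icc 1 (Z / m), ((Real.log l ^ i : ℝ) : ℂ) * ((GD D ((v : ℝ) - m * l) : ℝ) : ℂ) := by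
    refine Finset.sum_congr rfl fun l _ => ?_
    have : ee (-(((0 : ℕ) : ℝ) * ((m * l : ℕ) : ℝ) / ((1 : ℕ) : ℝ))) = 1 := by
      simp [ee]
    rw [this, mul_one]
  rw [h2] at h1
  simpa using h1

theorem err {C : ℝ} (hC0 : 0 < C) (hC : ∀ (m Z D i : ℕ) (v : ℤ), 1 ≤ m → i ≤ 1 →
    1 ≤ D → 1 ≤ Z → v + D ≤ Z →
    ‖∑ l ∈ Icc 1 (Z / m), ((Real.log l ^ i : ℝ) : ℂ) *
        ((GD D ((v : ℝ) - m * l) : ℝ) : ℂ) -
      (((1 : ℝ) / m * JJ i D m v : ℝ) : ℂ)‖ ≤ C * (1 + Real.log Z) / D)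
    {α : ℕ → ℂ} {j D Z M : ℕ} (hj : j ≤ 1) (hD : 1 ≤ D) (hZ : 1 ≤ Z) (hM : M ≤ Z)
    {v : ℤ} (hv : v + D ≤ Z) {B : ℝ} (hB : ∀ m, 1 ≤ m → m ≤ M → ‖α m‖ ≤ B)
    (h0 : ∀ m, M < m → α m = 0) :
    ‖LAh (cv α (fun l => ((Real.log l ^ j : ℝ) : ℂ))) Z D v -
      ∑ m ∈ Icc 1 M, α m * (((1 : ℝ) / m * JJ j D m v : ℝ) : ℂ)‖ ≤
      M * B * (C * (1 + Real.log Z) / D) := by
  have hcut : ∑ m ∈ Icc 1 M, α m * (((1 : ℝ) / m * JJ j D m v : ℝ) : ℂ) =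
      ∑ m ∈ Icc 1 Z, α m * (((1 : ℝ) / m * JJ j D m v : ℝ) : ℂ) := by
    refine Finset.sum_subset (Finset.Icc_subset_Icc_right hM) fun m hm hm' => ?_
    rw [mem_Icc] at hm hm'
    rw [h0 m (by omega), zero_mul]
  have hlogZ : 0 ≤ Real.log Z := Real.log_nonneg (by exact_mod_cast hZ)
  have hE : 0 ≤ C * (1 + Real.log Z) / D := by positivity
  rw [hcut, lah, ← Finset.sum_sub_distrib]
  refine (norm_sum_le _ _).trans ?_
  have h1 : ∀ m ∈ Icc 1 Z, ‖α m * ∑ l ∈ Icc 1 (Z / m), ((Real.log l ^ j : ℝ) : ℂ) *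
        ((GD D ((v : ℝ) - m * l) : ℝ) : ℂ) - α m * (((1 : ℝ) / m * JJ j D m v : ℝ) : ℂ)‖ ≤
      if m ∈ Icc 1 M then B * (C * (1 + Real.log Z) / D) else 0 := by
    intro m hm
    rw [mem_Icc] at hm
    rw [← mul_sub, norm_mul]
    by_cases hmM : m ≤ M
    · rw [if_pos (mem_Icc.2 ⟨hm.1, hmM⟩)]
      exact mul_le_mul (hB m hm.1 hmM) (hC m Z D j v hm.1 hj hD hZ hv) (norm_nonneg _)
        ((norm_nonneg _).trans (hB m hm.1 hmM))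
    · rw [if_neg (fun h => hmM (mem_Icc.1 h).2), h0 m (by omega), norm_zero, zero_mul]
  refine (Finset.sum_le_sum h1).trans ?_
  rw [← Finset.sum_filter]
  have h2 : (Icc 1 Z).filter (fun m => m ∈ Icc 1 M) = Icc 1 M := by
    ext m
    rw [mem_filter, mem_Icc, mem_Icc]
    constructor
    · exact fun h => h.2
    · exact fun h => ⟨⟨h.1, h.2.trans hM⟩, h⟩
  rw [h2, Finset.sum_const, Nat.card_Icc, nsmul_eq_mul, Nat.add_sub_cancel]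
  exact le_of_eq (by ring)

theorem D_big {κ : ℝ} {X : ℕ} (hP : ParOK κ X) : (mR κ X : ℝ) ^ 996 ≤ 10 * mD κ X := by
  have hR0 : (0 : ℝ) < mR κ X := by
    have : 0 < mR κ X := lt_of_lt_of_le (by norm_num) hP.R2
    exact_mod_cast this
  have h1 : (mR κ X : ℝ) ^ 1000 ≤ X := by exact_mod_cast hP.Rpow
  have h2 : (X : ℝ) ≤ 5 * mW X := by exact_mod_cast hP.W2
  have h3 : (mW X : ℝ) ≤ 2 * (mD κ X * (mR κ X : ℝ) ^ 4) := by exact_mod_cast hP.D2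
  have h5 : (mR κ X : ℝ) ^ 996 * (mR κ X : ℝ) ^ 4 = (mR κ X : ℝ) ^ 1000 := by rw [← pow_add]
  have h4 : (mR κ X : ℝ) ^ 996 * (mR κ X : ℝ) ^ 4 ≤ 10 * mD κ X * (mR κ X : ℝ) ^ 4 := by
    rw [h5]
    linarith
  exact le_of_mul_le_mul_right h4 (by positivity)

theorem mU_lt {κ : ℝ} {X : ℕ} (hP : ParOK κ X) : mU κ X ≤ mD κ X := by
  have hR : (100 : ℝ) ≤ mR κ X := by exact_mod_cast hP.R2
  have h1 := D_big hP
  have h2 : (mU κ X : ℝ) ≤ 2 * (mR κ X : ℝ) ^ 15 := by exact_mod_cast hP.U2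
  have h3 : (mR κ X : ℝ) ^ 996 = (mR κ X : ℝ) ^ 15 * (mR κ X : ℝ) ^ 981 := by rw [← pow_add]
  have h4 : (20 : ℝ) ≤ (mR κ X : ℝ) ^ 981 := by
    calc (20 : ℝ) ≤ (mR κ X : ℝ) := by linarith
      _ = (mR κ X : ℝ) ^ 1 := (pow_one _).symm
      _ ≤ (mR κ X : ℝ) ^ 981 := pow_le_pow_right₀ (by linarith) (by norm_num)
  have h5 : (mR κ X : ℝ) ^ 15 * 20 ≤ (mR κ X : ℝ) ^ 15 * (mR κ X : ℝ) ^ 981 :=
    mul_le_mul_of_nonneg_left h4 (by positivity)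
  have h6 : (mU κ X : ℝ) ≤ mD κ X := by linarith
  exact_mod_cast h6

theorem split {κ : ℝ} {X : ℕ} (hP : ParOK κ X) {v : ℤ} (hv : (mV κ X : ℤ) ≤ v) :
    LAh LamN (2 * X) (mD κ X) v =
      LAh (cv (fun m => Mf (mU κ X - 1) m) (fun l => ((Real.log l ^ 1 : ℝ) : ℂ))) (2 * X) (mD κ X) v -
      LAh (cv (aL (mU κ X - 1)) (fun l => ((Real.log l ^ 0 : ℝ) : ℂ))) (2 * X) (mD κ X) v +
      LAh (A2 κ X) (2 * X) (mD κ X) v := by
  have hD1 : 1 ≤ mD κ X := by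
    have h1 : 1 ≤ mR κ X ^ 4 := Nat.one_le_pow _ _ (lt_of_lt_of_le (by norm_num) hP.R2)
    exact h1.trans hP.D3
  unfold LAh
  rw [← Finset.sum_sub_distrib, ← Finset.sum_add_distrib]
  refine Finset.sum_congr rfl fun n hn => ?_
  rw [mem_Icc] at hn
  by_cases hU : n ≤ mU κ X - 1
  · have h0 : GD (mD κ X) ((v : ℝ) - n) = 0 := by
      apply GD_eq_zero hD1
      refine le_trans ?_ (le_abs_self _)
      have h1 : ((mV κ X : ℕ) : ℝ) ≤ v := by exact_mod_cast hv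
      have h2 : (2 * mD κ X : ℝ) ≤ mV κ X := by exact_mod_cast hP.DV
      have h3 : n ≤ mD κ X := by
        have := mU_lt hP
        omega
      have h4 : (n : ℝ) ≤ mD κ X := by exact_mod_cast h3
      linarith
    rw [h0]
    simp
  · have h1 := vaughan_L (mU κ X - 1) n hn.1
    have h2 : LoL (mU κ X - 1) n = 0 := by
      show (if n ≤ mU κ X - 1 then ((Λ n : ℝ) : ℂ) else 0) = 0
      rw [if_neg hU]
    rw [h2, zero_add] at h1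
    have h3 : LamN n = ((Λ n : ℝ) : ℂ) := rfl
    rw [h3, h1]
    unfold A2
    ring

end VauSAux

open VauSAux in
theorem one_smooth {κ : ℝ} (hκ : 0 < κ) (hκ1 : κ ≤ 1 / 1000) : ∃ X₀ : ℕ, ∀ X : ℕ, X₀ ≤ X →
    ∀ v : ℤ, (mV κ X : ℤ) ≤ v → v + mD κ X ≤ 2 * X →
    ‖LAh LamN (2 * X) (mD κ X) v - smoothOne κ X v - LAh (A2 κ X) (2 * X) (mD κ X) v‖ ≤
      1 / (mR κ X : ℝ) ^ 6 := by
  obtain ⟨C, hC0, hC⟩ := avg
  obtain ⟨X₁, h₁⟩ := par_ok hκ hκ1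
  obtain ⟨X₂, h₂⟩ := log_le_R hκ hκ1 (720 * C) 2 (δ := 1) one_pos
  refine ⟨max X₁ X₂, fun X hX v hv hv2 => ?_⟩
  have hP := h₁ X ((le_max_left _ _).trans hX)
  have hlogR := h₂ X ((le_max_right _ _).trans hX)
  rw [Real.rpow_one] at hlogR
  have hD1 : 1 ≤ mD κ X := by
    have h1 : 1 ≤ mR κ X ^ 4 := Nat.one_le_pow _ _ (lt_of_lt_of_le (by norm_num) hP.R2)
    exact h1.trans hP.D3
  have hX3 : 1000 ≤ X := hP.X3
  have hX0 : (0 : ℝ) < X := by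
    have : 0 < X := by omega
    exact_mod_cast this
  have hR : (100 : ℝ) ≤ mR κ X := by exact_mod_cast hP.R2
  have hR0 : (0 : ℝ) < mR κ X := by linarith
  have hZ : 1 ≤ 2 * X := by omega
  have hv3 : v + (mD κ X : ℤ) ≤ ((2 * X : ℕ) : ℤ) := by
    push_cast
    exact hv2
  have hUD := mU_lt hP
  -- the size of `mU ^ 2`
  have hU1 : 1 ≤ mU κ X := by
    have h1 : 1 ≤ mR κ X ^ 15 := Nat.one_le_pow _ _ (lt_of_lt_of_le (by norm_num) hP.R2)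
    exact h1.trans hP.U1
  have hUr : (mU κ X : ℝ) ≤ 2 * (mR κ X : ℝ) ^ 15 := by exact_mod_cast hP.U2
  have hUsq : ((mU κ X ^ 2 : ℕ) : ℝ) ≤ 4 * (mR κ X : ℝ) ^ 30 := by
    push_cast
    calc (mU κ X : ℝ) ^ 2 ≤ (2 * (mR κ X : ℝ) ^ 15) ^ 2 := pow_le_pow_left₀ (Nat.cast_nonneg _) hUr 2
      _ = 4 * (mR κ X : ℝ) ^ 30 := by ring
  have hM : mU κ X ^ 2 ≤ 2 * X := by
    have h1 : (mR κ X : ℝ) ^ 1000 ≤ X := by exact_mod_cast hP.Rpow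
    have h2 : (mR κ X : ℝ) ^ 30 ≤ (mR κ X : ℝ) ^ 1000 :=
      pow_le_pow_right₀ (by linarith) (by norm_num)
    have h3 : 2 * (mR κ X : ℝ) ^ 30 ≤ (mR κ X : ℝ) ^ 1000 := by
      have h4 : (mR κ X : ℝ) ^ 1000 = (mR κ X : ℝ) ^ 30 * (mR κ X : ℝ) ^ 970 := by rw [← pow_add]
      have h5 : (2 : ℝ) ≤ (mR κ X : ℝ) ^ 970 := by
        calc (2 : ℝ) ≤ (mR κ X : ℝ) := by linarith
          _ = (mR κ X : ℝ) ^ 1 := (pow_one _).symm
          _ ≤ (mR κ X : ℝ) ^ 970 := pow_le_pow_right₀ (by linarith) (by norm_num)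
      rw [h4]
      nlinarith [pow_pos hR0 30]
    have h6 : ((mU κ X ^ 2 : ℕ) : ℝ) ≤ ((2 * X : ℕ) : ℝ) := by
      push_cast
      push_cast at hUsq
      linarith
    exact_mod_cast h6
  set L : ℝ := 1 + Real.log ((2 * X : ℕ) : ℝ) with hL
  have hlogX : 1 ≤ Real.log X := by
    rw [Real.le_log_iff_exp_le hX0]
    have h9 := Real.exp_one_lt_d9
    have h10 : (1000 : ℝ) ≤ X := by exact_mod_cast hX3
    linarith
  have hL3 : L ≤ 3 * Real.log X := by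
    rw [hL]
    push_cast
    rw [Real.log_mul (by norm_num) hX0.ne']
    have := Real.log_two_lt_d9
    linarith
  have hL0 : 1 ≤ L := by
    rw [hL]
    have : 0 ≤ Real.log ((2 * X : ℕ) : ℝ) := Real.log_nonneg (by exact_mod_cast hZ)
    linarith
  -- coefficients
  have hB1 : ∀ m, 1 ≤ m → m ≤ mU κ X ^ 2 → ‖Mf (mU κ X - 1) m‖ ≤ L := fun m _ _ =>
    (norm_Mf_le _ _).trans hL0
  have hB2 : ∀ m, 1 ≤ m → m ≤ mU κ X ^ 2 → ‖aL (mU κ X - 1) m‖ ≤ L := by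
    intro m hm1 hm2
    refine (norm_aL_le _ _).trans ?_
    have h1 : Real.log m ≤ Real.log ((2 * X : ℕ) : ℝ) := by
      apply Real.log_le_log
      · exact_mod_cast hm1
      · exact_mod_cast hm2.trans hM
    rw [hL]
    linarith
  have hz1 : ∀ m, mU κ X ^ 2 < m → Mf (mU κ X - 1) m = 0 := by
    intro m hm
    have h1 : mU κ X ≤ mU κ X ^ 2 := Nat.le_self_pow (by norm_num) _
    rw [Mf_apply, if_neg (by omega)]
  have hz2 : ∀ m, mU κ X ^ 2 < m → aL (mU κ X - 1) m = 0 := by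
    intro m hm
    apply aL_zero
    have h1 : (mU κ X - 1) * (mU κ X - 1) ≤ mU κ X * mU κ X :=
      Nat.mul_le_mul (Nat.sub_le _ _) (Nat.sub_le _ _)
    have h2 : mU κ X ^ 2 = mU κ X * mU κ X := sq _
    omega
  have e1 := err hC0 hC (α := fun m => Mf (mU κ X - 1) m) (j := 1) (D := mD κ X) (Z := 2 * X)
    (M := mU κ X ^ 2) le_rfl hD1 hZ hM hv3 hB1 hz1
  have e2 := err hC0 hC (α := aL (mU κ X - 1)) (j := 0) (D := mD κ X) (Z := 2 * X)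
    (M := mU κ X ^ 2) (Nat.zero_le 1) hD1 hZ hM hv3 hB2 hz2
  have hid : LAh LamN (2 * X) (mD κ X) v - smoothOne κ X v - LAh (A2 κ X) (2 * X) (mD κ X) v =
      (LAh (cv (fun m => Mf (mU κ X - 1) m) (fun l => ((Real.log l ^ 1 : ℝ) : ℂ))) (2 * X) (mD κ X) v -
        ∑ m ∈ Icc 1 (mU κ X ^ 2), Mf (mU κ X - 1) m * (((1 : ℝ) / m * JJ 1 (mD κ X) m v : ℝ) : ℂ)) -
      (LAh (cv (aL (mU κ X - 1)) (fun l => ((Real.log l ^ 0 : ℝ) : ℂ))) (2 * X) (mD κ X) v -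
        ∑ m ∈ Icc 1 (mU κ X ^ 2), aL (mU κ X - 1) m * (((1 : ℝ) / m * JJ 0 (mD κ X) m v : ℝ) : ℂ)) := by
    rw [split hP hv, smoothOne, Finset.sum_sub_distrib]
    ring
  rw [hid]
  refine (norm_sub_le _ _).trans ((add_le_add e1 e2).trans ?_)
  have hDr : (0 : ℝ) < mD κ X := by exact_mod_cast hD1
  have hDb := D_big hP
  have hq : (0 : ℝ) ≤ ((mU κ X ^ 2 : ℕ) : ℝ) := Nat.cast_nonneg _
  have h1 : ((mU κ X ^ 2 : ℕ) : ℝ) * L * (C * L / mD κ X) + ((mU κ X ^ 2 : ℕ) : ℝ) * L * (C * L / mD κ X) =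
      2 * C * L ^ 2 * ((mU κ X ^ 2 : ℕ) : ℝ) / mD κ X := by ring
  rw [h1, div_le_div_iff₀ hDr (by positivity), one_mul]
  have hLsq : L ^ 2 ≤ 9 * Real.log X ^ 2 := by
    calc L ^ 2 ≤ (3 * Real.log X) ^ 2 := pow_le_pow_left₀ (by linarith) hL3 2
      _ = 9 * Real.log X ^ 2 := by ring
  have h2 : 2 * C * L ^ 2 ≤ (mR κ X : ℝ) / 40 := by
    have h3 : 2 * C * L ^ 2 ≤ 2 * C * (9 * Real.log X ^ 2) :=
      mul_le_mul_of_nonneg_left hLsq (by positivity)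
    linarith
  have h3 : 2 * C * L ^ 2 * ((mU κ X ^ 2 : ℕ) : ℝ) ≤ (mR κ X : ℝ) / 40 * (4 * (mR κ X : ℝ) ^ 30) :=
    mul_le_mul h2 hUsq hq (by positivity)
  have h4 : 2 * C * L ^ 2 * ((mU κ X ^ 2 : ℕ) : ℝ) * (mR κ X : ℝ) ^ 6 ≤
      (mR κ X : ℝ) / 40 * (4 * (mR κ X : ℝ) ^ 30) * (mR κ X : ℝ) ^ 6 :=
    mul_le_mul_of_nonneg_right h3 (by positivity)
  have h5 : (mR κ X : ℝ) / 40 * (4 * (mR κ X : ℝ) ^ 30) * (mR κ X : ℝ) ^ 6 = (mR κ X : ℝ) ^ 37 / 10 := by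
    ring
  have h6 : (mR κ X : ℝ) ^ 37 ≤ (mR κ X : ℝ) ^ 996 :=
    pow_le_pow_right₀ (by linarith) (by norm_num)
  linarith

end Pool.Agent.MVD
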