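import Pool.Agent.MVD.ZPair

/-!
# Module ZBig: large moduli `√X ≤ Q ≤ X^{1-ε}`

Notation `L = log X`, `R = mR κ X`, `ρ = rp r N ≤ R`, `f = ff χ ω Y`, `M = 2X/Q` (natural division, `X/Q ≤ M ≤ 2X/Q` as `Q ≤ X/2`; `M ≥ X^ε ≥ R^20`). In `ZS` only `k ≤ N/Q ≤ M` matter (`N ≤ 2X`). Cauchy:
`(∑_q |ZS|)² ≤ Q ∑_q |ZS|² = Q ∑_{k₁,k₂ ≤ min(K,M)} c(k₁) c̄(k₂) PS(k₁,k₂)`, `PS = PS χ ω Y N y t k₁ k₂ n₀ n₁` the sum over `q ∈ [Q,2Q)`, `q max(k₁,k₂) + V ≤ N`, i.e. `n₀ = Q - 1`, `n₁ = min(2Q-1, (N-V)/max(k₁,k₂))`;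
`|c| ≤ 2L`. Put `η = (ρ(1+|t|))^{-1/14}/2`, so `R^{-2} ≤ η ≤ 1/2`.
(a) pairs with `|k₁-k₂| ≤ ηM`: pair_triv: `|PS| ≤ τ(k₁)τ(k₂) L^E Q + R^4`; close_pairs (`δ = ηM`, `τ ≤ τ²`): sum `≤ L^E' Q M² (η + 1/M + R^4/Q)`.
(b) pairs with `|k₁-k₂| > ηM ≥ η max`: pair_far; `max ≥ ηM`, so `X/max ≤ X/(ηM) ≤ Q/η`; `n₁ ≤ 2Q`: `|PS| ≤ corB τ(k₁)τ(k₂) L^E (η^{-5} √(1+|t|) + η^{-6} Q/√(1+|t|) + 2ηQ + 1) + R^21`, and `η^{-5} √(1+|t|) ≤ R^10 · 2R^7 ≤ Q/R^10` (`Q ≥ √X ≥ R^500`).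
Sum over the pairs with corB_eq, gcd_pair (`ρ² M ≤ M²` as `M ≥ R^20`), tau_small with exponent 6 (`τ(ρ)^6 ≤ Cρ^{1/100}`):
`≤ L^E'' Q M² ρ^{-0.99} (64 (ρ(1+|t|))^{6/14} (1+|t|)^{-1/2} + η + R^{-9}) + R^21 M²  ≤ L^E''' Q M² ((ρ(1+|t|))^{-1/14} + R^{-9})`.
Total, with `Q M ≤ 2X`: `∑_q |ZS| ≤ X L^E4 ((ρ(1+|t|))^{-1/28} + R^{-4})`; and `(ρ(1+|t|))^{-1/28} ≤ Zsav` (base `≥ 1`), `L^E4 R^{-4} ≤ R^{-1}`.
-/

open Finset Complex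

namespace Pool.Agent.MVD

open Pool.Agent.ANT Pool.Agent.SInt

namespace ZBigAux

/-- the upper end of the range of `q` -/
def n1 (Q N V k₁ k₂ : ℕ) : ℕ := min (2 * Q - 1) ((N - V) / max k₁ k₂)

theorem range_eq {Q N V k₁ k₂ : ℕ} (hQ : 1 ≤ Q) (hV : V ≤ N) (h1 : 1 ≤ k₁) :
    (Ico Q (2 * Q)).filter (fun q => q * k₁ + V ≤ N ∧ q * k₂ + V ≤ N) =
      Ioc (Q - 1) (n1 Q N V k₁ k₂) := by
  ext q
  have hm : 0 < max k₁ k₂ := lt_of_lt_of_le h1 (le_max_left _ _)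
  rw [mem_filter, mem_Ico, mem_Ioc]
  unfold n1
  rw [le_min_iff, Nat.le_div_iff_mul_le hm]
  have h3 : q * max k₁ k₂ = max (q * k₁) (q * k₂) := Nat.mul_max_mul_left .. ▸ rfl
  rw [h3, max_le_iff]
  omega

/-- one summand -/
noncomputable def gg {r : ℕ} (c : ℕ → ℂ) (χ : DirichletCharacter ℂ r) (ω : ℕ → ℂ) (Y K N V : ℕ)
    (y t : ℝ) (q k : ℕ) : ℂ :=
  (if k ≤ K then c k else 0) * (if q * k + V ≤ N then
    ff χ ω Y ((N : ℤ) - k * q) * eit t (y - k * q) else 0)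

theorem ZS_eq {r : ℕ} (c : ℕ → ℂ) (χ : DirichletCharacter ℂ r) (ω : ℕ → ℂ) (Y K N V M Q q : ℕ)
    (y t : ℝ) (hQ : 1 ≤ Q) (hq : Q ≤ q) (hM : N < Q * (M + 1)) :
    ZS c (ff χ ω Y) K N V y t q = ∑ k ∈ Icc 1 M, gg c χ ω Y K N V y t q k := by
  unfold ZS
  have h1 : ∀ k ∈ Icc 1 M, gg c χ ω Y K N V y t q k =
      if (k ≤ K ∧ q * k + V ≤ N) then c k * ff χ ω Y ((N : ℤ) - q * k) * eit t (y - q * k)
        else 0 := by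
    intro k _
    unfold gg
    by_cases h2 : k ≤ K
    · by_cases h3 : q * k + V ≤ N
      · have h4 : k ≤ K ∧ q * k + V ≤ N := ⟨h2, h3⟩
        rw [if_pos h2, if_pos h3, if_pos h4, mul_assoc, mul_comm (k : ℤ), mul_comm (k : ℝ)]
      · have h4 : ¬ (k ≤ K ∧ q * k + V ≤ N) := fun h => h3 h.2
        rw [if_neg h3, if_neg h4, mul_zero]
    · have h4 : ¬ (k ≤ K ∧ q * k + V ≤ N) := fun h => h2 h.1
      rw [if_neg h2, if_neg h4, zero_mul]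
  rw [Finset.sum_congr rfl h1, ← Finset.sum_filter]
  refine Finset.sum_congr ?_ fun _ _ => rfl
  ext k
  simp only [mem_filter, mem_Icc]
  constructor
  · rintro ⟨⟨h2, h3⟩, h4⟩
    refine ⟨⟨h2, ?_⟩, h3, h4⟩
    by_contra h5
    have h6 : M + 1 ≤ k := by omega
    have h7 : Q * (M + 1) ≤ q * k := Nat.mul_le_mul hq h6
    omega
  · rintro ⟨⟨h2, _⟩, h3, h4⟩
    exact ⟨⟨h2, h3⟩, h4⟩

theorem expand {r : ℕ} (c : ℕ → ℂ) (χ : DirichletCharacter ℂ r) (ω : ℕ → ℂ) (Y K N V M Q : ℕ)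
    (y t : ℝ) (hQ : 1 ≤ Q) (hM : N < Q * (M + 1)) (hV : V ≤ N) :
    ∑ q ∈ Ico Q (2 * Q), ‖ZS c (ff χ ω Y) K N V y t q‖ ^ 2 ≤
      ∑ k₁ ∈ Icc 1 M, ∑ k₂ ∈ Icc 1 M, ‖c k₁‖ * ‖c k₂‖ *
        ‖PS χ ω Y N y t k₁ k₂ (Q - 1) (n1 Q N V k₁ k₂)‖ := by
  have h1 : ((∑ q ∈ Ico Q (2 * Q), ‖ZS c (ff χ ω Y) K N V y t q‖ ^ 2 : ℝ) : ℂ) =
      ∑ k₁ ∈ Icc 1 M, ∑ k₂ ∈ Icc 1 M, ∑ q ∈ Ico Q (2 * Q),
        gg c χ ω Y K N V y t q k₁ * (starRingEnd ℂ) (gg c χ ω Y K N V y t q k₂) := by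
    push_cast
    have h2 : ∀ q ∈ Ico Q (2 * Q), (‖ZS c (ff χ ω Y) K N V y t q‖ : ℂ) ^ 2 =
        ∑ k₁ ∈ Icc 1 M, ∑ k₂ ∈ Icc 1 M,
          gg c χ ω Y K N V y t q k₁ * (starRingEnd ℂ) (gg c χ ω Y K N V y t q k₂) := by
      intro q hq
      rw [← Complex.mul_conj', ZS_eq c χ ω Y K N V M Q q y t hQ (mem_Ico.1 hq).1 hM, map_sum,
        Finset.sum_mul_sum]
    rw [Finset.sum_congr rfl h2, Finset.sum_comm]
    refine Finset.sum_congr rfl fun k₁ _ => ?_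
    rw [Finset.sum_comm]
  have h3 : ∀ k₁ ∈ Icc 1 M, ∀ k₂ ∈ Icc 1 M, ‖∑ q ∈ Ico Q (2 * Q),
      gg c χ ω Y K N V y t q k₁ * (starRingEnd ℂ) (gg c χ ω Y K N V y t q k₂)‖ ≤
      ‖c k₁‖ * ‖c k₂‖ * ‖PS χ ω Y N y t k₁ k₂ (Q - 1) (n1 Q N V k₁ k₂)‖ := by
    intro k₁ hk₁ k₂ hk₂
    have h4 : ∑ q ∈ Ico Q (2 * Q),
        gg c χ ω Y K N V y t q k₁ * (starRingEnd ℂ) (gg c χ ω Y K N V y t q k₂) =
        (if k₁ ≤ K then c k₁ else 0) * (starRingEnd ℂ) (if k₂ ≤ K then c k₂ else 0) *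
          PS χ ω Y N y t k₁ k₂ (Q - 1) (n1 Q N V k₁ k₂) := by
      unfold PS
      rw [← range_eq hQ hV (mem_Icc.1 hk₁).1, Finset.sum_filter, Finset.mul_sum]
      refine Finset.sum_congr rfl fun q _ => ?_
      unfold gg
      by_cases h5 : q * k₁ + V ≤ N
      · by_cases h6 : q * k₂ + V ≤ N
        · have h9 : q * k₁ + V ≤ N ∧ q * k₂ + V ≤ N := ⟨h5, h6⟩
          rw [if_pos h5, if_pos h6, if_pos h9, map_mul]
          ring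
        · have h9 : ¬ (q * k₁ + V ≤ N ∧ q * k₂ + V ≤ N) := fun h => h6 h.2
          rw [if_neg h6, if_neg h9]
          simp
      · have h9 : ¬ (q * k₁ + V ≤ N ∧ q * k₂ + V ≤ N) := fun h => h5 h.1
        rw [if_neg h5, if_neg h9]
        simp
    rw [h4, norm_mul, norm_mul, RCLike.norm_conj]
    have h7 : ∀ k, ‖(if k ≤ K then c k else 0)‖ ≤ ‖c k‖ := by
      intro k
      split_ifs
      · exact le_rfl
      · rw [norm_zero]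
        exact norm_nonneg _
    exact mul_le_mul_of_nonneg_right (mul_le_mul (h7 k₁) (h7 k₂) (norm_nonneg _) (norm_nonneg _))
      (norm_nonneg _)
  have h8 : ∑ q ∈ Ico Q (2 * Q), ‖ZS c (ff χ ω Y) K N V y t q‖ ^ 2 =
      ‖((∑ q ∈ Ico Q (2 * Q), ‖ZS c (ff χ ω Y) K N V y t q‖ ^ 2 : ℝ) : ℂ)‖ := by
    rw [Complex.norm_real, Real.norm_of_nonneg (Finset.sum_nonneg fun _ _ => sq_nonneg _)]
  rw [h8, h1]
  refine (norm_sum_le _ _).trans (Finset.sum_le_sum fun k₁ hk₁ => ?_)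
  refine (norm_sum_le _ _).trans (Finset.sum_le_sum fun k₂ hk₂ => h3 k₁ hk₁ k₂ hk₂)

/-- The sum over all pairs, from the two bounds. -/
theorem pairs_le {ρ M : ℕ} (hM : 1 ≤ M) (hρ : 1 ≤ ρ) {E2 E3 : ℕ}
    (hclose : ∀ δ : ℝ, 0 ≤ δ → ∑ m₁ ∈ Icc 1 M, ∑ m₂ ∈ Icc 1 M,
      (if |(m₁ : ℝ) - m₂| ≤ δ then tauR m₁ ^ 2 * tauR m₂ ^ 2 else 0) ≤
      (1 + Real.log M) ^ E2 * ((2 * δ + 1) * M))
    (hgcd : ∑ m₁ ∈ Icc 1 M, ∑ m₂ ∈ Icc 1 M, tauR m₁ ^ 2 * tauR m₂ ^ 2 * (Nat.gcd m₂ ρ : ℝ) *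
      (Int.gcd ((m₁ : ℤ) - m₂) ρ : ℝ) * (if m₁ = m₂ then 0 else 1) ≤
      4 * tauR ρ ^ 6 * (1 + Real.log M) ^ E3 * ((M : ℝ) ^ 2 + (ρ : ℝ) ^ 2 * M))
    (T : ℕ → ℕ → ℝ) {A1 A2 A3 A4 δ : ℝ} (hδ : 0 ≤ δ) (hA1 : 0 ≤ A1) (hA2 : 0 ≤ A2) (hA3 : 0 ≤ A3)
    (hA4 : 0 ≤ A4)
    (hT1 : ∀ k₁ ∈ Icc 1 M, ∀ k₂ ∈ Icc 1 M, T k₁ k₂ ≤ tauR k₁ * tauR k₂ * A1 + A2)
    (hT2 : ∀ k₁ ∈ Icc 1 M, ∀ k₂ ∈ Icc 1 M, δ < |(k₁ : ℝ) - k₂| → T k₁ k₂ ≤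
      (Nat.gcd k₂ ρ : ℝ) * (Int.gcd ((k₁ : ℤ) - k₂) ρ : ℝ) / ρ * (tauR k₁ * tauR k₂) * A3 + A4) :
    ∑ k₁ ∈ Icc 1 M, ∑ k₂ ∈ Icc 1 M, T k₁ k₂ ≤
      (A1 + A2) * ((1 + Real.log M) ^ E2 * ((2 * δ + 1) * M)) +
      A3 / ρ * (4 * tauR ρ ^ 6 * (1 + Real.log M) ^ E3 * ((M : ℝ) ^ 2 + (ρ : ℝ) ^ 2 * M)) +
      A4 * (M : ℝ) ^ 2 := by
  have hρ0 : (0 : ℝ) < ρ := by exact_mod_cast hρ
  have hpt : ∀ k₁ ∈ Icc 1 M, ∀ k₂ ∈ Icc 1 M, T k₁ k₂ ≤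
      (A1 + A2) * (if |(k₁ : ℝ) - k₂| ≤ δ then tauR k₁ ^ 2 * tauR k₂ ^ 2 else 0) +
      A3 / ρ * (tauR k₁ ^ 2 * tauR k₂ ^ 2 * (Nat.gcd k₂ ρ : ℝ) *
        (Int.gcd ((k₁ : ℤ) - k₂) ρ : ℝ) * (if k₁ = k₂ then 0 else 1)) + A4 := by
    intro k₁ h1 k₂ h2
    have t1 : 1 ≤ tauR k₁ := one_le_tauR (by have := (mem_Icc.1 h1).1; omega)
    have t2 : 1 ≤ tauR k₂ := one_le_tauR (by have := (mem_Icc.1 h2).1; omega)
    have t12 : 1 ≤ tauR k₁ * tauR k₂ := one_le_mul_of_one_le_of_one_le t1 t2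
    have t3 : tauR k₁ * tauR k₂ ≤ tauR k₁ ^ 2 * tauR k₂ ^ 2 := by
      have : tauR k₁ ^ 2 * tauR k₂ ^ 2 = (tauR k₁ * tauR k₂) * (tauR k₁ * tauR k₂) := by ring
      rw [this]
      exact le_mul_of_one_le_left (by linarith) t12
    have hn : 0 ≤ A3 / ρ * (tauR k₁ ^ 2 * tauR k₂ ^ 2 * (Nat.gcd k₂ ρ : ℝ) *
        (Int.gcd ((k₁ : ℤ) - k₂) ρ : ℝ) * (if k₁ = k₂ then 0 else 1)) := by
      have : (0 : ℝ) ≤ (if k₁ = k₂ then 0 else 1) := by split_ifs <;> norm_num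
      positivity
    by_cases hc : |(k₁ : ℝ) - k₂| ≤ δ
    · rw [if_pos hc]
      have h3 := hT1 k₁ h1 k₂ h2
      have h4 : tauR k₁ * tauR k₂ * A1 ≤ tauR k₁ ^ 2 * tauR k₂ ^ 2 * A1 :=
        mul_le_mul_of_nonneg_right t3 hA1
      have h5 : 1 * A2 ≤ tauR k₁ ^ 2 * tauR k₂ ^ 2 * A2 :=
        mul_le_mul_of_nonneg_right (t12.trans t3) hA2
      have h6 : (A1 + A2) * (tauR k₁ ^ 2 * tauR k₂ ^ 2) =
          tauR k₁ ^ 2 * tauR k₂ ^ 2 * A1 + tauR k₁ ^ 2 * tauR k₂ ^ 2 * A2 := by ring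
      rw [h6]
      linarith
    · rw [if_neg hc, mul_zero, zero_add]
      have hc' := not_le.1 hc
      have hne : k₁ ≠ k₂ := by
        rintro rfl
        simp at hc'
        linarith
      rw [if_neg hne, mul_one]
      have h3 := hT2 k₁ h1 k₂ h2 hc'
      have g0 : (0 : ℝ) ≤ (Nat.gcd k₂ ρ : ℝ) * (Int.gcd ((k₁ : ℤ) - k₂) ρ : ℝ) / ρ := by positivity
      have h4 : (Nat.gcd k₂ ρ : ℝ) * (Int.gcd ((k₁ : ℤ) - k₂) ρ : ℝ) / ρ * (tauR k₁ * tauR k₂) * A3 ≤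
          (Nat.gcd k₂ ρ : ℝ) * (Int.gcd ((k₁ : ℤ) - k₂) ρ : ℝ) / ρ *
            (tauR k₁ ^ 2 * tauR k₂ ^ 2) * A3 :=
        mul_le_mul_of_nonneg_right (mul_le_mul_of_nonneg_left t3 g0) hA3
      have h5 : (Nat.gcd k₂ ρ : ℝ) * (Int.gcd ((k₁ : ℤ) - k₂) ρ : ℝ) / ρ *
            (tauR k₁ ^ 2 * tauR k₂ ^ 2) * A3 =
          A3 / ρ * (tauR k₁ ^ 2 * tauR k₂ ^ 2 * (Nat.gcd k₂ ρ : ℝ) *
            (Int.gcd ((k₁ : ℤ) - k₂) ρ : ℝ)) := by ring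
      linarith
  refine (Finset.sum_le_sum fun k₁ h1 => Finset.sum_le_sum fun k₂ h2 => hpt k₁ h1 k₂ h2).trans ?_
  have hsplit : ∑ k₁ ∈ Icc 1 M, ∑ k₂ ∈ Icc 1 M,
      ((A1 + A2) * (if |(k₁ : ℝ) - k₂| ≤ δ then tauR k₁ ^ 2 * tauR k₂ ^ 2 else 0) +
      A3 / ρ * (tauR k₁ ^ 2 * tauR k₂ ^ 2 * (Nat.gcd k₂ ρ : ℝ) *
        (Int.gcd ((k₁ : ℤ) - k₂) ρ : ℝ) * (if k₁ = k₂ then 0 else 1)) + A4) =
      (A1 + A2) * ∑ k₁ ∈ Icc 1 M, ∑ k₂ ∈ Icc 1 M,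
        (if |(k₁ : ℝ) - k₂| ≤ δ then tauR k₁ ^ 2 * tauR k₂ ^ 2 else 0) +
      A3 / ρ * ∑ k₁ ∈ Icc 1 M, ∑ k₂ ∈ Icc 1 M, (tauR k₁ ^ 2 * tauR k₂ ^ 2 * (Nat.gcd k₂ ρ : ℝ) *
        (Int.gcd ((k₁ : ℤ) - k₂) ρ : ℝ) * (if k₁ = k₂ then 0 else 1)) + A4 * (M : ℝ) ^ 2 := by
    simp only [Finset.sum_add_distrib, Finset.mul_sum]
    congr 1
    rw [Finset.sum_const, Finset.sum_const, Nat.card_Icc, nsmul_eq_mul, nsmul_eq_mul,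
      Nat.add_sub_cancel]
    ring
  rw [hsplit]
  have h1 := mul_le_mul_of_nonneg_left (hclose δ hδ) (by linarith : 0 ≤ A1 + A2)
  have h2 := mul_le_mul_of_nonneg_left hgcd (by positivity : 0 ≤ A3 / ρ)
  linarith

/-- facts about the saving -/
theorem s_facts {ρ T1 R : ℝ} (hρ : 1 ≤ ρ) (hT : 1 ≤ T1) (hρR : ρ ≤ R) (hTR : T1 ≤ 2 * R ^ 14)
    (hR : 100 ≤ R) {s : ℝ} (hs : s = (ρ * T1) ^ (-(1 / 14) : ℝ)) :
    0 < s ∧ s ≤ 1 ∧ 1 / s ≤ R ^ 16 ∧ s ^ 7 * √(ρ * T1) = 1 ∧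
      s ≤ ((ρ * T1) ^ (-(1 / 32) : ℝ)) ^ 2 := by
  have hb : 1 ≤ ρ * T1 := one_le_mul_of_one_le_of_one_le hρ hT
  have hb0 : 0 < ρ * T1 := by linarith
  have hs0 : 0 < s := by
    rw [hs]
    positivity
  refine ⟨hs0, ?_, ?_, ?_, ?_⟩
  · rw [hs]
    exact Real.rpow_le_one_of_one_le_of_nonpos hb (by norm_num)
  · have h1 : 1 / s = (ρ * T1) ^ ((1 / 14) : ℝ) := by
      rw [hs, Real.rpow_neg hb0.le, one_div, inv_inv]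
    rw [h1]
    calc (ρ * T1) ^ ((1 / 14) : ℝ) ≤ (ρ * T1) ^ (1 : ℝ) :=
          Real.rpow_le_rpow_of_exponent_le hb (by norm_num)
      _ = ρ * T1 := Real.rpow_one _
      _ ≤ R * (2 * R ^ 14) := mul_le_mul hρR hTR (by linarith) (by linarith)
      _ = 2 * R ^ 15 := by ring
      _ ≤ R * R ^ 15 := by
          apply mul_le_mul_of_nonneg_right (by linarith) (by positivity)
      _ = R ^ 16 := by ring
  · rw [hs, ← Real.rpow_natCast, ← Real.rpow_mul hb0.le, Real.sqrt_eq_rpow, ← Real.rpow_add hb0]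
    norm_num
  · rw [hs, ← Real.rpow_natCast, ← Real.rpow_mul hb0.le]
    exact Real.rpow_le_rpow_of_exponent_le hb (by norm_num)

/-- The bracket. -/
theorem bracket {ρ T1 R Q s Ct : ℝ} {τ6 : ℝ} (hρ : 1 ≤ ρ) (hT : 1 ≤ T1) (hTR : T1 ≤ 2 * R ^ 14)
    (hR : 100 ≤ R) (hQ : R ^ 500 ≤ Q) (hs0 : 0 < s) (hsinv : 1 / s ≤ R ^ 16)
    (hs7 : s ^ 7 * √(ρ * T1) = 1) (hC : 0 ≤ Ct) (hτ : τ6 ≤ Ct * ρ ^ (1 / 100 : ℝ)) (hτ0 : 0 ≤ τ6) :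
    (1 / (s / 2) ^ 5 * (√T1 + Q / (s / 2) / √T1) + s / 2 * (2 * Q) + 1) * τ6 / ρ ≤
      65 * Ct * (Q * (s + 1 / R ^ 9)) := by
  have hR0 : 0 < R := by linarith
  have hρ0 : 0 < ρ := by linarith
  have hT0 : 0 < T1 := by linarith
  have hQ0 : 0 < Q := lt_of_lt_of_le (by positivity) hQ
  have hsT : 0 < √T1 := Real.sqrt_pos.2 hT0
  -- `τ6 / ρ`
  have hτρ : τ6 / ρ ≤ Ct * ρ ^ (-(99 / 100) : ℝ) := by
    rw [div_le_iff₀ hρ0]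
    calc τ6 ≤ Ct * ρ ^ (1 / 100 : ℝ) := hτ
      _ = Ct * ρ ^ (-(99 / 100) : ℝ) * ρ := by
          rw [mul_assoc]
          congr 1
          nth_rewrite 3 [← Real.rpow_one ρ]
          rw [← Real.rpow_add hρ0]
          norm_num
  have hρ1 : ρ ^ (-(99 / 100) : ℝ) ≤ 1 :=
    Real.rpow_le_one_of_one_le_of_nonpos hρ (by norm_num)
  have hτρ1 : τ6 / ρ ≤ Ct := hτρ.trans (mul_le_of_le_one_right hC hρ1)
  have hτρ0 : 0 ≤ τ6 / ρ := by positivity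
  have hsqρ : √ρ * (τ6 / ρ) ≤ Ct := by
    have h1 : √ρ * (τ6 / ρ) ≤ √ρ * (Ct * ρ ^ (-(99 / 100) : ℝ)) :=
      mul_le_mul_of_nonneg_left hτρ (Real.sqrt_nonneg _)
    refine h1.trans ?_
    have h2 : √ρ * (Ct * ρ ^ (-(99 / 100) : ℝ)) = Ct * ρ ^ (-(49 / 100) : ℝ) := by
      rw [Real.sqrt_eq_rpow, mul_left_comm, ← Real.rpow_add hρ0]
      norm_num
    rw [h2]
    exact mul_le_of_le_one_right hC (Real.rpow_le_one_of_one_le_of_nonpos hρ (by norm_num))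
  -- first part
  have p1 : 1 / (s / 2) ^ 5 * √T1 ≤ Q * (1 / (2 * R ^ 9)) := by
    have h1 : 1 / (s / 2) ^ 5 = 32 * (1 / s) ^ 5 := by
      field_simp
      norm_num
    have h2 : √T1 ≤ T1 := by
      rw [Real.sqrt_le_left (by linarith)]
      nlinarith
    have h3 : 1 / (s / 2) ^ 5 * √T1 ≤ 32 * (R ^ 16) ^ 5 * (2 * R ^ 14) := by
      rw [h1]
      apply mul_le_mul _ (h2.trans hTR) (Real.sqrt_nonneg _) (by positivity)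
      apply mul_le_mul_of_nonneg_left _ (by norm_num)
      exact pow_le_pow_left₀ (by positivity) hsinv 5
    refine h3.trans ?_
    have h4 : R ^ 500 * (1 / (2 * R ^ 9)) ≤ Q * (1 / (2 * R ^ 9)) :=
      mul_le_mul_of_nonneg_right hQ (by positivity)
    refine le_trans ?_ h4
    have h5 : R ^ 500 * (1 / (2 * R ^ 9)) = R ^ 491 / 2 := by
      field_simp
    rw [h5]
    have h6 : R ^ 96 ≤ R ^ 491 := pow_le_pow_right₀ (by linarith) (by norm_num)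
    have h7 : 32 * (R ^ 16) ^ 5 * (2 * R ^ 14) = 64 * R ^ 94 := by ring
    have h8 : 128 * R ^ 94 ≤ R ^ 96 := by
      have h10 : R ^ 96 = (R * R) * R ^ 94 := by ring
      rw [h10]
      apply mul_le_mul_of_nonneg_right _ (by positivity)
      nlinarith
    linarith
  -- second part
  have p2 : 1 / (s / 2) ^ 5 * (Q / (s / 2) / √T1) * (τ6 / ρ) ≤ 64 * Ct * (Q * s) := by
    have h1 : 1 / (s / 2) ^ 5 * (Q / (s / 2) / √T1) * (τ6 / ρ) =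
        64 * (1 / (s ^ 6 * √T1)) * Q * (τ6 / ρ) := by
      field_simp
      ring
    have h2 : 1 / (s ^ 6 * √T1) = s * √ρ := by
      rw [Real.sqrt_mul hρ0.le] at hs7
      rw [div_eq_iff (by positivity)]
      linear_combination -hs7
    rw [h1, h2]
    calc 64 * (s * √ρ) * Q * (τ6 / ρ) = 64 * (Q * s) * (√ρ * (τ6 / ρ)) := by ring
      _ ≤ 64 * (Q * s) * Ct := mul_le_mul_of_nonneg_left hsqρ (by positivity)
      _ = 64 * Ct * (Q * s) := by ring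
  have p3 : (1 : ℝ) ≤ Q * (1 / (2 * R ^ 9)) := by
    have h4 : R ^ 500 * (1 / (2 * R ^ 9)) ≤ Q * (1 / (2 * R ^ 9)) :=
      mul_le_mul_of_nonneg_right hQ (by positivity)
    refine le_trans ?_ h4
    have h5 : R ^ 500 * (1 / (2 * R ^ 9)) = R ^ 491 / 2 := by
      field_simp
    rw [h5]
    have h6 : R ^ 1 ≤ R ^ 491 := pow_le_pow_right₀ (by linarith) (by norm_num)
    rw [pow_one] at h6
    linarith
  have e1 : (1 / (s / 2) ^ 5 * (√T1 + Q / (s / 2) / √T1) + s / 2 * (2 * Q) + 1) * τ6 / ρ =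
      (1 / (s / 2) ^ 5 * √T1) * (τ6 / ρ) + 1 / (s / 2) ^ 5 * (Q / (s / 2) / √T1) * (τ6 / ρ) +
        Q * s * (τ6 / ρ) + 1 * (τ6 / ρ) := by ring
  rw [e1]
  have q1 : (1 / (s / 2) ^ 5 * √T1) * (τ6 / ρ) ≤ Q * (1 / (2 * R ^ 9)) * Ct :=
    mul_le_mul p1 hτρ1 hτρ0 (by positivity)
  have q3 : Q * s * (τ6 / ρ) ≤ Q * s * Ct := mul_le_mul_of_nonneg_left hτρ1 (by positivity)
  have q4 : 1 * (τ6 / ρ) ≤ Q * (1 / (2 * R ^ 9)) * Ct :=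
    mul_le_mul p3 hτρ1 hτρ0 (by positivity)
  have e2 : Q * (1 / (2 * R ^ 9)) * Ct + 64 * Ct * (Q * s) + Q * s * Ct +
      Q * (1 / (2 * R ^ 9)) * Ct = 65 * Ct * (Q * s) + Ct * (Q * (1 / R ^ 9)) := by
    field_simp
    ring
  have e3 : Ct * (Q * (1 / R ^ 9)) ≤ 65 * Ct * (Q * (1 / R ^ 9)) := by
    have : 0 ≤ Ct * (Q * (1 / R ^ 9)) := by positivity
    linarith
  calc _ ≤ Q * (1 / (2 * R ^ 9)) * Ct + 64 * Ct * (Q * s) + Q * s * Ct +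
      Q * (1 / (2 * R ^ 9)) * Ct := by linarith
    _ = 65 * Ct * (Q * s) + Ct * (Q * (1 / R ^ 9)) := e2
    _ ≤ 65 * Ct * (Q * s) + 65 * Ct * (Q * (1 / R ^ 9)) := by linarith
    _ = 65 * Ct * (Q * (s + 1 / R ^ 9)) := by ring

/-- The numerical summary. -/
theorem total_num {L R Q M s Ct l A1 A3ρ : ℝ} {E1 E2 E3 E : ℕ} (hL : 1000 ≤ L) (hCL : Ct ≤ L)
    (hC : 0 ≤ Ct) (hR : 100 ≤ R) (hQ : R ^ 500 ≤ Q) (hM : R ^ 20 ≤ M) (hs0 : 0 < s)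
    (hl0 : 0 ≤ l) (hl : l ≤ L ^ 2)
    (hA1 : A1 = L ^ E1 * Q) (hA3ρ : A3ρ ≤ L ^ E * (65 * Ct * (Q * (s + 1 / R ^ 9)))) :
    (A1 + R ^ 4) * (l ^ E2 * ((2 * (s / 2 * M) + 1) * M)) +
      A3ρ * (4 * l ^ E3 * (2 * M ^ 2)) + R ^ 21 * M ^ 2 ≤
      Q * M ^ 2 * (s + 1 / R ^ 9) * L ^ (E1 + 2 * E2 + E + 2 * E3 + 3) := by
  have hR0 : 0 < R := by linarith
  have hR1 : 1 ≤ R := by linarith
  have hL1 : 1 ≤ L := by linarith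
  have hL0 : 0 < L := by linarith
  have hQ0 : 0 < Q := lt_of_lt_of_le (by positivity) hQ
  have hM0 : 0 < M := lt_of_lt_of_le (by positivity) hM
  have hd : 0 < s + 1 / R ^ 9 := by positivity
  have hlE : ∀ n : ℕ, l ^ n ≤ L ^ (2 * n) := by
    intro n
    calc l ^ n ≤ (L ^ 2) ^ n := pow_le_pow_left₀ hl0 hl n
      _ = L ^ (2 * n) := by rw [← pow_mul]
  -- first term
  have t1 : A1 + R ^ 4 ≤ 2 * (L ^ E1 * Q) := by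
    have h1 : R ^ 4 ≤ Q := (pow_le_pow_right₀ hR1 (by norm_num)).trans hQ
    have h2 : 1 * Q ≤ L ^ E1 * Q := mul_le_mul_of_nonneg_right (one_le_pow₀ hL1) hQ0.le
    rw [hA1]
    linarith
  have t2 : (2 * (s / 2 * M) + 1) * M ≤ M ^ 2 * (s + 1 / R ^ 9) := by
    have h1 : 1 ≤ M * (1 / R ^ 9) := by
      calc (1 : ℝ) = R ^ 9 * (1 / R ^ 9) := by field_simp
        _ ≤ M * (1 / R ^ 9) := by
            apply mul_le_mul_of_nonneg_right _ (by positivity)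
            exact (pow_le_pow_right₀ hR1 (by norm_num)).trans hM
    have h2 : M ^ 2 * (s + 1 / R ^ 9) = (s * M + M * (1 / R ^ 9)) * M := by ring
    rw [h2]
    apply mul_le_mul_of_nonneg_right _ hM0.le
    linarith
  have u1 : (A1 + R ^ 4) * (l ^ E2 * ((2 * (s / 2 * M) + 1) * M)) ≤
      Q * M ^ 2 * (s + 1 / R ^ 9) * (2 * L ^ (E1 + 2 * E2)) := by
    have h0 : 0 ≤ (2 * (s / 2 * M) + 1) * M := by positivity
    calc (A1 + R ^ 4) * (l ^ E2 * ((2 * (s / 2 * M) + 1) * M))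
        ≤ 2 * (L ^ E1 * Q) * (L ^ (2 * E2) * (M ^ 2 * (s + 1 / R ^ 9))) := by
          apply mul_le_mul t1 _ (by positivity) (by positivity)
          exact mul_le_mul (hlE E2) t2 h0 (by positivity)
      _ = Q * M ^ 2 * (s + 1 / R ^ 9) * (2 * L ^ (E1 + 2 * E2)) := by
          rw [pow_add]
          ring
  have u2 : A3ρ * (4 * l ^ E3 * (2 * M ^ 2)) ≤
      Q * M ^ 2 * (s + 1 / R ^ 9) * (520 * L ^ (E + 2 * E3 + 1)) := by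
    calc A3ρ * (4 * l ^ E3 * (2 * M ^ 2))
        ≤ L ^ E * (65 * Ct * (Q * (s + 1 / R ^ 9))) * (4 * L ^ (2 * E3) * (2 * M ^ 2)) := by
          apply mul_le_mul hA3ρ _ (by positivity) (by positivity)
          apply mul_le_mul_of_nonneg_right _ (by positivity)
          exact mul_le_mul_of_nonneg_left (hlE E3) (by norm_num)
      _ = Q * M ^ 2 * (s + 1 / R ^ 9) * (520 * (L ^ E * L ^ (2 * E3))) * Ct := by ring
      _ ≤ Q * M ^ 2 * (s + 1 / R ^ 9) * (520 * (L ^ E * L ^ (2 * E3))) * L :=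
          mul_le_mul_of_nonneg_left hCL (by positivity)
      _ = Q * M ^ 2 * (s + 1 / R ^ 9) * (520 * L ^ (E + 2 * E3 + 1)) := by
          rw [pow_succ, pow_add]
          ring
  have u3 : R ^ 21 * M ^ 2 ≤ Q * M ^ 2 * (s + 1 / R ^ 9) * 1 := by
    have h1 : R ^ 21 ≤ Q * (1 / R ^ 9) := by
      calc R ^ 21 ≤ R ^ 491 := pow_le_pow_right₀ hR1 (by norm_num)
        _ = R ^ 500 * (1 / R ^ 9) := by field_simp
        _ ≤ Q * (1 / R ^ 9) := mul_le_mul_of_nonneg_right hQ (by positivity)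
    have h2 : Q * (1 / R ^ 9) ≤ Q * (s + 1 / R ^ 9) :=
      mul_le_mul_of_nonneg_left (by linarith) hQ0.le
    calc R ^ 21 * M ^ 2 ≤ Q * (s + 1 / R ^ 9) * M ^ 2 :=
          mul_le_mul_of_nonneg_right (h1.trans h2) (by positivity)
      _ = _ := by ring
  have v1 : L ^ (E1 + 2 * E2) ≤ L ^ (E1 + 2 * E2 + E + 2 * E3 + 1) :=
    pow_le_pow_right₀ hL1 (by omega)
  have v2 : L ^ (E + 2 * E3 + 1) ≤ L ^ (E1 + 2 * E2 + E + 2 * E3 + 1) :=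
    pow_le_pow_right₀ hL1 (by omega)
  have v3 : (1 : ℝ) ≤ L ^ (E1 + 2 * E2 + E + 2 * E3 + 1) := one_le_pow₀ hL1
  have v4 : 2 * L ^ (E1 + 2 * E2) + 520 * L ^ (E + 2 * E3 + 1) + 1 ≤
      L ^ (E1 + 2 * E2 + E + 2 * E3 + 3) := by
    have h1 : L ^ (E1 + 2 * E2 + E + 2 * E3 + 3) =
        L ^ (E1 + 2 * E2 + E + 2 * E3 + 1) * (L * L) := by
      rw [show E1 + 2 * E2 + E + 2 * E3 + 3 = E1 + 2 * E2 + E + 2 * E3 + 1 + 1 + 1 by ring,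
        pow_succ, pow_succ L (E1 + 2 * E2 + E + 2 * E3 + 1)]
      ring
    rw [h1]
    have h2 : (1000 : ℝ) ≤ L * L := by nlinarith
    have h3 : L ^ (E1 + 2 * E2 + E + 2 * E3 + 1) * 1000 ≤
        L ^ (E1 + 2 * E2 + E + 2 * E3 + 1) * (L * L) :=
      mul_le_mul_of_nonneg_left h2 (by positivity)
    linarith
  have w0 : 0 ≤ Q * M ^ 2 * (s + 1 / R ^ 9) := by positivity
  have w1 := mul_le_mul_of_nonneg_left v4 w0
  calc _ ≤ Q * M ^ 2 * (s + 1 / R ^ 9) * (2 * L ^ (E1 + 2 * E2)) +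
        Q * M ^ 2 * (s + 1 / R ^ 9) * (520 * L ^ (E + 2 * E3 + 1)) +
        Q * M ^ 2 * (s + 1 / R ^ 9) * 1 := by linarith
    _ = Q * M ^ 2 * (s + 1 / R ^ 9) * (2 * L ^ (E1 + 2 * E2) + 520 * L ^ (E + 2 * E3 + 1) + 1) := by
        ring
    _ ≤ _ := w1

theorem fin_num {L R Q M s X z : ℝ} (hL : 1000 ≤ L) (hR : 100 ≤ R) (hQ : 0 < Q) (hM : 0 < M)
    (hs0 : 0 < s) (hX : 0 < X) (hz : 0 ≤ z) (hQM : Q * M ≤ 2 * X) (hsz : s ≤ z ^ 2) (E4 : ℕ) :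
    Q * (4 * L ^ 2 * (Q * M ^ 2 * (s + 1 / R ^ 9) * L ^ E4)) ≤
      (X * L ^ (E4 + 3) * (z + 1 / R)) ^ 2 := by
  have hR0 : 0 < R := by linarith
  have hL1 : 1 ≤ L := by linarith
  have hL0 : 0 < L := by linarith
  have h1 : s + 1 / R ^ 9 ≤ (z + 1 / R) ^ 2 := by
    have h2 : 1 / R ^ 9 ≤ (1 / R) ^ 2 := by
      rw [div_pow, one_pow]
      apply one_div_le_one_div_of_le (by positivity)
      exact pow_le_pow_right₀ (by linarith) (by norm_num)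
    have h3 : 0 ≤ z * (1 / R) := by positivity
    nlinarith
  calc Q * (4 * L ^ 2 * (Q * M ^ 2 * (s + 1 / R ^ 9) * L ^ E4))
      = 4 * L ^ (E4 + 2) * (Q * M) ^ 2 * (s + 1 / R ^ 9) := by
        rw [pow_add]
        ring
    _ ≤ 4 * L ^ (E4 + 2) * (2 * X) ^ 2 * (z + 1 / R) ^ 2 := by
        apply mul_le_mul _ h1 (by positivity) (by positivity)
        apply mul_le_mul_of_nonneg_left _ (by positivity)
        exact pow_le_pow_left₀ (by positivity) hQM 2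
    _ = 16 * L ^ (E4 + 2) * (X ^ 2 * (z + 1 / R) ^ 2) := by ring
    _ ≤ L ^ (2 * (E4 + 3)) * (X ^ 2 * (z + 1 / R) ^ 2) := by
        apply mul_le_mul_of_nonneg_right _ (by positivity)
        calc 16 * L ^ (E4 + 2) ≤ L * L ^ (E4 + 2) := by
              apply mul_le_mul_of_nonneg_right (by linarith) (by positivity)
          _ = L ^ (E4 + 3) := by rw [← pow_succ']
          _ ≤ L ^ (2 * (E4 + 3)) := pow_le_pow_right₀ hL1 (by omega)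
    _ = (X * L ^ (E4 + 3) * (z + 1 / R)) ^ 2 := by
        rw [mul_comm 2 (E4 + 3), pow_mul]
        ring

end ZBigAux

open ZBigAux

theorem Z_big {κ ε : ℝ} (hκ : 0 < κ) (hκ1 : κ ≤ 1 / 1000) (hε : 20 * κ ≤ ε) : ∃ E X₀ : ℕ, ∀ X : ℕ, X₀ ≤ X →
    ∀ Q : ℕ, √(X : ℝ) ≤ Q → (Q : ℝ) ≤ (X : ℝ) ^ (1 - ε) →
    ∀ c : ℕ → ℂ, (∀ k : ℕ, 1 ≤ k → k ≤ 2 * X → ‖c k‖ ≤ 2 * Real.log X) →
    ∀ (N r Y K : ℕ) (χ : DirichletCharacter ℂ r) (ω : ℕ → ℂ) (y t : ℝ), ZOK κ X N r Y χ ω y t →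
    ∑ q ∈ Ico Q (2 * Q), ‖ZS c (ff χ ω Y) K N (mV κ X) y t q‖ ≤
      X * Real.log X ^ E * (Zsav r N t + 1 / mR κ X) := by
  obtain ⟨E1, X1, htriv⟩ := pair_triv hκ hκ1
  obtain ⟨E3', X2, hfar⟩ := pair_far hκ hκ1
  obtain ⟨X3, hpar⟩ := par_ok hκ hκ1
  obtain ⟨E2, hcl⟩ := close_pairs
  obtain ⟨E3, hgp⟩ := gcd_pair
  obtain ⟨Ct, hCt0, hτ⟩ := tau_small 6
  have htend : Filter.Tendsto (fun n : ℕ => Real.log n) Filter.atTop Filter.atTop :=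
    Real.tendsto_log_atTop.comp tendsto_natCast_atTop_atTop
  obtain ⟨X4, hlog⟩ := Filter.eventually_atTop.mp (htend.eventually_ge_atTop (max 1000 Ct))
  set E4 := E1 + 2 * E2 + E3' + 2 * E3 + 3 with hE4
  refine ⟨E4 + 3, max (max X1 X2) (max X3 X4), ?_⟩
  intro X hX Q hQ1 hQ2 c hc N r Y K χ ω y t hZ
  have hXa : X1 ≤ X := le_trans (le_trans (le_max_left _ _) (le_max_left _ _)) hX
  have hXb : X2 ≤ X := le_trans (le_trans (le_max_right _ _) (le_max_left _ _)) hX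
  have hXc : X3 ≤ X := le_trans (le_trans (le_max_left _ _) (le_max_right _ _)) hX
  have hXd : X4 ≤ X := le_trans (le_trans (le_max_right _ _) (le_max_right _ _)) hX
  have hP := hpar X hXc
  have hlX := hlog X hXd
  set L : ℝ := Real.log X with hL
  have hL1000 : 1000 ≤ L := (le_max_left _ _).trans hlX
  have hLC : Ct ≤ L := (le_max_right _ _).trans hlX
  have hL1 : 1 ≤ L := by linarith
  have hL0 : 0 < L := by linarith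
  set R : ℝ := (mR κ X : ℝ) with hR
  have hR100 : 100 ≤ R := by
    rw [hR]
    exact_mod_cast hP.R2
  have hR0 : 0 < R := by linarith
  have hX3 := hP.X3
  have hX0 : (0 : ℝ) < X := by exact_mod_cast (by omega : 0 < X)
  have hX1r : (1 : ℝ) ≤ X := by exact_mod_cast (by omega : 1 ≤ X)
  have hRX : R ^ 1000 ≤ X := by
    rw [hR]
    exact_mod_cast hP.Rpow
  -- Q is large
  have hQR : R ^ 500 ≤ Q := by
    refine le_trans ?_ hQ1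
    apply Real.le_sqrt_of_sq_le
    calc (R ^ 500 : ℝ) ^ 2 = (R ^ 1000 : ℝ) := by rw [← pow_mul]
      _ ≤ (X : ℝ) := hRX
  have hQ0 : (0 : ℝ) < Q := lt_of_lt_of_le (by positivity) hQR
  have hQpos : 1 ≤ Q := by exact_mod_cast hQ0
  have hε0 : 0 ≤ ε := by linarith
  have hQX : (Q : ℝ) ≤ X := by
    refine hQ2.trans ?_
    calc (X : ℝ) ^ (1 - ε) ≤ (X : ℝ) ^ (1 : ℝ) :=
          Real.rpow_le_rpow_of_exponent_le hX1r (by linarith)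
      _ = X := Real.rpow_one _
  -- M
  set M : ℕ := 2 * X / Q with hM
  have hM1 : Q * M ≤ 2 * X := Nat.mul_div_le _ _
  have hM2 : 2 * X < Q * (M + 1) := Nat.lt_mul_div_succ _ hQpos
  have hM1r : (Q : ℝ) * M ≤ 2 * X := by exact_mod_cast hM1
  have hM2r : (2 : ℝ) * X < Q * (M + 1) := by exact_mod_cast hM2
  have hXQM : (X : ℝ) ≤ Q * M := by linarith
  have hMR : R ^ 20 ≤ M := by
    have h1 : R ^ 20 ≤ (X : ℝ) ^ ε := by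
      calc R ^ 20 ≤ ((X : ℝ) ^ κ) ^ 20 := pow_le_pow_left₀ hR0.le hP.Rle 20
        _ = (X : ℝ) ^ (20 * κ) := by
            rw [← Real.rpow_natCast, ← Real.rpow_mul hX0.le]
            congr 1
            push_cast
            ring
        _ ≤ (X : ℝ) ^ ε := Real.rpow_le_rpow_of_exponent_le hX1r hε
    have h2 : (X : ℝ) ^ ε * Q ≤ X := by
      calc (X : ℝ) ^ ε * Q ≤ (X : ℝ) ^ ε * (X : ℝ) ^ (1 - ε) :=
            mul_le_mul_of_nonneg_left hQ2 (by positivity)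
        _ = X := by
            rw [← Real.rpow_add hX0]
            have : ε + (1 - ε) = 1 := by ring
            rw [this, Real.rpow_one]
    have h3 : (X : ℝ) ^ ε * Q ≤ M * Q := by linarith [mul_comm (Q : ℝ) M]
    exact h1.trans (le_of_mul_le_mul_right h3 hQ0)
  have hM0 : (0 : ℝ) < M := lt_of_lt_of_le (by positivity) hMR
  have hMpos : 1 ≤ M := by exact_mod_cast hM0
  have hM2X : M ≤ 2 * X := Nat.div_le_self _ _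
  -- the data
  obtain ⟨hy0, hy2, hy3, hN2, hrR, hYR, hV2, -, -⟩ := hZ.facts hP
  set ρ : ℕ := rp r N with hρ
  have hρ1 : 1 ≤ ρ := rp_pos hZ.r1
  have hρr : ρ ≤ r := rp_le r N
  have hρ1r : (1 : ℝ) ≤ ρ := by exact_mod_cast hρ1
  have hρR : (ρ : ℝ) ≤ R := by
    rw [hR]
    exact_mod_cast hρr.trans hrR
  set T1 : ℝ := 1 + |t| with hT1
  have hT1' : 1 ≤ T1 := by
    have := abs_nonneg t
    linarith
  have hTR : T1 ≤ 2 * R ^ 14 := by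
    have h1 := hZ.t1
    unfold mT at h1
    have h2 : (1 : ℝ) ≤ R ^ 14 := one_le_pow₀ (by linarith)
    linarith
  obtain ⟨s, hs⟩ : ∃ s : ℝ, s = ((ρ : ℝ) * T1) ^ (-(1 / 14) : ℝ) := ⟨_, rfl⟩
  obtain ⟨hs0, hs1, hsinv, hs7, hsZ⟩ := s_facts hρ1r hT1' hρR hTR hR100 hs
  have hZsav : Zsav r N t = ((ρ : ℝ) * T1) ^ (-(1 / 32) : ℝ) := rfl
  rw [← hZsav] at hsZ
  -- V ≤ N
  have hVN : mV κ X ≤ N := by
    have h1 := hZ.N1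
    have h2 := hP.V1
    have h3 := hP.W1
    have h4 : 1 ≤ mR κ X ^ 3 := Nat.one_le_pow _ _ (by have := hP.R2; omega)
    have h5 : mV κ X ≤ mW X := le_trans (Nat.le_mul_of_pos_right _ h4) h2
    omega
  -- expansion
  have hexp := expand c χ ω Y K N (mV κ X) M Q y t hQpos (by omega) hVN
  set T : ℕ → ℕ → ℝ := fun k₁ k₂ =>
    ‖PS χ ω Y N y t k₁ k₂ (Q - 1) (n1 Q N (mV κ X) k₁ k₂)‖ with hT
  have hcoef : ∑ k₁ ∈ Icc 1 M, ∑ k₂ ∈ Icc 1 M, ‖c k₁‖ * ‖c k₂‖ * T k₁ k₂ ≤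
      4 * L ^ 2 * ∑ k₁ ∈ Icc 1 M, ∑ k₂ ∈ Icc 1 M, T k₁ k₂ := by
    rw [Finset.mul_sum]
    refine Finset.sum_le_sum fun k₁ h1 => ?_
    rw [Finset.mul_sum]
    refine Finset.sum_le_sum fun k₂ h2 => ?_
    have h3 := hc k₁ (mem_Icc.1 h1).1 ((mem_Icc.1 h1).2.trans hM2X)
    have h4 := hc k₂ (mem_Icc.1 h2).1 ((mem_Icc.1 h2).2.trans hM2X)
    calc ‖c k₁‖ * ‖c k₂‖ * T k₁ k₂ ≤ (2 * L) * (2 * L) * T k₁ k₂ := by
          apply mul_le_mul_of_nonneg_right _ (norm_nonneg _)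
          exact mul_le_mul h3 h4 (norm_nonneg _) (by positivity)
      _ = 4 * L ^ 2 * T k₁ k₂ := by ring
  have hn1 : ∀ k₁ k₂, n1 Q N (mV κ X) k₁ k₂ ≤ 2 * Q - 1 := fun k₁ k₂ => min_le_left _ _
  -- bound for all pairs
  have hTa : ∀ k₁ ∈ Icc 1 M, ∀ k₂ ∈ Icc 1 M,
      T k₁ k₂ ≤ tauR k₁ * tauR k₂ * (L ^ E1 * Q) + R ^ 4 := by
    intro k₁ h1 k₂ h2
    have h3 := htriv X hXa N r Y χ ω y t hZ k₁ k₂ (Q - 1) (n1 Q N (mV κ X) k₁ k₂)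
      (mem_Icc.1 h1).1 (mem_Icc.1 h2).1
    refine h3.trans ?_
    rw [← hL, ← hR]
    have h4 : ((n1 Q N (mV κ X) k₁ k₂ - (Q - 1) : ℕ) : ℝ) ≤ Q := by
      have h5 := hn1 k₁ k₂
      exact_mod_cast (by omega : n1 Q N (mV κ X) k₁ k₂ - (Q - 1) ≤ Q)
    have h6 : 0 ≤ tauR k₁ * tauR k₂ * L ^ E1 :=
      mul_nonneg (mul_nonneg (tauR_nonneg _) (tauR_nonneg _)) (by positivity)
    have h7 := mul_le_mul_of_nonneg_left h4 h6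
    linarith
  -- bound for the far pairs
  set A3 : ℝ := L ^ E3' * (1 / (s / 2) ^ 5 * (√T1 + Q / (s / 2) / √T1) + s / 2 * (2 * Q) + 1)
    with hA3
  have hsT0 : 0 < √T1 := Real.sqrt_pos.2 (by linarith)
  have hA30 : 0 ≤ A3 := by positivity
  have hTb : ∀ k₁ ∈ Icc 1 M, ∀ k₂ ∈ Icc 1 M, s / 2 * M < |(k₁ : ℝ) - k₂| → T k₁ k₂ ≤
      (Nat.gcd k₂ ρ : ℝ) * (Int.gcd ((k₁ : ℤ) - k₂) ρ : ℝ) / ρ * (tauR k₁ * tauR k₂) * A3 +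
        R ^ 21 := by
    intro k₁ h1 k₂ h2 h3
    have hk1 := mem_Icc.1 h1
    have hk2 := mem_Icc.1 h2
    have hmaxM : max k₁ k₂ ≤ M := max_le hk1.2 hk2.2
    have hmax1 : 1 ≤ max k₁ k₂ := le_trans hk1.1 (le_max_left _ _)
    have hmaxr : ((max k₁ k₂ : ℕ) : ℝ) ≤ M := by exact_mod_cast hmaxM
    have hmax0 : (0 : ℝ) < ((max k₁ k₂ : ℕ) : ℝ) := by exact_mod_cast hmax1
    have habs : |(k₁ : ℝ) - k₂| ≤ ((max k₁ k₂ : ℕ) : ℝ) := by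
      have e1 : (k₁ : ℝ) ≤ ((max k₁ k₂ : ℕ) : ℝ) := by exact_mod_cast le_max_left k₁ k₂
      have e2 : (k₂ : ℝ) ≤ ((max k₁ k₂ : ℕ) : ℝ) := by exact_mod_cast le_max_right k₁ k₂
      have e3 : (0 : ℝ) ≤ k₁ := Nat.cast_nonneg _
      have e4 : (0 : ℝ) ≤ k₂ := Nat.cast_nonneg _
      rw [abs_le]
      constructor <;> linarith
    have hn1' : max k₁ k₂ * n1 Q N (mV κ X) k₁ k₂ + mV κ X ≤ N := by
      have e1 : n1 Q N (mV κ X) k₁ k₂ ≤ (N - mV κ X) / max k₁ k₂ := min_le_right _ _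
      have e2 : max k₁ k₂ * n1 Q N (mV κ X) k₁ k₂ ≤ max k₁ k₂ * ((N - mV κ X) / max k₁ k₂) :=
        Nat.mul_le_mul_left _ e1
      have e3 := Nat.mul_div_le (N - mV κ X) (max k₁ k₂)
      omega
    have h4 := hfar X hXb N r Y χ ω y t hZ k₁ k₂ (Q - 1) (n1 Q N (mV κ X) k₁ k₂) (s / 2)
      hk1.1 hk2.1 (by positivity) (by linarith)
      (by
        have : s / 2 * ((max k₁ k₂ : ℕ) : ℝ) ≤ s / 2 * M :=
          mul_le_mul_of_nonneg_left hmaxr (by positivity)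
        linarith) hn1'
    refine h4.trans ?_
    rw [← hL, ← hR, ← hT1, corB_eq, ← hρ]
    have hXmax : (X : ℝ) / ((max k₁ k₂ : ℕ) : ℝ) ≤ Q / (s / 2) := by
      rw [div_le_div_iff₀ hmax0 (by positivity)]
      have e1 : s / 2 * M ≤ ((max k₁ k₂ : ℕ) : ℝ) := (h3.le).trans habs
      calc (X : ℝ) * (s / 2) ≤ (Q * M) * (s / 2) :=
            mul_le_mul_of_nonneg_right hXQM (by positivity)
        _ = Q * (s / 2 * M) := by ring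
        _ ≤ Q * ((max k₁ k₂ : ℕ) : ℝ) := mul_le_mul_of_nonneg_left e1 hQ0.le
    have hn1r : (n1 Q N (mV κ X) k₁ k₂ : ℝ) ≤ 2 * Q := by
      have e1 := hn1 k₁ k₂
      have e2 : n1 Q N (mV κ X) k₁ k₂ ≤ 2 * Q := by omega
      exact_mod_cast e2
    have hbr : 1 / (s / 2) ^ 5 * (√T1 + (X : ℝ) / ((max k₁ k₂ : ℕ) : ℝ) / √T1) +
        s / 2 * (n1 Q N (mV κ X) k₁ k₂ : ℝ) + 1 ≤
        1 / (s / 2) ^ 5 * (√T1 + Q / (s / 2) / √T1) + s / 2 * (2 * Q) + 1 := by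
      have e1 : (X : ℝ) / ((max k₁ k₂ : ℕ) : ℝ) / √T1 ≤ Q / (s / 2) / √T1 :=
        div_le_div_of_nonneg_right hXmax hsT0.le
      have e2 : 1 / (s / 2) ^ 5 * (√T1 + (X : ℝ) / ((max k₁ k₂ : ℕ) : ℝ) / √T1) ≤
          1 / (s / 2) ^ 5 * (√T1 + Q / (s / 2) / √T1) :=
        mul_le_mul_of_nonneg_left (by linarith) (by positivity)
      have e3 : s / 2 * (n1 Q N (mV κ X) k₁ k₂ : ℝ) ≤ s / 2 * (2 * Q) :=
        mul_le_mul_of_nonneg_left hn1r (by positivity)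
      linarith
    have g0 : 0 ≤ (Nat.gcd k₂ ρ : ℝ) * (Int.gcd ((k₁ : ℤ) - k₂) ρ : ℝ) / ρ *
        (tauR k₁ * tauR k₂) * L ^ E3' := by
      have := tauR_nonneg k₁
      have := tauR_nonneg k₂
      positivity
    have h5 := mul_le_mul_of_nonneg_left hbr g0
    rw [hA3]
    linarith
  -- summation
  have hsumT := pairs_le (ρ := ρ) (M := M) hMpos hρ1 (E2 := E2) (E3 := E3)
    (fun δ hδ => hcl M δ hMpos hδ) (hgp ρ M hρ1 hMpos) T (A1 := L ^ E1 * Q) (A2 := R ^ 4)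
    (A3 := A3) (A4 := R ^ 21) (δ := s / 2 * M) (by positivity) (by positivity) (by positivity)
    hA30 (by positivity) hTa hTb
  -- gcd part
  have hρM : (M : ℝ) ^ 2 + (ρ : ℝ) ^ 2 * M ≤ 2 * (M : ℝ) ^ 2 := by
    have h1 : (ρ : ℝ) ^ 2 ≤ M := by
      calc (ρ : ℝ) ^ 2 ≤ R ^ 2 := pow_le_pow_left₀ (by linarith) hρR 2
        _ ≤ R ^ 20 := pow_le_pow_right₀ (by linarith) (by norm_num)
        _ ≤ M := hMR
    have h2 := mul_le_mul_of_nonneg_right h1 hM0.le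
    have h3 : (M : ℝ) * M = (M : ℝ) ^ 2 := (pow_two _).symm
    linarith
  have hτ6 := hτ ρ hρ1
  have hτ0 : 0 ≤ tauR ρ ^ 6 := pow_nonneg (tauR_nonneg _) _
  have hbrk := bracket hρ1r hT1' hTR hR100 hQR hs0 hsinv hs7 hCt0.le hτ6 hτ0
  have hA3ρ : A3 * tauR ρ ^ 6 / ρ ≤ L ^ E3' * (65 * Ct * (Q * (s + 1 / R ^ 9))) := by
    have h1 : A3 * tauR ρ ^ 6 / ρ = L ^ E3' *
        ((1 / (s / 2) ^ 5 * (√T1 + Q / (s / 2) / √T1) + s / 2 * (2 * Q) + 1) * tauR ρ ^ 6 / ρ) := by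
      rw [hA3]
      ring
    rw [h1]
    exact mul_le_mul_of_nonneg_left hbrk (by positivity)
  -- log M
  have hlogM0 : 0 ≤ Real.log M := Real.log_natCast_nonneg _
  have hlM : 1 + Real.log M ≤ L ^ 2 := by
    have h1 : Real.log M ≤ Real.log (2 * X) :=
      Real.log_le_log hM0 (by exact_mod_cast hM2X)
    rw [Real.log_mul (by norm_num) hX0.ne', ← hL] at h1
    have h2 := Real.log_two_lt_d9
    have h3 : 2 * L ≤ L ^ 2 := by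
      rw [pow_two]
      exact mul_le_mul_of_nonneg_right (by linarith) hL0.le
    linarith
  have hl0 : 0 ≤ 1 + Real.log M := by linarith
  have htot := total_num (L := L) (R := R) (Q := Q) (M := M) (s := s) (Ct := Ct)
    (l := 1 + Real.log M) (A1 := L ^ E1 * Q) (A3ρ := A3 * tauR ρ ^ 6 / ρ) (E1 := E1) (E2 := E2)
    (E3 := E3) (E := E3') hL1000 hLC hCt0.le hR100 hQR hMR hs0 hl0 hlM rfl hA3ρ
  have hT_le : ∑ k₁ ∈ Icc 1 M, ∑ k₂ ∈ Icc 1 M, T k₁ k₂ ≤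
      Q * (M : ℝ) ^ 2 * (s + 1 / R ^ 9) * L ^ E4 := by
    refine hsumT.trans (le_trans ?_ htot)
    have h1 : A3 / ρ * (4 * tauR ρ ^ 6 * (1 + Real.log M) ^ E3 * ((M : ℝ) ^ 2 + (ρ : ℝ) ^ 2 * M)) ≤
        A3 * tauR ρ ^ 6 / ρ * (4 * (1 + Real.log M) ^ E3 * (2 * (M : ℝ) ^ 2)) := by
      have e1 : A3 / ρ * (4 * tauR ρ ^ 6 * (1 + Real.log M) ^ E3 *
          ((M : ℝ) ^ 2 + (ρ : ℝ) ^ 2 * M)) =
          A3 * tauR ρ ^ 6 / ρ * (4 * (1 + Real.log M) ^ E3 * ((M : ℝ) ^ 2 + (ρ : ℝ) ^ 2 * M)) := by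
        ring
      rw [e1]
      apply mul_le_mul_of_nonneg_left _ (by positivity)
      exact mul_le_mul_of_nonneg_left hρM (by positivity)
    linarith
  -- Cauchy
  have hcs : (∑ q ∈ Ico Q (2 * Q), ‖ZS c (ff χ ω Y) K N (mV κ X) y t q‖) ^ 2 ≤
      Q * ∑ q ∈ Ico Q (2 * Q), ‖ZS c (ff χ ω Y) K N (mV κ X) y t q‖ ^ 2 := by
    have h1 := sq_sum_le_card_mul_sum_sq (s := Ico Q (2 * Q))
      (f := fun q => ‖ZS c (ff χ ω Y) K N (mV κ X) y t q‖)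
    rw [Nat.card_Ico, show 2 * Q - Q = Q by omega] at h1
    exact h1
  have hZ0 : 0 ≤ Zsav r N t := by
    rw [hZsav]
    positivity
  have hfin : (∑ q ∈ Ico Q (2 * Q), ‖ZS c (ff χ ω Y) K N (mV κ X) y t q‖) ^ 2 ≤
      (X * L ^ (E4 + 3) * (Zsav r N t + 1 / R)) ^ 2 := by
    have h9 : ∑ q ∈ Ico Q (2 * Q), ‖ZS c (ff χ ω Y) K N (mV κ X) y t q‖ ^ 2 ≤
        4 * L ^ 2 * (Q * (M : ℝ) ^ 2 * (s + 1 / R ^ 9) * L ^ E4) :=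
      hexp.trans (hcoef.trans (mul_le_mul_of_nonneg_left hT_le (by positivity)))
    refine hcs.trans ((mul_le_mul_of_nonneg_left h9 hQ0.le).trans ?_)
    exact fin_num hL1000 hR100 hQ0 hM0 hs0 hX0 hZ0 hM1r hsZ E4
  exact le_of_sq_le_sq hfin (by positivity)

end Pool.Agent.MVD
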