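import Pool.Agent.MVD.Par
import Pool.Agent.MVD.Ram
import Pool.Agent.MVD.FPair
import Pool.Agent.MVD.PhiS
import Pool.Agent.MVD.GcdS

/-!
# Module ZDefs: common hypotheses of the estimates for the sums over `k` (module family Z)

`rp_pos`, `rp_le`: `Nat.gcd N r ∣ r`. `corB_eq`: unfold (casts between Int.gcd and Nat.gcd). `corB_mul_le`: `(q m₂, ρ) ≤ (q,ρ)(m₂,ρ)` and `(q(m₁-m₂), ρ) ≤ (q,ρ)(m₁-m₂,ρ)`
(`Nat.gcd_mul_le`-like facts: `gcd (a b) c ∣ gcd a c * gcd b c`).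
`facts`: from ParOK: `W ≤ X/4`, `N` between `3X/4` and `5X/4`, `D ≤ W/R^4`, `V = W/R^3` (up to a factor 2), `V ≥ 2D`, `R ≥ 100`; `y / (V/2) ≤ 2X · 2 / V ≤ 4 · 5W ... ≤ 40 R^3`, `log(40 R^3) ≤ R`, `|t| ≤ R^14`;
`x n + V ≤ N` gives `x n ≤ N - V ≤ y + D - V ≤ y - V/2`.
`norm_ff_le`: `|χ| ≤ 1`, norm_dsum_le, tau_le_R (`|v| ≤ 2X ≤ X^4`).
-/

open Finset Complex

namespace Pool.Agent.MVD

open Pool.Agent.ANT Pool.Agent.SInt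

/-- `r' = r/(N,r)`. -/
def rp (r N : ℕ) : ℕ := r / Nat.gcd N r

/-- The saving `(r'(1+|t|))^(-1/32)`. -/
noncomputable def Zsav (r N : ℕ) (t : ℝ) : ℝ := ((rp r N : ℝ) * (1 + |t|)) ^ (-(1 / 32) : ℝ)

/-- The data of one sum over `k`: `N` in the window, `f = χ · ∑ ω(d)`, `y` close to `N`, `|t| ≤ T`. -/
structure ZOK (κ : ℝ) (X N r Y : ℕ) (χ : DirichletCharacter ℂ r) (ω : ℕ → ℂ) (y t : ℝ) : Prop where
  N1 : X - mW X < N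
  N2 : N < X + mW X
  r1 : 1 ≤ r
  rR : r ≤ mR κ X
  rY : r * Y ≤ mR κ X
  prim : χ.IsPrimitive
  om : OmOK ω r
  y1 : |y - N| ≤ mD κ X
  t1 : |t| ≤ mT κ X

theorem rp_pos {r N : ℕ} (hr : 1 ≤ r) : 1 ≤ rp r N := by
  unfold rp
  have h1 : 0 < Nat.gcd N r := Nat.gcd_pos_of_pos_right N hr
  exact Nat.div_pos (Nat.le_of_dvd hr (Nat.gcd_dvd_right N r)) h1

theorem rp_le (r N : ℕ) : rp r N ≤ r := Nat.div_le_self _ _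

/-- `corB` in terms of `rp` and natural gcds. -/
theorem corB_eq (r N x₁ x₂ : ℕ) :
    corB r N x₁ x₂ = (Nat.gcd x₂ (rp r N) : ℝ) * (Int.gcd ((x₁ : ℤ) - x₂) (rp r N) : ℝ) / rp r N := by
  unfold corB rp
  rw [Int.gcd_natCast_natCast, Int.gcd_natCast_natCast]

private theorem ZDefs_gcd_mul {q m ρ : ℕ} (hq : 1 ≤ q) (hρ : 1 ≤ ρ) :
    Nat.gcd (q * m) ρ ≤ Nat.gcd q ρ * Nat.gcd m ρ := by
  have h1 : Nat.gcd ρ (q * m) ∣ Nat.gcd ρ q * Nat.gcd ρ m := Nat.gcd_mul_right_dvd_mul_gcd ρ q m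
  have h2 : 0 < Nat.gcd ρ q * Nat.gcd ρ m :=
    Nat.mul_pos (Nat.gcd_pos_of_pos_left _ hρ) (Nat.gcd_pos_of_pos_left _ hρ)
  have h3 := Nat.le_of_dvd h2 h1
  rwa [Nat.gcd_comm ρ (q * m), Nat.gcd_comm ρ q, Nat.gcd_comm ρ m] at h3

/-- `(q m₂, ρ)(q m₁ - q m₂, ρ) ≤ (q,ρ)² (m₂,ρ)(m₁-m₂,ρ)`. -/
theorem corB_mul_le {r N q m₁ m₂ : ℕ} (hr : 1 ≤ r) (hq : 1 ≤ q) :
    corB r N (q * m₁ : ℕ) (q * m₂ : ℕ) ≤ (Nat.gcd q (rp r N) : ℝ) ^ 2 *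
      ((Nat.gcd m₂ (rp r N) : ℝ) * (Int.gcd ((m₁ : ℤ) - m₂) (rp r N) : ℝ)) / rp r N := by
  rw [corB_eq]
  have hρ := rp_pos (N := N) hr
  set ρ := rp r N with hρdef
  have h1 : Nat.gcd (q * m₂) ρ ≤ Nat.gcd q ρ * Nat.gcd m₂ ρ := ZDefs_gcd_mul hq hρ
  have h2 : Int.gcd (((q * m₁ : ℕ) : ℤ) - ((q * m₂ : ℕ) : ℤ)) ρ ≤
      Nat.gcd q ρ * Int.gcd ((m₁ : ℤ) - m₂) ρ := by
    have e1 : (((q * m₁ : ℕ) : ℤ) - ((q * m₂ : ℕ) : ℤ)) = (q : ℤ) * ((m₁ : ℤ) - m₂) := by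
      push_cast
      ring
    rw [e1]
    unfold Int.gcd
    rw [Int.natAbs_mul, Int.natAbs_natCast, Int.natAbs_natCast]
    exact ZDefs_gcd_mul hq hρ
  have h1R : (Nat.gcd (q * m₂) ρ : ℝ) ≤ (Nat.gcd q ρ : ℝ) * (Nat.gcd m₂ ρ : ℝ) := by
    exact_mod_cast h1
  have h2R : (Int.gcd (((q * m₁ : ℕ) : ℤ) - ((q * m₂ : ℕ) : ℤ)) ρ : ℝ) ≤
      (Nat.gcd q ρ : ℝ) * (Int.gcd ((m₁ : ℤ) - m₂) ρ : ℝ) := by
    exact_mod_cast h2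
  have h3 : (0 : ℝ) ≤ (Nat.gcd (q * m₂) ρ : ℝ) := Nat.cast_nonneg _
  have h4 : (0 : ℝ) ≤ (Nat.gcd q ρ : ℝ) * (Int.gcd ((m₁ : ℤ) - m₂) ρ : ℝ) := by positivity
  have h5 : (Nat.gcd (q * m₂) ρ : ℝ) *
      (Int.gcd (((q * m₁ : ℕ) : ℤ) - ((q * m₂ : ℕ) : ℤ)) ρ : ℝ) ≤
      (Nat.gcd q ρ : ℝ) ^ 2 * ((Nat.gcd m₂ ρ : ℝ) * (Int.gcd ((m₁ : ℤ) - m₂) ρ : ℝ)) := by
    calc (Nat.gcd (q * m₂) ρ : ℝ) *
          (Int.gcd (((q * m₁ : ℕ) : ℤ) - ((q * m₂ : ℕ) : ℤ)) ρ : ℝ)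
        ≤ ((Nat.gcd q ρ : ℝ) * (Nat.gcd m₂ ρ : ℝ)) *
          ((Nat.gcd q ρ : ℝ) * (Int.gcd ((m₁ : ℤ) - m₂) ρ : ℝ)) :=
          mul_le_mul h1R h2R (Nat.cast_nonneg _) (by positivity)
      _ = _ := by ring
  exact div_le_div_of_nonneg_right h5 (Nat.cast_nonneg _)

private theorem ZDefs_log {R : ℝ} (hR : 100 ≤ R) : Real.log (40 * R ^ 3) ≤ R := by
  have hR0 : 0 < R := by linarith
  rw [Real.log_le_iff_le_exp (by positivity)]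
  refine le_trans ?_ (Real.pow_div_factorial_le_exp R hR0.le 5)
  have h1 : (Nat.factorial 5 : ℝ) = 120 := by
    norm_num [Nat.factorial]
  rw [h1, le_div_iff₀ (by norm_num)]
  have h2 : (100 : ℝ) ^ 2 ≤ R ^ 2 := pow_le_pow_left₀ (by norm_num) hR 2
  have h3 : 0 ≤ R ^ 3 := by positivity
  nlinarith

/-- Elementary consequences of the data. -/
theorem ZOK.facts {κ : ℝ} {X N r Y : ℕ} {χ : DirichletCharacter ℂ r} {ω : ℕ → ℂ} {y t : ℝ} (hP : ParOK κ X)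
    (h : ZOK κ X N r Y χ ω y t) :
    0 < y ∧ y ≤ 2 * X ∧ (X : ℝ) / 2 ≤ y ∧ N ≤ 2 * X ∧ r ≤ mR κ X ∧ Y ≤ mR κ X ∧
      (0 : ℝ) < mV κ X / 2 ∧ (∀ x n : ℕ, x * n + mV κ X ≤ N → (x : ℝ) * n ≤ y - mV κ X / 2) ∧
      |t| * Real.log (y / (mV κ X / 2)) ≤ (mR κ X : ℝ) ^ 15 := by
  have hX3 : (1000 : ℝ) ≤ X := by exact_mod_cast hP.X3
  have hR2 : (100 : ℝ) ≤ mR κ X := by exact_mod_cast hP.R2
  have hW1 : 4 * (mW X : ℝ) ≤ X := by exact_mod_cast hP.W1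
  have hW2 : (X : ℝ) ≤ 5 * mW X := by exact_mod_cast hP.W2
  have hD1 : (mD κ X : ℝ) * (mR κ X : ℝ) ^ 4 ≤ mW X := by exact_mod_cast hP.D1
  have hV2 : (mW X : ℝ) ≤ 2 * (mV κ X * (mR κ X : ℝ) ^ 3) := by exact_mod_cast hP.V2
  have hDV : 2 * (mD κ X : ℝ) ≤ mV κ X := by exact_mod_cast hP.DV
  have hD3 : (mR κ X : ℝ) ^ 4 ≤ mD κ X := by exact_mod_cast hP.D3
  have hN1 : (X : ℝ) < N + mW X := by
    have h1 := h.N1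
    have h2 := hP.W1
    have : X < N + mW X := by omega
    exact_mod_cast this
  have hN2 : (N : ℝ) < X + mW X := by exact_mod_cast h.N2
  obtain ⟨hy1, hy2⟩ := abs_le.1 h.y1
  have hD0 : (0 : ℝ) ≤ mD κ X := Nat.cast_nonneg _
  have hR4 : (100 : ℝ) ^ 4 ≤ (mR κ X : ℝ) ^ 4 := pow_le_pow_left₀ (by norm_num) hR2 4
  have hD4 : 100 * (mD κ X : ℝ) ≤ mW X := by
    have h1 : (mD κ X : ℝ) * 100 ≤ (mD κ X : ℝ) * (mR κ X : ℝ) ^ 4 := by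
      apply mul_le_mul_of_nonneg_left _ hD0
      linarith
    linarith
  have hR0 : (0 : ℝ) < mR κ X := by linarith
  have hDpos : (0 : ℝ) < mD κ X := lt_of_lt_of_le (by positivity) hD3
  have hVpos : (0 : ℝ) < mV κ X := by linarith
  have hyX : (X : ℝ) / 2 ≤ y := by linarith
  have hy0 : 0 < y := by linarith
  have hy2X : y ≤ 2 * X := by linarith
  refine ⟨hy0, hy2X, hyX, ?_, h.rR, ?_, by linarith, ?_, ?_⟩
  · have h1 : (N : ℝ) ≤ 2 * X := by linarith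
    exact_mod_cast h1
  · exact (Nat.le_mul_of_pos_left Y h.r1).trans h.rY
  · intro x n hxn
    have h1 : (x : ℝ) * n + mV κ X ≤ N := by exact_mod_cast hxn
    linarith
  · have h1 : Real.log (y / (mV κ X / 2)) ≤ mR κ X := by
      refine le_trans ?_ (ZDefs_log hR2)
      apply Real.log_le_log (by positivity)
      rw [div_le_iff₀ (by positivity)]
      have h2 : (X : ℝ) ≤ 10 * (mV κ X * (mR κ X : ℝ) ^ 3) := by linarith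
      calc y ≤ 2 * X := hy2X
        _ ≤ 2 * (10 * (mV κ X * (mR κ X : ℝ) ^ 3)) := by linarith
        _ = 40 * (mR κ X : ℝ) ^ 3 * (mV κ X / 2) := by ring
    have h2 : |t| ≤ (mR κ X : ℝ) ^ 14 := h.t1
    calc |t| * Real.log (y / (mV κ X / 2)) ≤ |t| * mR κ X :=
          mul_le_mul_of_nonneg_left h1 (abs_nonneg t)
      _ ≤ (mR κ X : ℝ) ^ 14 * mR κ X := mul_le_mul_of_nonneg_right h2 hR0.le
      _ = (mR κ X : ℝ) ^ 15 := by ring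

/-- Pointwise bound of `f` in the range of the sums. -/
theorem ZOK.norm_ff_le {κ : ℝ} (hκ : 0 < κ) (hκ1 : κ ≤ 1 / 1000) : ∃ X₀ : ℕ, ∀ X : ℕ, X₀ ≤ X →
    ∀ (N r Y : ℕ) (χ : DirichletCharacter ℂ r) (ω : ℕ → ℂ) (y t : ℝ), ZOK κ X N r Y χ ω y t →
    ∀ v : ℤ, v ≠ 0 → |v| ≤ 2 * X → ‖ff χ ω Y v‖ ≤ (mR κ X : ℝ) ^ (1 / 10 : ℝ) := by
  obtain ⟨X1, hX1⟩ := tau_le_R hκ hκ1 (δ := 1 / 10) (by norm_num)
  refine ⟨X1 + 2, fun X hX N r Y χ ω y t h v hv hv2 => ?_⟩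
  unfold ff
  rw [norm_mul]
  have h1 : ‖χ (v : ZMod r)‖ ≤ 1 := DirichletCharacter.norm_le_one χ _
  have h2 := norm_dsum_le h.om.1 Y hv
  have h3 : v.natAbs ≠ 0 := by
    rwa [Ne, Int.natAbs_eq_zero]
  have h4 : v.natAbs ≤ X ^ 4 := by
    have h5 : v.natAbs ≤ 2 * X := by
      have h6 : (v.natAbs : ℤ) ≤ ((2 * X : ℕ) : ℤ) := by
        rw [Int.natCast_natAbs]
        push_cast
        exact hv2
      exact_mod_cast h6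
    have h7 : 2 * X ≤ X ^ 4 := by
      have h8 : 2 ≤ X := by omega
      calc 2 * X ≤ X * X := Nat.mul_le_mul_right _ h8
        _ = X ^ 2 := by ring
        _ ≤ X ^ 4 := Nat.pow_le_pow_right (by omega) (by norm_num)
    exact h5.trans h7
  have h5 := hX1 X (by omega) v.natAbs h3 h4
  calc ‖χ (v : ZMod r)‖ * ‖dsum ω Y v‖ ≤ 1 * tauR v.natAbs :=
        mul_le_mul h1 h2 (norm_nonneg _) zero_le_one
    _ = tauR v.natAbs := one_mul _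
    _ ≤ _ := h5

end Pool.Agent.MVD
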