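import Pool.Agent.MVD.ZTypeII
import Pool.Agent.SInt.VauD
import Pool.Agent.SInt.ESmid

/-!
# Module ZMidB: small moduli, type II part (one modulus `q ≤ 2√X`)

`L = log X`, `U = R^4`, `ρ = rp r N`. `(log(mn))^i`: for `i = 1` it is `log m + log n`, so the coefficient is a sum of at most two products `cv a' b'` with `a' = aII e U · log^{i₁}`, `b' = bII e U · log^{i₂}`, `i₁ + i₂ = i`; `|a'(m)| ≤ 2L τ(m)`, `|b'(n)| ≤ 2L` in the range, both
vanish for arguments `≤ U` (aII_zero, bII_zero). Only `mn ≤ N/q ≤ 2X/q` matter. Split `a' = a'[m ≤ S] + a'[m > S]`, `S = √(2X/q)` (say the natural number Nat.sqrt (2X/q)); in the second part `n ≤ 2X/(qS)`-ish, i.e. `n ≤ S + 2` (restrict `b'` accordingly). Decompose the variable that is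
small into dyadic blocks `[M,2M)`, `M = 2^j (U+1)`, `M ≤ S + 2`. First part: Z_typeII with `a = a'` restricted to the block and `m ≤ S`, `b = b'`; second part: `cv` is symmetric, `a = b'` restricted to the block (`|b'| ≤ 2L ≤ 2L τ`), `b = a'` restricted to `m > S`.
Conditions of Z_typeII: `A = 2L` (cut the coefficients to arguments `≤ 2X`), `M ≥ R^4`, `q M R^40 ≤ q (S+2) R^40 ≤ 2 √(2 q X) R^40 ≤ X` as `q ≤ 2√X` and `R^1000 ≤ X`; `N ≤ q K`. `∑_{n ≤ 2X/(qM)} |b|² ≤ (2X/(qM)) L^6` (`∑ τ² ≤ z Hs^4`, sum_tau_pow_div_le).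
Each block gives (square root of the bound) `≤ L^E τ(q) (q,ρ) (X/q) ((ρ(1+|t|))^{-1/24} + 1/R)`; number of blocks `≤ 3L`.
-/

open Finset Complex

namespace Pool.Agent.MVD

open Pool.Agent.ANT Pool.Agent.SInt

namespace ZMidBAux

open Pool.Agent.SInt.ESmidAux

theorem ZS_congr {c c' : ℕ → ℂ} {f : ℤ → ℂ} {K N V : ℕ} {y t : ℝ} {q : ℕ}
    (h : ∀ k : ℕ, 1 ≤ k → q * k + V ≤ N → c k = c' k) : ZS c f K N V y t q = ZS c' f K N V y t q := by
  unfold ZS
  refine sum_congr rfl fun k hk => ?_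
  rw [mem_filter, mem_Icc] at hk
  rw [h k hk.1.1 hk.2]

theorem ZS_add (c c' : ℕ → ℂ) (f : ℤ → ℂ) (K N V : ℕ) (y t : ℝ) (q : ℕ) :
    ZS (fun k => c k + c' k) f K N V y t q = ZS c f K N V y t q + ZS c' f K N V y t q := by
  unfold ZS
  rw [← sum_add_distrib]
  exact sum_congr rfl fun k _ => by ring

theorem ZS_sum {ι : Type*} (s : Finset ι) (c : ι → ℕ → ℂ) (f : ℤ → ℂ) (K N V : ℕ) (y t : ℝ) (q : ℕ) :
    ZS (fun k => ∑ j ∈ s, c j k) f K N V y t q = ∑ j ∈ s, ZS (c j) f K N V y t q := by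
  unfold ZS
  rw [sum_comm]
  exact sum_congr rfl fun k _ => by rw [sum_mul, sum_mul]

theorem ZS_zero (f : ℤ → ℂ) (K N V : ℕ) (y t : ℝ) (q : ℕ) : ZS (fun _ => 0) f K N V y t q = 0 := by
  unfold ZS
  exact sum_eq_zero fun k _ => by ring

/-- the variable `m` at most `S` -/
theorem half {X R S q N V K : ℕ} {f : ℤ → ℂ} {y t G L : ℝ} (hL : L = Real.log X) (hL2 : 2 ≤ L) (hX : 2 ≤ X)
    (hq : 1 ≤ q) (hG : 0 ≤ G) (hR : 1 ≤ R) (hS : q * S * R ^ 40 ≤ X)
    (H : ∀ (M : ℕ) (A : ℝ) (a b : ℕ → ℂ), R ^ 4 ≤ M → q * M * R ^ 40 ≤ X → 0 ≤ A →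
      (∀ m, m ∉ Ico M (2 * M) → a m = 0) → (∀ m, ‖a m‖ ≤ A * tauR m) →
      ‖ZS (cv a b) f K N V y t q‖ ^ 2 ≤ (∑ n ∈ Icc 1 (2 * X / (q * M)), ‖b n‖ ^ 2) * A ^ 2 * G * (M : ℝ) ^ 2 *
        ((X : ℝ) / (q * M)))
    {α β : ℕ → ℂ} (hα : ∀ m, ‖α m‖ ≤ tauR m * (1 + Real.log m)) (hβ : ∀ n, ‖β n‖ ≤ tauR n * (1 + Real.log n))
    (hαU : ∀ m, m ≤ R ^ 4 → α m = 0) (hαS : ∀ m, S < m → α m = 0) :
    ‖ZS (cv α β) f K N V y t q‖ ≤ 3 * L * (16 * L ^ 4 * √G * ((X : ℝ) / q)) := by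
  have hR4 : 1 ≤ R ^ 4 := Nat.one_le_pow _ _ hR
  have hR40 : 1 ≤ R ^ 40 := Nat.one_le_pow _ _ hR
  have hX0 : (0 : ℝ) < X := by exact_mod_cast (by omega : 0 < X)
  have hq0 : (0 : ℝ) < q := by exact_mod_cast hq
  have hSX : S ≤ X := by
    calc S ≤ q * S := Nat.le_mul_of_pos_left S hq
      _ ≤ q * S * R ^ 40 := Nat.le_mul_of_pos_right _ hR40
      _ ≤ X := hS
  have hB0 : 0 ≤ 16 * L ^ 4 * √G * ((X : ℝ) / q) := by positivity
  set J : ℕ := Nat.log 2 S + 1 with hJ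
  have hJle : (J : ℝ) ≤ 3 * L := by
    have h1 : (Nat.log 2 S : ℝ) * Real.log 2 ≤ L := by
      rcases Nat.eq_zero_or_pos S with h0 | h0
      · rw [h0]
        simp
        linarith
      rw [← Real.log_pow, hL]
      refine Real.log_le_log (by positivity) ?_
      have h2 : 2 ^ (Nat.log 2 S) ≤ S := Nat.pow_log_le_self 2 (by omega)
      exact_mod_cast h2.trans hSX
    have h3 : (1 / 2 : ℝ) ≤ Real.log 2 := by
      have := Real.log_two_gt_d9
      linarith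
    have h4 : (Nat.log 2 S : ℝ) * (1 / 2) ≤ (Nat.log 2 S : ℝ) * Real.log 2 :=
      mul_le_mul_of_nonneg_left h3 (Nat.cast_nonneg _)
    rw [hJ]
    push_cast
    linarith
  have hdec : ∀ m, α m = ∑ j ∈ range J, (if Nat.log 2 (m / R ^ 4) = j then α m else 0) := by
    intro m
    rw [sum_ite_eq]
    by_cases hm : m ≤ S
    · have h2 : Nat.log 2 (m / R ^ 4) ≤ Nat.log 2 S := Nat.log_mono_right ((Nat.div_le_self _ _).trans hm)
      rw [if_pos (mem_range.2 (by omega))]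
    · rw [hαS m (not_le.1 hm), ite_self]
  have hsum : ZS (cv α β) f K N V y t q =
      ∑ j ∈ range J, ZS (cv (fun m => if Nat.log 2 (m / R ^ 4) = j then α m else 0) β) f K N V y t q := by
    rw [← ZS_sum]
    refine ZS_congr fun k _ _ => ?_
    rw [← cv_sum_left]
    congr 1
    funext m
    exact hdec m
  have hblock : ∀ j ∈ range J,
      ‖ZS (cv (fun m => if Nat.log 2 (m / R ^ 4) = j then α m else 0) β) f K N V y t q‖ ≤
        16 * L ^ 4 * √G * ((X : ℝ) / q) := by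
    intro j _
    have hsupp : ∀ m, m ∉ Ico (2 ^ j * R ^ 4) (2 * (2 ^ j * R ^ 4)) →
        (if Nat.log 2 (m / R ^ 4) = j then α m else 0) = 0 := by
      intro m hm
      split_ifs with hj
      · rcases le_or_gt m (R ^ 4) with h0 | h0
        · exact hαU m h0
        · exfalso
          apply hm
          have h1 : m / R ^ 4 ≠ 0 := by
            have := Nat.div_pos h0.le hR4
            omega
          have h2 := Nat.pow_log_le_self 2 h1
          have h3 := Nat.lt_pow_succ_log_self (b := 2) (by norm_num) (m / R ^ 4)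
          rw [hj] at h2 h3
          rw [mem_Ico]
          refine ⟨(Nat.le_div_iff_mul_le hR4).1 h2, ?_⟩
          have h4 := (Nat.div_lt_iff_lt_mul hR4).1 h3
          calc m < 2 ^ (j + 1) * R ^ 4 := h4
            _ = 2 * (2 ^ j * R ^ 4) := by ring
      · rfl
    by_cases h1 : 2 ^ j * R ^ 4 ≤ S
    · set M : ℕ := 2 ^ j * R ^ 4 with hM
      have hM4 : R ^ 4 ≤ M := Nat.le_mul_of_pos_left _ (by positivity)
      have hM1 : 1 ≤ M := hR4.trans hM4
      have hM0 : (0 : ℝ) < M := by exact_mod_cast hM1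
      have hk := H M (2 * L) (fun m => if Nat.log 2 (m / R ^ 4) = j then α m else 0) β hM4
        ((Nat.mul_le_mul_right _ (Nat.mul_le_mul_left _ h1)).trans hS) (by linarith) hsupp (by
          intro m
          split_ifs
          · by_cases hm : m ≤ S
            · refine (hα m).trans ?_
              rw [mul_comm]
              refine mul_le_mul_of_nonneg_right ?_ (tauR_nonneg _)
              have h2 : Real.log m ≤ L := by
                rw [hL]
                rcases Nat.eq_zero_or_pos m with h0 | h0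
                · rw [h0]
                  simp
                  linarith [hL ▸ hL2]
                · exact Real.log_le_log (by exact_mod_cast h0) (by exact_mod_cast hm.trans hSX)
              linarith
            · rw [hαS m (not_le.1 hm), norm_zero]
              exact mul_nonneg (by linarith) (tauR_nonneg _)
          · rw [norm_zero]
            exact mul_nonneg (by linarith) (tauR_nonneg _))
      have hB : ∑ n ∈ Icc 1 (2 * X / (q * M)), ‖β n‖ ^ 2 ≤ (2 * X / (q * M) : ℝ) * (2 * L) ^ 5 := by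
        have hset : Icc 1 (2 * X / (q * M)) = Ioc 0 (2 * X / (q * M)) := by
          ext n
          rw [mem_Icc, mem_Ioc]
          omega
        rw [hset]
        refine (sum_sq_le hβ _).trans ?_
        have h3 : ((2 * X / (q * M) : ℕ) : ℝ) ≤ 2 * X / (q * M) := by
          refine Nat.cast_div_le.trans ?_
          push_cast
          exact le_refl _
        rcases Nat.eq_zero_or_pos (2 * X / (q * M)) with h0 | h0
        · rw [h0]
          simp only [Nat.cast_zero, zero_mul]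
          positivity
        have h4' : (1 : ℝ) ≤ ((2 * X / (q * M) : ℕ) : ℝ) := by exact_mod_cast h0
        have h5 : Real.log ((2 * X / (q * M) : ℕ) : ℝ) ≤ 1 + L := by
          calc Real.log ((2 * X / (q * M) : ℕ) : ℝ) ≤ Real.log (2 * X) := by
                refine Real.log_le_log (by linarith) ?_
                exact_mod_cast Nat.div_le_self _ _
            _ = Real.log 2 + L := by rw [Real.log_mul (by norm_num) hX0.ne', hL]
            _ ≤ 1 + L := by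
                have := Real.log_two_lt_d9
                linarith
        have h6 : 0 ≤ Real.log ((2 * X / (q * M) : ℕ) : ℝ) := Real.log_nonneg h4'
        exact mul_le_mul h3 (pow_le_pow_left₀ (by linarith) (by linarith) 5) (by positivity) (by positivity)
      have hsq : ‖ZS (cv (fun m => if Nat.log 2 (m / R ^ 4) = j then α m else 0) β) f K N V y t q‖ ^ 2 ≤
          (16 * L ^ 4 * √G * ((X : ℝ) / q)) ^ 2 := by
        refine hk.trans ?_
        calc (∑ n ∈ Icc 1 (2 * X / (q * M)), ‖β n‖ ^ 2) * (2 * L) ^ 2 * G * (M : ℝ) ^ 2 * ((X : ℝ) / (q * M))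
            ≤ ((2 * X / (q * M) : ℝ) * (2 * L) ^ 5) * (2 * L) ^ 2 * G * (M : ℝ) ^ 2 * ((X : ℝ) / (q * M)) := by
              gcongr
          _ = L ^ 7 * (256 * G * ((X : ℝ) / q) ^ 2) := by
              field_simp
              ring
          _ ≤ L ^ 8 * (256 * G * ((X : ℝ) / q) ^ 2) :=
              mul_le_mul_of_nonneg_right (pow_le_pow_right₀ (by linarith) (by norm_num)) (by positivity)
          _ = (16 * L ^ 4 * √G * ((X : ℝ) / q)) ^ 2 := by
              have := Real.sq_sqrt hG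
              calc L ^ 8 * (256 * G * ((X : ℝ) / q) ^ 2) = L ^ 8 * (256 * (√G) ^ 2 * ((X : ℝ) / q) ^ 2) := by
                    rw [this]
                _ = (16 * L ^ 4 * √G * ((X : ℝ) / q)) ^ 2 := by ring
      exact le_of_sq_le_sq hsq hB0
    · have hz0 : (fun m => if Nat.log 2 (m / R ^ 4) = j then α m else 0) = fun _ => (0 : ℂ) := by
        funext m
        by_cases hm : m ∈ Ico (2 ^ j * R ^ 4) (2 * (2 ^ j * R ^ 4))
        · rw [mem_Ico] at hm
          split_ifs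
          · exact hαS m (by omega)
          · rfl
        · exact hsupp m hm
      rw [hz0]
      have : ZS (cv (fun _ => (0 : ℂ)) β) f K N V y t q = 0 :=
        (ZS_congr fun k _ _ => cv_zero_left β k).trans (ZS_zero f K N V y t q)
      rw [this, norm_zero]
      exact hB0
  rw [hsum]
  calc ‖∑ j ∈ range J, ZS (cv (fun m => if Nat.log 2 (m / R ^ 4) = j then α m else 0) β) f K N V y t q‖
      ≤ ∑ j ∈ range J, 16 * L ^ 4 * √G * ((X : ℝ) / q) := (norm_sum_le _ _).trans (sum_le_sum hblock)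
    _ = J * (16 * L ^ 4 * √G * ((X : ℝ) / q)) := by rw [sum_const, card_range, nsmul_eq_mul]
    _ ≤ 3 * L * (16 * L ^ 4 * √G * ((X : ℝ) / q)) := mul_le_mul_of_nonneg_right hJle hB0

/-- both variables -/
theorem full {X R q N V K : ℕ} {f : ℤ → ℂ} {y t G L : ℝ} (hL : L = Real.log X) (hL2 : 2 ≤ L) (hX : 2 ≤ X)
    (hq : 1 ≤ q) (hG : 0 ≤ G) (hR : 1 ≤ R) (hS : q * Nat.sqrt (2 * X / q) * R ^ 40 ≤ X) (hN : N ≤ 2 * X)
    (H : ∀ (M : ℕ) (A : ℝ) (a b : ℕ → ℂ), R ^ 4 ≤ M → q * M * R ^ 40 ≤ X → 0 ≤ A →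
      (∀ m, m ∉ Ico M (2 * M) → a m = 0) → (∀ m, ‖a m‖ ≤ A * tauR m) →
      ‖ZS (cv a b) f K N V y t q‖ ^ 2 ≤ (∑ n ∈ Icc 1 (2 * X / (q * M)), ‖b n‖ ^ 2) * A ^ 2 * G * (M : ℝ) ^ 2 *
        ((X : ℝ) / (q * M)))
    {α β : ℕ → ℂ} (hα : ∀ m, ‖α m‖ ≤ tauR m * (1 + Real.log m)) (hβ : ∀ n, ‖β n‖ ≤ tauR n * (1 + Real.log n))
    (hαU : ∀ m, m ≤ R ^ 4 → α m = 0) (hβU : ∀ m, m ≤ R ^ 4 → β m = 0) :
    ‖ZS (cv α β) f K N V y t q‖ ≤ 6 * L * (16 * L ^ 4 * √G * ((X : ℝ) / q)) := by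
  set S : ℕ := Nat.sqrt (2 * X / q) with hSd
  have hle : ∀ (γ : ℕ → ℂ) (p : ℕ → Prop) [DecidablePred p],
      (∀ m, ‖γ m‖ ≤ tauR m * (1 + Real.log m)) →
      ∀ m, ‖(if p m then γ m else 0 : ℂ)‖ ≤ tauR m * (1 + Real.log m) := by
    intro γ p _ hγ m
    split_ifs
    · exact hγ m
    · rw [norm_zero]
      exact (norm_nonneg _).trans (hγ m)
  have hsplit : ZS (cv α β) f K N V y t q =
      ZS (cv (fun m => if m ≤ S then α m else 0) β) f K N V y t q +
      ZS (cv (fun m => if m ≤ S then β m else 0) (fun m => if ¬ m ≤ S then α m else 0)) f K N V y t q := by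
    rw [← ZS_add]
    refine ZS_congr fun k hk hky => ?_
    rw [cv_comm (fun m => if m ≤ S then β m else 0)]
    unfold cv
    rw [← sum_add_distrib]
    refine sum_congr rfl fun p hp => ?_
    rw [Nat.mem_divisorsAntidiagonal] at hp
    beta_reduce
    by_cases h1 : p.1 ≤ S
    · rw [if_pos h1, if_neg (not_not.2 h1)]
      ring
    · rw [if_neg h1, if_pos h1]
      by_cases h2 : p.2 ≤ S
      · rw [if_pos h2]
        ring
      · exfalso
        have h3 : (S + 1) * (S + 1) ≤ p.1 * p.2 := Nat.mul_le_mul (by omega) (by omega)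
        have h4 : k ≤ 2 * X / q := by
          rw [Nat.le_div_iff_mul_le hq, mul_comm]
          omega
        have h5 : 2 * X / q < (S + 1) * (S + 1) := Nat.lt_succ_sqrt _
        rw [hp.1] at h3
        omega
  rw [hsplit]
  have h1 := half hL hL2 hX hq hG hR hS H (α := fun m => if m ≤ S then α m else 0) (β := β)
    (hle α _ hα) hβ (fun m hm => by rw [hαU m hm, ite_self]) (fun m hm => by rw [if_neg (not_le.2 hm)])
  have h2 := half hL hL2 hX hq hG hR hS H (α := fun m => if m ≤ S then β m else 0)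
    (β := fun m => if ¬ m ≤ S then α m else 0)
    (hle β _ hβ) (hle α _ hα) (fun m hm => by rw [hβU m hm, ite_self]) (fun m hm => by rw [if_neg (not_le.2 hm)])
  refine (norm_add_le _ _).trans ?_
  linarith

theorem size {X R q : ℕ} (hR : 100 ≤ R) (hRX : R ^ 1000 ≤ X) (hq : (q : ℝ) ≤ 2 * √(X : ℝ)) :
    q * Nat.sqrt (2 * X / q) * R ^ 40 ≤ X := by
  have hq2 : q * q ≤ 4 * X := by
    have h1 : (q : ℝ) * q ≤ (2 * √(X : ℝ)) * (2 * √(X : ℝ)) :=
      mul_le_mul hq hq (Nat.cast_nonneg _) (by positivity)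
    have h2 : (2 * √(X : ℝ)) * (2 * √(X : ℝ)) = 4 * X := by
      have := Real.mul_self_sqrt (Nat.cast_nonneg X : (0 : ℝ) ≤ X)
      calc (2 * √(X : ℝ)) * (2 * √(X : ℝ)) = 4 * (√(X : ℝ) * √(X : ℝ)) := by ring
        _ = 4 * X := by rw [this]
    rw [h2] at h1
    exact_mod_cast h1
  have hR16 : 16 * R ^ 160 ≤ X := by
    calc 16 * R ^ 160 ≤ R * R ^ 160 := Nat.mul_le_mul_right _ (by omega)
      _ = R ^ 161 := by ring
      _ ≤ R ^ 1000 := Nat.pow_le_pow_right (by omega) (by norm_num)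
      _ ≤ X := hRX
  have h1 : 2 * q * R ^ 80 ≤ X := by
    rw [← Nat.mul_self_le_mul_self_iff]
    calc 2 * q * R ^ 80 * (2 * q * R ^ 80) = (q * q) * (4 * R ^ 160) := by ring
      _ ≤ (4 * X) * (4 * R ^ 160) := Nat.mul_le_mul_right _ hq2
      _ = X * (16 * R ^ 160) := by ring
      _ ≤ X * X := Nat.mul_le_mul_left _ hR16
  set S : ℕ := Nat.sqrt (2 * X / q) with hS
  have hSS : S * S ≤ 2 * X / q := Nat.sqrt_le _
  have h2 : q * (S * S) ≤ 2 * X := by
    calc q * (S * S) ≤ q * (2 * X / q) := Nat.mul_le_mul_left _ hSS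
      _ ≤ 2 * X := Nat.mul_div_le _ _
  rw [← Nat.mul_self_le_mul_self_iff]
  calc q * S * R ^ 40 * (q * S * R ^ 40) = (q * (S * S)) * (q * R ^ 80) := by ring
    _ ≤ (2 * X) * (q * R ^ 80) := Nat.mul_le_mul_right _ h2
    _ = X * (2 * q * R ^ 80) := by ring
    _ ≤ X * X := Nat.mul_le_mul_left _ h1

end ZMidBAux

open ZMidBAux Pool.Agent.SInt.ESmidAux in
theorem mid_typeII {κ : ℝ} (hκ : 0 < κ) (hκ1 : κ ≤ 1 / 1000) : ∃ E X₀ : ℕ, ∀ X : ℕ, X₀ ≤ X →
    ∀ q : ℕ, 1 ≤ q → (q : ℝ) ≤ 2 * √(X : ℝ) → ∀ e : ℕ, 1 ≤ e → ∀ i : ℕ, i ≤ 1 →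
    ∀ (N r Y K : ℕ) (χ : DirichletCharacter ℂ r) (ω : ℕ → ℂ) (y t : ℝ), ZOK κ X N r Y χ ω y t → N ≤ q * K →
    ‖ZS (fun k => cv (aII e (mR κ X ^ 4)) (bII e (mR κ X ^ 4)) k * ((Real.log k ^ i : ℝ) : ℂ)) (ff χ ω Y) K N
        (mV κ X) y t q‖ ≤
      (X : ℝ) / q * Real.log X ^ E * tauR q * (Nat.gcd q (rp r N) : ℝ) *
        (((rp r N : ℝ) * (1 + |t|)) ^ (-(1 / 24) : ℝ) + 1 / mR κ X) := by
  obtain ⟨E, X₁, h⟩ := Z_typeII hκ hκ1
  obtain ⟨X₂, hpar⟩ := par_ok hκ hκ1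
  refine ⟨E + 13, max X₁ X₂, fun X hX q hq hqX e he i hi N r Y K χ ω y t hZ hNK => ?_⟩
  have hP := hpar X (le_of_max_le_right hX)
  have hR2 := hP.R2
  have hX3 := hP.X3
  obtain ⟨-, -, -, hN2, -⟩ := ZOK.facts hP hZ
  set R : ℕ := mR κ X with hR
  set L : ℝ := Real.log X with hL
  set ρ : ℕ := rp r N with hρ
  have hL2 : 2 ≤ L := by
    rw [hL, Real.le_log_iff_exp_le (by exact_mod_cast (by omega : 0 < X))]
    have h1 := Real.exp_one_lt_d9
    have h2 : Real.exp 2 = Real.exp 1 * Real.exp 1 := by rw [← Real.exp_add]; norm_num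
    have h3 : Real.exp 1 * Real.exp 1 ≤ 3 * 3 :=
      mul_le_mul (by linarith) (by linarith) (Real.exp_pos _).le (by norm_num)
    have h4 : (1000 : ℝ) ≤ X := by exact_mod_cast hX3
    rw [h2]
    linarith
  have hR1 : (1 : ℝ) ≤ R := by exact_mod_cast (by omega : 1 ≤ R)
  have hρ1 : 1 ≤ ρ := rp_pos hZ.r1
  have hx0 : 0 < (ρ : ℝ) * (1 + |t|) := by
    have : (0 : ℝ) < ρ := by exact_mod_cast hρ1
    positivity
  set s2 : ℝ := ((ρ : ℝ) * (1 + |t|)) ^ (-(1 / 12) : ℝ) + 1 / (R : ℝ) ^ 2 with hs2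
  have hs20 : 0 ≤ s2 := by positivity
  set G : ℝ := L ^ E * tauR q ^ 2 * (Nat.gcd q ρ : ℝ) ^ 2 * s2 with hG
  have hL0 : 0 ≤ L := by linarith
  have hG0 : 0 ≤ G := by
    rw [hG]
    positivity
  have hX0 : (0 : ℝ) < X := by exact_mod_cast (by omega : 0 < X)
  have hq0 : (0 : ℝ) < q := by exact_mod_cast hq
  have hτ0 : 0 ≤ tauR q := tauR_nonneg q
  have H : ∀ (M : ℕ) (A : ℝ) (a b : ℕ → ℂ), R ^ 4 ≤ M → q * M * R ^ 40 ≤ X → 0 ≤ A →
      (∀ m, m ∉ Ico M (2 * M) → a m = 0) → (∀ m, ‖a m‖ ≤ A * tauR m) →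
      ‖ZS (cv a b) (ff χ ω Y) K N (mV κ X) y t q‖ ^ 2 ≤
        (∑ n ∈ Icc 1 (2 * X / (q * M)), ‖b n‖ ^ 2) * A ^ 2 * G * (M : ℝ) ^ 2 * ((X : ℝ) / (q * M)) := by
    intro M A a b hM hqM hA hsupp ha
    have h1 := h X (le_of_max_le_left hX) N r Y χ ω y t hZ q M K A a b hq hM hqM hNK hA hsupp ha
    refine h1.trans (le_of_eq ?_)
    rw [hG]
    ring
  have hS := size hR2 hP.Rpow hqX
  have hG2 : √G ≤ L ^ E * tauR q * (Nat.gcd q ρ : ℝ) *
      (((ρ : ℝ) * (1 + |t|)) ^ (-(1 / 24) : ℝ) + 1 / (R : ℝ)) := by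
    have hgcd0 : (0 : ℝ) ≤ (Nat.gcd q ρ : ℝ) := Nat.cast_nonneg _
    have hv0 : 0 ≤ ((ρ : ℝ) * (1 + |t|)) ^ (-(1 / 24) : ℝ) := Real.rpow_nonneg hx0.le _
    refine Real.sqrt_le_iff.2 ⟨by positivity, ?_⟩
    have e1 : L ^ E ≤ (L ^ E) ^ 2 := by
      have h1 : 1 ≤ L ^ E := one_le_pow₀ (by linarith)
      calc L ^ E = L ^ E * 1 := (mul_one _).symm
        _ ≤ L ^ E * L ^ E := mul_le_mul_of_nonneg_left h1 (by positivity)
        _ = (L ^ E) ^ 2 := by ring
    have e2 : s2 ≤ (((ρ : ℝ) * (1 + |t|)) ^ (-(1 / 24) : ℝ) + 1 / (R : ℝ)) ^ 2 := by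
      have e3 : ((ρ : ℝ) * (1 + |t|)) ^ (-(1 / 12) : ℝ) = (((ρ : ℝ) * (1 + |t|)) ^ (-(1 / 24) : ℝ)) ^ 2 := by
        rw [← Real.rpow_natCast, ← Real.rpow_mul hx0.le]
        congr 1
        push_cast
        norm_num
      have e4 : 0 ≤ ((ρ : ℝ) * (1 + |t|)) ^ (-(1 / 24) : ℝ) * (1 / (R : ℝ)) := by positivity
      rw [hs2, e3]
      have e5 : 1 / (R : ℝ) ^ 2 = (1 / (R : ℝ)) ^ 2 := by rw [div_pow, one_pow]
      rw [e5]
      nlinarith [e4]
    calc G = L ^ E * (tauR q ^ 2 * (Nat.gcd q ρ : ℝ) ^ 2 * s2) := by rw [hG]; ring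
      _ ≤ (L ^ E) ^ 2 * (tauR q ^ 2 * (Nat.gcd q ρ : ℝ) ^ 2 *
          (((ρ : ℝ) * (1 + |t|)) ^ (-(1 / 24) : ℝ) + 1 / (R : ℝ)) ^ 2) := by
        refine mul_le_mul e1 (mul_le_mul_of_nonneg_left e2 (by positivity)) (by positivity) (by positivity)
      _ = _ := by ring
  have hb : ∀ m, ‖bII e (R ^ 4) m‖ ≤ tauR m := by
    intro m
    rcases Nat.eq_zero_or_pos m with rfl | hm
    · rw [bII_zero (Nat.zero_le _), norm_zero]
      exact tauR_nonneg _
    · exact (norm_bII_le e (R ^ 4) m).trans (one_le_tauR (by omega))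
  have ha := norm_aII_le e (R ^ 4)
  have hmain : ‖ZS (fun k => cv (aII e (R ^ 4)) (bII e (R ^ 4)) k * ((Real.log k ^ i : ℝ) : ℂ)) (ff χ ω Y) K N
      (mV κ X) y t q‖ ≤ 12 * L * (16 * L ^ 4 * √G * ((X : ℝ) / q)) := by
    have hB0 : 0 ≤ L * (16 * L ^ 4 * √G * ((X : ℝ) / q)) := by positivity
    interval_cases i
    · have h1 := full hL hL2 (by omega) hq hG0 (by omega) hS hN2 H (le_tau_log ha) (le_tau_log hb)
        (fun m hm => aII_zero hm) (fun m hm => bII_zero hm)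
      have h2 : ZS (fun k => cv (aII e (R ^ 4)) (bII e (R ^ 4)) k * ((Real.log k ^ 0 : ℝ) : ℂ)) (ff χ ω Y) K N
          (mV κ X) y t q = ZS (cv (aII e (R ^ 4)) (bII e (R ^ 4))) (ff χ ω Y) K N (mV κ X) y t q :=
        ZS_congr fun k _ _ => by rw [pow_zero, Complex.ofReal_one, mul_one]
      rw [h2]
      linarith
    · have h1 := full hL hL2 (by omega) hq hG0 (by omega) hS hN2 H (le_tau_log' ha) (le_tau_log hb)
        (fun m hm => by rw [aII_zero hm, zero_mul]) (fun m hm => bII_zero hm)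
      have h1' := full hL hL2 (by omega) hq hG0 (by omega) hS hN2 H (le_tau_log ha) (le_tau_log' hb)
        (fun m hm => aII_zero hm) (fun m hm => by rw [bII_zero hm, zero_mul])
      have h2 : ZS (fun k => cv (aII e (R ^ 4)) (bII e (R ^ 4)) k * ((Real.log k ^ 1 : ℝ) : ℂ)) (ff χ ω Y) K N
          (mV κ X) y t q =
          ZS (cv (fun m => aII e (R ^ 4) m * ((Real.log m : ℝ) : ℂ)) (bII e (R ^ 4))) (ff χ ω Y) K N
            (mV κ X) y t q +
          ZS (cv (aII e (R ^ 4)) (fun m => bII e (R ^ 4) m * ((Real.log m : ℝ) : ℂ))) (ff χ ω Y) K N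
            (mV κ X) y t q := by
        rw [← ZS_add]
        exact ZS_congr fun k _ _ => by rw [pow_one, cv_log]
      rw [h2]
      refine (norm_add_le _ _).trans ?_
      linarith
  refine hmain.trans ?_
  have hw0 : 0 ≤ ((ρ : ℝ) * (1 + |t|)) ^ (-(1 / 24) : ℝ) + 1 / (R : ℝ) := by positivity
  have hL8 : 192 ≤ L ^ 8 := by
    calc (192 : ℝ) ≤ 2 ^ 8 := by norm_num
      _ ≤ L ^ 8 := pow_le_pow_left₀ (by norm_num) hL2 8
  calc 12 * L * (16 * L ^ 4 * √G * ((X : ℝ) / q)) = 192 * (L ^ 5 * ((X : ℝ) / q)) * √G := by ring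
    _ ≤ L ^ 8 * (L ^ 5 * ((X : ℝ) / q)) * (L ^ E * tauR q * (Nat.gcd q ρ : ℝ) *
      (((ρ : ℝ) * (1 + |t|)) ^ (-(1 / 24) : ℝ) + 1 / (R : ℝ))) := by
        refine mul_le_mul (mul_le_mul_of_nonneg_right hL8 (by positivity)) hG2 (Real.sqrt_nonneg _) (by positivity)
    _ = (X : ℝ) / q * L ^ (E + 13) * tauR q * (Nat.gcd q ρ : ℝ) *
        (((ρ : ℝ) * (1 + |t|)) ^ (-(1 / 24) : ℝ) + 1 / (R : ℝ)) := by
        rw [pow_add]
        ring

end Pool.Agent.MVD
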