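import Pool.Agent.MVD.ZMidA
import Pool.Agent.MVD.ZMidB

/-!
# Module ZMid: small moduli `Q ≤ √X`

Vaughan's identity for `μ(ek)` splits the sum into a short part, a type I part (mid_typeI) and a type II part (mid_typeII); then the sum over `q` with tau_gcd_q and tau_small.
-/

open Finset Complex

namespace Pool.Agent.MVD

open Pool.Agent.ANT Pool.Agent.SInt

namespace ZMidAux

lemma log_large (C : ℝ) : ∃ X₀ : ℕ, ∀ X : ℕ, X₀ ≤ X → C ≤ Real.log X := by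
  refine ⟨⌈Real.exp C⌉₊, fun X hX => ?_⟩
  have h1 : Real.exp C ≤ X := (Nat.le_ceil _).trans (by exact_mod_cast hX)
  have h2 := Real.log_le_log (Real.exp_pos C) h1
  rwa [Real.log_exp] at h2

lemma norm_eit (t x : ℝ) : ‖eit t x‖ = 1 := by
  unfold eit
  rw [mul_comm, Complex.norm_exp_ofReal_mul_I]

lemma ZS_lin (c c₁ c₂ c₃ : ℕ → ℂ) (w : ℂ) (f : ℤ → ℂ) (K N V : ℕ) (y t : ℝ) (q : ℕ)
    (h : ∀ k, 1 ≤ k → c k = w * (2 * c₁ k - c₂ k + c₃ k)) :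
    ZS c f K N V y t q = w * (2 * ZS c₁ f K N V y t q - ZS c₂ f K N V y t q + ZS c₃ f K N V y t q) := by
  unfold ZS
  rw [Finset.mul_sum, ← Finset.sum_sub_distrib, ← Finset.sum_add_distrib, Finset.mul_sum]
  refine Finset.sum_congr rfl fun k hk => ?_
  have hk1 := (Finset.mem_Icc.mp (Finset.mem_filter.mp hk).1).1
  rw [h k hk1]
  ring

lemma norm_ZS_lin (c c₁ c₂ c₃ : ℕ → ℂ) (w : ℂ) (hw : ‖w‖ ≤ 1) (f : ℤ → ℂ) (K N V : ℕ) (y t : ℝ) (q : ℕ)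
    (h : ∀ k, 1 ≤ k → c k = w * (2 * c₁ k - c₂ k + c₃ k)) :
    ‖ZS c f K N V y t q‖ ≤ 2 * ‖ZS c₁ f K N V y t q‖ + ‖ZS c₂ f K N V y t q‖ + ‖ZS c₃ f K N V y t q‖ := by
  rw [ZS_lin c c₁ c₂ c₃ w f K N V y t q h, norm_mul]
  have h1 : ‖2 * ZS c₁ f K N V y t q - ZS c₂ f K N V y t q + ZS c₃ f K N V y t q‖ ≤
      2 * ‖ZS c₁ f K N V y t q‖ + ‖ZS c₂ f K N V y t q‖ + ‖ZS c₃ f K N V y t q‖ := by
    have h2 := norm_add_le (2 * ZS c₁ f K N V y t q - ZS c₂ f K N V y t q) (ZS c₃ f K N V y t q)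
    have h3 := norm_sub_le (2 * ZS c₁ f K N V y t q) (ZS c₂ f K N V y t q)
    have h4 : ‖2 * ZS c₁ f K N V y t q‖ = 2 * ‖ZS c₁ f K N V y t q‖ := by
      rw [norm_mul]
      simp
    linarith
  calc ‖w‖ * ‖2 * ZS c₁ f K N V y t q - ZS c₂ f K N V y t q + ZS c₃ f K N V y t q‖
      ≤ 1 * ‖2 * ZS c₁ f K N V y t q - ZS c₂ f K N V y t q + ZS c₃ f K N V y t q‖ :=
        mul_le_mul_of_nonneg_right hw (norm_nonneg _)
    _ ≤ _ := by rw [one_mul]; exact h1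

lemma log_pow_le_self {k i : ℕ} (hk : 1 ≤ k) (hi : i ≤ 1) : |Real.log k ^ i| ≤ k := by
  have hk0 : (0 : ℝ) < k := by exact_mod_cast hk
  have hk1 : (1 : ℝ) ≤ k := by exact_mod_cast hk
  have h0 : 0 ≤ Real.log k := Real.log_nonneg hk1
  rw [abs_of_nonneg (pow_nonneg h0 _)]
  interval_cases i
  · simpa using hk1
  · rw [pow_one]
    have := Real.log_le_sub_one_of_pos hk0
    linarith

lemma ZS_Mdd {κ : ℝ} {X N r Y K : ℕ} {χ : DirichletCharacter ℂ r} {ω : ℕ → ℂ} {y t : ℝ} (hP : ParOK κ X)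
    (h : ZOK κ X N r Y χ ω y t)
    (hff : ∀ v : ℤ, v ≠ 0 → |v| ≤ 2 * X → ‖ff χ ω Y v‖ ≤ (mR κ X : ℝ) ^ (1 / 10 : ℝ)) (e i q : ℕ) (hi : i ≤ 1) :
    ‖ZS (fun k => Mdd e (mR κ X ^ 4) k * ((Real.log k ^ i : ℝ) : ℂ)) (ff χ ω Y) K N (mV κ X) y t q‖ ≤
      (mR κ X : ℝ) ^ 9 := by
  set R := mR κ X with hR
  have hR1 : (1 : ℝ) ≤ R := by
    have := hP.R2
    exact_mod_cast (by omega : 1 ≤ R)
  have hR0 : (0 : ℝ) < R := by linarith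
  have hN2 : N ≤ 2 * X := (h.facts hP).2.2.2.1
  have hV : 1 ≤ mV κ X := by
    have h1 := hP.DV
    have h2 := hP.D3
    have h3 : 1 ≤ mR κ X ^ 4 := Nat.one_le_pow _ _ (by have := hP.R2; omega)
    omega
  have hR10 : (R : ℝ) ^ (1 / 10 : ℝ) ≤ R := by
    calc (R : ℝ) ^ (1 / 10 : ℝ) ≤ (R : ℝ) ^ (1 : ℝ) := Real.rpow_le_rpow_of_exponent_le hR1 (by norm_num)
      _ = R := Real.rpow_one _
  unfold ZS
  refine (norm_sum_le _ _).trans ?_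
  have hterm : ∀ k ∈ (Icc 1 K).filter (fun k => q * k + mV κ X ≤ N),
      ‖Mdd e (R ^ 4) k * ((Real.log k ^ i : ℝ) : ℂ) * ff χ ω Y ((N : ℤ) - q * k) * eit t (y - q * k)‖ ≤
        if k ≤ R ^ 4 then (R : ℝ) ^ 5 else 0 := by
    intro k hk
    obtain ⟨hk1, hk2⟩ := Finset.mem_filter.mp hk
    have hk3 := (Finset.mem_Icc.mp hk1).1
    split_ifs with hkU
    · rw [norm_mul, norm_mul, norm_mul, norm_eit, mul_one, Complex.norm_real, Real.norm_eq_abs]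
      have hv0 : (N : ℤ) - q * k ≠ 0 := by
        have : (q : ℤ) * k + (mV κ X : ℤ) ≤ N := by exact_mod_cast hk2
        have hV' : (1 : ℤ) ≤ mV κ X := by exact_mod_cast hV
        intro h0
        linarith
      have hv1 : |(N : ℤ) - q * k| ≤ 2 * X := by
        have h5 : (q : ℤ) * k + (mV κ X : ℤ) ≤ N := by exact_mod_cast hk2
        have h6 : (N : ℤ) ≤ 2 * X := by exact_mod_cast hN2
        have hV' : (1 : ℤ) ≤ mV κ X := by exact_mod_cast hV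
        have h7 : (0 : ℤ) ≤ (q : ℤ) * k := by positivity
        rw [abs_le]
        constructor <;> linarith
      have h4 := hff _ hv0 hv1
      have h8 : |Real.log k ^ i| ≤ (R : ℝ) ^ 4 := by
        refine (log_pow_le_self hk3 hi).trans ?_
        exact_mod_cast hkU
      calc ‖Mdd e (R ^ 4) k‖ * |Real.log k ^ i| * ‖ff χ ω Y ((N : ℤ) - q * k)‖
          ≤ 1 * (R : ℝ) ^ 4 * R := by
            refine mul_le_mul (mul_le_mul (norm_Mdd_le _ _ _) h8 (abs_nonneg _) zero_le_one)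
              (h4.trans hR10) (norm_nonneg _) (by positivity)
        _ = (R : ℝ) ^ 5 := by ring
    · have h9 : Mdd e (R ^ 4) k = 0 := by
        change (if k ≤ R ^ 4 ∧ k.Coprime e then muC k else 0) = 0
        rw [if_neg (fun h => hkU h.1)]
      rw [h9]
      simp
  refine (Finset.sum_le_sum hterm).trans ?_
  have h10 : ∑ k ∈ (Icc 1 K).filter (fun k => q * k + mV κ X ≤ N), (if k ≤ R ^ 4 then (R : ℝ) ^ 5 else 0) ≤
      ∑ k ∈ Icc 1 (R ^ 4), (R : ℝ) ^ 5 := by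
    rw [← Finset.sum_filter]
    refine Finset.sum_le_sum_of_subset_of_nonneg ?_ fun _ _ _ => by positivity
    intro k hk
    obtain ⟨hk1, hk2⟩ := Finset.mem_filter.mp hk
    have hk3 := (Finset.mem_Icc.mp (Finset.mem_filter.mp hk1).1).1
    exact Finset.mem_Icc.mpr ⟨hk3, hk2⟩
  refine h10.trans ?_
  rw [Finset.sum_const, Nat.card_Icc, nsmul_eq_mul]
  have h11 : ((R ^ 4 + 1 - 1 : ℕ) : ℝ) = (R : ℝ) ^ 4 := by
    rw [Nat.add_sub_cancel]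
    push_cast
    rfl
  rw [h11]
  exact le_of_eq (by ring)

/-- Powers of `ρ`. -/
lemma rho_pow_one {ρ τ : ℝ} (hρ : 1 ≤ ρ) (hτ : 1 ≤ τ) :
    ρ ^ (1 / 100 : ℝ) / ρ * τ ^ (-(1 / 12) : ℝ) ≤ (ρ * τ) ^ (-(1 / 32) : ℝ) := by
  have hρ0 : 0 < ρ := by linarith
  have hτ0 : 0 < τ := by linarith
  rw [Real.mul_rpow hρ0.le hτ0.le]
  have h1 : ρ ^ (1 / 100 : ℝ) / ρ ≤ ρ ^ (-(1 / 32) : ℝ) := by
    have : ρ ^ (1 / 100 : ℝ) / ρ = ρ ^ (1 / 100 - 1 : ℝ) := by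
      rw [Real.rpow_sub hρ0, Real.rpow_one]
    rw [this]
    exact Real.rpow_le_rpow_of_exponent_le hρ (by norm_num)
  have h2 : τ ^ (-(1 / 12) : ℝ) ≤ τ ^ (-(1 / 32) : ℝ) :=
    Real.rpow_le_rpow_of_exponent_le hτ (by norm_num)
  exact mul_le_mul h1 h2 (by positivity) (by positivity)

lemma rho_pow_two {ρ τ R : ℝ} (hρ : 1 ≤ ρ) (hτ : 1 ≤ τ) (hρR : ρ ≤ R) :
    ρ ^ (1 / 100 : ℝ) * ((ρ * τ) ^ (-(1 / 24) : ℝ) + 1 / R) ≤ (ρ * τ) ^ (-(1 / 32) : ℝ) + 1 / √R := by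
  have hρ0 : 0 < ρ := by linarith
  have hτ0 : 0 < τ := by linarith
  have hR0 : 0 < R := by linarith
  have hR1 : 1 ≤ R := by linarith
  have hρτ : 1 ≤ ρ * τ := by nlinarith
  have hρτ0 : 0 < ρ * τ := by linarith
  rw [mul_add]
  refine add_le_add ?_ ?_
  · calc ρ ^ (1 / 100 : ℝ) * (ρ * τ) ^ (-(1 / 24) : ℝ)
        ≤ (ρ * τ) ^ (1 / 100 : ℝ) * (ρ * τ) ^ (-(1 / 24) : ℝ) := by
          refine mul_le_mul_of_nonneg_right ?_ (by positivity)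
          exact Real.rpow_le_rpow hρ0.le (le_mul_of_one_le_right hρ0.le hτ) (by norm_num)
      _ = (ρ * τ) ^ (1 / 100 + -(1 / 24) : ℝ) := by rw [Real.rpow_add hρτ0]
      _ ≤ _ := Real.rpow_le_rpow_of_exponent_le hρτ (by norm_num)
  · calc ρ ^ (1 / 100 : ℝ) * (1 / R) ≤ R ^ (1 / 100 : ℝ) * (1 / R) := by
          refine mul_le_mul_of_nonneg_right ?_ (by positivity)
          exact Real.rpow_le_rpow hρ0.le hρR (by norm_num)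
      _ = R ^ (1 / 100 - 1 : ℝ) := by rw [Real.rpow_sub hR0, Real.rpow_one]; ring
      _ ≤ R ^ (-(1 / 2) : ℝ) := Real.rpow_le_rpow_of_exponent_le hR1 (by norm_num)
      _ = 1 / √R := by
          rw [Real.rpow_neg hR0.le, Real.sqrt_eq_rpow]
          exact (one_div _).symm

lemma R500 {κ : ℝ} {X : ℕ} (hP : ParOK κ X) : (mR κ X : ℝ) ^ 500 ≤ √(X : ℝ) := by
  have h1 : ((mR κ X ^ 1000 : ℕ) : ℝ) ≤ X := by exact_mod_cast hP.Rpow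
  rw [Nat.cast_pow] at h1
  refine Real.le_sqrt_of_sq_le ?_
  rw [← pow_mul]
  exact h1

lemma one_le_tauR {n : ℕ} (hn : 1 ≤ n) : 1 ≤ tauR n := by
  unfold tauR
  have : 0 < n.divisors.card := Finset.card_pos.mpr ⟨1, Nat.one_mem_divisors.mpr (by omega)⟩
  exact_mod_cast this

lemma sum_q {ρ Q : ℕ} {S : ℝ} (hQ : 1 ≤ Q)
    (hS : ∑ q ∈ Icc 1 (2 * Q), tauR q ^ 2 * (Nat.gcd q ρ : ℝ) / q ≤ S) :
    ∑ q ∈ Ico Q (2 * Q), tauR q * (Nat.gcd q ρ : ℝ) / q ≤ S := by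
  refine le_trans ?_ hS
  refine le_trans (b := ∑ q ∈ Ico Q (2 * Q), tauR q ^ 2 * (Nat.gcd q ρ : ℝ) / q) ?_ ?_
  · refine Finset.sum_le_sum fun q hq => ?_
    have hq1 : 1 ≤ q := hQ.trans (Finset.mem_Ico.mp hq).1
    have h1 := one_le_tauR hq1
    have hq0 : (0 : ℝ) < q := by exact_mod_cast hq1
    refine div_le_div_of_nonneg_right ?_ hq0.le
    refine mul_le_mul_of_nonneg_right ?_ (Nat.cast_nonneg _)
    nlinarith
  · refine Finset.sum_le_sum_of_subset_of_nonneg ?_ fun q _ _ => by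
      unfold tauR
      positivity
    intro q hq
    have h2 := Finset.mem_Ico.mp hq
    exact Finset.mem_Icc.mpr ⟨by omega, by omega⟩

end ZMidAux

open ZMidAux in
theorem Z_mid {κ : ℝ} (hκ : 0 < κ) (hκ1 : κ ≤ 1 / 1000) (C₀ : ℕ) : ∃ E X₀ : ℕ, ∀ X : ℕ, X₀ ≤ X →
    ∀ Q : ℕ, 1 ≤ Q → (Q : ℝ) ≤ √(X : ℝ) →
    ∀ e : ℕ, 1 ≤ e → (e : ℝ) ≤ Real.log X ^ C₀ → ∀ i : ℕ, i ≤ 1 →
    ∀ (N r Y K : ℕ) (χ : DirichletCharacter ℂ r) (ω : ℕ → ℂ) (y t : ℝ), ZOK κ X N r Y χ ω y t → N ≤ Q * K →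
    ∑ q ∈ Ico Q (2 * Q), ‖ZS (cc e i) (ff χ ω Y) K N (mV κ X) y t q‖ ≤
      X * Real.log X ^ E * (Zsav r N t + 1 / √(mR κ X : ℝ)) := by
  obtain ⟨E₁, X₁, H₁⟩ := mid_typeI hκ hκ1 C₀
  obtain ⟨E₃, X₃, H₃⟩ := mid_typeII hκ hκ1
  obtain ⟨E₂, H₂⟩ := tau_gcd_q
  obtain ⟨C₅, hC₅, H₅⟩ := tau_small 5
  obtain ⟨C₆, hC₆, H₆⟩ := tau_small 3
  obtain ⟨X₄, hX₄⟩ := par_ok hκ hκ1
  obtain ⟨X₅, hX₅⟩ := ZOK.norm_ff_le hκ hκ1
  obtain ⟨X₆, hX₆⟩ := log_large (C₅ + C₆ + 10)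
  refine ⟨E₁ + E₃ + 2 * E₂ + 3, X₁ + X₃ + X₄ + X₅ + X₆ + 3, fun X hX Q hQ hQX e he heC i hi N r Y K χ ω y t hZ hNK => ?_⟩
  have hP := hX₄ X (by omega)
  have hff := hX₅ X (by omega) N r Y χ ω y t hZ
  set R := mR κ X with hR
  set L := Real.log X with hL
  have hLbig : C₅ + C₆ + 10 ≤ L := hX₆ X (by omega)
  have hL10 : 10 ≤ L := by linarith
  have hL1 : 1 ≤ L := by linarith
  have hL0 : 0 < L := by linarith
  have hX0 : (0 : ℝ) < X := by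
    have := hP.X3
    exact_mod_cast (by omega : 0 < X)
  have hX1 : (1 : ℝ) ≤ X := by
    have := hP.X3
    exact_mod_cast (by omega : 1 ≤ X)
  have hR100 : (100 : ℝ) ≤ R := by exact_mod_cast hP.R2
  have hR1 : (1 : ℝ) ≤ R := by linarith
  have hR0 : (0 : ℝ) < R := by linarith
  set ρ := rp r N with hρ
  have hρ1 : 1 ≤ ρ := rp_pos hZ.r1
  have hρR : ρ ≤ R := (rp_le r N).trans hZ.rR
  have hρ1' : (1 : ℝ) ≤ ρ := by exact_mod_cast hρ1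
  have hρR' : (ρ : ℝ) ≤ R := by exact_mod_cast hρR
  have hτ1 : 1 ≤ 1 + |t| := by linarith [abs_nonneg t]
  have hτ0 : 0 < 1 + |t| := by linarith
  -- size of `Q`
  have hsq : √(X : ℝ) * √(X : ℝ) = X := Real.mul_self_sqrt hX0.le
  have hQX' : (Q : ℝ) ≤ X := by
    refine hQX.trans ?_
    rw [Real.sqrt_le_left hX0.le]
    nlinarith
  have hlogQ : 1 + Real.log ((2 * Q : ℕ) : ℝ) ≤ L ^ 2 := by
    have h1 : Real.log ((2 * Q : ℕ) : ℝ) ≤ Real.log 2 + L := by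
      rw [hL, ← Real.log_mul (by norm_num) hX0.ne']
      refine Real.log_le_log (by exact_mod_cast (by omega : 0 < 2 * Q)) ?_
      push_cast
      linarith
    have h2 : Real.log 2 ≤ 1 := by
      have := Real.log_two_lt_d9
      linarith
    nlinarith
  have hsumq : ∑ q ∈ Ico Q (2 * Q), tauR q * (Nat.gcd q ρ : ℝ) / q ≤ tauR ρ ^ 3 * L ^ (2 * E₂) := by
    refine (sum_q hQ (H₂ ρ (2 * Q) hρ1 (by omega))).trans ?_
    have h0 : 0 ≤ tauR ρ := by unfold tauR; positivity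
    refine mul_le_mul_of_nonneg_left ?_ (by positivity)
    rw [pow_mul]
    refine pow_le_pow_left₀ ?_ hlogQ _
    have : 0 ≤ Real.log ((2 * Q : ℕ) : ℝ) := Real.log_natCast_nonneg _
    linarith
  have hτρ1 : 1 ≤ tauR ρ := one_le_tauR hρ1
  have hτρ0 : 0 ≤ tauR ρ := by linarith
  -- pointwise bound
  have hpt : ∀ q ∈ Ico Q (2 * Q), ‖ZS (cc e i) (ff χ ω Y) K N (mV κ X) y t q‖ ≤
      (3 * (R : ℝ) ^ 30) +
      ((X * L ^ E₁ * (tauR ρ ^ 2 / ρ) * (1 + |t|) ^ (-(1 / 12) : ℝ)) * (tauR q * (Nat.gcd q ρ : ℝ) / q) +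
       (X * L ^ E₃ * (((ρ : ℝ) * (1 + |t|)) ^ (-(1 / 24) : ℝ) + 1 / R)) * (tauR q * (Nat.gcd q ρ : ℝ) / q)) := by
    intro q hq
    have hq' := Finset.mem_Ico.mp hq
    have hq1 : 1 ≤ q := hQ.trans hq'.1
    have hq0 : (0 : ℝ) < q := by exact_mod_cast hq1
    have hq2 : (q : ℝ) ≤ 2 * √(X : ℝ) := by
      have : (q : ℝ) ≤ 2 * Q := by exact_mod_cast hq'.2.le
      linarith
    have hNq : N ≤ q * K := hNK.trans (Nat.mul_le_mul_right K hq'.1)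
    have h1 := norm_ZS_lin (cc e i) (fun k => Mdd e (R ^ 4) k * ((Real.log k ^ i : ℝ) : ℂ))
      (fun k => cv (aI e (R ^ 4)) (fun n => zd e n) k * ((Real.log k ^ i : ℝ) : ℂ))
      (fun k => cv (aII e (R ^ 4)) (bII e (R ^ 4)) k * ((Real.log k ^ i : ℝ) : ℂ)) (muC e) (norm_muC_le e)
      (ff χ ω Y) K N (mV κ X) y t q (by
        intro k hk
        unfold cc
        rw [vaughan_d e (R ^ 4) k he hk]
        ring)
    have h2 := ZS_Mdd (K := K) hP hZ hff e i q hi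
    have h3 := H₁ X (by omega) q hq1 hq2 e he heC i hi N r Y K χ ω y t hZ
    have h4 := H₃ X (by omega) q hq1 hq2 e he i hi N r Y K χ ω y t hZ hNq
    have h5 : (R : ℝ) ^ 9 ≤ (R : ℝ) ^ 30 := pow_le_pow_right₀ hR1 (by norm_num)
    refine h1.trans ?_
    have h6 : (X : ℝ) / q * L ^ E₁ * tauR q * (Nat.gcd q ρ : ℝ) * (tauR ρ ^ 2 / (ρ : ℝ)) * (1 + |t|) ^ (-(1 / 12) : ℝ) =
        (X * L ^ E₁ * (tauR ρ ^ 2 / ρ) * (1 + |t|) ^ (-(1 / 12) : ℝ)) * (tauR q * (Nat.gcd q ρ : ℝ) / q) := by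
      ring
    have h7 : (X : ℝ) / q * L ^ E₃ * tauR q * (Nat.gcd q ρ : ℝ) * (((ρ : ℝ) * (1 + |t|)) ^ (-(1 / 24) : ℝ) + 1 / R) =
        (X * L ^ E₃ * (((ρ : ℝ) * (1 + |t|)) ^ (-(1 / 24) : ℝ) + 1 / R)) * (tauR q * (Nat.gcd q ρ : ℝ) / q) := by
      ring
    rw [h6] at h3
    rw [h7] at h4
    linarith
  refine (Finset.sum_le_sum hpt).trans ?_
  have hcard : ((2 * Q - Q : ℕ) : ℝ) = Q := by
    rw [two_mul, Nat.add_sub_cancel]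
  have hS1 : ∑ q ∈ Ico Q (2 * Q), (X * L ^ E₁ * (tauR ρ ^ 2 / ρ) * (1 + |t|) ^ (-(1 / 12) : ℝ)) *
      (tauR q * (Nat.gcd q ρ : ℝ) / q) = (X * L ^ E₁ * (tauR ρ ^ 2 / ρ) * (1 + |t|) ^ (-(1 / 12) : ℝ)) *
      ∑ q ∈ Ico Q (2 * Q), tauR q * (Nat.gcd q ρ : ℝ) / q := (Finset.mul_sum _ _ _).symm
  have hS2 : ∑ q ∈ Ico Q (2 * Q), (X * L ^ E₃ * (((ρ : ℝ) * (1 + |t|)) ^ (-(1 / 24) : ℝ) + 1 / R)) *
      (tauR q * (Nat.gcd q ρ : ℝ) / q) = (X * L ^ E₃ * (((ρ : ℝ) * (1 + |t|)) ^ (-(1 / 24) : ℝ) + 1 / R)) *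
      ∑ q ∈ Ico Q (2 * Q), tauR q * (Nat.gcd q ρ : ℝ) / q := (Finset.mul_sum _ _ _).symm
  rw [Finset.sum_add_distrib, Finset.sum_add_distrib, hS1, hS2, Finset.sum_const,
    Nat.card_Ico, nsmul_eq_mul, hcard]
  have hZs0 : 0 ≤ Zsav r N t := by
    unfold Zsav
    positivity
  have hsR0 : 0 < √(R : ℝ) := Real.sqrt_pos.mpr hR0
  -- first part
  have hA : (Q : ℝ) * (3 * (R : ℝ) ^ 30) ≤ X * (1 / √(R : ℝ)) := by
    have h2 : (R : ℝ) ^ 500 ≤ √(X : ℝ) := R500 hP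
    have h3 : √(R : ℝ) ≤ R := by
      rw [Real.sqrt_le_left hR0.le]
      nlinarith
    have h4 : 3 * (R : ℝ) ^ 30 * √(R : ℝ) ≤ (R : ℝ) ^ 500 := by
      calc 3 * (R : ℝ) ^ 30 * √(R : ℝ) ≤ R * (R : ℝ) ^ 30 * R := by
            refine mul_le_mul (mul_le_mul_of_nonneg_right (by linarith) (by positivity)) h3 hsR0.le (by positivity)
        _ = (R : ℝ) ^ 32 := by ring
        _ ≤ (R : ℝ) ^ 500 := pow_le_pow_right₀ hR1 (by norm_num)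
    rw [mul_one_div, le_div_iff₀ hsR0]
    calc (Q : ℝ) * (3 * (R : ℝ) ^ 30) * √(R : ℝ) = Q * (3 * (R : ℝ) ^ 30 * √(R : ℝ)) := by ring
      _ ≤ √(X : ℝ) * √(X : ℝ) := mul_le_mul hQX (h4.trans h2) (by positivity) (Real.sqrt_nonneg _)
      _ = X := hsq
  have hB : X * L ^ E₁ * (tauR ρ ^ 2 / ρ) * (1 + |t|) ^ (-(1 / 12) : ℝ) *
      ∑ q ∈ Ico Q (2 * Q), tauR q * (Nat.gcd q ρ : ℝ) / q ≤ X * L ^ (E₁ + 2 * E₂ + 1) * Zsav r N t := by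
    calc X * L ^ E₁ * (tauR ρ ^ 2 / ρ) * (1 + |t|) ^ (-(1 / 12) : ℝ) *
          ∑ q ∈ Ico Q (2 * Q), tauR q * (Nat.gcd q ρ : ℝ) / q
        ≤ X * L ^ E₁ * (tauR ρ ^ 2 / ρ) * (1 + |t|) ^ (-(1 / 12) : ℝ) * (tauR ρ ^ 3 * L ^ (2 * E₂)) :=
          mul_le_mul_of_nonneg_left hsumq (by positivity)
      _ = X * L ^ (E₁ + 2 * E₂) * (tauR ρ ^ 5 / ρ * (1 + |t|) ^ (-(1 / 12) : ℝ)) := by
          rw [pow_add]
          ring
      _ ≤ X * L ^ (E₁ + 2 * E₂) * (C₅ * (ρ : ℝ) ^ (1 / 100 : ℝ) / ρ * (1 + |t|) ^ (-(1 / 12) : ℝ)) := by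
          refine mul_le_mul_of_nonneg_left ?_ (by positivity)
          refine mul_le_mul_of_nonneg_right ?_ (by positivity)
          exact div_le_div_of_nonneg_right (H₅ ρ hρ1) (by positivity)
      _ = X * L ^ (E₁ + 2 * E₂) * (C₅ * ((ρ : ℝ) ^ (1 / 100 : ℝ) / ρ * (1 + |t|) ^ (-(1 / 12) : ℝ))) := by ring
      _ ≤ X * L ^ (E₁ + 2 * E₂) * (L * Zsav r N t) := by
          refine mul_le_mul_of_nonneg_left ?_ (by positivity)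
          refine mul_le_mul (by linarith) (rho_pow_one hρ1' hτ1) (by positivity) hL0.le
      _ = _ := by ring
  have hC : X * L ^ E₃ * (((ρ : ℝ) * (1 + |t|)) ^ (-(1 / 24) : ℝ) + 1 / R) *
      ∑ q ∈ Ico Q (2 * Q), tauR q * (Nat.gcd q ρ : ℝ) / q ≤
      X * L ^ (E₃ + 2 * E₂ + 1) * (Zsav r N t + 1 / √(R : ℝ)) := by
    have hpos : 0 ≤ ((ρ : ℝ) * (1 + |t|)) ^ (-(1 / 24) : ℝ) + 1 / R := by positivity
    calc X * L ^ E₃ * (((ρ : ℝ) * (1 + |t|)) ^ (-(1 / 24) : ℝ) + 1 / R) *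
          ∑ q ∈ Ico Q (2 * Q), tauR q * (Nat.gcd q ρ : ℝ) / q
        ≤ X * L ^ E₃ * (((ρ : ℝ) * (1 + |t|)) ^ (-(1 / 24) : ℝ) + 1 / R) * (tauR ρ ^ 3 * L ^ (2 * E₂)) :=
          mul_le_mul_of_nonneg_left hsumq (by positivity)
      _ = X * L ^ (E₃ + 2 * E₂) * (tauR ρ ^ 3 * (((ρ : ℝ) * (1 + |t|)) ^ (-(1 / 24) : ℝ) + 1 / R)) := by
          rw [pow_add]
          ring
      _ ≤ X * L ^ (E₃ + 2 * E₂) * (C₆ * (ρ : ℝ) ^ (1 / 100 : ℝ) * (((ρ : ℝ) * (1 + |t|)) ^ (-(1 / 24) : ℝ) + 1 / R)) := by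
          refine mul_le_mul_of_nonneg_left ?_ (by positivity)
          exact mul_le_mul_of_nonneg_right (H₆ ρ hρ1) hpos
      _ = X * L ^ (E₃ + 2 * E₂) * (C₆ * ((ρ : ℝ) ^ (1 / 100 : ℝ) * (((ρ : ℝ) * (1 + |t|)) ^ (-(1 / 24) : ℝ) + 1 / R))) := by ring
      _ ≤ X * L ^ (E₃ + 2 * E₂) * (L * (Zsav r N t + 1 / √(R : ℝ))) := by
          refine mul_le_mul_of_nonneg_left ?_ (by positivity)
          refine mul_le_mul (by linarith) (rho_pow_two hρ1' hτ1 hρR') (by positivity) hL0.le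
      _ = _ := by ring
  have hG0 : 0 ≤ Zsav r N t + 1 / √(R : ℝ) := by positivity
  have hmono : ∀ a : ℕ, a ≤ E₁ + E₃ + 2 * E₂ + 2 → ∀ G : ℝ, 0 ≤ G → G ≤ Zsav r N t + 1 / √(R : ℝ) →
      X * L ^ a * G ≤ X * L ^ (E₁ + E₃ + 2 * E₂ + 2) * (Zsav r N t + 1 / √(R : ℝ)) := by
    intro a ha G hG hG2
    refine mul_le_mul (mul_le_mul_of_nonneg_left (pow_le_pow_right₀ hL1 ha) hX0.le) hG2 hG (by positivity)
  have hA' : (Q : ℝ) * (3 * (R : ℝ) ^ 30) ≤ X * L ^ (E₁ + E₃ + 2 * E₂ + 2) * (Zsav r N t + 1 / √(R : ℝ)) := by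
    refine hA.trans ?_
    have := hmono 0 (by omega) (1 / √(R : ℝ)) (by positivity) (by linarith)
    simpa using this
  have hB' := hB.trans (hmono (E₁ + 2 * E₂ + 1) (by omega) (Zsav r N t) hZs0 (by
    have : 0 ≤ 1 / √(R : ℝ) := by positivity
    linarith))
  have hC' := hC.trans (hmono (E₃ + 2 * E₂ + 1) (by omega) _ hG0 le_rfl)
  have hfin : X * L ^ (E₁ + E₃ + 2 * E₂ + 3) * (Zsav r N t + 1 / √(R : ℝ)) =
      L * (X * L ^ (E₁ + E₃ + 2 * E₂ + 2) * (Zsav r N t + 1 / √(R : ℝ))) := by ring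
  rw [hfin]
  have hM0 : 0 ≤ X * L ^ (E₁ + E₃ + 2 * E₂ + 2) * (Zsav r N t + 1 / √(R : ℝ)) := by positivity
  nlinarith

end Pool.Agent.MVD
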