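import Pool.Agent.MVD.ZTypeI
import Pool.Agent.SInt.VauD

/-!
# Module ZMidA: small moduli, type I part (one modulus `q ≤ 2√X`)

`L = log X`, `U = R^4`, `ρ = rp r N`. typeI_expand (SInt/VauD): `cv (aI e U) (zd e) k = ∑_{m ≤ U²} ∑_{e' ∣ e, m e' ∣ k} aI(m) μ(e')`; put `k = m e' n`: `∑_{m ≤ U²} ∑_{e' ∣ e} aI(m) μ(e') ∑_{n} (log(m e' n))^i f(N - q m e' n) eit ..`,
the inner sum by Z_typeI with `x = q m e'` (`≤ 2√X R^8 L^{C₀} ≤ X`), `s = m e'`, `K` replaced by `K/(m e')`; `|aI m| ≤ τ(m)` (norm_aI_le). Main terms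
`(X/q) τ(q) L^E (1+|t|)^{-1/12} ∑_{e' ∣ e} ∑_{m ≤ R^8, r ∣ q m e'} τ(m)² τ(e')/(m e')`, only if `(N,r) = 1` (then `ρ = r`). `τ(e') ≤ e' `. `r ∣ q e' m` iff `r'' = r/(r,qe')` divides `m`; `∑_{m ≤ R^8, r'' ∣ m} τ(m)²/m ≤ τ(r'')²/r'' Hs^4 ≤ τ(r)² L^5 (r,q e')/r`
(`m = r'' m'`, tauR_mul_le, sum_tau_pow_div_le), `(r,qe') ≤ (r,q) e' ≤ (r,q) L^{C₀}`; number of `e' ∣ e` at most `e ≤ L^{C₀}`.
Errors: `R^8 · max τ · e · R^20 ≤ R^30`.
-/

open Finset Complex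

namespace Pool.Agent.MVD

open Pool.Agent.ANT Pool.Agent.SInt

namespace ZMidAAux

lemma tau_le_self (n : ℕ) : tauR n ≤ n := by
  unfold tauR
  exact_mod_cast Nat.card_divisors_le_self n

lemma tau_mono_dvd {a b : ℕ} (hb : b ≠ 0) (h : a ∣ b) : tauR a ≤ tauR b := by
  unfold tauR
  exact_mod_cast Finset.card_le_card (Nat.divisors_subset_of_dvd hb h)

lemma reindex {α : Type*} [AddCommMonoid α] {s : ℕ} (hs : 1 ≤ s) (q K V N : ℕ) (G : ℕ → α) :
    ∑ k ∈ (Icc 1 K).filter (fun k => q * k + V ≤ N), (if s ∣ k then G k else 0) =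
      ∑ n ∈ (Icc 1 (K / s)).filter (fun n => q * s * n + V ≤ N), G (s * n) := by
  rw [← Finset.sum_filter]
  symm
  refine Finset.sum_bij' (fun n _ => s * n) (fun k _ => k / s) ?_ ?_ ?_ ?_ ?_
  · intro n hn
    obtain ⟨h1, h2⟩ := Finset.mem_filter.mp hn
    obtain ⟨h3, h4⟩ := Finset.mem_Icc.mp h1
    refine Finset.mem_filter.mpr ⟨Finset.mem_filter.mpr ⟨Finset.mem_Icc.mpr ⟨?_, ?_⟩, ?_⟩,
      dvd_mul_right s n⟩
    · exact Nat.mul_pos hs h3
    · rw [mul_comm]; exact (Nat.le_div_iff_mul_le hs).mp h4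
    · rw [← mul_assoc]; exact h2
  · intro k hk
    obtain ⟨h1, h2⟩ := Finset.mem_filter.mp hk
    obtain ⟨h3, h4⟩ := Finset.mem_filter.mp h1
    obtain ⟨h5, h6⟩ := Finset.mem_Icc.mp h3
    refine Finset.mem_filter.mpr ⟨Finset.mem_Icc.mpr ⟨Nat.div_pos (Nat.le_of_dvd h5 h2) hs,
      Nat.div_le_div_right h6⟩, ?_⟩
    rw [mul_assoc, Nat.mul_div_cancel' h2]
    exact h4
  · intro n _
    exact Nat.mul_div_cancel_left _ hs
  · intro k hk
    exact Nat.mul_div_cancel' (Finset.mem_filter.mp hk).2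
  · intro n _
    rfl

lemma sum_dvd_tau {r : ℕ} (hr : 1 ≤ r) (M : ℕ) :
    ∑ m ∈ Icc 1 M, (if r ∣ m then tauR m ^ 2 / (m : ℝ) else 0) ≤
      tauR r ^ 2 / (r : ℝ) * Hs M ^ 4 := by
  have h0 := reindex (α := ℝ) hr 0 M 0 0 (fun m => tauR m ^ 2 / (m : ℝ))
  have e1 : (Icc 1 M).filter (fun k => 0 * k + 0 ≤ 0) = Icc 1 M :=
    Finset.filter_true_of_mem fun k _ => by simp
  have e2 : (Icc 1 (M / r)).filter (fun n => 0 * r * n + 0 ≤ 0) = Icc 1 (M / r) :=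
    Finset.filter_true_of_mem fun k _ => by simp
  rw [e1, e2] at h0
  rw [h0]
  have hrR : (0 : ℝ) < r := by exact_mod_cast hr
  have e3 : Icc 1 (M / r) = Ioc 0 (M / r) := by
    ext x
    simp only [Finset.mem_Icc, Finset.mem_Ioc]
    omega
  have h1 : ∑ n ∈ Icc 1 (M / r), tauR (r * n) ^ 2 / ((r * n : ℕ) : ℝ) ≤
      ∑ n ∈ Ioc 0 (M / r), tauR r ^ 2 / (r : ℝ) * (tauR n ^ 2 / (n : ℝ)) := by
    rw [e3]
    refine Finset.sum_le_sum fun n hn => ?_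
    have hn0 : (0 : ℝ) < n := by exact_mod_cast (Finset.mem_Ioc.mp hn).1
    have h2 := tauR_mul_le r n
    have h3 := tauR_nonneg (r * n)
    have h4 : tauR (r * n) ^ 2 ≤ (tauR r * tauR n) ^ 2 := by gcongr
    have h5 : tauR r ^ 2 / (r : ℝ) * (tauR n ^ 2 / (n : ℝ)) =
        (tauR r * tauR n) ^ 2 / ((r : ℝ) * n) := by
      field_simp
    rw [h5]
    push_cast
    gcongr
  refine h1.trans ?_
  rw [← Finset.mul_sum]
  have h6 := sum_tau_sq_div_le (M / r)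
  have h7 : Hs (M / r) ≤ Hs M := Hs_mono (Nat.div_le_self _ _)
  have h8 := Hs_nonneg (M / r)
  have h9 : Hs (M / r) ^ 4 ≤ Hs M ^ 4 := by gcongr
  have h10 : 0 ≤ tauR r ^ 2 / (r : ℝ) := by positivity
  exact mul_le_mul_of_nonneg_left (h6.trans h9) h10

/-- the divisibility `r ∣ q (m e)` gives `r / (r, q e) ∣ m` -/
lemma dvd_red {r q m e : ℕ} (hr : 1 ≤ r) (h : r ∣ q * (m * e)) : r / Nat.gcd r (q * e) ∣ m := by
  have hg : 0 < Nat.gcd r (q * e) := Nat.gcd_pos_of_pos_left _ hr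
  have hc : Nat.Coprime (r / Nat.gcd r (q * e)) ((q * e) / Nat.gcd r (q * e)) :=
    Nat.coprime_div_gcd_div_gcd hg
  refine hc.dvd_of_dvd_mul_left ?_
  have h1 : r ∣ (q * e) * m := by
    have : q * (m * e) = (q * e) * m := by ring
    rwa [this] at h
  obtain ⟨c, hc2⟩ := h1
  refine ⟨c, ?_⟩
  have hr1 : Nat.gcd r (q * e) * (r / Nat.gcd r (q * e)) = r :=
    Nat.mul_div_cancel' (Nat.gcd_dvd_left _ _)
  have hq1 : Nat.gcd r (q * e) * ((q * e) / Nat.gcd r (q * e)) = q * e :=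
    Nat.mul_div_cancel' (Nat.gcd_dvd_right _ _)
  apply Nat.eq_of_mul_eq_mul_left hg
  rw [← mul_assoc, hq1, ← mul_assoc, hr1]
  exact hc2

/-- the main term for one `e'` -/
lemma main_one {r q e : ℕ} (hr : 1 ≤ r) (hq : 1 ≤ q) (he : 1 ≤ e) (M : ℕ) {X : ℝ} (hX : 0 ≤ X) :
    ∑ m ∈ Icc 1 M, tauR m * ((if r ∣ q * (m * e) then 1 else 0) * tauR (q * (m * e)) *
        (X / ((q * (m * e) : ℕ) : ℝ))) ≤
      X / q * tauR q * (Nat.gcd q r : ℝ) * (tauR r ^ 2 / (r : ℝ)) * Hs M ^ 4 * tauR e := by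
  set r' := r / Nat.gcd r (q * e) with hr'
  have hg : 0 < Nat.gcd r (q * e) := Nat.gcd_pos_of_pos_left _ hr
  have hr'1 : 1 ≤ r' := Nat.div_pos (Nat.le_of_dvd hr (Nat.gcd_dvd_left _ _)) hg
  have hrR : (0 : ℝ) < r := by exact_mod_cast hr
  have hqR : (0 : ℝ) < q := by exact_mod_cast hq
  have heR : (0 : ℝ) < e := by exact_mod_cast he
  have hr'R : (0 : ℝ) < r' := by exact_mod_cast hr'1
  have htq := tauR_nonneg q
  have hte := tauR_nonneg e
  have h1 : ∀ m ∈ Icc 1 M, tauR m * ((if r ∣ q * (m * e) then 1 else 0) * tauR (q * (m * e)) *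
        (X / ((q * (m * e) : ℕ) : ℝ))) ≤
      (X / (q * e) * tauR q * tauR e) * (if r' ∣ m then tauR m ^ 2 / (m : ℝ) else 0) := by
    intro m hm
    have hm0 : (0 : ℝ) < m := by exact_mod_cast (Finset.mem_Icc.mp hm).1
    have htm := tauR_nonneg m
    by_cases hd : r ∣ q * (m * e)
    · have hd' : r' ∣ m := dvd_red hr hd
      rw [if_pos hd, if_pos hd']
      have h2 : tauR (q * (m * e)) ≤ tauR q * (tauR m * tauR e) :=
        (tauR_mul_le _ _).trans (mul_le_mul_of_nonneg_left (tauR_mul_le _ _) htq)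
      have h3 : X / ((q * (m * e) : ℕ) : ℝ) = X / (q * e) / m := by
        push_cast
        field_simp
      rw [h3, one_mul]
      have h4 : 0 ≤ X / (q * e) / (m : ℝ) := by positivity
      calc tauR m * (tauR (q * (m * e)) * (X / (q * e) / m))
          ≤ tauR m * ((tauR q * (tauR m * tauR e)) * (X / (q * e) / m)) := by gcongr
        _ = _ := by ring
    · rw [if_neg hd]
      have h5 : 0 ≤ (X / (q * e) * tauR q * tauR e) *
          (if r' ∣ m then tauR m ^ 2 / (m : ℝ) else 0) := by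
        apply mul_nonneg (by positivity)
        split_ifs
        · positivity
        · exact le_rfl
      simpa using h5
  refine (Finset.sum_le_sum h1).trans ?_
  rw [← Finset.mul_sum]
  have h6 := sum_dvd_tau hr'1 M
  have h7 : tauR r' ≤ tauR r := tau_mono_dvd (by omega) (Nat.div_dvd_of_dvd (Nat.gcd_dvd_left _ _))
  have h8 : 1 / (r' : ℝ) ≤ (Nat.gcd q r : ℝ) * e / r := by
    have h9 : (r' : ℝ) * Nat.gcd r (q * e) = r := by
      have : r' * Nat.gcd r (q * e) = r := Nat.div_mul_cancel (Nat.gcd_dvd_left _ _)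
      exact_mod_cast this
    have h10 : (Nat.gcd r (q * e) : ℝ) ≤ (Nat.gcd q r : ℝ) * e := by
      have h11 : Nat.gcd r (q * e) ≤ Nat.gcd r q * Nat.gcd r e :=
        Nat.le_of_dvd (Nat.mul_pos (Nat.gcd_pos_of_pos_left _ hr) (Nat.gcd_pos_of_pos_left _ hr))
          (Nat.gcd_mul_right_dvd_mul_gcd r q e)
      have h12 : Nat.gcd r e ≤ e := Nat.le_of_dvd he (Nat.gcd_dvd_right _ _)
      have h13 : Nat.gcd r (q * e) ≤ Nat.gcd q r * e := by
        rw [Nat.gcd_comm q r]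
        exact h11.trans (Nat.mul_le_mul_left _ h12)
      exact_mod_cast h13
    rw [div_le_div_iff₀ hr'R hrR]
    have h14 := mul_le_mul_of_nonneg_left h10 hr'R.le
    rw [h9] at h14
    linarith
  have hH := Hs_nonneg M
  have ht' := tauR_nonneg r'
  have htr := tauR_nonneg r
  have h15 : tauR r' ^ 2 / (r' : ℝ) ≤ tauR r ^ 2 * ((Nat.gcd q r : ℝ) * e / r) := by
    rw [div_eq_mul_one_div]
    gcongr
  calc (X / (q * e) * tauR q * tauR e) *
        ∑ m ∈ Icc 1 M, (if r' ∣ m then tauR m ^ 2 / (m : ℝ) else 0)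
      ≤ (X / (q * e) * tauR q * tauR e) * ((tauR r ^ 2 * ((Nat.gcd q r : ℝ) * e / r)) * Hs M ^ 4) := by
        have : 0 ≤ X / (q * e) * tauR q * tauR e := by positivity
        refine mul_le_mul_of_nonneg_left (h6.trans ?_) this
        gcongr
    _ = _ := by
        field_simp

end ZMidAAux

open ZMidAAux

theorem mid_typeI {κ : ℝ} (hκ : 0 < κ) (hκ1 : κ ≤ 1 / 1000) (C₀ : ℕ) : ∃ E X₀ : ℕ, ∀ X : ℕ, X₀ ≤ X →
    ∀ q : ℕ, 1 ≤ q → (q : ℝ) ≤ 2 * √(X : ℝ) → ∀ e : ℕ, 1 ≤ e → (e : ℝ) ≤ Real.log X ^ C₀ → ∀ i : ℕ, i ≤ 1 →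
    ∀ (N r Y K : ℕ) (χ : DirichletCharacter ℂ r) (ω : ℕ → ℂ) (y t : ℝ), ZOK κ X N r Y χ ω y t →
    ‖ZS (fun k => cv (aI e (mR κ X ^ 4)) (fun n => zd e n) k * ((Real.log k ^ i : ℝ) : ℂ)) (ff χ ω Y) K N
        (mV κ X) y t q‖ ≤
      (X : ℝ) / q * Real.log X ^ E * tauR q * (Nat.gcd q (rp r N) : ℝ) * (tauR (rp r N) ^ 2 / (rp r N : ℝ)) *
        (1 + |t|) ^ (-(1 / 12) : ℝ) + (mR κ X : ℝ) ^ 30 := by
  obtain ⟨E1, X1, hI⟩ := Z_typeI hκ hκ1
  obtain ⟨X2, hP⟩ := par_ok hκ hκ1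
  obtain ⟨X3, hL⟩ := log_le_R hκ hκ1 3 (C₀ + 1) (show (0 : ℝ) < 1 by norm_num)
  refine ⟨E1 + 5 + 2 * C₀, max (max X1 X2) (max X3 ⌈Real.exp 81⌉₊), ?_⟩
  intro X hX q hq1 hq2 e he1 he2 i hi N r Y K χ ω y t hz
  have hX1 : X1 ≤ X := le_trans (le_trans (le_max_left _ _) (le_max_left _ _)) hX
  have hX2 : X2 ≤ X := le_trans (le_trans (le_max_right _ _) (le_max_left _ _)) hX
  have hX3 : X3 ≤ X := le_trans (le_trans (le_max_left _ _) (le_max_right _ _)) hX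
  have hX4 : ⌈Real.exp 81⌉₊ ≤ X := le_trans (le_trans (le_max_right _ _) (le_max_right _ _)) hX
  have hp := hP X hX2
  have hLR := hL X hX3
  rw [Real.rpow_one] at hLR
  obtain ⟨L, hLdef⟩ : ∃ L : ℝ, L = Real.log X := ⟨_, rfl⟩
  have hL81 : 81 ≤ L := by
    have h1 : Real.exp 81 ≤ X := (Nat.le_ceil _).trans (by exact_mod_cast hX4)
    rw [hLdef]
    have := Real.log_le_log (Real.exp_pos _) h1
    rwa [Real.log_exp] at this
  rw [← hLdef] at hLR he2 ⊢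
  have hL1 : 1 ≤ L := by linarith
  have hL0 : 0 < L := by linarith
  obtain ⟨R, hRdef⟩ : ∃ R : ℕ, R = mR κ X := ⟨_, rfl⟩
  have hXpos : 0 < X := lt_of_lt_of_le (by norm_num) hp.X3
  have hXR : (0 : ℝ) < X := by exact_mod_cast hXpos
  have hR2 : 2 ≤ R := by
    rw [hRdef]
    exact le_trans (by norm_num) hp.R2
  have hRpow : R ^ 1000 ≤ X := hRdef ▸ hp.Rpow
  rw [← hRdef] at hLR ⊢
  have hR1 : (1 : ℝ) ≤ R := by exact_mod_cast (by omega : 1 ≤ R)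
  have hrz : 1 ≤ r := hz.r1
  -- size of `q m e'`
  have hsize : ∀ m ∈ Icc 1 (R ^ 4 * R ^ 4), ∀ e' ∈ e.divisors, q * (m * e') ≤ X := by
    intro m hm e' he'
    have h1 : (m : ℝ) ≤ (R : ℝ) ^ 8 := by
      have : m ≤ R ^ 8 := by
        have h2 := (Finset.mem_Icc.mp hm).2
        calc m ≤ R ^ 4 * R ^ 4 := h2
          _ = R ^ 8 := by ring
      exact_mod_cast this
    have h3 : (e' : ℝ) ≤ L ^ C₀ := by
      have : e' ≤ e := Nat.divisor_le he'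
      exact le_trans (by exact_mod_cast this) he2
    have h4 : 2 * L ^ C₀ ≤ R := by
      have h5 : L ^ C₀ ≤ L ^ (C₀ + 1) := pow_le_pow_right₀ hL1 (Nat.le_succ _)
      have h6 : 0 ≤ L ^ (C₀ + 1) := by positivity
      linarith
    have h7 : (R : ℝ) ^ 9 ≤ √(X : ℝ) := by
      apply Real.le_sqrt_of_sq_le
      have h8 : (R : ℝ) ^ 1000 ≤ X := by exact_mod_cast hRpow
      calc ((R : ℝ) ^ 9) ^ 2 = (R : ℝ) ^ 18 := by rw [← pow_mul]
        _ ≤ (R : ℝ) ^ 1000 := pow_le_pow_right₀ hR1 (by norm_num)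
        _ ≤ X := h8
    have h9 : ((q * (m * e') : ℕ) : ℝ) ≤ X := by
      push_cast
      have hs0 : 0 ≤ √(X : ℝ) := Real.sqrt_nonneg _
      calc (q : ℝ) * ((m : ℝ) * e') ≤ (2 * √(X : ℝ)) * ((R : ℝ) ^ 8 * L ^ C₀) := by gcongr
        _ = √(X : ℝ) * ((R : ℝ) ^ 8 * (2 * L ^ C₀)) := by ring
        _ ≤ √(X : ℝ) * ((R : ℝ) ^ 8 * R) := by gcongr
        _ = √(X : ℝ) * (R : ℝ) ^ 9 := by ring
        _ ≤ √(X : ℝ) * √(X : ℝ) := by gcongr
        _ = X := Real.mul_self_sqrt hXR.le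
    exact_mod_cast h9
  -- expansion
  have hexp : ZS (fun k => cv (aI e (R ^ 4)) (fun n => zd e n) k * ((Real.log k ^ i : ℝ) : ℂ))
      (ff χ ω Y) K N (mV κ X) y t q =
      ∑ m ∈ Icc 1 (R ^ 4 * R ^ 4), ∑ e' ∈ e.divisors, aI e (R ^ 4) m * muC e' *
        ∑ n ∈ (Icc 1 (K / (m * e'))).filter (fun n => q * (m * e') * n + mV κ X ≤ N),
        ((Real.log (((m * e') * n : ℕ) : ℝ) ^ i : ℝ) : ℂ) *
          ff χ ω Y ((N : ℤ) - ((q * (m * e') : ℕ) : ℤ) * n) *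
          eit t (y - ((q * (m * e') : ℕ) : ℝ) * n) := by
    unfold ZS
    have h1 : ∀ k ∈ (Icc 1 K).filter (fun k => q * k + mV κ X ≤ N),
        cv (aI e (R ^ 4)) (fun n => zd e n) k * ((Real.log k ^ i : ℝ) : ℂ) *
          ff χ ω Y ((N : ℤ) - q * k) * eit t (y - q * k) =
        ∑ m ∈ Icc 1 (R ^ 4 * R ^ 4), ∑ e' ∈ e.divisors, aI e (R ^ 4) m * muC e' *
          (if m * e' ∣ k then ((Real.log k ^ i : ℝ) : ℂ) * ff χ ω Y ((N : ℤ) - q * k) *
            eit t (y - q * k) else 0) := by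
      intro k hk
      have hk1 : 1 ≤ k := (Finset.mem_Icc.mp (Finset.mem_filter.mp hk).1).1
      have h2 := typeI_expand e (R ^ 4) k he1 hk1
      have h3 : cv (aI e (R ^ 4)) (fun n => zd e n) k = cv (aI e (R ^ 4)) (zd e) k := rfl
      rw [h3, h2, Finset.sum_mul, Finset.sum_mul, Finset.sum_mul]
      refine Finset.sum_congr rfl fun m _ => ?_
      rw [Finset.sum_mul, Finset.sum_mul, Finset.sum_mul]
      refine Finset.sum_congr rfl fun e' _ => ?_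
      split_ifs <;> ring
    rw [Finset.sum_congr rfl h1, Finset.sum_comm]
    refine Finset.sum_congr rfl fun m hm => ?_
    rw [Finset.sum_comm]
    refine Finset.sum_congr rfl fun e' he' => ?_
    rw [← Finset.mul_sum]
    congr 1
    have hs : 1 ≤ m * e' := Nat.mul_pos (Finset.mem_Icc.mp hm).1 (Nat.pos_of_mem_divisors he')
    rw [reindex hs q K (mV κ X) N (fun k => ((Real.log k ^ i : ℝ) : ℂ) *
      ff χ ω Y ((N : ℤ) - q * k) * eit t (y - q * k))]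
    refine Finset.sum_congr rfl fun n _ => ?_
    have a1 : (N : ℤ) - (q : ℤ) * ((m * e' * n : ℕ) : ℤ) =
        (N : ℤ) - ((q * (m * e') : ℕ) : ℤ) * n := by push_cast; ring
    have a2 : y - (q : ℝ) * ((m * e' * n : ℕ) : ℝ) = y - ((q * (m * e') : ℕ) : ℝ) * n := by
      push_cast; ring
    show ((Real.log (((m * e') * n : ℕ) : ℝ) ^ i : ℝ) : ℂ) *
      ff χ ω Y ((N : ℤ) - (q : ℤ) * ((m * e' * n : ℕ) : ℤ)) *
        eit t (y - (q : ℝ) * ((m * e' * n : ℕ) : ℝ)) = _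
    rw [a1, a2]
  rw [hexp]
  obtain ⟨T, hT⟩ : ∃ T : ℝ, T = (1 + |t|) ^ (-(1 / 12) : ℝ) := ⟨_, rfl⟩
  have hT0 : 0 ≤ T := by
    rw [hT]
    exact Real.rpow_nonneg (by positivity) _
  rw [← hT]
  have hbound : ∀ m ∈ Icc 1 (R ^ 4 * R ^ 4), ∀ e' ∈ e.divisors,
      ‖aI e (R ^ 4) m * muC e' *
        ∑ n ∈ (Icc 1 (K / (m * e'))).filter (fun n => q * (m * e') * n + mV κ X ≤ N),
        ((Real.log (((m * e') * n : ℕ) : ℝ) ^ i : ℝ) : ℂ) *
          ff χ ω Y ((N : ℤ) - ((q * (m * e') : ℕ) : ℤ) * n) *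
          eit t (y - ((q * (m * e') : ℕ) : ℝ) * n)‖ ≤
      tauR m * ((if r ∣ q * (m * e') ∧ Nat.gcd N r = 1 then 1 else 0) * tauR (q * (m * e')) *
        ((X : ℝ) / ((q * (m * e') : ℕ) : ℝ)) * L ^ E1 * T + (R : ℝ) ^ 20) := by
    intro m hm e' he'
    have hm1 := (Finset.mem_Icc.mp hm).1
    have he'1 := Nat.pos_of_mem_divisors he'
    have hs1 : 1 ≤ m * e' := Nat.mul_pos hm1 he'1
    have hx1 : 1 ≤ q * (m * e') := Nat.mul_pos hq1 hs1
    have hx2 := hsize m hm e' he'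
    have hs2 : m * e' ≤ X := le_trans (Nat.le_mul_of_pos_left _ hq1) hx2
    have h1 := hI X hX1 N r Y χ ω y t hz (q * (m * e')) (m * e') i (K / (m * e')) hx1 hx2 hs1 hs2 hi
    rw [← hLdef, ← hRdef, ← hT] at h1
    rw [norm_mul, norm_mul]
    have h2 := norm_aI_le e (R ^ 4) m
    have h3 := norm_muC_le e'
    have h4 := tauR_nonneg m
    calc _ ≤ tauR m * 1 * ((if r ∣ q * (m * e') ∧ Nat.gcd N r = 1 then 1 else 0) *
          tauR (q * (m * e')) * ((X : ℝ) / ((q * (m * e') : ℕ) : ℝ)) * L ^ E1 * T +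
            (R : ℝ) ^ 20) := by
          gcongr
      _ = _ := by ring
  have hnorm : ‖∑ m ∈ Icc 1 (R ^ 4 * R ^ 4), ∑ e' ∈ e.divisors, aI e (R ^ 4) m * muC e' *
        ∑ n ∈ (Icc 1 (K / (m * e'))).filter (fun n => q * (m * e') * n + mV κ X ≤ N),
        ((Real.log (((m * e') * n : ℕ) : ℝ) ^ i : ℝ) : ℂ) *
          ff χ ω Y ((N : ℤ) - ((q * (m * e') : ℕ) : ℤ) * n) *
          eit t (y - ((q * (m * e') : ℕ) : ℝ) * n)‖ ≤
      (∑ m ∈ Icc 1 (R ^ 4 * R ^ 4), ∑ e' ∈ e.divisors,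
        tauR m * ((if r ∣ q * (m * e') ∧ Nat.gcd N r = 1 then 1 else 0) * tauR (q * (m * e')) *
        ((X : ℝ) / ((q * (m * e') : ℕ) : ℝ)))) * (L ^ E1 * T) +
      ∑ m ∈ Icc 1 (R ^ 4 * R ^ 4), ∑ e' ∈ e.divisors, tauR m * (R : ℝ) ^ 20 := by
    refine (norm_sum_le _ _).trans ?_
    rw [Finset.sum_mul, ← Finset.sum_add_distrib]
    refine Finset.sum_le_sum fun m hm => ?_
    refine (norm_sum_le _ _).trans ?_
    rw [Finset.sum_mul, ← Finset.sum_add_distrib]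
    refine Finset.sum_le_sum fun e' he' => ?_
    refine (hbound m hm e' he').trans (le_of_eq ?_)
    ring
  refine hnorm.trans ?_
  have hcard : (e.divisors.card : ℝ) ≤ L ^ C₀ :=
    (by exact_mod_cast Nat.card_divisors_le_self e : (e.divisors.card : ℝ) ≤ e).trans he2
  have hHs : Hs (R ^ 4 * R ^ 4) ≤ 3 * L := by
    rw [hLdef]
    refine Hs_le_log (by have := hp.X3; omega) ?_
    have h1 : R ^ 4 * R ^ 4 = R ^ 8 := by ring
    rw [h1]
    have h2 : R ^ 8 ≤ R ^ 1000 := Nat.pow_le_pow_right (by omega) (by norm_num)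
    have h3 : X ≤ X ^ 2 := Nat.le_self_pow (by norm_num) X
    exact (h2.trans hRpow).trans h3
  have hHs0 := Hs_nonneg (R ^ 4 * R ^ 4)
  apply add_le_add
  · -- main term
    have hrhs : 0 ≤ (X : ℝ) / q * L ^ (E1 + 5 + 2 * C₀) * tauR q * (Nat.gcd q (rp r N) : ℝ) *
        (tauR (rp r N) ^ 2 / (rp r N : ℝ)) * T := by
      have := tauR_nonneg q
      positivity
    by_cases hg : Nat.gcd N r = 1
    · have hrp : rp r N = r := by
        unfold rp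
        rw [hg, Nat.div_one]
      rw [hrp]
      have h1 : ∑ m ∈ Icc 1 (R ^ 4 * R ^ 4), ∑ e' ∈ e.divisors,
          tauR m * ((if r ∣ q * (m * e') ∧ Nat.gcd N r = 1 then 1 else 0) * tauR (q * (m * e')) *
          ((X : ℝ) / ((q * (m * e') : ℕ) : ℝ))) ≤
          ∑ e' ∈ e.divisors, (X : ℝ) / q * tauR q * (Nat.gcd q r : ℝ) * (tauR r ^ 2 / (r : ℝ)) *
            Hs (R ^ 4 * R ^ 4) ^ 4 * tauR e' := by
        rw [Finset.sum_comm]
        refine Finset.sum_le_sum fun e' he' => ?_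
        refine le_trans (le_of_eq ?_) (main_one hrz hq1 (Nat.pos_of_mem_divisors he')
          (R ^ 4 * R ^ 4) hXR.le)
        refine Finset.sum_congr rfl fun m _ => ?_
        simp only [hg, and_true]
      have h2 : ∑ e' ∈ e.divisors, tauR e' ≤ L ^ C₀ * L ^ C₀ := by
        calc ∑ e' ∈ e.divisors, tauR e' ≤ ∑ _e' ∈ e.divisors, L ^ C₀ := by
              refine Finset.sum_le_sum fun e' he' => (tau_le_self e').trans ?_
              exact le_trans (by exact_mod_cast Nat.divisor_le he') he2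
          _ = e.divisors.card * L ^ C₀ := by rw [Finset.sum_const, nsmul_eq_mul]
          _ ≤ L ^ C₀ * L ^ C₀ := by gcongr
      have h3 : Hs (R ^ 4 * R ^ 4) ^ 4 ≤ L ^ 5 := by
        calc Hs (R ^ 4 * R ^ 4) ^ 4 ≤ (3 * L) ^ 4 := by gcongr
          _ = 81 * L ^ 4 := by ring
          _ ≤ L * L ^ 4 := by gcongr
          _ = L ^ 5 := by ring
      have htq := tauR_nonneg q
      rw [← Finset.mul_sum] at h1
      have hA : 0 ≤ (X : ℝ) / q * tauR q * (Nat.gcd q r : ℝ) * (tauR r ^ 2 / (r : ℝ)) := by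
        positivity
      have hB : 0 ≤ ∑ e' ∈ e.divisors, tauR e' := Finset.sum_nonneg fun _ _ => tauR_nonneg _
      calc _ ≤ ((X : ℝ) / q * tauR q * (Nat.gcd q r : ℝ) * (tauR r ^ 2 / (r : ℝ)) *
            Hs (R ^ 4 * R ^ 4) ^ 4 * ∑ e' ∈ e.divisors, tauR e') * (L ^ E1 * T) := by gcongr
        _ ≤ ((X : ℝ) / q * tauR q * (Nat.gcd q r : ℝ) * (tauR r ^ 2 / (r : ℝ)) *
            L ^ 5 * (L ^ C₀ * L ^ C₀)) * (L ^ E1 * T) := by gcongr
        _ = _ := by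
            rw [pow_add, pow_add, two_mul, pow_add]
            ring
    · refine le_trans (le_of_eq ?_) hrhs
      have h1 : ∀ m ∈ Icc 1 (R ^ 4 * R ^ 4), ∑ e' ∈ e.divisors,
          tauR m * ((if r ∣ q * (m * e') ∧ Nat.gcd N r = 1 then 1 else 0) * tauR (q * (m * e')) *
          ((X : ℝ) / ((q * (m * e') : ℕ) : ℝ))) = 0 := by
        intro m _
        refine Finset.sum_eq_zero fun e' _ => ?_
        rw [if_neg (fun h => hg h.2)]
        ring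
      rw [Finset.sum_eq_zero h1, zero_mul]
  · -- error term
    have h1 : ∑ m ∈ Icc 1 (R ^ 4 * R ^ 4), ∑ e' ∈ e.divisors, tauR m * (R : ℝ) ^ 20 =
        (e.divisors.card : ℝ) * (R : ℝ) ^ 20 * ∑ m ∈ Icc 1 (R ^ 4 * R ^ 4), tauR m := by
      rw [Finset.mul_sum]
      refine Finset.sum_congr rfl fun m _ => ?_
      rw [Finset.sum_const, nsmul_eq_mul]
      ring
    have e3 : Icc 1 (R ^ 4 * R ^ 4) = Ioc 0 (R ^ 4 * R ^ 4) := by
      ext x
      simp only [Finset.mem_Icc, Finset.mem_Ioc]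
      omega
    rw [h1, e3]
    have h2 := sum_tau_le (R ^ 4 * R ^ 4)
    have h3 : ((R ^ 4 * R ^ 4 : ℕ) : ℝ) = (R : ℝ) ^ 8 := by
      push_cast
      ring
    rw [h3] at h2
    have h4 : L ^ C₀ * (3 * L) ≤ R := by
      calc L ^ C₀ * (3 * L) = 3 * L ^ (C₀ + 1) := by ring
        _ ≤ R := hLR
    calc (e.divisors.card : ℝ) * (R : ℝ) ^ 20 * ∑ m ∈ Ioc 0 (R ^ 4 * R ^ 4), tauR m
        ≤ L ^ C₀ * (R : ℝ) ^ 20 * ((R : ℝ) ^ 8 * (3 * L)) := by
          have h5 : ∑ m ∈ Ioc 0 (R ^ 4 * R ^ 4), tauR m ≤ (R : ℝ) ^ 8 * (3 * L) :=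
            h2.trans (by gcongr)
          have h6 : 0 ≤ ∑ m ∈ Ioc 0 (R ^ 4 * R ^ 4), tauR m :=
            Finset.sum_nonneg fun _ _ => tauR_nonneg _
          have h7 : (e.divisors.card : ℝ) * (R : ℝ) ^ 20 ≤ L ^ C₀ * (R : ℝ) ^ 20 :=
            mul_le_mul_of_nonneg_right hcard (by positivity)
          exact mul_le_mul h7 h5 h6 (by positivity)
      _ = (R : ℝ) ^ 28 * (L ^ C₀ * (3 * L)) := by ring
      _ ≤ (R : ℝ) ^ 28 * R := by gcongr
      _ = (R : ℝ) ^ 29 := by ring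
      _ ≤ (R : ℝ) ^ 30 := pow_le_pow_right₀ hR1 (by norm_num)

end Pool.Agent.MVD
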