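import Pool.Agent.MVD.ZBig
import Pool.Agent.MVD.ZMid

/-!
# Module ZOneA: the estimate with a saving in `ρ(1+|t|)`, all moduli

`Q ≤ √X`: Z_mid; `Q ≥ √X`: Z_big with `c = cc e i` (norm_cc_le in SInt/Asy: `≤ 1 + log k ≤ 2 log X` for `1 ≤ k ≤ 2X`, `X` large). Take the maximum of the two exponents (`log X ≥ 1`); `1/R ≤ 1/√R`.
-/

open Finset Complex

namespace Pool.Agent.MVD

open Pool.Agent.ANT Pool.Agent.SInt

theorem Z_one {κ ε : ℝ} (hκ : 0 < κ) (hκ1 : κ ≤ 1 / 1000) (hε : 20 * κ ≤ ε) (C₀ : ℕ) : ∃ E X₀ : ℕ, ∀ X : ℕ, X₀ ≤ X →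
    ∀ Q : ℕ, 1 ≤ Q → (Q : ℝ) ≤ (X : ℝ) ^ (1 - ε) →
    ∀ e : ℕ, 1 ≤ e → (e : ℝ) ≤ Real.log X ^ C₀ → ∀ i : ℕ, i ≤ 1 →
    ∀ (N r Y K : ℕ) (χ : DirichletCharacter ℂ r) (ω : ℕ → ℂ) (y t : ℝ), ZOK κ X N r Y χ ω y t → N ≤ Q * K →
    ∑ q ∈ Ico Q (2 * Q), ‖ZS (cc e i) (ff χ ω Y) K N (mV κ X) y t q‖ ≤
      X * Real.log X ^ E * (Zsav r N t + 1 / √(mR κ X : ℝ)) := by
  obtain ⟨E₁, X₁, h₁⟩ := Z_mid hκ hκ1 C₀
  obtain ⟨E₂, X₂, h₂⟩ := Z_big hκ hκ1 hε
  refine ⟨max E₁ E₂, max 8 (max X₁ X₂), ?_⟩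
  intro X hX Q hQ1 hQ e he1 he i hi N r Y K χ ω y t hz hN
  have hX8 : 8 ≤ X := (le_max_left _ _).trans hX
  have hX1 : X₁ ≤ X := (le_max_left _ _).trans ((le_max_right _ _).trans hX)
  have hX2 : X₂ ≤ X := (le_max_right _ _).trans ((le_max_right _ _).trans hX)
  have hX8R : (8 : ℝ) ≤ X := by exact_mod_cast hX8
  have hlog8 : 1 + Real.log 2 ≤ Real.log X := by
    have h1 : Real.log 8 ≤ Real.log X := Real.log_le_log (by norm_num) hX8R
    have h2 : Real.log 8 = 3 * Real.log 2 := by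
      rw [show (8 : ℝ) = 2 ^ 3 by norm_num, Real.log_pow]
      norm_num
    have h3 := Real.log_two_gt_d9
    linarith
  have hL1 : 1 ≤ Real.log X := by
    have h3 := Real.log_two_gt_d9
    linarith
  have hZ0 : 0 ≤ Zsav r N t := by
    unfold Zsav
    have : 0 ≤ |t| := abs_nonneg t
    positivity
  have hR0 : 0 ≤ 1 / √(mR κ X : ℝ) := by positivity
  have hpow : ∀ F : ℕ, F ≤ max E₁ E₂ → Real.log X ^ F ≤ Real.log X ^ (max E₁ E₂) := fun F hF =>
    pow_le_pow_right₀ hL1 hF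
  rcases le_total (Q : ℝ) (√(X : ℝ)) with hc | hc
  · refine (h₁ X hX1 Q hQ1 hc e he1 he i hi N r Y K χ ω y t hz hN).trans ?_
    apply mul_le_mul_of_nonneg_right _ (by positivity)
    exact mul_le_mul_of_nonneg_left (hpow _ (le_max_left _ _)) (by positivity)
  · have hcc : ∀ k : ℕ, 1 ≤ k → k ≤ 2 * X → ‖cc e i k‖ ≤ 2 * Real.log X := by
      intro k hk1 hk2
      refine (norm_cc_le hi).trans ?_
      have h3 : Real.log k ≤ Real.log (2 * X) := by
        apply Real.log_le_log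
        · exact_mod_cast hk1
        · exact_mod_cast hk2
      rw [Real.log_mul (by norm_num) (by linarith)] at h3
      linarith
    refine (h₂ X hX2 Q hc hQ (cc e i) hcc N r Y K χ ω y t hz).trans ?_
    have hR : 1 / (mR κ X : ℝ) ≤ 1 / √(mR κ X : ℝ) := by
      rcases Nat.eq_zero_or_pos (mR κ X) with h | h
      · rw [h]; simp
      · have hR1 : (1 : ℝ) ≤ (mR κ X : ℝ) := by exact_mod_cast h
        apply one_div_le_one_div_of_le
        · exact Real.sqrt_pos.2 (by linarith)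
        · rw [Real.sqrt_le_left (by linarith)]
          nlinarith
    apply mul_le_mul _ (by linarith) (by positivity) (by positivity)
    exact mul_le_mul_of_nonneg_left (hpow _ (le_max_right _ _)) (by positivity)

end Pool.Agent.MVD
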