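import Pool.Agent.MVD.ZDefs

/-!
# Module ZPair: sums over pairs

`PS` is the sum that comes from Cauchy's inequality. With eit_mul_conj its terms are `f(N - x₁n) f̄(N - x₂n) Φ(n)`, `Φ = phi y t x₁ x₂`, `|Φ| = 1`.
`pair_triv`: F_corr_triv, `Hs Y ≤ 3 log X` (Hs_le_log), `Y ≤ R`.
`pair_far`: `x₁ ≠ x₂`. F_corr with `V = |t| log(y/(V/2)) ≤ R^15` (ZOK.facts; tv_phi if `x₁ < x₂`, tv_phi' if `x₂ < x₁`, with `Δ = mV/2`; `max(x₁,x₂) n₁ ≤ y - mV/2`), and phi_sum / phi_sum': `|∑ Φ| ≤ C/η^5 (√(1+|t|) + (y/max)/√(1+|t|)) + 2 η n₁ + 1`, `y ≤ 2X`.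
The factor `(1 + log r) (3 log X)^3 C` is absorbed in `(log X)^E`. The error `2 r Y^4 (1 + R^15) ≤ 4 R^19 ≤ R^21` (`r Y ≤ R`, `R ≥ 100`).
-/

open Finset Complex

namespace Pool.Agent.MVD

open Pool.Agent.ANT Pool.Agent.SInt

/-- The sum over `n` for a pair `(x₁,x₂)`. -/
noncomputable def PS {r : ℕ} (χ : DirichletCharacter ℂ r) (ω : ℕ → ℂ) (Y N : ℕ) (y t : ℝ) (x₁ x₂ n₀ n₁ : ℕ) : ℂ :=
  ∑ n ∈ Ioc n₀ n₁, (ff χ ω Y ((N : ℤ) - x₁ * n) * eit t (y - x₁ * n)) *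
    (starRingEnd ℂ) (ff χ ω Y ((N : ℤ) - x₂ * n) * eit t (y - x₂ * n))

namespace ZPairAux

theorem PS_eq {r : ℕ} (χ : DirichletCharacter ℂ r) (ω : ℕ → ℂ) (Y N : ℕ) (y t : ℝ) (x₁ x₂ n₀ n₁ : ℕ) :
    PS χ ω Y N y t x₁ x₂ n₀ n₁ = ∑ n ∈ Ioc n₀ n₁, ff χ ω Y ((N : ℤ) - x₁ * n) *
      (starRingEnd ℂ) (ff χ ω Y ((N : ℤ) - x₂ * n)) * phi y t x₁ x₂ n := by
  unfold PS
  refine Finset.sum_congr rfl fun n _ => ?_
  rw [← eit_mul_conj, map_mul]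
  ring

theorem logX {X : ℕ} (hX : 1000 ≤ X) : 3 ≤ Real.log X := by
  have h1 : (1000 : ℝ) ≤ X := by exact_mod_cast hX
  have h2 : Real.log 1000 ≤ Real.log X := Real.log_le_log (by norm_num) h1
  have h3 : (3:ℝ) ≤ Real.log 1000 := by
    rw [Real.le_log_iff_exp_le (by norm_num)]
    have h4 : Real.exp 3 = Real.exp 1 ^ 3 := by
      rw [← Real.exp_nat_mul]
      norm_num
    rw [h4]
    have h5 : Real.exp 1 ^ 3 ≤ 3 ^ 3 :=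
      pow_le_pow_left₀ (Real.exp_pos 1).le (by linarith [Real.exp_one_lt_d9]) 3
    linarith
  linarith

theorem R_le_X {κ : ℝ} {X : ℕ} (hP : ParOK κ X) : mR κ X ≤ X :=
  (Nat.le_self_pow (by norm_num) _).trans hP.Rpow

theorem Hs_cube {κ : ℝ} {X Y : ℕ} (hP : ParOK κ X) (hY : Y ≤ mR κ X) :
    Hs Y ^ 3 ≤ 27 * Real.log X ^ 3 := by
  have h1 : Hs Y ≤ 3 * Real.log X := by
    refine Hs_le_log (by have := hP.X3; omega) ?_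
    refine (hY.trans (R_le_X hP)).trans (Nat.le_self_pow (by norm_num) _)
  calc Hs Y ^ 3 ≤ (3 * Real.log X) ^ 3 := pow_le_pow_left₀ (Hs_nonneg Y) h1 3
    _ = 27 * Real.log X ^ 3 := by ring

theorem corB_nonneg (r : ℕ) (N x₁ x₂ : ℤ) : 0 ≤ corB r N x₁ x₂ := by
  unfold corB
  positivity

theorem phi_far : ∃ C : ℝ, 0 < C ∧ ∀ (y t η X : ℝ) (x₁ x₂ n₀ n₁ : ℕ), 0 < y → y ≤ 2 * X →
    1 ≤ x₁ → 1 ≤ x₂ → 0 < η → η ≤ 1 / 2 → η * (max x₁ x₂ : ℕ) ≤ |(x₁ : ℝ) - x₂| →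
    ((max x₁ x₂ : ℕ) : ℝ) * n₁ < y →
    ‖∑ n ∈ Ioc n₀ n₁, phi y t x₁ x₂ n‖ ≤
      C * (1 / η ^ 5 * (√(1 + |t|) + X / (max x₁ x₂ : ℕ) / √(1 + |t|)) + η * n₁ + 1) := by
  obtain ⟨C, hC, h1⟩ := phi_sum
  obtain ⟨C', hC', h2⟩ := phi_sum'
  refine ⟨2 * (C + C' + 1), by positivity, ?_⟩
  intro y t η X x₁ x₂ n₀ n₁ hy hyX hx1 hx2 hη hη2 hsep hlt
  have key : ∀ D : ℝ, 0 < D → D ≤ C + C' + 1 → ∀ x : ℝ, 1 ≤ x →
      D / η ^ 5 * (√(1 + |t|) + y / x / √(1 + |t|)) + 2 * η * n₁ + 1 ≤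
      2 * (C + C' + 1) * (1 / η ^ 5 * (√(1 + |t|) + X / x / √(1 + |t|)) + η * n₁ + 1) := by
    intro D hD hDC x hx
    have hs : 0 < √(1 + |t|) := Real.sqrt_pos.2 (by positivity)
    have hx0 : 0 < x := by linarith
    have hX0 : 0 < X := by linarith
    have e1 : y / x / √(1 + |t|) ≤ 2 * (X / x / √(1 + |t|)) := by
      have : y / x / √(1 + |t|) ≤ 2 * X / x / √(1 + |t|) := by gcongr
      refine this.trans (le_of_eq ?_)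
      ring
    have e2 : D / η ^ 5 * (√(1 + |t|) + y / x / √(1 + |t|)) ≤
        (C + C' + 1) / η ^ 5 * (2 * (√(1 + |t|) + X / x / √(1 + |t|))) := by
      apply mul_le_mul
      · gcongr
      · linarith
      · positivity
      · positivity
    have e3 : (C + C' + 1) / η ^ 5 * (2 * (√(1 + |t|) + X / x / √(1 + |t|))) =
        2 * (C + C' + 1) * (1 / η ^ 5 * (√(1 + |t|) + X / x / √(1 + |t|))) := by ring
    have e4 : 0 ≤ η * (n₁ : ℝ) := by positivity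
    have e5 : 2 * η * (n₁ : ℝ) + 1 ≤ 2 * (C + C' + 1) * (η * n₁ + 1) := by
      have : 0 ≤ (C + C') * (η * (n₁ : ℝ) + 1) := by positivity
      linarith
    calc D / η ^ 5 * (√(1 + |t|) + y / x / √(1 + |t|)) + 2 * η * n₁ + 1
        ≤ 2 * (C + C' + 1) * (1 / η ^ 5 * (√(1 + |t|) + X / x / √(1 + |t|))) +
          2 * (C + C' + 1) * (η * n₁ + 1) := by linarith
      _ = _ := by ring
  have hmpos : (1 : ℝ) ≤ (max x₁ x₂ : ℕ) := by exact_mod_cast le_max_of_le_left hx1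
  have hne : (x₁ : ℝ) ≠ x₂ := by
    intro h
    rw [h, sub_self, abs_zero] at hsep
    have : 0 < η * ((max x₁ x₂ : ℕ) : ℝ) := by positivity
    linarith
  rcases lt_or_gt_of_ne hne with hlt12 | hlt12
  · have hle : x₁ ≤ x₂ := by exact_mod_cast hlt12.le
    rw [max_eq_right hle] at hsep hlt hmpos ⊢
    refine (h1 y t x₁ x₂ η n₀ n₁ hy (Nat.cast_nonneg _) hlt12 hη hη2 ?_ hlt).trans
      (key C hC (by linarith) _ hmpos)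
    rwa [abs_of_neg (by linarith), neg_sub] at hsep
  · have hle : x₂ ≤ x₁ := by exact_mod_cast hlt12.le
    rw [max_eq_left hle] at hsep hlt hmpos ⊢
    refine (h2 y t x₂ x₁ η n₀ n₁ hy (Nat.cast_nonneg _) hlt12 hη hη2 ?_ hlt).trans
      (key C' hC' (by linarith) _ hmpos)
    rwa [abs_of_pos (by linarith)] at hsep

theorem tv_far {y t Δ : ℝ} (hy : 0 < y) (hΔ : 0 < Δ) (x₁ x₂ n₀ n₁ : ℕ)
    (hn : ((max x₁ x₂ : ℕ) : ℝ) * n₁ ≤ y - Δ) :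
    tv (phi y t x₁ x₂) n₀ n₁ ≤ |t| * Real.log (y / Δ) := by
  have hΔy : Δ ≤ y := by
    have : 0 ≤ ((max x₁ x₂ : ℕ) : ℝ) * n₁ := by positivity
    linarith
  rcases le_total x₁ x₂ with h | h
  · rw [max_eq_right h] at hn
    exact tv_phi hy (Nat.cast_nonneg _) (by exact_mod_cast h) hΔ hΔy n₀ n₁ hn
  · rw [max_eq_left h] at hn
    exact tv_phi' hy (Nat.cast_nonneg _) (by exact_mod_cast h) hΔ hΔy n₀ n₁ hn

end ZPairAux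

open ZPairAux

theorem pair_triv {κ : ℝ} (hκ : 0 < κ) (hκ1 : κ ≤ 1 / 1000) : ∃ E X₀ : ℕ, ∀ X : ℕ, X₀ ≤ X →
    ∀ (N r Y : ℕ) (χ : DirichletCharacter ℂ r) (ω : ℕ → ℂ) (y t : ℝ), ZOK κ X N r Y χ ω y t →
    ∀ x₁ x₂ n₀ n₁ : ℕ, 1 ≤ x₁ → 1 ≤ x₂ →
    ‖PS χ ω Y N y t x₁ x₂ n₀ n₁‖ ≤
      tauR x₁ * tauR x₂ * Real.log X ^ E * ((n₁ - n₀ : ℕ) : ℝ) + (mR κ X : ℝ) ^ 4 := by
  obtain ⟨X₀, hX₀⟩ := par_ok hκ hκ1
  refine ⟨6, X₀, ?_⟩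
  intro X hX N r Y χ ω y t h x₁ x₂ n₀ n₁ hx1 hx2
  have hP := hX₀ X hX
  obtain ⟨-, -, -, -, -, hY, -, -, -⟩ := h.facts hP
  have hL := logX hP.X3
  have h1 : ‖PS χ ω Y N y t x₁ x₂ n₀ n₁‖ ≤
      ∑ n ∈ Ioc n₀ n₁, ‖ff χ ω Y (N - x₁ * n)‖ * ‖ff χ ω Y (N - x₂ * n)‖ := by
    rw [PS_eq]
    refine (norm_sum_le _ _).trans (le_of_eq (Finset.sum_congr rfl fun n _ => ?_))
    rw [norm_mul, norm_mul, norm_phi, mul_one, Complex.norm_conj]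
  have h2 := F_corr_triv h.r1 χ h.om Y N hx1 hx2 n₀ n₁
  have h3 := Hs_cube hP hY
  have h4 : Hs Y ^ 3 ≤ Real.log X ^ 6 := by
    refine h3.trans ?_
    have : (27:ℝ) ≤ Real.log X ^ 3 := by
      calc (27:ℝ) = 3 ^ 3 := by norm_num
        _ ≤ Real.log X ^ 3 := pow_le_pow_left₀ (by norm_num) hL 3
    calc 27 * Real.log X ^ 3 ≤ Real.log X ^ 3 * Real.log X ^ 3 :=
          mul_le_mul_of_nonneg_right this (by positivity)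
      _ = Real.log X ^ 6 := by ring
  have h5 : (Y : ℝ) ^ 4 ≤ (mR κ X : ℝ) ^ 4 :=
    pow_le_pow_left₀ (Nat.cast_nonneg _) (by exact_mod_cast hY) 4
  have h6 : tauR x₁ * tauR x₂ * Hs Y ^ 3 * ((n₁ - n₀ : ℕ) : ℝ) ≤
      tauR x₁ * tauR x₂ * Real.log X ^ 6 * ((n₁ - n₀ : ℕ) : ℝ) := by
    refine mul_le_mul_of_nonneg_right ?_ (Nat.cast_nonneg _)
    exact mul_le_mul_of_nonneg_left h4 (mul_nonneg (tauR_nonneg _) (tauR_nonneg _))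
  linarith

theorem pair_far {κ : ℝ} (hκ : 0 < κ) (hκ1 : κ ≤ 1 / 1000) : ∃ E X₀ : ℕ, ∀ X : ℕ, X₀ ≤ X →
    ∀ (N r Y : ℕ) (χ : DirichletCharacter ℂ r) (ω : ℕ → ℂ) (y t : ℝ), ZOK κ X N r Y χ ω y t →
    ∀ (x₁ x₂ n₀ n₁ : ℕ) (η : ℝ), 1 ≤ x₁ → 1 ≤ x₂ → 0 < η → η ≤ 1 / 2 →
    η * (max x₁ x₂ : ℕ) ≤ |(x₁ : ℝ) - x₂| → max x₁ x₂ * n₁ + mV κ X ≤ N →
    ‖PS χ ω Y N y t x₁ x₂ n₀ n₁‖ ≤
      corB r N x₁ x₂ * (tauR x₁ * tauR x₂) * Real.log X ^ E *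
        (1 / η ^ 5 * (√(1 + |t|) + (X : ℝ) / (max x₁ x₂ : ℕ) / √(1 + |t|)) + η * n₁ + 1) + (mR κ X : ℝ) ^ 21 := by
  obtain ⟨X₀, hX₀⟩ := par_ok hκ hκ1
  obtain ⟨C, hC, hphi⟩ := phi_far
  obtain ⟨k, hk⟩ := pow_unbounded_of_one_lt (54 * C) (by norm_num : (1:ℝ) < 3)
  refine ⟨4 + k, X₀, ?_⟩
  intro X hX N r Y χ ω y t h x₁ x₂ n₀ n₁ η hx1 hx2 hη hη2 hsep hmax
  have hP := hX₀ X hX
  obtain ⟨hy, hyX, -, -, hrR, hY, hV0, hxn, hVt⟩ := h.facts hP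
  have hL := logX hP.X3
  have hlt := hxn _ _ hmax
  have htv := tv_far (t := t) hy hV0 x₁ x₂ n₀ n₁ hlt
  have hB := hphi y t η X x₁ x₂ n₀ n₁ hy hyX hx1 hx2 hη hη2 hsep (by linarith)
  have hF := F_corr h.r1 h.prim h.om Y N hx1 hx2 n₀ n₁ (phi y t x₁ x₂)
    (fun n => (norm_phi y t x₁ x₂ n).le) (htv.trans hVt)
  rw [PS_eq]
  refine hF.trans ?_
  set B := 1 / η ^ 5 * (√(1 + |t|) + (X : ℝ) / (max x₁ x₂ : ℕ) / √(1 + |t|)) + η * n₁ + 1 with hBdef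
  have hB0 : 0 ≤ B := by positivity
  have hr0 : (1:ℝ) ≤ r := by exact_mod_cast h.r1
  have hrX : (r:ℝ) ≤ X := by exact_mod_cast hrR.trans (R_le_X hP)
  have hlogr : Real.log r ≤ Real.log X := Real.log_le_log (by linarith) hrX
  have hlogr0 : 0 ≤ Real.log r := Real.log_nonneg hr0
  have hτ : 0 ≤ tauR x₁ * tauR x₂ := mul_nonneg (tauR_nonneg _) (tauR_nonneg _)
  have hc := corB_nonneg r N x₁ x₂
  have hH := Hs_cube hP hY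
  have hH0 : 0 ≤ Hs Y ^ 3 := pow_nonneg (Hs_nonneg Y) 3
  -- the main term
  have m1 : (1 + Real.log r) * Hs Y ^ 3 * C ≤ Real.log X ^ (4 + k) := by
    have a1 : (1 + Real.log r) * Hs Y ^ 3 ≤ (2 * Real.log X) * (27 * Real.log X ^ 3) :=
      mul_le_mul (by linarith) hH hH0 (by linarith)
    have a2 : (1 + Real.log r) * Hs Y ^ 3 * C ≤ (2 * Real.log X) * (27 * Real.log X ^ 3) * C :=
      mul_le_mul_of_nonneg_right a1 hC.le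
    have a3 : 54 * C ≤ Real.log X ^ k := hk.le.trans (pow_le_pow_left₀ (by norm_num) hL k)
    calc (1 + Real.log r) * Hs Y ^ 3 * C ≤ (2 * Real.log X) * (27 * Real.log X ^ 3) * C := a2
      _ = Real.log X ^ 4 * (54 * C) := by ring
      _ ≤ Real.log X ^ 4 * Real.log X ^ k := mul_le_mul_of_nonneg_left a3 (by positivity)
      _ = Real.log X ^ (4 + k) := by rw [pow_add]
  have m2 : (1 + Real.log r) * corB r N x₁ x₂ * (tauR x₁ * tauR x₂ * Hs Y ^ 3) *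
      ‖∑ n ∈ Ioc n₀ n₁, phi y t x₁ x₂ n‖ ≤
      corB r N x₁ x₂ * (tauR x₁ * tauR x₂) * Real.log X ^ (4 + k) * B := by
    have b1 : (1 + Real.log r) * corB r N x₁ x₂ * (tauR x₁ * tauR x₂ * Hs Y ^ 3) *
        ‖∑ n ∈ Ioc n₀ n₁, phi y t x₁ x₂ n‖ ≤
        (1 + Real.log r) * corB r N x₁ x₂ * (tauR x₁ * tauR x₂ * Hs Y ^ 3) * (C * B) :=
      mul_le_mul_of_nonneg_left hB (by positivity)
    have b2 : (1 + Real.log r) * corB r N x₁ x₂ * (tauR x₁ * tauR x₂ * Hs Y ^ 3) * (C * B) =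
        (corB r N x₁ x₂ * (tauR x₁ * tauR x₂)) * ((1 + Real.log r) * Hs Y ^ 3 * C) * B := by ring
    have b3 : (corB r N x₁ x₂ * (tauR x₁ * tauR x₂)) * ((1 + Real.log r) * Hs Y ^ 3 * C) * B ≤
        (corB r N x₁ x₂ * (tauR x₁ * tauR x₂)) * Real.log X ^ (4 + k) * B :=
      mul_le_mul_of_nonneg_right (mul_le_mul_of_nonneg_left m1 (mul_nonneg hc hτ)) hB0
    linarith
  -- the error
  have m3 : 2 * (r : ℝ) * (Y : ℝ) ^ 4 * (1 + (mR κ X : ℝ) ^ 15) ≤ (mR κ X : ℝ) ^ 21 := by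
    have hR : (100:ℝ) ≤ mR κ X := by exact_mod_cast hP.R2
    have hrY : (r:ℝ) * Y ≤ mR κ X := by exact_mod_cast h.rY
    have hY' : (Y:ℝ) ≤ mR κ X := by exact_mod_cast hY
    have hY0 : (0:ℝ) ≤ Y := Nat.cast_nonneg _
    generalize (mR κ X : ℝ) = R at hR hrY hY' ⊢
    have c1 : (r:ℝ) * (Y:ℝ) ^ 4 ≤ R ^ 4 := by
      calc (r:ℝ) * (Y:ℝ) ^ 4 = (r * Y) * (Y:ℝ) ^ 3 := by ring
        _ ≤ R * R ^ 3 := mul_le_mul hrY (pow_le_pow_left₀ hY0 hY' 3) (by positivity) (by linarith)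
        _ = R ^ 4 := by ring
    have c2 : (1:ℝ) ≤ R ^ 15 := one_le_pow₀ (by linarith)
    have c3 : 4 ≤ R ^ 2 := by nlinarith
    calc 2 * (r : ℝ) * (Y : ℝ) ^ 4 * (1 + R ^ 15) = 2 * ((r : ℝ) * (Y : ℝ) ^ 4) * (1 + R ^ 15) := by ring
      _ ≤ 2 * R ^ 4 * (2 * R ^ 15) := by
        apply mul_le_mul (by linarith) (by linarith) (by positivity) (by positivity)
      _ = 4 * R ^ 19 := by ring
      _ ≤ R ^ 2 * R ^ 19 := mul_le_mul_of_nonneg_right c3 (by positivity)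
      _ = R ^ 21 := by ring
  linarith

end Pool.Agent.MVD
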