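import Pool.Agent.MVD.ZDefs

/-!
# Module ZTYPEI: type I sums

The sum over `n` with `x n + V ≤ N`, `n ≤ K`: `n ≤ n₁ = min(K, (N-V)/x)`. Without the logarithm: F_single with `Φ(n) = eit t (y - x n) = e^{it log y} · conj(...)`: up to the constant
`eit t y` it is `phi(y,t,x,0)` / `phi(y,-t,0,x)`, so tv_phi, phi_sum with `x₁ = 0`, `x₂ = x`, `η = (1+|t|)^{-1/12}/2`:
`|∑ Φ| ≤ C (X/x) (1+|t|)^{-1/12} + C R^13 + 1`, variation `≤ R^15`; error `2 r Y² (1 + R^15) ≤ 4 R^18`. If `r ∣ x`, `(N,r) = 1` the factor `τ(x) Hs(Y)`, `τ(x) C R^13 ≤ R^14`.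
With `(log(s n))^i`: the factor is `1` (`i = 0`) or increasing and `≤ log(2X²)`: Abel summation (partial sums over `n ≤ n'` are bounded in the same way, uniformly).
-/

open Finset Complex

namespace Pool.Agent.MVD

open Pool.Agent.ANT Pool.Agent.SInt

namespace ZTypeIAux

private lemma abel_id (a : ℕ → ℂ) (w : ℕ → ℝ) (m : ℕ) :
    ∑ n ∈ Ioc 0 (m + 1), (w n : ℂ) * a n =
      (w (m + 1) : ℂ) * ∑ k ∈ Ioc 0 (m + 1), a k -
        ∑ n ∈ Ioc 0 m, ((w (n + 1) - w n : ℝ) : ℂ) * ∑ k ∈ Ioc 0 n, a k := by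
  induction m with
  | zero => simp
  | succ m ih =>
    rw [Finset.sum_Ioc_succ_top (Nat.zero_le (m + 1)), ih,
      Finset.sum_Ioc_succ_top (Nat.zero_le (m + 1)) (f := a),
      Finset.sum_Ioc_succ_top (Nat.zero_le m)
        (f := fun n => ((w (n + 1) - w n : ℝ) : ℂ) * ∑ k ∈ Ioc 0 n, a k)]
    push_cast
    ring

private lemma abel_mono (a : ℕ → ℂ) (w : ℕ → ℝ) (m : ℕ) {B : ℝ} (hw0 : ∀ n, 0 ≤ w n)
    (hw : ∀ n, 1 ≤ n → w n ≤ w (n + 1)) (hB : ∀ n ≤ m + 1, ‖∑ k ∈ Ioc 0 n, a k‖ ≤ B) :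
    ‖∑ n ∈ Ioc 0 (m + 1), (w n : ℂ) * a n‖ ≤ 2 * w (m + 1) * B := by
  have hB0 : 0 ≤ B := le_trans (norm_nonneg _) (hB 0 (Nat.zero_le _))
  rw [abel_id]
  have h1 : ‖(w (m + 1) : ℂ) * ∑ k ∈ Ioc 0 (m + 1), a k‖ ≤ w (m + 1) * B := by
    rw [norm_mul, Complex.norm_real, Real.norm_of_nonneg (hw0 _)]
    exact mul_le_mul_of_nonneg_left (hB _ le_rfl) (hw0 _)
  have h2 : ‖∑ n ∈ Ioc 0 m, ((w (n + 1) - w n : ℝ) : ℂ) * ∑ k ∈ Ioc 0 n, a k‖ ≤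
      ∑ n ∈ Ioc 0 m, (w (n + 1) - w n) * B := by
    refine (norm_sum_le _ _).trans (Finset.sum_le_sum fun n hn => ?_)
    rw [Finset.mem_Ioc] at hn
    have h3 : 0 ≤ w (n + 1) - w n := sub_nonneg.2 (hw n hn.1)
    rw [norm_mul, Complex.norm_real, Real.norm_of_nonneg h3]
    exact mul_le_mul_of_nonneg_left (hB n (by omega)) h3
  have h4 : ∀ m : ℕ, ∑ n ∈ Ioc 0 m, (w (n + 1) - w n) = w (m + 1) - w 1 := by
    intro m
    induction m with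
    | zero => simp
    | succ m ih => rw [Finset.sum_Ioc_succ_top (Nat.zero_le m), ih]; ring
  have h5 : ∑ n ∈ Ioc 0 m, (w (n + 1) - w n) * B = (w (m + 1) - w 1) * B := by
    rw [← Finset.sum_mul, h4]
  have h6 : 0 ≤ w 1 * B := mul_nonneg (hw0 1) hB0
  refine (norm_sub_le _ _).trans ?_
  rw [h5] at h2
  nlinarith

/-- The phase is a constant times `phi`. -/
private lemma eit_eq (t y x : ℝ) (n : ℕ) : eit t (y - x * n) = eit t y * phi y t x 0 n := by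
  unfold eit phi
  rw [← Complex.exp_add]
  congr 1
  push_cast
  rw [show y - 0 * (n : ℝ) = y by ring]
  ring

private lemma norm_eit (t y : ℝ) : ‖eit t y‖ = 1 := by
  unfold eit
  rw [mul_comm, Complex.norm_exp_ofReal_mul_I]

/-- Sum of the phases. -/
private lemma phase_sum : ∃ C : ℝ, 0 < C ∧ ∀ (X y t : ℝ) (x n' : ℕ), 0 < y → y ≤ 2 * X → 1 ≤ x →
    (x : ℝ) * n' < y →
    ‖∑ n ∈ Ioc 0 n', phi y t x 0 n‖ ≤
      (64 * C + 2) * ((X / x) * (1 + |t|) ^ (-(1 / 12) : ℝ)) + 32 * C * (1 + |t|) + 1 := by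
  obtain ⟨C, hC, hphi⟩ := phi_sum'
  refine ⟨C, hC, fun X y t x n' hy0 hy2 hx hn => ?_⟩
  have hx0 : (0 : ℝ) < x := by exact_mod_cast hx
  have hT : (1 : ℝ) ≤ 1 + |t| := by linarith [abs_nonneg t]
  obtain ⟨u, hu, hu1⟩ : ∃ u : ℝ, u = (1 + |t|) ^ ((1 / 12 : ℝ)) ∧ 1 ≤ u :=
    ⟨_, rfl, Real.one_le_rpow hT (by norm_num)⟩
  have hu0 : 0 < u := by linarith
  have hu12 : u ^ 12 = 1 + |t| := by
    rw [hu, ← Real.rpow_natCast, ← Real.rpow_mul (by linarith)]; norm_num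
  have husq : √(1 + |t|) = u ^ 6 := by
    rw [← hu12, show u ^ 12 = (u ^ 6) ^ 2 by ring, Real.sqrt_sq (by positivity)]
  have huinv : (1 + |t|) ^ (-(1 / 12) : ℝ) = 1 / u := by
    rw [hu, Real.rpow_neg (by linarith)]; exact (one_div _).symm
  have hη0 : 0 < 1 / (2 * u) := by positivity
  have hη1 : 1 / (2 * u) ≤ 1 / 2 := by
    apply one_div_le_one_div_of_le <;> linarith
  have h := hphi y t 0 x (1 / (2 * u)) 0 n' hy0 le_rfl hx0 hη0 hη1 (by nlinarith) hn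
  refine h.trans ?_
  rw [husq, huinv, ← hu12]
  have e1 : C / (1 / (2 * u)) ^ 5 * (u ^ 6 + y / x / u ^ 6) = 32 * C * u ^ 11 + 32 * C * (y / x * (1 / u)) := by
    field_simp
    ring
  rw [e1]
  have h11 : u ^ 11 ≤ u ^ 12 := pow_le_pow_right₀ hu1 (by norm_num)
  have hyx : y / x ≤ 2 * (X / x) := by
    rw [← mul_div_assoc]; exact div_le_div_of_nonneg_right hy2 hx0.le
  have hn2 : (n' : ℝ) ≤ 2 * (X / x) := by
    refine le_trans ?_ hyx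
    rw [le_div_iff₀ hx0]; linarith
  have hi : 0 < 1 / u := by positivity
  have a1 : 32 * C * u ^ 11 ≤ 32 * C * u ^ 12 := mul_le_mul_of_nonneg_left h11 (by positivity)
  have a2 : 32 * C * (y / x * (1 / u)) ≤ 32 * C * (2 * (X / x) * (1 / u)) := by
    gcongr
  have a3 : 2 * (1 / (2 * u)) * (n' : ℝ) ≤ (1 / u) * (2 * (X / x)) := by
    rw [show 2 * (1 / (2 * u)) = 1 / u by field_simp]
    gcongr
  nlinarith

/-- The sums without the logarithm. -/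
private lemma plain {κ : ℝ} (hκ : 0 < κ) (hκ1 : κ ≤ 1 / 1000) : ∃ C₁ : ℝ, 0 < C₁ ∧ ∃ X₀ : ℕ, ∀ X : ℕ, X₀ ≤ X →
    ∀ (N r Y : ℕ) (χ : DirichletCharacter ℂ r) (ω : ℕ → ℂ) (y t : ℝ), ZOK κ X N r Y χ ω y t →
    ∀ x n' : ℕ, 1 ≤ x → x ≤ X → x * n' + mV κ X ≤ N →
    ‖∑ n ∈ Ioc 0 n', ff χ ω Y ((N : ℤ) - x * n) * eit t (y - x * n)‖ ≤
      (if r ∣ x ∧ Nat.gcd N r = 1 then 1 else 0) * tauR x * (X / x) * (C₁ * Real.log X) *
        (1 + |t|) ^ (-(1 / 12) : ℝ) + 5 * (mR κ X : ℝ) ^ 17 := by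
  obtain ⟨C, hC, hphi⟩ := phase_sum
  obtain ⟨X₁, hX₁⟩ := par_ok hκ hκ1
  obtain ⟨X₂, hX₂⟩ := tau_le_R hκ hκ1 (δ := 1 / 10) (by norm_num)
  obtain ⟨X₃, hX₃⟩ := log_le_R hκ hκ1 (3 * (64 * C + 1)) 1 (δ := 9 / 10) (by norm_num)
  refine ⟨3 * (64 * C + 2), by positivity, max X₁ (max X₂ X₃), fun X hX N r Y χ ω y t hZ x n' hx hxX hn => ?_⟩
  have hP := hX₁ X (by omega)
  obtain ⟨hy0, hy2, hyX, hN2, hrR, hYR, hV0, hxn, htv⟩ := hZ.facts hP
  have hX3 := hP.X3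
  have hR := hP.R2
  obtain ⟨R, hRdef⟩ : ∃ R : ℝ, R = (mR κ X : ℝ) := ⟨_, rfl⟩
  have hR100 : (100 : ℝ) ≤ R := by rw [hRdef]; exact_mod_cast hR
  have hR1 : (1 : ℝ) ≤ R := by linarith
  have hx0 : (0 : ℝ) < x := by exact_mod_cast hx
  have hX0 : (0 : ℝ) < X := by exact_mod_cast (by omega : 0 < X)
  have hxn' := hxn x n' hn
  have hlt : (x : ℝ) * n' < y := by linarith
  have hlog : 0 ≤ Real.log X := Real.log_natCast_nonneg X
  -- rewrite with `phi`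
  have e1 : ∑ n ∈ Ioc 0 n', ff χ ω Y ((N : ℤ) - x * n) * eit t (y - x * n) =
      eit t y * ∑ n ∈ Ioc 0 n', ff χ ω Y ((N : ℤ) - x * n) * phi y t x 0 n := by
    rw [Finset.mul_sum]
    refine Finset.sum_congr rfl fun n _ => ?_
    rw [eit_eq]; ring
  rw [e1, norm_mul, norm_eit, one_mul]
  -- total variation
  have hΔy : (mV κ X : ℝ) / 2 ≤ y := by
    have : (0 : ℝ) ≤ (x : ℝ) * n' := by positivity
    linarith
  have htv' : tv (phi y t x 0) 0 n' ≤ R ^ 15 := by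
    rw [hRdef]
    exact (tv_phi' hy0 le_rfl hx0.le hV0 hΔy 0 n' hxn').trans htv
  have hF := F_single hZ.r1 hZ.prim hZ.om Y (N : ℤ) hx 0 n' (phi y t x 0) (fun n => (norm_phi y t x 0 n).le) htv'
  refine hF.trans ?_
  have hph := hphi X y t x n' hy0 hy2 hx hlt
  rw [Int.gcd_natCast_natCast]
  obtain ⟨D, hD⟩ : ∃ D : ℝ, D = if r ∣ x ∧ Nat.gcd N r = 1 then (1 : ℝ) else 0 := ⟨_, rfl⟩
  have hD0 : 0 ≤ D := by rw [hD]; split_ifs <;> norm_num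
  have hD1 : D ≤ 1 := by rw [hD]; split_ifs <;> norm_num
  have hD' : (if (r : ℕ) ∣ x ∧ Nat.gcd N r = 1 then (1 : ℝ) else 0) = D := hD.symm
  rw [hD', ← hRdef]
  have ht1 : |t| ≤ R ^ 14 := by have := hZ.t1; rw [hRdef]; exact this
  have hτ : tauR x ≤ R ^ (1 / 10 : ℝ) := by
    rw [hRdef]
    refine hX₂ X (by omega) x (by omega) (hxX.trans ?_)
    exact Nat.le_self_pow (by norm_num) X
  have hlg : 3 * (64 * C + 1) * Real.log X ≤ R ^ (9 / 10 : ℝ) := by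
    have := hX₃ X (by omega)
    rw [pow_one] at this
    rw [hRdef]; exact this
  have hYX : Y ≤ X ^ 2 := by
    refine hYR.trans ?_
    have h1 : mR κ X ≤ mR κ X ^ 1000 := Nat.le_self_pow (by norm_num) _
    have h2 : X ≤ X ^ 2 := Nat.le_self_pow (by norm_num) X
    exact (h1.trans hP.Rpow).trans h2
  have hHs : Hs Y ≤ 3 * Real.log X := Hs_le_log (by omega) hYX
  have hHs0 : 0 ≤ Hs Y := Hs_nonneg Y
  have hτ0 : 0 ≤ tauR x := tauR_nonneg x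
  obtain ⟨P, hPdef⟩ : ∃ P : ℝ, P = (1 + |t|) ^ (-(1 / 12) : ℝ) := ⟨_, rfl⟩
  rw [← hPdef] at hph ⊢
  obtain ⟨S, hS⟩ : ∃ S : ℝ, S = ‖∑ n ∈ Ioc 0 n', phi y t x 0 n‖ := ⟨_, rfl⟩
  rw [← hS] at hph ⊢
  have hS0 : 0 ≤ S := by rw [hS]; exact norm_nonneg _
  have hR14 : (1 : ℝ) ≤ R ^ 14 := one_le_pow₀ hR1
  have hR15 : (1 : ℝ) ≤ R ^ 15 := one_le_pow₀ hR1
  have hS' : S ≤ (64 * C + 2) * (X / x * P) + (64 * C + 1) * R ^ 14 := by
    nlinarith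
  -- main term
  have m1 : D * (tauR x * Hs Y) * S ≤ D * (tauR x * (3 * Real.log X)) *
      ((64 * C + 2) * (X / x * P) + (64 * C + 1) * R ^ 14) := by
    gcongr
  have m2 : D * (tauR x * (3 * Real.log X)) * ((64 * C + 1) * R ^ 14) ≤ R ^ 15 := by
    have h1 : D * (tauR x * (3 * Real.log X)) * ((64 * C + 1) * R ^ 14) =
        D * (tauR x * (3 * (64 * C + 1) * Real.log X)) * R ^ 14 := by ring
    have h2 : tauR x * (3 * (64 * C + 1) * Real.log X) ≤ R ^ (1 / 10 : ℝ) * R ^ (9 / 10 : ℝ) := by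
      gcongr
    have h3 : R ^ (1 / 10 : ℝ) * R ^ (9 / 10 : ℝ) = R := by
      rw [← Real.rpow_add (by linarith)]; norm_num
    rw [h3] at h2
    have h4 : 0 ≤ tauR x * (3 * (64 * C + 1) * Real.log X) := by positivity
    rw [h1]
    calc D * (tauR x * (3 * (64 * C + 1) * Real.log X)) * R ^ 14 ≤ 1 * R * R ^ 14 := by gcongr
      _ = R ^ 15 := by ring
  have m3 : D * (tauR x * (3 * Real.log X)) * ((64 * C + 2) * (X / x * P)) =
      D * tauR x * (X / x) * (3 * (64 * C + 2) * Real.log X) * P := by ring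
  -- error
  have hrY : (r : ℝ) * Y ≤ R := by rw [hRdef]; exact_mod_cast hZ.rY
  have hYR' : (Y : ℝ) ≤ R := by rw [hRdef]; exact_mod_cast hYR
  have m4 : 2 * (r : ℝ) * (Y : ℝ) ^ 2 * (1 + R ^ 15) ≤ 4 * R ^ 17 := by
    calc 2 * (r : ℝ) * (Y : ℝ) ^ 2 * (1 + R ^ 15) = 2 * ((r : ℝ) * Y) * Y * (1 + R ^ 15) := by ring
      _ ≤ 2 * R * R * (R ^ 15 + R ^ 15) := by gcongr
      _ = 4 * R ^ 17 := by ring
  have m5 : R ^ 15 ≤ R ^ 17 := pow_le_pow_right₀ hR1 (by norm_num)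
  rw [mul_add, m3] at m1
  linarith

end ZTypeIAux

open ZTypeIAux

theorem Z_typeI {κ : ℝ} (hκ : 0 < κ) (hκ1 : κ ≤ 1 / 1000) : ∃ E X₀ : ℕ, ∀ X : ℕ, X₀ ≤ X →
    ∀ (N r Y : ℕ) (χ : DirichletCharacter ℂ r) (ω : ℕ → ℂ) (y t : ℝ), ZOK κ X N r Y χ ω y t →
    ∀ x s i K : ℕ, 1 ≤ x → x ≤ X → 1 ≤ s → s ≤ X → i ≤ 1 →
    ‖∑ n ∈ (Icc 1 K).filter (fun n => x * n + mV κ X ≤ N),
        ((Real.log ((s * n : ℕ) : ℝ) ^ i : ℝ) : ℂ) * ff χ ω Y ((N : ℤ) - x * n) * eit t (y - x * n)‖ ≤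
      (if r ∣ x ∧ Nat.gcd N r = 1 then 1 else 0) * tauR x * (X / x) * Real.log X ^ E * (1 + |t|) ^ (-(1 / 12) : ℝ) +
        (mR κ X : ℝ) ^ 20 := by
  obtain ⟨C₁, hC₁, X₁, hX₁⟩ := plain hκ hκ1
  obtain ⟨X₂, hX₂⟩ := par_ok hκ hκ1
  obtain ⟨X₃, hX₃⟩ := log_le_R hκ hκ1 30 1 (δ := 1) (by norm_num)
  refine ⟨3, max (max X₁ X₂) (max X₃ ⌈Real.exp (6 * C₁)⌉₊), fun X hX N r Y χ ω y t hZ x s i K hx hxX hs hsX hi => ?_⟩
  have hP := hX₂ X (by omega)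
  have hX3 := hP.X3
  have hR := hP.R2
  have hX0 : (0 : ℝ) < X := by exact_mod_cast (by omega : 0 < X)
  have hx0 : (0 : ℝ) < x := by exact_mod_cast hx
  obtain ⟨R, hRdef⟩ : ∃ R : ℝ, R = (mR κ X : ℝ) := ⟨_, rfl⟩
  have hR100 : (100 : ℝ) ≤ R := by rw [hRdef]; exact_mod_cast hR
  have hR1 : (1 : ℝ) ≤ R := by linarith
  obtain ⟨hy0, hy2, hyX, hN2, hrR, hYR, hV0, hxn, htv⟩ := hZ.facts hP
  have hpl := hX₁ X (by omega) N r Y χ ω y t hZ x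
  have hlgR : 30 * Real.log X ≤ R := by
    have := hX₃ X (by omega)
    rw [pow_one, Real.rpow_one] at this
    rw [hRdef]; exact this
  have hlgC : 6 * C₁ ≤ Real.log X := by
    rw [Real.le_log_iff_exp_le hX0]
    have h1 : ⌈Real.exp (6 * C₁)⌉₊ ≤ X := by omega
    exact (Nat.le_ceil _).trans (by exact_mod_cast h1)
  have hlg1 : 1 ≤ Real.log X := by
    rw [Real.le_log_iff_exp_le hX0]
    have h1 : (1000 : ℝ) ≤ X := by exact_mod_cast hX3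
    linarith [Real.exp_one_lt_d9]
  have hVN : mV κ X ≤ N := by
    have h1 := hP.V1
    have h2 := hP.W1
    have h3 := hZ.N1
    have h4 : mV κ X ≤ mV κ X * mR κ X ^ 3 := Nat.le_mul_of_pos_right _ (by positivity)
    omega
  obtain ⟨D, hD⟩ : ∃ D : ℝ, D = if r ∣ x ∧ Nat.gcd N r = 1 then (1 : ℝ) else 0 := ⟨_, rfl⟩
  have hD0 : 0 ≤ D := by rw [hD]; split_ifs <;> norm_num
  rw [← hD] at hpl ⊢
  have hτ0 : 0 ≤ tauR x := tauR_nonneg x
  obtain ⟨P, hPdef⟩ : ∃ P : ℝ, P = (1 + |t|) ^ (-(1 / 12) : ℝ) := ⟨_, rfl⟩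
  have hP0 : 0 ≤ P := by rw [hPdef]; positivity
  rw [← hPdef, ← hRdef] at hpl ⊢
  -- the range
  obtain ⟨m, hm⟩ : ∃ m : ℕ, m = min K ((N - mV κ X) / x) := ⟨_, rfl⟩
  have hset : (Icc 1 K).filter (fun n => x * n + mV κ X ≤ N) = Ioc 0 m := by
    ext n
    simp only [Finset.mem_filter, Finset.mem_Icc, Finset.mem_Ioc, hm, le_min_iff,
      Nat.le_div_iff_mul_le hx]
    rw [mul_comm n x]
    omega
  rw [hset]
  have hxm : x * m ≤ N - mV κ X := by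
    rw [mul_comm]; exact (Nat.le_div_iff_mul_le hx).1 (by rw [hm]; exact min_le_right _ _)
  have hpl' : ∀ n ≤ m, ‖∑ k ∈ Ioc 0 n, ff χ ω Y ((N : ℤ) - x * k) * eit t (y - x * k)‖ ≤
      D * tauR x * (X / x) * (C₁ * Real.log X) * P + 5 * R ^ 17 := by
    intro n hn
    refine hpl n hx hxX ?_
    have : x * n ≤ x * m := Nat.mul_le_mul_left x hn
    omega
  rcases Nat.eq_zero_or_pos m with h0 | h0
  · rw [h0]
    simp only [Finset.Ioc_self, Finset.sum_empty, norm_zero]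
    positivity
  obtain ⟨m', rfl⟩ : ∃ m', m = m' + 1 := ⟨m - 1, by omega⟩
  have hab := abel_mono (fun n => ff χ ω Y ((N : ℤ) - x * n) * eit t (y - x * n))
    (fun n => Real.log ((s * n : ℕ) : ℝ) ^ i) m' (B := D * tauR x * (X / x) * (C₁ * Real.log X) * P + 5 * R ^ 17)
    (fun n => pow_nonneg (Real.log_natCast_nonneg _) i)
    (fun n hn => by
      refine pow_le_pow_left₀ (Real.log_natCast_nonneg _) (Real.log_le_log ?_ ?_) i
      · exact_mod_cast Nat.mul_pos hs hn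
      · exact_mod_cast Nat.mul_le_mul_left s (Nat.le_succ n)) hpl'
  have hw : Real.log ((s * (m' + 1) : ℕ) : ℝ) ^ i ≤ 3 * Real.log X := by
    have hm2 : m' + 1 ≤ 2 * X := by
      have h1 : m' + 1 ≤ x * (m' + 1) := Nat.le_mul_of_pos_left _ hx
      omega
    have hsm : s * (m' + 1) ≤ X ^ 3 := by
      calc s * (m' + 1) ≤ X * (2 * X) := Nat.mul_le_mul hsX hm2
        _ ≤ X * (X * X) := Nat.mul_le_mul_left X (Nat.mul_le_mul_right X (by omega))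
        _ = X ^ 3 := by ring
    have hl : Real.log ((s * (m' + 1) : ℕ) : ℝ) ≤ 3 * Real.log X := by
      have h1 : Real.log ((s * (m' + 1) : ℕ) : ℝ) ≤ Real.log ((X ^ 3 : ℕ) : ℝ) := by
        apply Real.log_le_log
        · exact_mod_cast Nat.mul_pos hs (Nat.succ_pos _)
        · exact_mod_cast hsm
      rw [Nat.cast_pow, Real.log_pow] at h1
      exact_mod_cast h1
    interval_cases i
    · rw [pow_zero]; linarith
    · rw [pow_one]; exact hl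
  have hB0 : 0 ≤ D * tauR x * (X / x) * (C₁ * Real.log X) * P + 5 * R ^ 17 := by positivity
  have e0 : ∑ n ∈ Ioc 0 (m' + 1), ((Real.log ((s * n : ℕ) : ℝ) ^ i : ℝ) : ℂ) * ff χ ω Y ((N : ℤ) - x * n) *
      eit t (y - x * n) = ∑ n ∈ Ioc 0 (m' + 1), ((Real.log ((s * n : ℕ) : ℝ) ^ i : ℝ) : ℂ) *
      (ff χ ω Y ((N : ℤ) - x * n) * eit t (y - x * n)) :=
    Finset.sum_congr rfl fun n _ => mul_assoc _ _ _
  rw [e0]
  refine hab.trans ?_
  have f1 : 2 * Real.log ((s * (m' + 1) : ℕ) : ℝ) ^ i * (D * tauR x * (X / x) * (C₁ * Real.log X) * P + 5 * R ^ 17) ≤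
      2 * (3 * Real.log X) * (D * tauR x * (X / x) * (C₁ * Real.log X) * P + 5 * R ^ 17) := by
    gcongr
  refine f1.trans ?_
  have f2 : 2 * (3 * Real.log X) * (D * tauR x * (X / x) * (C₁ * Real.log X) * P) ≤
      D * tauR x * (X / x) * Real.log X ^ 3 * P := by
    have h1 : 2 * (3 * Real.log X) * (D * tauR x * (X / x) * (C₁ * Real.log X) * P) =
        D * tauR x * (X / x) * ((6 * C₁) * Real.log X ^ 2) * P := by ring
    have h2 : D * tauR x * (X / x) * Real.log X ^ 3 * P = D * tauR x * (X / x) * (Real.log X * Real.log X ^ 2) * P := by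
      ring
    rw [h1, h2]
    gcongr
  have f3 : 2 * (3 * Real.log X) * (5 * R ^ 17) ≤ R ^ 20 := by
    calc 2 * (3 * Real.log X) * (5 * R ^ 17) = (30 * Real.log X) * R ^ 17 := by ring
      _ ≤ R * R ^ 17 := by gcongr
      _ = R ^ 18 := by ring
      _ ≤ R ^ 20 := pow_le_pow_right₀ hR1 (by norm_num)
  rw [mul_add]
  linarith

end Pool.Agent.MVD
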