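import Pool.Agent.MVD.ZPair

/-!
# Module ZTypeII: type II sums

`L = log X`, `R = mR κ X`, `z = X/(q M)` (real, `≥ R^40`), `ρ = rp r N ≤ R`, `f = ff χ ω Y`. The sum is `∑_{n} b(n) ∑_{m ∈ [M,2M), q m n + V ≤ N} a(m) f(N - qmn) eit t (y - qmn)`; only `n ≤ n* = N/(qM) ≤ 2X/(qM)` (natural divisions). The cut `mn ≤ K`
is automatic (`q m n ≤ N ≤ q K`). Cauchy over `n`: `|.|² ≤ (∑_{n ≤ n*} |b|²) ∑_{m₁,m₂} |a(m₁)a(m₂)| |PS(m₁,m₂)|`,
`PS = PS χ ω Y N y t (q m₁) (q m₂) 0 n₁`, `n₁ = min(n*, (N-V)/(q max(m₁,m₂)))`. `|a(m)| ≤ A τ(m)`. Put `η = (ρ(1+|t|))^{-1/12}/2`, `R^{-2} ≤ η ≤ 1/2`.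
(a) `|m₁-m₂| ≤ 2ηM`: pair_triv `|PS| ≤ τ(q)² τ(m₁)τ(m₂) L^E · 2z + R^4` (tauR_mul_le); close_pairs (in `[1,2M]`, `δ = 2ηM`): sum `≤ A² τ(q)² L^E' z M² (η + 1/M + R^4/z)`.
(b) `|m₁-m₂| > 2ηM ≥ η max(m₁,m₂)`: pair_far with `x_i = q m_i` (`X/max ≤ z`, `n₁ ≤ 2z`): `|PS| ≤ corB τ(qm₁)τ(qm₂) L^E (η^{-5}√(1+|t|) + η^{-5} z/√(1+|t|) + 2ηz + 1) + R^21`; `η^{-5}√(1+|t|) ≤ R^17·2 ≤ z/R^3`; corB_mul_le, gcd_pair (`M' = 2M`, `ρ² M' ≤ M'²` as `M ≥ R^4`), tau_small with exponent 6: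
sum `≤ A² L^E'' τ(q)² (q,ρ)² ρ^{-0.99} M² z (η^{-5}(1+|t|)^{-1/2} + η + R^{-3}) + ...`; and `ρ^{-0.99} η^{-5} (1+|t|)^{-1/2} ≤ 32 ρ^{-0.99+5/12}(1+|t|)^{5/12-1/2} ≤ 32 (ρ(1+|t|))^{-1/12}`.
-/

open Finset Complex

namespace Pool.Agent.MVD

open Pool.Agent.ANT Pool.Agent.SInt

namespace ZTypeIIAux

/-- Rearrangement of the sum over `k` as a double sum. -/
lemma rearr {q K N V M ns : ℕ} (hq : 1 ≤ q) (hNK : N ≤ q * K) (hns : N / (q * M) ≤ ns) (hM : 1 ≤ M)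
    (a b : ℕ → ℂ) (ha : ∀ m, m ∉ Ico M (2 * M) → a m = 0) (g : ℕ → ℂ) :
    ∑ k ∈ (Icc 1 K).filter (fun k => q * k + V ≤ N), cv a b k * g k =
      ∑ n ∈ Icc 1 ns, b n * ∑ m ∈ Ico M (2 * M), if q * (m * n) + V ≤ N then a m * g (m * n) else 0 := by
  classical
  set F : ℕ × ℕ → ℂ := fun p => a p.1 * b p.2 * g (p.1 * p.2) with hF
  set T : Finset (ℕ × ℕ) := ((Ico M (2 * M)) ×ˢ (Icc 1 ns)).filter
    (fun p => q * (p.1 * p.2) + V ≤ N) with hT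
  have e1 : ∑ n ∈ Icc 1 ns, b n * ∑ m ∈ Ico M (2 * M),
      (if q * (m * n) + V ≤ N then a m * g (m * n) else 0) = ∑ p ∈ T, F p := by
    rw [hT, Finset.sum_filter, Finset.sum_product_right]
    refine Finset.sum_congr rfl fun n _ => ?_
    rw [Finset.mul_sum]
    refine Finset.sum_congr rfl fun m _ => ?_
    simp only [hF]
    split_ifs
    · ring
    · simp
  rw [e1]
  have hmaps : ∀ p ∈ T, p.1 * p.2 ∈ (Icc 1 K).filter (fun k => q * k + V ≤ N) := by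
    intro p hp
    rw [hT, Finset.mem_filter, Finset.mem_product, Finset.mem_Ico, Finset.mem_Icc] at hp
    obtain ⟨⟨⟨h1, h2⟩, h3, h4⟩, h5⟩ := hp
    rw [Finset.mem_filter, Finset.mem_Icc]
    refine ⟨⟨Nat.mul_pos (by omega) (by omega), ?_⟩, h5⟩
    have h6 : q * (p.1 * p.2) ≤ q * K := by omega
    exact Nat.le_of_mul_le_mul_left h6 hq
  rw [← Finset.sum_fiberwise_of_maps_to hmaps]
  refine Finset.sum_congr rfl fun k hk => ?_
  rw [Finset.mem_filter, Finset.mem_Icc] at hk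
  obtain ⟨⟨hk1, hk2⟩, hk3⟩ := hk
  rw [cv, Finset.sum_mul]
  symm
  have e2 : ∀ p ∈ k.divisorsAntidiagonal, a p.1 * b p.2 * g k = F p := by
    intro p hp
    rw [Nat.mem_divisorsAntidiagonal] at hp
    simp only [hF]
    rw [hp.1]
  rw [Finset.sum_congr rfl e2]
  refine Finset.sum_subset ?_ ?_
  · intro p hp
    rw [Finset.mem_filter] at hp
    rw [Nat.mem_divisorsAntidiagonal]
    exact ⟨hp.2, by omega⟩
  · intro p hp hp2
    rw [Nat.mem_divisorsAntidiagonal] at hp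
    by_cases hm : p.1 ∈ Ico M (2 * M)
    · exfalso
      apply hp2
      rw [Finset.mem_filter, hT, Finset.mem_filter, Finset.mem_product]
      have hpk := hp.1
      rw [hpk]
      refine ⟨⟨⟨hm, ?_⟩, hk3⟩, rfl⟩
      rw [Finset.mem_Icc]
      rw [Finset.mem_Ico] at hm
      constructor
      · by_contra hcon
        have : p.2 = 0 := by omega
        rw [this, mul_zero] at hpk
        omega
      · refine le_trans ?_ hns
        rw [Nat.le_div_iff_mul_le (Nat.mul_pos hq hM)]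
        calc p.2 * (q * M) ≤ p.2 * (q * p.1) := by gcongr; exact hm.1
          _ = q * (p.1 * p.2) := by ring
          _ = q * k := by rw [hpk]
          _ ≤ N := by omega
    · simp only [hF]
      rw [ha _ hm]
      simp

/-- Cauchy's inequality and expansion of the square. -/
lemma cauchy (s t : Finset ℕ) (b : ℕ → ℂ) (H : ℕ → ℕ → ℂ) :
    ‖∑ n ∈ t, b n * ∑ m ∈ s, H m n‖ ^ 2 ≤
      (∑ n ∈ t, ‖b n‖ ^ 2) * ∑ m₁ ∈ s, ∑ m₂ ∈ s, ‖∑ n ∈ t, H m₁ n * (starRingEnd ℂ) (H m₂ n)‖ := by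
  have h1 : ‖∑ n ∈ t, b n * ∑ m ∈ s, H m n‖ ^ 2 ≤
      (∑ n ∈ t, ‖b n‖ ^ 2) * ∑ n ∈ t, ‖∑ m ∈ s, H m n‖ ^ 2 := by
    calc _ ≤ (∑ n ∈ t, ‖b n‖ * ‖∑ m ∈ s, H m n‖) ^ 2 := by
          gcongr
          refine (norm_sum_le _ _).trans (Finset.sum_le_sum fun n _ => ?_)
          rw [norm_mul]
      _ ≤ _ := Finset.sum_mul_sq_le_sq_mul_sq _ _ _
  refine h1.trans ?_
  gcongr
  have h2 : ((∑ n ∈ t, ‖∑ m ∈ s, H m n‖ ^ 2 : ℝ) : ℂ) =
      ∑ m₁ ∈ s, ∑ m₂ ∈ s, ∑ n ∈ t, H m₁ n * (starRingEnd ℂ) (H m₂ n) := by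
    push_cast
    have h3 : ∀ n ∈ t, ((‖∑ m ∈ s, H m n‖ : ℂ)) ^ 2 =
        ∑ m₁ ∈ s, ∑ m₂ ∈ s, H m₁ n * (starRingEnd ℂ) (H m₂ n) := by
      intro n _
      rw [← Complex.mul_conj', map_sum, Finset.sum_mul_sum]
    rw [Finset.sum_congr rfl h3, Finset.sum_comm]
    refine Finset.sum_congr rfl fun m₁ _ => ?_
    rw [Finset.sum_comm]
  have h4 : (∑ n ∈ t, ‖∑ m ∈ s, H m n‖ ^ 2) = ‖((∑ n ∈ t, ‖∑ m ∈ s, H m n‖ ^ 2 : ℝ) : ℂ)‖ := by
    rw [Complex.norm_real, Real.norm_of_nonneg]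
    exact Finset.sum_nonneg fun _ _ => by positivity
  rw [h4, h2]
  refine (norm_sum_le _ _).trans (Finset.sum_le_sum fun m₁ _ => norm_sum_le _ _)

/-- The inner sum is a pair sum. -/
lemma inner_eq {r : ℕ} (χ : DirichletCharacter ℂ r) (ω : ℕ → ℂ) (Y N V q ns : ℕ) (y t : ℝ) (a : ℕ → ℂ)
    (hV : V ≤ N) (hq : 1 ≤ q) {m₁ m₂ : ℕ} (h1 : 1 ≤ m₁) (h2 : 1 ≤ m₂) :
    ∑ n ∈ Icc 1 ns, (if q * (m₁ * n) + V ≤ N then
        a m₁ * (ff χ ω Y ((N : ℤ) - q * ((m₁ * n : ℕ) : ℤ)) * eit t (y - q * ((m₁ * n : ℕ) : ℝ))) else 0) *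
      (starRingEnd ℂ) (if q * (m₂ * n) + V ≤ N then
        a m₂ * (ff χ ω Y ((N : ℤ) - q * ((m₂ * n : ℕ) : ℤ)) * eit t (y - q * ((m₂ * n : ℕ) : ℝ))) else 0) =
      a m₁ * (starRingEnd ℂ) (a m₂) *
        PS χ ω Y N y t (q * m₁) (q * m₂) 0 (min ns ((N - V) / (q * max m₁ m₂))) := by
  have hset : Ioc 0 (min ns ((N - V) / (q * max m₁ m₂))) =
      (Icc 1 ns).filter (fun n => q * (m₁ * n) + V ≤ N ∧ q * (m₂ * n) + V ≤ N) := by
    ext n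
    rw [Finset.mem_Ioc, Finset.mem_filter, Finset.mem_Icc, le_min_iff,
      Nat.le_div_iff_mul_le (Nat.mul_pos hq (by omega))]
    have e : n * (q * max m₁ m₂) = max (q * (m₁ * n)) (q * (m₂ * n)) := by
      rcases le_total m₁ m₂ with h | h
      · rw [max_eq_right h, max_eq_right]
        · ring
        · gcongr
      · rw [max_eq_left h, max_eq_left]
        · ring
        · gcongr
    rw [e]
    constructor
    · rintro ⟨h3, h4, h5⟩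
      have h6 := le_max_left (q * (m₁ * n)) (q * (m₂ * n))
      have h7 := le_max_right (q * (m₁ * n)) (q * (m₂ * n))
      omega
    · rintro ⟨⟨h3, h4⟩, h5, h6⟩
      refine ⟨by omega, h4, ?_⟩
      rw [max_le_iff]
      omega
  rw [PS, hset, Finset.sum_filter, Finset.mul_sum]
  refine Finset.sum_congr rfl fun n _ => ?_
  by_cases hc1 : q * (m₁ * n) + V ≤ N
  · by_cases hc2 : q * (m₂ * n) + V ≤ N
    · rw [if_pos hc1, if_pos hc2, if_pos ⟨hc1, hc2⟩]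
      have e1 : ((N : ℤ) - ((q * m₁ : ℕ) : ℤ) * n) = (N : ℤ) - q * ((m₁ * n : ℕ) : ℤ) := by
        push_cast; ring
      have e2 : (y - ((q * m₁ : ℕ) : ℝ) * n) = y - q * ((m₁ * n : ℕ) : ℝ) := by
        push_cast; ring
      have e3 : ((N : ℤ) - ((q * m₂ : ℕ) : ℤ) * n) = (N : ℤ) - q * ((m₂ * n : ℕ) : ℤ) := by
        push_cast; ring
      have e4 : (y - ((q * m₂ : ℕ) : ℝ) * n) = y - q * ((m₂ * n : ℕ) : ℝ) := by
        push_cast; ring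
      rw [e1, e2, e3, e4, map_mul]
      ring
    · rw [if_neg hc2, if_neg (show ¬(q * (m₁ * n) + V ≤ N ∧ q * (m₂ * n) + V ≤ N) from fun h => hc2 h.2)]
      simp
  · rw [if_neg hc1, if_neg (show ¬(q * (m₁ * n) + V ≤ N ∧ q * (m₂ * n) + V ≤ N) from fun h => hc1 h.1)]
    simp

lemma u_facts {P R : ℝ} (hP : 1 ≤ P) (hR : 100 ≤ R) (hPR : P ≤ R ^ 16) :
    0 < P ^ (-(1 / 12) : ℝ) ∧ P ^ (-(1 / 12) : ℝ) ≤ 1 ∧ 2 / R ^ 2 ≤ P ^ (-(1 / 12) : ℝ) ∧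
      1 / (P ^ (-(1 / 12) : ℝ) / 2) ^ 5 ≤ 32 * R ^ 16 := by
  have hP0 : 0 < P := by linarith
  have hR0 : 0 < R := by linarith
  have h0 : 0 < P ^ (-(1 / 12) : ℝ) := Real.rpow_pos_of_pos hP0 _
  refine ⟨h0, Real.rpow_le_one_of_one_le_of_nonpos hP (by norm_num), ?_, ?_⟩
  · have h1 : P ≤ (R ^ 2 / 2) ^ 12 := by
      have h2 : (R ^ 2 / 2) ^ 12 = R ^ 16 * (R ^ 8 / 4096) := by ring
      rw [h2]
      have h3 : (1 : ℝ) ≤ R ^ 8 / 4096 := by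
        rw [le_div_iff₀ (by norm_num)]
        calc (1 : ℝ) * 4096 ≤ 100 ^ 8 := by norm_num
          _ ≤ R ^ 8 := by gcongr
      calc P ≤ R ^ 16 * 1 := by rw [mul_one]; exact hPR
        _ ≤ _ := by gcongr
    have h4 : P ^ ((1 / 12) : ℝ) ≤ R ^ 2 / 2 := by
      calc P ^ ((1 / 12) : ℝ) ≤ ((R ^ 2 / 2) ^ 12) ^ ((1 / 12) : ℝ) :=
            Real.rpow_le_rpow hP0.le h1 (by norm_num)
        _ = R ^ 2 / 2 := by
            have : ((1 / 12) : ℝ) = ((12 : ℕ) : ℝ)⁻¹ := by norm_num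
            rw [this, Real.pow_rpow_inv_natCast (by positivity) (by norm_num)]
    rw [Real.rpow_neg hP0.le, div_le_iff₀ (by positivity), ← div_eq_inv_mul,
      le_div_iff₀ (Real.rpow_pos_of_pos hP0 _)]
    linarith
  · have h5 : 1 / P ≤ (P ^ (-(1 / 12) : ℝ)) ^ 5 := by
      rw [← Real.rpow_natCast, ← Real.rpow_mul hP0.le]
      calc 1 / P = P ^ (-1 : ℝ) := by rw [Real.rpow_neg_one, one_div]
        _ ≤ _ := Real.rpow_le_rpow_of_exponent_le hP (by norm_num)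
    have h6 : 1 / (P ^ (-(1 / 12) : ℝ) / 2) ^ 5 = 32 / (P ^ (-(1 / 12) : ℝ)) ^ 5 := by
      field_simp
      norm_num
    rw [h6, div_le_iff₀ (by positivity)]
    have h7 : 1 ≤ P * (P ^ (-(1 / 12) : ℝ)) ^ 5 := by
      rw [div_le_iff₀ hP0] at h5
      linarith
    have h8 : P * (P ^ (-(1 / 12) : ℝ)) ^ 5 ≤ R ^ 16 * (P ^ (-(1 / 12) : ℝ)) ^ 5 := by gcongr
    linarith

lemma key {ρ T : ℝ} (hρ : 1 ≤ ρ) (hT : 1 ≤ T) :
    ρ ^ (1 / 100 : ℝ) / ρ * (1 / ((ρ * T) ^ (-(1 / 12) : ℝ) / 2) ^ 5 / √T) ≤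
      32 * (ρ * T) ^ (-(1 / 12) : ℝ) := by
  have hρ0 : 0 < ρ := by linarith
  have hT0 : 0 < T := by linarith
  have hPT : 0 < ρ * T := by positivity
  set u := (ρ * T) ^ (-(1 / 12) : ℝ) with hu
  have hu0 : 0 < u := Real.rpow_pos_of_pos hPT _
  have h6 : u ^ 6 = 1 / (√ρ * √T) := by
    rw [hu, ← Real.rpow_natCast, ← Real.rpow_mul hPT.le, ← Real.sqrt_mul hρ0.le, Real.sqrt_eq_rpow,
      one_div ((ρ * T) ^ (1 / 2 : ℝ)), ← Real.rpow_neg hPT.le]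
    congr 1
    norm_num
  have hsρ : 0 < √ρ := Real.sqrt_pos.mpr hρ0
  have hsT : 0 < √T := Real.sqrt_pos.mpr hT0
  have h1 : ρ ^ (1 / 100 : ℝ) ≤ √ρ := by
    rw [Real.sqrt_eq_rpow]
    exact Real.rpow_le_rpow_of_exponent_le hρ (by norm_num)
  have h2 : ρ ^ (1 / 100 : ℝ) / ρ ≤ 1 / √ρ := by
    rw [div_le_div_iff₀ hρ0 hsρ]
    calc ρ ^ (1 / 100 : ℝ) * √ρ ≤ √ρ * √ρ := by gcongr
      _ = 1 * ρ := by rw [Real.mul_self_sqrt hρ0.le, one_mul]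
  have h3 : 1 / (u / 2) ^ 5 / √T = 32 * u * (1 / √T) / u ^ 6 := by
    field_simp
    norm_num
  rw [h3]
  calc ρ ^ (1 / 100 : ℝ) / ρ * (32 * u * (1 / √T) / u ^ 6) ≤
        1 / √ρ * (32 * u * (1 / √T) / u ^ 6) := by gcongr
    _ = 32 * u * (1 / (√ρ * √T) / u ^ 6) := by field_simp
    _ = 32 * u := by rw [← h6, div_self (by positivity), mul_one]

/-- The bracket of the far pairs. -/
lemma bracket {z R ρ T : ℝ} (hR : 100 ≤ R) (hρ : 1 ≤ ρ) (hρR : ρ ≤ R) (hT : 1 ≤ T)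
    (hTR : T ≤ 2 * R ^ 14) (hz : R ^ 40 ≤ z) {u : ℝ} (hu : u = (ρ * T) ^ (-(1 / 12) : ℝ)) :
    ρ ^ (1 / 100 : ℝ) / ρ * (1 / (u / 2) ^ 5 * (√T + z / √T) + u / 2 * (2 * z) + 1) ≤
      33 * z * (u + 1 / R ^ 2) := by
  have hR0 : 0 < R := by linarith
  have hR1 : 1 ≤ R := by linarith
  have hρ0 : 0 < ρ := by linarith
  have hT0 : 0 < T := by linarith
  have hP1 : 1 ≤ ρ * T := by nlinarith
  have hPR : ρ * T ≤ R ^ 16 := by
    calc ρ * T ≤ R * (2 * R ^ 14) := by gcongr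
      _ = 2 * R ^ 15 := by ring
      _ ≤ R * R ^ 15 := by gcongr; linarith
      _ = R ^ 16 := by ring
  obtain ⟨hu0, -, -, hu5⟩ := u_facts hP1 hR hPR
  have hkey := key hρ hT
  rw [← hu] at hu0 hu5 hkey
  have hz0 : 0 < z := by
    have : 0 < R ^ 40 := by positivity
    linarith
  have hpow : ∀ a b : ℕ, a ≤ b → R ^ a ≤ R ^ b := fun a b h => pow_le_pow_right₀ hR1 h
  have hsT : 0 < √T := Real.sqrt_pos.mpr hT0
  have hsT2 : √T ≤ R ^ 15 := by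
    calc √T ≤ T := by
          rw [Real.sqrt_le_left (by linarith)]
          nlinarith
      _ ≤ 2 * R ^ 14 := hTR
      _ ≤ R * R ^ 14 := by gcongr; linarith
      _ = R ^ 15 := by ring
  have a2 : 1 / (u / 2) ^ 5 * √T ≤ z * (1 / R ^ 2) / 4 := by
    have b0 : 0 ≤ 1 / (u / 2) ^ 5 := by positivity
    calc 1 / (u / 2) ^ 5 * √T ≤ 32 * R ^ 16 * R ^ 15 := mul_le_mul hu5 hsT2 hsT.le (by positivity)
      _ = 128 * (R ^ 31) / 4 := by ring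
      _ ≤ z * (1 / R ^ 2) / 4 := by
          have b : 128 * R ^ 31 ≤ z * (1 / R ^ 2) := by
            rw [mul_one_div, le_div_iff₀ (by positivity)]
            have b1 : (128 : ℝ) ≤ R ^ 2 := by
              calc (128 : ℝ) ≤ 100 ^ 2 := by norm_num
                _ ≤ R ^ 2 := pow_le_pow_left₀ (by norm_num) hR 2
            calc 128 * R ^ 31 * R ^ 2 = 128 * R ^ 33 := by ring
              _ ≤ R ^ 2 * R ^ 33 := mul_le_mul_of_nonneg_right b1 (by positivity)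
              _ = R ^ 35 := by ring
              _ ≤ R ^ 40 := hpow 35 40 (by norm_num)
              _ ≤ z := hz
          linarith
  have a3 : 1 ≤ z * (1 / R ^ 2) / 4 := by
    have b : 4 ≤ z * (1 / R ^ 2) := by
      rw [mul_one_div, le_div_iff₀ (by positivity)]
      calc 4 * R ^ 2 ≤ R * R ^ 2 := mul_le_mul_of_nonneg_right (by linarith) (by positivity)
        _ = R ^ 3 := by ring
        _ ≤ R ^ 40 := hpow 3 40 (by norm_num)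
        _ ≤ z := hz
    linarith
  have hρpow : ρ ^ (1 / 100 : ℝ) / ρ ≤ 1 := by
    rw [div_le_one hρ0]
    calc ρ ^ (1 / 100 : ℝ) ≤ ρ ^ (1 : ℝ) := Real.rpow_le_rpow_of_exponent_le hρ (by norm_num)
      _ = ρ := Real.rpow_one ρ
  have hρpow0 : 0 ≤ ρ ^ (1 / 100 : ℝ) / ρ := by positivity
  have c2 : 0 ≤ z * (1 / R ^ 2) := by positivity
  have b1 : 1 / (u / 2) ^ 5 * (√T + z / √T) + u / 2 * (2 * z) + 1 ≤
      z * (1 / (u / 2) ^ 5 / √T) + (u * z + z * (1 / R ^ 2)) := by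
    have c1 : 1 / (u / 2) ^ 5 * (√T + z / √T) =
        1 / (u / 2) ^ 5 * √T + z * (1 / (u / 2) ^ 5 / √T) := by ring
    rw [c1]
    linarith
  calc ρ ^ (1 / 100 : ℝ) / ρ * (1 / (u / 2) ^ 5 * (√T + z / √T) + u / 2 * (2 * z) + 1) ≤
        ρ ^ (1 / 100 : ℝ) / ρ * (z * (1 / (u / 2) ^ 5 / √T) + (u * z + z * (1 / R ^ 2))) :=
        mul_le_mul_of_nonneg_left b1 hρpow0
    _ = z * (ρ ^ (1 / 100 : ℝ) / ρ * (1 / (u / 2) ^ 5 / √T)) +
        ρ ^ (1 / 100 : ℝ) / ρ * (u * z + z * (1 / R ^ 2)) := by ring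
    _ ≤ z * (32 * u) + 1 * (u * z + z * (1 / R ^ 2)) := by
        have c3 : 0 ≤ u * z + z * (1 / R ^ 2) := by positivity
        exact add_le_add (mul_le_mul_of_nonneg_left hkey hz0.le) (mul_le_mul_of_nonneg_right hρpow c3)
    _ ≤ 33 * z * (u + 1 / R ^ 2) := by linarith

/-- The final numerical estimate. -/
lemma numeric {L z M R ρ c6 τq gq Lg τρ B u LL : ℝ} {E1 E2 E3 E4 : ℕ} (hL : 1 ≤ L) (hR : 100 ≤ R)
    (hρ : 1 ≤ ρ) (hρR : ρ ≤ R) (hM : R ^ 4 ≤ M) (hz : R ^ 40 ≤ z)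
    (hLg0 : 0 ≤ Lg) (hLg : Lg ≤ 3 * L) (hc6 : 0 < c6) (hτρ : τρ ≤ c6 * ρ ^ (1 / 100 : ℝ))
    (hτq : 1 ≤ τq) (hgq : 1 ≤ gq) (hu0 : 0 < u) (hu2 : 2 / R ^ 2 ≤ u) (hB0 : 0 ≤ B)
    (hB : ρ ^ (1 / 100 : ℝ) / ρ * B ≤ 33 * z * (u + 1 / R ^ 2)) (hLL : LL = L ^ (E1 + E2 + E3 + E4)) :
    Lg ^ E2 * ((2 * (u * M) + 1) * (2 * M)) * (τq * (L ^ E1 * (2 * z) + R ^ 4)) +
      4 * τρ * Lg ^ E4 * ((2 * M) ^ 2 + ρ ^ 2 * (2 * M)) * (gq * τq / ρ * L ^ E3 * B) +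
      Lg ^ E2 * ((2 * (2 * M) + 1) * (2 * M)) * R ^ 21 ≤
    (28 * 3 ^ E2 + 792 * c6 * 3 ^ E4) * LL * τq * gq * M ^ 2 * z * (u + 1 / R ^ 2) := by
  have hR0 : 0 < R := by linarith
  have hR1 : 1 ≤ R := by linarith
  have hρ0 : 0 < ρ := by linarith
  have hM0 : 0 < M := by
    have : 0 < R ^ 4 := by positivity
    linarith
  have hz0 : 0 < z := by
    have : 0 < R ^ 40 := by positivity
    linarith
  have hM1 : 1 ≤ M := le_trans (one_le_pow₀ hR1) hM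
  have hL0 : 0 < L := by linarith
  have hE : ∀ E : ℕ, Lg ^ E ≤ 3 ^ E * L ^ E := by
    intro E
    rw [← mul_pow]
    gcongr
  have hLL0 : 0 < LL := by rw [hLL]; positivity
  have huM : 1 ≤ u * M := by
    calc (1 : ℝ) ≤ 2 * R ^ 2 := by nlinarith [one_le_pow₀ (n := 2) hR1]
      _ = 2 / R ^ 2 * R ^ 4 := by field_simp
      _ ≤ u * M := by gcongr
  have hpow : ∀ a b : ℕ, a ≤ b → R ^ a ≤ R ^ b := fun a b h => pow_le_pow_right₀ hR1 h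
  have t1 : Lg ^ E2 * ((2 * (u * M) + 1) * (2 * M)) * (τq * (L ^ E1 * (2 * z) + R ^ 4)) ≤
      18 * 3 ^ E2 * LL * τq * gq * M ^ 2 * z * u := by
    have a1 : (2 * (u * M) + 1) * (2 * M) ≤ 6 * u * M ^ 2 := by
      calc (2 * (u * M) + 1) * (2 * M) ≤ (2 * (u * M) + u * M) * (2 * M) := by gcongr
        _ = 6 * u * M ^ 2 := by ring
    have a2 : L ^ E1 * (2 * z) + R ^ 4 ≤ 3 * z * L ^ E1 := by
      have b1 : R ^ 4 ≤ z := (hpow 4 40 (by norm_num)).trans hz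
      have b2 : 1 ≤ L ^ E1 := one_le_pow₀ hL
      have b3 : z * 1 ≤ z * L ^ E1 := by gcongr
      linarith
    have a3 : L ^ (E1 + E2) ≤ LL := by rw [hLL]; exact pow_le_pow_right₀ hL (by omega)
    have a4 := hE E2
    calc _ ≤ (3 ^ E2 * L ^ E2) * (6 * u * M ^ 2) * (τq * (3 * z * L ^ E1)) := by gcongr
      _ = 18 * 3 ^ E2 * L ^ (E1 + E2) * τq * 1 * M ^ 2 * z * u := by ring
      _ ≤ 18 * 3 ^ E2 * LL * τq * gq * M ^ 2 * z * u := by gcongr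
  have t3 : Lg ^ E2 * ((2 * (2 * M) + 1) * (2 * M)) * R ^ 21 ≤
      10 * 3 ^ E2 * LL * τq * gq * M ^ 2 * z * (1 / R ^ 2) := by
    have a1 : (2 * (2 * M) + 1) * (2 * M) ≤ 10 * M ^ 2 := by nlinarith
    have a2 : R ^ 21 ≤ z * (1 / R ^ 2) := by
      rw [mul_one_div, le_div_iff₀ (by positivity), ← pow_add]
      exact (hpow (21 + 2) 40 (by norm_num)).trans hz
    have a3 : L ^ E2 ≤ LL := by rw [hLL]; exact pow_le_pow_right₀ hL (by omega)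
    have a4 := hE E2
    calc _ ≤ (3 ^ E2 * L ^ E2) * (10 * M ^ 2) * (z * (1 / R ^ 2)) := by gcongr
      _ = 10 * 3 ^ E2 * L ^ E2 * 1 * 1 * M ^ 2 * z * (1 / R ^ 2) := by ring
      _ ≤ 10 * 3 ^ E2 * LL * τq * gq * M ^ 2 * z * (1 / R ^ 2) := by gcongr
  have t2 : 4 * τρ * Lg ^ E4 * ((2 * M) ^ 2 + ρ ^ 2 * (2 * M)) * (gq * τq / ρ * L ^ E3 * B) ≤
      792 * c6 * 3 ^ E4 * LL * τq * gq * M ^ 2 * z * (u + 1 / R ^ 2) := by
    have a1 : (2 * M) ^ 2 + ρ ^ 2 * (2 * M) ≤ 6 * M ^ 2 := by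
      have b1 : ρ ^ 2 ≤ M := by
        calc ρ ^ 2 ≤ R ^ 2 := by gcongr
          _ ≤ R ^ 4 := hpow 2 4 (by norm_num)
          _ ≤ M := hM
      calc (2 * M) ^ 2 + ρ ^ 2 * (2 * M) ≤ (2 * M) ^ 2 + M * (2 * M) := by gcongr
        _ = 6 * M ^ 2 := by ring
    have a5 : L ^ (E3 + E4) ≤ LL := by rw [hLL]; exact pow_le_pow_right₀ hL (by omega)
    have a6 := hE E4
    calc _ ≤ 4 * (c6 * ρ ^ (1 / 100 : ℝ)) * (3 ^ E4 * L ^ E4) * (6 * M ^ 2) *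
          (gq * τq / ρ * L ^ E3 * B) := by gcongr
      _ = 24 * c6 * 3 ^ E4 * L ^ (E3 + E4) * τq * gq * M ^ 2 * (ρ ^ (1 / 100 : ℝ) / ρ * B) := by ring
      _ ≤ 24 * c6 * 3 ^ E4 * LL * τq * gq * M ^ 2 * (33 * z * (u + 1 / R ^ 2)) := by gcongr
      _ = _ := by ring
  have hfin : 18 * 3 ^ E2 * LL * τq * gq * M ^ 2 * z * u +
      10 * 3 ^ E2 * LL * τq * gq * M ^ 2 * z * (1 / R ^ 2) ≤
      28 * 3 ^ E2 * LL * τq * gq * M ^ 2 * z * (u + 1 / R ^ 2) := by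
    have c1 : 0 ≤ 3 ^ E2 * LL * τq * gq * M ^ 2 * z * u := by positivity
    have c2 : 0 ≤ 3 ^ E2 * LL * τq * gq * M ^ 2 * z * (1 / R ^ 2) := by positivity
    linarith
  calc _ ≤ 18 * 3 ^ E2 * LL * τq * gq * M ^ 2 * z * u +
        792 * c6 * 3 ^ E4 * LL * τq * gq * M ^ 2 * z * (u + 1 / R ^ 2) +
        10 * 3 ^ E2 * LL * τq * gq * M ^ 2 * z * (1 / R ^ 2) := add_le_add (add_le_add t1 t2) t3
    _ ≤ 28 * 3 ^ E2 * LL * τq * gq * M ^ 2 * z * (u + 1 / R ^ 2) +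
        792 * c6 * 3 ^ E4 * LL * τq * gq * M ^ 2 * z * (u + 1 / R ^ 2) := by linarith
    _ = _ := by ring

lemma corB_nonneg (r : ℕ) (N x₁ x₂ : ℤ) : 0 ≤ corB r N x₁ x₂ := by
  unfold corB
  positivity

/-- Bound of one pair. -/
lemma pair_le {PSn z M R ρ T τq gq u G c1 τ1 τ2 τx1 τx2 g2 g12 m1 m2 E1L E3L cB mx n1 : ℝ} {Xr : ℝ}
    (hL1 : 0 ≤ E1L) (hL3 : 0 ≤ E3L) (hR0 : 0 ≤ R) (hz0 : 0 ≤ z)
    (hτ1 : 1 ≤ τ1) (hτ2 : 1 ≤ τ2) (hτq : 1 ≤ τq) (hgq : 1 ≤ gq) (hρ : 0 < ρ) (hT : 0 < T)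
    (hx0 : 0 ≤ τx1 * τx2) (hx : τx1 * τx2 ≤ τq * (τ1 * τ2)) (hn0 : 0 ≤ n1) (hn1 : n1 ≤ 2 * z)
    (hu0 : 0 < u) (hg : 0 ≤ g2 * g12) (hmx : 0 < mx) (hXm : Xr / mx ≤ z) (hX0 : 0 ≤ Xr)
    (hcB : cB ≤ gq * (g2 * g12) / ρ)
    (hc1 : c1 = τq * (E1L * (2 * z) + R ^ 4))
    (hG : G = gq * τq / ρ * E3L * (1 / (u / 2) ^ 5 * (√T + z / √T) + u / 2 * (2 * z) + 1))
    (hclose : PSn ≤ τx1 * τx2 * E1L * n1 + R ^ 4)
    (hfar : u * M < |m1 - m2| →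
      PSn ≤ cB * (τx1 * τx2) * E3L * (1 / (u / 2) ^ 5 * (√T + Xr / mx / √T) + u / 2 * n1 + 1) + R ^ 21)
    (hm : |m1 - m2| ≤ 2 * M) (hne : u * M < |m1 - m2| → m1 ≠ m2) :
    τ1 * τ2 * PSn ≤ (if |m1 - m2| ≤ u * M then τ1 ^ 2 * τ2 ^ 2 else 0) * c1 +
      (τ1 ^ 2 * τ2 ^ 2 * g2 * g12 * (if m1 = m2 then 0 else 1)) * G +
      (if |m1 - m2| ≤ 2 * M then τ1 ^ 2 * τ2 ^ 2 else 0) * R ^ 21 := by
  have h12 : 1 ≤ τ1 * τ2 := by nlinarith
  have hG0 : 0 ≤ G := by rw [hG]; positivity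
  have hc10 : 0 ≤ c1 := by rw [hc1]; positivity
  rw [if_pos hm]
  rcases le_or_gt |m1 - m2| (u * M) with hcase | hcase
  · rw [if_pos hcase]
    have e1 : PSn ≤ (τ1 * τ2) * c1 := by
      calc PSn ≤ τx1 * τx2 * E1L * n1 + R ^ 4 := hclose
        _ ≤ τq * (τ1 * τ2) * E1L * (2 * z) + τq * (τ1 * τ2) * R ^ 4 := by
            have h3 : 1 ≤ τq * (τ1 * τ2) := by nlinarith
            have h4 : R ^ 4 ≤ τq * (τ1 * τ2) * R ^ 4 := by
              have : 0 ≤ R ^ 4 := by positivity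
              nlinarith
            have h5 : τx1 * τx2 * E1L * n1 ≤ τq * (τ1 * τ2) * E1L * (2 * z) := by gcongr
            linarith
        _ = (τ1 * τ2) * c1 := by rw [hc1]; ring
    have e2 : τ1 * τ2 * PSn ≤ τ1 ^ 2 * τ2 ^ 2 * c1 := by
      calc τ1 * τ2 * PSn ≤ τ1 * τ2 * ((τ1 * τ2) * c1) := by gcongr
        _ = _ := by ring
    have e3 : 0 ≤ (τ1 ^ 2 * τ2 ^ 2 * g2 * g12 * (if m1 = m2 then 0 else 1)) * G := by
      have : 0 ≤ τ1 ^ 2 * τ2 ^ 2 * g2 * g12 := by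
        have : 0 ≤ τ1 ^ 2 * τ2 ^ 2 * (g2 * g12) := by positivity
        linarith
      split_ifs
      · simp
      · rw [mul_one]; positivity
    have e4 : 0 ≤ τ1 ^ 2 * τ2 ^ 2 * R ^ 21 := by positivity
    linarith
  · rw [if_neg (not_le.mpr hcase), if_neg (hne hcase), mul_one, zero_mul, zero_add]
    have e0 := hfar hcase
    have hsT : 0 < √T := Real.sqrt_pos.mpr hT
    have e1 : cB * (τx1 * τx2) * E3L * (1 / (u / 2) ^ 5 * (√T + Xr / mx / √T) + u / 2 * n1 + 1) ≤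
        (gq * (g2 * g12) / ρ) * (τq * (τ1 * τ2)) * E3L *
          (1 / (u / 2) ^ 5 * (√T + z / √T) + u / 2 * (2 * z) + 1) := by
      gcongr
    have e2 : (gq * (g2 * g12) / ρ) * (τq * (τ1 * τ2)) * E3L *
          (1 / (u / 2) ^ 5 * (√T + z / √T) + u / 2 * (2 * z) + 1) = (g2 * g12 * (τ1 * τ2)) * G := by
      rw [hG]; ring
    have e3 : τ1 * τ2 * PSn ≤ τ1 * τ2 * ((g2 * g12 * (τ1 * τ2)) * G + R ^ 21) := by
      have : 0 ≤ τ1 * τ2 := by linarith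
      refine mul_le_mul_of_nonneg_left ?_ this
      linarith
    have e4 : τ1 * τ2 * R ^ 21 ≤ τ1 ^ 2 * τ2 ^ 2 * R ^ 21 := by
      have : 0 ≤ R ^ 21 := by positivity
      refine mul_le_mul_of_nonneg_right ?_ this
      nlinarith
    calc τ1 * τ2 * PSn ≤ τ1 * τ2 * ((g2 * g12 * (τ1 * τ2)) * G + R ^ 21) := e3
      _ = τ1 ^ 2 * τ2 ^ 2 * g2 * g12 * G + τ1 * τ2 * R ^ 21 := by ring
      _ ≤ _ := by linarith

/-- The last step: the constant is absorbed in the logarithm. -/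
lemma fin_calc {S A2 C L LL τq gq M2 z w : ℝ} (hS : 0 ≤ S) (hA : 0 ≤ A2) (hCL : C ≤ L) (hLL : 0 ≤ LL)
    (hτq : 0 ≤ τq) (hgq : 0 ≤ gq) (hM : 0 ≤ M2) (hz : 0 ≤ z) (hw : 0 ≤ w) :
    S * (A2 * (C * LL * τq * gq * M2 * z * w)) ≤ S * A2 * (LL * L) * τq * gq * M2 * z * w := by
  calc S * (A2 * (C * LL * τq * gq * M2 * z * w)) = C * (S * A2 * LL * τq * gq * M2 * z * w) := by ring
    _ ≤ L * (S * A2 * LL * τq * gq * M2 * z * w) := mul_le_mul_of_nonneg_right hCL (by positivity)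
    _ = _ := by ring

/-- Enlarging the range of a double sum of nonnegative terms. -/
lemma double_le (M : ℕ) (F : ℕ → ℕ → ℝ) (hF : ∀ m n, 0 ≤ F m n) :
    ∑ m₁ ∈ Ico M (2 * M), ∑ m₂ ∈ Ico M (2 * M), F m₁ m₂ ≤
      ∑ m₁ ∈ Icc 1 (2 * M), ∑ m₂ ∈ Icc 1 (2 * M), F m₁ m₂ := by
  have hsub : Ico M (2 * M) ⊆ Icc 1 (2 * M) := by
    intro m hm
    rw [Finset.mem_Ico] at hm
    rw [Finset.mem_Icc]
    omega
  refine (Finset.sum_le_sum fun m₁ _ => Finset.sum_le_sum_of_subset_of_nonneg hsub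
    fun _ _ _ => hF _ _).trans ?_
  exact Finset.sum_le_sum_of_subset_of_nonneg hsub fun m₁ _ _ => Finset.sum_nonneg fun _ _ => hF _ _

end ZTypeIIAux

open ZTypeIIAux in
theorem Z_typeII {κ : ℝ} (hκ : 0 < κ) (hκ1 : κ ≤ 1 / 1000) : ∃ E X₀ : ℕ, ∀ X : ℕ, X₀ ≤ X →
    ∀ (N r Y : ℕ) (χ : DirichletCharacter ℂ r) (ω : ℕ → ℂ) (y t : ℝ), ZOK κ X N r Y χ ω y t →
    ∀ (q M K : ℕ) (A : ℝ) (a b : ℕ → ℂ), 1 ≤ q → mR κ X ^ 4 ≤ M → q * M * mR κ X ^ 40 ≤ X → N ≤ q * K → 0 ≤ A →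
    (∀ m, m ∉ Ico M (2 * M) → a m = 0) → (∀ m, ‖a m‖ ≤ A * tauR m) →
    ‖∑ k ∈ (Icc 1 K).filter (fun k => q * k + mV κ X ≤ N), cv a b k * ff χ ω Y ((N : ℤ) - q * k) *
        eit t (y - q * k)‖ ^ 2 ≤
      (∑ n ∈ Icc 1 (2 * X / (q * M)), ‖b n‖ ^ 2) * A ^ 2 * Real.log X ^ E * tauR q ^ 2 *
        (Nat.gcd q (rp r N) : ℝ) ^ 2 * (M : ℝ) ^ 2 * ((X : ℝ) / (q * M)) *
        (((rp r N : ℝ) * (1 + |t|)) ^ (-(1 / 12) : ℝ) + 1 / (mR κ X : ℝ) ^ 2) := by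
  obtain ⟨E1, X1, h1⟩ := pair_triv hκ hκ1
  obtain ⟨E3, X3, h3⟩ := pair_far hκ hκ1
  obtain ⟨E2, h2⟩ := close_pairs
  obtain ⟨E4, h4⟩ := gcd_pair
  obtain ⟨c6, hc6, h6⟩ := tau_small 6
  obtain ⟨X5, h5⟩ := par_ok hκ hκ1
  set C : ℝ := 28 * 3 ^ E2 + 792 * c6 * 3 ^ E4 with hC
  have hC0 : 0 < C := by positivity
  refine ⟨E1 + E2 + E3 + E4 + 1, max (max X1 X3) (max X5 ⌈Real.exp C⌉₊), ?_⟩
  intro X hX N r Y χ ω y t hZ q M K A a b hq hM hqM hNK hA ha hab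
  have hXa : X1 ≤ X := le_trans (le_trans (le_max_left _ _) (le_max_left _ _)) hX
  have hXb : X3 ≤ X := le_trans (le_trans (le_max_right _ _) (le_max_left _ _)) hX
  have hXc : X5 ≤ X := le_trans (le_trans (le_max_left _ _) (le_max_right _ _)) hX
  have hXd : ⌈Real.exp C⌉₊ ≤ X := le_trans (le_trans (le_max_right _ _) (le_max_right _ _)) hX
  have hP := h5 X hXc
  obtain ⟨hy0, hy2, hyX, hN2, hrR, hYR, hV0, hxn, htl⟩ := hZ.facts hP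
  have hVN : mV κ X ≤ N := by
    have e1 := hP.V1
    have e2 := hP.W1
    have e3 := hZ.N1
    have e4 : 1 ≤ mR κ X ^ 3 := Nat.one_le_pow _ _ (by have := hP.R2; omega)
    have e5 : mV κ X * 1 ≤ mV κ X * mR κ X ^ 3 := Nat.mul_le_mul_left _ e4
    omega
  set L := Real.log X with hL
  set R : ℝ := (mR κ X : ℝ) with hR
  have hR100 : 100 ≤ R := by rw [hR]; exact_mod_cast hP.R2
  have hRnat : 1 ≤ mR κ X := by have := hP.R2; omega
  have hM1 : 1 ≤ M := le_trans (Nat.one_le_pow _ _ hRnat) hM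
  have hX1000 := hP.X3
  have hXpos : (0 : ℝ) < X := by
    have : 0 < X := by omega
    exact_mod_cast this
  have hLC : C ≤ L := by
    rw [hL, Real.le_log_iff_exp_le hXpos]
    exact le_trans (Nat.le_ceil _) (by exact_mod_cast hXd)
  have hL1 : 1 ≤ L := by
    rw [hL, Real.le_log_iff_exp_le hXpos]
    have e1 : Real.exp 1 ≤ 3 := by have := Real.exp_one_lt_d9; linarith
    have e2 : (1000 : ℝ) ≤ X := by exact_mod_cast hX1000
    linarith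
  set ρ : ℝ := (rp r N : ℝ) with hρdef
  have hρ1 : 1 ≤ ρ := by rw [hρdef]; exact_mod_cast rp_pos hZ.r1
  have hρnat : 1 ≤ rp r N := rp_pos hZ.r1
  have hρR : ρ ≤ R := by
    rw [hρdef, hR]
    exact_mod_cast (rp_le r N).trans hrR
  set T : ℝ := 1 + |t| with hT
  have hT1 : 1 ≤ T := by rw [hT]; have := abs_nonneg t; linarith
  have hTR : T ≤ 2 * R ^ 14 := by
    have e1 : |t| ≤ R ^ 14 := hZ.t1
    have e2 : (1 : ℝ) ≤ R ^ 14 := one_le_pow₀ (by linarith)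
    rw [hT]; linarith
  set u : ℝ := (ρ * T) ^ (-(1 / 12) : ℝ) with hu
  have hPT1 : 1 ≤ ρ * T := by nlinarith
  have hPTR : ρ * T ≤ R ^ 16 := by
    calc ρ * T ≤ R * (2 * R ^ 14) := by gcongr
      _ = 2 * R ^ 15 := by ring
      _ ≤ R * R ^ 15 := mul_le_mul_of_nonneg_right (by linarith) (by positivity)
      _ = R ^ 16 := by ring
  obtain ⟨hu0, hu1, hu2, -⟩ := u_facts hPT1 hR100 hPTR
  rw [← hu] at hu0 hu1 hu2
  have hqR : (1 : ℝ) ≤ q := by exact_mod_cast hq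
  have hMR : R ^ 4 ≤ (M : ℝ) := by rw [hR]; exact_mod_cast hM
  have hM0 : (0 : ℝ) < M := by exact_mod_cast hM1
  have hqM0 : (0 : ℝ) < q * M := by positivity
  set z : ℝ := (X : ℝ) / (q * M) with hz
  have hzR : R ^ 40 ≤ z := by
    rw [hz, le_div_iff₀ hqM0, hR]
    have : ((q * M * mR κ X ^ 40 : ℕ) : ℝ) ≤ (X : ℝ) := by exact_mod_cast hqM
    push_cast at this
    linarith
  have hz0 : 0 < z := by positivity
  set ns := 2 * X / (q * M) with hns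
  have hns2 : (ns : ℝ) ≤ 2 * z := by
    rw [hns]
    refine (Nat.cast_div_le).trans (le_of_eq ?_)
    rw [hz]; push_cast; ring
  have hNns : N / (q * M) ≤ ns := Nat.div_le_div_right hN2
  set g : ℕ → ℂ := fun k => ff χ ω Y ((N : ℤ) - q * (k : ℤ)) * eit t (y - q * (k : ℝ)) with hg
  have hsum : ∑ k ∈ (Icc 1 K).filter (fun k => q * k + mV κ X ≤ N),
      cv a b k * ff χ ω Y ((N : ℤ) - q * k) * eit t (y - q * k) =
      ∑ k ∈ (Icc 1 K).filter (fun k => q * k + mV κ X ≤ N), cv a b k * g k :=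
    Finset.sum_congr rfl fun k _ => by rw [hg, mul_assoc]
  rw [hsum, rearr hq hNK hNns hM1 a b ha g]
  refine (cauchy (Ico M (2 * M)) (Icc 1 ns) b
    (fun m n => if q * (m * n) + mV κ X ≤ N then a m * g (m * n) else 0)).trans ?_
  have hbnn : 0 ≤ ∑ n ∈ Icc 1 ns, ‖b n‖ ^ 2 := Finset.sum_nonneg fun _ _ => by positivity
  -- the logarithm of `2 M`
  set Lg : ℝ := 1 + Real.log ((2 * M : ℕ) : ℝ) with hLg
  have hLg0 : 0 ≤ Lg := by
    have : 0 ≤ Real.log ((2 * M : ℕ) : ℝ) := Real.log_natCast_nonneg _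
    rw [hLg]; linarith
  have hLg3 : Lg ≤ 3 * L := by
    have e1 : 2 * M ≤ X := by
      have e2 : 2 ≤ mR κ X ^ 40 := by
        calc 2 ≤ mR κ X ^ 1 := by have := hP.R2; rw [pow_one]; omega
          _ ≤ mR κ X ^ 40 := Nat.pow_le_pow_right hRnat (by norm_num)
      calc 2 * M = 1 * M * 2 := by ring
        _ ≤ q * M * mR κ X ^ 40 := by gcongr
        _ ≤ X := hqM
    have e3 : Real.log ((2 * M : ℕ) : ℝ) ≤ L := by
      rw [hL]
      refine Real.log_le_log ?_ (by exact_mod_cast e1)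
      have : 0 < 2 * M := by omega
      exact_mod_cast this
    rw [hLg]; linarith
  set τq : ℝ := tauR q ^ 2 with hτq
  have hτq1' : 1 ≤ tauR q := one_le_tauR (by omega)
  have hτq1 : 1 ≤ τq := by rw [hτq]; exact one_le_pow₀ hτq1'
  set gq : ℝ := (Nat.gcd q (rp r N) : ℝ) ^ 2 with hgq
  have hgq1 : 1 ≤ gq := by
    rw [hgq]
    refine one_le_pow₀ ?_
    have : 1 ≤ Nat.gcd q (rp r N) := Nat.gcd_pos_of_pos_left _ (by omega)
    exact_mod_cast this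
  set B : ℝ := 1 / (u / 2) ^ 5 * (√T + z / √T) + u / 2 * (2 * z) + 1 with hB
  have hB0 : 0 ≤ B := by positivity
  have hBb : ρ ^ (1 / 100 : ℝ) / ρ * B ≤ 33 * z * (u + 1 / R ^ 2) := by
    rw [hB]
    exact bracket hR100 hρ1 hρR hT1 hTR hzR hu
  set c1 : ℝ := τq * (L ^ E1 * (2 * z) + R ^ 4) with hc1
  set G : ℝ := gq * τq / ρ * L ^ E3 * B with hG
  have hG0 : 0 ≤ G := by
    have : 0 < ρ := by linarith
    positivity
  have hc10 : 0 ≤ c1 := by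
    have : 0 ≤ R := by linarith
    positivity
  have hR0 : 0 ≤ R := by linarith
  -- pointwise bound
  have hpt : ∀ m₁ ∈ Ico M (2 * M), ∀ m₂ ∈ Ico M (2 * M),
      ‖∑ n ∈ Icc 1 ns, (if q * (m₁ * n) + mV κ X ≤ N then a m₁ * g (m₁ * n) else 0) *
        (starRingEnd ℂ) (if q * (m₂ * n) + mV κ X ≤ N then a m₂ * g (m₂ * n) else 0)‖ ≤
      A ^ 2 * ((if |(m₁ : ℝ) - m₂| ≤ u * M then tauR m₁ ^ 2 * tauR m₂ ^ 2 else 0) * c1 +
        (tauR m₁ ^ 2 * tauR m₂ ^ 2 * (Nat.gcd m₂ (rp r N) : ℝ) *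
          (Int.gcd ((m₁ : ℤ) - m₂) (rp r N) : ℝ) * (if m₁ = m₂ then 0 else 1)) * G +
        (if |(m₁ : ℝ) - m₂| ≤ 2 * M then tauR m₁ ^ 2 * tauR m₂ ^ 2 else 0) * R ^ 21) := by
    intro m₁ hm₁ m₂ hm₂
    rw [Finset.mem_Ico] at hm₁ hm₂
    have hm₁1 : 1 ≤ m₁ := by omega
    have hm₂1 : 1 ≤ m₂ := by omega
    rw [hg, inner_eq χ ω Y N (mV κ X) q ns y t a hVN hq hm₁1 hm₂1, norm_mul, norm_mul,
      RCLike.norm_conj]
    set n₁ := min ns ((N - mV κ X) / (q * max m₁ m₂)) with hn₁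
    have hn₁2 : (n₁ : ℝ) ≤ 2 * z := le_trans (by exact_mod_cast min_le_left _ _) hns2
    have hx1 : 1 ≤ q * m₁ := Nat.mul_pos hq hm₁1
    have hx2 : 1 ≤ q * m₂ := Nat.mul_pos hq hm₂1
    have hmaxmul : max (q * m₁) (q * m₂) = q * max m₁ m₂ := by
      rcases le_total m₁ m₂ with h | h
      · rw [max_eq_right h, max_eq_right (Nat.mul_le_mul_left _ h)]
      · rw [max_eq_left h, max_eq_left (Nat.mul_le_mul_left _ h)]
    have hτ1 : 1 ≤ tauR m₁ := one_le_tauR (by omega)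
    have hτ2 : 1 ≤ tauR m₂ := one_le_tauR (by omega)
    have hmaxR : (q : ℝ) * M ≤ ((max (q * m₁) (q * m₂) : ℕ) : ℝ) := by
      rw [hmaxmul]
      have : q * M ≤ q * max m₁ m₂ := Nat.mul_le_mul_left _ (le_trans hm₁.1 (le_max_left _ _))
      exact_mod_cast this
    have hmaxR2 : ((max (q * m₁) (q * m₂) : ℕ) : ℝ) ≤ q * (2 * M) := by
      rw [hmaxmul]
      have : q * max m₁ m₂ ≤ q * (2 * M) := Nat.mul_le_mul_left _ (max_le hm₁.2.le hm₂.2.le)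
      exact_mod_cast this
    have hb1 : (M : ℝ) ≤ m₁ := by exact_mod_cast hm₁.1
    have hb2 : (M : ℝ) ≤ m₂ := by exact_mod_cast hm₂.1
    have hb3 : (m₁ : ℝ) ≤ 2 * M := by exact_mod_cast hm₁.2.le
    have hb4 : (m₂ : ℝ) ≤ 2 * M := by exact_mod_cast hm₂.2.le
    have hpair := pair_le (PSn := ‖PS χ ω Y N y t (q * m₁) (q * m₂) 0 n₁‖) (z := z)
      (M := M) (R := R) (ρ := ρ) (T := T) (τq := τq) (gq := gq) (u := u) (G := G) (c1 := c1)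
      (τ1 := tauR m₁) (τ2 := tauR m₂) (τx1 := tauR (q * m₁)) (τx2 := tauR (q * m₂))
      (g2 := (Nat.gcd m₂ (rp r N) : ℝ)) (g12 := (Int.gcd ((m₁ : ℤ) - m₂) (rp r N) : ℝ))
      (m1 := (m₁ : ℝ)) (m2 := (m₂ : ℝ)) (E1L := L ^ E1) (E3L := L ^ E3)
      (cB := corB r N (q * m₁ : ℕ) (q * m₂ : ℕ)) (mx := ((max (q * m₁) (q * m₂) : ℕ) : ℝ))
      (n1 := (n₁ : ℝ)) (Xr := (X : ℝ)) (by positivity) (by positivity) hR0 hz0.le hτ1 hτ2 hτq1 hgq1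
      (by linarith) (by linarith) (mul_nonneg (tauR_nonneg _) (tauR_nonneg _)) ?_ (Nat.cast_nonneg _)
      hn₁2 hu0 (by positivity) (by linarith) ?_ hXpos.le ?_ rfl rfl ?_ ?_ ?_ ?_
    · have hcast : (if (m₁ : ℝ) = (m₂ : ℝ) then (0 : ℝ) else 1) = if m₁ = m₂ then 0 else 1 := by
        simp only [Nat.cast_inj]
      rw [hcast] at hpair
      calc ‖a m₁‖ * ‖a m₂‖ * ‖PS χ ω Y N y t (q * m₁) (q * m₂) 0 n₁‖ ≤
            (A * tauR m₁) * (A * tauR m₂) * ‖PS χ ω Y N y t (q * m₁) (q * m₂) 0 n₁‖ := by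
            have i1 := hab m₁
            have i2 := hab m₂
            gcongr
        _ = A ^ 2 * (tauR m₁ * tauR m₂ * ‖PS χ ω Y N y t (q * m₁) (q * m₂) 0 n₁‖) := by ring
        _ ≤ _ := mul_le_mul_of_nonneg_left hpair (by positivity)
    · calc tauR (q * m₁) * tauR (q * m₂) ≤ (tauR q * tauR m₁) * (tauR q * tauR m₂) :=
            mul_le_mul (tauR_mul_le _ _) (tauR_mul_le _ _) (tauR_nonneg _)
              (mul_nonneg (tauR_nonneg _) (tauR_nonneg _))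
        _ = τq * (tauR m₁ * tauR m₂) := by rw [hτq]; ring
    · rw [hz]
      exact div_le_div_of_nonneg_left hXpos.le hqM0 hmaxR
    · refine (corB_mul_le hZ.r1 hq).trans (le_of_eq ?_)
      rw [hgq]
    · have := h1 X hXa N r Y χ ω y t hZ (q * m₁) (q * m₂) 0 n₁ hx1 hx2
      simpa using this
    · intro hfar
      refine h3 X hXb N r Y χ ω y t hZ (q * m₁) (q * m₂) 0 n₁ (u / 2) hx1 hx2 (by positivity)
        (by linarith) ?_ ?_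
      · have e1 : |((q * m₁ : ℕ) : ℝ) - ((q * m₂ : ℕ) : ℝ)| = q * |(m₁ : ℝ) - m₂| := by
          push_cast
          rw [← mul_sub, abs_mul, abs_of_nonneg (by linarith)]
        rw [e1]
        calc u / 2 * ((max (q * m₁) (q * m₂) : ℕ) : ℝ) ≤ u / 2 * (q * (2 * M)) := by gcongr
          _ = q * (u * M) := by ring
          _ ≤ q * |(m₁ : ℝ) - m₂| := by gcongr
      · rw [hmaxmul]
        have e1 : n₁ ≤ (N - mV κ X) / (q * max m₁ m₂) := min_le_right _ _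
        have e2 : q * max m₁ m₂ * n₁ ≤ N - mV κ X := by
          calc q * max m₁ m₂ * n₁ ≤ q * max m₁ m₂ * ((N - mV κ X) / (q * max m₁ m₂)) := by gcongr
            _ ≤ N - mV κ X := Nat.mul_div_le _ _
        omega
    · rw [abs_le]
      constructor <;> linarith
    · intro hfar heq
      rw [heq, sub_self, abs_zero] at hfar
      have : 0 < u * M := by positivity
      linarith
  have hdouble : ∑ m₁ ∈ Ico M (2 * M), ∑ m₂ ∈ Ico M (2 * M),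
      ‖∑ n ∈ Icc 1 ns, (if q * (m₁ * n) + mV κ X ≤ N then a m₁ * g (m₁ * n) else 0) *
        (starRingEnd ℂ) (if q * (m₂ * n) + mV κ X ≤ N then a m₂ * g (m₂ * n) else 0)‖ ≤
      A ^ 2 * (C * L ^ (E1 + E2 + E3 + E4) * τq * gq * (M : ℝ) ^ 2 * z * (u + 1 / R ^ 2)) := by
    refine (Finset.sum_le_sum fun m₁ hm₁ => Finset.sum_le_sum fun m₂ hm₂ =>
      hpt m₁ hm₁ m₂ hm₂).trans ?_
    simp_rw [← Finset.mul_sum]
    refine mul_le_mul_of_nonneg_left ?_ (by positivity)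
    refine (double_le M _ fun m n => ?_).trans ?_
    · refine add_nonneg (add_nonneg (mul_nonneg ?_ hc10) (mul_nonneg ?_ hG0))
        (mul_nonneg ?_ (by positivity))
      · split_ifs
        · positivity
        · exact le_rfl
      · split_ifs
        · simp
        · positivity
      · split_ifs
        · positivity
        · exact le_rfl
    · simp_rw [Finset.sum_add_distrib, ← Finset.sum_mul]
      have k1 := h2 (2 * M) (u * M) (by omega) (by positivity)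
      have k2 := h4 (rp r N) (2 * M) hρnat (by omega)
      have k3 := h2 (2 * M) (2 * M) (by omega) (by positivity)
      have k6 := h6 (rp r N) hρnat
      rw [← hLg] at k1 k2 k3
      have k1' := mul_le_mul_of_nonneg_right k1 hc10
      have k2' := mul_le_mul_of_nonneg_right k2 hG0
      have k3' := mul_le_mul_of_nonneg_right k3 (show 0 ≤ R ^ 21 by positivity)
      refine (add_le_add (add_le_add k1' k2') k3').trans ?_
      push_cast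
      exact numeric (L := L) (z := z) (M := M) (R := R) (ρ := ρ) (c6 := c6) (τq := τq)
        (gq := gq) (Lg := Lg) (τρ := tauR (rp r N) ^ 6) (B := B) (u := u) hL1 hR100 hρ1 hρR hMR hzR
        hLg0 hLg3 hc6 k6 hτq1 hgq1 hu0 hu2 hB0 hBb rfl
  have hLL0 : 0 ≤ L ^ (E1 + E2 + E3 + E4) := by positivity
  refine (mul_le_mul_of_nonneg_left hdouble hbnn).trans ?_
  rw [pow_succ L]
  exact fin_calc hbnn (by positivity) hLC hLL0 (by positivity) (by positivity) (by positivity)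
    hz0.le (by positivity)

end Pool.Agent.MVD
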